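import Pool.Agent.Hhelper30.Forsythe.RS

/-! Module G-SUP of the counterexample to Forsythe's conjecture: selection of the parameter. -/

set_option autoImplicit false

namespace Pool.Agent.Hhelper30.Forsythe

open Filter Topology Set

/-- parity as a boolean -/
def eb : ℕ → Bool
  | 0 => true
  | n + 1 => !(eb n)

theorem eb_iff (n : ℕ) : (eb n = true ↔ Even n) ∧ (eb n = false ↔ Odd n) := by
  induction n with
  | zero => simp [eb]
  | succ n ih =>
    obtain ⟨h1, h2⟩ := ih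
    constructor
    · rw [eb, Bool.not_eq_true', h2, Nat.even_add_one, Nat.not_even_iff_odd]
    · rw [eb, Bool.not_eq_false', h1, Nat.odd_add_one, Nat.not_odd_iff_even]

/-- the chain may be continued at `n` -/
def SGood (CH D0 δ : ℝ) (G : ℕ → ℝ) (Cl : Bool → ℝ → ℝ → ℕ → Prop) (ks : ℕ → ℕ) (gs Ds : ℕ → ℝ)
    (n : ℕ) : Prop :=
  Cl (eb n) (gs n) (Ds n) (ks n) ∧ D0 ≤ Ds n ∧ G (ks n) + CH * gs n ≤ δ

/-- one step of the chain -/
structure SStep (CH : ℝ) (X Y G : ℕ → ℝ) (Cl : Bool → ℝ → ℝ → ℕ → Prop) (ks : ℕ → ℕ)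
    (gs Ds : ℕ → ℝ) (n : ℕ) : Prop where
  lt : ks n < ks (n + 1)
  cn : Cl (eb (n + 1)) (gs (n + 1)) (Ds (n + 1)) (ks (n + 1))
  g2 : 2 * gs n ≤ gs (n + 1)
  gC : gs (n + 1) ≤ CH * gs n
  DC : Ds n ≤ CH * Ds (n + 1)
  D2 : 2 * Ds (n + 1) ≤ Ds n
  kD : ((ks (n + 1) : ℝ) - ks n) * gs n ≤ CH * Ds n
  Gg : gs (n + 1) / CH ≤ G (ks (n + 1)) - G (ks n)
  win : ∀ j, ks n ≤ j → j ≤ ks (n + 1) → G (ks n) ≤ G j ∧ G j ≤ G (ks n) + CH * gs n ∧
    Ds n ≤ CH * (X j + Y j + 4 * Real.log (gs n) + CH)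

theorem chain_exists (CH D0 δ g l : ℝ) (X Y G : ℕ → ℝ) (Cl : Bool → ℝ → ℝ → ℕ → Prop)
    (hstep : ∀ b g' D k, Cl b g' D k → D0 ≤ D → G k + CH * g' ≤ δ →
      ∃ k' g'' D', k < k' ∧ Cl (!b) g'' D' k' ∧ 2 * g' ≤ g'' ∧ g'' ≤ CH * g' ∧ D ≤ CH * D' ∧
        2 * D' ≤ D ∧ ((k' : ℝ) - k) * g' ≤ CH * D ∧ g'' / CH ≤ G k' - G k ∧
        ∀ j, k ≤ j → j ≤ k' → G k ≤ G j ∧ G j ≤ G k + CH * g' ∧
          D ≤ CH * (X j + Y j + 4 * Real.log g' + CH)) :
    ∃ (ks : ℕ → ℕ) (gs Ds : ℕ → ℝ), ks 0 = 0 ∧ gs 0 = g ∧ Ds 0 = l ∧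
      ∀ n, SGood CH D0 δ G Cl ks gs Ds n → SStep CH X Y G Cl ks gs Ds n := by
  have key : ∀ (n : ℕ) (s : ℝ × ℝ × ℕ), ∃ s' : ℝ × ℝ × ℕ,
      (Cl (eb n) s.1 s.2.1 s.2.2 ∧ D0 ≤ s.2.1 ∧ G s.2.2 + CH * s.1 ≤ δ) →
      (s.2.2 < s'.2.2 ∧ Cl (eb (n + 1)) s'.1 s'.2.1 s'.2.2 ∧ 2 * s.1 ≤ s'.1 ∧ s'.1 ≤ CH * s.1 ∧
        s.2.1 ≤ CH * s'.2.1 ∧ 2 * s'.2.1 ≤ s.2.1 ∧
        ((s'.2.2 : ℝ) - s.2.2) * s.1 ≤ CH * s.2.1 ∧ s'.1 / CH ≤ G s'.2.2 - G s.2.2 ∧
        ∀ j, s.2.2 ≤ j → j ≤ s'.2.2 → G s.2.2 ≤ G j ∧ G j ≤ G s.2.2 + CH * s.1 ∧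
          s.2.1 ≤ CH * (X j + Y j + 4 * Real.log s.1 + CH)) := by
    intro n s
    by_cases h : Cl (eb n) s.1 s.2.1 s.2.2 ∧ D0 ≤ s.2.1 ∧ G s.2.2 + CH * s.1 ≤ δ
    · obtain ⟨k', g'', D', h1⟩ := hstep _ _ _ _ h.1 h.2.1 h.2.2
      exact ⟨(g'', D', k'), fun _ => h1⟩
    · exact ⟨s, fun h' => absurd h' h⟩
  choose F hF using key
  let seq : ℕ → ℝ × ℝ × ℕ := fun n => Nat.rec (g, l, 0) (fun n s => F n s) n
  have hs : ∀ n, seq (n + 1) = F n (seq n) := fun n => rfl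
  refine ⟨fun n => (seq n).2.2, fun n => (seq n).1, fun n => (seq n).2.1, rfl, rfl, rfl, ?_⟩
  intro n hn
  obtain ⟨h1, h2, h3, h4, h5, h6, h7, h8, h9⟩ := hF n (seq n) hn
  rw [← hs] at h1 h2 h3 h4 h5 h6 h7 h8 h9
  exact ⟨h1, h2, h3, h4, h5, h6, h7, h8, h9⟩

/-- facts about a chain as long as it continues -/
structure CFacts (CH g l : ℝ) (G : ℕ → ℝ) (Cl : Bool → ℝ → ℝ → ℕ → Prop)
    (ks : ℕ → ℕ) (gs Ds : ℕ → ℝ) (n : ℕ) : Prop where
  cn : Cl (eb n) (gs n) (Ds n) (ks n)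
  gpos : 0 < gs n
  g2 : 2 ^ n * g ≤ gs n
  gC : gs n ≤ CH ^ n * g
  G0 : 0 ≤ G (ks n)
  G1 : G (ks n) ≤ CH * gs n
  G2 : gs n ≤ CH * (G (ks n) + g)
  G3 : 1 ≤ n → gs n ≤ CH * G (ks n)
  D1 : l ≤ CH ^ n * Ds n
  D2 : Ds n ≤ l
  kn : n ≤ ks n
  kg : (ks n : ℝ) * g ≤ n * (CH * l)

theorem cfacts (CH D0 δ g l : ℝ) (hCH : 1 ≤ CH) (hD0 : 1 ≤ D0) (hg : 0 < g) (hl : D0 ≤ l)
    (X Y G : ℕ → ℝ) (Cl : Bool → ℝ → ℝ → ℕ → Prop) (ks : ℕ → ℕ) (gs Ds : ℕ → ℝ)
    (hk0 : ks 0 = 0) (hg0 : gs 0 = g) (hDs0 : Ds 0 = l) (hCl : Cl true g l 0) (hG0 : G 0 = 0)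
    (hS : ∀ n, SGood CH D0 δ G Cl ks gs Ds n → SStep CH X Y G Cl ks gs Ds n)
    (n : ℕ) (hP : ∀ i < n, SGood CH D0 δ G Cl ks gs Ds i) : CFacts CH g l G Cl ks gs Ds n := by
  induction n with
  | zero =>
    have hCHpos : 0 < CH := by linarith
    refine ⟨?_, ?_, ?_, ?_, ?_, ?_, ?_, ?_, ?_, ?_, ?_, ?_⟩
    · rw [hk0, hg0, hDs0]; exact hCl
    · rw [hg0]; exact hg
    · rw [hg0]; simp
    · rw [hg0]; simp
    · rw [hk0, hG0]
    · rw [hk0, hG0, hg0]; positivity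
    · rw [hk0, hG0, hg0]; nlinarith
    · intro h; omega
    · rw [hDs0]; simp
    · rw [hDs0]
    · omega
    · rw [hk0]; simp
  | succ n ih =>
    have F := ih (fun i hi => hP i (by omega))
    have hg' := hP n (by omega)
    have T := hS n hg'
    have hCHpos : 0 < CH := by linarith
    have hDn : D0 ≤ Ds n := hg'.2.1
    have w := T.win (ks (n + 1)) T.lt.le le_rfl
    have hgs : 0 < gs n := F.gpos
    have hGg := T.Gg
    rw [div_le_iff₀ hCHpos] at hGg
    refine ⟨T.cn, by linarith [T.g2], ?_, ?_, ?_, ?_, ?_, ?_, ?_, ?_, ?_, ?_⟩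
    · have := F.g2
      have h2 := T.g2
      rw [pow_succ]
      linarith
    · have h1 := F.gC
      have h2 := T.gC
      calc gs (n + 1) ≤ CH * gs n := h2
        _ ≤ CH * (CH ^ n * g) := mul_le_mul_of_nonneg_left h1 hCHpos.le
        _ = CH ^ (n + 1) * g := by ring
    · linarith [F.G0, w.1]
    · have h1 := w.2.1
      have h2 := F.G1
      have h3 := mul_le_mul_of_nonneg_left T.g2 hCHpos.le
      linarith
    · nlinarith [F.G0, hg.le]
    · intro _
      nlinarith [F.G0]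
    · have h1 := F.D1
      calc l ≤ CH ^ n * Ds n := h1
        _ ≤ CH ^ n * (CH * Ds (n + 1)) := mul_le_mul_of_nonneg_left T.DC (by positivity)
        _ = CH ^ (n + 1) * Ds (n + 1) := by ring
    · have h1 := F.D2
      have h2 := T.D2
      linarith
    · have := T.lt
      have := F.kn
      omega
    · have h1 := F.kg
      have h2 := T.kD
      have h3 := F.D2
      have h4 := T.lt
      have h5 : (0 : ℝ) ≤ (ks (n + 1) : ℝ) - ks n := by
        have : (ks n : ℝ) < ks (n + 1) := by exact_mod_cast h4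
        linarith
      have h6 : g ≤ gs n := by
        have := F.g2
        have h7 : (1 : ℝ) ≤ 2 ^ n := one_le_pow₀ (by norm_num)
        nlinarith
      have h8 : ((ks (n + 1) : ℝ) - ks n) * g ≤ CH * l := by
        calc ((ks (n + 1) : ℝ) - ks n) * g ≤ ((ks (n + 1) : ℝ) - ks n) * gs n :=
              mul_le_mul_of_nonneg_left h6 h5
          _ ≤ CH * Ds n := h2
          _ ≤ CH * l := mul_le_mul_of_nonneg_left h3 hCHpos.le
      push_cast
      nlinarith

/-- the slowly varying potential -/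
noncomputable def Lam (g : ℝ) (X Y G : ℕ → ℝ) (k : ℕ) : ℝ :=
  X k + Y k + 4 * Real.log (max (G k) 0 + g)

theorem good_of (CH D0 δ δ' g l : ℝ) (hCH : 1 ≤ CH)
    (G : ℕ → ℝ) (Cl : Bool → ℝ → ℝ → ℕ → Prop) (ks : ℕ → ℕ) (gs Ds : ℕ → ℝ)
    (hk0 : ks 0 = 0) (hg0 : gs 0 = g) (hG0 : G 0 = 0) (hgδ : CH * g ≤ δ)
    (hδ' : δ' * (1 + CH ^ 2) ≤ δ) (n : ℕ) (F : CFacts CH g l G Cl ks gs Ds n)
    (hD : D0 ≤ Ds n) (hGn : G (ks n) ≤ δ') : SGood CH D0 δ G Cl ks gs Ds n := by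
  refine ⟨F.cn, hD, ?_⟩
  rcases Nat.eq_zero_or_pos n with rfl | hn
  · rw [hk0, hg0, hG0]; linarith
  · have h1 := F.G3 hn
    have hCHpos : 0 < CH := by linarith
    have h2 : CH * gs n ≤ CH * (CH * G (ks n)) := mul_le_mul_of_nonneg_left h1 hCHpos.le
    have h3 : G (ks n) * (1 + CH ^ 2) ≤ δ' * (1 + CH ^ 2) :=
      mul_le_mul_of_nonneg_right hGn (by positivity)
    nlinarith

theorem window (CH D0 δ δ' g l : ℝ) (hCH : 1 ≤ CH) (hD0 : 1 ≤ D0) (hg : 0 < g) (hl : D0 ≤ l)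
    (X Y G : ℕ → ℝ) (Cl : Bool → ℝ → ℝ → ℕ → Prop) (ks : ℕ → ℕ) (gs Ds : ℕ → ℝ)
    (hk0 : ks 0 = 0) (hg0 : gs 0 = g) (hDs0 : Ds 0 = l) (hCl : Cl true g l 0) (hG0 : G 0 = 0)
    (hS : ∀ n, SGood CH D0 δ G Cl ks gs Ds n → SStep CH X Y G Cl ks gs Ds n)
    (hgδ : CH * g ≤ δ) (hδ' : δ' * (1 + CH ^ 2) ≤ δ) (k : ℕ) (hk : ∀ i ≤ k, G i ≤ δ') :
    ∃ n, (∀ i < n, SGood CH D0 δ G Cl ks gs Ds i) ∧ ks n ≤ k ∧
      (Ds n < D0 ∨ (SGood CH D0 δ G Cl ks gs Ds n ∧ k < ks (n + 1))) := by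
  by_contra hcon
  push Not at hcon
  have key : ∀ n, (∀ i < n, SGood CH D0 δ G Cl ks gs Ds i) ∧ ks n ≤ k := by
    intro n
    induction n with
    | zero => exact ⟨fun i hi => by omega, by rw [hk0]; omega⟩
    | succ n ih =>
      obtain ⟨hP, hkn⟩ := ih
      have F := cfacts CH D0 δ g l hCH hD0 hg hl X Y G Cl ks gs Ds hk0 hg0 hDs0 hCl hG0 hS n hP
      obtain ⟨h1, h2⟩ := hcon n hP hkn
      have hgood := good_of CH D0 δ δ' g l hCH G Cl ks gs Ds hk0 hg0 hG0 hgδ hδ' n F h1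
        (hk _ hkn)
      refine ⟨?_, h2 hgood⟩
      intro i hi
      rcases Nat.lt_succ_iff_lt_or_eq.mp hi with h | h
      · exact hP i h
      · rw [h]; exact hgood
  obtain ⟨hP, hkn⟩ := key (k + 1)
  have F := cfacts CH D0 δ g l hCH hD0 hg hl X Y G Cl ks gs Ds hk0 hg0 hDs0 hCl hG0 hS _ hP
  have := F.kn
  omega

theorem lam_lo (CH D0 δ g l : ℝ) (hCH : 1 ≤ CH)
    (X Y G : ℕ → ℝ) (Cl : Bool → ℝ → ℝ → ℕ → Prop) (ks : ℕ → ℕ) (gs Ds : ℕ → ℝ)
    (hS : ∀ n, SGood CH D0 δ G Cl ks gs Ds n → SStep CH X Y G Cl ks gs Ds n)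
    (n : ℕ) (F : CFacts CH g l G Cl ks gs Ds n) (hgood : SGood CH D0 δ G Cl ks gs Ds n) (k : ℕ)
    (h1 : ks n ≤ k) (h2 : k ≤ ks (n + 1)) :
    Ds n / CH - (CH + 4 * Real.log (3 * CH)) ≤ Lam g X Y G k := by
  have hCHpos : 0 < CH := by linarith
  have T := hS n hgood
  obtain ⟨w1, w2, w3⟩ := T.win k h1 h2
  have h3 : gs n / CH ≤ max (G k) 0 + g := by
    rw [div_le_iff₀ hCHpos]
    have h4 := F.G2
    have h5 : G (ks n) ≤ max (G k) 0 := le_trans w1 (le_max_left _ _)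
    nlinarith
  have h4 : 0 < gs n / CH := div_pos F.gpos hCHpos
  have h5 := Real.log_le_log h4 h3
  rw [Real.log_div F.gpos.ne' hCHpos.ne'] at h5
  have h6 : Real.log CH ≤ Real.log (3 * CH) := Real.log_le_log hCHpos (by linarith)
  have h7 : Ds n / CH ≤ X k + Y k + 4 * Real.log (gs n) + CH := by
    rw [div_le_iff₀ hCHpos]
    linarith
  unfold Lam
  linarith

theorem lam_hi (CH g l : ℝ) (hCH : 1 ≤ CH) (hg : 0 < g)
    (X Y G : ℕ → ℝ) (Cl : Bool → ℝ → ℝ → ℕ → Prop) (ks : ℕ → ℕ) (gs Ds : ℕ → ℝ)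
    (n : ℕ) (F : CFacts CH g l G Cl ks gs Ds n)
    (hX : |X (ks n) + Y (ks n) + 4 * Real.log (gs n) - Ds n| ≤ CH) :
    Lam g X Y G (ks n) ≤ Ds n + (CH + 4 * Real.log (3 * CH)) := by
  have hCHpos : 0 < CH := by linarith
  have h1 : max (G (ks n)) 0 = G (ks n) := max_eq_left F.G0
  have h2 : g ≤ gs n := by
    have := F.g2
    have h7 : (1 : ℝ) ≤ 2 ^ n := one_le_pow₀ (by norm_num)
    nlinarith
  have h3 : max (G (ks n)) 0 + g ≤ 3 * CH * gs n := by
    rw [h1]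
    have h4 := F.G1
    have h5 := F.gpos
    nlinarith
  have h4 : 0 < max (G (ks n)) 0 + g := by
    rw [h1]
    linarith [F.G0]
  have h5 := Real.log_le_log h4 h3
  rw [Real.log_mul (by positivity) F.gpos.ne'] at h5
  have h6 := (abs_le.mp hX).2
  unfold Lam
  linarith

theorem sup_arg (CH D0 δ σ1 : ℝ) (hCH : 1 ≤ CH) (hD0 : 1 ≤ D0) (hδ : 0 < δ) (hσ : 0 < σ1) :
    ∃ (R : ℝ) (B : ℕ → ℕ), ∀ (N : ℕ) (g1 : ℝ), 0 < g1 → ∃ g : ℝ, 0 < g ∧ g ≤ g1 ∧ ∃ l0 l1 : ℝ, D0 ≤ l0 ∧ l0 < l1 ∧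
    ∀ (X Y S G : ℝ → ℕ → ℝ) (Cn : ℝ → Bool → ℝ → ℝ → ℕ → Prop),
    (∀ k, ContinuousOn (fun l => X l k) (Icc l0 l1)) → (∀ k, ContinuousOn (fun l => Y l k) (Icc l0 l1)) →
    (∀ k, ContinuousOn (fun l => G l k) (Icc l0 l1)) →
    (∀ l ∈ Icc l0 l1, Cn l true g l 0 ∧ G l 0 = 0) →
    (∀ l ∈ Icc l0 l1, ∀ b g' D k, Cn l b g' D k → 0 < g' ∧ |X l k + Y l k + 4 * Real.log g' - D| ≤ CH ∧
      |X l k + 2 * Real.log g'| ≤ D + CH ∧ |Y l k + 2 * Real.log g'| ≤ D + CH ∧ |S l k| ≤ CH * D ∧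
      (b = true → S l k ≤ -(σ1 * D)) ∧ (b = false → σ1 * D ≤ S l k)) →
    (∀ l ∈ Icc l0 l1, ∀ b g' D k, Cn l b g' D k → D0 ≤ D → G l k + CH * g' ≤ δ →
      ∃ k' g'' D', k < k' ∧ Cn l (!b) g'' D' k' ∧ 2 * g' ≤ g'' ∧ g'' ≤ CH * g' ∧ D ≤ CH * D' ∧ 2 * D' ≤ D ∧
        ((k' : ℝ) - k) * g' ≤ CH * D ∧ g'' / CH ≤ G l k' - G l k ∧
        ∀ j, k ≤ j → j ≤ k' → G l k ≤ G l j ∧ G l j ≤ G l k + CH * g' ∧
          D ≤ CH * (X l j + Y l j + 4 * Real.log g' + CH)) →
    ∃ l ∈ Icc l0 l1, ∃ κ : ℕ → ℕ, (∀ i < N, κ (i + 1) < κ i) ∧ (∀ i ≤ N, κ 0 - κ i ≤ B i) ∧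
      |X l (κ 0)| ≤ R ∧ |Y l (κ 0)| ≤ R ∧ |S l (κ 0)| ≤ R ∧ (∀ j ≤ κ 0, G l j ≤ δ) ∧
      ((∀ i ≤ N, (Even i → S l (κ i) ≤ -1) ∧ (Odd i → 1 ≤ S l (κ i))) ∨
       (∀ i ≤ N, (Odd i → S l (κ i) ≤ -1) ∧ (Even i → 1 ≤ S l (κ i)))) := by
  have hCHp : 0 < CH := by linarith
  have hlog3 : 0 ≤ Real.log (3 * CH) := Real.log_nonneg (by linarith)
  obtain ⟨i0, hi0⟩ : ∃ i0 : ℕ, 4 * CH < 2 ^ i0 := pow_unbounded_of_one_lt _ (by norm_num)
  obtain ⟨C2, hC2⟩ : ∃ C2, C2 = CH + 4 * Real.log (3 * CH) := ⟨_, rfl⟩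
  have hC2CH : CH ≤ C2 := by rw [hC2]; linarith
  obtain ⟨L0, hL0⟩ : ∃ L0, L0 = 3 * C2 + CH ^ (i0 + 1) * D0 + CH / σ1 + 1 := ⟨_, rfl⟩
  have hpow1 : ∀ n : ℕ, 1 ≤ CH ^ n := fun n => one_le_pow₀ hCH
  have hpp : 0 < CH ^ (i0 + 1) * D0 := by positivity
  have hdd : 0 < CH / σ1 := by positivity
  have hL0C : 0 < L0 - C2 := by rw [hL0]; linarith
  have hL0p : 0 < L0 := by linarith
  obtain ⟨Dlow, hDlow⟩ : ∃ Dlow, Dlow = (L0 - C2) / CH := ⟨_, rfl⟩
  have hDlow1 : CH ^ i0 * D0 ≤ Dlow := by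
    rw [hDlow, le_div_iff₀ hCHp, hL0]
    have : CH ^ i0 * D0 * CH = CH ^ (i0 + 1) * D0 := by ring
    rw [this]
    linarith
  have hDlow2 : 1 ≤ σ1 * Dlow := by
    have : 1 / σ1 ≤ Dlow := by
      rw [hDlow, le_div_iff₀ hCHp, hL0]
      have : 1 / σ1 * CH = CH / σ1 := by ring
      rw [this]
      linarith
    rw [div_le_iff₀ hσ] at this
    linarith
  have hDlow0 : 0 < Dlow := by rw [hDlow]; exact div_pos hL0C hCHp
  have hDlowD0 : D0 ≤ Dlow := by
    have := hpow1 i0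
    nlinarith
  obtain ⟨Dmax, hDmax⟩ : ∃ Dmax, Dmax = CH * (L0 + C2) := ⟨_, rfl⟩
  have hDmax0 : 0 < Dmax := by rw [hDmax]; exact mul_pos hCHp (by linarith)
  obtain ⟨δ', hδ'⟩ : ∃ δ', δ' = δ / (1 + CH ^ 2) := ⟨_, rfl⟩
  have hδ'0 : 0 < δ' := by rw [hδ']; positivity
  have hδ'1 : δ' * (1 + CH ^ 2) ≤ δ := by
    rw [hδ', div_mul_cancel₀ _ (by positivity)]
  have hδ'2 : δ' ≤ δ := by nlinarith [sq_nonneg CH]
  obtain ⟨γ, hγ⟩ : ∃ γ, γ = δ' / (2 * CH ^ (i0 + 1)) := ⟨_, rfl⟩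
  have hγ0 : 0 < γ := by rw [hγ]; positivity
  have hγ1 : 2 * CH ^ (i0 + 1) * γ = δ' := by
    rw [hγ, mul_div_cancel₀ _ (by positivity)]
  have hγ2 : 2 * CH * γ ≤ δ' := by
    rw [← hγ1]
    have : CH ≤ CH ^ (i0 + 1) := by
      rw [pow_succ]
      have := hpow1 i0
      nlinarith
    nlinarith
  refine ⟨Dmax + CH + 2 * (|Real.log γ| + |Real.log (CH * δ')|) + CH * Dmax,
    fun i => ⌈(i : ℝ) * (CH ^ (2 * i + 1) * Dmax / γ)⌉₊, ?_⟩
  intro N g1 hg1
  obtain ⟨g, hgdef⟩ : ∃ g, g = min g1 (γ / (2 * CH ^ N)) := ⟨_, rfl⟩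
  have hg : 0 < g := by rw [hgdef]; exact lt_min hg1 (by positivity)
  have hgg1 : g ≤ g1 := by rw [hgdef]; exact min_le_left _ _
  have hgN : CH ^ N * g < γ := by
    have h1 : g ≤ γ / (2 * CH ^ N) := by rw [hgdef]; exact min_le_right _ _
    rw [le_div_iff₀ (by positivity)] at h1
    have h2 : 0 < CH ^ N * g := by positivity
    nlinarith
  have hgγ : g < γ := by
    have := hpow1 N
    nlinarith
  have hgδ : CH * g ≤ δ := by nlinarith
  obtain ⟨l0, hl0⟩ : ∃ l0, l0 = L0 - C2 := ⟨_, rfl⟩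
  have hl0D : D0 ≤ l0 := by
    rw [hl0]
    have h1 : Dlow * CH = L0 - C2 := by rw [hDlow]; exact div_mul_cancel₀ _ hCHp.ne'
    nlinarith
  obtain ⟨nmax, hnmax⟩ : ∃ nmax : ℕ, nmax = ⌈CH * δ' / g⌉₊ := ⟨_, rfl⟩
  obtain ⟨l1, hl1⟩ : ∃ l1, l1 = CH ^ (nmax + 1) * (L0 + C2 + 1) := ⟨_, rfl⟩
  have hl01 : l0 < l1 := by
    rw [hl1, hl0]
    have := hpow1 (nmax + 1)
    nlinarith
  obtain ⟨Kmax, hKmax⟩ : ∃ Kmax : ℕ, Kmax = ⌈δ' / g * (CH * l1) / g⌉₊ := ⟨_, rfl⟩
  refine ⟨g, hg, hgg1, l0, l1, hl0D, hl01, ?_⟩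
  intro X Y S G Cn hXc hYc hGc hinit hprop hstep
  have hl1p : 0 < l1 := by linarith
  -- the chains
  have chain : ∀ l ∈ Icc l0 l1, ∃ (ks : ℕ → ℕ) (gs Ds : ℕ → ℝ), ks 0 = 0 ∧ gs 0 = g ∧ Ds 0 = l ∧
      (∀ n, SGood CH D0 δ (G l) (Cn l) ks gs Ds n →
        SStep CH (X l) (Y l) (G l) (Cn l) ks gs Ds n) :=
    fun l hl => chain_exists CH D0 δ g l (X l) (Y l) (G l) (Cn l) (hstep l hl)
  -- the set
  let W : ℝ → ℕ → Prop := fun l k => (∀ i ≤ k, G l i ≤ δ') ∧ Lam g (X l) (Y l) (G l) k ≤ L0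
  have hLamc : ∀ k, ContinuousOn (fun l => Lam g (X l) (Y l) (G l) k) (Icc l0 l1) := by
    intro k
    unfold Lam
    refine ((hXc k).add (hYc k)).add (continuousOn_const.mul ?_)
    apply ContinuousOn.log
    · exact ((hGc k).sup continuousOn_const).add continuousOn_const
    · intro l _
      have : 0 ≤ max (G l k) 0 := le_max_right _ _
      positivity
  have hclosed : ∀ k, IsClosed {l | l ∈ Icc l0 l1 ∧ W l k} := by
    intro k
    have e : {l | l ∈ Icc l0 l1 ∧ W l k}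
        = (⋂ i ∈ Finset.range (k + 1), (Icc l0 l1 ∩ (fun l => G l i) ⁻¹' Iic δ'))
          ∩ (Icc l0 l1 ∩ (fun l => Lam g (X l) (Y l) (G l) k) ⁻¹' Iic L0) := by
      ext l
      simp only [W, Set.mem_inter_iff, Set.mem_iInter, Set.mem_preimage, Set.mem_Iic,
        Finset.mem_range, Set.mem_ofPred_eq]
      constructor
      · rintro ⟨h1, h2, h3⟩
        exact ⟨fun i hi => ⟨h1, h2 i (by omega)⟩, h1, h3⟩
      · rintro ⟨h1, h2, h3⟩
        exact ⟨h2, fun i hi => (h1 i (by omega)).2, h3⟩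
    rw [e]
    apply IsClosed.inter
    · apply isClosed_biInter
      intro i _
      exact (hGc i).preimage_isClosed_of_isClosed isClosed_Icc isClosed_Iic
    · exact (hLamc k).preimage_isClosed_of_isClosed isClosed_Icc isClosed_Iic
  let A : Set ℝ := ⋃ k ∈ Finset.range (Kmax + 1), {l | l ∈ Icc l0 l1 ∧ W l k}
  have hAclosed : IsClosed A := isClosed_biUnion_finset (fun k _ => hclosed k)
  have hAsub : A ⊆ Icc l0 l1 := by
    intro l hl
    simp only [A, Set.mem_iUnion] at hl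
    obtain ⟨k, _, h⟩ := hl
    exact h.1
  have hAmem : ∀ l, l ∈ A ↔ l ∈ Icc l0 l1 ∧ ∃ k ≤ Kmax, W l k := by
    intro l
    simp only [A, Set.mem_iUnion, Finset.mem_range, Set.mem_ofPred_eq]
    constructor
    · rintro ⟨k, hk, h1, h2⟩
      exact ⟨h1, k, by omega, h2⟩
    · rintro ⟨h1, k, hk, h2⟩
      exact ⟨k, by omega, h1, h2⟩
  have hAcomp : IsCompact A := isCompact_Icc.of_isClosed_subset hAclosed hAsub
  have hl0mem : l0 ∈ Icc l0 l1 := ⟨le_rfl, hl01.le⟩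
  have hAne : A.Nonempty := by
    refine ⟨l0, (hAmem l0).mpr ⟨hl0mem, 0, by omega, ?_, ?_⟩⟩
    · intro i hi
      have : i = 0 := by omega
      rw [this, (hinit l0 hl0mem).2]
      exact hδ'0.le
    · obtain ⟨ks, gs, Ds, hk0, hg0, hDs0, hS⟩ := chain l0 hl0mem
      have F := cfacts CH D0 δ g l0 hCH hD0 hg hl0D (X l0) (Y l0) (G l0) (Cn l0) ks gs Ds hk0 hg0
        hDs0 (hinit l0 hl0mem).1 (hinit l0 hl0mem).2 hS 0 (fun i hi => by omega)
      have h1 := (hprop l0 hl0mem _ _ _ _ F.cn).2.1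
      have h2 := lam_hi CH g l0 hCH hg (X l0) (Y l0) (G l0) (Cn l0) ks gs Ds 0 F h1
      rw [hk0, hDs0, ← hC2] at h2
      linarith
  obtain ⟨ls, hls⟩ := hAcomp.exists_isGreatest hAne
  have hlsA := (hAmem ls).mp hls.1
  have hlsmem : ls ∈ Icc l0 l1 := hlsA.1
  -- the endpoint l1 is not in A
  have hl1A : l1 ∉ A := by
    intro hl1A
    have hl1mem : l1 ∈ Icc l0 l1 := ⟨hl01.le, le_rfl⟩
    obtain ⟨_, k, hk, hW1, hW2⟩ := (hAmem l1).mp hl1A
    obtain ⟨ks, gs, Ds, hk0, hg0, hDs0, hS⟩ := chain l1 hl1mem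
    obtain ⟨n, hP, hkn, halt⟩ := window CH D0 δ δ' g l1 hCH hD0 hg (by linarith) (X l1) (Y l1)
      (G l1) (Cn l1) ks gs Ds hk0 hg0 hDs0 (hinit l1 hl1mem).1 (hinit l1 hl1mem).2 hS hgδ hδ'1
      k hW1
    have F := cfacts CH D0 δ g l1 hCH hD0 hg (by linarith) (X l1) (Y l1) (G l1) (Cn l1) ks gs Ds
      hk0 hg0 hDs0 (hinit l1 hl1mem).1 (hinit l1 hl1mem).2 hS n hP
    have hn : n ≤ nmax := by
      rcases Nat.eq_zero_or_pos n with rfl | hn
      · omega
      · have h1 := F.G3 hn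
        have h2 := hW1 _ hkn
        have h3 := F.g2
        have h4 : (n : ℝ) ≤ 2 ^ n := by exact_mod_cast Nat.lt_two_pow_self.le
        have h5 : (n : ℝ) * g ≤ CH * δ' := by
          calc (n : ℝ) * g ≤ 2 ^ n * g := mul_le_mul_of_nonneg_right h4 hg.le
            _ ≤ gs n := h3
            _ ≤ CH * G l1 (ks n) := h1
            _ ≤ CH * δ' := mul_le_mul_of_nonneg_left h2 hCHp.le
        have h6 : (n : ℝ) ≤ CH * δ' / g := by
          rw [le_div_iff₀ hg]; exact h5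
        have h7 : (n : ℝ) ≤ nmax := by
          rw [hnmax]
          exact h6.trans (Nat.le_ceil _)
        exact_mod_cast h7
    have hDn : CH * (L0 + C2 + 1) ≤ Ds n := by
      have h1 := F.D1
      have h2 : CH ^ n ≤ CH ^ nmax := pow_le_pow_right₀ hCH hn
      have h4 : 0 < CH ^ n := by positivity
      have h5 : CH ^ n * (CH * (L0 + C2 + 1)) ≤ CH ^ n * Ds n := by
        calc CH ^ n * (CH * (L0 + C2 + 1)) ≤ CH ^ nmax * (CH * (L0 + C2 + 1)) :=
              mul_le_mul_of_nonneg_right h2 (mul_nonneg hCHp.le (by linarith))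
          _ = l1 := by rw [hl1]; ring
          _ ≤ CH ^ n * Ds n := h1
      exact le_of_mul_le_mul_left h5 h4
    have hDnD0 : D0 ≤ Ds n := by
      have h1 : D0 ≤ L0 + C2 + 1 := by linarith
      have h2 : L0 + C2 + 1 ≤ CH * (L0 + C2 + 1) := by nlinarith
      linarith
    rcases halt with h | ⟨hgood, hlt⟩
    · linarith
    · have h1 := lam_lo CH D0 δ g l1 hCH (X l1) (Y l1) (G l1) (Cn l1) ks gs Ds hS n F hgood k hkn
        hlt.le
      rw [← hC2] at h1
      have h2 : L0 + C2 + 1 ≤ Ds n / CH := by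
        rw [le_div_iff₀ hCHp]
        linarith
      linarith
  have hlslt : ls < l1 := by
    rcases lt_or_eq_of_le hlsmem.2 with h | h
    · exact h
    · exact absurd (h ▸ hls.1) hl1A
  have hlspos : 0 < ls := by linarith [hlsmem.1]
  -- the least witness
  obtain ⟨_, k1, hk1, hWk1⟩ := hlsA
  have hex : ∃ k, W ls k := ⟨k1, hWk1⟩
  classical
  obtain ⟨kst, hkstdef⟩ : ∃ kst, kst = Nat.find hex := ⟨_, rfl⟩
  have hkst : W ls kst := by rw [hkstdef]; exact Nat.find_spec hex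
  have hkmin : ∀ m < kst, ¬ W ls m := by
    intro m hm
    rw [hkstdef] at hm
    exact Nat.find_min hex hm
  obtain ⟨ks, gs, Ds, hk0, hg0, hDs0, hS⟩ := chain ls hlsmem
  have hlsD : D0 ≤ ls := by linarith [hlsmem.1]
  have cf : ∀ n, (∀ i < n, SGood CH D0 δ (G ls) (Cn ls) ks gs Ds i) →
      CFacts CH g ls (G ls) (Cn ls) ks gs Ds n := fun n hP =>
    cfacts CH D0 δ g ls hCH hD0 hg hlsD (X ls) (Y ls) (G ls) (Cn ls) ks gs Ds
      hk0 hg0 hDs0 (hinit ls hlsmem).1 (hinit ls hlsmem).2 hS n hP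
  obtain ⟨n, hP, hkn, halt⟩ := window CH D0 δ δ' g ls hCH hD0 hg hlsD (X ls) (Y ls)
      (G ls) (Cn ls) ks gs Ds hk0 hg0 hDs0 (hinit ls hlsmem).1 (hinit ls hlsmem).2 hS hgδ hδ'1
      kst hkst.1
  have F := cf n hP
  have lamhi : ∀ n, (∀ i < n, SGood CH D0 δ (G ls) (Cn ls) ks gs Ds i) →
      Lam g (X ls) (Y ls) (G ls) (ks n) ≤ Ds n + C2 := by
    intro n hP
    have F := cf n hP
    have := lam_hi CH g ls hCH hg (X ls) (Y ls) (G ls) (Cn ls) ks gs Ds n F
      (hprop ls hlsmem _ _ _ _ F.cn).2.1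
    rw [← hC2] at this
    exact this
  have hDnlow : Dlow ≤ Ds n := by
    have aux : ∀ m, m ≤ n → ks m < kst → L0 - C2 < Ds m := by
      intro m hm hlt
      have hPm : ∀ i < m, SGood CH D0 δ (G ls) (Cn ls) ks gs Ds i := fun i hi => hP i (by omega)
      have h1 := hkmin _ hlt
      have h2 := lamhi m hPm
      by_contra hcon
      push Not at hcon
      exact h1 ⟨fun i hi => hkst.1 i (by omega), by linarith⟩
    have hDl : Dlow * CH = L0 - C2 := by rw [hDlow]; exact div_mul_cancel₀ _ hCHp.ne'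
    rcases lt_or_eq_of_le hkn with h | h
    · have := aux n le_rfl h
      nlinarith
    · rcases Nat.eq_zero_or_pos n with hn0 | hn0
      · rw [hn0, hDs0]
        have := hlsmem.1
        nlinarith
      · obtain ⟨m, rfl⟩ : ∃ m, n = m + 1 := ⟨n - 1, by omega⟩
        have T := hS m (hP m (by omega))
        have h1 := aux m (by omega) (by have := T.lt; omega)
        have h2 := T.DC
        nlinarith
  have hgood : SGood CH D0 δ (G ls) (Cn ls) ks gs Ds n ∧ kst < ks (n + 1) := by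
    rcases halt with h | h
    · linarith
    · exact h
  have hDnmax : Ds n ≤ Dmax := by
    have h1 := lam_lo CH D0 δ g ls hCH (X ls) (Y ls) (G ls) (Cn ls) ks gs Ds hS n F hgood.1 kst hkn
        hgood.2.le
    rw [← hC2] at h1
    have h2 := hkst.2
    have h3 : Ds n / CH ≤ L0 + C2 := by linarith
    rw [div_le_iff₀ hCHp] at h3
    rw [hDmax]
    linarith
  -- the scale is not small
  have hgnγ : γ ≤ gs n := by
    by_contra hcon
    push Not at hcon
    have hind : ∀ i ≤ i0, (∀ m < n + i, SGood CH D0 δ (G ls) (Cn ls) ks gs Ds m) ∧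
        gs (n + i) ≤ CH ^ i * gs n ∧ Dlow ≤ CH ^ i * Ds (n + i) ∧ 2 ^ i * Ds (n + i) ≤ Dmax := by
      intro i
      induction i with
      | zero =>
        intro _
        refine ⟨by simpa using hP, by simp, by simpa using hDnlow, by simpa using hDnmax⟩
      | succ i ih =>
        intro hi
        obtain ⟨hPi, hgi, hDi, hDi2⟩ := ih (by omega)
        have Fi := cf (n + i) hPi
        have hpi : CH ^ i ≤ CH ^ i0 := pow_le_pow_right₀ hCH (by omega)
        have hpi0 : 0 < CH ^ i := by positivity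
        have hDpos : 0 < Ds (n + i) := by
          by_contra hneg
          push Not at hneg
          nlinarith
        have hD : D0 ≤ Ds (n + i) := by
          have h1 : CH ^ i0 * D0 ≤ CH ^ i0 * Ds (n + i) := by
            calc CH ^ i0 * D0 ≤ Dlow := hDlow1
              _ ≤ CH ^ i * Ds (n + i) := hDi
              _ ≤ CH ^ i0 * Ds (n + i) := mul_le_mul_of_nonneg_right hpi hDpos.le
          exact le_of_mul_le_mul_left h1 (by positivity)
        have hgood' : SGood CH D0 δ (G ls) (Cn ls) ks gs Ds (n + i) := by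
          refine ⟨Fi.cn, hD, ?_⟩
          have h1 := Fi.G1
          have h2 : gs (n + i) ≤ CH ^ i0 * γ := by
            calc gs (n + i) ≤ CH ^ i * gs n := hgi
              _ ≤ CH ^ i0 * gs n := mul_le_mul_of_nonneg_right hpi F.gpos.le
              _ ≤ CH ^ i0 * γ := mul_le_mul_of_nonneg_left hcon.le (by positivity)
          have h3 : 2 * CH * (CH ^ i0 * γ) = δ' := by rw [← hγ1]; ring
          have h4 : 2 * CH * gs (n + i) ≤ 2 * CH * (CH ^ i0 * γ) :=
            mul_le_mul_of_nonneg_left h2 (by positivity)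
          linarith
        have T := hS _ hgood'
        refine ⟨?_, ?_, ?_, ?_⟩
        · intro m hm
          rcases Nat.lt_or_ge m (n + i) with h | h
          · exact hPi m h
          · have : m = n + i := by omega
            rw [this]; exact hgood'
        · rw [← add_assoc]
          calc gs (n + i + 1) ≤ CH * gs (n + i) := T.gC
            _ ≤ CH * (CH ^ i * gs n) := mul_le_mul_of_nonneg_left hgi hCHp.le
            _ = CH ^ (i + 1) * gs n := by ring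
        · rw [← add_assoc]
          calc Dlow ≤ CH ^ i * Ds (n + i) := hDi
            _ ≤ CH ^ i * (CH * Ds (n + i + 1)) := mul_le_mul_of_nonneg_left T.DC hpi0.le
            _ = CH ^ (i + 1) * Ds (n + i + 1) := by ring
        · rw [← add_assoc]
          calc 2 ^ (i + 1) * Ds (n + i + 1) = 2 ^ i * (2 * Ds (n + i + 1)) := by ring
            _ ≤ 2 ^ i * Ds (n + i) := mul_le_mul_of_nonneg_left T.D2 (by positivity)
            _ ≤ Dmax := hDi2
    obtain ⟨hPe, hge, hDe, hDe2⟩ := hind i0 le_rfl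
    obtain ⟨ke, hke⟩ : ∃ ke, ke = ks (n + i0) := ⟨_, rfl⟩
    have Fe := cf (n + i0) hPe
    have hgsmall : 2 * CH * gs (n + i0) < δ' := by
      have h3 : 2 * CH * (CH ^ i0 * γ) = δ' := by rw [← hγ1]; ring
      have h4 : CH ^ i0 * gs n < CH ^ i0 * γ := mul_lt_mul_of_pos_left hcon (by positivity)
      have h5 : 2 * CH * gs (n + i0) ≤ 2 * CH * (CH ^ i0 * gs n) :=
        mul_le_mul_of_nonneg_left hge (by positivity)
      have h6 : 2 * CH * (CH ^ i0 * gs n) < 2 * CH * (CH ^ i0 * γ) :=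
        mul_lt_mul_of_pos_left h4 (by positivity)
      linarith
    have hGall : ∀ m ≤ n + i0, ∀ j ≤ ks m, G ls j < δ' := by
      intro m
      induction m with
      | zero =>
        intro _ j hj
        rw [hk0] at hj
        have : j = 0 := by omega
        rw [this, (hinit ls hlsmem).2]
        exact hδ'0
      | succ m ih =>
        intro hm j hj
        rcases Nat.lt_or_ge (ks m) j with h | h
        · have T := hS m (hPe m (by omega))
          have w := T.win j h.le hj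
          have Fm := cf m (fun i hi => hPe i (by omega))
          have h1 := Fm.G1
          have h2 : gs m ≤ gs (n + i0) := by
            have hmono : ∀ q, m + q ≤ n + i0 → gs m ≤ gs (m + q) := by
              intro q
              induction q with
              | zero => intro _; simp
              | succ q ihq =>
                intro hq
                have Tq := hS (m + q) (hPe (m + q) (by omega))
                have Fq := cf (m + q) (fun i hi => hPe i (by omega))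
                have := ihq (by omega)
                have := Tq.g2
                have := Fq.gpos
                rw [← add_assoc]
                linarith
            have := hmono (n + i0 - m) (by omega)
            rwa [show m + (n + i0 - m) = n + i0 by omega] at this
          have h3 : 2 * CH * gs m ≤ 2 * CH * gs (n + i0) :=
            mul_le_mul_of_nonneg_left h2 (by positivity)
          linarith [w.2.1]
        · exact ih (by omega) j h
    have hLame : Lam g (X ls) (Y ls) (G ls) ke < L0 := by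
      have h1 := lamhi (n + i0) hPe
      rw [← hke] at h1
      have h2 : 4 * Ds (n + i0) ≤ L0 + C2 := by
        have hDp : 0 < Ds (n + i0) := by
          have hpi0 : 0 < CH ^ i0 := by positivity
          by_contra hneg
          push Not at hneg
          nlinarith
        have h3 : 4 * CH * Ds (n + i0) ≤ CH * (L0 + C2) := by
          calc 4 * CH * Ds (n + i0) ≤ 2 ^ i0 * Ds (n + i0) :=
                mul_le_mul_of_nonneg_right hi0.le hDp.le
            _ ≤ Dmax := hDe2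
            _ = CH * (L0 + C2) := hDmax
        have h4 : CH * (4 * Ds (n + i0)) ≤ CH * (L0 + C2) := by linarith
        exact le_of_mul_le_mul_left h4 hCHp
      have h5 : 3 * C2 < L0 := by rw [hL0]; linarith
      linarith
    have hkeK : ke ≤ Kmax := by
      have h1 := Fe.kg
      rw [← hke] at h1
      have h2 : ((n + i0 : ℕ) : ℝ) ≤ δ' / g := by
        rw [le_div_iff₀ hg]
        have h3 : ((n + i0 : ℕ) : ℝ) ≤ 2 ^ (n + i0) := by exact_mod_cast Nat.lt_two_pow_self.le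
        calc ((n + i0 : ℕ) : ℝ) * g ≤ 2 ^ (n + i0) * g := mul_le_mul_of_nonneg_right h3 hg.le
          _ ≤ gs (n + i0) := Fe.g2
          _ ≤ δ' := by
            have := Fe.gpos
            nlinarith
      have h3 : (ke : ℝ) * g ≤ δ' / g * (CH * l1) := by
        calc (ke : ℝ) * g ≤ ((n + i0 : ℕ) : ℝ) * (CH * ls) := h1
          _ ≤ δ' / g * (CH * l1) := by
            apply mul_le_mul h2 _ (by positivity) (by positivity)
            exact mul_le_mul_of_nonneg_left hlslt.le hCHp.le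
      have h4 : (ke : ℝ) ≤ δ' / g * (CH * l1) / g := by
        rw [le_div_iff₀ hg]; exact h3
      have h5 : (ke : ℝ) ≤ Kmax := by
        rw [hKmax]
        exact h4.trans (Nat.le_ceil _)
      exact_mod_cast h5
    -- persistence
    have hev : ∀ᶠ l in 𝓝[Icc l0 l1] ls, (∀ i ∈ Finset.range (ke + 1), G l i < δ') ∧
        Lam g (X l) (Y l) (G l) ke < L0 := by
      refine Filter.Eventually.and ?_ ?_
      · rw [Filter.eventually_all_finset]
        intro i hi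
        rw [Finset.mem_range] at hi
        exact (hGc i ls hlsmem).eventually
          (gt_mem_nhds (hGall (n + i0) le_rfl i (by rw [← hke]; omega)))
      · exact (hLamc ke ls hlsmem).eventually (gt_mem_nhds hLame)
    have hsub : Ioc ls l1 ⊆ Icc l0 l1 := fun x hx => ⟨by linarith [hx.1, hlsmem.1], hx.2⟩
    have hev2 : ∀ᶠ l in 𝓝[Ioc ls l1] ls, (∀ i ∈ Finset.range (ke + 1), G l i < δ') ∧
        Lam g (X l) (Y l) (G l) ke < L0 := nhdsWithin_mono _ hsub hev
    have hnb : (𝓝[Ioc ls l1] ls).NeBot := by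
      rw [nhdsWithin_Ioc_eq_nhdsGT hlslt]
      infer_instance
    obtain ⟨l', hl'1, hl'2⟩ := (hev2.and self_mem_nhdsWithin).exists
    have hl'A : l' ∈ A := by
      refine (hAmem l').mpr ⟨hsub hl'2, ke, hkeK, ?_, hl'1.2.le⟩
      intro i hi
      exact (hl'1.1 i (Finset.mem_range.mpr (by omega))).le
    have := hls.2 hl'A
    linarith [hl'2.1]
  -- conclusion
  have hn1 : 1 ≤ n := by
    rcases Nat.eq_zero_or_pos n with h | h
    · rw [h, hg0] at hgnγ
      linarith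
    · exact h
  have hgnup : gs n ≤ CH * δ' := by
    have h1 := F.G3 hn1
    have h2 := hkst.1 _ hkn
    nlinarith
  have hNn : N < n := by
    by_contra hcon
    push Not at hcon
    have h1 := F.gC
    have h2 : CH ^ n ≤ CH ^ N := pow_le_pow_right₀ hCH hcon
    nlinarith
  have cfn : ∀ i ≤ n, CFacts CH g ls (G ls) (Cn ls) ks gs Ds (n - i) := fun i _ =>
    cf (n - i) (fun m hm => hP m (by omega))
  have back : ∀ i ≤ n, Ds (n - i) ≤ CH ^ i * Dmax ∧ Dlow ≤ Ds (n - i) ∧ γ ≤ CH ^ i * gs (n - i) ∧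
      ((ks n : ℝ) - ks (n - i)) ≤ i * (CH ^ (2 * i + 1) * Dmax / γ) ∧ ks (n - i) ≤ ks n := by
    intro i
    induction i with
    | zero =>
      intro _
      refine ⟨by simpa using hDnmax, by simpa using hDnlow, by simpa using hgnγ, by simp, by simp⟩
    | succ i ih =>
      intro hi
      obtain ⟨b1, b2, b3, b4, b5⟩ := ih (by omega)
      obtain ⟨m, hm⟩ : ∃ m, n - i = m + 1 := ⟨n - (i + 1), by omega⟩
      have hm' : n - (i + 1) = m := by omega
      rw [hm'] at *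
      rw [hm] at b1 b2 b3 b4 b5
      have T := hS m (hP m (by omega))
      have Fm := cf m (fun q hq => hP q (by omega))
      have hpi0 : 0 < CH ^ i := by positivity
      have hDm : Ds m ≤ CH ^ (i + 1) * Dmax := by
        calc Ds m ≤ CH * Ds (m + 1) := T.DC
          _ ≤ CH * (CH ^ i * Dmax) := mul_le_mul_of_nonneg_left b1 hCHp.le
          _ = CH ^ (i + 1) * Dmax := by ring
      have hgm : γ ≤ CH ^ (i + 1) * gs m := by
        calc γ ≤ CH ^ i * gs (m + 1) := b3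
          _ ≤ CH ^ i * (CH * gs m) := mul_le_mul_of_nonneg_left T.gC hpi0.le
          _ = CH ^ (i + 1) * gs m := by ring
      refine ⟨hDm, ?_, hgm, ?_, ?_⟩
      · have h1 := T.D2
        have h2 : 0 < Ds (m + 1) := by linarith
        linarith
      · have h1 := T.kD
        have h2 : (ks n : ℝ) - ks m = ((ks n : ℝ) - ks (m + 1)) + ((ks (m + 1) : ℝ) - ks m) := by
          ring
        rw [h2]
        have hgmpos := Fm.gpos
        have hklt : (0 : ℝ) ≤ (ks (m + 1) : ℝ) - ks m := by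
          have : (ks m : ℝ) < ks (m + 1) := by exact_mod_cast T.lt
          linarith
        have h3 : ((ks (m + 1) : ℝ) - ks m) * γ ≤ CH ^ (2 * (i + 1) + 1) * Dmax := by
          calc ((ks (m + 1) : ℝ) - ks m) * γ ≤ ((ks (m + 1) : ℝ) - ks m) * (CH ^ (i + 1) * gs m) :=
                mul_le_mul_of_nonneg_left hgm hklt
            _ = CH ^ (i + 1) * (((ks (m + 1) : ℝ) - ks m) * gs m) := by ring
            _ ≤ CH ^ (i + 1) * (CH * Ds m) := mul_le_mul_of_nonneg_left h1 (by positivity)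
            _ ≤ CH ^ (i + 1) * (CH * (CH ^ (i + 1) * Dmax)) := by
                apply mul_le_mul_of_nonneg_left _ (by positivity)
                exact mul_le_mul_of_nonneg_left hDm hCHp.le
            _ = CH ^ (2 * (i + 1) + 1) * Dmax := by ring
        have h4 : ((ks (m + 1) : ℝ) - ks m) ≤ CH ^ (2 * (i + 1) + 1) * Dmax / γ := by
          rw [le_div_iff₀ hγ0]; exact h3
        have h5 : CH ^ (2 * i + 1) * Dmax / γ ≤ CH ^ (2 * (i + 1) + 1) * Dmax / γ := by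
          apply div_le_div_of_nonneg_right _ hγ0.le
          apply mul_le_mul_of_nonneg_right _ hDmax0.le
          exact pow_le_pow_right₀ hCH (by omega)
        have h6 : (i : ℝ) * (CH ^ (2 * i + 1) * Dmax / γ)
            ≤ i * (CH ^ (2 * (i + 1) + 1) * Dmax / γ) :=
          mul_le_mul_of_nonneg_left h5 (Nat.cast_nonneg _)
        push_cast
        linarith
      · have := T.lt
        omega
  have hlogg : |Real.log (gs n)| ≤ |Real.log γ| + |Real.log (CH * δ')| := by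
    have h1 := Real.log_le_log hγ0 hgnγ
    have h2 := Real.log_le_log F.gpos hgnup
    rw [abs_le]
    constructor
    · have := neg_abs_le (Real.log γ)
      have := abs_nonneg (Real.log (CH * δ'))
      linarith
    · have := le_abs_self (Real.log (CH * δ'))
      have := abs_nonneg (Real.log γ)
      linarith
  obtain ⟨_, _, p3, p4, p5, _, _⟩ := hprop ls hlsmem _ _ _ _ F.cn
  have hDpos : 0 < Ds n := by linarith
  have hlogs := abs_nonneg (Real.log (gs n))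
  have hCD : 0 < CH * Dmax := by positivity
  refine ⟨ls, hlsmem, fun i => ks (n - i), ?_, ?_, ?_, ?_, ?_, ?_, ?_⟩
  · intro i hi
    have T := hS (n - (i + 1)) (hP _ (by omega))
    have := T.lt
    rwa [show n - (i + 1) + 1 = n - i by omega] at this
  · intro i hi
    simp only [Nat.sub_zero]
    obtain ⟨_, _, _, b4, b5⟩ := back i (by omega)
    have h1 : ((ks n - ks (n - i) : ℕ) : ℝ) ≤ i * (CH ^ (2 * i + 1) * Dmax / γ) := by
      rw [Nat.cast_sub b5]; exact b4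
    have h2 := h1.trans (Nat.le_ceil _)
    exact_mod_cast h2
  · simp only [Nat.sub_zero]
    have h1 : |X ls (ks n)| ≤ |X ls (ks n) + 2 * Real.log (gs n)| + |2 * Real.log (gs n)| := by
      have := abs_sub (X ls (ks n) + 2 * Real.log (gs n)) (2 * Real.log (gs n))
      rwa [add_sub_cancel_right] at this
    rw [abs_mul, abs_two] at h1
    linarith
  · simp only [Nat.sub_zero]
    have h1 : |Y ls (ks n)| ≤ |Y ls (ks n) + 2 * Real.log (gs n)| + |2 * Real.log (gs n)| := by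
      have := abs_sub (Y ls (ks n) + 2 * Real.log (gs n)) (2 * Real.log (gs n))
      rwa [add_sub_cancel_right] at this
    rw [abs_mul, abs_two] at h1
    linarith
  · simp only [Nat.sub_zero]
    have h1 : CH * Ds n ≤ CH * Dmax := mul_le_mul_of_nonneg_left hDnmax hCHp.le
    have := abs_nonneg (Real.log γ)
    have := abs_nonneg (Real.log (CH * δ'))
    linarith
  · simp only [Nat.sub_zero]
    intro j hj
    exact (hkst.1 j (by omega)).trans hδ'2
  · -- signs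
    have sgn : ∀ i ≤ N, (Even (n - i) → S ls (ks (n - i)) ≤ -1) ∧
        (Odd (n - i) → 1 ≤ S ls (ks (n - i))) := by
      intro i hi
      obtain ⟨_, b2, _, _, _⟩ := back i (by omega)
      have Fi := cfn i (by omega)
      obtain ⟨_, _, _, _, _, q1, q2⟩ := hprop ls hlsmem _ _ _ _ Fi.cn
      have h1 : 1 ≤ σ1 * Ds (n - i) :=
        hDlow2.trans (mul_le_mul_of_nonneg_left b2 hσ.le)
      constructor
      · intro he
        have := q1 ((eb_iff _).1.mpr he)
        linarith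
      · intro ho
        have := q2 ((eb_iff _).2.mpr ho)
        linarith
    rcases Nat.even_or_odd n with hev | hod
    · left
      intro i hi
      obtain ⟨s1, s2⟩ := sgn i hi
      constructor
      · intro he
        exact s1 ((Nat.even_sub (by omega)).mpr ⟨fun _ => he, fun _ => hev⟩)
      · intro ho
        apply s2
        exact Nat.Even.sub_odd (by omega) hev ho
    · right
      intro i hi
      obtain ⟨s1, s2⟩ := sgn i hi
      constructor
      · intro ho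
        exact s1 (Nat.Odd.sub_odd hod ho)
      · intro he
        apply s2
        exact Nat.Odd.sub_even (by omega) hod he

end Pool.Agent.Hhelper30.Forsythe
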