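import Pool.Agent.Hhelper30.Forsythe.Half
import Pool.Agent.Hhelper30.Forsythe.SupArg

/-! Conclusion of the billiard analysis. -/

set_option autoImplicit false

namespace Pool.Agent.Hhelper30.Forsythe

open Filter Topology Set Finset

theorem abs_step (c : Coef) (hc : GoodCoef c) (C c0 K0 σ1 εy Cy CH D0 ε1 : ℝ) (hD0 : 1 ≤ D0)
    (H : ∀ (ε h δ : ℝ), 0 ≤ ε → ε ≤ ε1 → 0 < h → h ≤ ε1 →
      ∀ (X Y S u v m G : ℕ → ℝ), RS c C c0 ε h δ X Y S u v m G → ∀ D : ℝ, D0 ≤ D →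
      Can K0 σ1 εy Cy 1 D X Y S u v m 0 → G 0 + CH ≤ δ →
      ∃ (K : ℕ) (g' D' : ℝ), 0 < K ∧
        Can K0 σ1 εy Cy g' D' Y X (fun k => -S k) v u (fun k => -m k) K ∧
        2 ≤ g' ∧ g' ≤ CH ∧ 2 * D' ≤ D ∧ D ≤ CH * D' ∧ h * K ≤ CH * D ∧ g' ≤ CH * (G K - G 0) ∧
        ∀ j ≤ K, G 0 ≤ G j ∧ G j ≤ G 0 + CH ∧ D ≤ CH * (X j + Y j + CH))
    (hCH : 1 ≤ CH) (ε δ : ℝ) (hε : 0 ≤ ε) (hε1 : ε ≤ ε1) (X Y S u v m G : ℕ → ℝ)
    (hRS : RS c C c0 ε 1 δ X Y S u v m G) (g D : ℝ) (k : ℕ) (hD : D0 ≤ D)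
    (hcan : Can K0 σ1 εy Cy g D X Y S u v m k) (hG : G k + CH * g ≤ δ) (hg1 : g ≤ ε1) :
    ∃ k' g'' D', k < k' ∧ Can K0 σ1 εy Cy g'' D' Y X (fun k => -S k) v u (fun k => -m k) k' ∧
      2 * g ≤ g'' ∧ g'' ≤ CH * g ∧ D ≤ CH * D' ∧ 2 * D' ≤ D ∧ ((k' : ℝ) - k) * g ≤ CH * D ∧
      g'' / CH ≤ G k' - G k ∧
      ∀ j, k ≤ j → j ≤ k' → G k ≤ G j ∧ G j ≤ G k + CH * g ∧
        D ≤ CH * (X j + Y j + 4 * Real.log g + CH) := by
  have hg : 0 < g := hcan.hg
  have hCHp : 0 < CH := by linarith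
  have hRS' := (hRS.shift k).scale g hg
  rw [one_mul] at hRS'
  have hlog1 : Real.log 1 = 0 := Real.log_one
  obtain ⟨K, γ, D', h1, h2, h3, h4, h5, h6, h7, h8, h9⟩ := H ε g (δ / g) hε hε1 hg hg1
    _ _ _ _ _ _ _ hRS' D hD
    (by
      constructor
      · exact one_pos
      · exact hcan.hD
      · show u (k + 0) / g = -1
        rw [add_zero, hcan.hu, neg_div, div_self hg.ne']
      · show X (k + 0) + 2 * Real.log g + 2 * Real.log 1 = D
        rw [add_zero, hlog1, mul_zero, add_zero]; exact hcan.hX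
      · show 1 / 8 * 1 ≤ v (k + 0) / g
        rw [add_zero, le_div_iff₀ hg]; linarith [hcan.hv1]
      · show v (k + 0) / g ≤ 1 / 4 * 1
        rw [add_zero, div_le_iff₀ hg]; linarith [hcan.hv2]
      · show -(1 / 1000 * 1) ≤ m (k + 0) / g
        rw [add_zero, le_div_iff₀ hg]; linarith [hcan.hm1]
      · show m (k + 0) / g ≤ -(1 / (8 * K0) * 1)
        rw [add_zero, div_le_iff₀ hg]; linarith [hcan.hm2]
      · show Real.exp (-(Y (k + 0) + 2 * Real.log g + 2 * Real.log 1)) ≤ εy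
        rw [add_zero, hlog1, mul_zero, add_zero]; exact hcan.hY1
      · show Y (k + 0) + 2 * Real.log g + 2 * Real.log 1 ≤ Cy
        rw [add_zero, hlog1, mul_zero, add_zero]; exact hcan.hY2
      · show -(1 / 1000 * D) ≤ S (k + 0)
        rw [add_zero]; exact hcan.hS1
      · show S (k + 0) ≤ -(σ1 * D)
        rw [add_zero]; exact hcan.hS2)
    (by
      show G (k + 0) / g + CH ≤ δ / g
      rw [add_zero, div_add' _ _ _ hg.ne']
      exact (div_le_div_iff_of_pos_right hg).mpr hG)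
  have hγ : 0 < γ := by linarith
  have hlogm : Real.log (γ * g) = Real.log γ + Real.log g := Real.log_mul hγ.ne' hg.ne'
  refine ⟨k + K, γ * g, D', by omega, ?_, ?_, ?_, h6, h5, ?_, ?_, ?_⟩
  · constructor
    · positivity
    · exact h2.hD
    · have := h2.hu
      rw [div_eq_iff hg.ne'] at this
      show v (k + K) = -(γ * g)
      linarith
    · have := h2.hX
      show Y (k + K) + 2 * Real.log (γ * g) = D'
      rw [hlogm]; linarith
    · have := h2.hv1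
      rw [le_div_iff₀ hg] at this
      show 1 / 8 * (γ * g) ≤ u (k + K)
      linarith
    · have := h2.hv2
      rw [div_le_iff₀ hg] at this
      show u (k + K) ≤ 1 / 4 * (γ * g)
      linarith
    · have := h2.hm1
      have e : -(m (k + K) / g) = (-m (k + K)) / g := by ring
      rw [e, le_div_iff₀ hg] at this
      show -(1 / 1000 * (γ * g)) ≤ -m (k + K)
      linarith
    · have := h2.hm2
      have e : -(m (k + K) / g) = (-m (k + K)) / g := by ring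
      rw [e, div_le_iff₀ hg] at this
      show -m (k + K) ≤ -(1 / (8 * K0) * (γ * g))
      linarith
    · have := h2.hY1
      show Real.exp (-(X (k + K) + 2 * Real.log (γ * g))) ≤ εy
      rw [hlogm]
      rw [show X (k + K) + 2 * (Real.log γ + Real.log g)
        = X (k + K) + 2 * Real.log g + 2 * Real.log γ by ring]
      exact this
    · have := h2.hY2
      show X (k + K) + 2 * Real.log (γ * g) ≤ Cy
      rw [hlogm]; linarith
    · exact h2.hS1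
    · exact h2.hS2
  · exact mul_le_mul_of_nonneg_right h3 hg.le
  · exact mul_le_mul_of_nonneg_right h4 hg.le
  · push_cast
    have : ((k : ℝ) + K - k) * g = g * K := by ring
    rw [this]; exact h7
  · rw [div_le_iff₀ hCHp]
    have e : G (k + K) / g - G (k + 0) / g = (G (k + K) - G k) / g := by rw [add_zero]; ring
    rw [e, ← mul_div_assoc, le_div_iff₀ hg] at h8
    linarith
  · intro j hj1 hj2
    obtain ⟨i, rfl⟩ := Nat.exists_eq_add_of_le hj1
    obtain ⟨e1, e2, e3⟩ := h9 i (by omega)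
    simp only [add_zero] at e1 e2
    refine ⟨(div_le_div_iff_of_pos_right hg).mp e1, ?_, ?_⟩
    · rw [div_add' _ _ _ hg.ne'] at e2
      exact (div_le_div_iff_of_pos_right hg).mp e2
    · rw [show X (k + i) + Y (k + i) + 4 * Real.log g + CH
        = X (k + i) + 2 * Real.log g + (Y (k + i) + 2 * Real.log g) + CH by ring]
      exact e3

theorem abs_main (c : Coef) (hc : GoodCoef c) (C c0 : ℝ) (hC : 0 < C) (hc0 : 0 < c0) :
    ∃ ε > 0, ∀ δ > 0, ∃ β0 ν0 σ0 Yc : ℝ, 0 < β0 ∧ 0 < ν0 ∧ 0 < σ0 ∧ ∃ (R : ℝ) (B : ℕ → ℕ),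
    ∀ (N : ℕ) (g1 : ℝ), 0 < g1 → ∃ g : ℝ, 0 < g ∧ g ≤ g1 ∧ ∃ l0 l1 : ℝ, 1 ≤ l0 ∧ l0 < l1 ∧
    ∀ (X Y S u v m G : ℝ → ℕ → ℝ),
    (∀ k, ContinuousOn (fun l => X l k) (Icc l0 l1)) → (∀ k, ContinuousOn (fun l => Y l k) (Icc l0 l1)) →
    (∀ k, ContinuousOn (fun l => G l k) (Icc l0 l1)) →
    (∀ l ∈ Icc l0 l1, RS c C c0 ε 1 δ (X l) (Y l) (S l) (u l) (v l) (m l) (G l)) →
    (∀ l ∈ Icc l0 l1, X l 0 = l - 2 * Real.log g ∧ Y l 0 = Yc - 2 * Real.log g ∧ S l 0 = -(σ0 * l) ∧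
      u l 0 = -g ∧ v l 0 = β0 * g ∧ m l 0 = -(ν0 * g) ∧ G l 0 = 0) →
    ∃ l ∈ Icc l0 l1, ∃ κ : ℕ → ℕ, (∀ i < N, κ (i + 1) < κ i) ∧ (∀ i ≤ N, κ 0 - κ i ≤ B i) ∧
      |X l (κ 0)| ≤ R ∧ |Y l (κ 0)| ≤ R ∧ |S l (κ 0)| ≤ R ∧ (∀ j ≤ κ 0, G l j ≤ δ) ∧
      ((∀ i ≤ N, (Even i → S l (κ i) ≤ -1) ∧ (Odd i → 1 ≤ S l (κ i))) ∨
       (∀ i ≤ N, (Odd i → S l (κ i) ≤ -1) ∧ (Even i → 1 ≤ S l (κ i)))) := by
  obtain ⟨K0, hK0⟩ : ∃ K0, K0 = Kc c := ⟨_, rfl⟩
  have hK08 : 800 ≤ K0 := by rw [hK0]; exact hc.K_lo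
  have hK0p : 0 < K0 := by linarith
  obtain ⟨σ1, hσ1, hσ1le, εy, hεy, Cy, hCy0, hCyl, CH, hCH, D0, hD0, ε1, hε1, H⟩ :=
    half_cycle c hc C c0 hC hc0 K0 hK0
  refine ⟨ε1, hε1, ?_⟩
  intro δ hδ
  obtain ⟨δ', hδ'⟩ : ∃ d, d = min δ ε1 := ⟨_, rfl⟩
  have hδ'p : 0 < δ' := by rw [hδ']; positivity
  have hδ'δ : δ' ≤ δ := by rw [hδ']; exact min_le_left _ _
  have hδ'ε : δ' ≤ ε1 := by rw [hδ']; exact min_le_right _ _
  obtain ⟨CH', hCH'⟩ : ∃ d, d = CH + Cy + |Real.log εy| + 1 := ⟨_, rfl⟩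
  have hal : 0 ≤ |Real.log εy| := abs_nonneg _
  have hCHCH' : CH ≤ CH' := by linarith
  have hCH'1 : 1 ≤ CH' := by linarith
  obtain ⟨R, B, hsup⟩ := sup_arg CH' D0 δ' σ1 hCH'1 hD0 hδ'p hσ1
  have hν0 : 1 / (8 * K0) ≤ 1 / 1000 := one_div_le_one_div_of_le (by norm_num) (by linarith)
  refine ⟨1 / 5, 1 / (8 * K0), 1 / 1000, Cy, by norm_num, by positivity, by norm_num, R, B, ?_⟩
  intro N g1 hg1
  obtain ⟨g, hg, hgg1, l0, l1, hl0, hl01, hsup⟩ := hsup N g1 hg1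
  refine ⟨g, hg, hgg1, l0, l1, by linarith, hl01, ?_⟩
  intro X Y S u v m G hXc hYc hGc hRS hinit
  have hYCy : Real.exp (-Cy) ≤ εy := by
    rw [← Real.exp_log hεy]; exact Real.exp_le_exp.mpr (by linarith)
  have hprop : ∀ (X Y S u v m : ℕ → ℝ) (g' D : ℝ) (k : ℕ), Can K0 σ1 εy Cy g' D X Y S u v m k →
      0 < g' ∧ |X k + Y k + 4 * Real.log g' - D| ≤ CH' ∧
      |X k + 2 * Real.log g'| ≤ D + CH' ∧ |Y k + 2 * Real.log g'| ≤ D + CH' ∧ |S k| ≤ CH' * D ∧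
      S k ≤ -(σ1 * D) := by
    intro X Y S u v m g' D k hcan
    have hD := hcan.hD
    have hY0 : -|Real.log εy| ≤ Y k + 2 * Real.log g' := by
      have h1 := hcan.hY1
      rw [← Real.exp_log hεy] at h1
      have h2 := Real.exp_le_exp.mp h1
      have := le_abs_self (Real.log εy)
      linarith
    have hY1 := hcan.hY2
    have hX := hcan.hX
    have hYabs : |Y k + 2 * Real.log g'| ≤ Cy + |Real.log εy| := by
      rw [abs_le]; constructor <;> linarith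
    refine ⟨hcan.hg, ?_, ?_, by linarith, ?_, hcan.hS2⟩
    · rw [show X k + Y k + 4 * Real.log g' - D = Y k + 2 * Real.log g' by linarith]
      linarith
    · rw [hX, abs_of_nonneg hD]; linarith
    · have hσD : 0 ≤ σ1 * D := by positivity
      have h3 : |S k| ≤ D := by
        rw [abs_le]; constructor
        · linarith [hcan.hS1]
        · linarith [hcan.hS2]
      have h4 : 1 * D ≤ CH' * D := mul_le_mul_of_nonneg_right hCH'1 hD
      linarith
  have hfinal := hsup X Y S G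
    (fun l b g' D k => 0 ≤ G l k ∧ ((b = true → Can K0 σ1 εy Cy g' D (X l) (Y l) (S l) (u l) (v l) (m l) k) ∧
      (b = false → Can K0 σ1 εy Cy g' D (Y l) (X l) (fun k => -S l k) (v l) (u l)
        (fun k => -m l k) k)))
    hXc hYc hGc ?_ ?_ ?_
  · obtain ⟨l, hl, κ, h1, h2, h3, h4, h5, h6, h7⟩ := hfinal
    exact ⟨l, hl, κ, h1, h2, h3, h4, h5, fun j hj => (h6 j hj).trans hδ'δ, h7⟩
  · intro l hl
    obtain ⟨i1, i2, i3, i4, i5, i6, i7⟩ := hinit l hl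
    have hll : D0 ≤ l := hl0.trans hl.1
    refine ⟨⟨by rw [i7], fun _ => ?_, fun h => absurd h (by simp)⟩, i7⟩
    constructor
    · exact hg
    · linarith
    · exact i4
    · rw [i1]; ring
    · rw [i5]; linarith
    · rw [i5]; linarith
    · rw [i6]
      have := mul_le_mul_of_nonneg_right hν0 hg.le
      linarith
    · rw [i6]
    · rw [i2, show Cy - 2 * Real.log g + 2 * Real.log g = Cy by ring]; exact hYCy
    · rw [i2]; linarith
    · rw [i3]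
    · rw [i3]
      have := mul_le_mul_of_nonneg_right hσ1le (by linarith : 0 ≤ l)
      linarith
  · intro l hl b g' D k hcn
    rcases b with _ | _
    · obtain ⟨e1, e2, e3, e4, e5, e6⟩ := hprop _ _ _ _ _ _ _ _ _ (hcn.2.2 rfl)
      refine ⟨e1, ?_, e4, e3, ?_, fun h => absurd h (by simp), fun _ => ?_⟩
      · rw [add_comm (X l k)]; exact e2
      · rw [abs_neg] at e5; exact e5
      · have : -S l k ≤ -(σ1 * D) := e6
        linarith
    · obtain ⟨e1, e2, e3, e4, e5, e6⟩ := hprop _ _ _ _ _ _ _ _ _ (hcn.2.1 rfl)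
      exact ⟨e1, e2, e3, e4, e5, fun _ => e6, fun h => absurd h (by simp)⟩
  · intro l hl b g' D k hcn hD hGk
    have hG0 := hcn.1
    have hRSl := (hRS l hl).mono one_pos le_rfl hδ'δ
    have hgen : ∀ (X Y S u v m : ℕ → ℝ) , RS c C c0 ε1 1 δ' X Y S u v m (G l) →
        Can K0 σ1 εy Cy g' D X Y S u v m k →
        ∃ k' g'' D', k < k' ∧ (0 ≤ G l k' ∧ Can K0 σ1 εy Cy g'' D' Y X (fun k => -S k) v u (fun k => -m k) k') ∧
        2 * g' ≤ g'' ∧ g'' ≤ CH' * g' ∧ D ≤ CH' * D' ∧ 2 * D' ≤ D ∧ ((k' : ℝ) - k) * g' ≤ CH' * D ∧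
        g'' / CH' ≤ G l k' - G l k ∧
        ∀ j, k ≤ j → j ≤ k' → G l k ≤ G l j ∧ G l j ≤ G l k + CH' * g' ∧
          D ≤ CH' * (X j + Y j + 4 * Real.log g' + CH') := by
      intro X Y S u v m hRS' hcan
      have hg'p := hcan.hg
      have hCg : CH * g' ≤ CH' * g' := mul_le_mul_of_nonneg_right hCHCH' hg'p.le
      have hg'ε : g' ≤ ε1 := by
        have : 1 * g' ≤ CH * g' := mul_le_mul_of_nonneg_right hCH hg'p.le
        linarith
      obtain ⟨k', g'', D', h1, h2, h3, h4, h5, h6, h7, h8, h9⟩ := abs_step c hc C c0 K0 σ1 εy Cy CH D0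
        ε1 hD0 H hCH ε1 δ' hε1.le le_rfl X Y S u v m (G l) hRS' g' D k hD hcan (by linarith) hg'ε
      have hDp : 0 ≤ D := hcan.hD
      have hD'p : 0 ≤ D' := h2.hD
      have hg''p := h2.hg
      refine ⟨k', g'', D', h1, ⟨?_, h2⟩, h3, by linarith, ?_, h6, ?_, ?_, ?_⟩
      · have := (h9 k' h1.le le_rfl).1; linarith
      · have := mul_le_mul_of_nonneg_right hCHCH' hD'p; linarith
      · have := mul_le_mul_of_nonneg_right hCHCH' hDp; linarith
      · refine le_trans ?_ h8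
        exact div_le_div_of_nonneg_left hg''p.le (by linarith) hCHCH'
      · intro j hj1 hj2
        obtain ⟨e1, e2, e3⟩ := h9 j hj1 hj2
        refine ⟨e1, by linarith, ?_⟩
        have h10 : 0 ≤ X j + Y j + 4 * Real.log g' + CH := by
          by_contra hcon
          push Not at hcon
          have := mul_neg_of_pos_of_neg (by linarith : 0 < CH) hcon
          linarith
        calc D ≤ CH * (X j + Y j + 4 * Real.log g' + CH) := e3
          _ ≤ CH' * (X j + Y j + 4 * Real.log g' + CH) := mul_le_mul_of_nonneg_right hCHCH' h10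
          _ ≤ CH' * (X j + Y j + 4 * Real.log g' + CH') :=
            mul_le_mul_of_nonneg_left (by linarith) (by linarith)
    rcases b with _ | _
    · obtain ⟨k', g'', D', h1, h2, h3, h4, h5, h6, h7, h8, h9⟩ := hgen _ _ _ _ _ _
        (hRSl.refl hc) (hcn.2.2 rfl)
      refine ⟨k', g'', D', h1, ⟨h2.1, fun _ => ?_, fun h => absurd h (by simp)⟩, h3, h4, h5, h6, h7, h8,
        fun j hj1 hj2 => ?_⟩
      · have := h2.2
        simp only [neg_neg] at this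
        exact this
      · obtain ⟨e1, e2, e3⟩ := h9 j hj1 hj2
        refine ⟨e1, e2, ?_⟩
        rw [add_comm (X l j)]; exact e3
    · obtain ⟨k', g'', D', h1, h2, h3, h4, h5, h6, h7, h8, h9⟩ := hgen _ _ _ _ _ _
        hRSl (hcn.2.1 rfl)
      exact ⟨k', g'', D', h1, ⟨h2.1, fun h => absurd h (by simp), fun _ => h2.2⟩, h3, h4, h5, h6, h7, h8,
        h9⟩

end Pool.Agent.Hhelper30.Forsythe
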