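import Pool.Agent.Hhelper30.Forsythe.Bounce

/-! Structure of the motion of one incoming particle up to its exit. -/

set_option autoImplicit false

namespace Pool.Agent.Hhelper30.Forsythe

open Filter Topology Set Finset

/-- telescoping with errors -/
theorem telesc (q f g : ℕ → ℝ) (K : ℕ) (h : ∀ j < K, |q (j + 1) - q j - f j| ≤ g j) :
    ∀ k ≤ K, |q k - q 0 - ∑ j ∈ range k, f j| ≤ ∑ j ∈ range k, g j := by
  intro k
  induction k with
  | zero => intro _; simp
  | succ k ih =>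
    intro hk
    have h1 := ih (Nat.le_of_succ_le hk)
    have h2 := h k hk
    rw [Finset.sum_range_succ, Finset.sum_range_succ]
    have h3 := abs_add_le (q (k + 1) - q k - f k) (q k - q 0 - ∑ j ∈ range k, f j)
    rw [show q (k + 1) - q k - f k + (q k - q 0 - ∑ j ∈ range k, f j)
      = q (k + 1) - q 0 - (∑ j ∈ range k, f j + f k) by ring] at h3
    linarith

theorem telesc_from (q f g : ℕ → ℝ) (k0 K : ℕ) (h : ∀ j, k0 ≤ j → j < K → |q (j + 1) - q j - f j| ≤ g j) :
    ∀ k, k0 ≤ k → k ≤ K → |q k - q k0 - ∑ j ∈ Ico k0 k, f j| ≤ ∑ j ∈ Ico k0 k, g j := by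
  intro k hk0
  induction k, hk0 using Nat.le_induction with
  | base => intro _; simp
  | succ k hk0 ih =>
    intro hk
    have h1 := ih (Nat.le_of_succ_le hk)
    have h2 := h k hk0 hk
    rw [Finset.sum_Ico_succ_top hk0, Finset.sum_Ico_succ_top hk0]
    have h3 := abs_add_le (q (k + 1) - q k - f k) (q k - q k0 - ∑ j ∈ Ico k0 k, f j)
    rw [show q (k + 1) - q k - f k + (q k - q k0 - ∑ j ∈ Ico k0 k, f j)
      = q (k + 1) - q k0 - (∑ j ∈ Ico k0 k, f j + f k) by ring] at h3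
    linarith

theorem ab (A C : ℝ) (hA : 0 < A) (hC : 0 < C) (θ : ℝ) (hθ : 0 < θ) (hθ1 : θ ≤ 1 / 10) :
    ∃ ε0 > 0, ε0 ≤ 1 ∧ ∃ Cθ : ℝ, 1 ≤ Cθ ∧ ∀ (ε h : ℝ), 0 ≤ ε → ε ≤ ε0 → 0 < h → h ≤ ε0 →
    ∀ (u X o : ℕ → ℝ) (K : ℕ) (D : ℝ),
    (∀ j < K, 0 ≤ o j) → (∑ j ∈ range K, o j ≤ ε) →
    |u 0 + 1| ≤ ε → X 0 = D → A * Real.exp (-D) ≤ ε →
    (∀ j < K, |u (j + 1) - u j - h * A * Real.exp (-X j)| ≤ ε * h * Real.exp (-X j) + C * o j) →
    (∀ j < K, |X (j + 1) - X j - 2 * h * u j| ≤ C * h * (h * Real.exp (-X j) + o j)) →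
    (∀ j < K, u j < 1 - θ) →
    (∀ k ≤ K, |u k ^ 2 + A * Real.exp (-X k) - 1| ≤ θ ^ 2) ∧
    (∀ k ≤ K, |u k - u 0 - A * (h * ∑ j ∈ range k, Real.exp (-X j))| ≤ θ ^ 2) ∧
    (∀ k ≤ K, h * ∑ j ∈ range k, Real.exp (-X j) ≤ Cθ) ∧
    (∀ k ≤ K, -1 - θ ≤ u k ∧ u k ≤ 1 + θ) ∧
    (∀ k ≤ K, -Cθ ≤ X k ∧ X k ≤ D + Cθ) ∧
    ∃ kz ≤ K, (∀ j < kz, u j < -1 + θ) ∧ h * ((K : ℝ) - kz) ≤ Cθ ∧
      2 * (1 - θ) * (h * kz) ≤ D + Cθ ∧
      (kz < K → D ≤ 2 * (1 + θ) * (h * kz) + Cθ ∧ X kz ≤ Cθ) ∧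
      (∀ k ≤ kz, D - 2 * (1 + θ) * (h * k) - Cθ ≤ X k ∧
        X k ≤ D - 2 * (1 - θ) * (h * k) + Cθ) := by
  obtain ⟨C1, hC11, hxb⟩ := xb A C hA hC
  have hC1pos : 0 < C1 := by linarith
  set Cx := C * (C1 + 1) with hCx
  have hCxpos : 0 < Cx := by positivity
  set Lz := |Real.log (A / θ)| with hLz
  set L2 := |Real.log (2 / A)| with hL2
  set Cz := A * C1 / θ with hCz
  have hCzpos : 0 < Cz := by positivity
  refine ⟨min 1 (θ ^ 2 / (2 * C1)), by positivity, min_le_left _ _,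
    1 + C1 + Cx + Lz + L2 + Cz + 3 * Cz, ?_, ?_⟩
  · have := abs_nonneg (Real.log (A / θ)); have := abs_nonneg (Real.log (2 / A))
    linarith
  set Cθ := 1 + C1 + Cx + Lz + L2 + Cz + 3 * Cz with hCθ
  have hLz0 : 0 ≤ Lz := abs_nonneg _
  have hL20 : 0 ≤ L2 := abs_nonneg _
  intro ε h hε hε0 hh hh0 u X o K D ho hsum hu0 hX0 hD hu hX hex
  have hε1 : ε ≤ 1 := hε0.trans (min_le_left _ _)
  have hh1 : h ≤ 1 := hh0.trans (min_le_left _ _)
  have hεθ : ε ≤ θ ^ 2 / (2 * C1) := hε0.trans (min_le_right _ _)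
  have hhθ : h ≤ θ ^ 2 / (2 * C1) := hh0.trans (min_le_right _ _)
  have hθ2 : θ ^ 2 ≤ θ / 10 := by nlinarith
  have hsm : C1 * (ε + h) ≤ θ ^ 2 := by
    have : C1 * (ε + h) ≤ C1 * (θ ^ 2 / (2 * C1) + θ ^ 2 / (2 * C1)) :=
      mul_le_mul_of_nonneg_left (by linarith) hC1pos.le
    have h2 : C1 * (θ ^ 2 / (2 * C1) + θ ^ 2 / (2 * C1)) = θ ^ 2 := by field_simp; ring
    linarith
  have hsm1 : C1 * (ε + h) ≤ 1 := by nlinarith
  have hmain := hxb ε h hε hh hsm1 u X o K ho hsum hu0 (by rw [hX0]; exact hD) hu hX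
  set W : ℕ → ℝ := fun k => h * ∑ j ∈ range k, Real.exp (-X j) with hW
  have hWmono : ∀ i j, i ≤ j → W i ≤ W j := by
    intro i j hij
    apply mul_le_mul_of_nonneg_left _ hh.le
    exact Finset.sum_le_sum_of_subset_of_nonneg (Finset.range_mono hij)
      (fun _ _ _ => (Real.exp_pos _).le)
  have ha : ∀ k ≤ K, |u k ^ 2 + A * Real.exp (-X k) - 1| ≤ θ ^ 2 :=
    fun k hk => (hmain k hk).1.trans hsm
  have hb : ∀ k ≤ K, |u k - u 0 - A * W k| ≤ θ ^ 2 :=
    fun k hk => (hmain k hk).2.1.trans hsm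
  have hWC : ∀ k ≤ K, W k ≤ C1 := fun k hk => (hmain k hk).2.2
  have hub : ∀ k ≤ K, -1 - θ ≤ u k ∧ u k ≤ 1 + θ := by
    intro k hk
    have h1 := (abs_le.mp (ha k hk)).2
    have h2 : 0 ≤ A * Real.exp (-X k) := by positivity
    have h3 : u k ^ 2 ≤ (1 + θ) ^ 2 := by nlinarith
    have h4 := abs_le_of_sq_le_sq' h3 (by linarith)
    constructor <;> linarith [h4.1, h4.2]
  have hOle : ∀ k ≤ K, ∑ j ∈ range k, o j ≤ 1 := by
    intro k hk
    refine le_trans ?_ (hsum.trans hε1)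
    exact Finset.sum_le_sum_of_subset_of_nonneg (Finset.range_mono hk)
      (fun i hi _ => ho i (Finset.mem_range.mp hi))
  -- position of X
  have hXsum : ∀ k ≤ K, |X k - D - ∑ j ∈ range k, 2 * h * u j| ≤ Cx := by
    intro k hk
    have h1 := telesc X (fun j => 2 * h * u j) (fun j => C * h * (h * Real.exp (-X j) + o j)) K hX k hk
    rw [hX0] at h1
    refine h1.trans ?_
    have h2 : ∑ j ∈ range k, C * h * (h * Real.exp (-X j) + o j)
        = C * h * (W k + ∑ j ∈ range k, o j) := by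
      rw [← Finset.mul_sum, Finset.sum_add_distrib, ← Finset.mul_sum]
    rw [h2]
    have h3 : W k + ∑ j ∈ range k, o j ≤ C1 + 1 := add_le_add (hWC k hk) (hOle k hk)
    have h4 : C * h ≤ C * 1 := mul_le_mul_of_nonneg_left hh1 hC.le
    have h5 : 0 ≤ W k + ∑ j ∈ range k, o j := by
      have : 0 ≤ W k := mul_nonneg hh.le (Finset.sum_nonneg (fun i _ => (Real.exp_pos _).le))
      have : 0 ≤ ∑ j ∈ range k, o j :=
        Finset.sum_nonneg (fun i hi => ho i (lt_of_lt_of_le (Finset.mem_range.mp hi) hk))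
      linarith
    calc C * h * (W k + ∑ j ∈ range k, o j) ≤ C * 1 * (C1 + 1) :=
          mul_le_mul h4 h3 h5 (by positivity)
      _ = Cx := by rw [hCx]; ring
  have hXlow : ∀ k ≤ K, -L2 ≤ X k := by
    intro k hk
    have h1 := (abs_le.mp (ha k hk)).2
    have h2 : A * Real.exp (-X k) ≤ 2 := by nlinarith [sq_nonneg (u k)]
    have h3 : Real.exp (-X k) ≤ 2 / A := by rw [le_div_iff₀ hA]; linarith
    have h4 : -X k ≤ Real.log (2 / A) := by
      rw [← Real.log_exp (-X k)]; exact Real.log_le_log (Real.exp_pos _) h3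
    have := le_abs_self (Real.log (2 / A))
    linarith
  -- zone entry
  obtain ⟨kz, hkzK, hkz1, hkz2⟩ : ∃ kz ≤ K, (∀ j < kz, u j < -1 + θ) ∧
      (kz < K → -1 + θ ≤ u kz) := by
    by_cases hx : ∃ k, k ≤ K ∧ -1 + θ ≤ u k
    · refine ⟨Nat.find hx, (Nat.find_spec hx).1, ?_, fun _ => (Nat.find_spec hx).2⟩
      intro j hj
      have := Nat.find_min hx hj
      push Not at this
      exact this (hj.le.trans (Nat.find_spec hx).1)
    · push Not at hx
      exact ⟨K, le_refl K, fun j hj => hx j hj.le, fun h => absurd h (lt_irrefl K)⟩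
  have hzone : ∀ j, kz ≤ j → j < K → θ ≤ A * Real.exp (-X j) := by
    intro j hj hjK
    have hkzlt : kz < K := lt_of_le_of_lt hj hjK
    have h1 := hkz2 hkzlt
    have h2 := (abs_le.mp (hb j hjK.le)).1
    have h3 := (abs_le.mp (hb kz hkzK)).2
    have h4 : A * W kz ≤ A * W j := mul_le_mul_of_nonneg_left (hWmono kz j hj) hA.le
    have h5 : -1 + θ - 2 * θ ^ 2 ≤ u j := by linarith
    have h6 := hex j hjK
    have h7 := (abs_le.mp (ha j hjK.le)).1
    have h8 : u j ^ 2 ≤ (1 - θ + 2 * θ ^ 2) ^ 2 := by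
      apply sq_le_sq'
      · linarith
      · nlinarith
    nlinarith [sq_nonneg θ, mul_nonneg hθ.le (sq_nonneg θ)]
  have hzdur : h * ((K : ℝ) - kz) ≤ Cz := by
    have h1 : θ * (h * ((K : ℝ) - kz)) ≤ A * (W K - W kz) := by
      have h2 : W K - W kz = h * ∑ j ∈ Ico kz K, Real.exp (-X j) := by
        simp only [hW]
        rw [Finset.sum_Ico_eq_sub _ hkzK]; ring
      rw [h2]
      have h3 : ∑ j ∈ Ico kz K, (θ / A) ≤ ∑ j ∈ Ico kz K, Real.exp (-X j) := by
        apply Finset.sum_le_sum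
        intro j hj
        rw [Finset.mem_Ico] at hj
        rw [div_le_iff₀ hA]
        have := hzone j hj.1 hj.2
        linarith
      rw [Finset.sum_const, Nat.card_Ico, nsmul_eq_mul, Nat.cast_sub hkzK] at h3
      have h4 := mul_le_mul_of_nonneg_left h3 (mul_nonneg hA.le hh.le)
      have h5 : A * h * (((K : ℝ) - kz) * (θ / A)) = θ * (h * ((K : ℝ) - kz)) := by
        field_simp
      rw [h5] at h4
      linarith [h4]
    have h6 : 0 ≤ W kz := mul_nonneg hh.le (Finset.sum_nonneg (fun i _ => (Real.exp_pos _).le))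
    have h7 : A * (W K - W kz) ≤ A * C1 := by
      apply mul_le_mul_of_nonneg_left _ hA.le
      linarith [hWC K le_rfl]
    rw [hCz, le_div_iff₀ hθ]
    linarith
  have happ : ∀ k ≤ kz, D - 2 * (1 + θ) * (h * k) - Cx ≤ X k ∧
      X k ≤ D - 2 * (1 - θ) * (h * k) + Cx := by
    intro k hk
    have hkK := hk.trans hkzK
    have h1 := abs_le.mp (hXsum k hkK)
    have h2 : ∑ j ∈ range k, 2 * h * u j ≤ ∑ j ∈ range k, (-(2 * (1 - θ) * h)) := by
      apply Finset.sum_le_sum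
      intro j hj
      have := hkz1 j (lt_of_lt_of_le (Finset.mem_range.mp hj) hk)
      nlinarith
    have h3 : ∑ j ∈ range k, (-(2 * (1 + θ) * h)) ≤ ∑ j ∈ range k, 2 * h * u j := by
      apply Finset.sum_le_sum
      intro j hj
      have := (hub j ((Finset.mem_range.mp hj).le.trans hkK)).1
      nlinarith
    rw [Finset.sum_const, Finset.card_range, nsmul_eq_mul] at h2 h3
    constructor
    · have := h1.1; linarith
    · have := h1.2; linarith
  have hXup : ∀ k ≤ K, X k ≤ D + Cx + 3 * Cz := by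
    intro k hk
    have h1 := (abs_le.mp (hXsum k hk)).2
    have h2 : ∑ j ∈ range k, 2 * h * u j ≤ 3 * Cz := by
      by_cases hkk : k ≤ kz
      · have : ∑ j ∈ range k, 2 * h * u j ≤ ∑ j ∈ range k, (0:ℝ) := by
          apply Finset.sum_le_sum
          intro j hj
          have := hkz1 j (lt_of_lt_of_le (Finset.mem_range.mp hj) hkk)
          have : u j ≤ 0 := by linarith
          nlinarith
        simp only [Finset.sum_const_zero] at this
        linarith
      · push Not at hkk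
        rw [Finset.range_eq_Ico, ← Finset.sum_Ico_consecutive _ (Nat.zero_le kz) hkk.le]
        have h3 : ∑ j ∈ Ico 0 kz, 2 * h * u j ≤ 0 := by
          apply Finset.sum_nonpos
          intro j hj
          have := hkz1 j (Finset.mem_Ico.mp hj).2
          have : u j ≤ 0 := by linarith
          nlinarith
        have h4 : ∑ j ∈ Ico kz k, 2 * h * u j ≤ ∑ j ∈ Ico kz k, (3 * h) := by
          apply Finset.sum_le_sum
          intro j hj
          have := (hub j ((Finset.mem_Ico.mp hj).2.le.trans hk)).2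
          nlinarith
        rw [Finset.sum_const, Nat.card_Ico, nsmul_eq_mul, Nat.cast_sub hkk.le] at h4
        have h5 : ((k : ℝ) - kz) * (3 * h) ≤ 3 * (h * ((K : ℝ) - kz)) := by
          have : (k : ℝ) ≤ K := by exact_mod_cast hk
          nlinarith
        linarith
    linarith
  have hpz : 2 * (1 - θ) * (h * kz) ≤ D + Cx + L2 := by
    have h1 := (happ kz le_rfl).2
    have h2 := hXlow kz hkzK
    linarith
  refine ⟨ha, hb, fun k hk => (hWC k hk).trans (by rw [hCθ]; linarith), hub, ?_, kz, hkzK, hkz1,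
    hzdur.trans (by rw [hCθ]; linarith), by rw [hCθ]; linarith, ?_, ?_⟩
  · intro k hk
    constructor
    · have := hXlow k hk; rw [hCθ]; linarith
    · have := hXup k hk; rw [hCθ]; linarith
  · intro hlt
    have h1 := hzone kz le_rfl hlt
    have h2 : θ / A ≤ Real.exp (-X kz) := by rw [div_le_iff₀ hA]; linarith
    have h3 : X kz ≤ Real.log (A / θ) := by
      have h4 : Real.exp (X kz) ≤ A / θ := by
        rw [Real.exp_neg] at h2
        have h5 : 0 < Real.exp (X kz) := Real.exp_pos _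
        rw [div_le_iff₀ hA] at h2
        rw [le_div_iff₀ hθ]
        have h6 : (Real.exp (X kz))⁻¹ * A * Real.exp (X kz) = A := by
          field_simp
        nlinarith
      rw [← Real.log_exp (X kz)]
      exact Real.log_le_log (Real.exp_pos _) h4
    have h5 := le_abs_self (Real.log (A / θ))
    have h6 := (happ kz le_rfl).1
    constructor
    · rw [hCθ]; linarith
    · rw [hCθ]; linarith
  · intro k hk
    have := happ k hk
    constructor
    · rw [hCθ]; linarith [this.1]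
    · rw [hCθ]; linarith [this.2]

end Pool.Agent.Hhelper30.Forsythe
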