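import Pool.Agent.Hhelper30.Forsythe.RefC

/-! Module E, part 4: continuity, the function `gh`, the integral bound, and the final statement. -/

set_option autoImplicit false

namespace Pool.Agent.Hhelper30.Forsythe

open Filter Topology Set

section
variable {r : Fin 4 → ℝ}

/-- positivity of the reference quartic on the central interval -/
theorem Q4_pos (hr : Encl r) {e : ℝ} (he : e ∈ Icc (-3 : ℝ) 3) : 0 < Q4 (pe r) e := by
  rw [Q4_pe]
  obtain ⟨⟨l0, u0⟩, ⟨l1, u1⟩, ⟨l2, u2⟩, ⟨l3, u3⟩⟩ := hr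
  have h1 : 0 < (e + r 2) * (e + r 1) := mul_pos (by linarith [he.1]) (by linarith [he.1])
  have h2 : 0 < (r 0 - e) * (r 3 - e) := mul_pos (by linarith [he.2]) (by linarith [he.2])
  have : (e + r 2) * (e + r 1) * (e - r 0) * (e - r 3) = ((e + r 2) * (e + r 1)) * ((r 0 - e) * (r 3 - e)) := by ring
  rw [this]; exact mul_pos h1 h2

theorem PiT_pos {e : ℝ} (he : e ∈ Icc (-3 : ℝ) 3) : 0 < PiT e := by
  unfold PiT
  have : e ^ 2 ≤ 9 := by nlinarith [he.1, he.2]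
  exact mul_pos (by linarith) (by linarith)

theorem neg_mem {e : ℝ} (he : e ∈ Icc (-3 : ℝ) 3) : -e ∈ Icc (-3 : ℝ) 3 := ⟨by linarith [he.2], by linarith [he.1]⟩

theorem continuous_Q4 (p : Fin 4 → ℝ) : Continuous (fun e => Q4 p e) := by unfold Q4; fun_prop
theorem continuous_PiT : Continuous PiT := by unfold PiT; fun_prop

theorem Q4_6_ne (hr : Encl r) : Q4 (pe r) 6 ≠ 0 := by
  rw [Q4_pe]
  obtain ⟨⟨l0, u0⟩, ⟨l1, u1⟩, ⟨l2, u2⟩, ⟨l3, u3⟩⟩ := hr
  refine mul_ne_zero (mul_ne_zero (mul_ne_zero ?_ ?_) ?_) ?_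
  · exact (by linarith : 0 < 6 + r 2).ne'
  · exact (by linarith : 0 < 6 + r 1).ne'
  · exact (by linarith : 0 < 6 - r 0).ne'
  · exact (by linarith : 6 - r 3 < 0).ne

theorem Q4_m6_ne (hr : Encl r) : Q4 (pe r) (-6) ≠ 0 := by
  rw [Q4_pe]
  obtain ⟨⟨l0, u0⟩, ⟨l1, u1⟩, ⟨l2, u2⟩, ⟨l3, u3⟩⟩ := hr
  refine mul_ne_zero (mul_ne_zero (mul_ne_zero ?_ ?_) ?_) ?_
  · exact (by linarith : -6 + r 2 < 0).ne
  · exact (by linarith : -6 + r 1 < 0).ne
  · exact (by linarith : -6 - r 0 < 0).ne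
  · exact (by linarith : -6 - r 3 < 0).ne

theorem cont_aco (hr : Encl r) {z : ℝ} (hz : z = 6 ∨ z = -6) (s : ℝ) : ContinuousOn (fun e => aco r z s e) (Icc (-3) 3) := by
  unfold aco th
  refine ContinuousOn.add (ContinuousOn.div (by fun_prop) (by fun_prop) ?_) continuousOn_const
  intro e he
  refine mul_ne_zero (pow_ne_zero 2 ?_) ?_
  · rcases hz with rfl | rfl
    · exact (by linarith [he.2] : 0 < 6 - e).ne'
    · exact (by linarith [he.1] : -6 - e < 0).ne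
  · rcases hz with rfl | rfl
    · exact Q4_6_ne hr
    · exact Q4_m6_ne hr

theorem cont_kco (hr : Encl r) {z : ℝ} (hz : z = 6 ∨ z = -6) : ContinuousOn (fun e => kco r z e) (Icc (-3) 3) := by
  unfold kco
  refine ContinuousOn.div ?_ (by fun_prop) ?_
  · refine ContinuousOn.mul ?_ continuousOn_const
    exact (ContinuousOn.div (continuous_Q4 _).continuousOn continuous_PiT.continuousOn
      (fun e he => (PiT_pos he).ne')).neg
  intro e he
  refine mul_ne_zero (pow_ne_zero 2 ?_) ?_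
  · rcases hz with rfl | rfl
    · exact (by linarith [he.2] : 0 < 6 - e).ne'
    · exact (by linarith [he.1] : -6 - e < 0).ne
  · rcases hz with rfl | rfl
    · exact Q4_6_ne hr
    · exact Q4_m6_ne hr

theorem cont_nco (hr : Encl r) {s : ℝ} (hs : s = 6 ∨ s = -6) : ContinuousOn (fun e => nco r s e) (Icc (-3) 3) := by
  unfold nco th
  refine ContinuousOn.mul (ContinuousOn.div (by fun_prop) (by fun_prop) ?_)
    (ContinuousOn.div continuous_PiT.continuousOn (continuous_Q4 _).continuousOn (fun e he => (Q4_pos hr he).ne'))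
  intro e he
  rcases hs with rfl | rfl
  · exact (by linarith [he.2] : e - 6 < 0).ne
  · exact (by linarith [he.1] : 0 < e - -6).ne'

theorem pe_ne (hr : Encl r) {e : ℝ} (he : e ∈ Icc (-3 : ℝ) 3) (j : Fin 4) : e - pe r j ≠ 0 := by
  obtain ⟨⟨l0, u0⟩, ⟨l1, u1⟩, ⟨l2, u2⟩, ⟨l3, u3⟩⟩ := hr
  fin_cases j
  · exact (by simp [pe]; linarith [he.1] : 0 < e - pe r 0).ne'
  · exact (by simp [pe]; linarith [he.1] : 0 < e - pe r 1).ne'
  · exact (by simp [pe]; linarith [he.2] : e - pe r 2 < 0).ne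
  · exact (by simp [pe]; linarith [he.2] : e - pe r 3 < 0).ne

theorem cont_lco (hr : Encl r) : ContinuousOn (fun e => lco r e) (Icc (-3) 3) := by
  unfold lco
  refine ContinuousOn.add (ContinuousOn.add ?_ ?_) ?_
  · refine continuousOn_finsetSum _ (fun j _ => ?_)
    exact ContinuousOn.div continuousOn_const (by fun_prop) (fun e he => pe_ne hr he j)
  · refine ContinuousOn.div (by fun_prop) (by fun_prop) (fun e he => ?_)
    have : e ^ 2 ≤ 9 := by nlinarith [he.1, he.2]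
    exact (by linarith : 0 < 25 - e ^ 2).ne'
  · refine ContinuousOn.div (by fun_prop) (by fun_prop) (fun e he => ?_)
    have : e ^ 2 ≤ 9 := by nlinarith [he.1, he.2]
    exact (by linarith : 0 < 100 - e ^ 2).ne'

theorem mapsTo_neg : MapsTo (fun e : ℝ => -e) (Icc (-3) 3) (Icc (-3) 3) := fun _ he => neg_mem he

/-- derivative of the quartic -/
theorem hasDerivAt_Q4 (p : Fin 4 → ℝ) {e : ℝ} (h : ∀ j, e - p j ≠ 0) :
    HasDerivAt (fun e => Q4 p e) (Q4 p e * ∑ j, 1 / (e - p j)) e := by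
  have h1 : ∀ j, HasDerivAt (fun e : ℝ => e - p j) 1 e := fun j => (hasDerivAt_id e).sub_const _
  have h2 := (((h1 0).mul (h1 1)).mul (h1 2)).mul (h1 3)
  have h3 : (fun e => Q4 p e) = (fun e => (e - p 0) * (e - p 1) * (e - p 2) * (e - p 3)) := rfl
  rw [h3]
  refine h2.congr_deriv ?_
  rw [Fin.sum_univ_four]
  simp only [Q4, Pi.mul_apply]
  have := h 0; have := h 1; have := h 2; have := h 3
  field_simp

theorem gh_hasDeriv (hr : Encl r) {e : ℝ} (he : e ∈ Icc (-3 : ℝ) 3) :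
    HasDerivAt (coefRef r).gh ((coefRef r).lam e * (coefRef r).gh e) e := by
  have hp := Q4_pos hr he
  have hp' := Q4_pos hr (neg_mem he)
  have hT := PiT_pos he
  have d1 : HasDerivAt (fun e => Q4 (pe r) e) _ e := hasDerivAt_Q4 (pe r) (fun j => pe_ne hr he j)
  have d2 : HasDerivAt (fun e => Q4 (pe r) (-e)) _ e :=
    HasDerivAt.comp e (hasDerivAt_Q4 (pe r) (fun j => pe_ne hr (neg_mem he) j)) (hasDerivAt_neg e)
  have d3 := (d1.mul d2).sqrt (mul_pos hp hp').ne'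
  have d4 : HasDerivAt PiT (-(2 * e) * (100 - e ^ 2) + (25 - e ^ 2) * (-(2 * e))) e := by
    have a1 : HasDerivAt (fun e : ℝ => 25 - e ^ 2) (-(2 * e)) e := by
      refine ((hasDerivAt_pow 2 e).const_sub 25).congr_deriv ?_
      simp
    have a2 : HasDerivAt (fun e : ℝ => 100 - e ^ 2) (-(2 * e)) e := by
      refine ((hasDerivAt_pow 2 e).const_sub 100).congr_deriv ?_
      simp
    exact a1.mul a2
  have d5 := d3.div d4 hT.ne'
  have e1 : (coefRef r).gh = fun e => Real.sqrt (Q4 (pe r) e * Q4 (pe r) (-e)) / PiT e := rfl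
  rw [e1]
  refine d5.congr_deriv ?_
  have e2 : (coefRef r).lam e = (lco r e - lco r (-e)) / 2 := rfl
  rw [e2]
  simp only [lco]
  have hs : Real.sqrt (Q4 (pe r) e * Q4 (pe r) (-e)) ≠ 0 := (Real.sqrt_pos.2 (mul_pos hp hp')).ne'
  have hsq : Real.sqrt (Q4 (pe r) e * Q4 (pe r) (-e)) ^ 2 = Q4 (pe r) e * Q4 (pe r) (-e) :=
    Real.sq_sqrt (mul_pos hp hp').le
  set s := Real.sqrt (Q4 (pe r) e * Q4 (pe r) (-e)) with hsdef
  set A := ∑ j, 1 / (e - pe r j) with hA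
  set B := ∑ j, 1 / (-e - pe r j) with hB
  have h25 : (25 - e ^ 2) ≠ 0 := by
    have : e ^ 2 ≤ 9 := by nlinarith [he.1, he.2]
    exact (by linarith : 0 < 25 - e ^ 2).ne'
  have h100 : (100 - e ^ 2) ≠ 0 := by
    have : e ^ 2 ≤ 9 := by nlinarith [he.1, he.2]
    exact (by linarith : 0 < 100 - e ^ 2).ne'
  have key : (Q4 (pe r) e * A * Q4 (pe r) (-e) + Q4 (pe r) e * (Q4 (pe r) (-e) * B * -1)) / (2 * s) = s * (A - B) / 2 := by
    rw [div_eq_div_iff (mul_ne_zero two_ne_zero hs) two_ne_zero]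
    have : s * (A - B) * (2 * s) = 2 * (s ^ 2) * (A - B) := by ring
    rw [this, hsq]; ring
  have hss : Real.sqrt (((fun e => Q4 (pe r) e) * fun e => Q4 (pe r) (-e)) e) = s := rfl
  rw [hss, key]
  unfold PiT
  rw [neg_sq]
  field_simp
  ring

variable {a b c d a' b' c' d' : ℝ}

theorem ratio_formula (hr : Encl r) (V : Vals r a b c d a' b' c' d') {e : ℝ} (he : e ∈ Icc (-3 : ℝ) 3) :
    (coefRef r).kx e / (coefRef r).gh e =
      19008 / (6 + e) ^ 2 * ((d * Q4 (pe r) e - d' * Q4 (pe r) (-e)) / Real.sqrt (Q4 (pe r) e * Q4 (pe r) (-e))) := by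
  have hp := Q4_pos hr he
  have hp' := Q4_pos hr (neg_mem he)
  have hT := (PiT_pos he).ne'
  have hTn : PiT (-e) = PiT e := by unfold PiT; rw [neg_sq]
  have hs : Real.sqrt (Q4 (pe r) e * Q4 (pe r) (-e)) ≠ 0 := (Real.sqrt_pos.2 (mul_pos hp hp')).ne'
  have e1 : (coefRef r).kx e = kco r (-6) e + kco r 6 (-e) := rfl
  have e2 : (coefRef r).gh e = Real.sqrt (Q4 (pe r) e * Q4 (pe r) (-e)) / PiT e := rfl
  have hdd := V.hd'
  have hd0 : d ≠ 0 := by intro h; rw [h, zero_mul] at hdd; exact zero_ne_one hdd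
  have hd0' : d' ≠ 0 := by intro h; rw [h, mul_zero] at hdd; exact zero_ne_one hdd
  have h6 : (6 + e) ≠ 0 := (by linarith [he.1] : 0 < 6 + e).ne'
  have k1 : kco r (-6) e = 19008 / (6 + e) ^ 2 * (d * Q4 (pe r) e) / PiT e := by
    unfold kco
    rw [V.ed', PiP_m6]
    have hdi : d' = 1 / d := by field_simp; linarith
    rw [hdi]
    have : (-6 - e) ^ 2 = (6 + e) ^ 2 := by ring
    rw [this]
    field_simp
  have k2 : kco r 6 (-e) = -(19008 / (6 + e) ^ 2 * (d' * Q4 (pe r) (-e)) / PiT e) := by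
    unfold kco
    rw [V.ed, PiP_6, hTn]
    have hdi : d' = 1 / d := by field_simp; linarith
    rw [hdi]
    have : (6 - -e) ^ 2 = (6 + e) ^ 2 := by ring
    rw [this]
    field_simp
  rw [e1, e2, k1, k2]
  field_simp
  ring

theorem lower_left (hr : Encl r) (V : Vals r a b c d a' b' c' d') {e : ℝ} (he : e ∈ Icc (-3 : ℝ) 0) :
    835000 ≤ (coefRef r).kx e / (coefRef r).gh e := by
  have he' : e ∈ Icc (-3 : ℝ) 3 := ⟨he.1, by linarith [he.2]⟩
  rw [ratio_formula hr V he']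
  have hp := Q4_pos hr he'
  have hp' := Q4_pos hr (neg_mem he')
  obtain ⟨⟨A1, A2⟩, ⟨B1, B2⟩, ⟨C1, C2⟩, ⟨D1, D2⟩⟩ := small_bounds V
  obtain ⟨d1, d2⟩ := V.hd
  have hge : Q4 (pe r) (-e) ≤ Q4 (pe r) e := by
    rw [Q4_pe, Q4_pe]
    obtain ⟨⟨l0, u0⟩, ⟨l1, u1⟩, ⟨l2, u2⟩, ⟨l3, u3⟩⟩ := hr
    have i1 : (r 1 + r 2) - (r 0 + r 3) ≤ 0 := by linarith
    have i2 : (r 1 + r 2) * (r 0 * r 3) - (r 0 + r 3) * (r 1 * r 2) ≤ 0 := by
      have j1 : r 0 * r 3 ≤ 30.01 := by nlinarith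
      have j2 : 29.99 ≤ r 1 * r 2 := by nlinarith
      have j3 : (r 1 + r 2) * (r 0 * r 3) ≤ 11 * 30.01 := mul_le_mul (by linarith) j1 (by nlinarith) (by norm_num)
      have j4 : 12.9 * 29.99 ≤ (r 0 + r 3) * (r 1 * r 2) := mul_le_mul (by linarith) j2 (by norm_num) (by linarith)
      linarith
    have key : (e + r 2) * (e + r 1) * (e - r 0) * (e - r 3) - (-e + r 2) * (-e + r 1) * (-e - r 0) * (-e - r 3) =
        2 * ((-e) * e ^ 2 * -((r 1 + r 2) - (r 0 + r 3)) + (-e) * -((r 1 + r 2) * (r 0 * r 3) - (r 0 + r 3) * (r 1 * r 2))) := by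
      ring
    have k1 : 0 ≤ (-e) * e ^ 2 * -((r 1 + r 2) - (r 0 + r 3)) :=
      mul_nonneg (mul_nonneg (by linarith [he.2]) (sq_nonneg e)) (by linarith)
    have k2 : 0 ≤ (-e) * -((r 1 + r 2) * (r 0 * r 3) - (r 0 + r 3) * (r 1 * r 2)) :=
      mul_nonneg (by linarith [he.2]) (by linarith)
    linarith
  set P := Q4 (pe r) e
  set P' := Q4 (pe r) (-e)
  have hs : 0 < Real.sqrt (P * P') := Real.sqrt_pos.2 (mul_pos hp hp')
  have s1 : Real.sqrt (P * P') ≤ P := by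
    rw [Real.sqrt_le_left hp.le]; nlinarith
  have s2 : P' ≤ Real.sqrt (P * P') := by
    apply Real.le_sqrt_of_sq_le; nlinarith
  have h1 : 1582 ≤ (d * P - d' * P') / Real.sqrt (P * P') := by
    rw [le_div_iff₀ hs]
    have t1 : 1583 * Real.sqrt (P * P') ≤ d * P := mul_le_mul d1 s1 hs.le (by linarith)
    have t2 : d' * P' ≤ 1 * Real.sqrt (P * P') := mul_le_mul (by linarith) s2 hp'.le (by norm_num)
    linarith
  have h2 : 528 ≤ 19008 / (6 + e) ^ 2 := by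
    have h6 : 0 < (6 + e) ^ 2 := by nlinarith [he.1]
    rw [le_div_iff₀ h6]
    nlinarith [he.1, he.2]
  calc (835000 : ℝ) ≤ 528 * 1582 := by norm_num
    _ ≤ _ := mul_le_mul h2 h1 (by norm_num) (by positivity)

theorem lower_right (hr : Encl r) (V : Vals r a b c d a' b' c' d') {e : ℝ} (he : e ∈ Icc (0 : ℝ) 3) :
    -1000 ≤ (coefRef r).kx e / (coefRef r).gh e := by
  have he' : e ∈ Icc (-3 : ℝ) 3 := ⟨by linarith [he.1], he.2⟩
  rw [ratio_formula hr V he']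
  have hp := Q4_pos hr he'
  have hp' := Q4_pos hr (neg_mem he')
  obtain ⟨⟨A1, A2⟩, ⟨B1, B2⟩, ⟨C1, C2⟩, ⟨D1, D2⟩⟩ := small_bounds V
  obtain ⟨d1, d2⟩ := V.hd
  obtain ⟨a1, a2⟩ := V.ha
  have haa := V.ha'
  have hP' : Q4 (pe r) (-e) ≤ 2400 := by
    rw [Q4_pe]
    obtain ⟨⟨l0, u0⟩, ⟨l1, u1⟩, ⟨l2, u2⟩, ⟨l3, u3⟩⟩ := hr
    have e1 : (-e + r 2) * (-e + r 1) * (-e - r 0) * (-e - r 3) = ((r 2 - e) * (r 1 - e)) * ((r 0 + e) * (r 3 + e)) := by ring
    rw [e1]
    have h1 : (r 2 - e) * (r 1 - e) ≤ 6 * 5 := mul_le_mul (by linarith [he.1]) (by linarith [he.1]) (by linarith [he.2]) (by norm_num)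
    have h2 : (r 0 + e) * (r 3 + e) ≤ 6.1 * 13 := mul_le_mul (by linarith [he.2]) (by linarith [he.2]) (by linarith [he.1]) (by norm_num)
    calc _ ≤ (6 * 5 : ℝ) * (6.1 * 13) := mul_le_mul h1 h2 (mul_nonneg (by linarith [he.1]) (by linarith [he.1])) (by norm_num)
      _ ≤ 2400 := by norm_num
  have hP : 1 / 1250 ≤ Q4 (pe r) e := by
    have h3 : 1 / 469 ≤ a' := by
      have : a' = 1 / a := by
        have : a ≠ 0 := by linarith
        field_simp; linarith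
      rw [this]
      exact one_div_le_one_div_of_le (by linarith) a2
    have h4 := V.ea'
    rw [Q4_pe] at h4 ⊢
    obtain ⟨⟨l0, u0⟩, ⟨l1, u1⟩, ⟨l2, u2⟩, ⟨l3, u3⟩⟩ := hr
    have h5 : (3 + r 2) * (3 + r 1) * (3 - r 0) * (3 - r 3) = ((3 + r 2) * (3 + r 1)) * ((r 0 - 3) * (r 3 - 3)) := by ring
    rw [h5] at h4
    have h6 : (3 + r 2) * (3 + r 1) ≤ 72 := by nlinarith
    have h7 : 0 < (r 0 - 3) * (r 3 - 3) := mul_pos (by linarith) (by linarith)
    have h8 : a' ≤ 72 * ((r 0 - 3) * (r 3 - 3)) := by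
      rw [← h4]; exact mul_le_mul_of_nonneg_right h6 h7.le
    have h9 : (e + r 2) * (e + r 1) * (e - r 0) * (e - r 3) = ((e + r 2) * (e + r 1)) * ((r 0 - e) * (r 3 - e)) := by ring
    rw [h9]
    have h10 : 29.9 ≤ (e + r 2) * (e + r 1) := by nlinarith [he.1]
    have h11 : (r 0 - 3) * (r 3 - 3) ≤ (r 0 - e) * (r 3 - e) :=
      mul_le_mul (by linarith [he.2]) (by linarith [he.2]) (by linarith) (by linarith [he.2])
    have h12 : 29.9 * ((r 0 - 3) * (r 3 - 3)) ≤ ((e + r 2) * (e + r 1)) * ((r 0 - e) * (r 3 - e)) :=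
      mul_le_mul h10 h11 h7.le (by linarith)
    linarith
  set P := Q4 (pe r) e
  set P' := Q4 (pe r) (-e)
  have hs : 0 < Real.sqrt (P * P') := Real.sqrt_pos.2 (mul_pos hp hp')
  have h1 : -(3 / 2) ≤ (d * P - d' * P') / Real.sqrt (P * P') := by
    rw [le_div_iff₀ hs]
    have t1 : 0 ≤ d * P := mul_nonneg (by linarith) hp.le
    have t2 : d' * P' ≤ 3 / 2 * Real.sqrt (P * P') := by
      have t3 : 2 / 3 * (d' * P') ≤ Real.sqrt (P * P') := by
        apply Real.le_sqrt_of_sq_le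
        have u1 : d' ^ 2 * P' ≤ (1 / 1583) ^ 2 * 2400 := mul_le_mul (pow_le_pow_left₀ D1.le D2 2) hP' hp'.le (by positivity)
        have u2 : (2 / 3) ^ 2 * (d' ^ 2 * P') ≤ P := by
          refine le_trans ?_ hP
          calc (2 / 3 : ℝ) ^ 2 * (d' ^ 2 * P') ≤ (2 / 3) ^ 2 * ((1 / 1583) ^ 2 * 2400) := by gcongr
            _ ≤ 1 / 1250 := by norm_num
        calc (2 / 3 * (d' * P')) ^ 2 = ((2 / 3) ^ 2 * (d' ^ 2 * P')) * P' := by ring
          _ ≤ P * P' := mul_le_mul_of_nonneg_right u2 hp'.le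
      linarith
    linarith
  have h2 : 19008 / (6 + e) ^ 2 ≤ 528 := by
    have h6 : 0 < (6 + e) ^ 2 := by nlinarith [he.1]
    rw [div_le_iff₀ h6]
    nlinarith [he.1, he.2]
  have h3 : 0 ≤ 19008 / (6 + e) ^ 2 := by positivity
  nlinarith

theorem K_bound (hr : Encl r) (V : Vals r a b c d a' b' c' d')
    (hc : ContinuousOn (fun e => (coefRef r).kx e / (coefRef r).gh e) (Icc (-3) 3)) :
    800 ≤ 1 / 2 * (coefRef r).gh (-3) * ∫ e in (-3 : ℝ)..3, (coefRef r).kx e / (coefRef r).gh e := by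
  have hg : (coefRef r).gh (-3) = 1 / 1456 := by
    have e2 : (coefRef r).gh (-3) = Real.sqrt (Q4 (pe r) (-3) * Q4 (pe r) (-(-3))) / PiT (-3) := rfl
    rw [e2, neg_neg, V.ea, V.ea', V.ha', Real.sqrt_one]
    unfold PiT; norm_num
  have i1 : IntervalIntegrable (fun e => (coefRef r).kx e / (coefRef r).gh e) MeasureTheory.volume (-3) 0 :=
    ContinuousOn.intervalIntegrable_of_Icc (by norm_num) (hc.mono (Icc_subset_Icc le_rfl (by norm_num)))
  have i2 : IntervalIntegrable (fun e => (coefRef r).kx e / (coefRef r).gh e) MeasureTheory.volume 0 3 :=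
    ContinuousOn.intervalIntegrable_of_Icc (by norm_num) (hc.mono (Icc_subset_Icc (by norm_num) le_rfl))
  have j1 : ∫ e in (-3 : ℝ)..0, (835000 : ℝ) ≤ ∫ e in (-3 : ℝ)..0, (coefRef r).kx e / (coefRef r).gh e :=
    intervalIntegral.integral_mono_on (by norm_num) intervalIntegrable_const i1 (fun e he => lower_left hr V he)
  have j2 : ∫ e in (0 : ℝ)..3, (-1000 : ℝ) ≤ ∫ e in (0 : ℝ)..3, (coefRef r).kx e / (coefRef r).gh e :=
    intervalIntegral.integral_mono_on (by norm_num) intervalIntegrable_const i2 (fun e he => lower_right hr V he)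
  rw [← intervalIntegral.integral_add_adjacent_intervals i1 i2, hg]
  rw [intervalIntegral.integral_const] at j1 j2
  norm_num at j1 j2
  linarith

end

theorem goodCoef_ref (r : Fin 4 → ℝ) (hr : IsRef r) : GoodCoef (coefRef r) := by
  have hE := encl_of_ref r hr
  obtain ⟨a, b, c, d, a', b', c', d', V⟩ := exists_vals r hr
  obtain ⟨⟨x1, x2⟩, ⟨x3, x4⟩, ⟨y1, y2⟩, ⟨y3, y4⟩⟩ := coef_numbers V
  obtain ⟨n1, n2⟩ := nx_m3 V
  obtain ⟨n3, n4⟩ := nx_3 V
  have ckx : ContinuousOn (coefRef r).kx (Icc (-3) 3) :=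
    (cont_kco hE (Or.inr rfl)).add ((cont_kco hE (Or.inl rfl)).comp continuous_neg.continuousOn mapsTo_neg)
  have hgp : ∀ e ∈ Icc (-3 : ℝ) 3, 0 < (coefRef r).gh e := fun e he =>
    div_pos (Real.sqrt_pos.2 (mul_pos (Q4_pos hE he) (Q4_pos hE (neg_mem he)))) (PiT_pos he)
  have hgd : ∀ e ∈ Icc (-3 : ℝ) 3, HasDerivAt (coefRef r).gh ((coefRef r).lam e * (coefRef r).gh e) e :=
    fun e he => gh_hasDeriv hE he
  have hgc : ContinuousOn (coefRef r).gh (Icc (-3) 3) := fun e he => (hgd e he).continuousAt.continuousWithinAt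
  refine ⟨?_, ?_, ckx, ?_, ?_, hgp, ?_, hgd, ?_, ?_, ?_, ?_, ?_, ?_, ?_, ?_, ?_, ?_, ?_⟩
  · exact (cont_aco hE (Or.inr rfl) (-6)).add ((cont_aco hE (Or.inl rfl) 6).comp continuous_neg.continuousOn mapsTo_neg)
  · exact (cont_aco hE (Or.inr rfl) 6).add ((cont_aco hE (Or.inl rfl) (-6)).comp continuous_neg.continuousOn mapsTo_neg)
  · exact (cont_nco hE (Or.inr rfl)).sub ((cont_nco hE (Or.inl rfl)).comp continuous_neg.continuousOn mapsTo_neg)
  · exact ((cont_lco hE).sub ((cont_lco hE).comp continuous_neg.continuousOn mapsTo_neg)).div_const 2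
  · intro e _
    have e1 : (coefRef r).gh (-e) = Real.sqrt (Q4 (pe r) (-e) * Q4 (pe r) (-(-e))) / PiT (-e) := rfl
    have e2 : (coefRef r).gh e = Real.sqrt (Q4 (pe r) e * Q4 (pe r) (-e)) / PiT e := rfl
    rw [e1, e2, neg_neg, mul_comm]
    unfold PiT; rw [neg_sq]
  · linarith
  · linarith
  · linarith
  · linarith
  · linarith
  · linarith
  · linarith
  · linarith
  · linarith
  · linarith
  · exact K_bound hE V (ckx.div hgc (fun e he => (hgp e he).ne'))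

end Pool.Agent.Hhelper30.Forsythe
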