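import Pool.Agent.Hhelper30.Forsythe.F6
import Pool.Agent.Hhelper30.Forsythe.RefD

/-! Module F7: composition of the even step and of the odd step, extraction of the reduced system. -/

set_option autoImplicit false

namespace Pool.Agent.Hhelper30.Forsythe

open Filter Topology Set Asymptotics

/-! ### observables of the reflected orbit -/

section refl
variable (O : BackOrbit) (k : ℕ)



theorem BackOrbit.refl_e : O.refl.e k = -O.e' k := by
  have q1 : Fin.rev (1 : Fin 3) = 1 := by decide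
  unfold BackOrbit.e BackOrbit.e'
  rw [BackOrbit.refl_h, q1]



theorem BackOrbit.refl_e' : O.refl.e' k = -O.e (k + 1) := by
  have q1 : Fin.rev (1 : Fin 3) = 1 := by decide
  unfold BackOrbit.e' BackOrbit.e
  rw [BackOrbit.refl_h, q1, show 2 * k + 1 + 1 = 2 * (k + 1) by ring]

theorem BackOrbit.m_eq : O.m k = (O.e' k - O.e k) / (9 - O.e k ^ 2) := rfl

theorem BackOrbit.refl_m : O.refl.m k = -O.m' k := by
  rw [BackOrbit.m_eq, BackOrbit.refl_e, BackOrbit.refl_e', BackOrbit.m', neg_sq, ← neg_div]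
  congr 1
  ring

theorem BackOrbit.refl_m' : O.refl.m' k = -O.m (k + 1) := by
  rw [BackOrbit.m_eq, BackOrbit.m', BackOrbit.refl_e, BackOrbit.refl_e', neg_sq, ← neg_div]
  congr 1
  ring



theorem BackOrbit.refl_u' : O.refl.u' k = O.v (k + 1) := by
  rw [BackOrbit.v_eq, BackOrbit.u', BackOrbit.refl_xi, BackOrbit.refl_xi']

theorem BackOrbit.refl_v' : O.refl.v' k = O.u (k + 1) := by
  rw [BackOrbit.u_eq, BackOrbit.v', BackOrbit.refl_up, BackOrbit.refl_up']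

theorem BackOrbit.refl_s :
    O.refl.s k = O.xi' k + O.up' k + O.m' k ^ 2 * (9 - O.e' k ^ 2) := by
  rw [BackOrbit.s, BackOrbit.refl_xi, BackOrbit.refl_up, BackOrbit.refl_m, BackOrbit.refl_e,
    neg_sq, neg_sq]
  ring

end refl

/-! ### the observables of `RS` -/

section obs
variable (O : BackOrbit) (k : ℕ)

theorem BackOrbit.exp_X : Real.exp (-O.X k) = O.xi k := by
  rw [BackOrbit.X, neg_neg, Real.exp_log]
  · rfl
  · exact O.xi_pos k

theorem BackOrbit.exp_Y : Real.exp (-O.Y k) = O.up k := by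
  rw [BackOrbit.Y, neg_neg, Real.exp_log]
  · rfl
  · exact O.up_pos k

theorem BackOrbit.e_lt : -3 < O.e k ∧ O.e k < 3 := (O.even k).h1
theorem BackOrbit.e'_lt : -3 < O.e' k ∧ O.e' k < 3 := (O.odd k).h1

theorem BackOrbit.S_eq : O.S k = Real.log ((O.e k + 3) / (3 - O.e k)) := rfl

theorem BackOrbit.etaS_S : etaS (O.S k) = O.e k := by
  obtain ⟨h1, h2⟩ := O.e_lt k
  have h3 : 0 < 3 - O.e k := by linarith
  have h4 : 0 < O.e k + 3 := by linarith
  rw [BackOrbit.S_eq, etaS, Real.exp_log (by positivity)]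
  have h5 : (O.e k + 3) / (3 - O.e k) + 1 ≠ 0 := by positivity
  field_simp
  ring

theorem BackOrbit.ES_S : ES (O.S k) = 9 - O.e k ^ 2 := by
  rw [ES, BackOrbit.etaS_S]

theorem BackOrbit.src_eq : src O.X O.Y O.S O.m k = O.s k := by
  rw [src, BackOrbit.exp_X, BackOrbit.exp_Y, BackOrbit.ES_S, BackOrbit.s]

theorem BackOrbit.X_succ : O.X (k + 1) - O.X k = O.u k + O.u' k := by
  have h1 := (O.xi_pos k).ne'
  have h2 := (O.xi_pos (k + 1)).ne'
  have h3 := (O.xi'_pos k).ne'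
  have e1 : O.X k = -Real.log (O.xi k) := rfl
  have e2 : O.X (k + 1) = -Real.log (O.xi (k + 1)) := rfl
  rw [e1, e2, BackOrbit.u_eq, BackOrbit.u', Real.log_div h1 h3, Real.log_div h3 h2]
  ring

theorem BackOrbit.Y_succ : O.Y (k + 1) - O.Y k = O.v k + O.v' k := by
  have h1 := (O.up_pos k).ne'
  have h2 := (O.up_pos (k + 1)).ne'
  have h3 := (O.up'_pos k).ne'
  have e1 : O.Y k = -Real.log (O.up k) := rfl
  have e2 : O.Y (k + 1) = -Real.log (O.up (k + 1)) := rfl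
  rw [e1, e2, BackOrbit.v_eq, BackOrbit.v', Real.log_div h1 h3, Real.log_div h3 h2]
  ring

end obs

/-- the logarithmic coordinate of the moving zero: one step -/
theorem log_step {e e' m : ℝ} (he : -3 < e ∧ e < 3) (he' : -3 < e' ∧ e' < 3)
    (hm : e' - e = m * (9 - e ^ 2)) (hs : |m| ≤ 1 / 12) :
    |Real.log ((e' + 3) / (3 - e')) - Real.log ((e + 3) / (3 - e)) - 6 * m| ≤ 144 * m ^ 2 := by
  obtain ⟨h1, h2⟩ := he
  obtain ⟨h3, h4⟩ := he'
  have p1 : 0 < e + 3 := by linarith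
  have p2 : 0 < 3 - e := by linarith
  have p3 : 0 < e' + 3 := by linarith
  have p4 : 0 < 3 - e' := by linarith
  have q1 : e' + 3 = (e + 3) * (1 - (-(m * (3 - e)))) := by
    have : e' = e + m * (9 - e ^ 2) := by linarith
    rw [this]
    ring
  have q2 : 3 - e' = (3 - e) * (1 - m * (3 + e)) := by
    have : e' = e + m * (9 - e ^ 2) := by linarith
    rw [this]
    ring
  have r1 : 0 < 1 - (-(m * (3 - e))) := by
    rw [q1] at p3
    exact (mul_pos_iff_of_pos_left p1).1 p3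
  have r2 : 0 < 1 - m * (3 + e) := by
    rw [q2] at p4
    exact (mul_pos_iff_of_pos_left p2).1 p4
  have a1 : |(-(m * (3 - e)))| ≤ 1 / 2 := by
    rw [abs_neg, abs_mul, abs_of_pos p2]
    have := abs_nonneg m
    nlinarith
  have a2 : |m * (3 + e)| ≤ 1 / 2 := by
    rw [abs_mul, abs_of_pos (by linarith : 0 < 3 + e)]
    have := abs_nonneg m
    nlinarith
  have key : ∀ x : ℝ, |x| ≤ 1 / 2 → |x + Real.log (1 - x)| ≤ 2 * x ^ 2 := by
    intro x hx
    have h := Real.abs_log_sub_add_sum_range_le (x := x) (by linarith) 1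
    simp only [Finset.sum_range_one, zero_add, pow_one, Nat.cast_zero, div_one] at h
    refine h.trans ?_
    rw [div_le_iff₀ (by linarith)]
    have : |x| ^ (1 + 1) = x ^ 2 := by rw [one_add_one_eq_two, sq_abs]
    rw [this]
    nlinarith [sq_nonneg x]
  have k1 := key _ a1
  have k2 := key _ a2
  have e1 : Real.log ((e' + 3) / (3 - e')) - Real.log ((e + 3) / (3 - e)) - 6 * m
      = (-(m * (3 - e)) + Real.log (1 - (-(m * (3 - e)))))
        - (m * (3 + e) + Real.log (1 - m * (3 + e))) := by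
    rw [Real.log_div p3.ne' p4.ne', Real.log_div p1.ne' p2.ne', q1, q2,
      Real.log_mul p1.ne' r1.ne', Real.log_mul p2.ne' r2.ne']
    ring
  rw [e1]
  refine (abs_sub _ _).trans ?_
  have b1 : (-(m * (3 - e))) ^ 2 ≤ 36 * m ^ 2 := by
    have : (3 - e) ^ 2 ≤ 36 := by nlinarith
    nlinarith [sq_nonneg m]
  have b2 : (m * (3 + e)) ^ 2 ≤ 36 * m ^ 2 := by
    have : (3 + e) ^ 2 ≤ 36 := by nlinarith
    nlinarith [sq_nonneg m]
  linarith

/-! ### limits along blow-up filters -/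

theorem tendsto_coef {ι : Type} {U : Filter ι} {f : ι → ℝ} {e0 : ℝ} {A : ℝ → ℝ}
    (hA : ContinuousOn A (Icc (-3) 3)) (he0 : e0 ∈ Icc (-3 : ℝ) 3)
    (hf : ∀ i, f i ∈ Icc (-3 : ℝ) 3) (h : Tendsto f U (𝓝 e0)) :
    Tendsto (fun i => A (f i)) U (𝓝 (A e0)) :=
  (hA e0 he0).tendsto.comp (tendsto_nhdsWithin_iff.2 ⟨h, Eventually.of_forall hf⟩)

section blow
variable {ι : Type} {U : Filter ι} {O : ι → BackOrbit} {τ : ι → ℕ} {e0 α β γ : ℝ}

theorem Blow.lim (hB : Blow U O τ e0 α β γ) {A B C : ℝ → ℝ} (hA : ContinuousOn A (Icc (-3) 3))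
    (hB' : ContinuousOn B (Icc (-3) 3)) (hC : ContinuousOn C (Icc (-3) 3)) {f : ι → ℝ}
    (h : (fun i => f i - ((O i).xi (τ i) * A ((O i).e (τ i)) + (O i).up (τ i) * B ((O i).e (τ i))
      - (O i).m (τ i) ^ 2 * (9 - (O i).e (τ i) ^ 2) * C ((O i).e (τ i))))
      =o[U] (fun i => (O i).s (τ i))) :
    Tendsto (fun i => f i / (O i).s (τ i)) U (𝓝 (α * A e0 + β * B e0 - γ * C e0)) := by
  have hm : ∀ i, (O i).e (τ i) ∈ Icc (-3 : ℝ) 3 := fun i => (O i).e_mem _
  have h1 := (((hB.xi.mul (tendsto_coef hA hB.mem hm hB.e)).add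
    (hB.up.mul (tendsto_coef hB' hB.mem hm hB.e))).sub
    (hB.mE.mul (tendsto_coef hC hB.mem hm hB.e))).add h.tendsto_div_nhds_zero
  rw [add_zero] at h1
  refine h1.congr (fun i => ?_)
  have hs := ((O i).s_pos (τ i)).ne'
  field_simp
  ring

theorem Blow.sub (hB : Blow U O τ e0 α β γ) {A B C : ℝ → ℝ} (hA : ContinuousOn A (Icc (-3) 3))
    (hB' : ContinuousOn B (Icc (-3) 3)) (hC : ContinuousOn C (Icc (-3) 3)) {f : ι → ℝ}
    (h : Tendsto (fun i => f i / (O i).s (τ i)) U (𝓝 (α * A e0 + β * B e0 - γ * C e0))) :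
    Tendsto (fun i => (f i - ((O i).xi (τ i) * A ((O i).e (τ i))
      + (O i).up (τ i) * B ((O i).e (τ i))
      - (O i).m (τ i) ^ 2 * (9 - (O i).e (τ i) ^ 2) * C ((O i).e (τ i))))
      / (O i).s (τ i)) U (𝓝 0) := by
  have hm : ∀ i, (O i).e (τ i) ∈ Icc (-3 : ℝ) 3 := fun i => (O i).e_mem _
  have h1 := h.sub (((hB.xi.mul (tendsto_coef hA hB.mem hm hB.e)).add
    (hB.up.mul (tendsto_coef hB' hB.mem hm hB.e))).sub
    (hB.mE.mul (tendsto_coef hC hB.mem hm hB.e)))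
  rw [sub_self] at h1
  refine h1.congr (fun i => ?_)
  have hs := ((O i).s_pos (τ i)).ne'
  field_simp

theorem OneStep.mono {r : Fin 4 → ℝ} {l : Filter ι} (h : OneStep r l O τ) (hU : U ≤ l) :
    OneStep r U O τ :=
  ⟨h.m.mono hU, h.u.mono hU, h.v.mono hU⟩

theorem s_zero {r : Fin 4 → ℝ} (hL : Lim r U O τ e0) :
    Tendsto (fun i => (O i).s (τ i)) U (𝓝 0) := by
  have h := (hL.xi.add hL.up).add ((hL.m.pow 2).mul
    ((tendsto_const_nhds (x := (9 : ℝ))).sub (hL.e.pow 2)))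
  norm_num at h
  exact h.congr (fun i => rfl)

theorem BackOrbit.e'_sub (O : BackOrbit) (k : ℕ) :
    O.e' k - O.e k = O.m k * (9 - O.e k ^ 2) := by
  have h := (O.E_pos k).ne'
  rw [BackOrbit.m_eq]
  field_simp

theorem BackOrbit.e_succ_sub (O : BackOrbit) (k : ℕ) :
    O.e (k + 1) - O.e' k = O.m' k * (9 - O.e' k ^ 2) := by
  have h := (O.E'_pos k).ne'
  rw [BackOrbit.m']
  field_simp

theorem Blow.refl {r : Fin 4 → ℝ} (hr : IsRef r) (hL : Lim r U O τ e0)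
    (hB : Blow U O τ e0 α β γ) (hO : OneStep r U O τ) :
    Tendsto (fun i => (O i).refl.s (τ i) / (O i).s (τ i)) U (𝓝 1) ∧
      Blow U (fun i => (O i).refl) τ (-e0) β α γ := by
  have hE := encl_of_ref r hr
  have T1 := hB.lim (cont_nco hE (Or.inr rfl)) (cont_nco hE (Or.inl rfl)) (cont_lco hE) hO.m
  set μ : ℝ := α * nco r (-6) e0 + β * nco r 6 e0 - γ * lco r e0 with hμ
  have T2 := s_zero hL
  have T3 : Tendsto (fun i => (O i).m' (τ i)) U (𝓝 0) := by
    have h := hL.m.add (T1.mul T2)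
    rw [mul_zero, add_zero] at h
    refine h.congr (fun i => ?_)
    have hs := ((O i).s_pos (τ i)).ne'
    field_simp
    ring
  have T5 : Tendsto (fun i => (O i).m' (τ i) ^ 2 * (9 - (O i).e' (τ i) ^ 2) / (O i).s (τ i)) U
      (𝓝 γ) := by
    have h := (((T1.mul (T3.add hL.m)).mul ((tendsto_const_nhds (x := (9 : ℝ))).sub
      (hL.e'.pow 2))).add hB.mE).sub (hB.mE.mul (hL.m.mul (hL.e.add hL.e')))
    have e1 : μ * (0 + 0) * (9 - e0 ^ 2) + γ - γ * (0 * (e0 + e0)) = γ := by ring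
    rw [e1] at h
    refine h.congr (fun i => ?_)
    have hs := ((O i).s_pos (τ i)).ne'
    have h1 := (O i).e'_sub (τ i)
    have h2 : (O i).h (2 * τ i + 1) 1 = (O i).e' (τ i) := rfl
    have h3 : (O i).h (2 * τ i) 1 = (O i).e (τ i) := rfl
    rw [h2, h3]
    have h4 : (O i).e' (τ i) ^ 2 = (O i).e (τ i) ^ 2 + (O i).m (τ i) * (9 - (O i).e (τ i) ^ 2)
        * ((O i).e (τ i) + (O i).e' (τ i)) := by
      rw [← h1]
      ring
    field_simp
    linear_combination ((O i).m (τ i) ^ 2) * h4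
  have T6 : Tendsto (fun i => (O i).xi' (τ i) / (O i).s (τ i)) U (𝓝 α) := by
    have h := hL.rx.mul hB.xi
    rw [one_mul] at h
    refine h.congr (fun i => ?_)
    have hs := ((O i).s_pos (τ i)).ne'
    have hx := ((O i).xi_pos (τ i)).ne'
    field_simp
  have T7 : Tendsto (fun i => (O i).up' (τ i) / (O i).s (τ i)) U (𝓝 β) := by
    have h := hL.ry.mul hB.up
    rw [one_mul] at h
    refine h.congr (fun i => ?_)
    have hs := ((O i).s_pos (τ i)).ne'
    have hx := ((O i).up_pos (τ i)).ne'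
    field_simp
  have T8 : Tendsto (fun i => (O i).refl.s (τ i) / (O i).s (τ i)) U (𝓝 1) := by
    have h := (((T6.sub hB.xi).add (T7.sub hB.up)).add (T5.sub hB.mE)).const_add 1
    have e1 : 1 + (α - α + (β - β) + (γ - γ)) = 1 := by ring
    rw [e1] at h
    refine h.congr (fun i => ?_)
    have hs := ((O i).s_pos (τ i)).ne'
    have e2 : (O i).s (τ i) = (O i).xi (τ i) + (O i).up (τ i)
      + (O i).m (τ i) ^ 2 * (9 - (O i).e (τ i) ^ 2) := rfl
    rw [BackOrbit.refl_s]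
    field_simp
    rw [e2]
    ring
  refine ⟨T8, neg_mem hB.mem, ?_, ?_, ?_, ?_⟩
  · have h := hL.e'.neg
    refine h.congr (fun i => ?_)
    rw [BackOrbit.refl_e]
    rfl
  · have h := T7.div T8 one_ne_zero
    rw [div_one] at h
    refine h.congr (fun i => ?_)
    have hs := ((O i).s_pos (τ i)).ne'
    have hs' := ((O i).refl.s_pos (τ i)).ne'
    simp only [Pi.div_apply]
    rw [BackOrbit.refl_xi]
    field_simp
  · have h := T6.div T8 one_ne_zero
    rw [div_one] at h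
    refine h.congr (fun i => ?_)
    have hs := ((O i).s_pos (τ i)).ne'
    have hs' := ((O i).refl.s_pos (τ i)).ne'
    simp only [Pi.div_apply]
    rw [BackOrbit.refl_up]
    field_simp
  · have h := T5.div T8 one_ne_zero
    rw [div_one] at h
    refine h.congr (fun i => ?_)
    have hs := ((O i).s_pos (τ i)).ne'
    have hs' := ((O i).refl.s_pos (τ i)).ne'
    simp only [Pi.div_apply]
    rw [BackOrbit.refl_m, BackOrbit.refl_e, neg_sq, neg_sq]
    field_simp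

/-- the three velocity increments over a double step -/
theorem Blow.double {r : Fin 4 → ℝ} (hr : IsRef r) (hL : Lim r U O τ e0)
    (hB : Blow U O τ e0 α β γ) (hO : OneStep r U O τ)
    (hO' : OneStep r U (fun i => (O i).refl) τ) :
    Tendsto (fun i => ((O i).u (τ i + 1) - (O i).u (τ i)) / (O i).s (τ i)) U
      (𝓝 (α * (coefRef r).Axx e0 + β * (coefRef r).Axy e0 - γ * (coefRef r).kx e0)) ∧
    Tendsto (fun i => ((O i).v (τ i + 1) - (O i).v (τ i)) / (O i).s (τ i)) U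
      (𝓝 (α * (coefRef r).Axy (-e0) + β * (coefRef r).Axx (-e0) - γ * (coefRef r).kx (-e0))) ∧
    Tendsto (fun i => ((O i).m (τ i + 1) - (O i).m (τ i)) / (O i).s (τ i)) U
      (𝓝 (α * (coefRef r).nx e0 + β * (-(coefRef r).nx (-e0)) - γ * (2 * (coefRef r).lam e0))) := by
  have hE := encl_of_ref r hr
  obtain ⟨T, hB'⟩ := hB.refl hr hL hO
  have m1 := hB.lim (cont_nco hE (Or.inr rfl)) (cont_nco hE (Or.inl rfl)) (cont_lco hE) hO.m
  have m2 := hB'.lim (cont_nco hE (Or.inr rfl)) (cont_nco hE (Or.inl rfl)) (cont_lco hE) hO'.m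
  have u1 := hB.lim (cont_aco hE (Or.inr rfl) (-6)) (cont_aco hE (Or.inr rfl) 6)
    (cont_kco hE (Or.inr rfl)) hO.u
  have u2 := hB'.lim (cont_aco hE (Or.inr rfl) (-6)) (cont_aco hE (Or.inr rfl) 6)
    (cont_kco hE (Or.inr rfl)) hO'.u
  have v1 := hB.lim (cont_aco hE (Or.inl rfl) (-6)) (cont_aco hE (Or.inl rfl) 6)
    (cont_kco hE (Or.inl rfl)) hO.v
  have v2 := hB'.lim (cont_aco hE (Or.inl rfl) (-6)) (cont_aco hE (Or.inl rfl) 6)
    (cont_kco hE (Or.inl rfl)) hO'.v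
  refine ⟨?_, ?_, ?_⟩
  · have h := u1.add (v2.mul T)
    have e1 : α * (coefRef r).Axx e0 + β * (coefRef r).Axy e0 - γ * (coefRef r).kx e0
        = α * aco r (-6) (-6) e0 + β * aco r (-6) 6 e0 - γ * kco r (-6) e0
          + (β * aco r 6 (-6) (-e0) + α * aco r 6 6 (-e0) - γ * kco r 6 (-e0)) * 1 := by
      simp only [coefRef]
      ring
    rw [e1]
    refine h.congr (fun i => ?_)
    have hs := ((O i).s_pos (τ i)).ne'
    have hs' := ((O i).refl.s_pos (τ i)).ne'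
    rw [BackOrbit.refl_v, BackOrbit.refl_v']
    field_simp
    ring
  · have h := v1.add (u2.mul T)
    have e1 : α * (coefRef r).Axy (-e0) + β * (coefRef r).Axx (-e0) - γ * (coefRef r).kx (-e0)
        = α * aco r 6 (-6) e0 + β * aco r 6 6 e0 - γ * kco r 6 e0
          + (β * aco r (-6) (-6) (-e0) + α * aco r (-6) 6 (-e0) - γ * kco r (-6) (-e0)) * 1 := by
      simp only [coefRef, neg_neg]
      ring
    rw [e1]
    refine h.congr (fun i => ?_)
    have hs := ((O i).s_pos (τ i)).ne'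
    have hs' := ((O i).refl.s_pos (τ i)).ne'
    rw [BackOrbit.refl_u, BackOrbit.refl_u']
    field_simp
    ring
  · have h := m1.sub (m2.mul T)
    have e1 : α * (coefRef r).nx e0 + β * (-(coefRef r).nx (-e0)) - γ * (2 * (coefRef r).lam e0)
        = α * nco r (-6) e0 + β * nco r 6 e0 - γ * lco r e0
          - (β * nco r (-6) (-e0) + α * nco r 6 (-e0) - γ * lco r (-e0)) * 1 := by
      simp only [coefRef, neg_neg]
      ring
    rw [e1]
    refine h.congr (fun i => ?_)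
    have hs := ((O i).s_pos (τ i)).ne'
    have hs' := ((O i).refl.s_pos (τ i)).ne'
    rw [BackOrbit.refl_m, BackOrbit.refl_m']
    field_simp
    ring

/-- the clock over a double step -/
theorem Blow.clock2 {r : Fin 4 → ℝ} (hr : IsRef r) (hL : Lim r U O τ e0)
    (hB : Blow U O τ e0 α β γ) (hO : OneStep r U O τ)
    (hL' : Lim r U (fun i => (O i).refl) τ (-e0)) :
    Tendsto (fun i => ((O i).G (τ i + 1) - (O i).G (τ i)) / (O i).s (τ i)) U
      (𝓝 ((α * th r (-6) e0 + β * th r 6 e0 + γ * (Q4 (pe r) e0 / PiT e0))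
        + (β * th r (-6) (-e0) + α * th r 6 (-e0) + γ * (Q4 (pe r) (-e0) / PiT (-e0))))) := by
  obtain ⟨T, hB'⟩ := hB.refl hr hL hO
  have h := (hL.clock hB).add ((hL'.clock hB').mul T)
  rw [mul_one] at h
  refine h.congr (fun i => ?_)
  have hs := ((O i).s_pos (τ i)).ne'
  have hs' := ((O i).refl.s_pos (τ i)).ne'
  rw [BackOrbit.refl_sg, BackOrbit.refl_sg, BackOrbit.G, BackOrbit.G,
    show 2 * τ i + 1 + 1 = 2 * (τ i + 1) by ring]
  field_simp
  ring

theorem Blow.weights [U.NeBot] (hB : Blow U O τ e0 α β γ) :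
    0 ≤ α ∧ 0 ≤ β ∧ 0 ≤ γ ∧ α + β + γ = 1 := by
  refine ⟨ge_of_tendsto' hB.xi fun i => ?_, ge_of_tendsto' hB.up fun i => ?_,
    ge_of_tendsto' hB.mE fun i => ?_, ?_⟩
  · exact div_nonneg ((O i).xi_pos _).le ((O i).s_pos _).le
  · exact div_nonneg ((O i).up_pos _).le ((O i).s_pos _).le
  · exact div_nonneg ((O i).mE_nonneg _) ((O i).s_pos _).le
  · refine tendsto_nhds_unique ((hB.xi.add hB.up).add hB.mE) ?_
    refine tendsto_const_nhds.congr (fun i => ?_)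
    have hs := ((O i).s_pos (τ i)).ne'
    have e2 : (O i).s (τ i) = (O i).xi (τ i) + (O i).up (τ i)
      + (O i).m (τ i) ^ 2 * (9 - (O i).e (τ i) ^ 2) := rfl
    rw [← add_div, ← add_div, ← e2, div_self hs]

end blow

theorem eventually_of_blow {ι : Type} {l : Filter ι} {O : ι → BackOrbit} {τ : ι → ℕ}
    {P : ι → Prop}
    (H : ∀ U : Filter ι, U.NeBot → U ≤ l → ∀ e0 α β γ : ℝ, Blow U O τ e0 α β γ →
      ∀ᶠ i in U, P i) : ∀ᶠ i in l, P i := by
  refine Filter.mem_iff_ultrafilter.2 fun U hU => ?_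
  obtain ⟨e0, α, β, γ, h⟩ := exists_blow O τ U
  exact H U U.neBot hU e0 α β γ h

/-! ### bounds for the coefficients -/

theorem combo_bound {A B C : ℝ → ℝ} (hA : ContinuousOn A (Icc (-3) 3))
    (hB : ContinuousOn B (Icc (-3) 3)) (hC : ContinuousOn C (Icc (-3) 3)) :
    ∃ M > 0, ∀ e ∈ Icc (-3 : ℝ) 3, ∀ α β γ : ℝ, 0 ≤ α → 0 ≤ β → 0 ≤ γ → α + β + γ = 1 →
      |α * A e + β * B e - γ * C e| ≤ M := by
  obtain ⟨a, ha⟩ := isCompact_Icc.exists_bound_of_continuousOn hA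
  obtain ⟨b, hb⟩ := isCompact_Icc.exists_bound_of_continuousOn hB
  obtain ⟨c, hc⟩ := isCompact_Icc.exists_bound_of_continuousOn hC
  refine ⟨|a| + |b| + |c| + 1, by positivity, fun e he α β γ h1 h2 h3 h4 => ?_⟩
  have a1 := (ha e he).trans (le_abs_self a)
  have b1 := (hb e he).trans (le_abs_self b)
  have c1 := (hc e he).trans (le_abs_self c)
  rw [Real.norm_eq_abs] at a1 b1 c1
  have t1 : |α * A e| ≤ |a| := by
    rw [abs_mul, abs_of_nonneg h1]
    have := abs_nonneg (A e)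
    nlinarith
  have t2 : |β * B e| ≤ |b| := by
    rw [abs_mul, abs_of_nonneg h2]
    have := abs_nonneg (B e)
    nlinarith
  have t3 : |γ * C e| ≤ |c| := by
    rw [abs_mul, abs_of_nonneg h3]
    have := abs_nonneg (C e)
    nlinarith
  calc |α * A e + β * B e - γ * C e| ≤ |α * A e + β * B e| + |γ * C e| := abs_sub _ _
    _ ≤ |α * A e| + |β * B e| + |γ * C e| := by
        have := abs_add_le (α * A e) (β * B e)
        linarith
    _ ≤ |a| + |b| + |c| + 1 := by linarith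

theorem exists_lower {A : ℝ → ℝ} (hA : ContinuousOn A (Icc (-3) 3))
    (h : ∀ e ∈ Icc (-3 : ℝ) 3, 0 < A e) : ∃ c > 0, ∀ e ∈ Icc (-3 : ℝ) 3, c ≤ A e := by
  obtain ⟨x, hx, hm⟩ := isCompact_Icc.exists_isMinOn (⟨0, by norm_num, by norm_num⟩ :
    (Icc (-3 : ℝ) 3).Nonempty) hA
  exact ⟨A x, h x hx, fun _ he => hm he⟩

theorem cont_th (r : Fin 4 → ℝ) (s : ℝ) : ContinuousOn (fun e => th r s e) (Icc (-3) 3) := by
  unfold th
  fun_prop

theorem cont_QT (r : Fin 4 → ℝ) : ContinuousOn (fun e => Q4 (pe r) e / PiT e) (Icc (-3) 3) :=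
  ContinuousOn.div (continuous_Q4 _).continuousOn continuous_PiT.continuousOn
    (fun e he => (PiT_pos he).ne')

theorem th_m6_pos {r : Fin 4 → ℝ} (hr : Encl r) {e : ℝ} (he : e ∈ Icc (-3 : ℝ) 3) :
    0 < th r (-6) e := by
  obtain ⟨h1, h2⟩ := he
  have hQ : 0 < Q4 (pe r) (-6) := by
    rw [Q4_pe]
    obtain ⟨⟨l0, u0⟩, ⟨l1, u1⟩, ⟨l2, u2⟩, ⟨l3, u3⟩⟩ := hr
    have t1 : 0 < (-6 + r 2) * (-6 + r 1) := mul_pos_of_neg_of_neg (by linarith) (by linarith)
    have t2 : 0 < (-6 - r 0) * (-6 - r 3) := mul_pos_of_neg_of_neg (by linarith) (by linarith)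
    have : (-6 + r 2) * (-6 + r 1) * (-6 - r 0) * (-6 - r 3)
      = ((-6 + r 2) * (-6 + r 1)) * ((-6 - r 0) * (-6 - r 3)) := by ring
    rw [this]
    exact mul_pos t1 t2
  rw [th, PiP_m6]
  exact div_pos_of_neg_of_neg (mul_neg_of_neg_of_pos (by linarith) hQ) (by norm_num)

theorem th_6_pos {r : Fin 4 → ℝ} (hr : IsRef r) {e : ℝ} (he : e ∈ Icc (-3 : ℝ) 3) :
    0 < th r 6 e := by
  obtain ⟨h1, h2⟩ := he
  have hQ : Q4 (pe r) 6 < 0 := by
    rw [Q4_pe]
    obtain ⟨⟨l0, u0⟩, ⟨l1, u1⟩, ⟨l2, u2⟩, ⟨l3, u3⟩, -⟩ := hr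
    have t1 : 0 < (6 + r 2) * (6 + r 1) * (6 - r 0) :=
      mul_pos (mul_pos (by linarith) (by linarith)) (by linarith)
    exact mul_neg_of_pos_of_neg t1 (by linarith)
  rw [th, PiP_6]
  exact div_pos_of_neg_of_neg (mul_neg_of_pos_of_neg (by linarith) hQ) (by norm_num)

/-- bounds for the limit of the clock increment -/
theorem clock_bounds {r : Fin 4 → ℝ} (hr : IsRef r) : ∃ M > 0, ∃ c > 0,
    ∀ e ∈ Icc (-3 : ℝ) 3, ∀ α β γ : ℝ, 0 ≤ α → 0 ≤ β → 0 ≤ γ → α + β + γ = 1 →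
      c ≤ α * th r (-6) e + β * th r 6 e + γ * (Q4 (pe r) e / PiT e) ∧
      α * th r (-6) e + β * th r 6 e + γ * (Q4 (pe r) e / PiT e) ≤ M := by
  have hE := encl_of_ref r hr
  obtain ⟨M, hM, h1⟩ := combo_bound (cont_th r (-6)) (cont_th r 6) (cont_QT r).neg
  obtain ⟨a, ha, h2⟩ := exists_lower (cont_th r (-6)) (fun e he => th_m6_pos hE he)
  obtain ⟨b, hb, h3⟩ := exists_lower (cont_th r 6) (fun e he => th_6_pos hr he)
  obtain ⟨c, hc, h4⟩ := exists_lower (cont_QT r)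
    (fun e he => div_pos (Q4_pos hE he) (PiT_pos he))
  refine ⟨M, hM, min a (min b c), lt_min ha (lt_min hb hc), fun e he α β γ p1 p2 p3 p4 => ?_⟩
  constructor
  · have q1 : min a (min b c) ≤ th r (-6) e := (min_le_left _ _).trans (h2 e he)
    have q2 : min a (min b c) ≤ th r 6 e :=
      ((min_le_right _ _).trans (min_le_left _ _)).trans (h3 e he)
    have q3 : min a (min b c) ≤ Q4 (pe r) e / PiT e :=
      ((min_le_right _ _).trans (min_le_right _ _)).trans (h4 e he)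
    generalize min a (min b c) = w at q1 q2 q3 ⊢
    have e1 : w = α * w + β * w + γ * w := by
      rw [← add_mul, ← add_mul, p4, one_mul]
    rw [e1]
    have := mul_le_mul_of_nonneg_left q1 p1
    have := mul_le_mul_of_nonneg_left q2 p2
    have := mul_le_mul_of_nonneg_left q3 p3
    linarith
  · have := h1 e he α β γ p1 p2 p3 p4
    have := (le_abs_self _).trans this
    simp only [Pi.neg_apply] at this
    linarith

/-! ### extraction -/

theorem eventually_bound {ι : Type} {l : Filter ι} {O : ι → BackOrbit} {τ : ι → ℕ} {f : ι → ℝ}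
    {M : ℝ}
    (H : ∀ U : Filter ι, U.NeBot → U ≤ l → ∀ e0 α β γ : ℝ, Blow U O τ e0 α β γ →
      ∃ c, |c| ≤ M ∧ Tendsto (fun i => f i / (O i).s (τ i)) U (𝓝 c)) :
    ∀ᶠ i in l, |f i| ≤ (M + 1) * (O i).s (τ i) := by
  refine eventually_of_blow (O := O) (τ := τ) (fun U hU1 hU e0 α β γ hB => ?_)
  obtain ⟨c, hc, h⟩ := H U hU1 hU e0 α β γ hB
  have h1 : ∀ᶠ i in U, |f i / (O i).s (τ i)| < M + 1 := h.abs.eventually_lt_const (by linarith)
  filter_upwards [h1] with i hi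
  rw [abs_div, abs_of_pos ((O i).s_pos _), div_lt_iff₀ ((O i).s_pos _)] at hi
  exact hi.le

theorem eventually_small {ι : Type} {l : Filter ι} {O : ι → BackOrbit} {τ : ι → ℕ} {f : ι → ℝ}
    (H : ∀ U : Filter ι, U.NeBot → U ≤ l → ∀ e0 α β γ : ℝ, Blow U O τ e0 α β γ →
      Tendsto (fun i => f i / (O i).s (τ i)) U (𝓝 0)) {ε : ℝ} (hε : 0 < ε) :
    ∀ᶠ i in l, |f i| ≤ ε * (O i).s (τ i) := by
  refine eventually_of_blow (O := O) (τ := τ) (fun U hU1 hU e0 α β γ hB => ?_)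
  have h := H U hU1 hU e0 α β γ hB
  have h1 : ∀ᶠ i in U, |f i / (O i).s (τ i)| < ε :=
    h.abs.eventually_lt_const (by rw [abs_zero]; exact hε)
  filter_upwards [h1] with i hi
  rw [abs_div, abs_of_pos ((O i).s_pos _), div_lt_iff₀ ((O i).s_pos _)] at hi
  exact hi.le

theorem clock2_bounds {r : Fin 4 → ℝ} (hr : IsRef r) : ∃ M > 0, ∃ c > 0,
    ∀ᶠ x : BackOrbit × ℕ in nearFilter r,
      c * x.1.s x.2 ≤ x.1.G (x.2 + 1) - x.1.G x.2 ∧
      x.1.G (x.2 + 1) - x.1.G x.2 ≤ M * x.1.s x.2 := by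
  have hG := good_nearFilter r hr
  have hG' := hG.next hr (hG.clock_zero hr)
  have hO := hG.oneStep hr
  obtain ⟨M, hM, c, hc, hb⟩ := clock_bounds hr
  refine ⟨2 * M + 1, by linarith, c, hc, ?_⟩
  refine eventually_of_blow (O := Prod.fst) (τ := Prod.snd) (fun U hn hU e0 α β γ hB => ?_)
  have hL := hG.lim hr hU hB.mem hB.e
  obtain ⟨-, hB'⟩ := hB.refl hr hL (hO.mono hU)
  have hL' := hG'.lim hr hU hB'.mem hB'.e
  obtain ⟨w1, w2, w3, w4⟩ := hB.weights
  have h := hB.clock2 hr hL (hO.mono hU) hL'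
  obtain ⟨l1, u1⟩ := hb e0 hB.mem α β γ w1 w2 w3 w4
  obtain ⟨l2, u2⟩ := hb (-e0) hB'.mem β α γ w2 w1 w3 (by linarith)
  have h1 := h.eventually_const_lt (show c < _ by linarith)
  have h2 := h.eventually_lt_const (show _ < 2 * M + 1 by linarith)
  filter_upwards [h1, h2] with x h3 h4
  rw [lt_div_iff₀ (x.1.s_pos _)] at h3
  rw [div_lt_iff₀ (x.1.s_pos _)] at h4
  exact ⟨h3.le, h4.le⟩

theorem S_bound {r : Fin 4 → ℝ} {M : ℝ}
    (hm : ∀ᶠ x : BackOrbit × ℕ in nearFilter r, |x.1.m' x.2 - x.1.m x.2| ≤ M * x.1.s x.2)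
    (h0 : Tendsto (fun x : BackOrbit × ℕ => x.1.m x.2) (nearFilter r) (𝓝 0))
    (h0' : Tendsto (fun x : BackOrbit × ℕ => x.1.m' x.2) (nearFilter r) (𝓝 0))
    {ε : ℝ} (hε : 0 < ε) :
    ∀ᶠ x : BackOrbit × ℕ in nearFilter r,
      |x.1.S (x.2 + 1) - x.1.S x.2 - 12 * x.1.m x.2| ≤ ε * |x.1.m x.2| + 7 * M * x.1.s x.2 := by
  set κ : ℝ := min (ε / 2) 1 with hκ
  have hκ0 : 0 < κ := lt_min (by linarith) one_pos
  have hκ1 : κ ≤ ε / 2 := min_le_left _ _
  have hκ2 : κ ≤ 1 := min_le_right _ _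
  have g1 : ∀ᶠ x : BackOrbit × ℕ in nearFilter r, |x.1.m x.2| < κ / 144 :=
    h0.abs.eventually_lt_const (by rw [abs_zero]; positivity)
  have g2 : ∀ᶠ x : BackOrbit × ℕ in nearFilter r, |x.1.m' x.2| < κ / 144 :=
    h0'.abs.eventually_lt_const (by rw [abs_zero]; positivity)
  filter_upwards [hm, g1, g2] with x b1 b2 b3
  have s1 := log_step (x.1.e_lt x.2) (x.1.e'_lt x.2) (x.1.e'_sub x.2) (by linarith)
  have s2 := log_step (x.1.e'_lt x.2) (x.1.e_lt (x.2 + 1)) (x.1.e_succ_sub x.2) (by linarith)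
  have t1 : 144 * x.1.m x.2 ^ 2 ≤ κ * |x.1.m x.2| := by
    rw [← sq_abs]
    have := abs_nonneg (x.1.m x.2)
    nlinarith
  have t2 : 144 * x.1.m' x.2 ^ 2 ≤ κ * |x.1.m' x.2| := by
    rw [← sq_abs]
    have := abs_nonneg (x.1.m' x.2)
    nlinarith
  have t3 : |x.1.m' x.2| ≤ |x.1.m x.2| + |x.1.m' x.2 - x.1.m x.2| := by
    have := abs_add_le (x.1.m x.2) (x.1.m' x.2 - x.1.m x.2)
    rwa [add_sub_cancel] at this
  have t4 : κ * |x.1.m' x.2| ≤ κ * |x.1.m x.2| + |x.1.m' x.2 - x.1.m x.2| := by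
    have h1 := mul_le_mul_of_nonneg_left t3 hκ0.le
    have h2 := mul_le_mul_of_nonneg_right hκ2 (abs_nonneg (x.1.m' x.2 - x.1.m x.2))
    linarith
  have t5 : κ * |x.1.m x.2| ≤ ε / 2 * |x.1.m x.2| :=
    mul_le_mul_of_nonneg_right hκ1 (abs_nonneg _)
  have e1 : x.1.S (x.2 + 1) - x.1.S x.2 - 12 * x.1.m x.2
      = (Real.log ((x.1.e' x.2 + 3) / (3 - x.1.e' x.2)) - Real.log ((x.1.e x.2 + 3)
        / (3 - x.1.e x.2)) - 6 * x.1.m x.2)
      + (Real.log ((x.1.e (x.2 + 1) + 3) / (3 - x.1.e (x.2 + 1)))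
        - Real.log ((x.1.e' x.2 + 3) / (3 - x.1.e' x.2)) - 6 * x.1.m' x.2)
      + 6 * (x.1.m' x.2 - x.1.m x.2) := by
    rw [BackOrbit.S_eq, BackOrbit.S_eq]
    ring
  rw [e1]
  refine (abs_add_three _ _ _).trans ?_
  rw [abs_mul, abs_of_pos (by norm_num : (0 : ℝ) < 6)]
  linarith

theorem reduce (r : Fin 4 → ℝ) (hr : IsRef r) :
    ∃ C > 0, ∃ c0 > 0, ∀ ε > 0, ∃ δ > 0, ∃ δ0 > 0, ∀ O : BackOrbit, Near r δ0 O →
      RS (coefRef r) C c0 ε 1 δ O.X O.Y O.S O.u O.v O.m O.G := by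
  have hE := encl_of_ref r hr
  have hG := good_nearFilter r hr
  have hG' := hG.next hr (hG.clock_zero hr)
  have hO := hG.oneStep hr
  have hO' := hG'.oneStep hr
  have hC := goodCoef_ref r hr
  obtain ⟨Mm, hMm, bm⟩ := combo_bound (cont_nco hE (Or.inr rfl)) (cont_nco hE (Or.inl rfl))
    (cont_lco hE)
  obtain ⟨Mu, hMu, bu⟩ := combo_bound (cont_aco hE (Or.inr rfl) (-6))
    (cont_aco hE (Or.inr rfl) 6) (cont_kco hE (Or.inr rfl))
  obtain ⟨Mv, hMv, bv⟩ := combo_bound (cont_aco hE (Or.inl rfl) (-6))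
    (cont_aco hE (Or.inl rfl) 6) (cont_kco hE (Or.inl rfl))
  obtain ⟨MG, hMG, c, hc, bG⟩ := clock2_bounds hr
  have em : ∀ᶠ x : BackOrbit × ℕ in nearFilter r,
      |x.1.m' x.2 - x.1.m x.2| ≤ (Mm + 1) * x.1.s x.2 :=
    eventually_bound (O := Prod.fst) (τ := Prod.snd) (fun U hn hU e0 α β γ hB => by
      obtain ⟨w1, w2, w3, w4⟩ := hB.weights
      exact ⟨_, bm e0 hB.mem α β γ w1 w2 w3 w4, hB.lim (cont_nco hE (Or.inr rfl))
        (cont_nco hE (Or.inl rfl)) (cont_lco hE) (hO.mono hU).m⟩)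
  have eu : ∀ᶠ x : BackOrbit × ℕ in nearFilter r,
      |x.1.u' x.2 - x.1.u x.2| ≤ (Mu + 1) * x.1.s x.2 :=
    eventually_bound (O := Prod.fst) (τ := Prod.snd) (fun U hn hU e0 α β γ hB => by
      obtain ⟨w1, w2, w3, w4⟩ := hB.weights
      exact ⟨_, bu e0 hB.mem α β γ w1 w2 w3 w4, hB.lim (cont_aco hE (Or.inr rfl) (-6))
        (cont_aco hE (Or.inr rfl) 6) (cont_kco hE (Or.inr rfl)) (hO.mono hU).u⟩)
  have ev : ∀ᶠ x : BackOrbit × ℕ in nearFilter r,
      |x.1.v' x.2 - x.1.v x.2| ≤ (Mv + 1) * x.1.s x.2 :=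
    eventually_bound (O := Prod.fst) (τ := Prod.snd) (fun U hn hU e0 α β γ hB => by
      obtain ⟨w1, w2, w3, w4⟩ := hB.weights
      exact ⟨_, bv e0 hB.mem α β γ w1 w2 w3 w4, hB.lim (cont_aco hE (Or.inl rfl) (-6))
        (cont_aco hE (Or.inl rfl) 6) (cont_kco hE (Or.inl rfl)) (hO.mono hU).v⟩)
  have hm0 : Tendsto (fun x : BackOrbit × ℕ => x.1.m x.2) (nearFilter r) (𝓝 0) :=
    (hG.small hr).m
  have hm0' : Tendsto (fun x : BackOrbit × ℕ => x.1.m' x.2) (nearFilter r) (𝓝 0) := by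
    have h := (hG'.small hr).m.neg
    rw [neg_zero] at h
    refine h.congr (fun x => ?_)
    rw [BackOrbit.refl_m, neg_neg]
  refine ⟨(Mu + 1) + (Mv + 1) + 7 * (Mm + 1) + MG, by positivity, c, hc, fun ε hε => ?_⟩
  have cneg : ∀ {f : ℝ → ℝ}, ContinuousOn f (Icc (-3) 3) →
      ContinuousOn (fun e => f (-e)) (Icc (-3) 3) := fun hf =>
    hf.comp continuous_neg.continuousOn mapsTo_neg
  have dbl := fun (U : Filter (BackOrbit × ℕ)) (hU : U ≤ nearFilter r) (e0 α β γ : ℝ)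
      (hB : Blow U Prod.fst Prod.snd e0 α β γ) =>
    hB.double hr (hG.lim hr hU hB.mem hB.e) (hO.mono hU) (hO'.mono hU)
  have fu := eventually_small (l := nearFilter r) (O := Prod.fst) (τ := Prod.snd)
    (fun U hn hU e0 α β γ hB => hB.sub hC.cAxx hC.cAxy hC.ckx (dbl U hU e0 α β γ hB).1) hε
  have fv := eventually_small (l := nearFilter r) (O := Prod.fst) (τ := Prod.snd)
    (fun U hn hU e0 α β γ hB => hB.sub (cneg hC.cAxy) (cneg hC.cAxx) (cneg hC.ckx)
      (dbl U hU e0 α β γ hB).2.1) hε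
  have fm := eventually_small (l := nearFilter r) (O := Prod.fst) (τ := Prod.snd)
    (fun U hn hU e0 α β γ hB => hB.sub hC.cnx (cneg hC.cnx).neg
      (continuousOn_const.mul hC.clam) (C := fun e => 2 * (coefRef r).lam e)
      (dbl U hU e0 α β γ hB).2.2) hε
  have fS := S_bound em hm0 hm0' hε
  obtain ⟨δ, hδ, H⟩ := eventually_nearFilter.1
    (eu.and (ev.and (fS.and (fu.and (fv.and (fm.and bG))))))
  refine ⟨δ, hδ, δ, hδ, fun O hO => ?_⟩
  have hs := O.s_pos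
  constructor
  · intro k hk
    obtain ⟨h1, -⟩ := H O k hO hk
    rw [BackOrbit.src_eq, BackOrbit.X_succ]
    have := hs k
    have e1 : O.u k + O.u' k - 2 * 1 * O.u k = O.u' k - O.u k := by ring
    rw [e1]
    refine h1.trans ?_
    simp only
    nlinarith
  · intro k hk
    obtain ⟨-, h1, -⟩ := H O k hO hk
    rw [BackOrbit.src_eq, BackOrbit.Y_succ]
    have := hs k
    have e1 : O.v k + O.v' k - 2 * 1 * O.v k = O.v' k - O.v k := by ring
    rw [e1]
    refine h1.trans ?_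
    simp only
    nlinarith
  · intro k hk
    obtain ⟨-, -, h1, -⟩ := H O k hO hk
    rw [BackOrbit.src_eq, mul_one, mul_one]
    have := hs k
    refine h1.trans ?_
    simp only
    nlinarith
  · intro k hk
    obtain ⟨-, -, -, h1, -⟩ := H O k hO hk
    rw [BackOrbit.src_eq, mul_one, BackOrbit.exp_X, BackOrbit.exp_Y, BackOrbit.ES_S,
      BackOrbit.etaS_S, one_mul]
    exact h1
  · intro k hk
    obtain ⟨-, -, -, -, h1, -⟩ := H O k hO hk
    rw [BackOrbit.src_eq, mul_one, BackOrbit.exp_X, BackOrbit.exp_Y, BackOrbit.ES_S,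
      BackOrbit.etaS_S, one_mul]
    exact h1
  · intro k hk
    obtain ⟨-, -, -, -, -, h1, -⟩ := H O k hO hk
    rw [BackOrbit.src_eq, mul_one, BackOrbit.exp_X, BackOrbit.exp_Y, BackOrbit.ES_S,
      BackOrbit.etaS_S, one_mul]
    refine le_trans (le_of_eq ?_) h1
    simp only [Pi.neg_apply]
    congr 1
    ring
  · intro k hk
    obtain ⟨-, -, -, -, -, -, h1, -⟩ := H O k hO hk
    rw [BackOrbit.src_eq, mul_one]
    exact h1
  · intro k hk
    obtain ⟨-, -, -, -, -, -, -, h1⟩ := H O k hO hk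
    rw [BackOrbit.src_eq, mul_one]
    have := hs k
    refine h1.trans ?_
    simp only
    nlinarith

theorem near_at (r : Fin 4 → ℝ) (hr : IsRef r) (ε : ℝ) (hε : 0 < ε) :
    ∃ δ > 0, ∃ δ0 > 0, ∀ O : BackOrbit, Near r δ0 O → ∀ k, O.G k ≤ δ →
      (∀ j, |O.p (2 * k) j - pe r j| ≤ ε) ∧ |O.h (2 * k) 0 + 6| ≤ ε ∧ |O.h (2 * k) 2 - 6| ≤ ε ∧
      |O.sg (2 * k) - 1| ≤ ε := by
  have hG := good_nearFilter r hr
  have hs := hG.small hr
  have h1 : ∀ᶠ x : BackOrbit × ℕ in nearFilter r, ∀ j, |x.1.p (2 * x.2) j - pe r j| < ε := by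
    rw [eventually_all]
    intro j
    have h := ((hG.p0 j).sub_const (pe r j)).abs
    rw [sub_self, abs_zero] at h
    exact h.eventually_lt_const hε
  have h2 : ∀ᶠ x : BackOrbit × ℕ in nearFilter r, |x.1.xi x.2| < ε :=
    hs.xi.abs.eventually_lt_const (by rw [abs_zero]; exact hε)
  have h3 : ∀ᶠ x : BackOrbit × ℕ in nearFilter r, |x.1.up x.2| < ε :=
    hs.up.abs.eventually_lt_const (by rw [abs_zero]; exact hε)
  have h4 : ∀ᶠ x : BackOrbit × ℕ in nearFilter r, |x.1.sg (2 * x.2) - 1| < ε := by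
    have h := (hG.sg.sub_const 1).abs
    rw [sub_self, abs_zero] at h
    exact h.eventually_lt_const hε
  obtain ⟨δ, hδ, H⟩ := eventually_nearFilter.1 (h1.and (h2.and (h3.and h4)))
  refine ⟨δ, hδ, δ, hδ, fun O hO k hk => ?_⟩
  obtain ⟨a1, a2, a3, a4⟩ := H O k hO hk
  simp only at a1 a2 a3 a4
  refine ⟨fun j => (a1 j).le, ?_, ?_, a4.le⟩
  · rw [BackOrbit.xi] at a2
    rw [show O.h (2 * k) 0 + 6 = -(-6 - O.h (2 * k) 0) by ring, abs_neg]
    exact a2.le
  · rw [BackOrbit.up] at a3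
    rw [abs_sub_comm]
    exact a3.le

end Pool.Agent.Hhelper30.Forsythe
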