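import Pool.Agent.Hhelper30.Forsythe.RS

/-!
# Exact identities of backward orbits (module D)

`identT`, `identM`, `identW`, and the drift estimate `drift`.
-/

set_option autoImplicit false
set_option linter.all false

namespace Pool.Agent.Hhelper30.Forsythe

open Polynomial

/-! ### products of linear factors -/

/-- product of the linear factors `X - a`, `a` in the list -/
noncomputable def lin : List ℝ → Polynomial ℝ
  | [] => 1
  | a :: l => (X - C a) * lin l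

theorem lin_monic (l : List ℝ) : (lin l).Monic := by
  induction l with
  | nil => simp [lin]
  | cons a l ih => exact (monic_X_sub_C a).mul ih

theorem lin_natDegree (l : List ℝ) : (lin l).natDegree = l.length := by
  induction l with
  | nil => simp [lin]
  | cons a l ih =>
    rw [lin, (monic_X_sub_C a).natDegree_mul (lin_monic l), natDegree_X_sub_C, ih, List.length_cons]
    ring

theorem lin_eval_nil (z : ℝ) : (lin []).eval z = 1 := by simp [lin]

theorem lin_eval_cons (a : ℝ) (l : List ℝ) (z : ℝ) :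
    (lin (a :: l)).eval z = (z - a) * (lin l).eval z := by simp [lin]

theorem lin_coeff {l : List ℝ} {n : ℕ} (h : l.length = n) : (lin l).coeff n = 1 := by
  have := lin_monic l
  rw [Monic, leadingCoeff, lin_natDegree, h] at this
  exact this

/-! ### signs -/

section signs

theorem Pi8_g0 {z : ℝ} (h1 : -10 < z) (h2 : z < -6) : Pi8 z < 0 := by
  have e : Pi8 z = -((z + 10) * (-6 - z) * (-5 - z) * (-3 - z) * (3 - z) * (5 - z) * (6 - z)
      * (10 - z)) := by unfold Pi8; ring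
  have a1 : 0 < z + 10 := by linarith
  have a2 : 0 < -6 - z := by linarith
  have a3 : 0 < -5 - z := by linarith
  have a4 : 0 < -3 - z := by linarith
  have a5 : 0 < 3 - z := by linarith
  have a6 : 0 < 5 - z := by linarith
  have a7 : 0 < 6 - z := by linarith
  have a8 : 0 < 10 - z := by linarith
  rw [e, neg_lt_zero]; positivity

theorem Pi8_g1 {z : ℝ} (h1 : -6 < z) (h2 : z < -5) : 0 < Pi8 z := by
  have e : Pi8 z = ((z + 10) * (z + 6) * (-5 - z) * (-3 - z) * (3 - z) * (5 - z) * (6 - z)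
      * (10 - z)) := by unfold Pi8; ring
  have a1 : 0 < z + 10 := by linarith
  have a2 : 0 < z + 6 := by linarith
  have a3 : 0 < -5 - z := by linarith
  have a4 : 0 < -3 - z := by linarith
  have a5 : 0 < 3 - z := by linarith
  have a6 : 0 < 5 - z := by linarith
  have a7 : 0 < 6 - z := by linarith
  have a8 : 0 < 10 - z := by linarith
  rw [e]; positivity

theorem Pi8_g3 {z : ℝ} (h1 : -3 < z) (h2 : z < 3) : 0 < Pi8 z := by
  have e : Pi8 z = ((z + 10) * (z + 6) * (z + 5) * (z + 3) * (3 - z) * (5 - z) * (6 - z)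
      * (10 - z)) := by unfold Pi8; ring
  have a1 : 0 < z + 10 := by linarith
  have a2 : 0 < z + 6 := by linarith
  have a3 : 0 < z + 5 := by linarith
  have a4 : 0 < z + 3 := by linarith
  have a5 : 0 < 3 - z := by linarith
  have a6 : 0 < 5 - z := by linarith
  have a7 : 0 < 6 - z := by linarith
  have a8 : 0 < 10 - z := by linarith
  rw [e]; positivity

theorem Pi8_g5 {z : ℝ} (h1 : 5 < z) (h2 : z < 6) : 0 < Pi8 z := by
  have e : Pi8 z = ((z + 10) * (z + 6) * (z + 5) * (z + 3) * (z - 3) * (z - 5) * (6 - z)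
      * (10 - z)) := by unfold Pi8; ring
  have a1 : 0 < z + 10 := by linarith
  have a2 : 0 < z + 6 := by linarith
  have a3 : 0 < z + 5 := by linarith
  have a4 : 0 < z + 3 := by linarith
  have a5 : 0 < z - 3 := by linarith
  have a6 : 0 < z - 5 := by linarith
  have a7 : 0 < 6 - z := by linarith
  have a8 : 0 < 10 - z := by linarith
  rw [e]; positivity

theorem Pi8_g6 {z : ℝ} (h1 : 6 < z) (h2 : z < 10) : Pi8 z < 0 := by
  have e : Pi8 z = -((z + 10) * (z + 6) * (z + 5) * (z + 3) * (z - 3) * (z - 5) * (z - 6)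
      * (10 - z)) := by unfold Pi8; ring
  have a1 : 0 < z + 10 := by linarith
  have a2 : 0 < z + 6 := by linarith
  have a3 : 0 < z + 5 := by linarith
  have a4 : 0 < z + 3 := by linarith
  have a5 : 0 < z - 3 := by linarith
  have a6 : 0 < z - 5 := by linarith
  have a7 : 0 < z - 6 := by linarith
  have a8 : 0 < 10 - z := by linarith
  rw [e, neg_lt_zero]; positivity

end signs

/-! ### relations at the nodes -/

/-- values of a quartic of the orbit at the nodes do not vanish -/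
theorem Q4_node_ne (O : BackOrbit) (t : ℕ) (i : Fin 8) : Q4 (O.p t) (nd i) ≠ 0 := by
  unfold Q4
  obtain ⟨k, hk | hk⟩ := Nat.even_or_odd' t
  · subst hk
    obtain ⟨⟨a1, a2⟩, ⟨a3, a4⟩, ⟨a5, a6⟩, ⟨a7, a8⟩, -, -, -⟩ := O.even k
    refine mul_ne_zero (mul_ne_zero (mul_ne_zero ?_ ?_) ?_) ?_ <;> fin_cases i <;>
      simp only [nd, Matrix.cons_val, Matrix.cons_val_zero, Matrix.cons_val_one] <;>
      intro h <;> first | (norm_num at h; linarith) | linarith
  · subst hk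
    obtain ⟨⟨a1, a2⟩, ⟨a3, a4⟩, ⟨a5, a6⟩, ⟨a7, a8⟩, -, -, -⟩ := O.odd k
    refine mul_ne_zero (mul_ne_zero (mul_ne_zero ?_ ?_) ?_) ?_ <;> fin_cases i <;>
      simp only [nd, Matrix.cons_val, Matrix.cons_val_zero, Matrix.cons_val_one] <;>
      intro h <;> first | (norm_num at h; linarith) | linarith

theorem C3_node_ne (O : BackOrbit) (t : ℕ) (i : Fin 8) : C3 (O.h t) (nd i) ≠ 0 := by
  unfold C3
  obtain ⟨k, hk | hk⟩ := Nat.even_or_odd' t
  · subst hk
    obtain ⟨-, -, -, -, ⟨a1, a2⟩, ⟨a3, a4⟩, ⟨a5, a6⟩⟩ := O.even k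
    refine mul_ne_zero (mul_ne_zero ?_ ?_) ?_ <;> fin_cases i <;>
      simp only [nd, Matrix.cons_val, Matrix.cons_val_zero, Matrix.cons_val_one] <;>
      intro h <;> first | (norm_num at h; linarith) | linarith
  · subst hk
    obtain ⟨-, -, -, -, ⟨a1, a2⟩, ⟨a3, a4⟩, ⟨a5, a6⟩⟩ := O.odd k
    refine mul_ne_zero (mul_ne_zero ?_ ?_) ?_ <;> fin_cases i <;>
      simp only [nd, Matrix.cons_val, Matrix.cons_val_zero, Matrix.cons_val_one] <;>
      intro h <;> first | (norm_num at h; linarith) | linarith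

/-- two-step relation at the nodes -/
theorem rel2 (O : BackOrbit) (t : ℕ) (i : Fin 8) :
    O.sg t * C3 (O.h t) (nd i) * C3 (O.h (t + 2)) (nd i) * Q4 (O.p (t + 2)) (nd i)
      = O.sg (t + 1) * C3 (O.h (t + 1)) (nd i) ^ 2 * Q4 (O.p t) (nd i) := by
  have h1 := O.rel t i
  have h2 := O.rel (t + 1) i
  have hne := Q4_node_ne O (t + 1) i
  have e : t + 1 + 1 = t + 2 := rfl
  rw [e] at h2
  refine mul_left_cancel₀ hne ?_
  calc Q4 (O.p (t + 1)) (nd i) * (O.sg t * C3 (O.h t) (nd i) * C3 (O.h (t + 2)) (nd i)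
        * Q4 (O.p (t + 2)) (nd i))
      = (O.sg t * C3 (O.h t) (nd i)) * (Q4 (O.p (t + 1)) (nd i) * Q4 (O.p (t + 2)) (nd i)
        * C3 (O.h (t + 2)) (nd i)) := by ring
    _ = (Q4 (O.p t) (nd i) * Q4 (O.p (t + 1)) (nd i) * C3 (O.h (t + 1)) (nd i)) *
        (O.sg (t + 1) * C3 (O.h (t + 1)) (nd i)) := by rw [h1, h2]
    _ = _ := by ring


/-! ### the three quotient coefficients -/

noncomputable def BackOrbit.tx (O : BackOrbit) (t : ℕ) : ℝ :=
  -(O.sg (t + 1) * C3 (O.h (t + 1)) (O.h t 0) ^ 2 * Q4 (O.p t) (O.h t 0))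
    / (Pi8 (O.h t 0) * ((O.h t 0 - O.h t 1) * (O.h t 0 - O.h t 2)))

noncomputable def BackOrbit.te (O : BackOrbit) (t : ℕ) : ℝ :=
  -(O.sg (t + 1) * C3 (O.h (t + 1)) (O.h t 1) ^ 2 * Q4 (O.p t) (O.h t 1))
    / (Pi8 (O.h t 1) * ((O.h t 1 - O.h t 0) * (O.h t 1 - O.h t 2)))

noncomputable def BackOrbit.ty (O : BackOrbit) (t : ℕ) : ℝ :=
  -(O.sg (t + 1) * C3 (O.h (t + 1)) (O.h t 2) ^ 2 * Q4 (O.p t) (O.h t 2))
    / (Pi8 (O.h t 2) * ((O.h t 2 - O.h t 0) * (O.h t 2 - O.h t 1)))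

/-- sign facts at the roots of `H_t` -/
theorem sign_facts (O : BackOrbit) (t : ℕ) :
    (Q4 (O.p t) (O.h t 0) * Pi8 (O.h t 0) < 0) ∧ (0 < Q4 (O.p t) (O.h t 1)) ∧
    (0 < Pi8 (O.h t 1)) ∧ (Q4 (O.p t) (O.h t 2) * Pi8 (O.h t 2) < 0) ∧
    O.h t 0 < O.h t 1 ∧ O.h t 1 < O.h t 2 := by
  obtain ⟨k, hk | hk⟩ := Nat.even_or_odd' t
  · subst hk
    obtain ⟨⟨a1, a2⟩, ⟨a3, a4⟩, ⟨a5, a6⟩, ⟨a7, a8⟩, ⟨b1, b2⟩, ⟨b3, b4⟩, ⟨b5, b6⟩⟩ := O.even k
    refine ⟨?_, ?_, Pi8_g3 b3 b4, ?_, by linarith, by linarith⟩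
    · refine mul_neg_of_pos_of_neg ?_ (Pi8_g0 b1 b2)
      have e : Q4 (O.p (2 * k)) (O.h (2 * k) 0) = (O.p (2 * k) 0 - O.h (2 * k) 0) *
        (O.p (2 * k) 1 - O.h (2 * k) 0) * (O.p (2 * k) 2 - O.h (2 * k) 0) *
        (O.p (2 * k) 3 - O.h (2 * k) 0) := by unfold Q4; ring
      have c1 : 0 < O.p (2 * k) 0 - O.h (2 * k) 0 := by linarith
      have c2 : 0 < O.p (2 * k) 1 - O.h (2 * k) 0 := by linarith
      have c3 : 0 < O.p (2 * k) 2 - O.h (2 * k) 0 := by linarith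
      have c4 : 0 < O.p (2 * k) 3 - O.h (2 * k) 0 := by linarith
      rw [e]; positivity
    · have e : Q4 (O.p (2 * k)) (O.h (2 * k) 1) = (O.h (2 * k) 1 - O.p (2 * k) 0) *
        (O.h (2 * k) 1 - O.p (2 * k) 1) * (O.p (2 * k) 2 - O.h (2 * k) 1) *
        (O.p (2 * k) 3 - O.h (2 * k) 1) := by unfold Q4; ring
      have c1 : 0 < O.h (2 * k) 1 - O.p (2 * k) 0 := by linarith
      have c2 : 0 < O.h (2 * k) 1 - O.p (2 * k) 1 := by linarith
      have c3 : 0 < O.p (2 * k) 2 - O.h (2 * k) 1 := by linarith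
      have c4 : 0 < O.p (2 * k) 3 - O.h (2 * k) 1 := by linarith
      rw [e]; positivity
    · refine mul_neg_of_neg_of_pos ?_ (Pi8_g5 b5 b6)
      have e : Q4 (O.p (2 * k)) (O.h (2 * k) 2) = -((O.h (2 * k) 2 - O.p (2 * k) 0) *
        (O.h (2 * k) 2 - O.p (2 * k) 1) * (O.h (2 * k) 2 - O.p (2 * k) 2) *
        (O.p (2 * k) 3 - O.h (2 * k) 2)) := by unfold Q4; ring
      have c1 : 0 < O.h (2 * k) 2 - O.p (2 * k) 0 := by linarith
      have c2 : 0 < O.h (2 * k) 2 - O.p (2 * k) 1 := by linarith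
      have c3 : 0 < O.h (2 * k) 2 - O.p (2 * k) 2 := by linarith
      have c4 : 0 < O.p (2 * k) 3 - O.h (2 * k) 2 := by linarith
      rw [e, neg_lt_zero]; positivity
  · subst hk
    obtain ⟨⟨a1, a2⟩, ⟨a3, a4⟩, ⟨a5, a6⟩, ⟨a7, a8⟩, ⟨b1, b2⟩, ⟨b3, b4⟩, ⟨b5, b6⟩⟩ := O.odd k
    refine ⟨?_, ?_, Pi8_g3 b3 b4, ?_, by linarith, by linarith⟩
    · refine mul_neg_of_neg_of_pos ?_ (Pi8_g1 b1 b2)
      have e : Q4 (O.p (2 * k + 1)) (O.h (2 * k + 1) 0) =
        -((O.h (2 * k + 1) 0 - O.p (2 * k + 1) 0) *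
        (O.p (2 * k + 1) 1 - O.h (2 * k + 1) 0) * (O.p (2 * k + 1) 2 - O.h (2 * k + 1) 0) *
        (O.p (2 * k + 1) 3 - O.h (2 * k + 1) 0)) := by unfold Q4; ring
      have c1 : 0 < O.h (2 * k + 1) 0 - O.p (2 * k + 1) 0 := by linarith
      have c2 : 0 < O.p (2 * k + 1) 1 - O.h (2 * k + 1) 0 := by linarith
      have c3 : 0 < O.p (2 * k + 1) 2 - O.h (2 * k + 1) 0 := by linarith
      have c4 : 0 < O.p (2 * k + 1) 3 - O.h (2 * k + 1) 0 := by linarith
      rw [e, neg_lt_zero]; positivity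
    · have e : Q4 (O.p (2 * k + 1)) (O.h (2 * k + 1) 1) =
        (O.h (2 * k + 1) 1 - O.p (2 * k + 1) 0) *
        (O.h (2 * k + 1) 1 - O.p (2 * k + 1) 1) * (O.p (2 * k + 1) 2 - O.h (2 * k + 1) 1) *
        (O.p (2 * k + 1) 3 - O.h (2 * k + 1) 1) := by unfold Q4; ring
      have c1 : 0 < O.h (2 * k + 1) 1 - O.p (2 * k + 1) 0 := by linarith
      have c2 : 0 < O.h (2 * k + 1) 1 - O.p (2 * k + 1) 1 := by linarith
      have c3 : 0 < O.p (2 * k + 1) 2 - O.h (2 * k + 1) 1 := by linarith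
      have c4 : 0 < O.p (2 * k + 1) 3 - O.h (2 * k + 1) 1 := by linarith
      rw [e]; positivity
    · refine mul_neg_of_pos_of_neg ?_ (Pi8_g6 b5 b6)
      have e : Q4 (O.p (2 * k + 1)) (O.h (2 * k + 1) 2) =
        ((O.h (2 * k + 1) 2 - O.p (2 * k + 1) 0) *
        (O.h (2 * k + 1) 2 - O.p (2 * k + 1) 1) * (O.h (2 * k + 1) 2 - O.p (2 * k + 1) 2) *
        (O.h (2 * k + 1) 2 - O.p (2 * k + 1) 3)) := by unfold Q4; ring
      have c1 : 0 < O.h (2 * k + 1) 2 - O.p (2 * k + 1) 0 := by linarith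
      have c2 : 0 < O.h (2 * k + 1) 2 - O.p (2 * k + 1) 1 := by linarith
      have c3 : 0 < O.h (2 * k + 1) 2 - O.p (2 * k + 1) 2 := by linarith
      have c4 : 0 < O.h (2 * k + 1) 2 - O.p (2 * k + 1) 3 := by linarith
      rw [e]; positivity

theorem Pi8_h0_ne (O : BackOrbit) (t : ℕ) : Pi8 (O.h t 0) ≠ 0 := by
  intro h; have := (sign_facts O t).1; rw [h, mul_zero] at this; exact lt_irrefl _ this
theorem Pi8_h1_ne (O : BackOrbit) (t : ℕ) : Pi8 (O.h t 1) ≠ 0 := (sign_facts O t).2.2.1.ne'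
theorem Pi8_h2_ne (O : BackOrbit) (t : ℕ) : Pi8 (O.h t 2) ≠ 0 := by
  intro h; have := (sign_facts O t).2.2.2.1; rw [h, mul_zero] at this; exact lt_irrefl _ this

theorem tx_nonneg (O : BackOrbit) (t : ℕ) : 0 ≤ O.tx t := by
  obtain ⟨s1, s2, s3, s4, s5, s6⟩ := sign_facts O t
  have hsg := O.sg_pos (t + 1)
  have hne := Pi8_h0_ne O t
  have e : O.tx t = (O.sg (t + 1) * C3 (O.h (t + 1)) (O.h t 0) ^ 2) *
      (-(Q4 (O.p t) (O.h t 0) * Pi8 (O.h t 0))) /
      (Pi8 (O.h t 0) ^ 2 * ((O.h t 1 - O.h t 0) * (O.h t 2 - O.h t 0))) := by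
    unfold BackOrbit.tx
    have h1 : O.h t 0 - O.h t 1 ≠ 0 := by intro h; linarith
    have h2 : O.h t 0 - O.h t 2 ≠ 0 := by intro h; linarith
    have h3 : O.h t 1 - O.h t 0 ≠ 0 := by intro h; linarith
    have h4 : O.h t 2 - O.h t 0 ≠ 0 := by intro h; linarith
    rw [div_eq_div_iff (by positivity) (by positivity)]
    ring
  rw [e]
  have h5 : 0 < O.h t 1 - O.h t 0 := by linarith
  have h6 : 0 < O.h t 2 - O.h t 0 := by linarith
  have h7 : 0 < -(Q4 (O.p t) (O.h t 0) * Pi8 (O.h t 0)) := by linarith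
  positivity

theorem te_nonneg (O : BackOrbit) (t : ℕ) : 0 ≤ O.te t := by
  obtain ⟨s1, s2, s3, s4, s5, s6⟩ := sign_facts O t
  have hsg := O.sg_pos (t + 1)
  have e : O.te t = (O.sg (t + 1) * C3 (O.h (t + 1)) (O.h t 1) ^ 2) * Q4 (O.p t) (O.h t 1) /
      (Pi8 (O.h t 1) * ((O.h t 1 - O.h t 0) * (O.h t 2 - O.h t 1))) := by
    unfold BackOrbit.te
    have h1 : O.h t 1 - O.h t 0 ≠ 0 := by intro h; linarith
    have h2 : O.h t 1 - O.h t 2 ≠ 0 := by intro h; linarith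
    have h4 : O.h t 2 - O.h t 1 ≠ 0 := by intro h; linarith
    rw [div_eq_div_iff (by positivity) (by positivity)]
    ring
  rw [e]
  have h5 : 0 < O.h t 1 - O.h t 0 := by linarith
  have h6 : 0 < O.h t 2 - O.h t 1 := by linarith
  positivity

theorem ty_nonneg (O : BackOrbit) (t : ℕ) : 0 ≤ O.ty t := by
  obtain ⟨s1, s2, s3, s4, s5, s6⟩ := sign_facts O t
  have hsg := O.sg_pos (t + 1)
  have hne := Pi8_h2_ne O t
  have e : O.ty t = (O.sg (t + 1) * C3 (O.h (t + 1)) (O.h t 2) ^ 2) *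
      (-(Q4 (O.p t) (O.h t 2) * Pi8 (O.h t 2))) /
      (Pi8 (O.h t 2) ^ 2 * ((O.h t 2 - O.h t 0) * (O.h t 2 - O.h t 1))) := by
    unfold BackOrbit.ty
    have h1 : O.h t 2 - O.h t 0 ≠ 0 := by intro h; linarith
    have h2 : O.h t 2 - O.h t 1 ≠ 0 := by intro h; linarith
    rw [div_eq_div_iff (by positivity) (by positivity)]
    ring
  rw [e]
  have h5 : 0 < O.h t 2 - O.h t 0 := by linarith
  have h6 : 0 < O.h t 2 - O.h t 1 := by linarith
  have h7 : 0 < -(Q4 (O.p t) (O.h t 2) * Pi8 (O.h t 2)) := by linarith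
  positivity

/-- the eleven points: nodes and roots of `H_t` -/
theorem Pi8_node (i : Fin 8) : Pi8 (nd i) = 0 := by
  fin_cases i <;> simp [Pi8, nd]

theorem exists_pts (O : BackOrbit) (t : ℕ) : ∃ f : Fin 11 → ℝ, Function.Injective f ∧
    ∀ i, (∃ j, f i = nd j) ∨ (∃ j, f i = O.h t j) := by
  obtain ⟨k, hk | hk⟩ := Nat.even_or_odd' t
  · subst hk
    obtain ⟨-, -, -, -, ⟨b1, b2⟩, ⟨b3, b4⟩, ⟨b5, b6⟩⟩ := O.even k
    refine ⟨![-10, O.h (2 * k) 0, -6, -5, -3, O.h (2 * k) 1, 3, 5, O.h (2 * k) 2, 6, 10], ?_, ?_⟩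
    · apply StrictMono.injective
      rw [Fin.strictMono_iff_lt_succ]
      intro i
      fin_cases i <;> simp <;> linarith
    · intro i
      fin_cases i
      · left; exact ⟨0, rfl⟩
      · right; exact ⟨0, rfl⟩
      · left; exact ⟨1, rfl⟩
      · left; exact ⟨2, rfl⟩
      · left; exact ⟨3, rfl⟩
      · right; exact ⟨1, rfl⟩
      · left; exact ⟨4, rfl⟩
      · left; exact ⟨5, rfl⟩
      · right; exact ⟨2, rfl⟩
      · left; exact ⟨6, rfl⟩
      · left; exact ⟨7, rfl⟩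
  · subst hk
    obtain ⟨-, -, -, -, ⟨b1, b2⟩, ⟨b3, b4⟩, ⟨b5, b6⟩⟩ := O.odd k
    refine ⟨![-10, -6, O.h (2 * k + 1) 0, -5, -3, O.h (2 * k + 1) 1, 3, 5, 6,
      O.h (2 * k + 1) 2, 10], ?_, ?_⟩
    · apply StrictMono.injective
      rw [Fin.strictMono_iff_lt_succ]
      intro i
      fin_cases i <;> simp <;> linarith
    · intro i
      fin_cases i
      · left; exact ⟨0, rfl⟩
      · left; exact ⟨1, rfl⟩
      · right; exact ⟨0, rfl⟩
      · left; exact ⟨2, rfl⟩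
      · left; exact ⟨3, rfl⟩
      · right; exact ⟨1, rfl⟩
      · left; exact ⟨4, rfl⟩
      · left; exact ⟨5, rfl⟩
      · left; exact ⟨6, rfl⟩
      · right; exact ⟨2, rfl⟩
      · left; exact ⟨7, rfl⟩

/-- the polynomial form of the (T) identity -/
theorem identT_poly (O : BackOrbit) (t : ℕ) :
    C (O.sg t) * lin [O.h t 0, O.h t 1, O.h t 2, O.h (t + 2) 0, O.h (t + 2) 1, O.h (t + 2) 2,
        O.p (t + 2) 0, O.p (t + 2) 1, O.p (t + 2) 2, O.p (t + 2) 3]
      - C (O.sg (t + 1)) * lin [O.h (t + 1) 0, O.h (t + 1) 1, O.h (t + 1) 2, O.h (t + 1) 0,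
        O.h (t + 1) 1, O.h (t + 1) 2, O.p t 0, O.p t 1, O.p t 2, O.p t 3]
      - C (O.tx t) * lin [-10, -6, -5, -3, 3, 5, 6, 10, O.h t 1, O.h t 2]
      - C (O.te t) * lin [-10, -6, -5, -3, 3, 5, 6, 10, O.h t 0, O.h t 2]
      - C (O.ty t) * lin [-10, -6, -5, -3, 3, 5, 6, 10, O.h t 0, O.h t 1] = 0 := by
  obtain ⟨s1, s2, s3, s4, s5, s6⟩ := sign_facts O t
  obtain ⟨f, hf, hfv⟩ := exists_pts O t
  apply eq_zero_of_natDegree_lt_card_of_eval_eq_zero _ hf
  · intro i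
    rcases hfv i with ⟨j, hj⟩ | ⟨j, hj⟩
    · rw [hj]
      have hr := rel2 O t j
      have hP := Pi8_node j
      simp only [eval_sub, eval_mul, eval_C, lin_eval_cons, lin_eval_nil]
      unfold C3 Q4 at hr
      unfold Pi8 at hP
      linear_combination hr - (O.tx t * ((nd j - O.h t 1) * (nd j - O.h t 2))
        + O.te t * ((nd j - O.h t 0) * (nd j - O.h t 2))
        + O.ty t * ((nd j - O.h t 0) * (nd j - O.h t 1))) * hP
    · rw [hj]
      simp only [eval_sub, eval_mul, eval_C, lin_eval_cons, lin_eval_nil]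
      have h01 : O.h t 0 - O.h t 1 ≠ 0 := by intro h; linarith
      have h02 : O.h t 0 - O.h t 2 ≠ 0 := by intro h; linarith
      have h10 : O.h t 1 - O.h t 0 ≠ 0 := by intro h; linarith
      have h12 : O.h t 1 - O.h t 2 ≠ 0 := by intro h; linarith
      have h20 : O.h t 2 - O.h t 0 ≠ 0 := by intro h; linarith
      have h21 : O.h t 2 - O.h t 1 ≠ 0 := by intro h; linarith
      have kx : O.tx t * (Pi8 (O.h t 0) * ((O.h t 0 - O.h t 1) * (O.h t 0 - O.h t 2)))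
          = -(O.sg (t + 1) * C3 (O.h (t + 1)) (O.h t 0) ^ 2 * Q4 (O.p t) (O.h t 0)) :=
        div_mul_cancel₀ _ (mul_ne_zero (Pi8_h0_ne O t) (mul_ne_zero h01 h02))
      have ke : O.te t * (Pi8 (O.h t 1) * ((O.h t 1 - O.h t 0) * (O.h t 1 - O.h t 2)))
          = -(O.sg (t + 1) * C3 (O.h (t + 1)) (O.h t 1) ^ 2 * Q4 (O.p t) (O.h t 1)) :=
        div_mul_cancel₀ _ (mul_ne_zero (Pi8_h1_ne O t) (mul_ne_zero h10 h12))
      have ky : O.ty t * (Pi8 (O.h t 2) * ((O.h t 2 - O.h t 0) * (O.h t 2 - O.h t 1)))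
          = -(O.sg (t + 1) * C3 (O.h (t + 1)) (O.h t 2) ^ 2 * Q4 (O.p t) (O.h t 2)) :=
        div_mul_cancel₀ _ (mul_ne_zero (Pi8_h2_ne O t) (mul_ne_zero h20 h21))
      unfold C3 Q4 Pi8 at kx ke ky
      fin_cases j
      · simp only [Fin.zero_eta, Fin.isValue]
        linear_combination -kx
      · simp only [Fin.mk_one, Fin.isValue]
        linear_combination -ke
      · simp only [Fin.reduceFinMk, Fin.isValue]
        linear_combination -ky
  · rw [Fintype.card_fin]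
    have hb : ∀ (c : ℝ) (l : List ℝ), l.length = 10 → (C c * lin l).natDegree ≤ 10 := by
      intro c l hl
      refine (natDegree_C_mul_le _ _).trans ?_
      rw [lin_natDegree, hl]
    refine Nat.lt_succ_of_le ?_
    refine natDegree_sub_le_of_le (natDegree_sub_le_of_le (natDegree_sub_le_of_le
      (natDegree_sub_le_of_le (hb _ _ rfl) (hb _ _ rfl)) (hb _ _ rfl)) (hb _ _ rfl)) (hb _ _ rfl)

theorem t_sum (O : BackOrbit) (t : ℕ) : O.tx t + O.te t + O.ty t = O.sg t - O.sg (t + 1) := by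
  have h := congrArg (fun q : Polynomial ℝ => q.coeff 10) (identT_poly O t)
  simp only [coeff_sub, coeff_C_mul, coeff_zero] at h
  have hc : ∀ l : List ℝ, l.length = 10 → (lin l).coeff 10 = 1 := fun l hl => lin_coeff hl
  rw [hc _ (by simp), hc _ (by simp), hc _ (by simp), hc _ (by simp), hc _ (by simp)] at h
  linarith

/-- identity (T) with the explicit coefficients -/
theorem identT' (O : BackOrbit) (t : ℕ) (z : ℝ) :
    O.sg t * C3 (O.h t) z * C3 (O.h (t + 2)) z * Q4 (O.p (t + 2)) z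
        - O.sg (t + 1) * C3 (O.h (t + 1)) z ^ 2 * Q4 (O.p t) z
      = Pi8 z * (O.tx t * ((z - O.h t 1) * (z - O.h t 2))
        + O.te t * ((z - O.h t 0) * (z - O.h t 2))
        + O.ty t * ((z - O.h t 0) * (z - O.h t 1))) := by
  have h := congrArg (fun q : Polynomial ℝ => q.eval z) (identT_poly O t)
  simp only [eval_sub, eval_mul, eval_C, lin_eval_cons, lin_eval_nil, eval_zero] at h
  unfold C3 Q4 Pi8
  linear_combination h

theorem identT (O : BackOrbit) (t : ℕ) : ∃ tx te ty : ℝ, 0 ≤ tx ∧ 0 ≤ te ∧ 0 ≤ ty ∧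
    tx + te + ty = O.sg t - O.sg (t + 1) ∧
    ∀ z, O.sg t * C3 (O.h t) z * C3 (O.h (t + 2)) z * Q4 (O.p (t + 2)) z
        - O.sg (t + 1) * C3 (O.h (t + 1)) z ^ 2 * Q4 (O.p t) z
      = Pi8 z * (tx * ((z - O.h t 1) * (z - O.h t 2)) + te * ((z - O.h t 0) * (z - O.h t 2))
        + ty * ((z - O.h t 0) * (z - O.h t 1))) :=
  ⟨O.tx t, O.te t, O.ty t, tx_nonneg O t, te_nonneg O t, ty_nonneg O t, t_sum O t, identT' O t⟩


/-! ### identity (M) -/

/-- `b_t(z) = (z - x_t)(z - y_t)` -/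
noncomputable def BackOrbit.b (O : BackOrbit) (t : ℕ) (z : ℝ) : ℝ :=
  (z - O.h t 0) * (z - O.h t 2)

theorem C3_eq_b (O : BackOrbit) (t : ℕ) (z : ℝ) :
    C3 (O.h t) z = O.b t z * (z - O.h t 1) := by
  unfold C3 BackOrbit.b; ring

theorem h_mid (O : BackOrbit) (t : ℕ) : -3 < O.h t 1 ∧ O.h t 1 < 3 := by
  obtain ⟨k, hk | hk⟩ := Nat.even_or_odd' t
  · subst hk; exact (O.even k).h1
  · subst hk; exact (O.odd k).h1

theorem h_lo (O : BackOrbit) (t : ℕ) : -10 < O.h t 0 ∧ O.h t 0 < -5 := by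
  obtain ⟨k, hk | hk⟩ := Nat.even_or_odd' t
  · subst hk; have := (O.even k).h0; constructor <;> linarith [this.1, this.2]
  · subst hk; have := (O.odd k).h0; constructor <;> linarith [this.1, this.2]

theorem h_hi (O : BackOrbit) (t : ℕ) : 5 < O.h t 2 ∧ O.h t 2 < 10 := by
  obtain ⟨k, hk | hk⟩ := Nat.even_or_odd' t
  · subst hk; have := (O.even k).h2; constructor <;> linarith [this.1, this.2]
  · subst hk; have := (O.odd k).h2; constructor <;> linarith [this.1, this.2]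

theorem b_neg (O : BackOrbit) (t : ℕ) {z : ℝ} (h1 : -3 ≤ z) (h2 : z ≤ 3) : O.b t z < 0 := by
  have := h_lo O t
  have := h_hi O t
  unfold BackOrbit.b
  exact mul_neg_of_pos_of_neg (by linarith) (by linarith)

/-- explicit value of the middle coefficient -/
theorem te_eq (O : BackOrbit) (t : ℕ) : O.te t =
    -(O.sg (t + 1) * (O.h (t + 1) 1 - O.h t 1) ^ 2 * O.b (t + 1) (O.h t 1) ^ 2
      * Q4 (O.p t) (O.h t 1)) / (Pi8 (O.h t 1) * O.b t (O.h t 1)) := by
  unfold BackOrbit.te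
  rw [C3_eq_b]
  congr 1
  ring

/-- auxiliary: the identity (M) without denominators -/
theorem identM_aux (O : BackOrbit) (t : ℕ) :
    -(O.sg t * (O.h (t + 2) 1 - O.h (t + 1) 1) * O.b (t + 2) (O.h (t + 1) 1)
        * Q4 (O.p (t + 2)) (O.h (t + 1) 1) * O.b t (O.h (t + 1) 1)
        * (Pi8 (O.h t 1) * O.b t (O.h t 1)))
      = Pi8 (O.h (t + 1) 1) * (O.b t (O.h (t + 1) 1) * (-(O.sg (t + 1)
          * (O.h (t + 1) 1 - O.h t 1) * O.b (t + 1) (O.h t 1) ^ 2 * Q4 (O.p t) (O.h t 1)))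
        + (Pi8 (O.h t 1) * O.b t (O.h t 1)) * (O.tx t * (O.h (t + 1) 1 - O.h t 2)
          + O.ty t * (O.h (t + 1) 1 - O.h t 0))) := by
  have hPe := Pi8_h1_ne O t
  have hbe : O.b t (O.h t 1) ≠ 0 := (b_neg O t (h_mid O t).1.le (h_mid O t).2.le).ne
  have hte : O.te t * (Pi8 (O.h t 1) * O.b t (O.h t 1)) =
      -(O.sg (t + 1) * (O.h (t + 1) 1 - O.h t 1) ^ 2 * O.b (t + 1) (O.h t 1) ^ 2
      * Q4 (O.p t) (O.h t 1)) := by
    rw [te_eq]; exact div_mul_cancel₀ _ (mul_ne_zero hPe hbe)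
  by_cases hd : O.h (t + 1) 1 - O.h t 1 = 0
  · -- coincident middle roots: divide identity (T) by `z - η`
    have he : O.h (t + 1) 1 = O.h t 1 := by linarith
    have hte0 : O.te t = 0 := by
      rw [te_eq, hd]; simp
    set g : ℝ → ℝ := fun z => O.sg t * O.b t z * C3 (O.h (t + 2)) z * Q4 (O.p (t + 2)) z
      - O.sg (t + 1) * O.b (t + 1) z ^ 2 * (z - O.h t 1) * Q4 (O.p t) z
      - Pi8 z * (O.tx t * (z - O.h t 2) + O.ty t * (z - O.h t 0)) with hg
    have hgc : Continuous g := by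
      simp only [hg]
      unfold BackOrbit.b C3 Q4 Pi8
      fun_prop
    have hg0 : ∀ z, z ≠ O.h t 1 → g z = 0 := by
      intro z hz
      have hz' : z - O.h t 1 ≠ 0 := sub_ne_zero.2 hz
      have hT := identT' O t z
      rw [hte0, C3_eq_b O t z, C3_eq_b O (t + 1) z, he] at hT
      apply mul_left_cancel₀ hz'
      simp only [hg]
      linear_combination hT
    have hg1 : g = fun _ => 0 := by
      refine Continuous.ext_on (dense_compl_singleton (O.h t 1)) hgc continuous_const ?_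
      intro z hz
      exact hg0 z hz
    have hg2 := congrFun hg1 (O.h t 1)
    simp only [hg] at hg2
    rw [C3_eq_b O (t + 2) (O.h t 1)] at hg2
    rw [he]
    linear_combination (Pi8 (O.h t 1) * O.b t (O.h t 1)) * hg2
  · apply mul_left_cancel₀ hd
    have hT := identT' O t (O.h (t + 1) 1)
    rw [C3_eq_b O t (O.h (t + 1) 1), C3_eq_b O (t + 2) (O.h (t + 1) 1),
      C3_eq_b O (t + 1) (O.h (t + 1) 1)] at hT
    have hb : O.b t (O.h (t + 1) 1) = (O.h (t + 1) 1 - O.h t 0) * (O.h (t + 1) 1 - O.h t 2) := rfl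
    linear_combination (Pi8 (O.h t 1) * O.b t (O.h t 1)) * hT
      + Pi8 (O.h (t + 1) 1) * O.b t (O.h (t + 1) 1) * hte
      - Pi8 (O.h (t + 1) 1) * O.te t * (Pi8 (O.h t 1) * O.b t (O.h t 1)) * hb

/-- identity (M) -/
theorem identM (O : BackOrbit) (t : ℕ) :
    O.sg t * (O.h (t + 2) 1 - O.h (t + 1) 1)
        * (-(O.b (t + 2) (O.h (t + 1) 1) * Q4 (O.p (t + 2)) (O.h (t + 1) 1))
          / Pi8 (O.h (t + 1) 1))
      = O.sg (t + 1) * (O.h (t + 1) 1 - O.h t 1)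
        * (-(O.b (t + 1) (O.h t 1) ^ 2 * Q4 (O.p t) (O.h t 1))
          / (Pi8 (O.h t 1) * O.b t (O.h t 1)))
        + O.tx t / (O.h (t + 1) 1 - O.h t 0) + O.ty t / (O.h (t + 1) 1 - O.h t 2) := by
  have h := identM_aux O t
  have hPe := Pi8_h1_ne O t
  have hPe' := Pi8_h1_ne O (t + 1)
  have hbe : O.b t (O.h t 1) ≠ 0 := (b_neg O t (h_mid O t).1.le (h_mid O t).2.le).ne
  have h0 : O.h (t + 1) 1 - O.h t 0 ≠ 0 := by
    intro h; linarith [(h_mid O (t + 1)).1, (h_lo O t).2]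
  have h2 : O.h (t + 1) 1 - O.h t 2 ≠ 0 := by
    intro h; linarith [(h_mid O (t + 1)).2, (h_hi O t).1]
  have hb : O.b t (O.h (t + 1) 1) = (O.h (t + 1) 1 - O.h t 0) * (O.h (t + 1) 1 - O.h t 2) := rfl
  rw [hb] at h
  field_simp
  linear_combination h


/-! ### identity (W) -/

theorem PiP_zp (i : Fin 6) : PiP (zp i) = 0 := by
  fin_cases i <;> simp [PiP, zp] <;> norm_num

theorem Lb_zp (i j : Fin 6) : Lb i (zp j) = if i = j then 1 else 0 := by
  unfold Lb
  split_ifs with h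
  · subst h
    refine Finset.prod_eq_one fun k hk => ?_
    have hk' : k ≠ i := (Finset.mem_erase.1 hk).1
    have : zp i - zp k ≠ 0 := by
      fin_cases i <;> fin_cases k <;> simp [zp] at hk' ⊢ <;> norm_num
    exact div_self this
  · refine Finset.prod_eq_zero (i := j) (Finset.mem_erase.2 ⟨fun h' => h h'.symm,
      Finset.mem_univ _⟩) ?_
    simp

/-- the Lagrange basis polynomials as explicit polynomials -/
noncomputable def LbP (i : Fin 6) : Polynomial ℝ :=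
  ∏ j ∈ Finset.univ.erase i, (C ((zp i - zp j)⁻¹) * (X - C (zp j)))

theorem LbP_eval (i : Fin 6) (z : ℝ) : (LbP i).eval z = Lb i z := by
  unfold LbP Lb
  rw [eval_prod]
  refine Finset.prod_congr rfl fun j _ => ?_
  simp only [eval_mul, eval_C, eval_sub, eval_X]
  rw [div_eq_inv_mul]

theorem LbP_natDegree (i : Fin 6) : (LbP i).natDegree ≤ 5 := by
  unfold LbP
  refine (natDegree_prod_le _ _).trans ?_
  refine (Finset.sum_le_card_nsmul _ _ 1 ?_).trans ?_
  · intro j _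
    refine (natDegree_C_mul_le _ _).trans ?_
    rw [natDegree_X_sub_C]
  · rw [Finset.card_erase_of_mem (Finset.mem_univ _)]
    simp

/-- Lagrange interpolation at the six nodes `Z⁺` of a monic sextic -/
theorem lagr6 (l : List ℝ) (hl : l.length = 6) (z : ℝ) :
    (lin l).eval z = PiP z + ∑ i, Lb i z * (lin l).eval (zp i) := by
  have hzinj : Function.Injective zp := by
    intro i j hij
    fin_cases i <;> fin_cases j <;> simp [zp] at hij ⊢ <;> norm_num at hij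
  have key : lin l - lin [-10, -5, -3, 3, 5, 10]
      - ∑ i, C ((lin l).eval (zp i)) * LbP i = 0 := by
    apply eq_zero_of_natDegree_lt_card_of_eval_eq_zero _ hzinj
    · intro j
      simp only [eval_sub, eval_finset_sum, eval_mul, eval_C, LbP_eval, Lb_zp]
      simp only [mul_ite, mul_one, mul_zero, Finset.sum_ite_eq', Finset.mem_univ, if_true]
      have h0 : (lin [-10, -5, -3, 3, 5, 10]).eval (zp j) = 0 := by
        have := PiP_zp j
        simp only [lin_eval_cons, lin_eval_nil]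
        unfold PiP at this
        linear_combination this
      rw [h0]; ring
    · rw [Fintype.card_fin]
      have h1 : (lin l - lin [-10, -5, -3, 3, 5, 10]).natDegree ≤ 5 := by
        rw [natDegree_le_iff_coeff_eq_zero]
        intro n hn
        rcases Nat.lt_or_ge 6 n with h | h
        · rw [coeff_sub, coeff_eq_zero_of_natDegree_lt, coeff_eq_zero_of_natDegree_lt, sub_zero]
          · rw [lin_natDegree]; simpa using h
          · rw [lin_natDegree, hl]; exact h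
        · have h6 : n = 6 := by omega
          subst h6
          rw [coeff_sub, lin_coeff hl, lin_coeff (by simp), sub_self]
      have h2 : (∑ i, C ((lin l).eval (zp i)) * LbP i).natDegree ≤ 5 := by
        refine natDegree_sum_le_of_forall_le _ _ fun i _ => ?_
        exact (natDegree_C_mul_le _ _).trans (LbP_natDegree i)
      exact Nat.lt_succ_of_le (natDegree_sub_le_of_le h1 h2)
  have h := congrArg (fun q : Polynomial ℝ => q.eval z) key
  simp only [eval_sub, eval_finset_sum, eval_mul, eval_C, LbP_eval, eval_zero] at h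
  have hP : (lin [-10, -5, -3, 3, 5, 10]).eval z = PiP z := by
    simp only [lin_eval_cons, lin_eval_nil]
    unfold PiP; ring
  rw [hP] at h
  have h3 : ∑ i, Lb i z * (lin l).eval (zp i) = ∑ i, (lin l).eval (zp i) * Lb i z :=
    Finset.sum_congr rfl fun i _ => mul_comm _ _
  rw [h3]; linarith

/-- the sextic `W` -/
noncomputable def BackOrbit.W (O : BackOrbit) (t : ℕ) (z : ℝ) : ℝ :=
  O.sg t * ((z - O.h t 1) * (z - O.h (t + 2) 1)) * Q4 (O.p (t + 2)) z
    - O.sg (t + 1) * (z - O.h (t + 1) 1) ^ 2 * Q4 (O.p t) z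

/-- values of `W` at the nodes -/
theorem W_node (O : BackOrbit) (t : ℕ) (i : Fin 8) :
    O.W t (nd i) = O.sg (t + 1) * (nd i - O.h (t + 1) 1) ^ 2 * Q4 (O.p t) (nd i)
      * (O.b (t + 1) (nd i) ^ 2 / (O.b t (nd i) * O.b (t + 2) (nd i)) - 1) := by
  have hr := rel2 O t i
  have h0 := C3_node_ne O t i
  have h2 := C3_node_ne O (t + 2) i
  rw [C3_eq_b] at h0 h2
  have hb0 : O.b t (nd i) ≠ 0 := left_ne_zero_of_mul h0
  have hb2 : O.b (t + 2) (nd i) ≠ 0 := left_ne_zero_of_mul h2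
  rw [C3_eq_b, C3_eq_b, C3_eq_b] at hr
  have hbb : O.b t (nd i) * O.b (t + 2) (nd i) ≠ 0 := mul_ne_zero hb0 hb2
  rw [mul_sub, mul_one, mul_div_assoc', eq_sub_iff_add_eq, eq_div_iff hbb]
  unfold BackOrbit.W
  linear_combination hr

/-- identity (W): Lagrange interpolation on `Z⁺` -/
theorem identW (O : BackOrbit) (t : ℕ) (z : ℝ) :
    O.W t z = (O.sg t - O.sg (t + 1)) * PiP z + ∑ i, Lb i z * O.W t (zp i) := by
  have h1 := lagr6 [O.h t 1, O.h (t + 2) 1, O.p (t + 2) 0, O.p (t + 2) 1, O.p (t + 2) 2,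
    O.p (t + 2) 3] (by simp)
  have h2 := lagr6 [O.h (t + 1) 1, O.h (t + 1) 1, O.p t 0, O.p t 1, O.p t 2, O.p t 3] (by simp)
  have hW : ∀ z, O.W t z = O.sg t * (lin [O.h t 1, O.h (t + 2) 1, O.p (t + 2) 0, O.p (t + 2) 1,
      O.p (t + 2) 2, O.p (t + 2) 3]).eval z - O.sg (t + 1) * (lin [O.h (t + 1) 1, O.h (t + 1) 1,
      O.p t 0, O.p t 1, O.p t 2, O.p t 3]).eval z := by
    intro z
    simp only [lin_eval_cons, lin_eval_nil]
    unfold BackOrbit.W Q4
    ring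
  rw [hW z, h1 z, h2 z]
  have h3 : ∑ i, Lb i z * O.W t (zp i) = O.sg t * ∑ i, Lb i z * (lin [O.h t 1, O.h (t + 2) 1,
      O.p (t + 2) 0, O.p (t + 2) 1, O.p (t + 2) 2, O.p (t + 2) 3]).eval (zp i)
      - O.sg (t + 1) * ∑ i, Lb i z * (lin [O.h (t + 1) 1, O.h (t + 1) 1,
      O.p t 0, O.p t 1, O.p t 2, O.p t 3]).eval (zp i) := by
    rw [Finset.mul_sum, Finset.mul_sum, ← Finset.sum_sub_distrib]
    refine Finset.sum_congr rfl fun i _ => ?_
    rw [hW (zp i)]; ring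
  rw [h3]; ring

/-! ### the drift estimate (D) -/

theorem sep {z r n d : ℝ} (h : d ≤ |z - n|) (h' : (r ≤ n ∧ n ≤ z) ∨ (z ≤ n ∧ n ≤ r)) :
    d ≤ |z - r| := by
  rcases h' with ⟨h1, h2⟩ | ⟨h1, h2⟩
  · rw [abs_of_nonneg (by linarith)] at h ⊢; linarith
  · rw [abs_of_nonpos (by linarith)] at h ⊢; linarith


theorem sep_even {p p' : Fin 4 → ℝ} {h h' : Fin 3 → ℝ} {d : ℝ} (g : EvenGap p h)
    (g' : EvenGap p' h') (hdist : ∀ j i, d ≤ |p j - nd i|) :
    (∀ j i, d ≤ |p j - h' i|) ∧ ∀ j i, i ≠ j → d ≤ |p j - p' i| := by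
  obtain ⟨⟨a1, a2⟩, ⟨a3, a4⟩, ⟨a5, a6⟩, ⟨a7, a8⟩, -, -, -⟩ := g
  obtain ⟨⟨c1, c2⟩, ⟨c3, c4⟩, ⟨c5, c6⟩, ⟨c7, c8⟩, ⟨b1, b2⟩, ⟨b3, b4⟩, ⟨b5, b6⟩⟩ := g'
  have n01 : d ≤ |p 0 - (-6)| := hdist 0 1
  have n02 : d ≤ |p 0 - (-5)| := hdist 0 2
  have n12 : d ≤ |p 1 - (-5)| := hdist 1 2
  have n13 : d ≤ |p 1 - (-3)| := hdist 1 3
  have n24 : d ≤ |p 2 - 3| := hdist 2 4
  have n25 : d ≤ |p 2 - 5| := hdist 2 5
  have n36 : d ≤ |p 3 - 6| := hdist 3 6
  have n37 : d ≤ |p 3 - 10| := hdist 3 7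
  constructor
  · intro j i
    fin_cases j <;> fin_cases i <;> simp only [Fin.zero_eta, Fin.isValue, Fin.mk_one,
      Fin.reduceFinMk] <;>
    first
    | exact sep n01 (Or.inl ⟨by linarith, by linarith⟩)
    | exact sep n02 (Or.inr ⟨by linarith, by linarith⟩)
    | exact sep n12 (Or.inl ⟨by linarith, by linarith⟩)
    | exact sep n13 (Or.inr ⟨by linarith, by linarith⟩)
    | exact sep n24 (Or.inl ⟨by linarith, by linarith⟩)
    | exact sep n25 (Or.inr ⟨by linarith, by linarith⟩)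
    | exact sep n36 (Or.inl ⟨by linarith, by linarith⟩)
    | exact sep n37 (Or.inr ⟨by linarith, by linarith⟩)
  · intro j i hij
    fin_cases j <;> fin_cases i <;> simp only [Fin.zero_eta, Fin.isValue, Fin.mk_one,
      Fin.reduceFinMk] <;>
    first
    | exact absurd rfl hij
    | exact sep n01 (Or.inl ⟨by linarith, by linarith⟩)
    | exact sep n02 (Or.inr ⟨by linarith, by linarith⟩)
    | exact sep n12 (Or.inl ⟨by linarith, by linarith⟩)
    | exact sep n13 (Or.inr ⟨by linarith, by linarith⟩)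
    | exact sep n24 (Or.inl ⟨by linarith, by linarith⟩)
    | exact sep n25 (Or.inr ⟨by linarith, by linarith⟩)
    | exact sep n36 (Or.inl ⟨by linarith, by linarith⟩)
    | exact sep n37 (Or.inr ⟨by linarith, by linarith⟩)

theorem sep_odd {p p' : Fin 4 → ℝ} {h h' : Fin 3 → ℝ} {d : ℝ} (g : OddGap p h)
    (g' : OddGap p' h') (hdist : ∀ j i, d ≤ |p j - nd i|) :
    (∀ j i, d ≤ |p j - h' i|) ∧ ∀ j i, i ≠ j → d ≤ |p j - p' i| := by
  obtain ⟨⟨a1, a2⟩, ⟨a3, a4⟩, ⟨a5, a6⟩, ⟨a7, a8⟩, -, -, -⟩ := g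
  obtain ⟨⟨c1, c2⟩, ⟨c3, c4⟩, ⟨c5, c6⟩, ⟨c7, c8⟩, ⟨b1, b2⟩, ⟨b3, b4⟩, ⟨b5, b6⟩⟩ := g'
  have n00 : d ≤ |p 0 - (-10)| := hdist 0 0
  have n01 : d ≤ |p 0 - (-6)| := hdist 0 1
  have n12 : d ≤ |p 1 - (-5)| := hdist 1 2
  have n13 : d ≤ |p 1 - (-3)| := hdist 1 3
  have n24 : d ≤ |p 2 - 3| := hdist 2 4
  have n25 : d ≤ |p 2 - 5| := hdist 2 5
  have n35 : d ≤ |p 3 - 5| := hdist 3 5
  have n36 : d ≤ |p 3 - 6| := hdist 3 6
  constructor
  · intro j i
    fin_cases j <;> fin_cases i <;> simp only [Fin.zero_eta, Fin.isValue, Fin.mk_one,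
      Fin.reduceFinMk] <;>
    first
    | exact sep n00 (Or.inl ⟨by linarith, by linarith⟩)
    | exact sep n01 (Or.inr ⟨by linarith, by linarith⟩)
    | exact sep n12 (Or.inl ⟨by linarith, by linarith⟩)
    | exact sep n13 (Or.inr ⟨by linarith, by linarith⟩)
    | exact sep n24 (Or.inl ⟨by linarith, by linarith⟩)
    | exact sep n25 (Or.inr ⟨by linarith, by linarith⟩)
    | exact sep n35 (Or.inl ⟨by linarith, by linarith⟩)
    | exact sep n36 (Or.inr ⟨by linarith, by linarith⟩)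
  · intro j i hij
    fin_cases j <;> fin_cases i <;> simp only [Fin.zero_eta, Fin.isValue, Fin.mk_one,
      Fin.reduceFinMk] <;>
    first
    | exact absurd rfl hij
    | exact sep n00 (Or.inl ⟨by linarith, by linarith⟩)
    | exact sep n01 (Or.inr ⟨by linarith, by linarith⟩)
    | exact sep n12 (Or.inl ⟨by linarith, by linarith⟩)
    | exact sep n13 (Or.inr ⟨by linarith, by linarith⟩)
    | exact sep n24 (Or.inl ⟨by linarith, by linarith⟩)
    | exact sep n25 (Or.inr ⟨by linarith, by linarith⟩)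
    | exact sep n35 (Or.inl ⟨by linarith, by linarith⟩)
    | exact sep n36 (Or.inr ⟨by linarith, by linarith⟩)

theorem sep_orbit (O : BackOrbit) (t : ℕ) {d : ℝ} (hdist : ∀ j i, d ≤ |O.p t j - nd i|) :
    (∀ j i, d ≤ |O.p t j - O.h t i|) ∧ (∀ j i, d ≤ |O.p t j - O.h (t + 2) i|) ∧
    (∀ j i, i ≠ j → d ≤ |O.p t j - O.p (t + 2) i|) := by
  obtain ⟨k, hk | hk⟩ := Nat.even_or_odd' t
  · subst hk
    have e : 2 * k + 2 = 2 * (k + 1) := by ring
    rw [e]
    obtain ⟨h1, -⟩ := sep_even (O.even k) (O.even k) hdist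
    obtain ⟨h2, h3⟩ := sep_even (O.even k) (O.even (k + 1)) hdist
    exact ⟨h1, h2, h3⟩
  · subst hk
    have e : 2 * k + 1 + 2 = 2 * (k + 1) + 1 := by ring
    rw [e]
    obtain ⟨h1, -⟩ := sep_odd (O.odd k) (O.odd k) hdist
    obtain ⟨h2, h3⟩ := sep_odd (O.odd k) (O.odd (k + 1)) hdist
    exact ⟨h1, h2, h3⟩

theorem p_bd (O : BackOrbit) (t : ℕ) (j : Fin 4) : |O.p t j| ≤ 10 := by
  rw [abs_le]
  obtain ⟨k, hk | hk⟩ := Nat.even_or_odd' t
  · subst hk
    obtain ⟨⟨a1, a2⟩, ⟨a3, a4⟩, ⟨a5, a6⟩, ⟨a7, a8⟩, -, -, -⟩ := O.even k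
    fin_cases j <;> simp only [Fin.zero_eta, Fin.isValue, Fin.mk_one, Fin.reduceFinMk] <;>
      constructor <;> linarith
  · subst hk
    obtain ⟨⟨a1, a2⟩, ⟨a3, a4⟩, ⟨a5, a6⟩, ⟨a7, a8⟩, -, -, -⟩ := O.odd k
    fin_cases j <;> simp only [Fin.zero_eta, Fin.isValue, Fin.mk_one, Fin.reduceFinMk] <;>
      constructor <;> linarith

theorem h_bd (O : BackOrbit) (t : ℕ) (j : Fin 3) : |O.h t j| ≤ 10 := by
  rw [abs_le]
  have h0 := h_lo O t
  have h1 := h_mid O t
  have h2 := h_hi O t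
  fin_cases j <;> simp only [Fin.zero_eta, Fin.isValue, Fin.mk_one, Fin.reduceFinMk] <;>
      constructor <;> linarith [h0.1, h0.2, h1.1, h1.2, h2.1, h2.2]

theorem abs_sub_le20 {z r : ℝ} (hz : |z| ≤ 10) (hr : |r| ≤ 10) : |z - r| ≤ 20 := by
  rw [abs_le] at *
  constructor <;> linarith [hz.1, hz.2, hr.1, hr.2]

theorem Pi8_abs_le {z : ℝ} (hz : |z| ≤ 10) : |Pi8 z| ≤ 20 ^ 8 := by
  have e : Pi8 z = ∏ i, (z - nd i) := by
    simp [Fin.prod_univ_succ, nd, Pi8]; ring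
  rw [e, Finset.abs_prod]
  have hb : ∀ i : Fin 8, |z - nd i| ≤ 20 := by
    intro i
    refine abs_sub_le20 hz ?_
    fin_cases i <;> simp [nd, abs_le] <;> norm_num
  calc ∏ i, |z - nd i| ≤ ∏ _i : Fin 8, (20 : ℝ) :=
        Finset.prod_le_prod (fun i _ => abs_nonneg _) (fun i _ => hb i)
    _ = 20 ^ 8 := by simp

theorem C3_abs_ge {h : Fin 3 → ℝ} {z d : ℝ} (hd : 0 ≤ d) (H : ∀ i, d ≤ |z - h i|) :
    d ^ 3 ≤ |C3 h z| := by
  unfold C3
  rw [abs_mul, abs_mul]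
  have h01 : d * d ≤ |z - h 0| * |z - h 1| := mul_le_mul (H 0) (H 1) hd (abs_nonneg _)
  calc d ^ 3 = d * d * d := by ring
    _ ≤ |z - h 0| * |z - h 1| * |z - h 2| :=
      mul_le_mul h01 (H 2) hd (mul_nonneg (abs_nonneg _) (abs_nonneg _))

theorem Q4_abs_ge {p : Fin 4 → ℝ} {z d : ℝ} (hd : 0 ≤ d) (j : Fin 4)
    (H : ∀ i, i ≠ j → d ≤ |z - p i|) :
    d ^ 3 * |z - p j| ≤ |Q4 p z| := by
  have key : ∀ a b c e : ℝ, d ≤ |a| → d ≤ |b| → d ≤ |c| → d ^ 3 * |e| ≤ |a * b * c * e| := by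
    intro a b c e ha hb hc
    rw [abs_mul, abs_mul, abs_mul]
    refine mul_le_mul_of_nonneg_right ?_ (abs_nonneg _)
    have h01 : d * d ≤ |a| * |b| := mul_le_mul ha hb hd (abs_nonneg _)
    calc d ^ 3 = d * d * d := by ring
      _ ≤ |a| * |b| * |c| := mul_le_mul h01 hc hd (mul_nonneg (abs_nonneg _) (abs_nonneg _))
  fin_cases j
  · have := key (z - p 1) (z - p 2) (z - p 3) (z - p 0) (H 1 (by decide)) (H 2 (by decide))
      (H 3 (by decide))
    have e : Q4 p z = (z - p 1) * (z - p 2) * (z - p 3) * (z - p 0) := by unfold Q4; ring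
    rw [e]; exact this
  · have := key (z - p 0) (z - p 2) (z - p 3) (z - p 1) (H 0 (by decide)) (H 2 (by decide))
      (H 3 (by decide))
    have e : Q4 p z = (z - p 0) * (z - p 2) * (z - p 3) * (z - p 1) := by unfold Q4; ring
    rw [e]; exact this
  · have := key (z - p 0) (z - p 1) (z - p 3) (z - p 2) (H 0 (by decide)) (H 1 (by decide))
      (H 3 (by decide))
    have e : Q4 p z = (z - p 0) * (z - p 1) * (z - p 3) * (z - p 2) := by unfold Q4; ring
    rw [e]; exact this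
  · have := key (z - p 0) (z - p 1) (z - p 2) (z - p 3) (H 0 (by decide)) (H 1 (by decide))
      (H 2 (by decide))
    have e : Q4 p z = (z - p 0) * (z - p 1) * (z - p 2) * (z - p 3) := by unfold Q4; ring
    rw [e]; exact this

/-- drift estimate (D): if the roots of `P_t` keep distance `d` from the nodes -/
theorem drift (O : BackOrbit) (t : ℕ) {d : ℝ} (hd : 0 < d)
    (hdist : ∀ j i, d ≤ |O.p t j - nd i|) (j : Fin 4) :
    O.sg t * d ^ 9 * |O.p (t + 2) j - O.p t j| ≤ 20 ^ 8 * 400 * (O.sg t - O.sg (t + 1)) := by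
  obtain ⟨H1, H2, H3⟩ := sep_orbit O t hdist
  set z := O.p t j with hz
  have hzb : |z| ≤ 10 := p_bd O t j
  have hP0 : Q4 (O.p t) z = 0 := by
    unfold Q4
    fin_cases j <;> simp [hz]
  have hT := identT' O t z
  rw [hP0, mul_zero, sub_zero] at hT
  have hsg := O.sg_pos t
  have c1 : d ^ 3 ≤ |C3 (O.h t) z| := C3_abs_ge hd.le (H1 j)
  have c2 : d ^ 3 ≤ |C3 (O.h (t + 2)) z| := C3_abs_ge hd.le (H2 j)
  have c3 : d ^ 3 * |z - O.p (t + 2) j| ≤ |Q4 (O.p (t + 2)) z| := Q4_abs_ge hd.le j (H3 j)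
  have hlow : O.sg t * d ^ 9 * |z - O.p (t + 2) j| ≤
      |O.sg t * C3 (O.h t) z * C3 (O.h (t + 2)) z * Q4 (O.p (t + 2)) z| := by
    rw [abs_mul, abs_mul, abs_mul, abs_of_pos hsg]
    have d3 : 0 ≤ d ^ 3 := by positivity
    have e1 : O.sg t * d ^ 3 ≤ O.sg t * |C3 (O.h t) z| := mul_le_mul_of_nonneg_left c1 hsg.le
    have e2 : O.sg t * d ^ 3 * d ^ 3 ≤ O.sg t * |C3 (O.h t) z| * |C3 (O.h (t + 2)) z| :=
      mul_le_mul e1 c2 d3 (by positivity)
    calc O.sg t * d ^ 9 * |z - O.p (t + 2) j|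
        = O.sg t * d ^ 3 * d ^ 3 * (d ^ 3 * |z - O.p (t + 2) j|) := by ring
      _ ≤ _ := mul_le_mul e2 c3 (by positivity) (by positivity)
  have hup : |Pi8 z * (O.tx t * ((z - O.h t 1) * (z - O.h t 2))
        + O.te t * ((z - O.h t 0) * (z - O.h t 2))
        + O.ty t * ((z - O.h t 0) * (z - O.h t 1)))|
      ≤ 20 ^ 8 * (400 * (O.sg t - O.sg (t + 1))) := by
    rw [abs_mul]
    refine mul_le_mul (Pi8_abs_le hzb) ?_ (abs_nonneg _) (by norm_num)
    have f0 := abs_sub_le20 hzb (h_bd O t 0)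
    have f1 := abs_sub_le20 hzb (h_bd O t 1)
    have f2 := abs_sub_le20 hzb (h_bd O t 2)
    have g : ∀ a b : ℝ, |a| ≤ 20 → |b| ≤ 20 → |a * b| ≤ 400 := by
      intro a b ha hb
      rw [abs_mul]
      calc |a| * |b| ≤ 20 * 20 := mul_le_mul ha hb (abs_nonneg _) (by norm_num)
        _ = 400 := by norm_num
    have k1 := tx_nonneg O t
    have k2 := te_nonneg O t
    have k3 := ty_nonneg O t
    have m1 : |O.tx t * ((z - O.h t 1) * (z - O.h t 2))| ≤ O.tx t * 400 := by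
      rw [abs_mul, abs_of_nonneg k1]; exact mul_le_mul_of_nonneg_left (g _ _ f1 f2) k1
    have m2 : |O.te t * ((z - O.h t 0) * (z - O.h t 2))| ≤ O.te t * 400 := by
      rw [abs_mul, abs_of_nonneg k2]; exact mul_le_mul_of_nonneg_left (g _ _ f0 f2) k2
    have m3 : |O.ty t * ((z - O.h t 0) * (z - O.h t 1))| ≤ O.ty t * 400 := by
      rw [abs_mul, abs_of_nonneg k3]; exact mul_le_mul_of_nonneg_left (g _ _ f0 f1) k3
    have hs := t_sum O t
    calc _ ≤ |O.tx t * ((z - O.h t 1) * (z - O.h t 2))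
          + O.te t * ((z - O.h t 0) * (z - O.h t 2))|
          + |O.ty t * ((z - O.h t 0) * (z - O.h t 1))| := abs_add_le _ _
      _ ≤ |O.tx t * ((z - O.h t 1) * (z - O.h t 2))|
          + |O.te t * ((z - O.h t 0) * (z - O.h t 2))|
          + |O.ty t * ((z - O.h t 0) * (z - O.h t 1))| := by
            gcongr; exact abs_add_le _ _
      _ ≤ 400 * (O.sg t - O.sg (t + 1)) := by linarith
  rw [abs_sub_comm (O.p (t + 2) j) z]
  calc O.sg t * d ^ 9 * |z - O.p (t + 2) j|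
      ≤ |O.sg t * C3 (O.h t) z * C3 (O.h (t + 2)) z * Q4 (O.p (t + 2)) z| := hlow
    _ = _ := by rw [hT]
    _ ≤ _ := hup
    _ = 20 ^ 8 * 400 * (O.sg t - O.sg (t + 1)) := by ring

/-- `σ²` is non-increasing in growth time -/
theorem sg_anti (O : BackOrbit) (t : ℕ) : O.sg (t + 1) ≤ O.sg t := by
  have h := t_sum O t
  linarith [tx_nonneg O t, te_nonneg O t, ty_nonneg O t]

end Pool.Agent.Hhelper30.Forsythe


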