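import Pool.Agent.Hhelper30.Forsythe.Defs

/-! Module B: compactness: from backward-orbit segments to an infinite forward orbit. -/

set_option autoImplicit false

namespace Pool.Agent.Hhelper30.Forsythe

open Filter Topology Set

/-! ### Lagrange sums and signs -/

theorem dPi8_0 : dPi8 0 = -8736000 := by
  have : (Finset.univ.erase (0 : Fin 8)) = {1, 2, 3, 4, 5, 6, 7} := by decide
  rw [dPi8, this]
  simp [nd]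
  norm_num

theorem dPi8_1 : dPi8 1 = 228096 := by
  have : (Finset.univ.erase (1 : Fin 8)) = {0, 2, 3, 4, 5, 6, 7} := by decide
  rw [dPi8, this]
  simp [nd]
  norm_num

theorem dPi8_2 : dPi8 2 = -132000 := by
  have : (Finset.univ.erase (2 : Fin 8)) = {0, 1, 3, 4, 5, 6, 7} := by decide
  rw [dPi8, this]
  simp [nd]
  norm_num

theorem dPi8_3 : dPi8 3 = 235872 := by
  have : (Finset.univ.erase (3 : Fin 8)) = {0, 1, 2, 4, 5, 6, 7} := by decide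
  rw [dPi8, this]
  simp [nd]
  norm_num

theorem dPi8_4 : dPi8 4 = -235872 := by
  have : (Finset.univ.erase (4 : Fin 8)) = {0, 1, 2, 3, 5, 6, 7} := by decide
  rw [dPi8, this]
  simp [nd]
  norm_num

theorem dPi8_5 : dPi8 5 = 132000 := by
  have : (Finset.univ.erase (5 : Fin 8)) = {0, 1, 2, 3, 4, 6, 7} := by decide
  rw [dPi8, this]
  simp [nd]
  norm_num

theorem dPi8_6 : dPi8 6 = -228096 := by
  have : (Finset.univ.erase (6 : Fin 8)) = {0, 1, 2, 3, 4, 5, 7} := by decide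
  rw [dPi8, this]
  simp [nd]
  norm_num

theorem dPi8_7 : dPi8 7 = 8736000 := by
  have : (Finset.univ.erase (7 : Fin 8)) = {0, 1, 2, 3, 4, 5, 6} := by decide
  rw [dPi8, this]
  simp [nd]
  norm_num

theorem nd_0 : nd 0 = -10 := by simp [nd]

theorem nd_1 : nd 1 = -6 := by simp [nd]

theorem nd_2 : nd 2 = -5 := by simp [nd]

theorem nd_3 : nd 3 = -3 := by simp [nd]

theorem nd_4 : nd 4 = 3 := by simp [nd]

theorem nd_5 : nd 5 = 5 := by simp [nd]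

theorem nd_6 : nd 6 = 6 := by simp [nd]

theorem nd_7 : nd 7 = 10 := by simp [nd]

theorem w_pos_even_0 (p : Fin 4 → ℝ) (h : Fin 3 → ℝ) (g : EvenGap p h) :
    0 < Q4 p (nd 0) * C3 h (nd 0) / dPi8 0 := by
  obtain ⟨⟨a1, b1⟩, ⟨a2, b2⟩, ⟨a3, b3⟩, ⟨a4, b4⟩, ⟨a5, b5⟩, ⟨a6, b6⟩, ⟨a7, b7⟩⟩ := g
  have e : Q4 p (nd 0) * C3 h (nd 0) / dPi8 0
      = (p 0 - ((-10):ℝ)) * (p 1 - ((-10):ℝ)) * (p 2 - ((-10):ℝ)) * (p 3 - ((-10):ℝ)) * (h 0 - ((-10):ℝ)) * (h 1 - ((-10):ℝ)) * (h 2 - ((-10):ℝ)) / 8736000 := by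
    rw [dPi8_0, nd_0, Q4, C3]
    ring
  rw [e]
  refine div_pos (mul_pos (mul_pos (mul_pos (mul_pos (mul_pos (mul_pos ?_ ?_) ?_) ?_) ?_) ?_) ?_) (by norm_num) <;> linarith

theorem w_pos_even_1 (p : Fin 4 → ℝ) (h : Fin 3 → ℝ) (g : EvenGap p h) :
    0 < Q4 p (nd 1) * C3 h (nd 1) / dPi8 1 := by
  obtain ⟨⟨a1, b1⟩, ⟨a2, b2⟩, ⟨a3, b3⟩, ⟨a4, b4⟩, ⟨a5, b5⟩, ⟨a6, b6⟩, ⟨a7, b7⟩⟩ := g
  have e : Q4 p (nd 1) * C3 h (nd 1) / dPi8 1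
      = (p 0 - ((-6):ℝ)) * (p 1 - ((-6):ℝ)) * (p 2 - ((-6):ℝ)) * (p 3 - ((-6):ℝ)) * (((-6):ℝ) - h 0) * (h 1 - ((-6):ℝ)) * (h 2 - ((-6):ℝ)) / 228096 := by
    rw [dPi8_1, nd_1, Q4, C3]
    ring
  rw [e]
  refine div_pos (mul_pos (mul_pos (mul_pos (mul_pos (mul_pos (mul_pos ?_ ?_) ?_) ?_) ?_) ?_) ?_) (by norm_num) <;> linarith

theorem w_pos_even_2 (p : Fin 4 → ℝ) (h : Fin 3 → ℝ) (g : EvenGap p h) :
    0 < Q4 p (nd 2) * C3 h (nd 2) / dPi8 2 := by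
  obtain ⟨⟨a1, b1⟩, ⟨a2, b2⟩, ⟨a3, b3⟩, ⟨a4, b4⟩, ⟨a5, b5⟩, ⟨a6, b6⟩, ⟨a7, b7⟩⟩ := g
  have e : Q4 p (nd 2) * C3 h (nd 2) / dPi8 2
      = (((-5):ℝ) - p 0) * (p 1 - ((-5):ℝ)) * (p 2 - ((-5):ℝ)) * (p 3 - ((-5):ℝ)) * (((-5):ℝ) - h 0) * (h 1 - ((-5):ℝ)) * (h 2 - ((-5):ℝ)) / 132000 := by
    rw [dPi8_2, nd_2, Q4, C3]
    ring
  rw [e]
  refine div_pos (mul_pos (mul_pos (mul_pos (mul_pos (mul_pos (mul_pos ?_ ?_) ?_) ?_) ?_) ?_) ?_) (by norm_num) <;> linarith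

theorem w_pos_even_3 (p : Fin 4 → ℝ) (h : Fin 3 → ℝ) (g : EvenGap p h) :
    0 < Q4 p (nd 3) * C3 h (nd 3) / dPi8 3 := by
  obtain ⟨⟨a1, b1⟩, ⟨a2, b2⟩, ⟨a3, b3⟩, ⟨a4, b4⟩, ⟨a5, b5⟩, ⟨a6, b6⟩, ⟨a7, b7⟩⟩ := g
  have e : Q4 p (nd 3) * C3 h (nd 3) / dPi8 3
      = (((-3):ℝ) - p 0) * (((-3):ℝ) - p 1) * (p 2 - ((-3):ℝ)) * (p 3 - ((-3):ℝ)) * (((-3):ℝ) - h 0) * (h 1 - ((-3):ℝ)) * (h 2 - ((-3):ℝ)) / 235872 := by
    rw [dPi8_3, nd_3, Q4, C3]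
    ring
  rw [e]
  refine div_pos (mul_pos (mul_pos (mul_pos (mul_pos (mul_pos (mul_pos ?_ ?_) ?_) ?_) ?_) ?_) ?_) (by norm_num) <;> linarith

theorem w_pos_even_4 (p : Fin 4 → ℝ) (h : Fin 3 → ℝ) (g : EvenGap p h) :
    0 < Q4 p (nd 4) * C3 h (nd 4) / dPi8 4 := by
  obtain ⟨⟨a1, b1⟩, ⟨a2, b2⟩, ⟨a3, b3⟩, ⟨a4, b4⟩, ⟨a5, b5⟩, ⟨a6, b6⟩, ⟨a7, b7⟩⟩ := g
  have e : Q4 p (nd 4) * C3 h (nd 4) / dPi8 4
      = ((3:ℝ) - p 0) * ((3:ℝ) - p 1) * (p 2 - (3:ℝ)) * (p 3 - (3:ℝ)) * ((3:ℝ) - h 0) * ((3:ℝ) - h 1) * (h 2 - (3:ℝ)) / 235872 := by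
    rw [dPi8_4, nd_4, Q4, C3]
    ring
  rw [e]
  refine div_pos (mul_pos (mul_pos (mul_pos (mul_pos (mul_pos (mul_pos ?_ ?_) ?_) ?_) ?_) ?_) ?_) (by norm_num) <;> linarith

theorem w_pos_even_5 (p : Fin 4 → ℝ) (h : Fin 3 → ℝ) (g : EvenGap p h) :
    0 < Q4 p (nd 5) * C3 h (nd 5) / dPi8 5 := by
  obtain ⟨⟨a1, b1⟩, ⟨a2, b2⟩, ⟨a3, b3⟩, ⟨a4, b4⟩, ⟨a5, b5⟩, ⟨a6, b6⟩, ⟨a7, b7⟩⟩ := g
  have e : Q4 p (nd 5) * C3 h (nd 5) / dPi8 5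
      = ((5:ℝ) - p 0) * ((5:ℝ) - p 1) * ((5:ℝ) - p 2) * (p 3 - (5:ℝ)) * ((5:ℝ) - h 0) * ((5:ℝ) - h 1) * (h 2 - (5:ℝ)) / 132000 := by
    rw [dPi8_5, nd_5, Q4, C3]
    ring
  rw [e]
  refine div_pos (mul_pos (mul_pos (mul_pos (mul_pos (mul_pos (mul_pos ?_ ?_) ?_) ?_) ?_) ?_) ?_) (by norm_num) <;> linarith

theorem w_pos_even_6 (p : Fin 4 → ℝ) (h : Fin 3 → ℝ) (g : EvenGap p h) :
    0 < Q4 p (nd 6) * C3 h (nd 6) / dPi8 6 := by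
  obtain ⟨⟨a1, b1⟩, ⟨a2, b2⟩, ⟨a3, b3⟩, ⟨a4, b4⟩, ⟨a5, b5⟩, ⟨a6, b6⟩, ⟨a7, b7⟩⟩ := g
  have e : Q4 p (nd 6) * C3 h (nd 6) / dPi8 6
      = ((6:ℝ) - p 0) * ((6:ℝ) - p 1) * ((6:ℝ) - p 2) * (p 3 - (6:ℝ)) * ((6:ℝ) - h 0) * ((6:ℝ) - h 1) * ((6:ℝ) - h 2) / 228096 := by
    rw [dPi8_6, nd_6, Q4, C3]
    ring
  rw [e]
  refine div_pos (mul_pos (mul_pos (mul_pos (mul_pos (mul_pos (mul_pos ?_ ?_) ?_) ?_) ?_) ?_) ?_) (by norm_num) <;> linarith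

theorem w_pos_even_7 (p : Fin 4 → ℝ) (h : Fin 3 → ℝ) (g : EvenGap p h) :
    0 < Q4 p (nd 7) * C3 h (nd 7) / dPi8 7 := by
  obtain ⟨⟨a1, b1⟩, ⟨a2, b2⟩, ⟨a3, b3⟩, ⟨a4, b4⟩, ⟨a5, b5⟩, ⟨a6, b6⟩, ⟨a7, b7⟩⟩ := g
  have e : Q4 p (nd 7) * C3 h (nd 7) / dPi8 7
      = ((10:ℝ) - p 0) * ((10:ℝ) - p 1) * ((10:ℝ) - p 2) * ((10:ℝ) - p 3) * ((10:ℝ) - h 0) * ((10:ℝ) - h 1) * ((10:ℝ) - h 2) / 8736000 := by
    rw [dPi8_7, nd_7, Q4, C3]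
    ring
  rw [e]
  refine div_pos (mul_pos (mul_pos (mul_pos (mul_pos (mul_pos (mul_pos ?_ ?_) ?_) ?_) ?_) ?_) ?_) (by norm_num) <;> linarith

theorem w_pos_odd_0 (p : Fin 4 → ℝ) (h : Fin 3 → ℝ) (g : OddGap p h) :
    0 < Q4 p (nd 0) * C3 h (nd 0) / dPi8 0 := by
  obtain ⟨⟨a1, b1⟩, ⟨a2, b2⟩, ⟨a3, b3⟩, ⟨a4, b4⟩, ⟨a5, b5⟩, ⟨a6, b6⟩, ⟨a7, b7⟩⟩ := g
  have e : Q4 p (nd 0) * C3 h (nd 0) / dPi8 0
      = (p 0 - ((-10):ℝ)) * (p 1 - ((-10):ℝ)) * (p 2 - ((-10):ℝ)) * (p 3 - ((-10):ℝ)) * (h 0 - ((-10):ℝ)) * (h 1 - ((-10):ℝ)) * (h 2 - ((-10):ℝ)) / 8736000 := by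
    rw [dPi8_0, nd_0, Q4, C3]
    ring
  rw [e]
  refine div_pos (mul_pos (mul_pos (mul_pos (mul_pos (mul_pos (mul_pos ?_ ?_) ?_) ?_) ?_) ?_) ?_) (by norm_num) <;> linarith

theorem w_pos_odd_1 (p : Fin 4 → ℝ) (h : Fin 3 → ℝ) (g : OddGap p h) :
    0 < Q4 p (nd 1) * C3 h (nd 1) / dPi8 1 := by
  obtain ⟨⟨a1, b1⟩, ⟨a2, b2⟩, ⟨a3, b3⟩, ⟨a4, b4⟩, ⟨a5, b5⟩, ⟨a6, b6⟩, ⟨a7, b7⟩⟩ := g
  have e : Q4 p (nd 1) * C3 h (nd 1) / dPi8 1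
      = (((-6):ℝ) - p 0) * (p 1 - ((-6):ℝ)) * (p 2 - ((-6):ℝ)) * (p 3 - ((-6):ℝ)) * (h 0 - ((-6):ℝ)) * (h 1 - ((-6):ℝ)) * (h 2 - ((-6):ℝ)) / 228096 := by
    rw [dPi8_1, nd_1, Q4, C3]
    ring
  rw [e]
  refine div_pos (mul_pos (mul_pos (mul_pos (mul_pos (mul_pos (mul_pos ?_ ?_) ?_) ?_) ?_) ?_) ?_) (by norm_num) <;> linarith

theorem w_pos_odd_2 (p : Fin 4 → ℝ) (h : Fin 3 → ℝ) (g : OddGap p h) :
    0 < Q4 p (nd 2) * C3 h (nd 2) / dPi8 2 := by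
  obtain ⟨⟨a1, b1⟩, ⟨a2, b2⟩, ⟨a3, b3⟩, ⟨a4, b4⟩, ⟨a5, b5⟩, ⟨a6, b6⟩, ⟨a7, b7⟩⟩ := g
  have e : Q4 p (nd 2) * C3 h (nd 2) / dPi8 2
      = (((-5):ℝ) - p 0) * (p 1 - ((-5):ℝ)) * (p 2 - ((-5):ℝ)) * (p 3 - ((-5):ℝ)) * (((-5):ℝ) - h 0) * (h 1 - ((-5):ℝ)) * (h 2 - ((-5):ℝ)) / 132000 := by
    rw [dPi8_2, nd_2, Q4, C3]
    ring
  rw [e]
  refine div_pos (mul_pos (mul_pos (mul_pos (mul_pos (mul_pos (mul_pos ?_ ?_) ?_) ?_) ?_) ?_) ?_) (by norm_num) <;> linarith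

theorem w_pos_odd_3 (p : Fin 4 → ℝ) (h : Fin 3 → ℝ) (g : OddGap p h) :
    0 < Q4 p (nd 3) * C3 h (nd 3) / dPi8 3 := by
  obtain ⟨⟨a1, b1⟩, ⟨a2, b2⟩, ⟨a3, b3⟩, ⟨a4, b4⟩, ⟨a5, b5⟩, ⟨a6, b6⟩, ⟨a7, b7⟩⟩ := g
  have e : Q4 p (nd 3) * C3 h (nd 3) / dPi8 3
      = (((-3):ℝ) - p 0) * (((-3):ℝ) - p 1) * (p 2 - ((-3):ℝ)) * (p 3 - ((-3):ℝ)) * (((-3):ℝ) - h 0) * (h 1 - ((-3):ℝ)) * (h 2 - ((-3):ℝ)) / 235872 := by
    rw [dPi8_3, nd_3, Q4, C3]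
    ring
  rw [e]
  refine div_pos (mul_pos (mul_pos (mul_pos (mul_pos (mul_pos (mul_pos ?_ ?_) ?_) ?_) ?_) ?_) ?_) (by norm_num) <;> linarith

theorem w_pos_odd_4 (p : Fin 4 → ℝ) (h : Fin 3 → ℝ) (g : OddGap p h) :
    0 < Q4 p (nd 4) * C3 h (nd 4) / dPi8 4 := by
  obtain ⟨⟨a1, b1⟩, ⟨a2, b2⟩, ⟨a3, b3⟩, ⟨a4, b4⟩, ⟨a5, b5⟩, ⟨a6, b6⟩, ⟨a7, b7⟩⟩ := g
  have e : Q4 p (nd 4) * C3 h (nd 4) / dPi8 4
      = ((3:ℝ) - p 0) * ((3:ℝ) - p 1) * (p 2 - (3:ℝ)) * (p 3 - (3:ℝ)) * ((3:ℝ) - h 0) * ((3:ℝ) - h 1) * (h 2 - (3:ℝ)) / 235872 := by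
    rw [dPi8_4, nd_4, Q4, C3]
    ring
  rw [e]
  refine div_pos (mul_pos (mul_pos (mul_pos (mul_pos (mul_pos (mul_pos ?_ ?_) ?_) ?_) ?_) ?_) ?_) (by norm_num) <;> linarith

theorem w_pos_odd_5 (p : Fin 4 → ℝ) (h : Fin 3 → ℝ) (g : OddGap p h) :
    0 < Q4 p (nd 5) * C3 h (nd 5) / dPi8 5 := by
  obtain ⟨⟨a1, b1⟩, ⟨a2, b2⟩, ⟨a3, b3⟩, ⟨a4, b4⟩, ⟨a5, b5⟩, ⟨a6, b6⟩, ⟨a7, b7⟩⟩ := g
  have e : Q4 p (nd 5) * C3 h (nd 5) / dPi8 5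
      = ((5:ℝ) - p 0) * ((5:ℝ) - p 1) * ((5:ℝ) - p 2) * (p 3 - (5:ℝ)) * ((5:ℝ) - h 0) * ((5:ℝ) - h 1) * (h 2 - (5:ℝ)) / 132000 := by
    rw [dPi8_5, nd_5, Q4, C3]
    ring
  rw [e]
  refine div_pos (mul_pos (mul_pos (mul_pos (mul_pos (mul_pos (mul_pos ?_ ?_) ?_) ?_) ?_) ?_) ?_) (by norm_num) <;> linarith

theorem w_pos_odd_6 (p : Fin 4 → ℝ) (h : Fin 3 → ℝ) (g : OddGap p h) :
    0 < Q4 p (nd 6) * C3 h (nd 6) / dPi8 6 := by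
  obtain ⟨⟨a1, b1⟩, ⟨a2, b2⟩, ⟨a3, b3⟩, ⟨a4, b4⟩, ⟨a5, b5⟩, ⟨a6, b6⟩, ⟨a7, b7⟩⟩ := g
  have e : Q4 p (nd 6) * C3 h (nd 6) / dPi8 6
      = ((6:ℝ) - p 0) * ((6:ℝ) - p 1) * ((6:ℝ) - p 2) * ((6:ℝ) - p 3) * ((6:ℝ) - h 0) * ((6:ℝ) - h 1) * (h 2 - (6:ℝ)) / 228096 := by
    rw [dPi8_6, nd_6, Q4, C3]
    ring
  rw [e]
  refine div_pos (mul_pos (mul_pos (mul_pos (mul_pos (mul_pos (mul_pos ?_ ?_) ?_) ?_) ?_) ?_) ?_) (by norm_num) <;> linarith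

theorem w_pos_odd_7 (p : Fin 4 → ℝ) (h : Fin 3 → ℝ) (g : OddGap p h) :
    0 < Q4 p (nd 7) * C3 h (nd 7) / dPi8 7 := by
  obtain ⟨⟨a1, b1⟩, ⟨a2, b2⟩, ⟨a3, b3⟩, ⟨a4, b4⟩, ⟨a5, b5⟩, ⟨a6, b6⟩, ⟨a7, b7⟩⟩ := g
  have e : Q4 p (nd 7) * C3 h (nd 7) / dPi8 7
      = ((10:ℝ) - p 0) * ((10:ℝ) - p 1) * ((10:ℝ) - p 2) * ((10:ℝ) - p 3) * ((10:ℝ) - h 0) * ((10:ℝ) - h 1) * ((10:ℝ) - h 2) / 8736000 := by
    rw [dPi8_7, nd_7, Q4, C3]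
    ring
  rw [e]
  refine div_pos (mul_pos (mul_pos (mul_pos (mul_pos (mul_pos (mul_pos ?_ ?_) ?_) ?_) ?_) ?_) ?_) (by norm_num) <;> linarith


theorem sum_QC (p : Fin 4 → ℝ) (h : Fin 3 → ℝ) :
    ∑ i, Q4 p (nd i) * C3 h (nd i) / dPi8 i = 1 := by
  rw [Fin.sum_univ_eight, dPi8_0, dPi8_1, dPi8_2, dPi8_3, dPi8_4, dPi8_5, dPi8_6, dPi8_7,
    nd_0, nd_1, nd_2, nd_3, nd_4, nd_5, nd_6, nd_7]
  simp only [Q4, C3]
  ring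

theorem sum_C (h : Fin 3 → ℝ) (j : Fin 4) :
    ∑ i, C3 h (nd i) * nd i ^ (j : ℕ) / dPi8 i = 0 := by
  rw [Fin.sum_univ_eight, dPi8_0, dPi8_1, dPi8_2, dPi8_3, dPi8_4, dPi8_5, dPi8_6, dPi8_7,
    nd_0, nd_1, nd_2, nd_3, nd_4, nd_5, nd_6, nd_7]
  simp only [C3]
  fin_cases j <;> (simp only [Fin.val_zero, Fin.val_one, Fin.reduceFinMk, Fin.val_two]; ring)


theorem BackOrbit.w_sum (O : BackOrbit) (t : ℕ) : ∑ i, O.w t i = 1 := sum_QC _ _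

theorem BackOrbit.w_pos (O : BackOrbit) (t : ℕ) (i : Fin 8) : 0 < O.w t i := by
  rcases Nat.even_or_odd' t with ⟨k, rfl | rfl⟩
  · have g := O.even k
    unfold BackOrbit.w
    fin_cases i
    exacts [w_pos_even_0 _ _ g, w_pos_even_1 _ _ g, w_pos_even_2 _ _ g, w_pos_even_3 _ _ g,
      w_pos_even_4 _ _ g, w_pos_even_5 _ _ g, w_pos_even_6 _ _ g, w_pos_even_7 _ _ g]
  · have g := O.odd k
    unfold BackOrbit.w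
    fin_cases i
    exacts [w_pos_odd_0 _ _ g, w_pos_odd_1 _ _ g, w_pos_odd_2 _ _ g, w_pos_odd_3 _ _ g,
      w_pos_odd_4 _ _ g, w_pos_odd_5 _ _ g, w_pos_odd_6 _ _ g, w_pos_odd_7 _ _ g]

theorem BackOrbit.w_le_one (O : BackOrbit) (t : ℕ) (i : Fin 8) : O.w t i ≤ 1 := by
  rw [← O.w_sum t]
  exact Finset.single_le_sum (f := fun i => O.w t i) (fun j _ => (O.w_pos t j).le)
    (Finset.mem_univ i)

theorem BackOrbit.p_bd (O : BackOrbit) (t : ℕ) (j : Fin 4) : O.p t j ∈ Icc (-10 : ℝ) 10 := by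
  rcases Nat.even_or_odd' t with ⟨k, rfl | rfl⟩
  · obtain ⟨⟨a1, b1⟩, ⟨a2, b2⟩, ⟨a3, b3⟩, ⟨a4, b4⟩, -, -, -⟩ := O.even k
    fin_cases j
    · exact ⟨by show (-10 : ℝ) ≤ O.p (2 * k) 0; linarith, by show O.p (2 * k) 0 ≤ 10; linarith⟩
    · exact ⟨by show (-10 : ℝ) ≤ O.p (2 * k) 1; linarith, by show O.p (2 * k) 1 ≤ 10; linarith⟩
    · exact ⟨by show (-10 : ℝ) ≤ O.p (2 * k) 2; linarith, by show O.p (2 * k) 2 ≤ 10; linarith⟩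
    · exact ⟨by show (-10 : ℝ) ≤ O.p (2 * k) 3; linarith, by show O.p (2 * k) 3 ≤ 10; linarith⟩
  · obtain ⟨⟨a1, b1⟩, ⟨a2, b2⟩, ⟨a3, b3⟩, ⟨a4, b4⟩, -, -, -⟩ := O.odd k
    fin_cases j
    · exact ⟨by show (-10 : ℝ) ≤ O.p (2 * k + 1) 0; linarith,
        by show O.p (2 * k + 1) 0 ≤ 10; linarith⟩
    · exact ⟨by show (-10 : ℝ) ≤ O.p (2 * k + 1) 1; linarith,
        by show O.p (2 * k + 1) 1 ≤ 10; linarith⟩
    · exact ⟨by show (-10 : ℝ) ≤ O.p (2 * k + 1) 2; linarith,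
        by show O.p (2 * k + 1) 2 ≤ 10; linarith⟩
    · exact ⟨by show (-10 : ℝ) ≤ O.p (2 * k + 1) 3; linarith,
        by show O.p (2 * k + 1) 3 ≤ 10; linarith⟩

theorem nd_bd (i : Fin 8) : |nd i| ≤ 10 := by
  fin_cases i <;> norm_num [nd, abs_le]

theorem BackOrbit.upd (O : BackOrbit) (t : ℕ) (i : Fin 8) :
    O.w t i * O.sg t = O.w (t + 1) i * Q4 (O.p t) (nd i) ^ 2 := by
  have h := O.rel t i
  unfold BackOrbit.w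
  rw [div_mul_eq_mul_div, div_mul_eq_mul_div]
  congr 1
  calc Q4 (O.p t) (nd i) * C3 (O.h t) (nd i) * O.sg t
      = Q4 (O.p t) (nd i) * (O.sg t * C3 (O.h t) (nd i)) := by ring
    _ = _ := by rw [← h]; ring

theorem BackOrbit.orth (O : BackOrbit) (t : ℕ) (j : Fin 4) :
    ∑ i, O.w (t + 1) i * Q4 (O.p t) (nd i) * nd i ^ (j : ℕ) = 0 := by
  have : ∀ i, O.w (t + 1) i * Q4 (O.p t) (nd i) * nd i ^ (j : ℕ)
      = O.sg t * (C3 (O.h t) (nd i) * nd i ^ (j : ℕ) / dPi8 i) := by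
    intro i
    have h := O.rel t i
    unfold BackOrbit.w
    calc Q4 (O.p (t + 1)) (nd i) * C3 (O.h (t + 1)) (nd i) / dPi8 i * Q4 (O.p t) (nd i)
          * nd i ^ (j : ℕ)
        = (Q4 (O.p t) (nd i) * Q4 (O.p (t + 1)) (nd i) * C3 (O.h (t + 1)) (nd i))
          * nd i ^ (j : ℕ) / dPi8 i := by ring
      _ = _ := by rw [h]; ring
  rw [Finset.sum_congr rfl (fun i _ => this i), ← Finset.mul_sum, sum_C, mul_zero]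

theorem Q4_bd (O : BackOrbit) (t : ℕ) (i : Fin 8) : |Q4 (O.p t) (nd i)| ≤ 20 ^ 4 := by
  have h : ∀ j, |nd i - O.p t j| ≤ 20 := by
    intro j
    have h1 := nd_bd i
    have h2 := O.p_bd t j
    rw [abs_le] at h1 ⊢
    exact ⟨by linarith [h1.1, h2.2], by linarith [h1.2, h2.1]⟩
  unfold Q4
  rw [abs_mul, abs_mul, abs_mul]
  calc |nd i - O.p t 0| * |nd i - O.p t 1| * |nd i - O.p t 2| * |nd i - O.p t 3|
      ≤ 20 * 20 * 20 * 20 := by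
        gcongr <;> exact h _
    _ = 20 ^ 4 := by norm_num

theorem BackOrbit.sg_le (O : BackOrbit) (t : ℕ) : O.sg t ≤ 20 ^ 8 := by
  have h1 : O.sg t = ∑ i, O.w (t + 1) i * Q4 (O.p t) (nd i) ^ 2 := by
    rw [← Finset.sum_congr rfl (fun i _ => O.upd t i), ← Finset.sum_mul, O.w_sum, one_mul]
  rw [h1]
  calc ∑ i, O.w (t + 1) i * Q4 (O.p t) (nd i) ^ 2 ≤ ∑ i, O.w (t + 1) i * 20 ^ 8 := by
        refine Finset.sum_le_sum (fun i _ => ?_)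
        refine mul_le_mul_of_nonneg_left ?_ (O.w_pos _ _).le
        have := Q4_bd O t i
        calc Q4 (O.p t) (nd i) ^ 2 = |Q4 (O.p t) (nd i)| ^ 2 := (sq_abs _).symm
          _ ≤ (20 ^ 4) ^ 2 := by gcongr
          _ = 20 ^ 8 := by norm_num
    _ = 20 ^ 8 := by rw [← Finset.sum_mul, O.w_sum, one_mul]

/-- a backward orbit segment read forward from time `2K`, with alternating evidence at the times `2 κ i` -/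
structure Segment (B : ℕ → ℕ) (c0 c1 c2 : ℝ) (N : ℕ) (O : BackOrbit) (κ : ℕ → ℕ) : Prop where
  anti : ∀ i < N, κ (i + 1) < κ i
  bd : ∀ i ≤ N, κ 0 - κ i ≤ B i
  pos : ∀ i, c0 ≤ O.w (2 * κ 0) i
  sg_lo : ∀ t, t ≤ 2 * κ 0 → c0 ≤ O.sg t
  alt : (∀ i ≤ N, (Even i → O.w (2 * κ i) 3 ≤ c1) ∧ (Odd i → c2 ≤ O.w (2 * κ i) 3)) ∨
    (∀ i ≤ N, (Odd i → O.w (2 * κ i) 3 ≤ c1) ∧ (Even i → c2 ≤ O.w (2 * κ i) 3))

theorem Segment.le {B : ℕ → ℕ} {c0 c1 c2 : ℝ} {N : ℕ} {O : BackOrbit} {κ : ℕ → ℕ}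
    (S : Segment B c0 c1 c2 N O κ) : ∀ i ≤ N, κ i + i ≤ κ 0
  | 0, _ => le_rfl
  | i + 1, hi => by
    have h1 := S.le i (by omega)
    have h2 := S.anti i (by omega)
    omega

theorem forward_of_segments (B : ℕ → ℕ) (c0 c1 c2 : ℝ) (hc0 : 0 < c0) (hc : c1 < c2)
    (H : ∀ N : ℕ, ∃ O : BackOrbit, ∃ κ : ℕ → ℕ, Segment B c0 c1 c2 N O κ) :
    ∃ (w : ℕ → Fin 8 → ℝ) (p : ℕ → Fin 4 → ℝ) (sg : ℕ → ℝ),
      (∀ k i, 0 ≤ w k i) ∧ (∀ i, 0 < w 0 i) ∧ (∀ k, ∑ i, w k i = 1) ∧ (∀ k, 0 < sg k) ∧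
      (∀ k j, |p k j| ≤ 10) ∧
      (∀ k (j : Fin 4), ∑ i, w k i * Q4 (p k) (nd i) * nd i ^ (j : ℕ) = 0) ∧
      (∀ k i, w (k + 1) i * sg k = w k i * Q4 (p k) (nd i) ^ 2) ∧
      ¬ ∃ L, Tendsto (fun k => w (2 * k) 3) atTop (𝓝 L) := by
  choose O κ hS using H
  let U : Ultrafilter ℕ := hyperfilter ℕ
  have hUN : ∀ k : ℕ, ∀ᶠ N in (U : Filter ℕ), k ≤ N := fun k =>
    Nat.hyperfilter_le_atTop (eventually_ge_atTop k)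
  have hκ : ∀ N, N ≤ κ N 0 := fun N => by have := (hS N).le N le_rfl; omega
  have lim : ∀ (lo hi : ℝ) (a : ℕ → ℝ), (∀ N, a N ∈ Icc lo hi) →
      ∃ L ∈ Icc lo hi, Tendsto a (U : Filter ℕ) (𝓝 L) := by
    intro lo hi a ha
    obtain ⟨L, hL, hle⟩ := (isCompact_Icc (a := lo) (b := hi)).ultrafilter_le_nhds (U.map a)
      (by
        rw [le_principal_iff]
        exact Ultrafilter.mem_map.2 (Filter.univ_mem' ha))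
    exact ⟨L, hL, hle⟩
  have hW : ∀ k i, ∃ L ∈ Icc (0 : ℝ) 1,
      Tendsto (fun N => (O N).w (2 * κ N 0 - k) i) (U : Filter ℕ) (𝓝 L) := fun k i =>
    lim 0 1 _ (fun N => ⟨((O N).w_pos _ _).le, (O N).w_le_one _ _⟩)
  choose W hW0 hW1 using hW
  have hP : ∀ k j, ∃ L ∈ Icc (-10 : ℝ) 10,
      Tendsto (fun N => (O N).p (2 * κ N 0 - k - 1) j) (U : Filter ℕ) (𝓝 L) := fun k j =>
    lim _ _ _ (fun N => (O N).p_bd _ _)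
  choose P hP0 hP1 using hP
  have hG : ∀ k, ∃ L ∈ Icc c0 (20 ^ 8),
      Tendsto (fun N => (O N).sg (2 * κ N 0 - k - 1)) (U : Filter ℕ) (𝓝 L) := fun k =>
    lim _ _ _ (fun N => ⟨(hS N).sg_lo _ (by omega), (O N).sg_le _⟩)
  choose G hG0 hG1 using hG
  have hQ : ∀ k i, Tendsto (fun N => Q4 ((O N).p (2 * κ N 0 - k - 1)) (nd i)) (U : Filter ℕ)
      (𝓝 (Q4 (P k) (nd i))) := by
    intro k i
    unfold Q4
    exact (((tendsto_const_nhds.sub (hP1 k 0)).mul (tendsto_const_nhds.sub (hP1 k 1))).mul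
      (tendsto_const_nhds.sub (hP1 k 2))).mul (tendsto_const_nhds.sub (hP1 k 3))
  refine ⟨W, P, G, fun k i => (hW0 k i).1, fun i => ?_, fun k => ?_, fun k => ?_, fun k j => ?_,
    fun k j => ?_, fun k i => ?_, ?_⟩
  · refine lt_of_lt_of_le hc0 (ge_of_tendsto (hW1 0 i) (Eventually.of_forall fun N => ?_))
    simpa using (hS N).pos i
  · have h1 : Tendsto (fun N => ∑ i, (O N).w (2 * κ N 0 - k) i) (U : Filter ℕ)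
        (𝓝 (∑ i, W k i)) := tendsto_finsetSum _ (fun i _ => hW1 k i)
    simp only [BackOrbit.w_sum] at h1
    exact tendsto_nhds_unique h1 tendsto_const_nhds |>.symm ▸ rfl
  · exact lt_of_lt_of_le hc0 (hG0 k).1
  · rw [abs_le]; exact hP0 k j
  · have h1 : Tendsto (fun N => ∑ i, (O N).w (2 * κ N 0 - k) i
        * Q4 ((O N).p (2 * κ N 0 - k - 1)) (nd i) * nd i ^ (j : ℕ)) (U : Filter ℕ)
        (𝓝 (∑ i, W k i * Q4 (P k) (nd i) * nd i ^ (j : ℕ))) :=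
      tendsto_finsetSum _ (fun i _ => ((hW1 k i).mul (hQ k i)).mul tendsto_const_nhds)
    refine tendsto_nhds_unique h1 (tendsto_const_nhds.congr' ?_)
    filter_upwards [hUN (k + 1)] with N hN
    have h2 := hκ N
    have h3 : 2 * κ N 0 - k = (2 * κ N 0 - k - 1) + 1 := by omega
    have h4 := (O N).orth (2 * κ N 0 - k - 1) j
    rw [← h3] at h4
    exact h4.symm
  · have h1 : Tendsto (fun N => (O N).w (2 * κ N 0 - (k + 1)) i * (O N).sg (2 * κ N 0 - k - 1))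
        (U : Filter ℕ) (𝓝 (W (k + 1) i * G k)) := (hW1 (k + 1) i).mul (hG1 k)
    have h2 : Tendsto (fun N => (O N).w (2 * κ N 0 - k) i
        * Q4 ((O N).p (2 * κ N 0 - k - 1)) (nd i) ^ 2) (U : Filter ℕ)
        (𝓝 (W k i * Q4 (P k) (nd i) ^ 2)) := (hW1 k i).mul ((hQ k i).pow 2)
    refine tendsto_nhds_unique h1 (h2.congr' ?_)
    filter_upwards [hUN (k + 1)] with N hN
    have h2 := hκ N
    have h3 : 2 * κ N 0 - k = (2 * κ N 0 - k - 1) + 1 := by omega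
    have h4 := (O N).upd (2 * κ N 0 - k - 1) i
    rw [← h3] at h4
    rw [← h4, Nat.sub_sub]
  · -- alternation
    have hK : ∀ i, ∃ K : ℕ, ∀ᶠ N in (U : Filter ℕ), κ N 0 - κ N i = K := by
      intro i
      have h1 : (⋃ m ∈ (Finset.range (B i + 1) : Set ℕ), {N | κ N 0 - κ N i = m}) ∈ U := by
        have : ∀ᶠ N in (U : Filter ℕ), N ∈ ⋃ m ∈ (Finset.range (B i + 1) : Set ℕ),
            {N | κ N 0 - κ N i = m} := by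
          filter_upwards [hUN i] with N hN
          simp only [mem_iUnion]
          refine ⟨κ N 0 - κ N i, ?_, rfl⟩
          have := (hS N).bd i hN
          simp only [Finset.coe_range, mem_Iio]
          omega
        exact this
      obtain ⟨m, -, hm⟩ := (Ultrafilter.finite_biUnion_mem_iff (Finset.finite_toSet _)).1 h1
      exact ⟨m, hm⟩
    choose K hK using hK
    have hmono : StrictMono K := by
      refine strictMono_nat_of_lt_succ (fun i => ?_)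
      obtain ⟨N, h1, h2, h3⟩ := ((hK i).and ((hK (i + 1)).and (hUN (i + 1)))).exists
      have h4 := (hS N).anti i (by omega)
      have h5 := (hS N).le i (by omega)
      omega
    have hval : ∀ i, ∀ᶠ N in (U : Filter ℕ), i ≤ N ∧
        (O N).w (2 * κ N 0 - 2 * K i) 3 = (O N).w (2 * κ N i) 3 := by
      intro i
      filter_upwards [hK i, hUN i] with N h1 h2
      refine ⟨h2, ?_⟩
      have h5 := (hS N).le i h2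
      have : 2 * κ N 0 - 2 * K i = 2 * κ N i := by omega
      rw [this]
    have key : ((∀ i, Even i → W (2 * K i) 3 ≤ c1) ∧ (∀ i, Odd i → c2 ≤ W (2 * K i) 3)) ∨
        ((∀ i, Odd i → W (2 * K i) 3 ≤ c1) ∧ (∀ i, Even i → c2 ≤ W (2 * K i) 3)) := by
      have h1 : ∀ᶠ N in (U : Filter ℕ),
          (∀ i ≤ N, (Even i → (O N).w (2 * κ N i) 3 ≤ c1) ∧
            (Odd i → c2 ≤ (O N).w (2 * κ N i) 3)) ∨
          (∀ i ≤ N, (Odd i → (O N).w (2 * κ N i) 3 ≤ c1) ∧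
            (Even i → c2 ≤ (O N).w (2 * κ N i) 3)) :=
        Eventually.of_forall fun N => (hS N).alt
      rw [Ultrafilter.eventually_or] at h1
      rcases h1 with h1 | h1
      · left
        refine ⟨fun i hi => ?_, fun i hi => ?_⟩
        · refine le_of_tendsto (hW1 (2 * K i) 3) ?_
          filter_upwards [h1, hval i] with N h2 h3
          rw [h3.2]; exact (h2 i h3.1).1 hi
        · refine ge_of_tendsto (hW1 (2 * K i) 3) ?_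
          filter_upwards [h1, hval i] with N h2 h3
          rw [h3.2]; exact (h2 i h3.1).2 hi
      · right
        refine ⟨fun i hi => ?_, fun i hi => ?_⟩
        · refine le_of_tendsto (hW1 (2 * K i) 3) ?_
          filter_upwards [h1, hval i] with N h2 h3
          rw [h3.2]; exact (h2 i h3.1).1 hi
        · refine ge_of_tendsto (hW1 (2 * K i) 3) ?_
          filter_upwards [h1, hval i] with N h2 h3
          rw [h3.2]; exact (h2 i h3.1).2 hi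
    rintro ⟨L, hL⟩
    have hev : Tendsto (fun j => W (2 * K (2 * j)) 3) atTop (𝓝 L) :=
      hL.comp (hmono.tendsto_atTop.comp
        (tendsto_atTop_mono (fun j : ℕ => (by omega : j ≤ 2 * j)) tendsto_id))
    have hod : Tendsto (fun j => W (2 * K (2 * j + 1)) 3) atTop (𝓝 L) :=
      hL.comp (hmono.tendsto_atTop.comp
        (tendsto_atTop_mono (fun j : ℕ => (by omega : j ≤ 2 * j + 1)) tendsto_id))
    have e1 : ∀ j : ℕ, Even (2 * j) := fun j => even_two_mul j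
    have o1 : ∀ j : ℕ, Odd (2 * j + 1) := fun j => odd_two_mul_add_one j
    rcases key with ⟨k1, k2⟩ | ⟨k1, k2⟩
    · have := le_of_tendsto hev (Eventually.of_forall fun j => k1 _ (e1 j))
      have := ge_of_tendsto hod (Eventually.of_forall fun j => k2 _ (o1 j))
      linarith
    · have := le_of_tendsto hod (Eventually.of_forall fun j => k1 _ (o1 j))
      have := ge_of_tendsto hev (Eventually.of_forall fun j => k2 _ (e1 j))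
      linarith

end Pool.Agent.Hhelper30.Forsythe
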