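import Pool.Agent.Hhelper30.Forsythe.RefD

/-! Module E: `exists_ref` (in `RefA`) and `goodCoef_ref` (in `RefD`). -/
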