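import Pool.Agent.Hhelper30.Forsythe.Init
import Pool.Agent.Hhelper30.Forsythe.F7
import Pool.Agent.Hhelper30.Forsythe.Limit
import Pool.Agent.Hhelper30.Forsythe.Ident
import Pool.Agent.Hhelper30.Forsythe.Ref

/-! Assembly: orbit segments with alternating evidence. -/

set_option autoImplicit false

namespace Pool.Agent.Hhelper30.Forsythe

open Filter Topology Set

theorem RS.clock_mono {c : Coef} {C c0 ε h δ δ' : ℝ} {X Y S u v m G : ℕ → ℝ}
    (H : RS c C c0 ε h δ X Y S u v m G) (hd : δ' ≤ δ) :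
    RS c C c0 ε h δ' X Y S u v m G :=
  ⟨fun k hk => H.hX k (hk.trans hd), fun k hk => H.hY k (hk.trans hd),
   fun k hk => H.hS k (hk.trans hd), fun k hk => H.hu k (hk.trans hd),
   fun k hk => H.hv k (hk.trans hd), fun k hk => H.hm k (hk.trans hd),
   fun k hk => H.hG0 k (hk.trans hd), fun k hk => H.hG1 k (hk.trans hd)⟩

/-- amplitude of the weight of the node `-3` -/
noncomputable def amp (p : Fin 4 → ℝ) (a b : ℝ) : ℝ :=
  Q4 p (-3) * ((-3 - a) * (3 + b)) / 235872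

theorem w3_eq (O : BackOrbit) (k : ℕ) :
    O.w (2 * k) 3 = amp (O.p (2 * k)) (O.h (2 * k) 0) (O.h (2 * k) 2) * (3 + O.h (2 * k) 1) := by
  rw [BackOrbit.w, amp, dPi8_3, nd_3, C3]
  ring

theorem amp_ref_pos {r : Fin 4 → ℝ} (hr : IsRef r) : 0 < amp (pe r) (-6) 6 := by
  have h1 : 0 < Q4 (pe r) (-3) := Q4_pos (encl_of_ref r hr) (by constructor <;> norm_num)
  unfold amp
  have : (-3 - (-6 : ℝ)) * (3 + 6) = 27 := by norm_num
  rw [this]
  positivity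

theorem amp_near {r : Fin 4 → ℝ} (κ : ℝ) (hκ : 0 < κ) :
    ∃ d > 0, ∀ (p : Fin 4 → ℝ) (a b : ℝ), (∀ j, |p j - pe r j| ≤ d) → |a + 6| ≤ d → |b - 6| ≤ d →
      |amp p a b - amp (pe r) (-6) 6| ≤ κ := by
  have hcont : Continuous (fun x : (Fin 4 → ℝ) × ℝ × ℝ => amp x.1 x.2.1 x.2.2) := by
    unfold amp Q4
    fun_prop
  have h := Metric.continuousAt_iff.mp (hcont.continuousAt (x := ((pe r), (-6 : ℝ), (6 : ℝ)))) κ hκ
  obtain ⟨d, hd, H⟩ := h
  refine ⟨d / 2, by positivity, ?_⟩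
  intro p a b hp ha hb
  have hdist : dist (p, a, b) (pe r, (-6 : ℝ), (6 : ℝ)) < d := by
    rw [Prod.dist_eq, Prod.dist_eq]
    refine max_lt ?_ (max_lt ?_ ?_)
    · rw [dist_pi_lt_iff hd]
      intro j
      rw [Real.dist_eq]
      exact lt_of_le_of_lt (hp j) (by linarith)
    · show dist a (-6) < d
      rw [Real.dist_eq, sub_neg_eq_add]; linarith
    · show dist b 6 < d
      rw [Real.dist_eq]; linarith
  have := H hdist
  rw [Real.dist_eq] at this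
  exact this.le

/-- the roots of the reference quartic keep a distance from the nodes -/
theorem pe_nd {r : Fin 4 → ℝ} (hr : IsRef r) : ∃ d > 0, ∀ i j, d ≤ |nd i - pe r j| := by
  have E := encl_of_ref r hr
  have hne : ∀ i j, 0 < |nd i - pe r j| := by
    intro i j
    rw [abs_pos]
    have h0 := E.r0; have h1 := E.r1; have h2 := E.r2; have h3 := E.r3
    have p0 : pe r 0 = -r 2 := rfl
    have p1 : pe r 1 = -r 1 := rfl
    have p2 : pe r 2 = r 0 := rfl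
    have p3 : pe r 3 = r 3 := rfl
    intro hz
    fin_cases i <;> fin_cases j <;>
      simp only [nd, pe, Fin.zero_eta, Fin.mk_one, Fin.reduceFinMk, Matrix.cons_val] at hz <;>
      linarith [h0.1, h0.2, h1.1, h1.2, h2.1, h2.2, h3.1, h3.2]
  obtain ⟨x, hx⟩ := Finite.exists_min (fun x : Fin 8 × Fin 4 => |nd x.1 - pe r x.2|)
  exact ⟨|nd x.1 - pe r x.2|, hne _ _, fun i j => hx (i, j)⟩

theorem dPi8_abs (i : Fin 8) : |dPi8 i| ≤ 10 ^ 7 ∧ dPi8 i ≠ 0 := by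
  fin_cases i
  · show |dPi8 0| ≤ _ ∧ dPi8 0 ≠ 0; rw [dPi8_0]; constructor <;> norm_num
  · show |dPi8 1| ≤ _ ∧ dPi8 1 ≠ 0; rw [dPi8_1]; constructor <;> norm_num
  · show |dPi8 2| ≤ _ ∧ dPi8 2 ≠ 0; rw [dPi8_2]; constructor <;> norm_num
  · show |dPi8 3| ≤ _ ∧ dPi8 3 ≠ 0; rw [dPi8_3]; constructor <;> norm_num
  · show |dPi8 4| ≤ _ ∧ dPi8 4 ≠ 0; rw [dPi8_4]; constructor <;> norm_num
  · show |dPi8 5| ≤ _ ∧ dPi8 5 ≠ 0; rw [dPi8_5]; constructor <;> norm_num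
  · show |dPi8 6| ≤ _ ∧ dPi8 6 ≠ 0; rw [dPi8_6]; constructor <;> norm_num
  · show |dPi8 7| ≤ _ ∧ dPi8 7 ≠ 0; rw [dPi8_7]; constructor <;> norm_num

theorem w_lower (O : BackOrbit) (t : ℕ) (i : Fin 8) (d ρ : ℝ) (hd : 0 ≤ d) (hρ : 0 ≤ ρ)
    (hp : ∀ j, d ≤ |nd i - O.p t j|) (hh : ∀ j, ρ ≤ |nd i - O.h t j|) :
    d ^ 4 * ρ ^ 3 / 10 ^ 7 ≤ O.w t i := by
  have h1 := (O.w_pos t i).le
  rw [← abs_of_nonneg h1, BackOrbit.w, abs_div, abs_mul]
  obtain ⟨h2, h3⟩ := dPi8_abs i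
  have h4 : 0 < |dPi8 i| := abs_pos.mpr h3
  have hQ : d ^ 4 ≤ |Q4 (O.p t) (nd i)| := by
    rw [Q4, abs_mul, abs_mul, abs_mul]
    calc d ^ 4 = d * d * d * d := by ring
      _ ≤ _ := by
        refine mul_le_mul (mul_le_mul (mul_le_mul (hp 0) (hp 1) hd (abs_nonneg _)) (hp 2) hd
          (by positivity)) (hp 3) hd (by positivity)
  have hC : ρ ^ 3 ≤ |C3 (O.h t) (nd i)| := by
    rw [C3, abs_mul, abs_mul]
    calc ρ ^ 3 = ρ * ρ * ρ := by ring
      _ ≤ _ := by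
        refine mul_le_mul (mul_le_mul (hh 0) (hh 1) hρ (abs_nonneg _)) (hh 2) hρ (by positivity)
  rw [div_le_div_iff₀ (by positivity) h4]
  calc d ^ 4 * ρ ^ 3 * |dPi8 i| ≤ |Q4 (O.p t) (nd i)| * |C3 (O.h t) (nd i)| * 10 ^ 7 :=
    mul_le_mul (mul_le_mul hQ hC (by positivity) (abs_nonneg _)) h2 (abs_nonneg _) (by positivity)

theorem h_sep (O : BackOrbit) (k : ℕ) (R ρ : ℝ) (hX : |O.X k| ≤ R) (hY : |O.Y k| ≤ R) (hS : |O.S k| ≤ R)
    (h0 : |O.h (2 * k) 0 + 6| ≤ 1 / 2) (h2 : |O.h (2 * k) 2 - 6| ≤ 1 / 2)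
    (hρ : ρ = Real.exp (-R) / 2) (i : Fin 8) (j : Fin 3) :
    ρ ≤ |nd i - O.h (2 * k) j| := by
  have hR : 0 ≤ R := le_trans (abs_nonneg _) hX
  have hρ1 : ρ ≤ 1 / 2 := by
    rw [hρ]
    have : Real.exp (-R) ≤ 1 := Real.exp_le_one_iff.mpr (by linarith)
    linarith
  have hρ0 : 0 < ρ := by rw [hρ]; positivity
  have hx : 2 * ρ ≤ -6 - O.h (2 * k) 0 := by
    have h := (abs_le.mp hX).2
    have hpos : 0 < -6 - O.h (2 * k) 0 := by have := (O.even k).h0.2; linarith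
    have e : Real.exp (-O.X k) = -6 - O.h (2 * k) 0 := by
      rw [BackOrbit.X, neg_neg, Real.exp_log hpos]
    rw [← e, hρ]
    have : Real.exp (-R) ≤ Real.exp (-O.X k) := Real.exp_le_exp.mpr (by linarith)
    linarith
  have hy : 2 * ρ ≤ 6 - O.h (2 * k) 2 := by
    have h := (abs_le.mp hY).2
    have hpos : 0 < 6 - O.h (2 * k) 2 := by have := (O.even k).h2.2; linarith
    have e : Real.exp (-O.Y k) = 6 - O.h (2 * k) 2 := by
      rw [BackOrbit.Y, neg_neg, Real.exp_log hpos]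
    rw [← e, hρ]
    have : Real.exp (-R) ≤ Real.exp (-O.Y k) := Real.exp_le_exp.mpr (by linarith)
    linarith
  have hη := (O.even k).h1
  have he : ρ ≤ 3 + O.h (2 * k) 1 ∧ ρ ≤ 3 - O.h (2 * k) 1 := by
    obtain ⟨hs1, hs2⟩ := abs_le.mp hS
    have hp1 : 0 < O.h (2 * k) 1 + 3 := by linarith [hη.1]
    have hp2 : 0 < 3 - O.h (2 * k) 1 := by linarith [hη.2]
    have e : Real.exp (O.S k) * (3 - O.h (2 * k) 1) = O.h (2 * k) 1 + 3 := by
      rw [BackOrbit.S, Real.exp_log (by positivity)]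
      field_simp
    have e1 : Real.exp (-R) ≤ Real.exp (O.S k) := Real.exp_le_exp.mpr hs1
    have e2 : Real.exp (-R) * Real.exp (O.S k) ≤ 1 := by
      rw [← Real.exp_add]; exact Real.exp_le_one_iff.mpr (by linarith)
    have e0 : 0 < Real.exp (-R) := Real.exp_pos _
    have e3 : Real.exp (-R) ≤ 1 := Real.exp_le_one_iff.mpr (by linarith)
    constructor
    · -- 3 + η ≥ exp(-R) (3 - η)
      have f : Real.exp (-R) * (3 - O.h (2 * k) 1) ≤ O.h (2 * k) 1 + 3 := by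
        rw [← e]; exact mul_le_mul_of_nonneg_right e1 hp2.le
      rw [hρ]
      nlinarith
    · have f : Real.exp (-R) * (O.h (2 * k) 1 + 3) ≤ 3 - O.h (2 * k) 1 := by
        rw [← e, ← mul_assoc]
        calc _ ≤ 1 * (3 - O.h (2 * k) 1) := mul_le_mul_of_nonneg_right e2 hp2.le
          _ = _ := one_mul _
      rw [hρ]
      nlinarith
  obtain ⟨a1, a2⟩ := abs_le.mp h0
  obtain ⟨b1, b2⟩ := abs_le.mp h2
  have hi : nd i = -10 ∨ nd i = -6 ∨ nd i = -5 ∨ nd i = -3 ∨ nd i = 3 ∨ nd i = 5 ∨ nd i = 6 ∨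
      nd i = 10 := by
    fin_cases i <;> simp [nd]
  fin_cases j
  · show ρ ≤ |nd i - O.h (2 * k) 0|
    rcases hi with h | h | h | h | h | h | h | h <;> rw [h]
    · rw [abs_of_neg (by linarith)]; linarith
    all_goals rw [abs_of_pos (by linarith)]; linarith
  · show ρ ≤ |nd i - O.h (2 * k) 1|
    rcases hi with h | h | h | h | h | h | h | h <;> rw [h]
    · rw [abs_of_neg (by linarith)]; linarith
    · rw [abs_of_neg (by linarith)]; linarith
    · rw [abs_of_neg (by linarith)]; linarith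
    · rw [abs_of_neg (by linarith)]; linarith
    all_goals rw [abs_of_pos (by linarith)]; linarith
  · show ρ ≤ |nd i - O.h (2 * k) 2|
    rcases hi with h | h | h | h | h | h | h | h <;> rw [h]
    · rw [abs_of_neg (by linarith)]; linarith
    · rw [abs_of_neg (by linarith)]; linarith
    · rw [abs_of_neg (by linarith)]; linarith
    · rw [abs_of_neg (by linarith)]; linarith
    · rw [abs_of_neg (by linarith)]; linarith
    · rw [abs_of_neg (by linarith)]; linarith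
    · rw [abs_of_pos (by linarith)]; linarith
    · rw [abs_of_pos (by linarith)]; linarith

/-- the moving zero from `S` -/
theorem eta_of_S (O : BackOrbit) (k : ℕ) :
    (O.S k ≤ -1 → 3 + O.h (2 * k) 1 ≤ 2) ∧ (1 ≤ O.S k → 4 ≤ 3 + O.h (2 * k) 1) := by
  have hη := (O.even k).h1
  have hp1 : 0 < O.h (2 * k) 1 + 3 := by linarith [hη.1]
  have hp2 : 0 < 3 - O.h (2 * k) 1 := by linarith [hη.2]
  have e : Real.exp (O.S k) * (3 - O.h (2 * k) 1) = O.h (2 * k) 1 + 3 := by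
    rw [BackOrbit.S, Real.exp_log (by positivity)]
    field_simp
  constructor
  · intro h
    have h1 : Real.exp (O.S k) ≤ 1 / 2 := by
      have h2 : Real.exp (O.S k) ≤ Real.exp (-1) := Real.exp_le_exp.mpr h
      have h3 : Real.exp (-1) < 0.3678794412 := Real.exp_neg_one_lt_d9
      linarith
    nlinarith
  · intro h
    have h1 : 2 ≤ Real.exp (O.S k) := by
      have h2 : Real.exp 1 ≤ Real.exp (O.S k) := Real.exp_le_exp.mpr h
      have h3 : 2.7182818283 < Real.exp 1 := Real.exp_one_gt_d9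
      linarith
    nlinarith

/-- statement of the abstract billiard theorem (`abs_main`) for one coefficient system -/
def AbsConcl (c : Coef) (C c0 : ℝ) : Prop :=
    ∃ ε > 0, ∀ δ > 0, ∃ β0 ν0 σ0 Yc : ℝ, 0 < β0 ∧ 0 < ν0 ∧ 0 < σ0 ∧ ∃ (R : ℝ) (B : ℕ → ℕ),
    ∀ (N : ℕ) (g1 : ℝ), 0 < g1 → ∃ g : ℝ, 0 < g ∧ g ≤ g1 ∧ ∃ l0 l1 : ℝ, 1 ≤ l0 ∧ l0 < l1 ∧
    ∀ (X Y S u v m G : ℝ → ℕ → ℝ),
    (∀ k, ContinuousOn (fun l => X l k) (Icc l0 l1)) → (∀ k, ContinuousOn (fun l => Y l k) (Icc l0 l1)) →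
    (∀ k, ContinuousOn (fun l => G l k) (Icc l0 l1)) →
    (∀ l ∈ Icc l0 l1, RS c C c0 ε 1 δ (X l) (Y l) (S l) (u l) (v l) (m l) (G l)) →
    (∀ l ∈ Icc l0 l1, X l 0 = l - 2 * Real.log g ∧ Y l 0 = Yc - 2 * Real.log g ∧ S l 0 = -(σ0 * l) ∧
      u l 0 = -g ∧ v l 0 = β0 * g ∧ m l 0 = -(ν0 * g) ∧ G l 0 = 0) →
    ∃ l ∈ Icc l0 l1, ∃ κ : ℕ → ℕ, (∀ i < N, κ (i + 1) < κ i) ∧ (∀ i ≤ N, κ 0 - κ i ≤ B i) ∧
      |X l (κ 0)| ≤ R ∧ |Y l (κ 0)| ≤ R ∧ |S l (κ 0)| ≤ R ∧ (∀ j ≤ κ 0, G l j ≤ δ) ∧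
      ((∀ i ≤ N, (Even i → S l (κ i) ≤ -1) ∧ (Odd i → 1 ≤ S l (κ i))) ∨
       (∀ i ≤ N, (Odd i → S l (κ i) ≤ -1) ∧ (Even i → 1 ≤ S l (κ i))))

theorem init_obs {β0 ν0 σ0 Yc τ g l : ℝ} (hs : SmallG β0 ν0 Yc τ g) (hl : 1 ≤ l) (O : BackOrbit)
    (h0 : O.h 0 = ih0 σ0 Yc g l) (h1 : O.h 1 = ih1 β0 ν0 σ0 Yc g l) :
    O.X 0 = l - 2 * Real.log g ∧ O.Y 0 = Yc - 2 * Real.log g ∧ O.S 0 = -(σ0 * l) ∧
      O.u 0 = -g ∧ O.v 0 = β0 * g ∧ O.m 0 = -(ν0 * g) ∧ O.G 0 = 0 := by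
  have hg := hs.g0
  have z0 : (2 * 0 : ℕ) = 0 := rfl
  have z1 : (2 * 0 + 1 : ℕ) = 1 := rfl
  have a0 : O.h (2 * 0) 0 = -6 - g ^ 2 * Real.exp (-l) := by rw [z0, h0]; rfl
  have a1 : O.h (2 * 0) 1 = etaS (-(σ0 * l)) := by rw [z0, h0]; rfl
  have a2 : O.h (2 * 0) 2 = 6 - g ^ 2 * Real.exp (-Yc) := by rw [z0, h0]; rfl
  have b0 : O.h (2 * 0 + 1) 0 = -6 + g ^ 2 * Real.exp (-l) * Real.exp g := by rw [z1, h1]; rfl
  have b1 : O.h (2 * 0 + 1) 1 = etaS (-(σ0 * l)) - ν0 * g * (9 - etaS (-(σ0 * l)) ^ 2) := by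
    rw [z1, h1]; rfl
  have b2 : O.h (2 * 0 + 1) 2 = 6 + g ^ 2 * Real.exp (-Yc) * Real.exp (-(β0 * g)) := by
    rw [z1, h1]; rfl
  have hx : 0 < g ^ 2 * Real.exp (-l) := by positivity
  have hy : 0 < g ^ 2 * Real.exp (-Yc) := by positivity
  have he := etaS_lt (-(σ0 * l))
  refine ⟨?_, ?_, ?_, ?_, ?_, ?_, ?_⟩
  · rw [BackOrbit.X, a0, show -6 - (-6 - g ^ 2 * Real.exp (-l)) = g ^ 2 * Real.exp (-l) by ring,
      Real.log_mul (by positivity) (by positivity), Real.log_exp, Real.log_pow]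
    push_cast; ring
  · rw [BackOrbit.Y, a2, show 6 - (6 - g ^ 2 * Real.exp (-Yc)) = g ^ 2 * Real.exp (-Yc) by ring,
      Real.log_mul (by positivity) (by positivity), Real.log_exp, Real.log_pow]
    push_cast; ring
  · rw [BackOrbit.S, a1, log_etaS]
  · rw [BackOrbit.u, a0, b0]
    have : (-6 - (-6 - g ^ 2 * Real.exp (-l))) / (-6 + g ^ 2 * Real.exp (-l) * Real.exp g + 6)
        = Real.exp (-g) := by
      rw [Real.exp_neg g]
      have := Real.exp_pos g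
      field_simp
      ring
    rw [this, Real.log_exp]
  · rw [BackOrbit.v, a2, b2]
    have : (6 - (6 - g ^ 2 * Real.exp (-Yc))) / (6 + g ^ 2 * Real.exp (-Yc) * Real.exp (-(β0 * g)) - 6)
        = Real.exp (β0 * g) := by
      rw [Real.exp_neg (β0 * g)]
      have := Real.exp_pos (β0 * g)
      field_simp
      ring
    rw [this, Real.log_exp]
  · rw [BackOrbit.m, a1, b1]
    have h9 : (9 : ℝ) - etaS (-(σ0 * l)) ^ 2 ≠ 0 := by
      have : 0 < 9 - etaS (-(σ0 * l)) ^ 2 := by nlinarith [he.1, he.2]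
      exact this.ne'
    field_simp
    ring
  · rw [BackOrbit.G, z0, sub_self]

theorem segments_of_abs (r : Fin 4 → ℝ) (hr : IsRef r)
    (habs : ∀ C c0 : ℝ, 0 < C → 0 < c0 → AbsConcl (coefRef r) C c0) :
    ∃ (B : ℕ → ℕ) (c0 c1 c2 : ℝ), 0 < c0 ∧ c1 < c2 ∧
      ∀ N : ℕ, ∃ O : BackOrbit, ∃ κ : ℕ → ℕ, Segment B c0 c1 c2 N O κ := by
  obtain ⟨C, hC, cc, hcc, hred⟩ := reduce r hr
  obtain ⟨ε, hε, habs⟩ := habs C cc hC hcc
  obtain ⟨δ1, hδ1, δ01, hδ01, hred⟩ := hred ε hε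
  have hA := amp_ref_pos hr
  set A0 := amp (pe r) (-6) 6 with hA0
  obtain ⟨da, hda, hamp⟩ := amp_near (r := r) (A0 / 10) (by positivity)
  obtain ⟨dn, hdn, hnd⟩ := pe_nd hr
  obtain ⟨ε', hε'⟩ : ∃ e, e = min (min da (dn / 2)) (1 / 2) := ⟨_, rfl⟩
  have hε'p : 0 < ε' := by rw [hε']; positivity
  have hε'a : ε' ≤ da := by rw [hε']; exact (min_le_left _ _).trans (min_le_left _ _)
  have hε'n : ε' ≤ dn / 2 := by rw [hε']; exact (min_le_left _ _).trans (min_le_right _ _)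
  have hε'h : ε' ≤ 1 / 2 := by rw [hε']; exact min_le_right _ _
  obtain ⟨δ2, hδ2, δ02, hδ02, hnear⟩ := near_at r hr ε' hε'p
  obtain ⟨β0, ν0, σ0, Yc, hβ0, hν0, hσ0, R, B, habs⟩ := habs (min δ1 δ2) (lt_min hδ1 hδ2)
  obtain ⟨δr, hδr, hratio⟩ := near_of_ratio r hr (min δ01 δ02) (lt_min hδ01 hδ02)
  obtain ⟨τ, hτ⟩ : ∃ t, t = min (δr / 7) (1 / 7) := ⟨_, rfl⟩
  have hτp : 0 < τ := by rw [hτ]; positivity
  have hτr : 7 * τ ≤ δr := by
    have : τ ≤ δr / 7 := by rw [hτ]; exact min_le_left _ _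
    linarith
  have hτ1 : 7 * τ ≤ 1 := by
    have : τ ≤ 1 / 7 := by rw [hτ]; exact min_le_right _ _
    linarith
  obtain ⟨g1, hg1, hsm⟩ := exists_small β0 ν0 Yc τ hτp
  obtain ⟨ρ, hρ⟩ : ∃ t, t = Real.exp (-R) / 2 := ⟨_, rfl⟩
  have hρp : 0 < ρ := by rw [hρ]; positivity
  refine ⟨B, min (1 / 2) ((dn / 2) ^ 4 * ρ ^ 3 / 10 ^ 7), 11 / 5 * A0, 18 / 5 * A0, ?_, by linarith, ?_⟩
  · exact lt_min (by norm_num) (by positivity)
  intro N
  obtain ⟨g, hg, hgg1, l0, l1, hl0, hl01, habs⟩ := habs N g1 hg1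
  have hs := hsm g hg hgg1
  have hl : ∀ l ∈ Icc l0 l1, 1 ≤ l := fun l hl => hl0.trans hl.1
  have hrat : ∀ l ∈ Icc l0 l1, ∀ i,
      |C3 (ih0 σ0 Yc g l) (nd i) / C3 (ih1 β0 ν0 σ0 Yc g l) (nd i) - sgnd i| ≤ 7 * τ :=
    fun l h i => hs.ratio (by linarith) hβ0 hν0 (hl l h) i
  have hsg : ∀ i, |sgnd i| = 1 := by
    intro i; rw [sgnd_eq, abs_mul, sx_abs, sy_abs, one_mul]
  obtain ⟨O, hO, hcp, hch, hcs⟩ := exists_family l0 l1 (fun l => ih0 σ0 Yc g l)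
    (fun l => ih1 β0 ν0 σ0 Yc g l)
    (by
      have hE := etaS_continuous
      intro j
      refine Continuous.continuousOn ?_
      fin_cases j
      · show Continuous (fun l => -6 - g ^ 2 * Real.exp (-l)); fun_prop
      · show Continuous (fun l => etaS (-(σ0 * l))); fun_prop
      · show Continuous (fun _ : ℝ => 6 - g ^ 2 * Real.exp (-Yc)); fun_prop)
    (by
      have hE := etaS_continuous
      intro j
      refine Continuous.continuousOn ?_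
      fin_cases j
      · show Continuous (fun l => -6 + g ^ 2 * Real.exp (-l) * Real.exp g); fun_prop
      · show Continuous (fun l => etaS (-(σ0 * l)) - ν0 * g * (9 - etaS (-(σ0 * l)) ^ 2)); fun_prop
      · show Continuous (fun _ : ℝ => 6 + g ^ 2 * Real.exp (-Yc) * Real.exp (-(β0 * g))); fun_prop)
    (fun l h => hs.evenH (hl l h)) (fun l h => hs.oddH hβ0 hν0 (hl l h))
    (by
      intro l h i
      have h1 := hrat l h i
      have h2 := abs_add_le (C3 (ih0 σ0 Yc g l) (nd i) / C3 (ih1 β0 ν0 σ0 Yc g l) (nd i) - sgnd i) (sgnd i)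
      rw [sub_add_cancel, hsg] at h2
      show |C3 (ih0 σ0 Yc g l) (nd i) / C3 (ih1 β0 ν0 σ0 Yc g l) (nd i)| ≤ 2
      linarith)
  have hnr : ∀ l ∈ Icc l0 l1, Near r (min δ01 δ02) (O l) := by
    intro l h
    obtain ⟨e0, e1, e2, e3, e4, e5, e6⟩ := hO l h
    refine hratio (O l) e2 e3 e4 e5 e6 ?_
    intro i
    rw [e0, e1]
    exact (hrat l h i).trans hτr
  obtain ⟨l, hlmem, κ, hκ1, hκ2, hX, hY, hS, hG, halt⟩ := habs (fun l => (O l).X) (fun l => (O l).Y)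
    (fun l => (O l).S) (fun l => (O l).u) (fun l => (O l).v) (fun l => (O l).m) (fun l => (O l).G)
    (by
      intro k
      show ContinuousOn (fun l => -Real.log (-6 - (O l).h (2 * k) 0)) (Icc l0 l1)
      refine ContinuousOn.neg (ContinuousOn.log (continuousOn_const.sub (hch _ _)) ?_)
      intro l _
      have := ((O l).even k).h0.2
      exact ne_of_gt (by linarith))
    (by
      intro k
      show ContinuousOn (fun l => -Real.log (6 - (O l).h (2 * k) 2)) (Icc l0 l1)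
      refine ContinuousOn.neg (ContinuousOn.log (continuousOn_const.sub (hch _ _)) ?_)
      intro l _
      have := ((O l).even k).h2.2
      exact ne_of_gt (by linarith))
    (by
      intro k
      show ContinuousOn (fun l => (O l).sg 0 - (O l).sg (2 * k)) (Icc l0 l1)
      exact (hcs _).sub (hcs _))
    (fun l h => (hred (O l) ((hnr l h).mono (min_le_left _ _))).clock_mono (min_le_left _ _))
    (fun l h => init_obs hs (hl l h) (O l) (hO l h).1 (hO l h).2.1)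
  have hκle : ∀ i ≤ N, κ i ≤ κ 0 := by
    intro i
    induction i with
    | zero => intro _; exact le_rfl
    | succ i ih =>
      intro hi
      exact (hκ1 i (by omega)).le.trans (ih (by omega))
  have hnr2 : Near r δ02 (O l) := (hnr l hlmem).mono (min_le_right _ _)
  have hnat : ∀ k ≤ κ 0, (∀ j, |(O l).p (2 * k) j - pe r j| ≤ ε') ∧ |(O l).h (2 * k) 0 + 6| ≤ ε' ∧
      |(O l).h (2 * k) 2 - 6| ≤ ε' ∧ |(O l).sg (2 * k) - 1| ≤ ε' :=
    fun k hk => hnear (O l) hnr2 k ((hG k hk).trans (min_le_right _ _))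
  have hAk : ∀ k ≤ κ 0, 9 / 10 * A0 ≤ amp ((O l).p (2 * k)) ((O l).h (2 * k) 0) ((O l).h (2 * k) 2) ∧
      amp ((O l).p (2 * k)) ((O l).h (2 * k) 0) ((O l).h (2 * k) 2) ≤ 11 / 10 * A0 := by
    intro k hk
    obtain ⟨n1, n2, n3, n4⟩ := hnat k hk
    have := abs_le.mp (hamp _ _ _ (fun j => (n1 j).trans hε'a) (n2.trans hε'a) (n3.trans hε'a))
    constructor <;> linarith [this.1, this.2]
  have hlow : ∀ k ≤ κ 0, (O l).S k ≤ -1 → (O l).w (2 * k) 3 ≤ 11 / 5 * A0 := by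
    intro k hk h
    obtain ⟨q1, q2⟩ := hAk k hk
    rw [w3_eq]
    have := (eta_of_S (O l) k).1 h
    have hp := ((O l).even k).h1.1
    calc _ ≤ 11 / 10 * A0 * 2 := mul_le_mul q2 this (by linarith) (by positivity)
      _ = _ := by ring
  have hhigh : ∀ k ≤ κ 0, 1 ≤ (O l).S k → 18 / 5 * A0 ≤ (O l).w (2 * k) 3 := by
    intro k hk h
    obtain ⟨q1, q2⟩ := hAk k hk
    rw [w3_eq]
    have := (eta_of_S (O l) k).2 h
    calc 18 / 5 * A0 = 9 / 10 * A0 * 4 := by ring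
      _ ≤ _ := mul_le_mul q1 this (by norm_num) (by linarith)
  refine ⟨O l, κ, hκ1, hκ2, ?_, ?_, ?_⟩
  · intro i
    refine (min_le_right _ _).trans ?_
    obtain ⟨n1, n2, n3, n4⟩ := hnat (κ 0) le_rfl
    refine w_lower (O l) (2 * κ 0) i (dn / 2) ρ (by positivity) hρp.le ?_ ?_
    · intro j
      have h1 := hnd i j
      have h2 := n1 j
      have h3 : |nd i - pe r j| ≤ |nd i - (O l).p (2 * κ 0) j| + |(O l).p (2 * κ 0) j - pe r j| := by
        have := abs_add_le (nd i - (O l).p (2 * κ 0) j) ((O l).p (2 * κ 0) j - pe r j)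
        rwa [sub_add_sub_cancel] at this
      linarith
    · intro j
      exact h_sep (O l) (κ 0) R ρ hX hY hS (n2.trans hε'h) (n3.trans hε'h) hρ i j
  · intro t ht
    refine (min_le_left _ _).trans ?_
    obtain ⟨n1, n2, n3, n4⟩ := hnat (κ 0) le_rfl
    have hanti : Antitone (O l).sg := antitone_nat_of_succ_le (sg_anti (O l))
    have h1 := hanti ht
    have h2 := abs_le.mp (n4.trans hε'h)
    linarith [h2.1]
  · rcases halt with h | h
    · left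
      intro i hi
      exact ⟨fun he => hlow _ (hκle i hi) ((h i hi).1 he), fun ho => hhigh _ (hκle i hi) ((h i hi).2 ho)⟩
    · right
      intro i hi
      exact ⟨fun ho => hlow _ (hκle i hi) ((h i hi).1 ho), fun he => hhigh _ (hκle i hi) ((h i hi).2 he)⟩

end Pool.Agent.Hhelper30.Forsythe
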