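import Pool.Agent.Hhelper30.Forsythe.Core

/-! The bounce stage: existence of the exit. -/

set_option autoImplicit false

namespace Pool.Agent.Hhelper30.Forsythe

open Filter Topology Set Finset

theorem exp_neg_small (a b C : ℝ) (ha : 0 ≤ a) (hb : 0 < b) (hC : a / b ≤ C) :
    a * Real.exp (-C) ≤ b := by
  have h0 : 0 ≤ a / b := by positivity
  have h1 : C + 1 ≤ Real.exp C := Real.add_one_le_exp C
  have h2 : a ≤ b * C := by rw [div_le_iff₀ hb] at hC; linarith
  have h3 : Real.exp (-C) * Real.exp C = 1 := by rw [← Real.exp_add]; simp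
  have h4 := Real.exp_pos (-C)
  have h5 := Real.exp_pos C
  have h6 : a ≤ b * Real.exp C := by nlinarith
  calc a * Real.exp (-C) ≤ b * Real.exp C * Real.exp (-C) :=
        mul_le_mul_of_nonneg_right h6 h4.le
    _ = b := by rw [mul_assoc, mul_comm (Real.exp C), h3, mul_one]

theorem D_exp (D : ℝ) (hD : 0 ≤ D) : D * Real.exp (-(2 * D)) ≤ 1 := by
  have h8 : D + 1 ≤ Real.exp D := Real.add_one_le_exp D
  have h9 : Real.exp (-(2 * D)) ≤ Real.exp (-D) := Real.exp_le_exp.mpr (by linarith)
  have h10 : Real.exp (-D) * Real.exp D = 1 := by rw [← Real.exp_add]; simp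
  have h11 := Real.exp_pos (-D)
  nlinarith

theorem half_time (θ x : ℝ) (hθ1 : θ ≤ 1 / 10) (hx : 0 ≤ x) : x ≤ 2 * (1 - θ) * x := by
  nlinarith

theorem mul_small (a h e : ℝ) (ha : 0 ≤ a) (hh : h ≤ e) (hae : a * e ≤ 1) : a * h ≤ 1 :=
  (mul_le_mul_of_nonneg_left hh ha).trans hae

theorem bounce_stage (A R N C ν β Vm : ℝ) (hA : 0 < A) (hC : 0 < C) (hν : 0 < ν) (hβ : 0 < β)
    (hβ1 : β ≤ 1) (hVm : 1 ≤ Vm) (θ : ℝ) (hθ : 0 < θ) (hθ1 : θ ≤ 1 / 10)
    (C2 : ℝ) (hC2 : C2 = 10 * ((|R| + |N|) / A + 1)) (hθν : C2 * θ ≤ ν / 2)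
    (hθβ : C2 * θ ≤ β / 2) :
    ∃ ε1 > 0, ε1 ≤ 1 ∧ ∃ C' : ℝ, 1 ≤ C' ∧ ∀ (ε h δ M : ℝ), 0 ≤ ε → ε ≤ ε1 → 0 < h → h ≤ ε1 →
    0 ≤ M → ∀ (X Y S u v m G : ℕ → ℝ) (D : ℝ),
    (∀ k, G k ≤ δ → S k ≤ -M → Loc A R N C ε h X Y S u v m G k) →
    u 0 = -1 → X 0 = D → C' ≤ D → -Vm ≤ m 0 → m 0 ≤ -ν → |v 0| ≤ Vm → G 0 + C' ≤ δ →
    S 0 ≤ -M - C' →
    ((β ≤ v 0 ∧ Real.exp (-Y 0) ≤ ε1) ∨ (2 * (Vm + 1) * (D + 1) + C' ≤ Y 0)) →
    ∃ K kz, CoreOut A R N ν Vm θ C2 C' h X Y S u v m G K D kz ∧ kz < K ∧ 1 - θ ≤ u K ∧
      (∀ j < K, G j ≤ δ ∧ S j ≤ -M) ∧ h * K ≤ D + C' := by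
  obtain ⟨ec, hec, hec1, Cc, hCc1, hcore⟩ := core A R N C ν Vm hA hC hν hVm θ hθ hθ1 C2 hC2 hθν
  have hRA : 0 ≤ |R| / A := by positivity
  have hNA : 0 ≤ |N| / A := by positivity
  have hC2' : C2 = 10 * (|R| / A) + 10 * (|N| / A) + 10 := by rw [hC2]; ring
  have hC2pos : 10 ≤ C2 := by rw [hC2']; linarith
  obtain ⟨Vm', hVm'⟩ : ∃ V, V = Vm + C2 := ⟨_, rfl⟩
  have hVm'pos : 11 ≤ Vm' := by linarith
  have hVm'pos' : 0 < Vm' := by linarith
  -- threshold for the sum of the other sources
  obtain ⟨e1, he1, he1c, he1C⟩ : ∃ e1 > 0, e1 ≤ ec ∧ C * e1 ≤ 1 / 4 := by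
    refine ⟨min ec (1 / (4 * C)), by positivity, min_le_left _ _, ?_⟩
    have := mul_le_mul_of_nonneg_left (min_le_right ec (1 / (4 * C))) hC.le
    refine this.trans (le_of_eq ?_)
    field_simp
  obtain ⟨a1, ha1⟩ : ∃ a, a = 36 * Vm' ^ 2 * Real.exp Cc * (2 / (5 * ν) + 1 + Cc) := ⟨_, rfl⟩
  obtain ⟨a2, ha2⟩ : ∃ a, a = (2 * Cc + 2) * Real.exp (4 * Vm' * Cc + Cc) := ⟨_, rfl⟩
  have ha1pos : 0 ≤ a1 := by rw [ha1]; positivity
  have ha2pos : 0 ≤ a2 := by rw [ha2]; positivity
  obtain ⟨C', hC'⟩ : ∃ C', C' = 3 * Cc + a1 / (e1 / 2) + a2 / (e1 / 2) + A / e1 := ⟨_, rfl⟩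
  have q1 : 0 ≤ a1 / (e1 / 2) := by positivity
  have q2 : 0 ≤ a2 / (e1 / 2) := by positivity
  have q3 : 0 ≤ A / e1 := by positivity
  have hCcC' : 3 * Cc ≤ C' := by rw [hC']; linarith
  have hsm1 : a1 * Real.exp (-C') ≤ e1 / 2 :=
    exp_neg_small _ _ _ ha1pos (by positivity) (by rw [hC']; linarith)
  have hsm2 : a2 * Real.exp (-C') ≤ e1 / 2 :=
    exp_neg_small _ _ _ ha2pos (by positivity) (by rw [hC']; linarith)
  have hsm3 : A * Real.exp (-C') ≤ e1 :=
    exp_neg_small _ _ _ hA.le he1 (by rw [hC']; linarith)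
  obtain ⟨b1, hb1⟩ : ∃ b, b = Real.exp Cc * (2 / β + 1 + Cc) := ⟨_, rfl⟩
  have hb1pos : 0 < b1 := by rw [hb1]; positivity
  obtain ⟨ε1, hε1, hε1e, hε1b, hε1ν, hε1β, hε1A, hε18⟩ : ∃ ε1 > 0, ε1 ≤ e1 ∧ b1 * ε1 ≤ e1 / 2 ∧
      5 * ν * ε1 ≤ 1 ∧ β * ε1 ≤ 1 ∧ 8 * ε1 ≤ A ∧ 8 * ε1 ≤ 1 := by
    refine ⟨min e1 (min (e1 / (2 * b1)) (min (1 / (5 * ν)) (min (1 / β) (min (A / 8) (1 / 8))))),
      by positivity, min_le_left _ _, ?_, ?_, ?_, ?_, ?_⟩
    · have h : min e1 (min (e1 / (2 * b1)) (min (1 / (5 * ν)) (min (1 / β) (min (A / 8) (1 / 8)))))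
        ≤ e1 / (2 * b1) := (min_le_right _ _).trans (min_le_left _ _)
      have := mul_le_mul_of_nonneg_left h hb1pos.le
      refine this.trans (le_of_eq ?_); field_simp
    · have h : min e1 (min (e1 / (2 * b1)) (min (1 / (5 * ν)) (min (1 / β) (min (A / 8) (1 / 8)))))
        ≤ 1 / (5 * ν) := (min_le_right _ _).trans ((min_le_right _ _).trans (min_le_left _ _))
      have := mul_le_mul_of_nonneg_left h (by positivity : 0 ≤ 5 * ν)
      refine this.trans (le_of_eq ?_); field_simp
    · have h : min e1 (min (e1 / (2 * b1)) (min (1 / (5 * ν)) (min (1 / β) (min (A / 8) (1 / 8)))))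
        ≤ 1 / β := (min_le_right _ _).trans ((min_le_right _ _).trans
          ((min_le_right _ _).trans (min_le_left _ _)))
      have := mul_le_mul_of_nonneg_left h hβ.le
      refine this.trans (le_of_eq ?_); field_simp
    · have h : min e1 (min (e1 / (2 * b1)) (min (1 / (5 * ν)) (min (1 / β) (min (A / 8) (1 / 8)))))
        ≤ A / 8 := (min_le_right _ _).trans ((min_le_right _ _).trans
          ((min_le_right _ _).trans ((min_le_right _ _).trans (min_le_left _ _))))
      linarith
    · have h : min e1 (min (e1 / (2 * b1)) (min (1 / (5 * ν)) (min (1 / β) (min (A / 8) (1 / 8)))))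
        ≤ 1 / 8 := (min_le_right _ _).trans ((min_le_right _ _).trans
          ((min_le_right _ _).trans ((min_le_right _ _).trans (min_le_right _ _))))
      linarith
  refine ⟨ε1, hε1, by linarith, C', by linarith, ?_⟩
  intro ε h δ M hε hεε1 hh hhε1 hM X Y S u v m G D hloc hu0 hX0 hD hm1 hm2 hv0 hG0 hS0 hY0
  have hh1 : h ≤ 1 := by linarith
  have hAD : A * Real.exp (-D) ≤ ec := by
    have h1 : Real.exp (-D) ≤ Real.exp (-C') := Real.exp_le_exp.mpr (by linarith)
    have := mul_le_mul_of_nonneg_left h1 hA.le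
    linarith
  have hD0 : 0 ≤ D := by linarith
  -- the claim, by induction
  have claim : ∀ k, (∀ j < k, u j < 1 - θ) →
      (∀ j < k, G j ≤ δ ∧ S j ≤ -M) ∧ ∑ j ∈ range k, oth h Y S m j ≤ e1 := by
    intro k
    induction k with
    | zero =>
      intro _
      exact ⟨fun j hj => absurd hj (Nat.not_lt_zero j), by simp; exact he1.le⟩
    | succ k ih =>
      intro hP
      have hPk : ∀ j < k, u j < 1 - θ := fun j hj => hP j (Nat.lt_succ_of_lt hj)
      obtain ⟨hGS, hsum⟩ := ih hPk
      obtain ⟨kz, co⟩ := hcore ε h hε (by linarith) hh (by linarith) X Y S u v m G k D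
        (fun j hj => hloc j (hGS j hj).1 (hGS j hj).2) hPk (hsum.trans he1c) hu0 hX0 hAD
        hm1 hm2 hv0
      have hminpos : ∀ j : ℕ, 0 ≤ 5 * ν * h * (min j kz : ℕ) := fun j => by positivity
      have hGk : G k ≤ δ := by have := (co.Gb k le_rfl).2; linarith
      have hSk : S k ≤ -M := by
        have := co.Sb k le_rfl; have := hminpos k; linarith
      refine ⟨?_, ?_⟩
      · intro j hj
        rcases Nat.lt_succ_iff_lt_or_eq.mp hj with hj' | hj'
        · exact hGS j hj'
        · rw [hj']; exact ⟨hGk, hSk⟩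
      · -- sum bound
        have hdur := co.dur
        have hkz := co.kzK
        have hkz_hi := co.kz_hi
        have hsplit : ∑ j ∈ range (k + 1), oth h Y S m j
            = h * ∑ j ∈ range (k + 1), Real.exp (-Y j)
              + h * ∑ j ∈ range (k + 1), m j ^ 2 * ES (S j) := by
          unfold oth
          rw [← Finset.mul_sum, Finset.sum_add_distrib]; ring
        have hE : h * ∑ j ∈ range (k + 1), m j ^ 2 * ES (S j) ≤ e1 / 2 := by
          have h1 : ∑ j ∈ range (k + 1), m j ^ 2 * ES (S j) ≤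
              ∑ j ∈ range (k + 1), (36 * Vm' ^ 2 * Real.exp Cc * Real.exp (-C'))
                * Real.exp (-(5 * ν * h * (min j kz : ℕ))) := by
            apply Finset.sum_le_sum
            intro j hj
            have hjk : j ≤ k := Nat.lt_succ_iff.mp (Finset.mem_range.mp hj)
            have h2 : m j ^ 2 ≤ Vm' ^ 2 := by
              have := co.mb' j hjk
              rw [← hVm'] at this
              rw [← sq_abs (m j)]
              exact pow_le_pow_left₀ (abs_nonneg _) this 2
            have h3 : ES (S j) ≤ 36 * (Real.exp Cc * Real.exp (-C')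
                * Real.exp (-(5 * ν * h * (min j kz : ℕ)))) := by
              refine (ES_le_exp _).trans (mul_le_mul_of_nonneg_left ?_ (by norm_num))
              rw [← Real.exp_add, ← Real.exp_add]
              apply Real.exp_le_exp.mpr
              have := co.Sb j hjk
              linarith
            calc m j ^ 2 * ES (S j) ≤ Vm' ^ 2 * (36 * (Real.exp Cc * Real.exp (-C')
                * Real.exp (-(5 * ν * h * (min j kz : ℕ))))) :=
                  mul_le_mul h2 h3 (ES_nonneg _) (by positivity)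
              _ = _ := by ring
          rw [← Finset.mul_sum] at h1
          have h4 := sum_exp_min (5 * ν) h (by positivity) hh
            (mul_small _ _ _ (by positivity) hhε1 hε1ν) kz k hkz
          have h5 : h * ∑ j ∈ range (k + 1), Real.exp (-(5 * ν * h * (min j kz : ℕ)))
              ≤ 2 / (5 * ν) + 1 + Cc := by linarith
          calc h * ∑ j ∈ range (k + 1), m j ^ 2 * ES (S j) ≤ h * _ :=
                mul_le_mul_of_nonneg_left h1 hh.le
            _ = (36 * Vm' ^ 2 * Real.exp Cc * Real.exp (-C')) *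
                (h * ∑ j ∈ range (k + 1), Real.exp (-(5 * ν * h * (min j kz : ℕ)))) := by ring
            _ ≤ (36 * Vm' ^ 2 * Real.exp Cc * Real.exp (-C')) * (2 / (5 * ν) + 1 + Cc) :=
                mul_le_mul_of_nonneg_left h5 (by positivity)
            _ = a1 * Real.exp (-C') := by rw [ha1]; ring
            _ ≤ e1 / 2 := hsm1
        have hY : h * ∑ j ∈ range (k + 1), Real.exp (-Y j) ≤ e1 / 2 := by
          rcases hY0 with ⟨hv, hYs⟩ | hYb
          · have h1 : ∑ j ∈ range (k + 1), Real.exp (-Y j) ≤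
                ∑ j ∈ range (k + 1), (ε1 * Real.exp Cc)
                  * Real.exp (-(β * h * (min j kz : ℕ))) := by
              apply Finset.sum_le_sum
              intro j hj
              have hjk : j ≤ k := Nat.lt_succ_iff.mp (Finset.mem_range.mp hj)
              have h2 := co.Yb j hjk
              have h3 : β * h * (min j kz : ℕ) ≤ 2 * (v 0 - C2 * θ) * h * (min j kz : ℕ) := by
                have : β * (h * (min j kz : ℕ)) ≤ 2 * (v 0 - C2 * θ) * (h * (min j kz : ℕ)) :=
                  mul_le_mul_of_nonneg_right (by linarith) (by positivity)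
                linarith
              calc Real.exp (-Y j) ≤ Real.exp (-Y 0 + Cc + -(β * h * (min j kz : ℕ))) :=
                    Real.exp_le_exp.mpr (by linarith)
                _ = Real.exp (-Y 0) * Real.exp Cc * Real.exp (-(β * h * (min j kz : ℕ))) := by
                    rw [Real.exp_add, Real.exp_add]
                _ ≤ _ := by
                    apply mul_le_mul_of_nonneg_right _ (Real.exp_pos _).le
                    exact mul_le_mul_of_nonneg_right hYs (Real.exp_pos _).le
            rw [← Finset.mul_sum] at h1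
            have h4 := sum_exp_min β h hβ hh
              (mul_small _ _ _ hβ.le hhε1 hε1β) kz k hkz
            have h5 : h * ∑ j ∈ range (k + 1), Real.exp (-(β * h * (min j kz : ℕ)))
                ≤ 2 / β + 1 + Cc := by linarith
            calc h * ∑ j ∈ range (k + 1), Real.exp (-Y j) ≤ h * _ :=
                  mul_le_mul_of_nonneg_left h1 hh.le
              _ = (ε1 * Real.exp Cc) *
                  (h * ∑ j ∈ range (k + 1), Real.exp (-(β * h * (min j kz : ℕ)))) := by ring
              _ ≤ (ε1 * Real.exp Cc) * (2 / β + 1 + Cc) :=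
                  mul_le_mul_of_nonneg_left h5 (by positivity)
              _ = b1 * ε1 := by rw [hb1]; ring
              _ ≤ e1 / 2 := hε1b
          · have hkt : h * k ≤ D + 2 * Cc := by
              have h1 : h * kz ≤ D + Cc := by
                have h2 : (h * kz) ≤ 2 * (1 - θ) * (h * kz) :=
                  half_time θ _ hθ1 (by positivity)
                linarith
              have : h * (k:ℝ) = h * kz + h * ((k:ℝ) - kz) := by ring
              linarith
            have h1 : ∑ j ∈ range (k + 1), Real.exp (-Y j) ≤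
                ∑ j ∈ range (k + 1), (Real.exp (4 * Vm' * Cc + Cc) * Real.exp (-C')
                  * Real.exp (-(2 * D))) := by
              apply Finset.sum_le_sum
              intro j hj
              have hjk : j ≤ k := Nat.lt_succ_iff.mp (Finset.mem_range.mp hj)
              have h2 := co.Yb j hjk
              have h3 : h * (min j kz : ℕ) ≤ h * kz := by
                apply mul_le_mul_of_nonneg_left _ hh.le
                exact_mod_cast min_le_right j kz
              have h30 : 0 ≤ h * (min j kz : ℕ) := by positivity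
              have h31 : 9 / 5 * (h * kz) ≤ D + Cc := by
                have h32 : 9 / 5 * (h * (kz : ℝ)) ≤ 2 * (1 - θ) * (h * kz) :=
                  mul_le_mul_of_nonneg_right (by linarith) (by positivity)
                linarith
              have h33 : -(2 * Vm + 1) * (h * (min j kz : ℕ)) ≤
                  2 * (v 0 - C2 * θ) * (h * (min j kz : ℕ)) := by
                apply mul_le_mul_of_nonneg_right _ h30
                have := (abs_le.mp hv0).1
                linarith
              have h34 : (2 * Vm + 1) * (h * (min j kz : ℕ)) ≤ (2 * Vm + 1) * (5 / 9 * (D + Cc)) :=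
                mul_le_mul_of_nonneg_left (by linarith) (by linarith)
              have h35 : 1 * D ≤ Vm * D := mul_le_mul_of_nonneg_right hVm hD0
              have h36 : 1 * Cc ≤ Vm * Cc := mul_le_mul_of_nonneg_right hVm (by linarith)
              have h37 : Vm * Cc ≤ Vm' * Cc := mul_le_mul_of_nonneg_right (by linarith) (by linarith)
              rw [← Real.exp_add, ← Real.exp_add]
              apply Real.exp_le_exp.mpr
              have h38 : (0 : ℝ) ≤ Vm' * Cc := by
                have := mul_pos hVm'pos' (by linarith : 0 < Cc)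
                linarith
              linarith
            rw [Finset.sum_const, Finset.card_range, nsmul_eq_mul] at h1
            have h7 : D * Real.exp (-(2 * D)) ≤ 1 := D_exp D hD0
            have h12 : Real.exp (-(2 * D)) ≤ 1 := Real.exp_le_one_iff.mpr (by linarith)
            have h13 : h * ((k + 1 : ℕ) : ℝ) ≤ D + 2 * Cc + 1 := by push_cast; linarith
            calc h * ∑ j ∈ range (k + 1), Real.exp (-Y j) ≤ h * _ :=
                  mul_le_mul_of_nonneg_left h1 hh.le
              _ = (h * ((k + 1 : ℕ) : ℝ)) * Real.exp (-(2 * D)) *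
                  (Real.exp (4 * Vm' * Cc + Cc) * Real.exp (-C')) := by ring
              _ ≤ (D + 2 * Cc + 1) * Real.exp (-(2 * D)) *
                  (Real.exp (4 * Vm' * Cc + Cc) * Real.exp (-C')) := by
                  apply mul_le_mul_of_nonneg_right _ (by positivity)
                  exact mul_le_mul_of_nonneg_right h13 (Real.exp_pos _).le
              _ ≤ (2 * Cc + 2) * (Real.exp (4 * Vm' * Cc + Cc) * Real.exp (-C')) := by
                  apply mul_le_mul_of_nonneg_right _ (by positivity)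
                  have : (2 * Cc + 1) * Real.exp (-(2 * D)) ≤ (2 * Cc + 1) * 1 :=
                    mul_le_mul_of_nonneg_left h12 (by linarith)
                  linarith
              _ = a2 * Real.exp (-C') := by rw [ha2]; ring
              _ ≤ e1 / 2 := hsm2
        rw [hsplit]; linarith
  -- core at any K before exit
  have coreAt : ∀ K, (∀ j < K, u j < 1 - θ) →
      ∃ kz, CoreOut A R N ν Vm θ C2 Cc h X Y S u v m G K D kz := by
    intro K hK
    obtain ⟨hGS, hsum⟩ := claim K hK
    exact hcore ε h hε (by linarith) hh (by linarith) X Y S u v m G K D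
      (fun j hj => hloc j (hGS j hj).1 (hGS j hj).2) hK (hsum.trans he1c) hu0 hX0 hAD hm1 hm2 hv0
  have timeB : ∀ K, (∀ j < K, u j < 1 - θ) → h * K ≤ D + 2 * Cc := by
    intro K hK
    obtain ⟨kz, co⟩ := coreAt K hK
    have hdur := co.dur
    have hkz_hi := co.kz_hi
    have h1 : h * kz ≤ D + Cc := by
      have h2 : (h * kz) ≤ 2 * (1 - θ) * (h * kz) :=
        half_time θ _ hθ1 (by positivity)
      linarith
    have : h * (K:ℝ) = h * kz + h * ((K:ℝ) - kz) := by ring
    linarith
  have hexit : ∃ K, 1 - θ ≤ u K := by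
    by_contra hcon
    push Not at hcon
    obtain ⟨K, hK⟩ := exists_nat_gt ((D + 2 * Cc) / h)
    have h1 := timeB K (fun j _ => hcon j)
    rw [div_lt_iff₀ hh] at hK
    linarith
  classical
  set K := Nat.find hexit with hKdef
  have hKspec : 1 - θ ≤ u K := Nat.find_spec hexit
  have hKmin : ∀ j < K, u j < 1 - θ := fun j hj => by
    have := Nat.find_min hexit hj; push Not at this; exact this
  obtain ⟨kz, co⟩ := coreAt K hKmin
  obtain ⟨hGS, hsum⟩ := claim K hKmin
  have hkzlt : kz < K := by
    by_contra hcon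
    have hkzeq : kz = K := le_antisymm co.kzK (not_lt.mp hcon)
    have hK0 : K ≠ 0 := by
      intro h0
      rw [h0, hu0] at hKspec
      linarith
    obtain ⟨K', hK'⟩ := Nat.exists_eq_succ_of_ne_zero hK0
    have hK'lt : K' < K := by omega
    have h1 := co.ukz K' (by omega)
    have h2 := (abs_le.mp (hloc K' (hGS K' hK'lt).1 (hGS K' hK'lt).2).hu).2
    have h3 : u K = u (K' + 1) := by rw [hK']
    have h4 := (abs_le.mp (co.en K' hK'lt.le)).2
    have h5 : A * Real.exp (-X K') ≤ 2 := by
      have := sq_nonneg (u K')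
      have : θ ^ 2 ≤ 1 := pow_le_one₀ hθ.le (by linarith)
      linarith
    have h6 : oth h Y S m K' ≤ e1 := by
      refine le_trans ?_ hsum
      exact Finset.single_le_sum (f := fun j => oth h Y S m j)
        (fun i _ => oth_nonneg h hh.le Y S m i) (Finset.mem_range.mpr hK'lt)
    have h7 : C * oth h Y S m K' ≤ 1 / 4 := (mul_le_mul_of_nonneg_left h6 hC.le).trans he1C
    have h8 : h * A * Real.exp (-X K') ≤ 1 / 4 := by
      have h9 := mul_le_mul_of_nonneg_left h5 hh.le
      linarith
    have h10 : ε * h * Real.exp (-X K') ≤ 1 / 4 := by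
      have h11 : ε * h ≤ A / 8 := by
        have : ε * h ≤ 1 * h := mul_le_mul_of_nonneg_right (by linarith) hh.le
        linarith
      have h12 : ε * h * Real.exp (-X K') ≤ A / 8 * Real.exp (-X K') :=
        mul_le_mul_of_nonneg_right h11 (Real.exp_pos _).le
      linarith
    rw [h3] at hKspec
    linarith
  refine ⟨K, kz, ?_, hkzlt, hKspec, hGS, ?_⟩
  · have hle : Cc ≤ C' := by linarith
    exact
      { kzK := co.kzK, ukz := co.ukz, dur := co.dur.trans hle,
        kz_hi := co.kz_hi.trans (by linarith),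
        kz_lo := fun h => ⟨(co.kz_lo h).1.trans (by linarith), (co.kz_lo h).2.trans hle⟩,
        en := co.en, ub := co.ub,
        Xb := fun k hk => ⟨by have := (co.Xb k hk).1; linarith, by have := (co.Xb k hk).2; linarith⟩,
        Xa := fun k hk => by have := co.Xa k hk; linarith,
        vb := co.vb, mb := co.mb, vb' := co.vb', mb' := co.mb',
        Sb := fun k hk => by have := co.Sb k hk; linarith,
        Yb := fun k hk => by have := co.Yb k hk; linarith,
        Gb := fun k hk => ⟨(co.Gb k hk).1, by have := (co.Gb k hk).2; linarith⟩,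
        Yf := co.Yf.trans (by linarith), Sf := co.Sf.trans (by linarith),
        Sc := fun k hk => (co.Sc k hk).trans (by linarith),
        Yc := fun k hk => (co.Yc k hk).trans (by linarith),
        Xf := co.Xf.trans (by linarith) }
  · have := timeB K hKmin
    linarith

end Pool.Agent.Hhelper30.Forsythe
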