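import Pool.Agent.Hhelper30.Forsythe.RS

/-! Energy estimate for one incoming particle (bounce). -/

set_option autoImplicit false

namespace Pool.Agent.Hhelper30.Forsythe

open Filter Topology Set Finset

theorem xb_step (A C ε h u Z o a x c1 : ℝ) (hA : 0 < A) (hC : 0 < C) (hε0 : 0 ≤ ε) (hε1 : ε ≤ 1)
    (hh : 0 < h) (hh1 : h ≤ 1) (hc1 : c1 = 4 + 4 * C / A + C) (hhc : h * c1 ≤ 1)
    (hu : |u| ≤ 2) (hZ : 0 ≤ Z) (hAZ : A * Z ≤ 4) (ho : 0 ≤ o) (ho1 : o ≤ 1)
    (ha : |a - h * A * Z| ≤ ε * h * Z + C * o) (hx : |x - 2 * h * u| ≤ C * h * (h * Z + o)) :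
    |((u + a) ^ 2 + A * (Z * Real.exp (-x))) - (u ^ 2 + A * Z)| ≤
      (4 + 8 * (A + 1) ^ 2 / A + 12 * C + A * c1 ^ 2 + 2 * C ^ 2) * (ε + h) * (h * Z)
      + (4 + 8 * (A + 1) ^ 2 / A + 12 * C + A * c1 ^ 2 + 2 * C ^ 2) * o := by
  have hZ4 : Z ≤ 4 / A := by rw [le_div_iff₀ hA]; linarith [mul_comm A Z]
  have hx1 : |x| ≤ h * c1 := by
    have h1 : |x| ≤ |x - 2 * h * u| + |2 * h * u| := by
      have := abs_add_le (x - 2 * h * u) (2 * h * u); simpa using this
    have h2 : |2 * h * u| ≤ 4 * h := by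
      rw [abs_mul, abs_of_pos (by positivity : (0:ℝ) < 2 * h)]; nlinarith
    have h3 : C * h * (h * Z + o) ≤ C * h * (4 / A + 1) := by
      apply mul_le_mul_of_nonneg_left _ (by positivity)
      have : h * Z ≤ Z := by nlinarith
      linarith
    have h4 : C * h * (4 / A + 1) + 4 * h = h * c1 := by rw [hc1]; field_simp; ring
    linarith
  have hx1' : |x| ≤ 1 := hx1.trans hhc
  have he : |Real.exp (-x) - 1 - (-x)| ≤ (-x) ^ 2 :=
    Real.abs_exp_sub_one_sub_id_le (by rwa [abs_neg])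
  set ρ := Real.exp (-x) - 1 - (-x) with hρ
  have hx2 : x ^ 2 ≤ h ^ 2 * c1 ^ 2 := by
    have := abs_le.mp hx1; nlinarith [abs_nonneg x, sq_abs x]
  have hexp : Real.exp (-x) = 1 - x + ρ := by rw [hρ]; ring
  have heq : ((u + a) ^ 2 + A * (Z * Real.exp (-x))) - (u ^ 2 + A * Z)
      = 2 * u * (a - h * A * Z) + a ^ 2 + A * Z * (2 * h * u - x) + A * Z * ρ := by
    rw [hexp]; ring
  have hp0 : 0 ≤ h * (A + 1) * Z := by positivity
  have hq0 : 0 ≤ C * o := by positivity
  have T1 : |2 * u * (a - h * A * Z)| ≤ 4 * (ε * h * Z + C * o) := by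
    rw [abs_mul, abs_mul, abs_two]
    have : 0 ≤ ε * h * Z + C * o := by positivity
    nlinarith [abs_nonneg (a - h * A * Z), abs_nonneg u]
  have T2 : |a ^ 2| ≤ 8 * (A + 1) ^ 2 / A * (h * (h * Z)) + 2 * C ^ 2 * o := by
    have ha1 : |a| ≤ h * (A + 1) * Z + C * o := by
      have h1 : |a| ≤ |a - h * A * Z| + |h * A * Z| := by
        have := abs_add_le (a - h * A * Z) (h * A * Z); simpa using this
      have h2 : |h * A * Z| = h * A * Z := abs_of_nonneg (by positivity)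
      have h3 : ε * h * Z ≤ h * Z := by nlinarith [mul_nonneg hh.le hZ]
      nlinarith
    have ha2 : a ^ 2 ≤ 2 * (h * (A + 1) * Z) ^ 2 + 2 * (C * o) ^ 2 := by
      have : a ^ 2 ≤ (h * (A + 1) * Z + C * o) ^ 2 := by
        rw [← sq_abs a]; exact pow_le_pow_left₀ (abs_nonneg a) ha1 2
      nlinarith [sq_nonneg (h * (A + 1) * Z - C * o)]
    have h4 : (h * (A + 1) * Z) ^ 2 ≤ 4 * (A + 1) ^ 2 / A * (h * (h * Z)) := by
      have : (h * (A + 1) * Z) ^ 2 = (h ^ 2 * (A + 1) ^ 2 * Z) * Z := by ring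
      rw [this]
      calc (h ^ 2 * (A + 1) ^ 2 * Z) * Z ≤ (h ^ 2 * (A + 1) ^ 2 * Z) * (4 / A) :=
            mul_le_mul_of_nonneg_left hZ4 (by positivity)
        _ = 4 * (A + 1) ^ 2 / A * (h * (h * Z)) := by ring
    have h5 : (C * o) ^ 2 ≤ C ^ 2 * o := by
      have : (C * o) ^ 2 = C ^ 2 * o * o := by ring
      rw [this]; nlinarith [mul_nonneg (sq_nonneg C) ho]
    rw [abs_of_nonneg (sq_nonneg a)]
    have : 8 * (A + 1) ^ 2 / A * (h * (h * Z)) = 2 * (4 * (A + 1) ^ 2 / A * (h * (h * Z))) := by ring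
    rw [this]; linarith
  have T3 : |A * Z * (2 * h * u - x)| ≤ 4 * C * (h * (h * Z)) + 4 * C * o := by
    rw [abs_mul, abs_of_nonneg (by positivity : 0 ≤ A * Z), abs_sub_comm]
    have h1 : A * Z * |x - 2 * h * u| ≤ 4 * (C * h * (h * Z + o)) := by
      have h0 : 0 ≤ C * h * (h * Z + o) := by positivity
      have : A * Z * |x - 2 * h * u| ≤ A * Z * (C * h * (h * Z + o)) :=
        mul_le_mul_of_nonneg_left hx (by positivity)
      nlinarith
    have h2 : C * h * o ≤ C * o := by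
      have : C * h * o = h * (C * o) := by ring
      rw [this]; nlinarith
    nlinarith
  have T4 : |A * Z * ρ| ≤ A * c1 ^ 2 * (h * (h * Z)) := by
    rw [abs_mul, abs_of_nonneg (by positivity : 0 ≤ A * Z)]
    have : |ρ| ≤ h ^ 2 * c1 ^ 2 := he.trans (by rw [neg_sq]; exact hx2)
    calc A * Z * |ρ| ≤ A * Z * (h ^ 2 * c1 ^ 2) := mul_le_mul_of_nonneg_left this (by positivity)
      _ = A * c1 ^ 2 * (h * (h * Z)) := by ring
  rw [heq]
  have habs := (abs_add_le (2 * u * (a - h * A * Z) + a ^ 2 + A * Z * (2 * h * u - x)) (A * Z * ρ))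
  have habs2 := (abs_add_le (2 * u * (a - h * A * Z) + a ^ 2) (A * Z * (2 * h * u - x)))
  have habs3 := (abs_add_le (2 * u * (a - h * A * Z)) (a ^ 2))
  have hhZ : 0 ≤ h * Z := by positivity
  have hhhZ : 0 ≤ h * (h * Z) := by positivity
  have hAA : 0 ≤ 8 * (A + 1) ^ 2 / A := by positivity
  have hc1sq : 0 ≤ A * c1 ^ 2 := by positivity
  have hεhZ : 0 ≤ ε * (h * Z) := by positivity
  have e1 : (4 + 8 * (A + 1) ^ 2 / A + 12 * C + A * c1 ^ 2 + 2 * C ^ 2) * (ε + h) * (h * Z)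
      = (4 + 8 * (A + 1) ^ 2 / A + 12 * C + A * c1 ^ 2 + 2 * C ^ 2) * (ε * (h * Z))
       + (4 + 8 * (A + 1) ^ 2 / A + 12 * C + A * c1 ^ 2 + 2 * C ^ 2) * (h * (h * Z)) := by ring
  rw [e1]
  have f1 : 4 * (ε * (h * Z)) ≤
      (4 + 8 * (A + 1) ^ 2 / A + 12 * C + A * c1 ^ 2 + 2 * C ^ 2) * (ε * (h * Z)) := by
    apply mul_le_mul_of_nonneg_right _ hεhZ
    nlinarith [sq_nonneg C]
  have f2 : (8 * (A + 1) ^ 2 / A + 4 * C + A * c1 ^ 2) * (h * (h * Z)) ≤
      (4 + 8 * (A + 1) ^ 2 / A + 12 * C + A * c1 ^ 2 + 2 * C ^ 2) * (h * (h * Z)) := by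
    apply mul_le_mul_of_nonneg_right _ hhhZ
    nlinarith [sq_nonneg C]
  have f3 : (8 * C + 2 * C ^ 2) * o ≤
      (4 + 8 * (A + 1) ^ 2 / A + 12 * C + A * c1 ^ 2 + 2 * C ^ 2) * o := by
    apply mul_le_mul_of_nonneg_right _ ho
    nlinarith [sq_nonneg C]
  nlinarith

theorem xb (A C : ℝ) (hA : 0 < A) (hC : 0 < C) :
    ∃ C1 : ℝ, 1 ≤ C1 ∧ ∀ (ε h : ℝ), 0 ≤ ε → 0 < h → C1 * (ε + h) ≤ 1 →
    ∀ (u X o : ℕ → ℝ) (K : ℕ),
    (∀ j < K, 0 ≤ o j) → (∑ j ∈ range K, o j ≤ ε) →
    |u 0 + 1| ≤ ε → A * Real.exp (-X 0) ≤ ε →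
    (∀ j < K, |u (j + 1) - u j - h * A * Real.exp (-X j)| ≤ ε * h * Real.exp (-X j) + C * o j) →
    (∀ j < K, |X (j + 1) - X j - 2 * h * u j| ≤ C * h * (h * Real.exp (-X j) + o j)) →
    ∀ k ≤ K, |u k ^ 2 + A * Real.exp (-X k) - 1| ≤ C1 * (ε + h) ∧
      |u k - u 0 - A * (h * ∑ j ∈ range k, Real.exp (-X j))| ≤ C1 * (ε + h) ∧
      h * ∑ j ∈ range k, Real.exp (-X j) ≤ C1 := by
  set c1 := 4 + 4 * C / A + C with hc1
  set c2 := 4 + 8 * (A + 1) ^ 2 / A + 12 * C + A * c1 ^ 2 + 2 * C ^ 2 with hc2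
  set c3 := 2 * (4 + C) / A with hc3
  have c1pos : 0 < c1 := by positivity
  have c2pos : 0 < c2 := by positivity
  have c3pos : 0 < c3 := by positivity
  refine ⟨2 + 6 / A + c1 + (c2 * (c3 + 2) + 4) + c3 + C, ?_, ?_⟩
  · have : 0 ≤ 6 / A := by positivity
    have : 0 ≤ c2 * (c3 + 2) := by positivity
    linarith
  intro ε h hε hh hsmall u X o K ho hsum hu0 hX0 hu hX
  set C1 := 2 + 6 / A + c1 + (c2 * (c3 + 2) + 4) + c3 + C with hC1
  have p1 : 0 ≤ 6 / A := by positivity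
  have p2 : 0 ≤ c2 * (c3 + 2) := by positivity
  have hεh : 0 < ε + h := by linarith
  have k1 : 2 * (ε + h) ≤ 1 := le_trans (mul_le_mul_of_nonneg_right (by linarith) hεh.le) hsmall
  have k2 : 6 / A * (ε + h) ≤ 1 := le_trans (mul_le_mul_of_nonneg_right (by linarith) hεh.le) hsmall
  have k3 : c1 * (ε + h) ≤ 1 := le_trans (mul_le_mul_of_nonneg_right (by linarith) hεh.le) hsmall
  have k4 : (c2 * (c3 + 2) + 4) * (ε + h) ≤ 1 :=
    le_trans (mul_le_mul_of_nonneg_right (by linarith) hεh.le) hsmall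
  have hε1 : ε ≤ 1 / 2 := by linarith
  have hh1 : h ≤ 1 := by linarith
  have hεA : ε ≤ A / 2 := by
    have : 6 / A * ε ≤ 1 := le_trans (mul_le_mul_of_nonneg_left (by linarith) p1) k2
    rw [div_mul_eq_mul_div, div_le_one hA] at this; linarith
  have hhA : 4 * h / A ≤ 1 := by
    have : 6 / A * h ≤ 1 := le_trans (mul_le_mul_of_nonneg_left (by linarith) p1) k2
    rw [div_mul_eq_mul_div, div_le_one hA] at this
    rw [div_le_one hA]; linarith
  have hhc : h * c1 ≤ 1 := by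
    have : c1 * h ≤ c1 * (ε + h) := mul_le_mul_of_nonneg_left (by linarith) c1pos.le
    linarith
  set E : ℕ → ℝ := fun k => u k ^ 2 + A * Real.exp (-X k) with hE
  set W : ℕ → ℝ := fun k => h * ∑ j ∈ range k, Real.exp (-X j) with hW
  set O : ℕ → ℝ := fun k => ∑ j ∈ range k, o j with hO
  have hOle : ∀ k ≤ K, O k ≤ ε := by
    intro k hk
    refine le_trans ?_ hsum
    exact Finset.sum_le_sum_of_subset_of_nonneg (Finset.range_mono hk)
      (fun i hi _ => ho i (Finset.mem_range.mp hi))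
  have hO0 : ∀ k ≤ K, 0 ≤ O k := by
    intro k hk
    exact Finset.sum_nonneg (fun i hi => ho i (lt_of_lt_of_le (Finset.mem_range.mp hi) hk))
  have hW0 : ∀ k, 0 ≤ W k := by
    intro k
    exact mul_nonneg hh.le (Finset.sum_nonneg (fun i _ => (Real.exp_pos _).le))
  have hu0' := abs_le.mp hu0
  have hE0 : |E 0 - 1| ≤ 4 * ε := by
    have h1 : 0 ≤ A * Real.exp (-X 0) := by positivity
    rw [abs_le]; simp only [hE]; constructor <;> nlinarith
  -- main induction
  have key : ∀ k ≤ K, |E k - E 0| ≤ c2 * (ε + h) * W k + c2 * O k ∧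
      |u k - u 0 - A * W k| ≤ ε * W k + C * O k ∧ |u k| ≤ 2 ∧ A * Real.exp (-X k) ≤ 4 ∧
      W k ≤ c3 := by
    intro k
    induction k with
    | zero =>
      intro _
      refine ⟨by simp [hW, hO], by simp [hW, hO], ?_, ?_, ?_⟩
      · rw [abs_le]; constructor <;> linarith
      · linarith
      · simp only [hW]; simp; exact c3pos.le
    | succ k ih =>
      intro hk
      have hkK : k < K := hk
      obtain ⟨i1, i2, i3, i4, i5⟩ := ih hkK.le
      have hok : 0 ≤ o k := ho k hkK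
      have hok1 : o k ≤ 1 := by
        have h1 : o k ≤ ∑ j ∈ range K, o j :=
          Finset.single_le_sum (f := o) (fun i hi => ho i (Finset.mem_range.mp hi))
            (Finset.mem_range.mpr hkK)
        linarith
      have hZ : 0 ≤ Real.exp (-X k) := (Real.exp_pos _).le
      have hWs : W (k + 1) = W k + h * Real.exp (-X k) := by
        simp only [hW, Finset.sum_range_succ]; ring
      have hOs : O (k + 1) = O k + o k := by simp only [hO, Finset.sum_range_succ]
      have hst := xb_step A C ε h (u k) (Real.exp (-X k)) (o k) (u (k + 1) - u k)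
        (X (k + 1) - X k) c1 hA hC hε (by linarith) hh hh1 rfl hhc i3 hZ i4 hok hok1
        (hu k hkK) (hX k hkK)
      have hexp : Real.exp (-X k) * Real.exp (-(X (k + 1) - X k)) = Real.exp (-X (k + 1)) := by
        rw [← Real.exp_add]; congr 1; ring
      rw [hexp, show u k + (u (k + 1) - u k) = u (k + 1) by ring] at hst
      have hEs : |E (k + 1) - E k| ≤ c2 * (ε + h) * (h * Real.exp (-X k)) + c2 * o k := hst
      have j1 : |E (k + 1) - E 0| ≤ c2 * (ε + h) * W (k + 1) + c2 * O (k + 1) := by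
        have := abs_add_le (E (k + 1) - E k) (E k - E 0)
        rw [show E (k + 1) - E k + (E k - E 0) = E (k + 1) - E 0 by ring] at this
        rw [hWs, hOs]
        calc |E (k + 1) - E 0| ≤ _ := this
          _ ≤ (c2 * (ε + h) * (h * Real.exp (-X k)) + c2 * o k)
              + (c2 * (ε + h) * W k + c2 * O k) := add_le_add hEs i1
          _ = _ := by ring
      have j2 : |u (k + 1) - u 0 - A * W (k + 1)| ≤ ε * W (k + 1) + C * O (k + 1) := by
        have := abs_add_le (u (k + 1) - u k - h * A * Real.exp (-X k)) (u k - u 0 - A * W k)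
        rw [show u (k + 1) - u k - h * A * Real.exp (-X k) + (u k - u 0 - A * W k)
          = u (k + 1) - u 0 - A * W (k + 1) by rw [hWs]; ring] at this
        rw [hWs, hOs]
        rw [hWs] at this
        calc _ ≤ _ := this
          _ ≤ (ε * h * Real.exp (-X k) + C * o k) + (ε * W k + C * O k) :=
              add_le_add (hu k hkK) i2
          _ = _ := by ring
      have hZ4 : Real.exp (-X k) ≤ 4 / A := by
        rw [le_div_iff₀ hA]; linarith [mul_comm A (Real.exp (-X k))]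
      have hW1 : W (k + 1) ≤ c3 + 1 := by
        rw [hWs]
        have : h * Real.exp (-X k) ≤ h * (4 / A) := mul_le_mul_of_nonneg_left hZ4 hh.le
        have : h * (4 / A) = 4 * h / A := by ring
        linarith
      have hOk1 : O (k + 1) ≤ ε := hOle (k + 1) hk
      have hEb : |E (k + 1) - 1| ≤ (c2 * (c3 + 2) + 4) * (ε + h) := by
        have h1 := abs_add_le (E (k + 1) - E 0) (E 0 - 1)
        rw [show E (k + 1) - E 0 + (E 0 - 1) = E (k + 1) - 1 by ring] at h1
        have h2 : c2 * (ε + h) * W (k + 1) ≤ c2 * (ε + h) * (c3 + 1) :=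
          mul_le_mul_of_nonneg_left hW1 (by positivity)
        have h3 : c2 * O (k + 1) ≤ c2 * (ε + h) := by
          apply mul_le_mul_of_nonneg_left _ c2pos.le; linarith
        have h6 : (c2 * (c3 + 2) + 4) * (ε + h)
            = c2 * (ε + h) * (c3 + 1) + c2 * (ε + h) + 4 * ε + 4 * h := by ring
        linarith
      have hE2 : E (k + 1) ≤ 2 := by have := (abs_le.mp hEb).2; linarith
      have hZ' : 0 < Real.exp (-X (k + 1)) := Real.exp_pos _
      have hu2 : |u (k + 1)| ≤ 2 := by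
        apply abs_le_of_sq_le_sq _ (by norm_num)
        have h7 : 0 ≤ A * Real.exp (-X (k + 1)) := mul_nonneg hA.le hZ'.le
        have h8 : u (k + 1) ^ 2 ≤ E (k + 1) := by simp only [hE]; linarith
        linarith
      have hAZ' : A * Real.exp (-X (k + 1)) ≤ 4 := by
        have : A * Real.exp (-X (k + 1)) ≤ E (k + 1) := by
          simp only [hE]; linarith [sq_nonneg (u (k + 1))]
        linarith
      refine ⟨j1, j2, hu2, hAZ', ?_⟩
      have h4 := (abs_le.mp j2).1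
      have h5 := (abs_le.mp hu2).2
      have h6 : A / 2 * W (k + 1) ≤ 4 + C := by
        have hO1 : C * O (k + 1) ≤ C * 1 := mul_le_mul_of_nonneg_left (by linarith) hC.le
        have hεW : ε * W (k + 1) ≤ A / 2 * W (k + 1) :=
          mul_le_mul_of_nonneg_right hεA (hW0 _)
        have h9 : A * W (k + 1) = A / 2 * W (k + 1) + A / 2 * W (k + 1) := by ring
        have h10 := (abs_le.mp j2).1
        have h11 := (abs_le.mp i3).1
        have h12 : -2 ≤ u 0 := by linarith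
        have h13 : A * W (k + 1) ≤ ε * W (k + 1) + C * O (k + 1) + u (k + 1) - u 0 := by
          have := (abs_le.mp j2).1; linarith
        linarith
      have h14 : W (k + 1) * A ≤ 2 * (4 + C) := by
        have : W (k + 1) * A = 2 * (A / 2 * W (k + 1)) := by ring
        linarith
      rw [hc3, le_div_iff₀ hA]; exact h14
  intro k hk
  obtain ⟨i1, i2, i3, i4, i5⟩ := key k hk
  have hOk := hOle k hk
  have hpp : 0 ≤ c2 * (ε + h) := by positivity
  refine ⟨?_, ?_, ?_⟩
  · have h1 := abs_add_le (E k - E 0) (E 0 - 1)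
    rw [show E k - E 0 + (E 0 - 1) = E k - 1 by ring] at h1
    have h2 : c2 * (ε + h) * W k ≤ c2 * (ε + h) * c3 :=
      mul_le_mul_of_nonneg_left i5 hpp
    have h3 : c2 * O k ≤ c2 * (ε + h) := by
      apply mul_le_mul_of_nonneg_left _ c2pos.le; linarith
    have h4 : (c2 * (c3 + 2) + 4) * (ε + h) ≤ C1 * (ε + h) :=
      mul_le_mul_of_nonneg_right (by linarith) hεh.le
    have h5 : E k - 1 = u k ^ 2 + A * Real.exp (-X k) - 1 := rfl
    rw [h5] at h1
    have h6 : (c2 * (c3 + 2) + 4) * (ε + h)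
        = c2 * (ε + h) * c3 + 2 * (c2 * (ε + h)) + 4 * ε + 4 * h := by ring
    linarith
  · refine i2.trans ?_
    have h2 : ε * W k ≤ (ε + h) * c3 := mul_le_mul (by linarith) i5 (hW0 k) hεh.le
    have h3 : C * O k ≤ C * (ε + h) := mul_le_mul_of_nonneg_left (by linarith) hC.le
    have h4 : (c3 + C) * (ε + h) ≤ C1 * (ε + h) :=
      mul_le_mul_of_nonneg_right (by linarith) hεh.le
    have h5 : (c3 + C) * (ε + h) = (ε + h) * c3 + C * (ε + h) := by ring
    linarith
  · refine i5.trans ?_; linarith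

end Pool.Agent.Hhelper30.Forsythe
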