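import Pool.Agent.Hhelper30.Forsythe.BStage

/-! Coasting after a bounce: `x` moves away. -/

set_option autoImplicit false

namespace Pool.Agent.Hhelper30.Forsythe

open Filter Topology Set Finset

/-- what is known at every time during the coasting -/
structure CoastInv (τ V CT CG h : ℝ) (X Y S u v m G : ℕ → ℝ) (j : ℕ) : Prop where
  u : |u j - u 0| ≤ τ
  v : |v j - v 0| ≤ τ
  m : |m j - m 0| ≤ τ
  Xlo : X 0 + 1 / 2 * h * j - 1 ≤ X j
  Xhi : X j ≤ X 0 + (2 * V * CT + 1)
  Y : |Y j - Y 0| ≤ 2 * V * CT + 1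
  S : |S j - S 0| ≤ 13 * V * CT + 1
  G0 : G 0 ≤ G j
  G1 : G j ≤ G 0 + CG

theorem coast_vel (B ε h C W O τ Bm ω0 η : ℝ) (q X o : ℕ → ℝ) (k : ℕ)
    (_hε : 0 ≤ ε) (hε1 : ε ≤ 1) (hh : 0 < h)
    (hq : ∀ j < k, |q (j + 1) - q j - h * B * Real.exp (-X j)| ≤ ε * h * Real.exp (-X j) + C * o j)
    (hW : W = h * ∑ j ∈ range k, Real.exp (-X j)) (hO : O = ∑ j ∈ range k, o j)
    (hW1 : W ≤ 15 * ω0) (hC : 0 ≤ C) (hO1 : O ≤ η) (hB : |B| + 1 ≤ Bm)
    (h1 : 15 * ω0 * Bm ≤ τ / 2) (h2 : C * η ≤ τ / 2) : |q k - q 0| ≤ τ := by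
  have hW0 : 0 ≤ W := by
    rw [hW]
    exact mul_nonneg hh.le (Finset.sum_nonneg (fun _ _ => (Real.exp_pos _).le))
  have h3 := telesc q (fun j => h * B * Real.exp (-X j))
    (fun j => ε * h * Real.exp (-X j) + C * o j) k hq k le_rfl
  have e1 : ∑ j ∈ range k, h * B * Real.exp (-X j) = B * W := by
    rw [hW, ← Finset.mul_sum]
    ring
  have e2 : ∑ j ∈ range k, (ε * h * Real.exp (-X j) + C * o j) = ε * W + C * O := by
    rw [Finset.sum_add_distrib, ← Finset.mul_sum, ← Finset.mul_sum, hW, hO]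
    ring
  rw [e1, e2] at h3
  have h4 : |q k - q 0| ≤ |q k - q 0 - B * W| + |B * W| := by
    have := abs_add_le (q k - q 0 - B * W) (B * W)
    rwa [sub_add_cancel] at this
  rw [abs_mul, abs_of_nonneg hW0] at h4
  have h5 : ε * W ≤ 1 * W := mul_le_mul_of_nonneg_right hε1 hW0
  have h6 : C * O ≤ C * η := mul_le_mul_of_nonneg_left hO1 hC
  have h7 : (|B| + 1) * W ≤ Bm * W := mul_le_mul_of_nonneg_right hB hW0
  have hBm : 0 ≤ Bm := by linarith [abs_nonneg B]
  have h8 : Bm * W ≤ Bm * (15 * ω0) := mul_le_mul_of_nonneg_left hW1 hBm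
  linarith

theorem coast_pos (c ε' V CT h : ℝ) (q w g : ℕ → ℝ) (k : ℕ) (Gs : ℝ)
    (hq : ∀ j < k, |q (j + 1) - q j - c * h * w j| ≤ ε' * h * |w j| + g j)
    (hc : 0 ≤ c) (hε' : 0 ≤ ε') (hh : 0 < h) (hw : ∀ j < k, |w j| ≤ V) (hG : ∑ j ∈ range k, g j ≤ Gs)
    (hk : h * k ≤ CT) (hV : 0 ≤ V) : |q k - q 0| ≤ (c + ε') * V * CT + Gs := by
  have h3 := telesc q (fun j => c * h * w j) (fun j => ε' * h * |w j| + g j) k hq k le_rfl
  have e2 : ∑ j ∈ range k, (ε' * h * |w j| + g j) ≤ ε' * V * CT + Gs := by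
    rw [Finset.sum_add_distrib]
    have : ∑ j ∈ range k, ε' * h * |w j| ≤ ∑ _j ∈ range k, ε' * h * V := by
      apply Finset.sum_le_sum
      intro j hj
      exact mul_le_mul_of_nonneg_left (hw j (Finset.mem_range.1 hj)) (by positivity)
    rw [Finset.sum_const, Finset.card_range, nsmul_eq_mul] at this
    have h4 : (k : ℝ) * (ε' * h * V) = ε' * V * (h * k) := by ring
    have h5 : ε' * V * (h * k) ≤ ε' * V * CT := mul_le_mul_of_nonneg_left hk (by positivity)
    linarith
  have e1 : |∑ j ∈ range k, c * h * w j| ≤ c * V * CT := by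
    refine (Finset.abs_sum_le_sum_abs _ _).trans ?_
    have : ∑ j ∈ range k, |c * h * w j| ≤ ∑ _j ∈ range k, c * h * V := by
      apply Finset.sum_le_sum
      intro j hj
      rw [abs_mul, abs_of_nonneg (by positivity : 0 ≤ c * h)]
      exact mul_le_mul_of_nonneg_left (hw j (Finset.mem_range.1 hj)) (by positivity)
    rw [Finset.sum_const, Finset.card_range, nsmul_eq_mul] at this
    have h4 : (k : ℝ) * (c * h * V) = c * V * (h * k) := by ring
    have h5 : c * V * (h * k) ≤ c * V * CT := mul_le_mul_of_nonneg_left hk (by positivity)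
    linarith
  have h4 : |q k - q 0| ≤ |q k - q 0 - ∑ j ∈ range k, c * h * w j|
      + |∑ j ∈ range k, c * h * w j| := by
    have := abs_add_le (q k - q 0 - ∑ j ∈ range k, c * h * w j) (∑ j ∈ range k, c * h * w j)
    rwa [sub_add_cancel] at this
  have e3 : (c + ε') * V * CT = c * V * CT + ε' * V * CT := by ring
  linarith

theorem coast (A R N C Vm τ : ℝ) (hA : 0 < A) (hC : 0 < C) (hVm : 1 ≤ Vm) (hτ : 0 < τ)
    (hτ1 : τ ≤ 1 / 4) :
    ∃ ω0 > 0, ∀ ω > 0, ∃ ε1 > 0, ∃ C' : ℝ, 1 ≤ C' ∧ ∀ (ε h δ M : ℝ), 0 ≤ ε → ε ≤ ε1 → 0 < h →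
    h ≤ ε1 → 0 ≤ M →
    ∀ (X Y S u v m G : ℕ → ℝ), (∀ k, G k ≤ δ → S k ≤ -M → Loc A R N C ε h X Y S u v m G k) →
    1 / 2 ≤ u 0 → |u 0| ≤ Vm → |v 0| ≤ Vm → |m 0| ≤ Vm → Real.exp (-X 0) ≤ ω0 →
    S 0 ≤ -M - C' → C' ≤ Y 0 →
    G 0 + C' ≤ δ →
    ∃ K : ℕ, Real.exp (-X K) ≤ ω ∧ h * K ≤ C' ∧ ∀ k ≤ K, |u k - u 0| ≤ τ ∧ |v k - v 0| ≤ τ ∧
      |m k - m 0| ≤ τ ∧
      |X k - X 0| ≤ C' ∧ |Y k - Y 0| ≤ C' ∧ |S k - S 0| ≤ C' ∧ G 0 ≤ G k ∧ G k ≤ G 0 + C' := by
  obtain ⟨Bm, hBm⟩ : ∃ Bm, Bm = A + |R| + |N| + 1 := ⟨_, rfl⟩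
  have hR := abs_nonneg R
  have hN := abs_nonneg N
  have hBmpos : 1 ≤ Bm := by linarith
  have hBmpos' : 0 < Bm := by linarith
  refine ⟨τ / (30 * Bm), by positivity, ?_⟩
  obtain ⟨ω0, hω0⟩ : ∃ ω0, ω0 = τ / (30 * Bm) := ⟨_, rfl⟩
  rw [← hω0]
  have hω0pos : 0 < ω0 := by rw [hω0]; positivity
  have hω0B : 15 * ω0 * Bm ≤ τ / 2 := by
    rw [hω0]
    have : 15 * (τ / (30 * Bm)) * Bm = τ / 2 := by field_simp; norm_num
    rw [this]
  have hω01 : ω0 ≤ 1 := by
    have : 15 * ω0 * 1 ≤ 15 * ω0 * Bm := mul_le_mul_of_nonneg_left hBmpos (by positivity)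
    linarith
  intro ω hω
  obtain ⟨T, hT⟩ : ∃ T, T = 4 * (|Real.log ω| + 1) := ⟨_, rfl⟩
  have hTpos : 0 < T := by rw [hT]; positivity
  obtain ⟨CT, hCT⟩ : ∃ CT, CT = T + 1 := ⟨_, rfl⟩
  have hCTpos : 0 < CT := by linarith
  obtain ⟨V, hV⟩ : ∃ V, V = Vm + 1 := ⟨_, rfl⟩
  have hVpos : 0 < V := by linarith
  obtain ⟨a, ha⟩ : ∃ a, a = (C + 1) * ((1 + 36 * V ^ 2) * CT) := ⟨_, rfl⟩
  have hapos : 0 < a := by rw [ha]; positivity
  obtain ⟨C', hC'⟩ : ∃ C', C' = 2 * (13 * V * CT + 1) + 2 * (a / (τ / 2)) + 16 * C := ⟨_, rfl⟩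
  have hab : 0 ≤ a / (τ / 2) := by positivity
  have hVCT : 0 < V * CT := by positivity
  have hC'1 : 1 ≤ C' := by rw [hC']; linarith
  have hsmall : a * Real.exp (-(C' / 2)) ≤ τ / 2 :=
    exp_neg_small a (τ / 2) (C' / 2) hapos.le (by positivity) (by rw [hC']; linarith)
  obtain ⟨η, hη⟩ : ∃ η, η = CT * ((1 + 36 * V ^ 2) * Real.exp (-(C' / 2))) := ⟨_, rfl⟩
  have hηpos : 0 ≤ η := by rw [hη]; positivity
  have hη2 : (C + 1) * η ≤ τ / 2 := by
    have : (C + 1) * η = a * Real.exp (-(C' / 2)) := by rw [hη, ha]; ring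
    rw [this]; exact hsmall
  have hCη : C * η ≤ τ / 2 := by linarith
  have hη1 : η ≤ 1 := by
    have : 0 ≤ C * η := by positivity
    linarith
  refine ⟨min 1 (1 / (16 * C)), by positivity, C', hC'1, ?_⟩
  intro ε h δ M hε hεε1 hh hhε1 hM X Y S u v m G hloc hu0 hu0' hv0 hm0 hX0 hS0 hY0 hG0
  have hε1 : ε ≤ 1 := hεε1.trans (min_le_left _ _)
  have hh1 : h ≤ 1 := hhε1.trans (min_le_left _ _)
  have hhC : C * h * 16 ≤ 1 := by
    have h1 : h ≤ 1 / (16 * C) := hhε1.trans (min_le_right _ _)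
    rw [le_div_iff₀ (by positivity)] at h1
    linarith
  have hX0' : 0 ≤ X 0 := by
    have : Real.exp (-X 0) ≤ Real.exp 0 := by rw [Real.exp_zero]; linarith
    have := Real.exp_le_exp.1 this
    linarith
  obtain ⟨K, hK1, hK2⟩ : ∃ K : ℕ, T ≤ h * K ∧ h * K ≤ CT := by
    refine ⟨⌈T / h⌉₊, ?_, ?_⟩
    · have := Nat.le_ceil (T / h)
      rw [div_le_iff₀ hh] at this
      linarith
    · have := Nat.ceil_lt_add_one (a := T / h) (by positivity)
      have h2 : h * (⌈T / h⌉₊ : ℝ) ≤ h * (T / h + 1) := mul_le_mul_of_nonneg_left this.le hh.le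
      have h3 : h * (T / h + 1) = T + h := by field_simp
      linarith
  -- the invariant
  have key : ∀ k ≤ K, ∀ j ≤ k, CoastInv τ V CT (16 * C) h X Y S u v m G j := by
    intro k
    induction k with
    | zero =>
      intro _ j hj
      have : j = 0 := Nat.le_zero.1 hj
      subst this
      refine ⟨by simpa using hτ.le, by simpa using hτ.le, by simpa using hτ.le, ?_, ?_, ?_, ?_,
        le_rfl, by linarith⟩
      · push_cast; linarith
      · linarith
      · simp only [sub_self, abs_zero]; linarith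
      · simp only [sub_self, abs_zero]; linarith
    | succ k ih =>
      intro hk j hj
      have hkK : k ≤ K := Nat.le_of_succ_le hk
      have IH := ih hkK
      rcases Nat.lt_or_ge j (k + 1) with hjk | hjk
      · exact IH j (Nat.le_of_lt_succ hjk)
      have hjeq : j = k + 1 := le_antisymm hj hjk
      subst hjeq
      have hkT : h * ((k + 1 : ℕ) : ℝ) ≤ CT := by
        have : ((k + 1 : ℕ) : ℝ) ≤ K := by exact_mod_cast hk
        have := mul_le_mul_of_nonneg_left this hh.le
        linarith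
      -- facts at `j ≤ k`
      have hSj : ∀ j ≤ k, S j ≤ -M - C' / 2 := by
        intro j hj
        have := (abs_le.1 (IH j hj).S).2
        have h2 : 13 * V * CT + 1 ≤ C' / 2 := by rw [hC']; linarith
        linarith
      have hYj : ∀ j ≤ k, C' / 2 ≤ Y j := by
        intro j hj
        have := (abs_le.1 (IH j hj).Y).1
        have h2 : 2 * V * CT + 1 ≤ C' / 2 := by rw [hC']; linarith
        linarith
      have hGj : ∀ j ≤ k, G j ≤ δ := by
        intro j hj
        have := (IH j hj).G1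
        have h2 : 16 * C ≤ C' := by rw [hC']; linarith
        linarith
      have hL : ∀ j < k + 1, Loc A R N C ε h X Y S u v m G j := by
        intro j hj
        have hj' := Nat.le_of_lt_succ hj
        refine hloc j (hGj j hj') ?_
        have := hSj j hj'
        linarith
      have hvm : ∀ (w : ℕ → ℝ), |w 0| ≤ Vm → (∀ j ≤ k, |w j - w 0| ≤ τ) → ∀ j < k + 1, |w j| ≤ V := by
        intro w hw0 hw j hj
        have h1 := hw j (Nat.le_of_lt_succ hj)
        have h2 := abs_add_le (w j - w 0) (w 0)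
        rw [sub_add_cancel] at h2
        linarith
      have hub := hvm u hu0' (fun j hj => (IH j hj).u)
      have hvb := hvm v hv0 (fun j hj => (IH j hj).v)
      have hmb := hvm m hm0 (fun j hj => (IH j hj).m)
      -- exponential sum
      obtain ⟨W, hW⟩ : ∃ W, W = h * ∑ j ∈ range (k + 1), Real.exp (-X j) := ⟨_, rfl⟩
      have hW1 : W ≤ 15 * ω0 := by
        have h1 : ∀ j ∈ range (k + 1), Real.exp (-X j)
            ≤ 3 * ω0 * Real.exp (-(1 / 2 * h * (min j k : ℕ))) := by
          intro j hj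
          have hj' : j ≤ k := Nat.le_of_lt_succ (Finset.mem_range.1 hj)
          rw [min_eq_left hj']
          have h2 := (IH j hj').Xlo
          have h3 : Real.exp (-X j) ≤ Real.exp (1 + -X 0 + -(1 / 2 * h * j)) :=
            Real.exp_le_exp.2 (by linarith)
          rw [Real.exp_add, Real.exp_add] at h3
          have h4 : Real.exp 1 ≤ 3 := by linarith [Real.exp_one_lt_d9]
          have h5 : Real.exp 1 * Real.exp (-X 0) ≤ 3 * ω0 :=
            mul_le_mul h4 hX0 (Real.exp_pos _).le (by norm_num)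
          exact h3.trans (mul_le_mul_of_nonneg_right h5 (Real.exp_pos _).le)
        have h2 := Finset.sum_le_sum h1
        rw [← Finset.mul_sum] at h2
        have h3 := sum_exp_min (1 / 2) h (by norm_num) hh (by linarith) k k le_rfl
        rw [sub_self, mul_zero, add_zero] at h3
        have h4 := mul_le_mul_of_nonneg_left h2 hh.le
        have h5 : h * (3 * ω0 * ∑ j ∈ range (k + 1), Real.exp (-(1 / 2 * h * (min j k : ℕ))))
            = 3 * ω0 * (h * ∑ j ∈ range (k + 1), Real.exp (-(1 / 2 * h * (min j k : ℕ)))) := by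
          ring
        rw [h5] at h4
        have h6 : 3 * ω0 * (h * ∑ j ∈ range (k + 1), Real.exp (-(1 / 2 * h * (min j k : ℕ))))
            ≤ 3 * ω0 * (2 / (1 / 2) + h) := mul_le_mul_of_nonneg_left h3 (by positivity)
        have h7 : 3 * ω0 * (2 / (1 / 2) + h) ≤ 3 * ω0 * 5 :=
          mul_le_mul_of_nonneg_left (by linarith) (by positivity)
        rw [hW]
        linarith
      obtain ⟨O, hO⟩ : ∃ O, O = ∑ j ∈ range (k + 1), oth h Y S m j := ⟨_, rfl⟩
      have hO1 : O ≤ η := by
        have h1 : ∀ j ∈ range (k + 1), oth h Y S m j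
            ≤ h * ((1 + 36 * V ^ 2) * Real.exp (-(C' / 2))) := by
          intro j hj
          have hj' : j ≤ k := Nat.le_of_lt_succ (Finset.mem_range.1 hj)
          unfold oth
          refine mul_le_mul_of_nonneg_left ?_ hh.le
          have h2 : Real.exp (-Y j) ≤ Real.exp (-(C' / 2)) :=
            Real.exp_le_exp.2 (by linarith [hYj j hj'])
          have h3 : Real.exp (S j) ≤ Real.exp (-(C' / 2)) :=
            Real.exp_le_exp.2 (by linarith [hSj j hj'])
          have h4 : m j ^ 2 ≤ V ^ 2 := by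
            rw [← sq_abs]
            exact pow_le_pow_left₀ (abs_nonneg _) (hmb j (Finset.mem_range.1 hj)) 2
          have h5 : ES (S j) ≤ 36 * Real.exp (-(C' / 2)) := by
            have := ES_le_exp (S j)
            linarith
          have h6 : m j ^ 2 * ES (S j) ≤ V ^ 2 * (36 * Real.exp (-(C' / 2))) :=
            mul_le_mul h4 h5 (ES_nonneg _) (by positivity)
          linarith
        have h2 := Finset.sum_le_sum h1
        rw [Finset.sum_const, Finset.card_range, nsmul_eq_mul] at h2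
        have h3 : ((k + 1 : ℕ) : ℝ) * (h * ((1 + 36 * V ^ 2) * Real.exp (-(C' / 2))))
            = h * ((k + 1 : ℕ) : ℝ) * ((1 + 36 * V ^ 2) * Real.exp (-(C' / 2))) := by ring
        rw [h3] at h2
        have h4 : h * ((k + 1 : ℕ) : ℝ) * ((1 + 36 * V ^ 2) * Real.exp (-(C' / 2)))
            ≤ CT * ((1 + 36 * V ^ 2) * Real.exp (-(C' / 2))) :=
          mul_le_mul_of_nonneg_right hkT (by positivity)
        rw [hO, hη]
        linarith
      -- errors in the positions
      have hg : ∑ j ∈ range (k + 1), C * h * (h * Real.exp (-X j) + oth h Y S m j) ≤ 1 := by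
        rw [← Finset.mul_sum, Finset.sum_add_distrib, ← Finset.mul_sum, ← hW, ← hO]
        have h1 : W + O ≤ 16 := by linarith
        have h2 : C * h * (W + O) ≤ C * h * 16 := mul_le_mul_of_nonneg_left h1 (by positivity)
        linarith
      have hXb := coast_pos 2 0 V CT h X u
        (fun j => C * h * (h * Real.exp (-X j) + oth h Y S m j)) (k + 1) 1
        (fun j hj => by rw [zero_mul, zero_mul, zero_add]; exact (hL j hj).hX)
        (by norm_num) le_rfl hh hub hg hkT hVpos.le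
      have hYb := coast_pos 2 0 V CT h Y v
        (fun j => C * h * (h * Real.exp (-X j) + oth h Y S m j)) (k + 1) 1
        (fun j hj => by rw [zero_mul, zero_mul, zero_add]; exact (hL j hj).hY)
        (by norm_num) le_rfl hh hvb hg hkT hVpos.le
      have hSb := coast_pos 12 1 V CT h S m
        (fun j => C * h * (h * Real.exp (-X j) + oth h Y S m j)) (k + 1) 1
        (fun j hj => by
          refine (hL j hj).hS.trans ?_
          have h1 : ε * h * |m j| ≤ 1 * h * |m j| := by
            have : 0 ≤ h * |m j| := by positivity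
            have := mul_le_mul_of_nonneg_right hε1 this
            linarith
          linarith)
        (by norm_num) zero_le_one hh hmb hg hkT hVpos.le
      have hRN : |R| + 1 ≤ Bm := by linarith
      have hNN : |N| + 1 ≤ Bm := by linarith
      have hAA : |A| + 1 ≤ Bm := by rw [abs_of_pos hA]; linarith
      have hGsum : ∑ j ∈ range (k + 1), C * (h * Real.exp (-X j) + oth h Y S m j) ≤ 16 * C := by
        rw [← Finset.mul_sum, Finset.sum_add_distrib, ← Finset.mul_sum, ← hW, ← hO]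
        have h1 : W + O ≤ 16 := by linarith
        have h2 : C * (W + O) ≤ C * 16 := mul_le_mul_of_nonneg_left h1 hC.le
        linarith
      refine ⟨?_, ?_, ?_, ?_, ?_, ?_, ?_, ?_, ?_⟩
      · exact coast_vel A ε h C W O τ Bm ω0 η u X (oth h Y S m) (k + 1) hε hε1 hh
          (fun j hj => (hL j hj).hu) hW hO hW1 hC.le hO1 hAA hω0B hCη
      · exact coast_vel R ε h C W O τ Bm ω0 η v X (oth h Y S m) (k + 1) hε hε1 hh
          (fun j hj => (hL j hj).hv) hW hO hW1 hC.le hO1 hRN hω0B hCη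
      · exact coast_vel N ε h C W O τ Bm ω0 η m X (oth h Y S m) (k + 1) hε hε1 hh
          (fun j hj => (hL j hj).hm) hW hO hW1 hC.le hO1 hNN hω0B hCη
      · have h3 := telesc X (fun j => 2 * h * u j)
          (fun j => C * h * (h * Real.exp (-X j) + oth h Y S m j)) (k + 1)
          (fun j hj => (hL j hj).hX) (k + 1) le_rfl
        have h4 := (abs_le.1 (h3.trans hg)).1
        have h5 : ∑ _j ∈ range (k + 1), 1 / 2 * h ≤ ∑ j ∈ range (k + 1), 2 * h * u j := by
          apply Finset.sum_le_sum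
          intro j hj
          have h6 := (abs_le.1 (IH j (Nat.le_of_lt_succ (Finset.mem_range.1 hj))).u).1
          have h7 : 1 / 4 ≤ u j := by linarith
          have := mul_le_mul_of_nonneg_left h7 hh.le
          linarith
        rw [Finset.sum_const, Finset.card_range, nsmul_eq_mul] at h5
        have h8 : ((k + 1 : ℕ) : ℝ) * (1 / 2 * h) = 1 / 2 * h * ((k + 1 : ℕ) : ℝ) := by ring
        linarith
      · have := (abs_le.1 hXb).2
        rw [add_zero] at this
        linarith
      · have := hYb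
        rw [add_zero] at this
        exact this
      · have e : (12 + 1 : ℝ) = 13 := by norm_num
        rw [e] at hSb
        exact hSb
      · have h1 := (hL k (Nat.lt_succ_self k)).hG0
        have h2 := (IH k le_rfl).G0
        linarith
      · have h3 : ∀ n ≤ k + 1, G n ≤ G 0 + ∑ j ∈ range n,
            C * (h * Real.exp (-X j) + oth h Y S m j) := by
          intro n
          induction n with
          | zero => intro _; simp
          | succ n ihn =>
            intro hn
            have h4 := ihn (Nat.le_of_succ_le hn)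
            have h5 := (hL n hn).hG1
            rw [Finset.sum_range_succ]
            linarith
        have := h3 (k + 1) le_rfl
        linarith
  refine ⟨K, ?_, ?_, ?_⟩
  · have h1 := (key K le_rfl K le_rfl).Xlo
    have h2 : -X K ≤ Real.log ω := by
      have h3 := neg_abs_le (Real.log ω)
      have h4 : T / 2 = 2 * (|Real.log ω| + 1) := by rw [hT]; ring
      have h5 : 1 / 2 * h * (K : ℝ) = 1 / 2 * (h * K) := by ring
      have h6 := abs_nonneg (Real.log ω)
      linarith
    calc Real.exp (-X K) ≤ Real.exp (Real.log ω) := Real.exp_le_exp.2 h2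
      _ = ω := Real.exp_log hω
  · have h2 : CT ≤ C' := by
      have h3 : 1 * CT ≤ V * CT := mul_le_mul_of_nonneg_right (by linarith) hCTpos.le
      rw [hC']
      linarith
    linarith
  · intro k hk
    have h1 := key k hk k le_rfl
    have hc1 : 2 * V * CT + 1 ≤ C' := by rw [hC']; linarith
    have hc2 : 13 * V * CT + 1 ≤ C' := by rw [hC']; linarith
    have hc3 : 16 * C ≤ C' := by rw [hC']; linarith
    refine ⟨h1.u, h1.v, h1.m, ?_, h1.Y.trans hc1, h1.S.trans hc2, h1.G0,
      h1.G1.trans (by linarith)⟩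
    rw [abs_le]
    have h2 := h1.Xlo
    have h3 := h1.Xhi
    have h4 : 0 ≤ 1 / 2 * h * (k : ℝ) := by positivity
    constructor <;> linarith

end Pool.Agent.Hhelper30.Forsythe
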