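import Pool.Agent.Hhelper30.Forsythe.Stage

/-! Everything known before the exit of the bouncing particle. -/

set_option autoImplicit false

namespace Pool.Agent.Hhelper30.Forsythe

open Filter Topology Set Finset

structure CoreOut (A R N ν Vm θ C2 C' h : ℝ) (X Y S u v m G : ℕ → ℝ) (K : ℕ) (D : ℝ)
    (kz : ℕ) : Prop where
  kzK : kz ≤ K
  ukz : ∀ j < kz, u j < -1 + θ
  dur : h * ((K : ℝ) - kz) ≤ C'
  kz_hi : 2 * (1 - θ) * (h * kz) ≤ D + C'
  kz_lo : kz < K → D ≤ 2 * (1 + θ) * (h * kz) + C' ∧ X kz ≤ C'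
  en : ∀ k ≤ K, |u k ^ 2 + A * Real.exp (-X k) - 1| ≤ θ ^ 2
  ub : ∀ k ≤ K, -1 - θ ≤ u k ∧ u k ≤ 1 + θ
  Xb : ∀ k ≤ K, -C' ≤ X k ∧ X k ≤ D + C'
  Xa : ∀ k ≤ kz, D - 2 * (1 + θ) * (h * k) - C' ≤ X k
  vb : ∀ k ≤ K, |v k - v 0 - R / A * (u k + 1)| ≤ C2 * θ ^ 2
  mb : ∀ k ≤ K, |m k - m 0 - N / A * (u k + 1)| ≤ C2 * θ ^ 2
  vb' : ∀ k ≤ K, |v k| ≤ Vm + C2
  mb' : ∀ k ≤ K, |m k| ≤ Vm + C2
  Sb : ∀ k ≤ K, S k ≤ S 0 - 5 * ν * h * (min k kz : ℕ) + C'
  Yb : ∀ k ≤ K, Y 0 + 2 * (v 0 - C2 * θ) * h * (min k kz : ℕ) - C' ≤ Y k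
  Gb : ∀ k ≤ K, G 0 ≤ G k ∧ G k ≤ G 0 + C'
  Yf : |Y K - Y 0 - 2 * v 0 * (h * kz)| ≤ 2 * C2 * θ * (h * kz) + C'
  Sf : |S K - S 0 - 12 * m 0 * (h * kz)| ≤ 13 * C2 * θ * (h * kz) + C'
  Sc : ∀ k ≤ K, |S k - S 0| ≤ 14 * (Vm + C2) * (h * k) + C'
  Yc : ∀ k ≤ K, |Y k - Y 0| ≤ 2 * (Vm + C2) * (h * k) + C'
  Xf : X K ≤ X kz + C'

theorem core (A R N C ν Vm : ℝ) (hA : 0 < A) (hC : 0 < C) (hν : 0 < ν) (hVm : 1 ≤ Vm)
    (θ : ℝ) (hθ : 0 < θ) (hθ1 : θ ≤ 1 / 10)
    (C2 : ℝ) (hC2 : C2 = 10 * ((|R| + |N|) / A + 1)) (hθν : C2 * θ ≤ ν / 2) :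
    ∃ ε1 > 0, ε1 ≤ 1 ∧ ∃ C' : ℝ, 1 ≤ C' ∧ ∀ (ε h : ℝ), 0 ≤ ε → ε ≤ ε1 → 0 < h → h ≤ ε1 →
    ∀ (X Y S u v m G : ℕ → ℝ) (K : ℕ) (D : ℝ),
    (∀ j < K, Loc A R N C ε h X Y S u v m G j) → (∀ j < K, u j < 1 - θ) →
    (∑ j ∈ range K, oth h Y S m j ≤ ε1) →
    u 0 = -1 → X 0 = D → A * Real.exp (-D) ≤ ε1 →
    -Vm ≤ m 0 → m 0 ≤ -ν → |v 0| ≤ Vm →
    ∃ kz, CoreOut A R N ν Vm θ C2 C' h X Y S u v m G K D kz := by
  obtain ⟨ε0, hε0, hε01, Cθ, hCθ1, hab⟩ := ab A C hA hC θ hθ hθ1
  have hRA : 0 ≤ |R| / A := by positivity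
  have hNA : 0 ≤ |N| / A := by positivity
  have hC2' : C2 = 10 * (|R| / A) + 10 * (|N| / A) + 10 := by rw [hC2]; ring
  have hC2pos : 10 ≤ C2 := by rw [hC2']; linarith
  set Vm' := Vm + C2 with hVm'
  have hVm'pos : 0 < Vm' := by linarith
  have hCθpos : 0 < Cθ := by linarith
  set ε1 := min ε0 (min (θ ^ 2 / (Cθ + C)) (θ / Vm')) with hε1def
  have hε1pos : 0 < ε1 := by positivity
  have hε1ε0 : ε1 ≤ ε0 := min_le_left _ _
  have hε1b : ε1 ≤ θ ^ 2 / (Cθ + C) := (min_le_right _ _).trans (min_le_left _ _)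
  have hε1c : ε1 ≤ θ / Vm' := (min_le_right _ _).trans (min_le_right _ _)
  clear_value ε1
  set Ce := C * (Cθ + 1) with hCe
  have hCepos : 0 < Ce := by positivity
  have hVC : 0 ≤ Vm' * Cθ := by positivity
  obtain ⟨C', hC'def⟩ : ∃ C' : ℝ, C' = 31 * Cθ + 4 * Ce + 30 * (Vm' * Cθ) := ⟨_, rfl⟩
  have hθsq : 0 ≤ θ ^ 2 := sq_nonneg θ
  have hθsq1 : θ ^ 2 ≤ θ / 10 := by
    rw [sq]
    calc θ * θ ≤ θ * (1 / 10) := mul_le_mul_of_nonneg_left hθ1 hθ.le
      _ = θ / 10 := by ring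
  have hθsq100 : θ ^ 2 ≤ 1 / 100 := by linarith
  refine ⟨ε1, hε1pos, hε1ε0.trans hε01, C', by linarith, ?_⟩
  intro ε h hε hεε1 hh hhε1 X Y S u v m G K D hloc hex hsum hu0 hX0 hD hm1 hm2 hv0
  have hε1le1 : ε1 ≤ 1 := hε1ε0.trans hε01
  have hh1 : h ≤ 1 := hhε1.trans hε1le1
  have hε1' : ε ≤ 1 := hεε1.trans hε1le1
  have hoth0 : ∀ j, 0 ≤ oth h Y S m j := fun j => oth_nonneg h hh.le Y S m j
  have hZ0 : ∀ j, 0 < Real.exp (-X j) := fun j => Real.exp_pos _
  obtain ⟨ha, hb, hWC, hub, hXb, kz, hkzK, hkz1, hdur, hkzhi, hkzlo, happ⟩ :=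
    hab ε1 h hε1pos.le hε1ε0 hh (hhε1.trans hε1ε0) u X (oth h Y S m) K D
      (fun j _ => hoth0 j) hsum (by rw [hu0]; norm_num; exact hε1pos.le) hX0 hD
      (fun j hj => (hloc j hj).hu.trans (by
        have := mul_le_mul_of_nonneg_right hεε1 (mul_nonneg hh.le (hZ0 j).le)
        linarith)) (fun j hj => (hloc j hj).hX) hex
  rw [hu0] at hb
  set W : ℕ → ℝ := fun k => h * ∑ j ∈ range k, Real.exp (-X j) with hW
  have hW0 : ∀ k, 0 ≤ W k := fun k =>
    mul_nonneg hh.le (Finset.sum_nonneg (fun i _ => (Real.exp_pos _).le))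
  have hOle : ∀ k ≤ K, ∑ j ∈ range k, oth h Y S m j ≤ ε1 := by
    intro k hk
    refine le_trans ?_ hsum
    exact Finset.sum_le_sum_of_subset_of_nonneg (Finset.range_mono hk)
      (fun i _ _ => hoth0 i)
  have hO0 : ∀ k, 0 ≤ ∑ j ∈ range k, oth h Y S m j :=
    fun k => Finset.sum_nonneg (fun i _ => hoth0 i)
  have hεCC : ε1 * (Cθ + C) ≤ θ ^ 2 := by
    have := mul_le_mul_of_nonneg_right hε1b (by positivity : (0:ℝ) ≤ Cθ + C)
    rwa [div_mul_cancel₀ _ (by positivity)] at this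
  have hεVm : ε * Vm' ≤ θ := by
    have := mul_le_mul_of_nonneg_right (hεε1.trans hε1c) hVm'pos.le
    rwa [div_mul_cancel₀ _ (by positivity)] at this
  -- generic velocity bound
  have hvel : ∀ (q : ℕ → ℝ) (B : ℝ), (∀ j < K, |q (j + 1) - q j - h * B * Real.exp (-X j)|
      ≤ ε * h * Real.exp (-X j) + C * oth h Y S m j) → ∀ k ≤ K,
      |q k - q 0 - B / A * (u k + 1)| ≤ (1 + |B| / A) * θ ^ 2 := by
    intro q B hq k hk
    have h1 := telesc q (fun j => h * B * Real.exp (-X j))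
      (fun j => ε * h * Real.exp (-X j) + C * oth h Y S m j) K hq k hk
    have h2 : ∑ j ∈ range k, h * B * Real.exp (-X j) = B * W k := by
      rw [← Finset.mul_sum]; simp only [hW]; ring
    have h3 : ∑ j ∈ range k, (ε * h * Real.exp (-X j) + C * oth h Y S m j)
        = ε * W k + C * ∑ j ∈ range k, oth h Y S m j := by
      rw [Finset.sum_add_distrib, ← Finset.mul_sum, ← Finset.mul_sum]; simp only [hW]; ring
    rw [h2, h3] at h1
    have h4 : ε * W k ≤ ε1 * Cθ := mul_le_mul hεε1 (hWC k hk) (hW0 k) hε1pos.le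
    have h5 : C * ∑ j ∈ range k, oth h Y S m j ≤ C * ε1 :=
      mul_le_mul_of_nonneg_left (hOle k hk) hC.le
    have h6 : |q k - q 0 - B * W k| ≤ θ ^ 2 := by
      refine h1.trans ?_
      have : ε1 * (Cθ + C) = ε1 * Cθ + C * ε1 := by ring
      linarith
    have h7 : |B * W k - B / A * (u k + 1)| ≤ |B| / A * θ ^ 2 := by
      have h8 := hb k hk
      have h9 : B * W k - B / A * (u k + 1) = -(B / A) * (u k - -1 - A * W k) := by
        field_simp; ring
      rw [h9, abs_mul, abs_neg, abs_div, abs_of_pos hA]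
      exact mul_le_mul_of_nonneg_left h8 (by positivity)
    have h10 := abs_add_le (q k - q 0 - B * W k) (B * W k - B / A * (u k + 1))
    rw [show q k - q 0 - B * W k + (B * W k - B / A * (u k + 1))
      = q k - q 0 - B / A * (u k + 1) by ring] at h10
    have h11 : (1 + |B| / A) * θ ^ 2 = θ ^ 2 + |B| / A * θ ^ 2 := by ring
    rw [h11]; linarith
  have hvb0 := hvel v R (fun j hj => (hloc j hj).hv)
  have hmb0 := hvel m N (fun j hj => (hloc j hj).hm)
  have hvb : ∀ k ≤ K, |v k - v 0 - R / A * (u k + 1)| ≤ C2 * θ ^ 2 := by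
    intro k hk
    refine (hvb0 k hk).trans (mul_le_mul_of_nonneg_right ?_ hθsq)
    rw [hC2']; linarith
  have hmb : ∀ k ≤ K, |m k - m 0 - N / A * (u k + 1)| ≤ C2 * θ ^ 2 := by
    intro k hk
    refine (hmb0 k hk).trans (mul_le_mul_of_nonneg_right ?_ hθsq)
    rw [hC2']; linarith
  have hu3 : ∀ k ≤ K, |u k + 1| ≤ 3 := by
    intro k hk
    have := hub k hk
    rw [abs_le]; constructor <;> linarith
  have hgen' : ∀ (q : ℕ → ℝ) (B : ℝ), (1 + |B| / A) * (1 / 100) + |B| / A * 3 ≤ C2 → |q 0| ≤ Vm →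
      (∀ k ≤ K, |q k - q 0 - B / A * (u k + 1)| ≤ (1 + |B| / A) * θ ^ 2) →
      ∀ k ≤ K, |q k| ≤ Vm' := by
    intro q B hB hq0 hq k hk
    have h1 := hq k hk
    have h2 : |B / A * (u k + 1)| ≤ |B| / A * 3 := by
      rw [abs_mul, abs_div, abs_of_pos hA]
      exact mul_le_mul_of_nonneg_left (hu3 k hk) (by positivity)
    have h3 := abs_add_le (q k - q 0 - B / A * (u k + 1)) (q 0 + B / A * (u k + 1))
    rw [show q k - q 0 - B / A * (u k + 1) + (q 0 + B / A * (u k + 1)) = q k by ring] at h3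
    have h4 := abs_add_le (q 0) (B / A * (u k + 1))
    have h5 : (1 + |B| / A) * θ ^ 2 ≤ (1 + |B| / A) * (1 / 100) :=
      mul_le_mul_of_nonneg_left hθsq100 (by positivity)
    rw [hVm']
    linarith
  have hvb' : ∀ k ≤ K, |v k| ≤ Vm' := by
    apply hgen' v R _ hv0 hvb0
    rw [hC2']; linarith
  have hm0abs : |m 0| ≤ Vm := by rw [abs_le]; constructor <;> linarith
  have hmb' : ∀ k ≤ K, |m k| ≤ Vm' := by
    apply hgen' m N _ hm0abs hmb0
    rw [hC2']; linarith
  -- approach velocities are almost constant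
  have happv : ∀ (q : ℕ → ℝ) (B : ℝ), 2 * (|B| / A) + (1 + |B| / A) / 10 ≤ C2 →
      (∀ k ≤ K, |q k - q 0 - B / A * (u k + 1)| ≤ (1 + |B| / A) * θ ^ 2) →
      ∀ j < kz, |q j - q 0| ≤ C2 * θ := by
    intro q B hB hq j hj
    have hjK : j ≤ K := hj.le.trans hkzK
    have h1 := hq j hjK
    have h2 : |u j + 1| ≤ θ := by
      have := hub j hjK; have := hkz1 j hj
      rw [abs_le]; constructor <;> linarith
    have h2' : |B / A * (u j + 1)| ≤ |B| / A * θ := by
      rw [abs_mul, abs_div, abs_of_pos hA]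
      exact mul_le_mul_of_nonneg_left h2 (by positivity)
    have h3 := abs_add_le (q j - q 0 - B / A * (u j + 1)) (B / A * (u j + 1))
    rw [show q j - q 0 - B / A * (u j + 1) + B / A * (u j + 1) = q j - q 0 by ring] at h3
    have h5 : (1 + |B| / A) * θ ^ 2 ≤ (1 + |B| / A) / 10 * θ := by
      have : (1 + |B| / A) / 10 * θ = (1 + |B| / A) * (θ / 10) := by ring
      rw [this]; exact mul_le_mul_of_nonneg_left hθsq1 (by positivity)
    have h6 : 0 ≤ |B| / A * θ := by positivity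
    have h7 : (2 * (|B| / A) + (1 + |B| / A) / 10) * θ ≤ C2 * θ :=
      mul_le_mul_of_nonneg_right hB hθ.le
    linarith
  have hvap := happv v R (by rw [hC2']; linarith) hvb0
  have hmap := happv m N (by rw [hC2']; linarith) hmb0
  -- the error sums
  have herr : ∀ k ≤ K, ∑ j ∈ range k, C * h * (h * Real.exp (-X j) + oth h Y S m j) ≤ Ce := by
    intro k hk
    have h2 : ∑ j ∈ range k, C * h * (h * Real.exp (-X j) + oth h Y S m j)
        = C * h * (W k + ∑ j ∈ range k, oth h Y S m j) := by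
      rw [← Finset.mul_sum, Finset.sum_add_distrib, ← Finset.mul_sum]
    rw [h2, hCe]
    have h3 : W k + ∑ j ∈ range k, oth h Y S m j ≤ Cθ + 1 :=
      add_le_add (hWC k hk) ((hOle k hk).trans hε1le1)
    have h5 : 0 ≤ W k + ∑ j ∈ range k, oth h Y S m j := add_nonneg (hW0 k) (hO0 k)
    have h6 : C * h ≤ C := mul_le_of_le_one_right hC.le hh1
    exact mul_le_mul h6 h3 h5 hC.le
  have herrI : ∀ k1 k2, k1 ≤ k2 → k2 ≤ K →
      ∑ j ∈ Ico k1 k2, C * h * (h * Real.exp (-X j) + oth h Y S m j) ≤ Ce := by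
    intro k1 k2 h12 h2
    refine le_trans ?_ (herr k2 h2)
    rw [Finset.range_eq_Ico]
    apply Finset.sum_le_sum_of_subset_of_nonneg
    · exact Finset.Ico_subset_Ico_left (Nat.zero_le _)
    · intro i _ _
      have := hoth0 i; have := hZ0 i
      positivity
  -- time bounds
  have hkz0 : (0 : ℝ) ≤ h * kz := by positivity
  have hdurZ : ∀ k, kz ≤ k → k ≤ K → h * ((k : ℝ) - kz) ≤ Cθ := by
    intro k hk hkK
    refine le_trans ?_ hdur
    apply mul_le_mul_of_nonneg_left _ hh.le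
    have : (k : ℝ) ≤ K := by exact_mod_cast hkK
    linarith
  -- S bounds
  have hSapp : ∀ k ≤ kz, S k ≤ S 0 - 5 * ν * h * k + Ce := by
    intro k hk
    have hkK := hk.trans hkzK
    have h1 := telesc S (fun j => 12 * h * m j)
      (fun j => ε * h * |m j| + C * h * (h * Real.exp (-X j) + oth h Y S m j)) K
      (fun j hj => (hloc j hj).hS) k hkK
    have h2 := (abs_le.mp h1).2
    rw [Finset.sum_add_distrib] at h2
    have h3 := herr k hkK
    have h4 : ∑ j ∈ range k, 12 * h * m j + ∑ j ∈ range k, ε * h * |m j|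
        ≤ ∑ j ∈ range k, (-(5 * ν * h)) := by
      rw [← Finset.sum_add_distrib]
      apply Finset.sum_le_sum
      intro j hj
      have hj' := lt_of_lt_of_le (Finset.mem_range.mp hj) hk
      have h5 := (abs_le.mp (hmap j hj')).2
      have h6 : m j ≤ -(ν / 2) := by linarith
      have h7 : |m j| = -m j := abs_of_nonpos (by linarith)
      rw [h7]
      have h8 : ε * (h * -m j) ≤ 1 * (h * -m j) :=
        mul_le_mul_of_nonneg_right hε1' (mul_nonneg hh.le (by linarith))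
      have h9 : h * m j ≤ h * (-(ν / 2)) := mul_le_mul_of_nonneg_left h6 hh.le
      have h10 : 0 ≤ h * ν := by positivity
      linarith
    rw [Finset.sum_const, Finset.card_range, nsmul_eq_mul] at h4
    linarith
  have hSzone : ∀ k, kz ≤ k → k ≤ K → |S k - S kz| ≤ 13 * Vm' * Cθ + Ce := by
    intro k hk hkK
    have h1 := telesc_from S (fun j => 12 * h * m j)
      (fun j => ε * h * |m j| + C * h * (h * Real.exp (-X j) + oth h Y S m j)) kz K
      (fun j _ hj => (hloc j hj).hS) k hk hkK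
    rw [Finset.sum_add_distrib] at h1
    have h3 := herrI kz k hk hkK
    have h4 : |∑ j ∈ Ico kz k, 12 * h * m j| ≤ ∑ j ∈ Ico kz k, (12 * h * Vm') := by
      refine (Finset.abs_sum_le_sum_abs _ _).trans (Finset.sum_le_sum ?_)
      intro j hj
      rw [abs_mul, abs_of_pos (by positivity : 0 < 12 * h)]
      exact mul_le_mul_of_nonneg_left (hmb' j ((Finset.mem_Ico.mp hj).2.le.trans hkK))
        (by positivity)
    have h5 : ∑ j ∈ Ico kz k, ε * h * |m j| ≤ ∑ j ∈ Ico kz k, (h * Vm') := by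
      apply Finset.sum_le_sum
      intro j hj
      have h6 := hmb' j ((Finset.mem_Ico.mp hj).2.le.trans hkK)
      have h7 : ε * h ≤ h := mul_le_of_le_one_left hh.le hε1'
      exact mul_le_mul h7 h6 (abs_nonneg _) hh.le
    rw [Finset.sum_const, Nat.card_Ico, nsmul_eq_mul, Nat.cast_sub hk] at h4 h5
    have h8 := hdurZ k hk hkK
    have h9 : ((k : ℝ) - kz) * (12 * h * Vm') = 12 * Vm' * (h * ((k : ℝ) - kz)) := by ring
    have h10 : ((k : ℝ) - kz) * (h * Vm') = Vm' * (h * ((k : ℝ) - kz)) := by ring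
    rw [h9] at h4; rw [h10] at h5
    have h11 := mul_le_mul_of_nonneg_left h8 hVm'pos.le
    have h12 := abs_add_le (S k - S kz - ∑ j ∈ Ico kz k, 12 * h * m j)
      (∑ j ∈ Ico kz k, 12 * h * m j)
    rw [show S k - S kz - ∑ j ∈ Ico kz k, 12 * h * m j + ∑ j ∈ Ico kz k, 12 * h * m j
      = S k - S kz by ring] at h12
    linarith
  have hYapp : ∀ k ≤ kz, |Y k - Y 0 - 2 * v 0 * (h * k)| ≤ 2 * C2 * θ * (h * k) + Ce := by
    intro k hk
    have hkK := hk.trans hkzK
    have h1 := telesc Y (fun j => 2 * h * v j)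
      (fun j => C * h * (h * Real.exp (-X j) + oth h Y S m j)) K
      (fun j hj => (hloc j hj).hY) k hkK
    have h3 := herr k hkK
    have h4 : |∑ j ∈ range k, 2 * h * v j - 2 * v 0 * (h * k)| ≤ 2 * C2 * θ * (h * k) := by
      have e1 : ∑ j ∈ range k, 2 * h * v j - 2 * v 0 * (h * k)
          = ∑ j ∈ range k, 2 * h * (v j - v 0) := by
        simp only [mul_sub, Finset.sum_sub_distrib, Finset.sum_const, Finset.card_range,
          nsmul_eq_mul]
        ring
      rw [e1]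
      refine (Finset.abs_sum_le_sum_abs _ _).trans ?_
      have : ∑ j ∈ range k, |2 * h * (v j - v 0)| ≤ ∑ j ∈ range k, (2 * h * (C2 * θ)) := by
        apply Finset.sum_le_sum
        intro j hj
        have hj' := lt_of_lt_of_le (Finset.mem_range.mp hj) hk
        rw [abs_mul, abs_of_pos (by positivity : 0 < 2 * h)]
        exact mul_le_mul_of_nonneg_left (hvap j hj') (by positivity)
      rw [Finset.sum_const, Finset.card_range, nsmul_eq_mul] at this
      linarith
    have h12 := abs_add_le (Y k - Y 0 - ∑ j ∈ range k, 2 * h * v j)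
      (∑ j ∈ range k, 2 * h * v j - 2 * v 0 * (h * k))
    rw [show Y k - Y 0 - ∑ j ∈ range k, 2 * h * v j
      + (∑ j ∈ range k, 2 * h * v j - 2 * v 0 * (h * k)) = Y k - Y 0 - 2 * v 0 * (h * k) by ring]
      at h12
    linarith
  have hYzone : ∀ k, kz ≤ k → k ≤ K → |Y k - Y kz| ≤ 2 * Vm' * Cθ + Ce := by
    intro k hk hkK
    have h1 := telesc_from Y (fun j => 2 * h * v j)
      (fun j => C * h * (h * Real.exp (-X j) + oth h Y S m j)) kz K
      (fun j _ hj => (hloc j hj).hY) k hk hkK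
    have h3 := herrI kz k hk hkK
    have h4 : |∑ j ∈ Ico kz k, 2 * h * v j| ≤ ∑ j ∈ Ico kz k, (2 * h * Vm') := by
      refine (Finset.abs_sum_le_sum_abs _ _).trans (Finset.sum_le_sum ?_)
      intro j hj
      rw [abs_mul, abs_of_pos (by positivity : 0 < 2 * h)]
      exact mul_le_mul_of_nonneg_left (hvb' j ((Finset.mem_Ico.mp hj).2.le.trans hkK))
        (by positivity)
    rw [Finset.sum_const, Nat.card_Ico, nsmul_eq_mul, Nat.cast_sub hk] at h4
    have h8 := hdurZ k hk hkK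
    have h9 : ((k : ℝ) - kz) * (2 * h * Vm') = 2 * Vm' * (h * ((k : ℝ) - kz)) := by ring
    rw [h9] at h4
    have h11 := mul_le_mul_of_nonneg_left h8 hVm'pos.le
    have h12 := abs_add_le (Y k - Y kz - ∑ j ∈ Ico kz k, 2 * h * v j)
      (∑ j ∈ Ico kz k, 2 * h * v j)
    rw [show Y k - Y kz - ∑ j ∈ Ico kz k, 2 * h * v j + ∑ j ∈ Ico kz k, 2 * h * v j
      = Y k - Y kz by ring] at h12
    linarith
  -- assemble
  refine ⟨kz, ?_⟩
  refine
    { kzK := hkzK, ukz := hkz1, dur := hdur.trans (by linarith),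
      kz_hi := by linarith,
      kz_lo := ?_, en := ha, ub := hub, Xb := ?_, Xa := ?_, vb := hvb, mb := hmb,
      vb' := hvb', mb' := hmb', Sb := ?_, Yb := ?_, Gb := ?_, Yf := ?_, Sf := ?_,
      Sc := ?_, Yc := ?_, Xf := ?_ }
  · intro hlt
    have := hkzlo hlt
    constructor <;> linarith [this.1, this.2]
  · intro k hk
    have := hXb k hk
    constructor <;> linarith [this.1, this.2]
  · intro k hk
    have := (happ k hk).1
    linarith
  · intro k hk
    rcases le_total k kz with hkk | hkk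
    · rw [min_eq_left hkk]
      have := hSapp k hkk
      linarith
    · rw [min_eq_right hkk]
      have h1 := hSapp kz le_rfl
      have h2 := (abs_le.mp (hSzone k hkk hk)).2
      linarith
  · intro k hk
    rcases le_total k kz with hkk | hkk
    · rw [min_eq_left hkk]
      have := (abs_le.mp (hYapp k hkk)).1
      linarith
    · rw [min_eq_right hkk]
      have h1 := (abs_le.mp (hYapp kz le_rfl)).1
      have h2 := (abs_le.mp (hYzone k hkk hk)).1
      linarith
  · intro k hk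
    have hG1 : ∀ k ≤ K, G 0 ≤ G k := by
      intro k
      induction k with
      | zero => intro _; exact le_rfl
      | succ k ih => intro hk; have := ih (Nat.le_of_succ_le hk); have := (hloc k hk).hG0; linarith
    refine ⟨hG1 k hk, ?_⟩
    have h1 : ∀ k ≤ K, G k ≤ G 0 + C * (W k + ∑ j ∈ range k, oth h Y S m j) := by
      intro k
      induction k with
      | zero => intro _; simp [hW]
      | succ k ih =>
        intro hk
        have h2 := ih (Nat.le_of_succ_le hk)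
        have h3 := (hloc k hk).hG1
        have h4 : W (k + 1) = W k + h * Real.exp (-X k) := by
          simp only [hW, Finset.sum_range_succ]; ring
        rw [h4, Finset.sum_range_succ]
        linarith
    have h2 := h1 k hk
    have h3 : W k + ∑ j ∈ range k, oth h Y S m j ≤ Cθ + 1 :=
      add_le_add (hWC k hk) ((hOle k hk).trans hε1le1)
    have h4 := mul_le_mul_of_nonneg_left h3 hC.le
    linarith
  · have h1 := hYapp kz le_rfl
    have h2 := hYzone K hkzK le_rfl
    have h3 := abs_add_le (Y K - Y kz) (Y kz - Y 0 - 2 * v 0 * (h * kz))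
    rw [show Y K - Y kz + (Y kz - Y 0 - 2 * v 0 * (h * kz)) = Y K - Y 0 - 2 * v 0 * (h * kz)
      by ring] at h3
    linarith
  · -- Sf
    have h1 := telesc S (fun j => 12 * h * m j)
      (fun j => ε * h * |m j| + C * h * (h * Real.exp (-X j) + oth h Y S m j)) K
      (fun j hj => (hloc j hj).hS) kz hkzK
    rw [Finset.sum_add_distrib] at h1
    have h3 := herr kz hkzK
    have h4 : |∑ j ∈ range kz, 12 * h * m j - 12 * m 0 * (h * kz)| ≤ 12 * C2 * θ * (h * kz) := by
      have e1 : ∑ j ∈ range kz, 12 * h * m j - 12 * m 0 * (h * kz)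
          = ∑ j ∈ range kz, 12 * h * (m j - m 0) := by
        simp only [mul_sub, Finset.sum_sub_distrib, Finset.sum_const, Finset.card_range,
          nsmul_eq_mul]
        ring
      rw [e1]
      refine (Finset.abs_sum_le_sum_abs _ _).trans ?_
      have : ∑ j ∈ range kz, |12 * h * (m j - m 0)| ≤ ∑ j ∈ range kz, (12 * h * (C2 * θ)) := by
        apply Finset.sum_le_sum
        intro j hj
        rw [abs_mul, abs_of_pos (by positivity : 0 < 12 * h)]
        exact mul_le_mul_of_nonneg_left (hmap j (Finset.mem_range.mp hj)) (by positivity)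
      rw [Finset.sum_const, Finset.card_range, nsmul_eq_mul] at this
      linarith
    have h5 : ∑ j ∈ range kz, ε * h * |m j| ≤ C2 * θ * (h * kz) := by
      have : ∑ j ∈ range kz, ε * h * |m j| ≤ ∑ j ∈ range kz, (h * θ) := by
        apply Finset.sum_le_sum
        intro j hj
        have h6 := hmb' j ((Finset.mem_range.mp hj).le.trans hkzK)
        have h7 : ε * |m j| ≤ θ := (mul_le_mul_of_nonneg_left h6 hε).trans hεVm
        have h8 := mul_le_mul_of_nonneg_left h7 hh.le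
        linarith
      rw [Finset.sum_const, Finset.card_range, nsmul_eq_mul] at this
      have h9 : θ * (h * kz) ≤ C2 * θ * (h * kz) := by
        apply mul_le_mul_of_nonneg_right _ hkz0
        nlinarith
      linarith
    have h6 := hSzone K hkzK le_rfl
    have h7 := abs_add_le (S K - S kz) (S kz - S 0 - ∑ j ∈ range kz, 12 * h * m j)
    have h8 := abs_add_le (S K - S kz + (S kz - S 0 - ∑ j ∈ range kz, 12 * h * m j))
      (∑ j ∈ range kz, 12 * h * m j - 12 * m 0 * (h * kz))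
    rw [show S K - S kz + (S kz - S 0 - ∑ j ∈ range kz, 12 * h * m j)
      + (∑ j ∈ range kz, 12 * h * m j - 12 * m 0 * (h * kz)) = S K - S 0 - 12 * m 0 * (h * kz)
      by ring] at h8
    linarith
  · -- Sc
    intro k hk
    have h1 := telesc S (fun j => 12 * h * m j)
      (fun j => ε * h * |m j| + C * h * (h * Real.exp (-X j) + oth h Y S m j)) K
      (fun j hj => (hloc j hj).hS) k hk
    rw [Finset.sum_add_distrib] at h1
    have h3 := herr k hk
    have h4 : |∑ j ∈ range k, 12 * h * m j| ≤ ∑ j ∈ range k, (12 * h * Vm') := by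
      refine (Finset.abs_sum_le_sum_abs _ _).trans (Finset.sum_le_sum ?_)
      intro j hj
      rw [abs_mul, abs_of_pos (by positivity : 0 < 12 * h)]
      exact mul_le_mul_of_nonneg_left (hmb' j ((Finset.mem_range.mp hj).le.trans hk))
        (by positivity)
    have h5 : ∑ j ∈ range k, ε * h * |m j| ≤ ∑ j ∈ range k, (h * Vm') := by
      apply Finset.sum_le_sum
      intro j hj
      have h6 := hmb' j ((Finset.mem_range.mp hj).le.trans hk)
      have h7 : ε * h ≤ h := mul_le_of_le_one_left hh.le hε1'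
      exact mul_le_mul h7 h6 (abs_nonneg _) hh.le
    rw [Finset.sum_const, Finset.card_range, nsmul_eq_mul] at h4 h5
    have h12 := abs_add_le (S k - S 0 - ∑ j ∈ range k, 12 * h * m j)
      (∑ j ∈ range k, 12 * h * m j)
    rw [show S k - S 0 - ∑ j ∈ range k, 12 * h * m j + ∑ j ∈ range k, 12 * h * m j
      = S k - S 0 by ring] at h12
    have h13 : 0 ≤ Vm' * (h * k) := by positivity
    linarith
  · -- Yc
    intro k hk
    have h1 := telesc Y (fun j => 2 * h * v j)
      (fun j => C * h * (h * Real.exp (-X j) + oth h Y S m j)) K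
      (fun j hj => (hloc j hj).hY) k hk
    have h3 := herr k hk
    have h4 : |∑ j ∈ range k, 2 * h * v j| ≤ ∑ j ∈ range k, (2 * h * Vm') := by
      refine (Finset.abs_sum_le_sum_abs _ _).trans (Finset.sum_le_sum ?_)
      intro j hj
      rw [abs_mul, abs_of_pos (by positivity : 0 < 2 * h)]
      exact mul_le_mul_of_nonneg_left (hvb' j ((Finset.mem_range.mp hj).le.trans hk))
        (by positivity)
    rw [Finset.sum_const, Finset.card_range, nsmul_eq_mul] at h4
    have h12 := abs_add_le (Y k - Y 0 - ∑ j ∈ range k, 2 * h * v j)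
      (∑ j ∈ range k, 2 * h * v j)
    rw [show Y k - Y 0 - ∑ j ∈ range k, 2 * h * v j + ∑ j ∈ range k, 2 * h * v j
      = Y k - Y 0 by ring] at h12
    linarith
  · -- Xf
    have h1 := telesc_from X (fun j => 2 * h * u j)
      (fun j => C * h * (h * Real.exp (-X j) + oth h Y S m j)) kz K
      (fun j _ hj => (hloc j hj).hX) K hkzK le_rfl
    have h3 := herrI kz K hkzK le_rfl
    have h4 : ∑ j ∈ Ico kz K, 2 * h * u j ≤ ∑ j ∈ Ico kz K, (3 * h) := by
      apply Finset.sum_le_sum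
      intro j hj
      have := (hub j (Finset.mem_Ico.mp hj).2.le).2
      nlinarith
    rw [Finset.sum_const, Nat.card_Ico, nsmul_eq_mul, Nat.cast_sub hkzK] at h4
    have h5 := (abs_le.mp h1).2
    have h6 := hdurZ K hkzK le_rfl
    linarith

end Pool.Agent.Hhelper30.Forsythe
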