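import Mathlib

/-! Common definitions for the counterexample to Forsythe's conjecture (MP_2d0f4a_an, S04196). -/

set_option autoImplicit false

namespace Pool.Agent.Hhelper30.Forsythe

open Filter Topology

/-- the centred spectrum (the matrix is `diag (nd i + 11)`), `s = 4`, `n = 8` -/
def nd : Fin 8 → ℝ := ![-10, -6, -5, -3, 3, 5, 6, 10]

/-- monic quartic with given roots -/
def Q4 (p : Fin 4 → ℝ) (z : ℝ) : ℝ := (z - p 0) * (z - p 1) * (z - p 2) * (z - p 3)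

/-- monic cubic with given roots -/
def C3 (h : Fin 3 → ℝ) (z : ℝ) : ℝ := (z - h 0) * (z - h 1) * (z - h 2)

/-- nodal polynomial of the spectrum -/
def Pi8 (z : ℝ) : ℝ :=
  (z + 10) * (z + 6) * (z + 5) * (z + 3) * (z - 3) * (z - 5) * (z - 6) * (z - 10)

/-- derivative of the nodal polynomial at the nodes -/
def dPi8 (i : Fin 8) : ℝ := ∏ j ∈ Finset.univ.erase i, (nd i - nd j)

/-- root pattern at even times -/
structure EvenGap (p : Fin 4 → ℝ) (h : Fin 3 → ℝ) : Prop where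
  p0 : -6 < p 0 ∧ p 0 < -5
  p1 : -5 < p 1 ∧ p 1 < -3
  p2 : 3 < p 2 ∧ p 2 < 5
  p3 : 6 < p 3 ∧ p 3 < 10
  h0 : -10 < h 0 ∧ h 0 < -6
  h1 : -3 < h 1 ∧ h 1 < 3
  h2 : 5 < h 2 ∧ h 2 < 6

/-- root pattern at odd times -/
structure OddGap (p : Fin 4 → ℝ) (h : Fin 3 → ℝ) : Prop where
  p0 : -10 < p 0 ∧ p 0 < -6
  p1 : -5 < p 1 ∧ p 1 < -3
  p2 : 3 < p 2 ∧ p 2 < 5
  p3 : 5 < p 3 ∧ p 3 < 6
  h0 : -6 < h 0 ∧ h 0 < -5
  h1 : -3 < h 1 ∧ h 1 < 3
  h2 : 6 < h 2 ∧ h 2 < 10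

/-- An orbit of the inverse iteration (growth time `t`): `p t` are the four roots of the monic
orthogonal polynomial, `h t` the three roots of the complementary polynomial, `sg t = σ_t²`. -/
structure BackOrbit where
  p : ℕ → Fin 4 → ℝ
  h : ℕ → Fin 3 → ℝ
  sg : ℕ → ℝ
  even : ∀ k, EvenGap (p (2 * k)) (h (2 * k))
  odd : ∀ k, OddGap (p (2 * k + 1)) (h (2 * k + 1))
  sg_pos : ∀ t, 0 < sg t
  rel : ∀ t i, Q4 (p t) (nd i) * Q4 (p (t + 1)) (nd i) * C3 (h (t + 1)) (nd i)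
    = sg t * C3 (h t) (nd i)

/-- weights of a backward orbit at time `t` (positive, sum `1`) -/
noncomputable def BackOrbit.w (O : BackOrbit) (t : ℕ) (i : Fin 8) : ℝ :=
  Q4 (O.p t) (nd i) * C3 (O.h t) (nd i) / dPi8 i

end Pool.Agent.Hhelper30.Forsythe
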