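import Pool.Agent.Hhelper30.Forsythe.LocalRS

/-! Bounds along the exchange (the moving zero crosses from one end to the other). -/

set_option autoImplicit false

namespace Pool.Agent.Hhelper30.Forsythe

open Filter Topology Set Finset

theorem etaS_step (S t : ℝ) (ht : |t| ≤ 1) :
    |etaS (S + t) - etaS S - ES S / 6 * t| ≤ 2 * ES S * t ^ 2 := by
  have hq : 0 < Real.exp S := Real.exp_pos S
  have hr : 0 < Real.exp t := Real.exp_pos t
  obtain ⟨q, hqd⟩ : ∃ q, q = Real.exp S := ⟨_, rfl⟩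
  obtain ⟨r, hrd⟩ : ∃ r, r = Real.exp t := ⟨_, rfl⟩
  rw [← hqd] at hq
  rw [← hrd] at hr
  have e1 : etaS (S + t) - etaS S = ES S / 6 * ((r - 1) * (q + 1) / (q * r + 1)) := by
    rw [ES_eq]; unfold etaS; rw [Real.exp_add, ← hqd, ← hrd]
    have : q + 1 ≠ 0 := by positivity
    have : q * r + 1 ≠ 0 := by positivity
    field_simp
    ring
  have e2 : (r - 1) * (q + 1) / (q * r + 1) - t = (r - 1 - t) - q / (q * r + 1) * (r - 1) ^ 2 := by
    have : q * r + 1 ≠ 0 := by positivity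
    field_simp
    ring
  have h1 : |r - 1 - t| ≤ t ^ 2 := by rw [hrd]; exact Real.abs_exp_sub_one_sub_id_le ht
  have h2 : |r - 1| ≤ 2 * |t| := by rw [hrd]; exact Real.abs_exp_sub_one_le ht
  have h3 : (r - 1) ^ 2 ≤ 4 * t ^ 2 := by
    rw [← sq_abs (r - 1), ← sq_abs t]
    calc |r - 1| ^ 2 ≤ (2 * |t|) ^ 2 := pow_le_pow_left₀ (abs_nonneg _) h2 2
      _ = 4 * |t| ^ 2 := by ring
  have h4 : q / (q * r + 1) ≤ 11 / 4 := by
    rw [div_le_iff₀ (by positivity)]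
    have h5 : 4 / 11 ≤ r := by
      have h6 : Real.exp (-1) ≤ r := by
        rw [hrd]; exact Real.exp_le_exp.mpr (abs_le.mp ht).1
      have h7 : (4 : ℝ) / 11 ≤ Real.exp (-1) := by
        rw [Real.exp_neg, le_inv_comm₀ (by norm_num) (Real.exp_pos _)]
        have := Real.exp_one_lt_d9
        norm_num
        linarith
      linarith
    nlinarith
  have h40 : 0 ≤ q / (q * r + 1) := by positivity
  have h8 : |(r - 1) * (q + 1) / (q * r + 1) - t| ≤ 12 * t ^ 2 := by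
    rw [e2]
    have h9 := abs_sub (r - 1 - t) (q / (q * r + 1) * (r - 1) ^ 2)
    have h10 : |q / (q * r + 1) * (r - 1) ^ 2| ≤ 11 / 4 * (4 * t ^ 2) := by
      rw [abs_mul, abs_of_nonneg h40, abs_of_nonneg (sq_nonneg _)]
      exact mul_le_mul h4 h3 (sq_nonneg _) (by norm_num)
    linarith
  have e3 : etaS (S + t) - etaS S - ES S / 6 * t
      = ES S / 6 * ((r - 1) * (q + 1) / (q * r + 1) - t) := by rw [e1]; ring
  have hE := ES_nonneg S
  rw [e3, abs_mul, abs_of_nonneg (by positivity)]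
  calc ES S / 6 * |(r - 1) * (q + 1) / (q * r + 1) - t| ≤ ES S / 6 * (12 * t ^ 2) :=
        mul_le_mul_of_nonneg_left h8 (by positivity)
    _ = 2 * ES S * t ^ 2 := by ring

/-- uniform differentiability of an antiderivative -/
theorem unif_int (f : ℝ → ℝ) (hf : ContinuousOn f (Icc (-3) 3)) (κ : ℝ) (hκ : 0 < κ) :
    ∃ ρ > 0, ∀ a ∈ Icc (-3 : ℝ) 3, ∀ b ∈ Icc (-3 : ℝ) 3, |b - a| ≤ ρ →
      |(∫ e in a..b, f e) - f a * (b - a)| ≤ κ * |b - a| := by
  have huc := isCompact_Icc.uniformContinuousOn_of_continuous hf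
  rw [Metric.uniformContinuousOn_iff] at huc
  obtain ⟨ρ, hρ, h⟩ := huc κ hκ
  refine ⟨ρ / 2, by positivity, ?_⟩
  intro a ha b hb hab
  have hsub : uIcc a b ⊆ Icc (-3) 3 := uIcc_subset_Icc ha hb
  have hint : IntervalIntegrable f MeasureTheory.volume a b :=
    (hf.mono hsub).intervalIntegrable
  have e1 : (∫ e in a..b, f e) - f a * (b - a) = ∫ e in a..b, (f e - f a) := by
    rw [intervalIntegral.integral_sub hint intervalIntegrable_const]
    simp
    ring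
  rw [e1, ← Real.norm_eq_abs]
  apply intervalIntegral.norm_integral_le_of_norm_le_const
  intro x hx
  have hx' : x ∈ uIcc a b := uIoc_subset_uIcc hx
  have hxa : |x - a| ≤ |b - a| := abs_sub_left_of_mem_uIcc hx'
  have := h x (hsub hx') a ha (by rw [Real.dist_eq]; linarith)
  rw [Real.dist_eq] at this
  exact this.le

/-- uniform differentiability of `gh` -/
theorem unif_gh (c : Coef) (hc : GoodCoef c) (κ : ℝ) (hκ : 0 < κ) :
    ∃ ρ > 0, ∀ a ∈ Icc (-3 : ℝ) 3, ∀ b ∈ Icc (-3 : ℝ) 3, |b - a| ≤ ρ →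
      |c.gh b - c.gh a - c.lam a * c.gh a * (b - a)| ≤ κ * |b - a| := by
  have hghc : ContinuousOn c.gh (Icc (-3) 3) :=
    fun x hx => (hc.gh_deriv x hx).continuousAt.continuousWithinAt
  obtain ⟨ρ, hρ, h⟩ := unif_int (fun e => c.lam e * c.gh e) (hc.clam.mul hghc) κ hκ
  refine ⟨ρ, hρ, ?_⟩
  intro a ha b hb hab
  have hsub : uIcc a b ⊆ Icc (-3) 3 := uIcc_subset_Icc ha hb
  have hint : IntervalIntegrable (fun e => c.lam e * c.gh e) MeasureTheory.volume a b :=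
    ((hc.clam.mul hghc).mono hsub).intervalIntegrable
  have e1 : ∫ e in a..b, c.lam e * c.gh e = c.gh b - c.gh a :=
    intervalIntegral.integral_eq_sub_of_hasDerivAt (fun x hx => hc.gh_deriv x (hsub hx)) hint
  have := h a ha b hb hab
  rw [e1] at this
  exact this

theorem eta_arith (E h m mlo mhi σ ε C B2 t s dη : ℝ) (hE : 0 ≤ E) (hh : 0 < h) (hmlo : 0 < mlo)
    (hm1 : mlo ≤ m) (hm2 : m ≤ mhi) (hσ1 : σ ≤ 1) (hεσ : ε ≤ σ) (hC : 0 ≤ C)
    (hs : s ≤ B2) (hCh : C * h * B2 ≤ σ * mlo) (hhm : h * (1600 * mhi) ≤ σ)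
    (ht : |t - 12 * h * m| ≤ ε * h * m + C * h ^ 2 * s) (hd : |dη - E / 6 * t| ≤ 2 * E * t ^ 2) :
    |dη - 2 * (h * m * E)| ≤ σ * (h * m * E) ∧ |t - 12 * h * m| ≤ 2 * σ * (h * m) ∧
      |t| ≤ 14 * h * m := by
  have hm0 : 0 < m := by linarith
  have hhm0 : 0 < h * m := by positivity
  have h1 : |t - 12 * h * m| ≤ 2 * σ * (h * m) := by
    have e1 : ε * (h * m) ≤ σ * (h * m) := mul_le_mul_of_nonneg_right hεσ hhm0.le
    have e2 : C * h ^ 2 * s ≤ C * h ^ 2 * B2 := mul_le_mul_of_nonneg_left hs (by positivity)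
    have e3 : h * (C * h * B2) ≤ h * (σ * mlo) := mul_le_mul_of_nonneg_left hCh hh.le
    have hσ0 : 0 ≤ σ := by
      have : 0 ≤ h * (1600 * mhi) := mul_nonneg hh.le (by linarith)
      linarith
    have e4 : σ * (h * mlo) ≤ σ * (h * m) :=
      mul_le_mul_of_nonneg_left (mul_le_mul_of_nonneg_left hm1 hh.le) hσ0
    have e5 : C * h ^ 2 * B2 = h * (C * h * B2) := by ring
    have e6 : h * (σ * mlo) = σ * (h * mlo) := by ring
    linarith
  have h2 : |t| ≤ 14 * h * m := by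
    have e1 := abs_add_le (t - 12 * h * m) (12 * h * m)
    rw [sub_add_cancel, abs_of_nonneg (by positivity : 0 ≤ 12 * h * m)] at e1
    have e2 : σ * (h * m) ≤ 1 * (h * m) := mul_le_mul_of_nonneg_right hσ1 hhm0.le
    linarith
  refine ⟨?_, h1, h2⟩
  have h3 : t ^ 2 ≤ 196 * (h * m) ^ 2 := by
    rw [← sq_abs t]
    calc |t| ^ 2 ≤ (14 * h * m) ^ 2 := pow_le_pow_left₀ (abs_nonneg _) h2 2
      _ = 196 * (h * m) ^ 2 := by ring
  have ha0 : 0 ≤ h * m * E := by positivity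
  have h4 : 2 * E * t ^ 2 ≤ σ / 4 * (h * m * E) := by
    have e1 : 2 * E * t ^ 2 ≤ 2 * E * (196 * (h * m) ^ 2) :=
      mul_le_mul_of_nonneg_left h3 (by positivity)
    have e2 : 2 * E * (196 * (h * m) ^ 2) = 392 * (h * m) * (h * m * E) := by ring
    have e3 : 392 * (h * m) * (h * m * E) ≤ σ / 4 * (h * m * E) := by
      apply mul_le_mul_of_nonneg_right _ ha0
      have : h * m ≤ h * mhi := mul_le_mul_of_nonneg_left hm2 hh.le
      linarith
    linarith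
  have h5 : |E / 6 * t - 2 * (h * m * E)| ≤ σ / 3 * (h * m * E) := by
    have e1 : E / 6 * t - 2 * (h * m * E) = E / 6 * (t - 12 * h * m) := by ring
    rw [e1, abs_mul, abs_of_nonneg (by positivity : 0 ≤ E / 6)]
    calc E / 6 * |t - 12 * h * m| ≤ E / 6 * (2 * σ * (h * m)) :=
          mul_le_mul_of_nonneg_left h1 (by positivity)
      _ = σ / 3 * (h * m * E) := by ring
  have h6 := abs_add_le (dη - E / 6 * t) (E / 6 * t - 2 * (h * m * E))
  rw [sub_add_sub_cancel] at h6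
  have hσ0 : 0 ≤ σ := by
    have : 0 ≤ h * (1600 * mhi) := mul_nonneg hh.le (by linarith)
    linarith
  have h7 : 0 ≤ σ * (h * m * E) := mul_nonneg hσ0 ha0
  linarith

theorem mu_arith (a m mhi B σ ε l g g' dη dm hp : ℝ) (ha : 0 ≤ a) (hp0 : 0 ≤ hp) (hm0 : 0 ≤ m)
    (hm2 : m ≤ mhi) (hB : 1 ≤ B) (hσ0 : 0 ≤ σ) (hσ1 : σ ≤ 1) (hε : 0 ≤ ε) (hεσ : ε ≤ σ)
    (hl : |l| ≤ B) (hg : |g| ≤ B)
    (hdη : |dη - 2 * a| ≤ σ * a) (hgg : |g' - g - l * g * dη| ≤ σ * |dη|)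
    (hsm : 3 * (B * B + 1) * a ≤ σ)
    (hdm : |dm + 2 * m * a * l| ≤ (B + 1) * hp + ε * m * a) :
    |(m + dm) * g' - m * g| ≤ σ * (8 * B * B * mhi) * a + 3 * B * B * hp + 2 * B * hp := by
  have hmhi : 0 ≤ mhi := by linarith
  have hBB : 1 ≤ B * B := by nlinarith
  have hBB' : B ≤ B * B := by nlinarith
  have habsη : |dη| ≤ 3 * a := by
    have e1 := abs_add_le (dη - 2 * a) (2 * a)
    rw [sub_add_cancel, abs_of_nonneg (by positivity : 0 ≤ 2 * a)] at e1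
    have e2 : σ * a ≤ 1 * a := mul_le_mul_of_nonneg_right hσ1 ha
    linarith
  have hlg : |l * g| ≤ B * B := by
    rw [abs_mul]; exact mul_le_mul hl hg (abs_nonneg _) (by linarith)
  have hgd : |g' - g| ≤ 3 * (B * B + 1) * a := by
    have e1 := abs_add_le (g' - g - l * g * dη) (l * g * dη)
    rw [sub_add_cancel, abs_mul (l * g)] at e1
    have e2 : |l * g| * |dη| ≤ (B * B) * (3 * a) := mul_le_mul hlg habsη (abs_nonneg _) (by positivity)
    have e3 : σ * |dη| ≤ 1 * (3 * a) := mul_le_mul hσ1 habsη (abs_nonneg _) (by norm_num)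
    linarith
  have hma : m * a ≤ mhi * a := mul_le_mul_of_nonneg_right hm2 ha
  have hma0 : 0 ≤ m * a := mul_nonneg hm0 ha
  have hmha0 : 0 ≤ mhi * a := mul_nonneg hmhi ha
  have hdm' : |dm| ≤ 3 * B * (mhi * a) + (B + 1) * hp := by
    have e1 := abs_add_le (dm + 2 * m * a * l) (-(2 * m * a * l))
    rw [add_neg_cancel_right, abs_neg] at e1
    have e2 : |2 * m * a * l| ≤ 2 * (mhi * a) * B := by
      rw [abs_mul, abs_of_nonneg (by positivity : 0 ≤ 2 * m * a)]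
      exact mul_le_mul (by linarith) hl (abs_nonneg _) (by positivity)
    have e3 : ε * (m * a) ≤ 1 * (mhi * a) := mul_le_mul (by linarith) hma hma0 (by norm_num)
    have e4 : 1 * (mhi * a) ≤ B * (mhi * a) := mul_le_mul_of_nonneg_right hB hmha0
    linarith
  have h1 : (m + dm) * g' - m * g = (dm + 2 * m * a * l) * g + dm * (g' - g)
      + m * (g' - g - l * g * dη) + m * (l * g) * (dη - 2 * a) := by ring
  have t1 : |(dm + 2 * m * a * l) * g| ≤ ((B + 1) * hp + σ * (mhi * a)) * B := by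
    rw [abs_mul]
    apply mul_le_mul _ hg (abs_nonneg _)
    · have : 0 ≤ (B + 1) * hp := by positivity
      have : 0 ≤ σ * (mhi * a) := by positivity
      linarith
    · have e3 : ε * (m * a) ≤ σ * (mhi * a) := mul_le_mul hεσ hma hma0 hσ0
      linarith
  have t2 : |dm * (g' - g)| ≤ σ * (3 * B * (mhi * a)) + (B + 1) * hp := by
    rw [abs_mul]
    have e1 : |dm| * |g' - g| ≤ (3 * B * (mhi * a) + (B + 1) * hp) * σ :=
      mul_le_mul hdm' (hgd.trans hsm) (abs_nonneg _) (by positivity)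
    have e2 : σ * ((B + 1) * hp) ≤ 1 * ((B + 1) * hp) :=
      mul_le_mul_of_nonneg_right hσ1 (by positivity)
    linarith
  have t3 : |m * (g' - g - l * g * dη)| ≤ σ * (3 * (mhi * a)) := by
    rw [abs_mul, abs_of_nonneg hm0]
    have e1 : σ * |dη| ≤ σ * (3 * a) := mul_le_mul_of_nonneg_left habsη hσ0
    have e2 : m * |g' - g - l * g * dη| ≤ mhi * (σ * (3 * a)) :=
      mul_le_mul hm2 (hgg.trans e1) (abs_nonneg _) hmhi
    linarith
  have t4 : |m * (l * g) * (dη - 2 * a)| ≤ σ * (B * B * (mhi * a)) := by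
    rw [abs_mul, abs_mul, abs_of_nonneg hm0]
    have e1 : m * |l * g| ≤ mhi * (B * B) := mul_le_mul hm2 hlg (abs_nonneg _) hmhi
    have e2 : m * |l * g| * |dη - 2 * a| ≤ mhi * (B * B) * (σ * a) :=
      mul_le_mul e1 hdη (abs_nonneg _) (by positivity)
    linarith
  have h2 := abs_add_le ((dm + 2 * m * a * l) * g + dm * (g' - g)
      + m * (g' - g - l * g * dη)) (m * (l * g) * (dη - 2 * a))
  have h3 := abs_add_le ((dm + 2 * m * a * l) * g + dm * (g' - g)) (m * (g' - g - l * g * dη))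
  have h4 := abs_add_le ((dm + 2 * m * a * l) * g) (dm * (g' - g))
  rw [h1]
  have q1 : σ * (mhi * a) * B ≤ σ * (mhi * a) * (B * B) :=
    mul_le_mul_of_nonneg_left hBB' (by positivity)
  have q2 : σ * (mhi * a) * 1 ≤ σ * (mhi * a) * (B * B) :=
    mul_le_mul_of_nonneg_left hBB (by positivity)
  have q3 : 1 * hp ≤ B * hp := mul_le_mul_of_nonneg_right hB hp0
  have q4 : B * hp ≤ B * B * hp := mul_le_mul_of_nonneg_right hBB' hp0
  linarith

theorem exch_step (c : Coef) (hc : GoodCoef c) (C c0 mlo mhi : ℝ) (hC : 0 < C) (hc0 : 0 ≤ c0)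
    (hmlo : 0 < mlo) (hmm : mlo ≤ mhi) (hmhi : 1 ≤ mhi) :
    ∃ B1 : ℝ, 1 ≤ B1 ∧ ∀ κ > 0, κ ≤ 1 → ∃ τ > 0, ∀ (ε h δ : ℝ), 0 ≤ ε → ε ≤ τ → 0 < h → h ≤ τ →
    ∀ (X Y S u v m G : ℕ → ℝ), RS c C c0 ε h δ X Y S u v m G → ∀ k, G k ≤ δ →
    Real.exp (-X k) + Real.exp (-Y k) ≤ 1 → mlo ≤ m k → m k ≤ mhi →
    ∀ a hp : ℝ, a = h * m k * ES (S k) → hp = h * (Real.exp (-X k) + Real.exp (-Y k)) →
      0 ≤ a ∧ 0 ≤ hp ∧
      |etaS (S (k + 1)) - etaS (S k) - 2 * a| ≤ κ * a ∧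
      |m (k + 1) * c.gh (etaS (S (k + 1))) - m k * c.gh (etaS (S k))| ≤ κ * a + B1 * hp ∧
      |u (k + 1) - u k + m k * a * c.kx (etaS (S k))| ≤ κ * a + B1 * hp ∧
      |v (k + 1) - v k + m k * a * c.kx (-etaS (S k))| ≤ κ * a + B1 * hp ∧
      |S (k + 1) - S k - 12 * h * m k| ≤ κ * h ∧
      |X (k + 1) - X k - 2 * h * u k| ≤ κ * h ∧ |Y (k + 1) - Y k - 2 * h * v k| ≤ κ * h ∧
      0 ≤ G (k + 1) - G k ∧ G (k + 1) - G k ≤ B1 * (a + hp) ∧
      |etaS (S (k + 1)) - etaS (S k)| ≤ κ := by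
  obtain ⟨b1, hb1, hb1'⟩ := bdd_fun c.Axx hc.cAxx
  obtain ⟨b2, hb2, hb2'⟩ := bdd_fun c.Axy hc.cAxy
  obtain ⟨b3, hb3, hb3'⟩ := bdd_fun c.kx hc.ckx
  obtain ⟨b4, hb4, hb4'⟩ := bdd_fun c.nx hc.cnx
  obtain ⟨b5, hb5, hb5'⟩ := bdd_fun c.lam hc.clam
  have hghc : ContinuousOn c.gh (Icc (-3) 3) :=
    fun x hx => (hc.gh_deriv x hx).continuousAt.continuousWithinAt
  obtain ⟨b6, hb6, hb6'⟩ := bdd_fun c.gh hghc
  obtain ⟨B, hB⟩ : ∃ B, B = 1 + b1 + b2 + b3 + b4 + b5 + b6 := ⟨_, rfl⟩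
  have hB1 : 1 ≤ B := by linarith
  obtain ⟨B2, hB2⟩ : ∃ B2, B2 = 1 + 9 * mhi ^ 2 := ⟨_, rfl⟩
  have hB2p : 1 ≤ B2 := by rw [hB2]; nlinarith [sq_nonneg mhi]
  have hBB : 1 ≤ B * B := by nlinarith
  refine ⟨5 * B * B + C * mhi, by nlinarith [mul_pos hC (by linarith : 0 < mhi)], ?_⟩
  intro κ hκ hκ1
  obtain ⟨σ, hσ⟩ : ∃ σ, σ = κ / (16 * B * B * mhi) := ⟨_, rfl⟩
  have hDpos : 16 ≤ 16 * B * B * mhi := by nlinarith
  have hσ0 : 0 < σ := by rw [hσ]; positivity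
  have hσκ : σ * (16 * B * B * mhi) = κ := by rw [hσ]; field_simp
  have hσκ1 : σ * 16 ≤ κ := by
    rw [← hσκ]; exact mul_le_mul_of_nonneg_left hDpos hσ0.le
  have hσκ2 : σ * (16 * mhi) ≤ κ := by
    rw [← hσκ]; apply mul_le_mul_of_nonneg_left _ hσ0.le; nlinarith
  have hσ1 : σ ≤ 1 := by linarith
  obtain ⟨ρ, hρ, hgh⟩ := unif_gh c hc σ hσ0
  obtain ⟨τ, hτ, hτσ, hτ1, hτ2, hτ3, hτ4, hτ5⟩ : ∃ τ > 0, τ ≤ σ ∧ C * τ * B2 ≤ σ * mlo ∧
      τ * (1600 * mhi) ≤ σ ∧ 3 * (B * B + 1) * (9 * τ * mhi) ≤ σ ∧ 27 * τ * mhi ≤ ρ ∧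
      27 * τ * mhi ≤ κ := by
    refine ⟨min σ (min (σ * mlo / (C * B2)) (min (σ / (1600 * mhi))
      (min (σ / (27 * (B * B + 1) * mhi)) (min (ρ / (27 * mhi)) (κ / (27 * mhi)))))),
      by positivity, min_le_left _ _, ?_, ?_, ?_, ?_, ?_⟩
    · have h : min σ (min (σ * mlo / (C * B2)) (min (σ / (1600 * mhi))
        (min (σ / (27 * (B * B + 1) * mhi)) (min (ρ / (27 * mhi)) (κ / (27 * mhi))))))
        ≤ σ * mlo / (C * B2) := (min_le_right _ _).trans (min_le_left _ _)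
      have := mul_le_mul_of_nonneg_left h (by positivity : 0 ≤ C * B2)
      have e : C * B2 * (σ * mlo / (C * B2)) = σ * mlo := by field_simp
      linarith
    · have h : min σ (min (σ * mlo / (C * B2)) (min (σ / (1600 * mhi))
        (min (σ / (27 * (B * B + 1) * mhi)) (min (ρ / (27 * mhi)) (κ / (27 * mhi))))))
        ≤ σ / (1600 * mhi) := (min_le_right _ _).trans ((min_le_right _ _).trans (min_le_left _ _))
      have := mul_le_mul_of_nonneg_left h (by positivity : 0 ≤ 1600 * mhi)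
      have e : 1600 * mhi * (σ / (1600 * mhi)) = σ := by field_simp
      linarith
    · have h : min σ (min (σ * mlo / (C * B2)) (min (σ / (1600 * mhi))
        (min (σ / (27 * (B * B + 1) * mhi)) (min (ρ / (27 * mhi)) (κ / (27 * mhi))))))
        ≤ σ / (27 * (B * B + 1) * mhi) := (min_le_right _ _).trans ((min_le_right _ _).trans
          ((min_le_right _ _).trans (min_le_left _ _)))
      have := mul_le_mul_of_nonneg_left h (by positivity : 0 ≤ 27 * (B * B + 1) * mhi)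
      have e : 27 * (B * B + 1) * mhi * (σ / (27 * (B * B + 1) * mhi)) = σ := by field_simp
      linarith
    · have h : min σ (min (σ * mlo / (C * B2)) (min (σ / (1600 * mhi))
        (min (σ / (27 * (B * B + 1) * mhi)) (min (ρ / (27 * mhi)) (κ / (27 * mhi))))))
        ≤ ρ / (27 * mhi) := (min_le_right _ _).trans ((min_le_right _ _).trans
          ((min_le_right _ _).trans ((min_le_right _ _).trans (min_le_left _ _))))
      have := mul_le_mul_of_nonneg_left h (by positivity : 0 ≤ 27 * mhi)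
      have e : 27 * mhi * (ρ / (27 * mhi)) = ρ := by field_simp
      linarith
    · have h : min σ (min (σ * mlo / (C * B2)) (min (σ / (1600 * mhi))
        (min (σ / (27 * (B * B + 1) * mhi)) (min (ρ / (27 * mhi)) (κ / (27 * mhi))))))
        ≤ κ / (27 * mhi) := (min_le_right _ _).trans ((min_le_right _ _).trans
          ((min_le_right _ _).trans ((min_le_right _ _).trans (min_le_right _ _))))
      have := mul_le_mul_of_nonneg_left h (by positivity : 0 ≤ 27 * mhi)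
      have e : 27 * mhi * (κ / (27 * mhi)) = κ := by field_simp
      linarith
  refine ⟨τ, hτ, ?_⟩
  intro ε h δ hε hετ hh hhτ X Y S u v m G hRS k hGk hp1 hm1 hm2 a hp ha hhp
  have hm0 : 0 < m k := by linarith
  have hE0 := ES_nonneg (S k)
  have hE9 := ES_le_nine (S k)
  have ha0 : 0 ≤ a := by rw [ha]; positivity
  have hp0 : 0 ≤ hp := by rw [hhp]; positivity
  have hsrc : src X Y S m k = Real.exp (-X k) + Real.exp (-Y k) + m k ^ 2 * ES (S k) := rfl
  have hm2sq : m k ^ 2 ≤ mhi ^ 2 := pow_le_pow_left₀ hm0.le hm2 2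
  have hsB2 : src X Y S m k ≤ B2 := by
    rw [hsrc, hB2]
    have : m k ^ 2 * ES (S k) ≤ mhi ^ 2 * 9 := mul_le_mul hm2sq hE9 hE0 (by positivity)
    linarith
  have hhsrc : h * src X Y S m k = hp + m k * a := by rw [hsrc, hhp, ha]; ring
  have hsrc0 : 0 ≤ src X Y S m k := by rw [hsrc]; positivity
  have hChB : C * h * B2 ≤ σ * mlo := by
    refine le_trans ?_ hτ1
    apply mul_le_mul_of_nonneg_right _ (by linarith)
    exact mul_le_mul_of_nonneg_left hhτ hC.le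
  have hhm : h * (1600 * mhi) ≤ σ := by
    refine le_trans ?_ hτ2
    exact mul_le_mul_of_nonneg_right hhτ (by linarith)
  have hεσ : ε ≤ σ := hετ.trans hτσ
  have hhmm : h * m k ≤ τ * mhi := mul_le_mul hhτ hm2 hm0.le hτ.le
  have ha9 : a ≤ 9 * τ * mhi := by
    have h1 : h * m k * ES (S k) ≤ τ * mhi * 9 := mul_le_mul hhmm hE9 hE0 (by positivity)
    rw [ha]; linarith
  -- the increment of eta
  obtain ⟨t, ht⟩ : ∃ t, t = S (k + 1) - S k := ⟨_, rfl⟩
  have hSt : S (k + 1) = S k + t := by rw [ht]; ring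
  have htb : |t - 12 * h * m k| ≤ ε * h * m k + C * h ^ 2 * src X Y S m k := by
    have := hRS.hS k hGk
    rw [abs_of_pos hm0] at this
    rw [ht]; exact this
  have ht14 : |t| ≤ 1 := by
    have e0 : C * h ^ 2 * src X Y S m k ≤ h * (σ * mlo) := by
      have e1 : C * h ^ 2 * src X Y S m k ≤ C * h ^ 2 * B2 :=
        mul_le_mul_of_nonneg_left hsB2 (by positivity)
      have e2 := mul_le_mul_of_nonneg_left hChB hh.le
      linarith
    have e3 := abs_add_le (t - 12 * h * m k) (12 * h * m k)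
    rw [sub_add_cancel, abs_of_nonneg (by positivity : 0 ≤ 12 * h * m k)] at e3
    have e4 : ε * (h * m k) ≤ 1 * (h * m k) :=
      mul_le_mul_of_nonneg_right (by linarith) (by positivity)
    have e5 : h * (σ * mlo) ≤ h * (1 * mhi) :=
      mul_le_mul_of_nonneg_left (mul_le_mul hσ1 hmm hmlo.le (by norm_num)) hh.le
    have e6 : h * m k ≤ h * mhi := mul_le_mul_of_nonneg_left hm2 hh.le
    linarith
  have hstep := etaS_step (S k) t ht14
  rw [← hSt] at hstep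
  obtain ⟨A1, A2, _⟩ := eta_arith (ES (S k)) h (m k) mlo mhi σ ε C B2 t (src X Y S m k)
    (etaS (S (k + 1)) - etaS (S k)) hE0 hh hmlo hm1 hm2 hσ1 hεσ hC.le hsB2 hChB hhm htb hstep
  rw [← ha] at A1
  obtain ⟨dη, hdη⟩ : ∃ d, d = etaS (S (k + 1)) - etaS (S k) := ⟨_, rfl⟩
  rw [← hdη] at A1
  have habsη : |dη| ≤ 3 * a := by
    have e1 := abs_add_le (dη - 2 * a) (2 * a)
    rw [sub_add_cancel, abs_of_nonneg (by positivity : 0 ≤ 2 * a)] at e1
    have e2 : σ * a ≤ 1 * a := mul_le_mul_of_nonneg_right hσ1 ha0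
    linarith
  have hσa : σ * a ≤ κ * a := mul_le_mul_of_nonneg_right (by linarith) ha0
  have hgk := hgh (etaS (S k)) (etaS_mem _) (etaS (S (k + 1))) (etaS_mem _)
    (by rw [← hdη]; linarith)
  rw [← hdη] at hgk
  have hη := etaS_mem (S k)
  have hη' := neg_etaS_mem (S k)
  have hexpx : 0 ≤ h * Real.exp (-X k) := by positivity
  have hexpy : 0 ≤ h * Real.exp (-Y k) := by positivity
  have hhp' : hp = h * Real.exp (-X k) + h * Real.exp (-Y k) := by rw [hhp]; ring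
  have hlin : ∀ (α β γ D : ℝ), |α| ≤ B → |β| ≤ B →
      |D - h * (Real.exp (-X k) * α + Real.exp (-Y k) * β - m k ^ 2 * ES (S k) * γ)|
        ≤ ε * h * src X Y S m k → |D + m k * a * γ| ≤ (B + 1) * hp + ε * m k * a := by
    intro α β γ D hα hβ hD
    have e1 : D + m k * a * γ = (D - h * (Real.exp (-X k) * α + Real.exp (-Y k) * β
        - m k ^ 2 * ES (S k) * γ)) + (h * Real.exp (-X k) * α + h * Real.exp (-Y k) * β) := by
      rw [ha]; ring
    have e2 := abs_add_le (D - h * (Real.exp (-X k) * α + Real.exp (-Y k) * β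
        - m k ^ 2 * ES (S k) * γ)) (h * Real.exp (-X k) * α + h * Real.exp (-Y k) * β)
    have e3 := abs_add_le (h * Real.exp (-X k) * α) (h * Real.exp (-Y k) * β)
    rw [abs_mul (h * Real.exp (-X k)), abs_of_nonneg hexpx, abs_mul (h * Real.exp (-Y k)),
      abs_of_nonneg hexpy] at e3
    have e4 := mul_le_mul_of_nonneg_left hα hexpx
    have e5 := mul_le_mul_of_nonneg_left hβ hexpy
    have e6 : ε * h * src X Y S m k = ε * (hp + m k * a) := by rw [mul_assoc, hhsrc]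
    rw [e6] at hD
    have e7 : ε * hp ≤ 1 * hp := mul_le_mul_of_nonneg_right (by linarith) hp0
    rw [e1, hhp']
    rw [hhp'] at e7 hD
    linarith
  have hεma : ε * m k * a ≤ σ * (mhi * a) := by
    have e1 : m k * a ≤ mhi * a := mul_le_mul_of_nonneg_right hm2 ha0
    have := mul_le_mul hεσ e1 (by positivity) hσ0.le
    linarith
  have hσma : σ * (mhi * a) ≤ κ * a := by
    have := mul_le_mul_of_nonneg_right hσκ2 ha0
    have : 0 ≤ σ * (mhi * a) := by positivity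
    linarith
  have hB1le : (B + 1) * hp ≤ (5 * B * B + C * mhi) * hp := by
    apply mul_le_mul_of_nonneg_right _ hp0
    have : 0 < C * mhi := by positivity
    nlinarith
  have hdu := hlin (c.Axx (etaS (S k))) (c.Axy (etaS (S k))) (c.kx (etaS (S k))) (u (k + 1) - u k)
    ((hb1' _ hη).trans (by linarith)) ((hb2' _ hη).trans (by linarith)) (hRS.hu k hGk)
  have hdv := hlin (c.Axy (-etaS (S k))) (c.Axx (-etaS (S k))) (c.kx (-etaS (S k))) (v (k + 1) - v k)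
    ((hb2' _ hη').trans (by linarith)) ((hb1' _ hη').trans (by linarith)) (hRS.hv k hGk)
  have hdm := hlin (c.nx (etaS (S k))) (-c.nx (-etaS (S k))) (2 * c.lam (etaS (S k)))
    (m (k + 1) - m k)
    ((hb4' _ hη).trans (by linarith)) (by rw [abs_neg]; exact (hb4' _ hη').trans (by linarith))
    (by
      have := hRS.hm k hGk
      rw [show Real.exp (-X k) * c.nx (etaS (S k)) + Real.exp (-Y k) * -c.nx (-etaS (S k))
        - m k ^ 2 * ES (S k) * (2 * c.lam (etaS (S k)))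
        = Real.exp (-X k) * c.nx (etaS (S k)) - Real.exp (-Y k) * c.nx (-etaS (S k))
        - 2 * (m k ^ 2 * ES (S k)) * c.lam (etaS (S k)) by ring]
      exact this)
  have hmu := mu_arith a (m k) mhi B σ ε (c.lam (etaS (S k))) (c.gh (etaS (S k)))
    (c.gh (etaS (S (k + 1)))) dη (m (k + 1) - m k) hp ha0 hp0 hm0.le hm2 hB1 hσ0.le hσ1 hε hεσ
    ((hb5' _ hη).trans (by linarith)) ((hb6' _ hη).trans (by linarith)) A1 hgk
    (by
      have := mul_le_mul_of_nonneg_left ha9 (by positivity : 0 ≤ 3 * (B * B + 1))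
      linarith)
    (by
      rw [show m (k + 1) - m k + 2 * m k * a * c.lam (etaS (S k))
        = m (k + 1) - m k + m k * a * (2 * c.lam (etaS (S k))) by ring]
      exact hdm)
  rw [show m k + (m (k + 1) - m k) = m (k + 1) by ring] at hmu
  have hpos : ∀ z : ℝ, |z| ≤ C * h ^ 2 * src X Y S m k → |z| ≤ κ * h := by
    intro z hz
    have e1 : C * h ^ 2 * src X Y S m k ≤ C * h ^ 2 * B2 :=
      mul_le_mul_of_nonneg_left hsB2 (by positivity)
    have e2 := mul_le_mul_of_nonneg_left hChB hh.le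
    have e3 : σ * mlo ≤ σ * (16 * mhi) := mul_le_mul_of_nonneg_left (by linarith) hσ0.le
    have e4 : h * (σ * mlo) ≤ h * κ := mul_le_mul_of_nonneg_left (by linarith) hh.le
    linarith
  refine ⟨ha0, hp0, ?_, ?_, ?_, ?_, ?_, ?_, ?_, ?_, ?_, ?_⟩
  · rw [← hdη]; linarith
  · refine hmu.trans ?_
    have e1 : σ * (8 * B * B * mhi) * a ≤ κ * a := by
      apply mul_le_mul_of_nonneg_right _ ha0
      have : 0 ≤ σ * (8 * B * B * mhi) := by positivity
      linarith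
    have e2 : 3 * B * B * hp + 2 * B * hp ≤ (5 * B * B + C * mhi) * hp := by
      have : 0 ≤ (C * mhi) * hp := by positivity
      have : B * hp ≤ B * B * hp := by
        apply mul_le_mul_of_nonneg_right _ hp0; nlinarith
      linarith
    linarith
  · linarith
  · linarith
  · rw [← ht]
    refine A2.trans ?_
    have e1 : h * m k ≤ h * mhi := mul_le_mul_of_nonneg_left hm2 hh.le
    have e2 : 2 * σ * (h * m k) ≤ 2 * σ * (h * mhi) := mul_le_mul_of_nonneg_left e1 (by positivity)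
    have e3 := mul_le_mul_of_nonneg_right hσκ2 hh.le
    have e4 : 0 ≤ σ * (h * mhi) := by positivity
    linarith
  · exact hpos _ (hRS.hX k hGk)
  · exact hpos _ (hRS.hY k hGk)
  · have := hRS.hG0 k hGk
    have : 0 ≤ c0 * h * src X Y S m k := by positivity
    linarith
  · have e1 := hRS.hG1 k hGk
    rw [mul_assoc, hhsrc] at e1
    have e2 : m k * a ≤ mhi * a := mul_le_mul_of_nonneg_right hm2 ha0
    have e3 : C * (hp + m k * a) ≤ C * (mhi * hp + mhi * a) := by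
      apply mul_le_mul_of_nonneg_left _ hC.le
      have : 1 * hp ≤ mhi * hp := mul_le_mul_of_nonneg_right hmhi hp0
      linarith
    have e4 : 0 ≤ 5 * B * B * (a + hp) := by positivity
    linarith
  · rw [← hdη]; linarith

theorem kick_arith (a hp κ κi s B1 Bf μ0 μhi f kx g m dη dF du : ℝ) (ha : 0 ≤ a) (hp0 : 0 ≤ hp)
    (hκ0 : 0 ≤ κ) (hκ1 : κ ≤ 1) (hκi : 0 ≤ κi) (hf : |f| ≤ Bf) (hμ0 : 0 ≤ μ0)
    (hμ : μ0 ≤ μhi) (hkx : kx = f * g) (hs : |m * g - μ0| ≤ s)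
    (hdη : |dη - 2 * a| ≤ κ * a) (hdF : |dF - f * dη| ≤ κi * |dη|)
    (hdu : |du + m * a * kx| ≤ κ * a + B1 * hp) :
    |du + μ0 / 2 * dF| ≤ (κ * (1 + μhi * Bf) + 2 * μhi * κi + s * Bf) * a + B1 * hp := by
  have hBf : 0 ≤ Bf := (abs_nonneg _).trans hf
  have hμhi : 0 ≤ μhi := hμ0.trans hμ
  have habsη : |dη| ≤ 3 * a := by
    have e1 := abs_add_le (dη - 2 * a) (2 * a)
    rw [sub_add_cancel, abs_of_nonneg (by positivity : 0 ≤ 2 * a)] at e1
    have e2 : κ * a ≤ 1 * a := mul_le_mul_of_nonneg_right hκ1 ha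
    linarith
  have h1 : du + μ0 / 2 * dF = (du + m * a * kx) + μ0 / 2 * (dF - f * dη)
      + μ0 / 2 * (f * (dη - 2 * a)) + (-(m * g - μ0)) * (f * a) := by
    rw [hkx]; ring
  have t1 : |μ0 / 2 * (dF - f * dη)| ≤ 2 * μhi * κi * a := by
    rw [abs_mul, abs_of_nonneg (by positivity : 0 ≤ μ0 / 2)]
    have e1 : κi * |dη| ≤ κi * (3 * a) := mul_le_mul_of_nonneg_left habsη hκi
    have e2 : μ0 / 2 * |dF - f * dη| ≤ μhi / 2 * (κi * (3 * a)) :=
      mul_le_mul (by linarith) (hdF.trans e1) (abs_nonneg _) (by positivity)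
    have e3 : 0 ≤ μhi * κi * a := by positivity
    linarith
  have t2 : |μ0 / 2 * (f * (dη - 2 * a))| ≤ κ * (μhi * Bf) * a := by
    rw [abs_mul, abs_mul, abs_of_nonneg (by positivity : 0 ≤ μ0 / 2)]
    have e1 : |f| * |dη - 2 * a| ≤ Bf * (κ * a) := mul_le_mul hf hdη (abs_nonneg _) hBf
    have e2 : μ0 / 2 * (|f| * |dη - 2 * a|) ≤ μhi / 2 * (Bf * (κ * a)) :=
      mul_le_mul (by linarith) e1 (by positivity) (by positivity)
    have e3 : 0 ≤ μhi * (Bf * (κ * a)) := by positivity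
    linarith
  have t3 : |(-(m * g - μ0)) * (f * a)| ≤ s * Bf * a := by
    rw [abs_mul, abs_neg, abs_mul, abs_of_nonneg ha]
    have e1 : |f| * a ≤ Bf * a := mul_le_mul_of_nonneg_right hf ha
    have e2 : |m * g - μ0| * (|f| * a) ≤ s * (Bf * a) :=
      mul_le_mul hs e1 (by positivity) ((abs_nonneg _).trans hs)
    linarith
  rw [h1]
  have h2 := abs_add_le ((du + m * a * kx) + μ0 / 2 * (dF - f * dη)
      + μ0 / 2 * (f * (dη - 2 * a))) ((-(m * g - μ0)) * (f * a))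
  have h3 := abs_add_le ((du + m * a * kx) + μ0 / 2 * (dF - f * dη)) (μ0 / 2 * (f * (dη - 2 * a)))
  have h4 := abs_add_le (du + m * a * kx) (μ0 / 2 * (dF - f * dη))
  linarith

theorem exch_core (c : Coef) (hc : GoodCoef c) (C c0 : ℝ) (hC : 0 < C) (hc0 : 0 ≤ c0) :
    ∃ mlo > 0, ∃ mhi : ℝ, 1 ≤ mhi ∧ ∃ Cg : ℝ, 1 ≤ Cg ∧ ∀ τ' > 0, ∃ τ > 0, ∀ (ε h δ : ℝ), 0 ≤ ε → ε ≤ τ →
    0 < h → h ≤ τ → ∀ (X Y S u v m G : ℕ → ℝ), RS c C c0 ε h δ X Y S u v m G →
    3 / 10 ≤ m 0 → m 0 ≤ 11 / 10 → ∀ K : ℕ, (∀ j < K, G j ≤ δ) →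
    (∀ j < K, Real.exp (-X j) + Real.exp (-Y j) ≤ 1) →
    h * ∑ j ∈ range K, (Real.exp (-X j) + Real.exp (-Y j)) ≤ τ →
    ∀ k ≤ K, mlo ≤ m k ∧ m k ≤ mhi ∧
      |m k * c.gh (etaS (S k)) - m 0 * c.gh (etaS (S 0))| ≤ τ' ∧
      |u k - u 0 + m 0 * c.gh (etaS (S 0)) / 2 *
        ∫ e in (etaS (S 0))..(etaS (S k)), c.kx e / c.gh e| ≤ τ' ∧
      |v k - v 0 + m 0 * c.gh (etaS (S 0)) / 2 *
        ∫ e in (etaS (S 0))..(etaS (S k)), c.kx (-e) / c.gh e| ≤ τ' ∧
      G 0 ≤ G k ∧ G k ≤ G 0 + Cg ∧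
      (k < K → |S (k + 1) - S k - 12 * h * m k| ≤ τ' * h ∧
        |X (k + 1) - X k - 2 * h * u k| ≤ τ' * h ∧ |Y (k + 1) - Y k - 2 * h * v k| ≤ τ' * h) := by
  have m3 : (-3 : ℝ) ∈ Icc (-3 : ℝ) 3 := by constructor <;> norm_num
  have hghc : ContinuousOn c.gh (Icc (-3) 3) :=
    fun x hx => (hc.gh_deriv x hx).continuousAt.continuousWithinAt
  obtain ⟨xl, hxl, hxl'⟩ := isCompact_Icc.exists_isMinOn ⟨-3, m3⟩ hghc
  obtain ⟨xh, hxh, hxh'⟩ := isCompact_Icc.exists_isMaxOn ⟨-3, m3⟩ hghc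
  obtain ⟨gl, hgl⟩ : ∃ g, g = c.gh xl := ⟨_, rfl⟩
  obtain ⟨gH, hgH⟩ : ∃ g, g = c.gh xh := ⟨_, rfl⟩
  have hglp : 0 < gl := by rw [hgl]; exact hc.gh_pos xl hxl
  have hglo : ∀ e ∈ Icc (-3 : ℝ) 3, gl ≤ c.gh e := fun e he => by rw [hgl]; exact hxl' he
  have hghi : ∀ e ∈ Icc (-3 : ℝ) 3, c.gh e ≤ gH := fun e he => by rw [hgH]; exact hxh' he
  have hglH : gl ≤ gH := by rw [hgl]; exact hghi xl hxl
  have hgHp : 0 < gH := by linarith
  have hneg : ContinuousOn (fun e : ℝ => c.kx (-e)) (Icc (-3) 3) := by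
    apply hc.ckx.comp continuous_neg.continuousOn
    intro e he
    exact ⟨by linarith [he.2], by linarith [he.1]⟩
  have hgne : ∀ e ∈ Icc (-3 : ℝ) 3, c.gh e ≠ 0 := fun e he => (hc.gh_pos e he).ne'
  have hfc : ContinuousOn (fun e => c.kx e / c.gh e) (Icc (-3) 3) := hc.ckx.div hghc hgne
  have hfc2 : ContinuousOn (fun e => c.kx (-e) / c.gh e) (Icc (-3) 3) := hneg.div hghc hgne
  obtain ⟨bf1, hbf1, hbf1'⟩ := bdd_fun _ hfc
  obtain ⟨bf2, hbf2, hbf2'⟩ := bdd_fun _ hfc2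
  obtain ⟨Bf, hBf⟩ : ∃ B, B = bf1 + bf2 := ⟨_, rfl⟩
  have hBf0 : 0 ≤ Bf := by linarith
  obtain ⟨mlo, hmlo⟩ : ∃ x, x = gl / (5 * gH) := ⟨_, rfl⟩
  obtain ⟨mhi, hmhi⟩ : ∃ x, x = 6 * gH / (5 * gl) := ⟨_, rfl⟩
  have hmlop : 0 < mlo := by rw [hmlo]; positivity
  have hmhi1 : 1 ≤ mhi := by rw [hmhi, le_div_iff₀ (by positivity)]; linarith
  have hmm : mlo ≤ mhi := by
    have : mlo ≤ 1 := by rw [hmlo, div_le_iff₀ (by positivity)]; linarith
    linarith
  obtain ⟨B1, hB1, hstep⟩ := exch_step c hc C c0 mlo mhi hC hc0 hmlop hmm hmhi1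
  refine ⟨mlo, hmlop, mhi, hmhi1, 7 * B1, by linarith, ?_⟩
  intro τ' hτ'
  obtain ⟨μhi, hμhi⟩ : ∃ x, x = 11 / 10 * gH := ⟨_, rfl⟩
  have hμhip : 0 < μhi := by rw [hμhi]; positivity
  -- tolerances
  obtain ⟨s, hs, hs1, hs2, hs3⟩ : ∃ s > 0, s ≤ gl / 10 ∧ s ≤ τ' ∧ 6 * (s * Bf) ≤ τ' / 4 := by
    refine ⟨min (gl / 10) (min τ' (τ' / (24 * (Bf + 1)))), by positivity, min_le_left _ _,
      (min_le_right _ _).trans (min_le_left _ _), ?_⟩
    have h : min (gl / 10) (min τ' (τ' / (24 * (Bf + 1)))) ≤ τ' / (24 * (Bf + 1)) :=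
      (min_le_right _ _).trans (min_le_right _ _)
    have h0 : 0 < min (gl / 10) (min τ' (τ' / (24 * (Bf + 1)))) := by positivity
    have e1 := mul_le_mul_of_nonneg_left h (by positivity : 0 ≤ 24 * (Bf + 1))
    have e2 : 24 * (Bf + 1) * (τ' / (24 * (Bf + 1))) = τ' := by field_simp
    nlinarith
  obtain ⟨κi, hκi, hκi1⟩ : ∃ k > 0, 6 * (2 * μhi * k) ≤ τ' / 4 := by
    refine ⟨τ' / (48 * μhi), by positivity, ?_⟩
    have e2 : 48 * μhi * (τ' / (48 * μhi)) = τ' := by field_simp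
    linarith
  obtain ⟨ρ1, hρ1, hI1⟩ := unif_int _ hfc κi hκi
  obtain ⟨ρ2, hρ2, hI2⟩ := unif_int _ hfc2 κi hκi
  obtain ⟨κ, hκ, hκ1, hκρ1, hκρ2, hκs, hκτ, hκQ⟩ : ∃ κ > 0, κ ≤ 1 ∧ κ ≤ ρ1 ∧ κ ≤ ρ2 ∧ 12 * κ ≤ s ∧
      κ ≤ τ' ∧ 6 * (κ * (1 + μhi * Bf)) ≤ τ' / 4 := by
    obtain ⟨Q, hQ⟩ : ∃ Q, Q = 1 + μhi * Bf := ⟨_, rfl⟩
    have hQ1 : 1 ≤ Q := by rw [hQ]; have : 0 ≤ μhi * Bf := by positivity
                           linarith
    rw [← hQ]
    refine ⟨min (min 1 (min ρ1 ρ2)) (min (s / 12) (min τ' (τ' / (24 * Q)))), by positivity, ?_, ?_, ?_,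
      ?_, ?_, ?_⟩
    · exact (min_le_left _ _).trans (min_le_left _ _)
    · exact (min_le_left _ _).trans ((min_le_right _ _).trans (min_le_left _ _))
    · exact (min_le_left _ _).trans ((min_le_right _ _).trans (min_le_right _ _))
    · have h : min (min 1 (min ρ1 ρ2)) (min (s / 12) (min τ' (τ' / (24 * Q)))) ≤ s / 12 :=
        (min_le_right _ _).trans (min_le_left _ _)
      linarith
    · exact (min_le_right _ _).trans ((min_le_right _ _).trans (min_le_left _ _))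
    · have h : min (min 1 (min ρ1 ρ2)) (min (s / 12) (min τ' (τ' / (24 * Q)))) ≤ τ' / (24 * Q) :=
        (min_le_right _ _).trans ((min_le_right _ _).trans (min_le_right _ _))
      have e1 := mul_le_mul_of_nonneg_left h (by positivity : 0 ≤ 24 * Q)
      have e2 : 24 * Q * (τ' / (24 * Q)) = τ' := by field_simp
      linarith
  obtain ⟨τ1, hτ1, hst⟩ := hstep κ hκ hκ1
  obtain ⟨τ, hτ, hττ1, hτle1, hτs, hττ'⟩ : ∃ τ > 0, τ ≤ τ1 ∧ τ ≤ 1 ∧ B1 * τ ≤ s / 2 ∧
      B1 * τ ≤ τ' / 4 := by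
    refine ⟨min (min τ1 1) (min (s / (2 * B1)) (τ' / (4 * B1))), by positivity, ?_, ?_, ?_, ?_⟩
    · exact (min_le_left _ _).trans (min_le_left _ _)
    · exact (min_le_left _ _).trans (min_le_right _ _)
    · have h : min (min τ1 1) (min (s / (2 * B1)) (τ' / (4 * B1))) ≤ s / (2 * B1) :=
        (min_le_right _ _).trans (min_le_left _ _)
      have e1 := mul_le_mul_of_nonneg_left h (by positivity : 0 ≤ B1)
      have e2 : B1 * (s / (2 * B1)) = s / 2 := by field_simp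
      linarith
    · have h : min (min τ1 1) (min (s / (2 * B1)) (τ' / (4 * B1))) ≤ τ' / (4 * B1) :=
        (min_le_right _ _).trans (min_le_right _ _)
      have e1 := mul_le_mul_of_nonneg_left h (by positivity : 0 ≤ B1)
      have e2 : B1 * (τ' / (4 * B1)) = τ' / 4 := by field_simp
      linarith
  refine ⟨τ, hτ, ?_⟩
  intro ε h δ hε hετ hh hhτ X Y S u v m G hRS hm1 hm2 K hGK hpK hWK
  obtain ⟨η, hη⟩ : ∃ η : ℕ → ℝ, η = fun k => etaS (S k) := ⟨_, rfl⟩
  have hηk : ∀ k, etaS (S k) = η k := fun k => by rw [hη]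
  have hηmem : ∀ k, η k ∈ Icc (-3 : ℝ) 3 := fun k => by rw [← hηk]; exact etaS_mem _
  obtain ⟨a, ha⟩ : ∃ a : ℕ → ℝ, a = fun k => h * m k * ES (S k) := ⟨_, rfl⟩
  obtain ⟨p, hp⟩ : ∃ p : ℕ → ℝ, p = fun k => h * (Real.exp (-X k) + Real.exp (-Y k)) := ⟨_, rfl⟩
  have hp0 : ∀ k, 0 ≤ p k := fun k => by rw [hp]; positivity
  obtain ⟨W, hW⟩ : ∃ W : ℕ → ℝ, W = fun k => ∑ j ∈ range k, p j := ⟨_, rfl⟩
  have hWsucc : ∀ k, W (k + 1) = W k + p k := fun k => by rw [hW]; simp only [Finset.sum_range_succ]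
  have hW0 : W 0 = 0 := by rw [hW]; simp
  have hWle : ∀ k ≤ K, W k ≤ τ := by
    intro k hk
    have e1 : W k ≤ W K := by
      rw [hW]
      exact Finset.sum_le_sum_of_subset_of_nonneg (Finset.range_mono hk) (fun i _ _ => hp0 i)
    have e2 : W K = h * ∑ j ∈ range K, (Real.exp (-X j) + Real.exp (-Y j)) := by
      rw [hW, hp]; simp only [← Finset.mul_sum]
    linarith
  obtain ⟨Aa, hAa⟩ : ∃ A : ℕ → ℝ, A = fun k => ∑ j ∈ range k, a j := ⟨_, rfl⟩
  have hAsucc : ∀ k, Aa (k + 1) = Aa k + a k := fun k => by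
    rw [hAa]; simp only [Finset.sum_range_succ]
  have hA0 : Aa 0 = 0 := by rw [hAa]; simp
  obtain ⟨μ0, hμ0⟩ : ∃ x, x = m 0 * c.gh (η 0) := ⟨_, rfl⟩
  have hg0 := hglo _ (hηmem 0)
  have hg0' := hghi _ (hηmem 0)
  have hμ0lo : 3 / 10 * gl ≤ μ0 := by
    rw [hμ0]; exact mul_le_mul hm1 hg0 hglp.le (by linarith)
  have hμ0hi : μ0 ≤ μhi := by
    rw [hμ0, hμhi]; exact mul_le_mul hm2 hg0' (by linarith) (by norm_num)
  obtain ⟨κ3, hκ3⟩ : ∃ x, x = κ * (1 + μhi * Bf) + 2 * μhi * κi + s * Bf := ⟨_, rfl⟩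
  have hκ30 : 0 ≤ κ3 := by rw [hκ3]; positivity
  have hint : ∀ (f : ℝ → ℝ), ContinuousOn f (Icc (-3) 3) → ∀ i j k, (∫ e in (η i)..(η k), f e)
      = (∫ e in (η i)..(η j), f e) + ∫ e in (η j)..(η k), f e := by
    intro f hf i j k
    have hi : ∀ i j, IntervalIntegrable f MeasureTheory.volume (η i) (η j) := fun i j =>
      (hf.mono (uIcc_subset_Icc (hηmem i) (hηmem j))).intervalIntegrable
    exact (intervalIntegral.integral_add_adjacent_intervals (hi i j) (hi j k)).symm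
  have hmbd : ∀ k, |m k * c.gh (η k) - μ0| ≤ s → mlo ≤ m k ∧ m k ≤ mhi := by
    intro k hk
    rw [abs_le] at hk
    have hg := hglo _ (hηmem k)
    have hg' := hghi _ (hηmem k)
    have hgp : 0 < c.gh (η k) := by linarith
    have hmk : 0 < m k := by
      by_contra hcon
      push Not at hcon
      have : m k * c.gh (η k) ≤ 0 := mul_nonpos_of_nonpos_of_nonneg hcon hgp.le
      linarith
    constructor
    · rw [hmlo, div_le_iff₀ (by positivity)]
      have : m k * c.gh (η k) ≤ m k * gH := mul_le_mul_of_nonneg_left hg' hmk.le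
      linarith
    · rw [hmhi, le_div_iff₀ (by positivity)]
      have : m k * gl ≤ m k * c.gh (η k) := mul_le_mul_of_nonneg_left hg hmk.le
      rw [hμhi] at hμ0hi
      linarith
  have main : ∀ k ≤ K, 0 ≤ Aa k ∧ Aa k ≤ η k - η 0 ∧
      |m k * c.gh (η k) - μ0| ≤ κ * Aa k + B1 * W k ∧
      |u k - u 0 + μ0 / 2 * ∫ e in (η 0)..(η k), c.kx e / c.gh e| ≤ κ3 * Aa k + B1 * W k ∧
      |v k - v 0 + μ0 / 2 * ∫ e in (η 0)..(η k), c.kx (-e) / c.gh e| ≤ κ3 * Aa k + B1 * W k ∧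
      G 0 ≤ G k ∧ G k ≤ G 0 + B1 * (Aa k + W k) := by
    intro k
    induction k with
    | zero =>
      intro _
      rw [hA0, hW0]
      refine ⟨le_rfl, by linarith, ?_, ?_, ?_, le_rfl, by linarith⟩
      · rw [← hμ0]; simp
      · simp
      · simp
    | succ k ih =>
      intro hk
      obtain ⟨i0, i1, i2, i3, i4, i5, i6⟩ := ih (Nat.le_of_succ_le hk)
      have hA6 : Aa k ≤ 6 := by
        have h1 := (hηmem k).2
        have h2 := (hηmem 0).1
        linarith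
      have hWk := hWle k (Nat.le_of_succ_le hk)
      have hBW : B1 * W k ≤ s / 2 := by
        have := mul_le_mul_of_nonneg_left hWk (by linarith : 0 ≤ B1)
        linarith
      have hκA : κ * Aa k ≤ κ * 6 := mul_le_mul_of_nonneg_left hA6 hκ.le
      have hmus : |m k * c.gh (η k) - μ0| ≤ s := by linarith
      obtain ⟨j1, j2⟩ := hmbd k hmus
      have hpk : p k = h * (Real.exp (-X k) + Real.exp (-Y k)) := by rw [hp]
      have hak : a k = h * m k * ES (S k) := by rw [ha]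
      obtain ⟨s0, s1, s2, s3, s4, s5, s6, s7, s8, s9, s10, s11⟩ := hst ε h δ hε (hετ.trans hττ1) hh
        (hhτ.trans hττ1) X Y S u v m G hRS k (hGK k hk) (hpK k hk) j1 j2 (a k) (p k) hak hpk
      rw [hηk, hηk] at s2 s3 s11
      rw [hηk] at s4 s5
      have hk1 := hI1 (η k) (hηmem k) (η (k + 1)) (hηmem (k + 1)) (by linarith)
      have hk2 := hI2 (η k) (hηmem k) (η (k + 1)) (hηmem (k + 1)) (by linarith)
      have hgk : c.gh (η k) ≠ 0 := hgne _ (hηmem k)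
      have hμ00 : 0 ≤ μ0 := by linarith
      have K1 := kick_arith (a k) (p k) κ κi s B1 Bf μ0 μhi (c.kx (η k) / c.gh (η k)) (c.kx (η k))
        (c.gh (η k)) (m k) (η (k + 1) - η k) (∫ e in (η k)..(η (k + 1)), c.kx e / c.gh e)
        (u (k + 1) - u k) s0 s1 hκ.le hκ1 hκi.le ((hbf1' _ (hηmem k)).trans (by linarith))
        hμ00 hμ0hi (by field_simp) hmus s2 hk1 s4
      have K2 := kick_arith (a k) (p k) κ κi s B1 Bf μ0 μhi (c.kx (-η k) / c.gh (η k)) (c.kx (-η k))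
        (c.gh (η k)) (m k) (η (k + 1) - η k) (∫ e in (η k)..(η (k + 1)), c.kx (-e) / c.gh e)
        (v (k + 1) - v k) s0 s1 hκ.le hκ1 hκi.le ((hbf2' _ (hηmem k)).trans (by linarith))
        hμ00 hμ0hi (by field_simp) hmus s2 hk2 s5
      rw [← hκ3] at K1 K2
      rw [hAsucc, hWsucc]
      have hs2 := (abs_le.mp s2).1
      have hκa : κ * a k ≤ 1 * a k := mul_le_mul_of_nonneg_right hκ1 s0
      refine ⟨by linarith, by linarith, ?_, ?_, ?_, by linarith, by linarith⟩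
      · have e1 := abs_add_le (m k * c.gh (η k) - μ0)
          (m (k + 1) * c.gh (η (k + 1)) - m k * c.gh (η k))
        rw [show m k * c.gh (η k) - μ0 + (m (k + 1) * c.gh (η (k + 1)) - m k * c.gh (η k))
          = m (k + 1) * c.gh (η (k + 1)) - μ0 by ring] at e1
        linarith
      · rw [hint _ hfc 0 k (k + 1)]
        have e1 := abs_add_le (u k - u 0 + μ0 / 2 * ∫ e in (η 0)..(η k), c.kx e / c.gh e)
          (u (k + 1) - u k + μ0 / 2 * ∫ e in (η k)..(η (k + 1)), c.kx e / c.gh e)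
        rw [show u k - u 0 + μ0 / 2 * (∫ e in (η 0)..(η k), c.kx e / c.gh e)
          + (u (k + 1) - u k + μ0 / 2 * ∫ e in (η k)..(η (k + 1)), c.kx e / c.gh e)
          = u (k + 1) - u 0 + μ0 / 2 * ((∫ e in (η 0)..(η k), c.kx e / c.gh e)
            + ∫ e in (η k)..(η (k + 1)), c.kx e / c.gh e) by ring] at e1
        linarith
      · rw [hint _ hfc2 0 k (k + 1)]
        have e1 := abs_add_le (v k - v 0 + μ0 / 2 * ∫ e in (η 0)..(η k), c.kx (-e) / c.gh e)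
          (v (k + 1) - v k + μ0 / 2 * ∫ e in (η k)..(η (k + 1)), c.kx (-e) / c.gh e)
        rw [show v k - v 0 + μ0 / 2 * (∫ e in (η 0)..(η k), c.kx (-e) / c.gh e)
          + (v (k + 1) - v k + μ0 / 2 * ∫ e in (η k)..(η (k + 1)), c.kx (-e) / c.gh e)
          = v (k + 1) - v 0 + μ0 / 2 * ((∫ e in (η 0)..(η k), c.kx (-e) / c.gh e)
            + ∫ e in (η k)..(η (k + 1)), c.kx (-e) / c.gh e) by ring] at e1
        linarith
  intro k hk
  obtain ⟨i0, i1, i2, i3, i4, i5, i6⟩ := main k hk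
  have hA6 : Aa k ≤ 6 := by
    have h1 := (hηmem k).2
    have h2 := (hηmem 0).1
    linarith
  have hWk := hWle k hk
  have hBWk := mul_le_mul_of_nonneg_left hWk (by linarith : 0 ≤ B1)
  have hκA : κ * Aa k ≤ κ * 6 := mul_le_mul_of_nonneg_left hA6 hκ.le
  have hκ3A : κ3 * Aa k ≤ κ3 * 6 := mul_le_mul_of_nonneg_left hA6 hκ30
  have hmus : |m k * c.gh (η k) - μ0| ≤ s := by linarith
  obtain ⟨j1, j2⟩ := hmbd k hmus
  have hκ36 : κ3 * 6 ≤ 3 * (τ' / 4) := by rw [hκ3]; linarith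
  simp only [hηk]
  rw [← hμ0]
  refine ⟨j1, j2, by linarith, by linarith, by linarith, i5, ?_, ?_⟩
  · have : B1 * (Aa k + W k) ≤ B1 * (6 + 1) :=
      mul_le_mul_of_nonneg_left (by linarith) (by linarith)
    linarith
  · intro hkK
    have hpk : p k = h * (Real.exp (-X k) + Real.exp (-Y k)) := by rw [hp]
    have hak : a k = h * m k * ES (S k) := by rw [ha]
    obtain ⟨s0, s1, s2, s3, s4, s5, s6, s7, s8, s9, s10, s11⟩ := hst ε h δ hε (hετ.trans hττ1) hh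
      (hhτ.trans hττ1) X Y S u v m G hRS k (hGK k hkK) (hpK k hkK) j1 j2 (a k) (p k) hak hpk
    have e1 : κ * h ≤ τ' * h := mul_le_mul_of_nonneg_right hκτ hh.le
    exact ⟨s6.trans e1, s7.trans e1, s8.trans e1⟩

end Pool.Agent.Hhelper30.Forsythe
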