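import Pool.Agent.Hhelper30.Forsythe.ExchCore

/-! Quantitative consequences of the bounds of `exch_core`. -/

set_option autoImplicit false

namespace Pool.Agent.Hhelper30.Forsythe

open Filter Topology Set Finset

/-- velocity kick of the exchange -/
noncomputable def Kc (c : Coef) : ℝ := 1 / 2 * c.gh (-3) * ∫ e in (-3 : ℝ)..3, c.kx e / c.gh e

theorem int_bd (f : ℝ → ℝ) (B : ℝ) (hB : ∀ e ∈ Icc (-3 : ℝ) 3, |f e| ≤ B) (a b : ℝ)
    (ha : a ∈ Icc (-3 : ℝ) 3) (hb : b ∈ Icc (-3 : ℝ) 3) : |∫ e in a..b, f e| ≤ B * |b - a| := by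
  rw [← Real.norm_eq_abs]
  apply intervalIntegral.norm_integral_le_of_norm_le_const
  intro x hx
  rw [Real.norm_eq_abs]
  exact hB x (uIcc_subset_Icc ha hb (uIoc_subset_uIcc hx))

theorem etaS_near' (S M : ℝ) (h : M ≤ S) : |etaS S - 3| ≤ 6 * Real.exp (-M) := by
  have h1 := etaS_near (-S) M (by linarith)
  rw [etaS_neg] at h1
  have h2 : |etaS S - 3| = |-etaS S - -3| := by
    rw [← abs_neg]
    congr 1
    ring
  rw [h2]
  exact h1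

/-- the kick, abstractly -/
theorem kick_near (g f : ℝ → ℝ) (gH B κ : ℝ) (hf : ContinuousOn f (Icc (-3) 3))
    (hB : ∀ e ∈ Icc (-3 : ℝ) 3, |f e| ≤ B) (hB0 : 0 ≤ B) (hg : ∀ e ∈ Icc (-3 : ℝ) 3, |g e| ≤ gH)
    (hκ : 0 ≤ κ) (η0 ηk m0 w0 wk τ' : ℝ) (h0 : η0 ∈ Icc (-3 : ℝ) 3) (hk : ηk ∈ Icc (-3 : ℝ) 3)
    (hm0 : 0 ≤ m0) (hm1 : m0 ≤ 11 / 10) (h0n : |η0 - -3| ≤ κ) (hgn : |g η0 - g (-3)| ≤ κ)
    (hgH : 0 ≤ gH)
    (hw : |wk - w0 + m0 * g η0 / 2 * ∫ e in η0..ηk, f e| ≤ τ') :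
    |wk - w0| ≤ τ' + 6 * gH * B ∧ (|ηk - -3| ≤ κ → |wk - w0| ≤ τ' + 2 * gH * B * κ) ∧
    (|ηk - 3| ≤ κ → |wk - (w0 - (1 / 2 * g (-3) * ∫ e in (-3 : ℝ)..3, f e) * m0)| ≤
      τ' + (6 * B + 2 * gH * B) * κ) := by
  have m3 : (-3 : ℝ) ∈ Icc (-3 : ℝ) 3 := by constructor <;> norm_num
  have p3 : (3 : ℝ) ∈ Icc (-3 : ℝ) 3 := by constructor <;> norm_num
  have hI := int_bd f B hB η0 ηk h0 hk
  have hg0 := hg η0 h0
  have hc : |m0 * g η0 / 2| ≤ 3 / 5 * gH := by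
    rw [abs_div, abs_mul, abs_of_nonneg hm0, abs_two]
    have : m0 * |g η0| ≤ 11 / 10 * gH := mul_le_mul hm1 hg0 (abs_nonneg _) (by norm_num)
    linarith
  obtain ⟨I, hId⟩ : ∃ I, I = ∫ e in η0..ηk, f e := ⟨_, rfl⟩
  rw [← hId] at hI hw
  have hmain : ∀ d : ℝ, |ηk - η0| ≤ d → |wk - w0| ≤ τ' + 3 / 5 * gH * (B * d) := by
    intro d hd
    have e1 : wk - w0 = (wk - w0 + m0 * g η0 / 2 * I) - m0 * g η0 / 2 * I := by ring
    have e2 : |m0 * g η0 / 2 * I| ≤ 3 / 5 * gH * (B * d) := by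
      rw [abs_mul]
      exact mul_le_mul hc (hI.trans (mul_le_mul_of_nonneg_left hd hB0)) (abs_nonneg _)
        (by positivity)
    have e3 := abs_sub (wk - w0 + m0 * g η0 / 2 * I) (m0 * g η0 / 2 * I)
    rw [← e1] at e3
    linarith
  have hgB : 0 ≤ gH * B := mul_nonneg hgH hB0
  refine ⟨?_, ?_, ?_⟩
  · have d6 : |ηk - η0| ≤ 6 := by
      rw [abs_le]
      constructor <;> linarith [h0.1, h0.2, hk.1, hk.2]
    have := hmain 6 d6
    linarith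
  · intro hkn
    have d2 : |ηk - η0| ≤ 2 * κ := by
      have e := abs_sub (ηk - -3) (η0 - -3)
      rw [sub_sub_sub_cancel_right] at e
      linarith
    have := hmain (2 * κ) d2
    have h3 : 0 ≤ gH * B * κ := mul_nonneg hgB hκ
    linarith
  · intro hkn
    obtain ⟨J, hJ⟩ : ∃ J, J = ∫ e in (-3 : ℝ)..3, f e := ⟨_, rfl⟩
    have hii : ∀ a b : ℝ, a ∈ Icc (-3 : ℝ) 3 → b ∈ Icc (-3 : ℝ) 3 →
        IntervalIntegrable f MeasureTheory.volume a b := fun a b ha hb =>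
      (hf.mono (uIcc_subset_Icc ha hb)).intervalIntegrable
    have hsplit : J = (∫ e in (-3 : ℝ)..η0, f e) + I + ∫ e in ηk..3, f e := by
      rw [hJ, hId, intervalIntegral.integral_add_adjacent_intervals (hii _ _ m3 h0) (hii _ _ h0 hk),
        intervalIntegral.integral_add_adjacent_intervals (hii _ _ m3 hk) (hii _ _ hk p3)]
    have i1 := int_bd f B hB (-3) η0 m3 h0
    have i2 := int_bd f B hB ηk 3 hk p3
    have i3 := int_bd f B hB (-3) 3 m3 p3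
    rw [← hJ] at i3 ⊢
    have hJI : |J - I| ≤ 2 * B * κ := by
      have e1 : J - I = (∫ e in (-3 : ℝ)..η0, f e) + ∫ e in ηk..3, f e := by rw [hsplit]; ring
      rw [e1]
      have e2 := abs_add_le (∫ e in (-3 : ℝ)..η0, f e) (∫ e in ηk..3, f e)
      have e3 : B * |η0 - -3| ≤ B * κ := mul_le_mul_of_nonneg_left h0n hB0
      have e4 : B * |3 - ηk| ≤ B * κ := by
        rw [abs_sub_comm]
        exact mul_le_mul_of_nonneg_left hkn hB0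
      linarith
    have hJ6 : |J| ≤ 6 * B := by
      have : |(3 : ℝ) - -3| = 6 := by norm_num
      rw [this] at i3
      linarith
    have e1 : wk - (w0 - (1 / 2 * g (-3) * J) * m0) = (wk - w0 + m0 * g η0 / 2 * I) +
        m0 * g η0 / 2 * (J - I) - m0 / 2 * (g η0 - g (-3)) * J := by ring
    rw [e1]
    have t1 : |m0 * g η0 / 2 * (J - I)| ≤ 3 / 5 * gH * (2 * B * κ) := by
      rw [abs_mul]
      exact mul_le_mul hc hJI (abs_nonneg _) (by positivity)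
    have t2 : |m0 / 2 * (g η0 - g (-3)) * J| ≤ 3 / 5 * κ * (6 * B) := by
      rw [abs_mul, abs_mul]
      apply mul_le_mul _ hJ6 (abs_nonneg _) (by positivity)
      apply mul_le_mul _ hgn (abs_nonneg _) (by norm_num)
      rw [abs_of_nonneg (by linarith)]
      linarith
    have t3 := abs_sub ((wk - w0 + m0 * g η0 / 2 * I) + m0 * g η0 / 2 * (J - I))
      (m0 / 2 * (g η0 - g (-3)) * J)
    have t4 := abs_add_le (wk - w0 + m0 * g η0 / 2 * I) (m0 * g η0 / 2 * (J - I))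
    have t5 : 0 ≤ gH * B * κ := mul_nonneg hgB hκ
    have t6 : 0 ≤ B * κ := mul_nonneg hB0 hκ
    linarith

theorem exch_quant (c : Coef) (hc : GoodCoef c) : ∃ V0 : ℝ, 0 ≤ V0 ∧ ∀ s1 > 0, ∃ τ1 > 0, ∃ M1 : ℝ, 0 ≤ M1 ∧
    ∀ τ' ≤ τ1, ∀ S0 Sk m0 mk u0 uk v0 vk : ℝ, S0 ≤ -M1 → 3 / 10 ≤ m0 → m0 ≤ 11 / 10 →
    |mk * c.gh (etaS Sk) - m0 * c.gh (etaS S0)| ≤ τ' →
    |uk - u0 + m0 * c.gh (etaS S0) / 2 * ∫ e in (etaS S0)..(etaS Sk), c.kx e / c.gh e| ≤ τ' →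
    |vk - v0 + m0 * c.gh (etaS S0) / 2 * ∫ e in (etaS S0)..(etaS Sk), c.kx (-e) / c.gh e| ≤ τ' →
    (τ' ≤ 1 → |uk - u0| ≤ V0 ∧ |vk - v0| ≤ V0) ∧
    (Sk ≤ -M1 → |mk - m0| ≤ s1 ∧ |uk - u0| ≤ s1 ∧ |vk - v0| ≤ s1) ∧
    (M1 ≤ Sk → |mk - m0| ≤ s1 ∧ |uk - (u0 - Kc c * m0)| ≤ s1 ∧ |vk - (v0 - Kc c * m0)| ≤ s1) := by
  have m3 : (-3 : ℝ) ∈ Icc (-3 : ℝ) 3 := by constructor <;> norm_num
  have p3 : (3 : ℝ) ∈ Icc (-3 : ℝ) 3 := by constructor <;> norm_num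
  have hghc : ContinuousOn c.gh (Icc (-3) 3) :=
    fun x hx => (hc.gh_deriv x hx).continuousAt.continuousWithinAt
  obtain ⟨xl, hxl, hxl'⟩ := isCompact_Icc.exists_isMinOn ⟨-3, m3⟩ hghc
  obtain ⟨gl, hgl⟩ : ∃ g, g = c.gh xl := ⟨_, rfl⟩
  have hglp : 0 < gl := by rw [hgl]; exact hc.gh_pos xl hxl
  have hglo : ∀ e ∈ Icc (-3 : ℝ) 3, gl ≤ c.gh e := fun e he => by rw [hgl]; exact hxl' he
  obtain ⟨gH, hgH0, hgH⟩ := bdd_fun c.gh hghc
  have hneg : ContinuousOn (fun e : ℝ => c.kx (-e)) (Icc (-3) 3) := by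
    apply hc.ckx.comp continuous_neg.continuousOn
    intro e he
    constructor <;> linarith [he.1, he.2]
  have hf1 : ContinuousOn (fun e => c.kx e / c.gh e) (Icc (-3) 3) :=
    hc.ckx.div hghc fun e he => (hc.gh_pos e he).ne'
  have hf2 : ContinuousOn (fun e => c.kx (-e) / c.gh e) (Icc (-3) 3) :=
    hneg.div hghc fun e he => (hc.gh_pos e he).ne'
  obtain ⟨B1, hB10, hB1⟩ := bdd_fun _ hf1
  obtain ⟨B2, hB20, hB2⟩ := bdd_fun _ hf2
  obtain ⟨B, hBd⟩ : ∃ B, B = max B1 B2 := ⟨_, rfl⟩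
  have hB0 : 0 ≤ B := by rw [hBd]; exact hB10.trans (le_max_left _ _)
  have hb1 : ∀ e ∈ Icc (-3 : ℝ) 3, |c.kx e / c.gh e| ≤ B := fun e he => by
    rw [hBd]; exact (hB1 e he).trans (le_max_left _ _)
  have hb2 : ∀ e ∈ Icc (-3 : ℝ) 3, |c.kx (-e) / c.gh e| ≤ B := fun e he => by
    rw [hBd]; exact (hB2 e he).trans (le_max_right _ _)
  have hJJ : ∫ e in (-3 : ℝ)..3, c.kx (-e) / c.gh e = ∫ e in (-3 : ℝ)..3, c.kx e / c.gh e := by
    have h1 : ∫ e in (-3 : ℝ)..3, c.kx (-e) / c.gh e =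
        ∫ e in (-3 : ℝ)..3, (fun e => c.kx e / c.gh e) (-e) := by
      apply intervalIntegral.integral_congr
      intro e he
      rw [Set.uIcc_of_le (by norm_num : (-3 : ℝ) ≤ 3)] at he
      simp only
      rw [hc.gh_even e he]
    rw [h1, intervalIntegral.integral_comp_neg (fun e => c.kx e / c.gh e)]
    norm_num
  have hg33 : c.gh 3 = c.gh (-3) := (hc.gh_even 3 p3).symm
  refine ⟨1 + 6 * gH * B, by positivity, ?_⟩
  intro s1 hs1
  -- constant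
  obtain ⟨A, hA⟩ : ∃ A, A = 1 + 6 * B + 2 * gH * B + 3 / gl + 1 / gl := ⟨_, rfl⟩
  have hgl3 : 0 < 3 / gl := by positivity
  have hgl1 : 0 < 1 / gl := by positivity
  have hgHB : 0 ≤ gH * B := mul_nonneg hgH0 hB0
  have hA1 : 1 ≤ A := by rw [hA]; linarith
  obtain ⟨κ, hκd⟩ : ∃ κ, κ = s1 / (2 * A) := ⟨_, rfl⟩
  have hκ : 0 < κ := by rw [hκd]; positivity
  have hκA : κ * A = s1 / 2 := by rw [hκd]; field_simp
  obtain ⟨ρ1, hρ1, hn1⟩ := near_end c.gh hghc (-3) m3 κ hκ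
  obtain ⟨ρ2, hρ2, hn2⟩ := near_end c.gh hghc 3 p3 κ hκ
  obtain ⟨ρ, hρd⟩ : ∃ ρ, ρ = min (min ρ1 ρ2) κ := ⟨_, rfl⟩
  have hρ : 0 < ρ := by rw [hρd]; exact lt_min (lt_min hρ1 hρ2) hκ
  have hρa : ρ ≤ ρ1 := by rw [hρd]; exact (min_le_left _ _).trans (min_le_left _ _)
  have hρb : ρ ≤ ρ2 := by rw [hρd]; exact (min_le_left _ _).trans (min_le_right _ _)
  have hρc : ρ ≤ κ := by rw [hρd]; exact min_le_right _ _
  obtain ⟨M1, hM1, hM1e⟩ : ∃ M1 : ℝ, 0 ≤ M1 ∧ 6 * Real.exp (-M1) ≤ ρ := by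
    refine ⟨6 / ρ, by positivity, ?_⟩
    have h1 : 6 / ρ ≤ Real.exp (6 / ρ) := by
      have := Real.add_one_le_exp (6 / ρ)
      linarith
    rw [Real.exp_neg, ← div_eq_mul_inv, div_le_iff₀ (Real.exp_pos _)]
    rw [div_le_iff₀ hρ] at h1
    linarith
  refine ⟨κ, hκ, M1, hM1, ?_⟩
  intro τ' hτ' S0 Sk m0 mk u0 uk v0 vk hS0 hm1 hm2 hm hu hv
  have h0n := (etaS_near S0 M1 hS0).trans hM1e
  have hg0 := hn1 (etaS S0) (etaS_mem S0) (h0n.trans hρa)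
  have hmm : |c.gh (etaS Sk) - c.gh (-3)| ≤ κ → |mk - m0| ≤ s1 := by
    intro hgk
    have hgkp := hglo (etaS Sk) (etaS_mem Sk)
    have e1 : (mk - m0) * c.gh (etaS Sk) = (mk * c.gh (etaS Sk) - m0 * c.gh (etaS S0)) +
      m0 * (c.gh (etaS S0) - c.gh (-3)) - m0 * (c.gh (etaS Sk) - c.gh (-3)) := by ring
    have e2 : |(mk - m0) * c.gh (etaS Sk)| ≤ κ + 11 / 10 * κ + 11 / 10 * κ := by
      rw [e1]
      have t1 : |m0 * (c.gh (etaS S0) - c.gh (-3))| ≤ 11 / 10 * κ := by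
        rw [abs_mul, abs_of_nonneg (by linarith : 0 ≤ m0)]
        exact mul_le_mul hm2 hg0 (abs_nonneg _) (by norm_num)
      have t2 : |m0 * (c.gh (etaS Sk) - c.gh (-3))| ≤ 11 / 10 * κ := by
        rw [abs_mul, abs_of_nonneg (by linarith : 0 ≤ m0)]
        exact mul_le_mul hm2 hgk (abs_nonneg _) (by norm_num)
      have t3 := abs_sub ((mk * c.gh (etaS Sk) - m0 * c.gh (etaS S0)) +
        m0 * (c.gh (etaS S0) - c.gh (-3))) (m0 * (c.gh (etaS Sk) - c.gh (-3)))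
      have t4 := abs_add_le (mk * c.gh (etaS Sk) - m0 * c.gh (etaS S0))
        (m0 * (c.gh (etaS S0) - c.gh (-3)))
      linarith
    rw [abs_mul, abs_of_pos (hglp.trans_le hgkp)] at e2
    have e3 : |mk - m0| * gl ≤ 4 * κ := by
      have := mul_le_mul_of_nonneg_left hgkp (abs_nonneg (mk - m0))
      linarith
    have e4 : |mk - m0| ≤ 4 * κ / gl := by rw [le_div_iff₀ hglp]; exact e3
    have e5 : 4 * κ / gl ≤ κ * A := by
      rw [hA]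
      have : 4 * κ / gl = κ * (3 / gl + 1 / gl) := by ring
      rw [this]
      apply mul_le_mul_of_nonneg_left _ hκ.le
      linarith
    linarith
  obtain ⟨ku1, ku2, ku3⟩ := kick_near c.gh (fun e => c.kx e / c.gh e) gH B κ hf1 hb1 hB0 hgH hκ.le
    (etaS S0) (etaS Sk) m0 u0 uk τ' (etaS_mem S0) (etaS_mem Sk) (by linarith) hm2
    (h0n.trans hρc) hg0 hgH0 hu
  obtain ⟨kv1, kv2, kv3⟩ := kick_near c.gh (fun e => c.kx (-e) / c.gh e) gH B κ hf2 hb2 hB0 hgH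
    hκ.le (etaS S0) (etaS Sk) m0 v0 vk τ' (etaS_mem S0) (etaS_mem Sk) (by linarith) hm2
    (h0n.trans hρc) hg0 hgH0 hv
  have hκ2 : κ + (6 * B + 2 * gH * B) * κ ≤ s1 := by
    have : κ + (6 * B + 2 * gH * B) * κ ≤ κ * A := by
      rw [hA]
      have h1 : κ + (6 * B + 2 * gH * B) * κ = κ * (1 + 6 * B + 2 * gH * B) := by ring
      rw [h1]
      apply mul_le_mul_of_nonneg_left _ hκ.le
      linarith
    linarith
  have hBκ : 0 ≤ B * κ := mul_nonneg hB0 hκ.le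
  refine ⟨fun h1 => ⟨by linarith, by linarith⟩, fun h1 => ?_, fun h1 => ?_⟩
  · have hkn := (etaS_near Sk M1 h1).trans hM1e
    have hgk := hn1 (etaS Sk) (etaS_mem Sk) (hkn.trans hρa)
    refine ⟨hmm hgk, ?_, ?_⟩
    · have := ku2 (hkn.trans hρc)
      linarith
    · have := kv2 (hkn.trans hρc)
      linarith
  · have hkn := (etaS_near' Sk M1 h1).trans hM1e
    have hgk := hn2 (etaS Sk) (etaS_mem Sk) (hkn.trans hρb)
    rw [hg33] at hgk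
    refine ⟨hmm hgk, ?_, ?_⟩
    · have := ku3 (hkn.trans hρc)
      unfold Kc
      linarith
    · have := kv3 (hkn.trans hρc)
      rw [hJJ] at this
      unfold Kc
      linarith

end Pool.Agent.Hhelper30.Forsythe
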