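import Pool.Agent.Hhelper30.Forsythe.ExchQuant

/-! The exchange lemma: the moving zero crosses from one end to the other while both particles
are far away. -/

set_option autoImplicit false

namespace Pool.Agent.Hhelper30.Forsythe

open Filter Topology Set Finset

theorem inc_S (h s1 τ' mlo mhi M1 m0 m S S' : ℝ) (hh : 0 < h) (hs1 : s1 ≤ 1 / 100)
    (hτ : τ' ≤ 1 / 100) (hτm : τ' ≤ 6 * mlo) (hmhi : 1 ≤ mhi) (hm0 : 3 / 10 ≤ m0)
    (hm1 : mlo ≤ m) (hm2 : m ≤ mhi) (hS : |S' - S - 12 * h * m| ≤ τ' * h)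
    (hmp : S ≤ -M1 → |m - m0| ≤ s1) (hmlo : 0 < mlo) :
    6 * mlo * h ≤ S' - S ∧ S' - S ≤ 13 * mhi * h ∧ 0 ≤ max S' (-M1) - max S (-M1) ∧
    ((S ≤ -M1 ∧ 17 / 5 * h ≤ S' - S) ∨ 6 * mlo * h ≤ max S' (-M1) - max S (-M1)) := by
  obtain ⟨a1, a2⟩ := abs_le.mp hS
  have b1 : h * mlo ≤ h * m := mul_le_mul_of_nonneg_left hm1 hh.le
  have b2 : h * m ≤ h * mhi := mul_le_mul_of_nonneg_left hm2 hh.le
  have b3 : τ' * h ≤ 6 * mlo * h := mul_le_mul_of_nonneg_right hτm hh.le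
  have b4 : τ' * h ≤ 1 / 100 * h := mul_le_mul_of_nonneg_right hτ hh.le
  have b5 : h * 1 ≤ h * mhi := mul_le_mul_of_nonneg_left hmhi hh.le
  have c1 : 6 * mlo * h ≤ S' - S := by linarith
  have c0 : 0 < 6 * mlo * h := by positivity
  have c2 : S' - S ≤ 13 * mhi * h := by linarith
  have hSS : S ≤ S' := by linarith
  have c3 : 0 ≤ max S' (-M1) - max S (-M1) := by
    have := max_le_max hSS (le_refl (-M1))
    linarith
  refine ⟨c1, c2, c3, ?_⟩
  rcases le_or_gt S (-M1) with hp | hp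
  · left
    refine ⟨hp, ?_⟩
    have d := hmp hp
    obtain ⟨d1, d2⟩ := abs_le.mp d
    have d3 : 29 / 100 ≤ m := by linarith
    have d4 : h * (29 / 100) ≤ h * m := mul_le_mul_of_nonneg_left d3 hh.le
    linarith
  · right
    rw [max_eq_left (by linarith), max_eq_left hp.le]
    exact c1

theorem inc_X (h s1 τ' mlo mhi V0 W m0 u0 m u dS dP dX : ℝ) (ph : Prop) (hh : 0 < h)
    (hs0 : 0 ≤ s1) (hs1 : s1 ≤ 1 / 100) (hτ0 : 0 ≤ τ') (hτ : τ' ≤ 1 / 100) (hmlo : 0 < mlo)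
    (hmhi : 1 ≤ mhi) (hV0 : 0 ≤ V0) (hW : W = (2 * V0 + 6 + 15 * mhi) / (6 * mlo))
    (hm0 : 3 / 10 ≤ m0) (hu0 : |u0| ≤ 2) (hu : |u - u0| ≤ V0) (hdX : |dX - 2 * h * u| ≤ τ' * h)
    (hdS : |dS - 12 * h * m| ≤ τ' * h) (hdS0 : 0 ≤ dS) (hdS1 : dS ≤ 13 * mhi * h)
    (hdP : 0 ≤ dP) (hA : (ph ∧ 17 / 5 * h ≤ dS) ∨ 6 * mlo * h ≤ dP)
    (hph : ph → |m - m0| ≤ s1 ∧ |u - u0| ≤ s1) :
    |dX| ≤ 13 / 10 * dS + W * dP ∧
    |dX - u0 / (6 * m0) * dS| ≤ 5 * (s1 + τ') * dS + W * dP ∧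
    (1 / 2 ≤ u0 → h / 4 ≤ dX + W * dP) ∧ h ≤ dS + W * dP := by
  have hW0 : 0 ≤ W := by rw [hW]; positivity
  have hWP : 0 ≤ W * dP := mul_nonneg hW0 hdP
  obtain ⟨u1, u2⟩ := abs_le.mp hu0
  obtain ⟨x1, x2⟩ := abs_le.mp hdX
  obtain ⟨y1, y2⟩ := abs_le.mp hdS
  have b4 : τ' * h ≤ 1 / 100 * h := mul_le_mul_of_nonneg_right hτ hh.le
  have b40 : 0 ≤ τ' * h := mul_nonneg hτ0 hh.le
  have b5 : h * 1 ≤ h * mhi := mul_le_mul_of_nonneg_left hmhi hh.le
  have hκ : |u0 / (6 * m0)| ≤ 10 / 9 := by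
    rw [abs_div, abs_of_pos (by positivity : (0 : ℝ) < 6 * m0), div_le_iff₀ (by positivity)]
    linarith
  obtain ⟨k1, k2⟩ := abs_le.mp hκ
  have hκ0 : u0 / (6 * m0) * (12 * h * m0) = 2 * h * u0 := by
    field_simp
    ring
  set κ := u0 / (6 * m0) with hκd
  rcases hA with ⟨hp, h34⟩ | h6
  · obtain ⟨p1, p2⟩ := hph hp
    obtain ⟨q1, q2⟩ := abs_le.mp p1
    obtain ⟨r1, r2⟩ := abs_le.mp p2
    have e1 : h * (-s1) ≤ h * (u - u0) := mul_le_mul_of_nonneg_left r1 hh.le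
    have e2 : h * (u - u0) ≤ h * s1 := mul_le_mul_of_nonneg_left r2 hh.le
    have e3 : h * (-s1) ≤ h * (m - m0) := mul_le_mul_of_nonneg_left q1 hh.le
    have e4 : h * (m - m0) ≤ h * s1 := mul_le_mul_of_nonneg_left q2 hh.le
    have e5 : h * s1 ≤ h * (1 / 100) := mul_le_mul_of_nonneg_left hs1 hh.le
    have e50 : 0 ≤ h * s1 := mul_nonneg hh.le hs0
    have e6 : h * u0 ≤ h * 2 := mul_le_mul_of_nonneg_left u2 hh.le
    have e7 : h * (-2) ≤ h * u0 := mul_le_mul_of_nonneg_left u1 hh.le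
    refine ⟨?_, ?_, ?_, by linarith⟩
    · rw [abs_le]
      constructor <;> linarith
    · have f1 : |dX - 2 * h * u0| ≤ 2 * (h * s1) + τ' * h := by
        rw [abs_le]
        constructor <;> linarith
      have f2 : |dS - 12 * h * m0| ≤ 12 * (h * s1) + τ' * h := by
        rw [abs_le]
        constructor <;> linarith
      have f3 : dX - κ * dS = (dX - 2 * h * u0) - κ * (dS - 12 * h * m0) := by
        rw [mul_sub, hκ0]
        ring
      have f4 : |κ * (dS - 12 * h * m0)| ≤ 10 / 9 * (12 * (h * s1) + τ' * h) := by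
        rw [abs_mul]
        exact mul_le_mul hκ f2 (abs_nonneg _) (by norm_num)
      have f5 := abs_sub (dX - 2 * h * u0) (κ * (dS - 12 * h * m0))
      rw [f3]
      have f6 : (s1 + τ') * (17 / 5 * h) ≤ (s1 + τ') * dS :=
        mul_le_mul_of_nonneg_left h34 (by linarith)
      have f7 : (s1 + τ') * (17 / 5 * h) = 17 / 5 * (h * s1) + 17 / 5 * (τ' * h) := by ring
      linarith
    · intro hu0'
      have e8 : h * (1 / 2) ≤ h * u0 := mul_le_mul_of_nonneg_left hu0' hh.le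
      linarith
  · have g1 : (2 * V0 + 6 + 15 * mhi) * h ≤ W * dP := by
      have : (2 * V0 + 6 + 15 * mhi) * h = W * (6 * mlo * h) := by
        rw [hW]
        field_simp
      rw [this]
      exact mul_le_mul_of_nonneg_left h6 hW0
    obtain ⟨r1, r2⟩ := abs_le.mp hu
    have e1 : h * (-V0) ≤ h * (u - u0) := mul_le_mul_of_nonneg_left r1 hh.le
    have e2 : h * (u - u0) ≤ h * V0 := mul_le_mul_of_nonneg_left r2 hh.le
    have e6 : h * u0 ≤ h * 2 := mul_le_mul_of_nonneg_left u2 hh.le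
    have e7 : h * (-2) ≤ h * u0 := mul_le_mul_of_nonneg_left u1 hh.le
    have e8 : 0 ≤ h * V0 := mul_nonneg hh.le hV0
    have g2 : |dX| ≤ (2 * V0 + 5) * h := by
      rw [abs_le]
      constructor <;> linarith
    have g3 : |κ * dS| ≤ 10 / 9 * (13 * mhi * h) := by
      rw [abs_mul, abs_of_nonneg hdS0]
      exact mul_le_mul hκ hdS1 hdS0 (by norm_num)
    obtain ⟨z1, z2⟩ := abs_le.mp g2
    have g5 : 0 ≤ 5 * (s1 + τ') * dS := mul_nonneg (by linarith) hdS0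
    refine ⟨by linarith, ?_, fun _ => by linarith, by linarith⟩
    have f5 := abs_sub dX (κ * dS)
    linarith

/-- facts at one time -/
structure FactS (mlo mhi V0 M1 s1 : ℝ) (S u v m : ℕ → ℝ) (j : ℕ) : Prop where
  m1 : mlo ≤ m j
  m2 : m j ≤ mhi
  u1 : |u j - u 0| ≤ V0
  v1 : |v j - v 0| ≤ V0
  ph : S j ≤ -M1 → |m j - m 0| ≤ s1 ∧ |u j - u 0| ≤ s1 ∧ |v j - v 0| ≤ s1

/-- facts about one step -/
structure IncS (h τ' : ℝ) (X Y S u v m : ℕ → ℝ) (j : ℕ) : Prop where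
  iS : |S (j + 1) - S j - 12 * h * m j| ≤ τ' * h
  iX : |X (j + 1) - X j - 2 * h * u j| ≤ τ' * h
  iY : |Y (j + 1) - Y j - 2 * h * v j| ≤ τ' * h

/-- accumulated bounds -/
structure AccS (h s1 τ' mlo W M1 : ℝ) (X Y S u v m : ℕ → ℝ) (i : ℕ) : Prop where
  aS : S 0 + 6 * mlo * h * i ≤ S i
  aP : max (S 0) (-M1) ≤ max (S i) (-M1)
  aT : h * i ≤ S i - S 0 + W * (max (S i) (-M1) - max (S 0) (-M1))
  aQ : h / 4 * i ≤ X i - X 0 + W * (max (S i) (-M1) - max (S 0) (-M1))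
  aX : |X i - X 0| ≤ 13 / 10 * (S i - S 0) + W * (max (S i) (-M1) - max (S 0) (-M1))
  aY : |Y i - Y 0| ≤ 13 / 10 * (S i - S 0) + W * (max (S i) (-M1) - max (S 0) (-M1))
  bX : |X i - X 0 - u 0 / (6 * m 0) * (S i - S 0)| ≤
    5 * (s1 + τ') * (S i - S 0) + W * (max (S i) (-M1) - max (S 0) (-M1))
  bY : |Y i - Y 0 - v 0 / (6 * m 0) * (S i - S 0)| ≤
    5 * (s1 + τ') * (S i - S 0) + W * (max (S i) (-M1) - max (S 0) (-M1))

theorem exch_acc (h s1 τ' mlo mhi V0 W M1 : ℝ) (X Y S u v m : ℕ → ℝ) (k : ℕ) (hh : 0 < h)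
    (hs0 : 0 ≤ s1) (hs1 : s1 ≤ 1 / 100) (hτ0 : 0 ≤ τ') (hτ : τ' ≤ 1 / 100) (hτm : τ' ≤ 6 * mlo)
    (hmlo : 0 < mlo) (hmhi : 1 ≤ mhi) (hV0 : 0 ≤ V0)
    (hW : W = (2 * V0 + 6 + 15 * mhi) / (6 * mlo)) (hm0 : 3 / 10 ≤ m 0) (hu0 : |u 0| ≤ 2)
    (hu0' : 1 / 2 ≤ u 0) (hv0 : |v 0| ≤ 2)
    (hF : ∀ j < k, FactS mlo mhi V0 M1 s1 S u v m j) (hI : ∀ j < k, IncS h τ' X Y S u v m j) :
    ∀ i ≤ k, AccS h s1 τ' mlo W M1 X Y S u v m i := by
  intro i
  induction i with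
  | zero =>
    intro _
    constructor <;> simp
  | succ i ih =>
    intro hi
    have hik : i < k := by omega
    have a := ih hik.le
    have F := hF i hik
    have I := hI i hik
    obtain ⟨s1', s2', s3', s4'⟩ := inc_S h s1 τ' mlo mhi M1 (m 0) (m i) (S i) (S (i + 1)) hh hs1 hτ
      hτm hmhi hm0 F.m1 F.m2 I.iS (fun hp => (F.ph hp).1) hmlo
    have hdS0 : 0 ≤ S (i + 1) - S i := le_trans (by positivity) s1'
    obtain ⟨x1, x2, x3, x4⟩ := inc_X h s1 τ' mlo mhi V0 W (m 0) (u 0) (m i) (u i)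
      (S (i + 1) - S i) (max (S (i + 1)) (-M1) - max (S i) (-M1)) (X (i + 1) - X i) (S i ≤ -M1)
      hh hs0 hs1 hτ0 hτ hmlo hmhi hV0 hW hm0 hu0 F.u1 I.iX I.iS hdS0 s2' s3' s4'
      (fun hp => ⟨(F.ph hp).1, (F.ph hp).2.1⟩)
    obtain ⟨y1, y2, -, -⟩ := inc_X h s1 τ' mlo mhi V0 W (m 0) (v 0) (m i) (v i)
      (S (i + 1) - S i) (max (S (i + 1)) (-M1) - max (S i) (-M1)) (Y (i + 1) - Y i) (S i ≤ -M1)
      hh hs0 hs1 hτ0 hτ hmlo hmhi hV0 hW hm0 hv0 F.v1 I.iY I.iS hdS0 s2' s3' s4'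
      (fun hp => ⟨(F.ph hp).1, (F.ph hp).2.2⟩)
    have x3' := x3 hu0'
    have g1 : W * (max (S (i + 1)) (-M1) - max (S 0) (-M1)) =
        W * (max (S i) (-M1) - max (S 0) (-M1)) +
          W * (max (S (i + 1)) (-M1) - max (S i) (-M1)) := by ring
    have ci : ((i + 1 : ℕ) : ℝ) = (i : ℝ) + 1 := by push_cast; ring
    constructor
    · rw [ci]; have := a.aS; linarith
    · have := a.aP; linarith
    · rw [g1, ci]; have := a.aT; linarith
    · rw [g1, ci]; have := a.aQ; linarith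
    · rw [g1]
      have e := abs_add_le (X (i + 1) - X i) (X i - X 0)
      rw [sub_add_sub_cancel] at e
      have := a.aX
      linarith
    · rw [g1]
      have e := abs_add_le (Y (i + 1) - Y i) (Y i - Y 0)
      rw [sub_add_sub_cancel] at e
      have := a.aY
      linarith
    · rw [g1]
      have e := abs_add_le (X (i + 1) - X i - u 0 / (6 * m 0) * (S (i + 1) - S i))
        (X i - X 0 - u 0 / (6 * m 0) * (S i - S 0))
      have e' : X (i + 1) - X i - u 0 / (6 * m 0) * (S (i + 1) - S i) +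
        (X i - X 0 - u 0 / (6 * m 0) * (S i - S 0)) =
        X (i + 1) - X 0 - u 0 / (6 * m 0) * (S (i + 1) - S 0) := by ring
      rw [e'] at e
      have := a.bX
      linarith
    · rw [g1]
      have e := abs_add_le (Y (i + 1) - Y i - v 0 / (6 * m 0) * (S (i + 1) - S i))
        (Y i - Y 0 - v 0 / (6 * m 0) * (S i - S 0))
      have e' : Y (i + 1) - Y i - v 0 / (6 * m 0) * (S (i + 1) - S i) +
        (Y i - Y 0 - v 0 / (6 * m 0) * (S i - S 0)) =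
        Y (i + 1) - Y 0 - v 0 / (6 * m 0) * (S (i + 1) - S 0) := by ring
      rw [e'] at e
      have := a.bY
      linarith

/-- the hypotheses of `exch_core` up to time `K` -/
structure GoodTo (h τ δ : ℝ) (X Y G : ℕ → ℝ) (K : ℕ) : Prop where
  gG : ∀ j < K, G j ≤ δ
  gE : ∀ j < K, Real.exp (-X j) + Real.exp (-Y j) ≤ 1
  gS : h * ∑ j ∈ range K, (Real.exp (-X j) + Real.exp (-Y j)) ≤ τ

/-- bootstrap -/
theorem exch_boot (h s1 τ' τ mlo mhi V0 W M M1 Cg C' δ ε1 : ℝ) (X Y S u v m G : ℕ → ℝ) (hh : 0 < h)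
    (hh1 : h ≤ 1)
    (hs0 : 0 ≤ s1) (hs1 : s1 ≤ 1 / 100) (hτ0 : 0 ≤ τ') (hτ : τ' ≤ 1 / 100) (hτm : τ' ≤ 6 * mlo)
    (hmlo : 0 < mlo) (hmhi : 1 ≤ mhi) (hV0 : 0 ≤ V0) (hM0 : 0 ≤ M) (hM1 : 0 ≤ M1)
    (hτp : 0 < τ)
    (hW : W = (2 * V0 + 6 + 15 * mhi) / (6 * mlo)) (hm0 : 3 / 10 ≤ m 0) (hu0 : |u 0| ≤ 2)
    (hu0' : 1 / 2 ≤ u 0) (hv0 : |v 0| ≤ 2)
    (hcore : ∀ K, GoodTo h τ δ X Y G K → (∀ j ≤ K, FactS mlo mhi V0 M1 s1 S u v m j ∧
      G 0 ≤ G j ∧ G j ≤ G 0 + Cg) ∧ ∀ j < K, IncS h τ' X Y S u v m j)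
    (hS0 : S 0 ≤ -M1) (hS1 : S 0 ≤ 0) (_hhm : 13 * mhi * h ≤ 1)
    (hX0 : Real.exp (-X 0) ≤ ε1) (hε1 : ε1 * Real.exp (W * (M + 1 + M1)) ≤ 1 / 2)
    (hε2 : 9 * (ε1 * Real.exp (W * (M + 1 + M1))) ≤ τ / 2)
    (hY0 : 2 * |S 0| + C' ≤ Y 0)
    (hC1 : Real.exp (13 / 10 * (M + 1) + W * (M + 1 + M1) - C') ≤ 1 / 2)
    (hC2 : (M + 4 + W * (M + 1 + M1)) *
      Real.exp (13 / 10 * (M + 1) + W * (M + 1 + M1) - C') ≤ τ / 2)
    (hG0 : G 0 + Cg ≤ δ) :
    ∀ k, (∀ j < k, S j < M) → GoodTo h τ δ X Y G k := by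
  have hW0 : 0 ≤ W := by rw [hW]; positivity
  intro k
  induction k with
  | zero =>
    intro _
    refine ⟨fun j hj => absurd hj (by omega), fun j hj => absurd hj (by omega), ?_⟩
    simpa using hτp.le
  | succ k ih =>
    intro hk
    have gk := ih (fun j hj => hk j (by omega))
    obtain ⟨hf, hi⟩ := hcore k gk
    have acc := exch_acc h s1 τ' mlo mhi V0 W M1 X Y S u v m k hh hs0 hs1 hτ0 hτ hτm hmlo hmhi hV0
      hW hm0 hu0 hu0' hv0 (fun j hj => (hf j hj.le).1) hi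
    have hSj : ∀ j ≤ k, S j ≤ M + 1 := fun j hj => by
      have := hk j (by omega)
      linarith
    have hP0 : max (S 0) (-M1) = -M1 := max_eq_right hS0
    have hPj : ∀ j ≤ k, W * (max (S j) (-M1) - max (S 0) (-M1)) ≤ W * (M + 1 + M1) := by
      intro j hj
      apply mul_le_mul_of_nonneg_left _ hW0
      rw [hP0]
      have : max (S j) (-M1) ≤ M + 1 := max_le (hSj j hj) (by linarith)
      linarith
    have hξ : ∀ j ≤ k, Real.exp (-X j) ≤ (ε1 * Real.exp (W * (M + 1 + M1))) *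
        Real.exp (-(1 / 4 * h * (min j k : ℕ))) := by
      intro j hj
      have a1 := (acc j hj).aQ
      have a2 := hPj j hj
      rw [min_eq_left hj]
      have : -X j ≤ -X 0 + W * (M + 1 + M1) + -(1 / 4 * h * j) := by linarith
      calc Real.exp (-X j) ≤ Real.exp (-X 0 + W * (M + 1 + M1) + -(1 / 4 * h * j)) :=
            Real.exp_le_exp.2 this
        _ = Real.exp (-X 0) * Real.exp (W * (M + 1 + M1)) * Real.exp (-(1 / 4 * h * j)) := by
            rw [Real.exp_add, Real.exp_add]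
        _ ≤ _ := by gcongr
    set a0 : ℝ := |S 0| with ha0
    have hSabs : S 0 = -a0 := by rw [ha0, abs_of_nonpos hS1, neg_neg]
    have ha00 : 0 ≤ a0 := abs_nonneg _
    set Z : ℝ := Real.exp (13 / 10 * (M + 1) + W * (M + 1 + M1) - C') with hZ
    have hZ0 : 0 < Z := Real.exp_pos _
    have hζ : ∀ j ≤ k, Real.exp (-Y j) ≤ Z * Real.exp (-(7 / 10 * a0)) := by
      intro j hj
      have a1 := (abs_le.1 (acc j hj).aY).1
      have a2 := hPj j hj
      have a3 := hSj j hj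
      rw [hZ, ← Real.exp_add]
      apply Real.exp_le_exp.2
      linarith
    have he1 : Real.exp (-(7 / 10 * a0)) ≤ 1 := Real.exp_le_one_iff.2 (by linarith)
    have he2 : a0 * Real.exp (-(7 / 10 * a0)) ≤ 2 := by
      have h1 : 7 / 10 * a0 ≤ Real.exp (7 / 10 * a0) := by
        have := Real.add_one_le_exp (7 / 10 * a0)
        linarith
      have h2 : 7 / 10 * a0 * Real.exp (-(7 / 10 * a0)) ≤
          Real.exp (7 / 10 * a0) * Real.exp (-(7 / 10 * a0)) :=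
        mul_le_mul_of_nonneg_right h1 (Real.exp_pos _).le
      rw [← Real.exp_add, add_neg_cancel, Real.exp_zero] at h2
      linarith
    have he3 : 0 < Real.exp (-(7 / 10 * a0)) := Real.exp_pos _
    constructor
    · intro j hj
      have := (hf j (by omega)).2.2
      linarith
    · intro j hj
      have b1 := hξ j (by omega)
      have b2 := hζ j (by omega)
      have b3 : Real.exp (-(1 / 4 * h * (min j k : ℕ))) ≤ 1 :=
        Real.exp_le_one_iff.2 (by have : 0 ≤ 1 / 4 * h * ((min j k : ℕ) : ℝ) := by positivity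
                                  linarith)
      have hε0 : 0 ≤ ε1 * Real.exp (W * (M + 1 + M1)) :=
        mul_nonneg ((Real.exp_pos _).le.trans hX0) (Real.exp_pos _).le
      have b4 : (ε1 * Real.exp (W * (M + 1 + M1))) * Real.exp (-(1 / 4 * h * (min j k : ℕ))) ≤
          (ε1 * Real.exp (W * (M + 1 + M1))) * 1 := mul_le_mul_of_nonneg_left b3 hε0
      have b5 : Z * Real.exp (-(7 / 10 * a0)) ≤ Z * 1 := mul_le_mul_of_nonneg_left he1 hZ0.le
      linarith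
    · have hε0 : 0 ≤ ε1 * Real.exp (W * (M + 1 + M1)) :=
        mul_nonneg ((Real.exp_pos _).le.trans hX0) (Real.exp_pos _).le
      rw [Finset.sum_add_distrib, mul_add]
      have c1 : h * ∑ j ∈ range (k + 1), Real.exp (-X j) ≤ τ / 2 := by
        have d1 := sum_exp_min (1 / 4) h (by norm_num) hh (by linarith) k k le_rfl
        have d2 : ∑ j ∈ range (k + 1), Real.exp (-X j) ≤ (ε1 * Real.exp (W * (M + 1 + M1))) *
            ∑ j ∈ range (k + 1), Real.exp (-(1 / 4 * h * (min j k : ℕ))) := by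
          rw [Finset.mul_sum]
          apply Finset.sum_le_sum
          intro j hj
          exact hξ j (by have := Finset.mem_range.1 hj; omega)
        have d3 : h * ∑ j ∈ range (k + 1), Real.exp (-X j) ≤ (ε1 * Real.exp (W * (M + 1 + M1))) *
            (h * ∑ j ∈ range (k + 1), Real.exp (-(1 / 4 * h * (min j k : ℕ)))) := by
          calc h * ∑ j ∈ range (k + 1), Real.exp (-X j) ≤ h * ((ε1 * Real.exp (W * (M + 1 + M1))) *
            ∑ j ∈ range (k + 1), Real.exp (-(1 / 4 * h * (min j k : ℕ)))) :=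
              mul_le_mul_of_nonneg_left d2 hh.le
            _ = _ := by ring
        have d4 : h * ∑ j ∈ range (k + 1), Real.exp (-(1 / 4 * h * (min j k : ℕ))) ≤ 9 := by
          have : (2 : ℝ) / (1 / 4) = 8 := by norm_num
          rw [this] at d1
          linarith
        have d5 := mul_le_mul_of_nonneg_left d4 hε0
        linarith
      have c2 : h * ∑ j ∈ range (k + 1), Real.exp (-Y j) ≤ τ / 2 := by
        have d2 : ∑ j ∈ range (k + 1), Real.exp (-Y j) ≤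
            ∑ j ∈ range (k + 1), Z * Real.exp (-(7 / 10 * a0)) := by
          apply Finset.sum_le_sum
          intro j hj
          exact hζ j (by have := Finset.mem_range.1 hj; omega)
        rw [Finset.sum_const, Finset.card_range, nsmul_eq_mul] at d2
        have a1 := (acc k le_rfl).aT
        have a2 := hPj k le_rfl
        have a3 := hSj k le_rfl
        have d3 : h * ((k + 1 : ℕ) : ℝ) ≤ a0 + (M + 2 + W * (M + 1 + M1)) := by
          push_cast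
          linarith
        have hpos : 0 ≤ Z * Real.exp (-(7 / 10 * a0)) := by positivity
        have hWM : 0 ≤ W * (M + 1 + M1) := mul_nonneg hW0 (by linarith)
        calc h * ∑ j ∈ range (k + 1), Real.exp (-Y j)
            ≤ h * (((k + 1 : ℕ) : ℝ) * (Z * Real.exp (-(7 / 10 * a0)))) :=
              mul_le_mul_of_nonneg_left d2 hh.le
          _ = (h * ((k + 1 : ℕ) : ℝ)) * (Z * Real.exp (-(7 / 10 * a0))) := by ring
          _ ≤ (a0 + (M + 2 + W * (M + 1 + M1))) * (Z * Real.exp (-(7 / 10 * a0))) :=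
              mul_le_mul_of_nonneg_right d3 hpos
          _ = Z * (a0 * Real.exp (-(7 / 10 * a0))) +
              ((M + 2 + W * (M + 1 + M1)) * Z) * Real.exp (-(7 / 10 * a0)) := by ring
          _ ≤ Z * 2 + ((M + 2 + W * (M + 1 + M1)) * Z) * 1 := by
              apply add_le_add
              · exact mul_le_mul_of_nonneg_left he2 hZ0.le
              · exact mul_le_mul_of_nonneg_left he1 (by positivity)
          _ = (M + 4 + W * (M + 1 + M1)) * Z := by ring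
          _ ≤ τ / 2 := hC2
      linarith

theorem exp_small (Z0 C' b τ : ℝ) (hτ : 0 < τ) (hb : 0 ≤ b) (h1 : Z0 + 1 ≤ C')
    (h2 : Z0 + 2 * b / τ ≤ C') :
    Real.exp (Z0 - C') ≤ 1 / 2 ∧ b * Real.exp (Z0 - C') ≤ τ / 2 := by
  obtain ⟨x, hx⟩ : ∃ x, x = C' - Z0 := ⟨_, rfl⟩
  have hx1 : 1 ≤ x := by rw [hx]; linarith
  have hx2 : 2 * b / τ ≤ x := by rw [hx]; linarith
  have e1 : Real.exp (Z0 - C') = (Real.exp x)⁻¹ := by
    rw [← Real.exp_neg, hx]
    congr 1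
    ring
  have e2 : 1 + x ≤ Real.exp x := by
    have := Real.add_one_le_exp x
    linarith
  have e3 : Real.exp (Z0 - C') ≤ (1 + x)⁻¹ := by
    rw [e1]
    exact inv_anti₀ (by linarith) e2
  constructor
  · refine e3.trans ?_
    rw [one_div]
    exact inv_anti₀ (by norm_num) (by linarith)
  · calc b * Real.exp (Z0 - C') ≤ b * (1 + x)⁻¹ := mul_le_mul_of_nonneg_left e3 hb
      _ = b / (1 + x) := by rw [div_eq_mul_inv]
      _ ≤ τ / 2 := by
        rw [div_le_div_iff₀ (by linarith) (by norm_num)]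
        rw [div_le_iff₀ hτ] at hx2
        nlinarith

theorem exchange (c : Coef) (hc : GoodCoef c) (C c0 : ℝ) (hC : 0 < C) (hc0 : 0 < c0)
    (ε' : ℝ) (hε' : 0 < ε') :
    ∃ M0 : ℝ, 0 ≤ M0 ∧ ∀ M : ℝ, M0 ≤ M → ∃ ε1 > 0, ∃ C' : ℝ, 1 ≤ C' ∧ ∀ (ε h δ : ℝ), 0 ≤ ε → ε ≤ ε1 →
    0 < h → h ≤ ε1 → ∀ (X Y S u v m G : ℕ → ℝ), RS c C c0 ε h δ X Y S u v m G →
    1 / 2 ≤ u 0 → u 0 ≤ 2 → |v 0| ≤ 2 → 3 / 10 ≤ m 0 → m 0 ≤ 11 / 10 →
    Real.exp (-X 0) ≤ ε1 → S 0 ≤ -C' → 2 * |S 0| + C' ≤ Y 0 → G 0 + C' ≤ δ →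
    ∃ K : ℕ, M ≤ S K ∧ S K ≤ M + 1 ∧ h * K ≤ |S 0| + C' ∧
      (∀ k ≤ K, G 0 ≤ G k ∧ G k ≤ G 0 + C' ∧ X 0 - C' ≤ X k ∧ X k ≤ X 0 + 2 * |S 0| + C' ∧
        Y 0 - 2 * |S 0| - C' ≤ Y k ∧ Y k ≤ Y 0 + 2 * |S 0| + C' ∧ S 0 - C' ≤ S k ∧ S k ≤ M + 1) ∧
      |m K - m 0| ≤ ε' ∧ |u K - (u 0 - Kc c * m 0)| ≤ ε' ∧ |v K - (v 0 - Kc c * m 0)| ≤ ε' ∧
      |X K - X 0 - u 0 * |S 0| / (6 * m 0)| ≤ ε' * |S 0| + C' ∧
      |Y K - Y 0 - v 0 * |S 0| / (6 * m 0)| ≤ ε' * |S 0| + C' := by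
  obtain ⟨mlo, hmlo, mhi, hmhi, Cg, hCg, hcore0⟩ := exch_core c hc C c0 hC hc0.le
  obtain ⟨V0, hV0, hquant⟩ := exch_quant c hc
  obtain ⟨s1, hs1d⟩ : ∃ s1, s1 = min (ε' / 10) (1 / 100) := ⟨_, rfl⟩
  have hs1p : 0 < s1 := by rw [hs1d]; exact lt_min (by positivity) (by norm_num)
  have hs1a : s1 ≤ ε' / 10 := by rw [hs1d]; exact min_le_left _ _
  have hs1b : s1 ≤ 1 / 100 := by rw [hs1d]; exact min_le_right _ _
  obtain ⟨τ1, hτ1, M1, hM1, hq⟩ := hquant s1 hs1p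
  obtain ⟨τ', hτ'd⟩ : ∃ t, t = min (min τ1 (ε' / 10)) (min (1 / 100) (6 * mlo)) := ⟨_, rfl⟩
  have hτ'p : 0 < τ' := by
    rw [hτ'd]
    exact lt_min (lt_min hτ1 (by positivity)) (lt_min (by norm_num) (by positivity))
  have hτ'a : τ' ≤ τ1 := by rw [hτ'd]; exact (min_le_left _ _).trans (min_le_left _ _)
  have hτ'b : τ' ≤ ε' / 10 := by rw [hτ'd]; exact (min_le_left _ _).trans (min_le_right _ _)
  have hτ'c : τ' ≤ 1 / 100 := by rw [hτ'd]; exact (min_le_right _ _).trans (min_le_left _ _)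
  have hτ'e : τ' ≤ 6 * mlo := by rw [hτ'd]; exact (min_le_right _ _).trans (min_le_right _ _)
  obtain ⟨τ, hτ, hcore1⟩ := hcore0 τ' hτ'p
  refine ⟨M1, hM1, fun M hM => ?_⟩
  have hM0 : 0 ≤ M := hM1.trans hM
  obtain ⟨W, hW⟩ : ∃ W, W = (2 * V0 + 6 + 15 * mhi) / (6 * mlo) := ⟨_, rfl⟩
  have hW0 : 0 ≤ W := by rw [hW]; positivity
  obtain ⟨D, hD⟩ : ∃ D, D = W * (M + 1 + M1) := ⟨_, rfl⟩
  have hD0 : 0 ≤ D := by rw [hD]; exact mul_nonneg hW0 (by linarith)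
  obtain ⟨ε1, hε1d⟩ : ∃ e, e = min (min τ (1 / (13 * mhi)))
    (min (Real.exp (-D) / 2) (τ * Real.exp (-D) / 18)) := ⟨_, rfl⟩
  have hε1p : 0 < ε1 := by
    rw [hε1d]
    exact lt_min (lt_min hτ (by positivity)) (lt_min (by positivity) (by positivity))
  have hε1a : ε1 ≤ τ := by rw [hε1d]; exact (min_le_left _ _).trans (min_le_left _ _)
  have hε1b : ε1 ≤ 1 / (13 * mhi) := by rw [hε1d]; exact (min_le_left _ _).trans (min_le_right _ _)
  have hε1c : ε1 ≤ Real.exp (-D) / 2 := by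
    rw [hε1d]; exact (min_le_right _ _).trans (min_le_left _ _)
  have hε1e : ε1 ≤ τ * Real.exp (-D) / 18 := by
    rw [hε1d]; exact (min_le_right _ _).trans (min_le_right _ _)
  have hexpD : Real.exp (-D) * Real.exp D = 1 := by
    rw [← Real.exp_add, neg_add_cancel, Real.exp_zero]
  have hε2 : ε1 * Real.exp D ≤ 1 / 2 := by
    have := mul_le_mul_of_nonneg_right hε1c (Real.exp_pos D).le
    linarith
  have hε3 : 9 * (ε1 * Real.exp D) ≤ τ / 2 := by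
    have h1 := mul_le_mul_of_nonneg_right hε1e (Real.exp_pos D).le
    have h2 : τ * Real.exp (-D) / 18 * Real.exp D = τ / 18 * (Real.exp (-D) * Real.exp D) := by ring
    rw [h2, hexpD] at h1
    linarith
  obtain ⟨b, hb⟩ : ∃ b, b = M + 4 + D := ⟨_, rfl⟩
  have hb0 : 0 ≤ b := by rw [hb]; linarith
  obtain ⟨C', hC'⟩ : ∃ C', C' = (13 / 10 * (M + 1) + D) + 1 + 2 * b / τ + Cg + M1 + 2 * (M + 1) +
    ε' * (M + 1) + D := ⟨_, rfl⟩
  have hbτ : 0 ≤ 2 * b / τ := by positivity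
  have hεM : 0 ≤ ε' * (M + 1) := by positivity
  obtain ⟨hE1, hE2⟩ := exp_small (13 / 10 * (M + 1) + D) C' b τ hτ hb0 (by linarith) (by linarith)
  refine ⟨ε1, hε1p, C', by linarith, ?_⟩
  intro ε h δ hε0 hεε hh0 hhε X Y S u v m G rs hu1 hu2 hv hm1 hm2 hX hS hY hG
  have hhm : 13 * mhi * h ≤ 1 := by
    have := hhε.trans hε1b
    rw [le_div_iff₀ (by positivity)] at this
    linarith
  have hh1 : h ≤ 1 := by nlinarith
  have hS1 : S 0 ≤ -M1 := by linarith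
  have hS2 : S 0 ≤ 0 := by linarith
  have hu0 : |u 0| ≤ 2 := by rw [abs_le]; constructor <;> linarith
  have hcore : ∀ K, GoodTo h τ δ X Y G K → (∀ j ≤ K, FactS mlo mhi V0 M1 s1 S u v m j ∧
      G 0 ≤ G j ∧ G j ≤ G 0 + Cg) ∧ ∀ j < K, IncS h τ' X Y S u v m j := by
    intro K g
    have h1 := hcore1 ε h δ hε0 (hεε.trans hε1a) hh0 (hhε.trans hε1a) X Y S u v m G rs hm1 hm2 K
      g.gG g.gE g.gS
    constructor
    · intro j hj
      obtain ⟨k1, k2, k3, k4, k5, k6, k7, -⟩ := h1 j hj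
      obtain ⟨q1, q2, -⟩ := hq τ' hτ'a (S 0) (S j) (m 0) (m j) (u 0) (u j) (v 0) (v j) hS1 hm1 hm2
        k3 k4 k5
      have q1' := q1 (by linarith)
      exact ⟨⟨k1, k2, q1'.1, q1'.2, q2⟩, k6, k7⟩
    · intro j hj
      obtain ⟨-, -, -, -, -, -, -, k8⟩ := h1 j hj.le
      obtain ⟨l1, l2, l3⟩ := k8 hj
      exact ⟨l1, l2, l3⟩
  have hboot := exch_boot h s1 τ' τ mlo mhi V0 W M M1 Cg C' δ ε1 X Y S u v m G hh0 hh1 hs1p.le hs1b
    hτ'p.le hτ'c hτ'e hmlo hmhi hV0 hM0 hM1 hτ hW hm1 hu0 hu1 hv hcore hS1 hS2 hhm hX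
    (by rw [← hD]; exact hε2) (by rw [← hD]; exact hε3) hY (by rw [← hD]; exact hE1)
    (by rw [← hD, ← hb]; exact hE2) (by linarith)
  have hacc : ∀ K, (∀ j < K, S j < M) → ∀ i ≤ K, AccS h s1 τ' mlo W M1 X Y S u v m i := by
    intro K hK
    obtain ⟨hf, hi⟩ := hcore K (hboot K hK)
    exact exch_acc h s1 τ' mlo mhi V0 W M1 X Y S u v m K hh0 hs1p.le hs1b hτ'p.le hτ'c hτ'e hmlo
      hmhi hV0 hW hm1 hu0 hu1 hv (fun j hj => (hf j hj.le).1) hi
  have hex : ∃ k, M ≤ S k := by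
    by_contra hcon
    push Not at hcon
    obtain ⟨k, hk⟩ := exists_nat_gt ((M - S 0) / (6 * mlo * h))
    rw [div_lt_iff₀ (by positivity)] at hk
    have a := (hacc k (fun j _ => hcon j) k le_rfl).aS
    have := hcon k
    linarith
  classical
  obtain ⟨K, hK⟩ : ∃ K, K = Nat.find hex := ⟨_, rfl⟩
  have hKM : M ≤ S K := by rw [hK]; exact Nat.find_spec hex
  have hKlt : ∀ j < K, S j < M := by
    intro j hj
    rw [hK] at hj
    have := Nat.find_min hex hj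
    linarith
  have hK0 : K ≠ 0 := by
    intro h0
    rw [h0] at hKM
    linarith
  obtain ⟨hf, hi⟩ := hcore K (hboot K hKlt)
  have acc := hacc K hKlt
  have hSK : S K ≤ M + 1 := by
    obtain ⟨n, hn⟩ := Nat.exists_eq_succ_of_ne_zero hK0
    have hn' : n < K := by omega
    obtain ⟨-, s2, -, -⟩ := inc_S h s1 τ' mlo mhi M1 (m 0) (m n) (S n) (S (n + 1)) hh0 hs1b hτ'c
      hτ'e hmhi hm1 (hf n hn'.le).1.m1 (hf n hn'.le).1.m2 (hi n hn').iS
      (fun hp => ((hf n hn'.le).1.ph hp).1) hmlo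
    have := hKlt n hn'
    rw [hn]
    simp only [Nat.succ_eq_add_one]
    linarith
  have hSj : ∀ j ≤ K, S j ≤ M + 1 := by
    intro j hj
    rcases eq_or_lt_of_le hj with h1 | h1
    · rw [h1]; exact hSK
    · have := hKlt j h1
      linarith
  have hP0 : max (S 0) (-M1) = -M1 := max_eq_right hS1
  have hPj : ∀ j ≤ K, W * (max (S j) (-M1) - max (S 0) (-M1)) ≤ D := by
    intro j hj
    rw [hD]
    apply mul_le_mul_of_nonneg_left _ hW0
    rw [hP0]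
    have : max (S j) (-M1) ≤ M + 1 := max_le (hSj j hj) (by linarith)
    linarith
  obtain ⟨a0, ha0⟩ : ∃ a0, a0 = |S 0| := ⟨_, rfl⟩
  have hSabs : S 0 = -a0 := by rw [ha0, abs_of_nonpos hS2, neg_neg]
  have ha00 : 0 ≤ a0 := by rw [ha0]; exact abs_nonneg _
  rw [← ha0]
  have haccK := acc K le_rfl
  have hκ : ∀ w : ℝ, |w| ≤ 2 → |w / (6 * m 0)| ≤ 10 / 9 := by
    intro w hw
    rw [abs_div, abs_of_pos (by positivity : (0 : ℝ) < 6 * m 0), div_le_iff₀ (by positivity)]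
    linarith
  have hpos : ∀ (w : ℝ) (A : ℝ), |w| ≤ 2 → |A - w / (6 * m 0) * (S K - S 0)| ≤
      5 * (s1 + τ') * (S K - S 0) + W * (max (S K) (-M1) - max (S 0) (-M1)) →
      |A - w * a0 / (6 * m 0)| ≤ ε' * a0 + C' := by
    intro w A hw hA
    have h1 := hPj K le_rfl
    have h2 : 5 * (s1 + τ') * (S K - S 0) ≤ ε' * (M + 1 + a0) := by
      apply mul_le_mul (by linarith) (by linarith) (by linarith) hε'.le
    have h3 : A - w * a0 / (6 * m 0) = (A - w / (6 * m 0) * (S K - S 0)) +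
        w / (6 * m 0) * S K := by
      rw [hSabs]
      field_simp
      ring
    have h4 : |w / (6 * m 0) * S K| ≤ 10 / 9 * (M + 1) := by
      rw [abs_mul, abs_of_nonneg (by linarith : 0 ≤ S K)]
      exact mul_le_mul (hκ w hw) hSK (by linarith) (by norm_num)
    rw [h3]
    have h5 := abs_add_le (A - w / (6 * m 0) * (S K - S 0)) (w / (6 * m 0) * S K)
    linarith
  refine ⟨K, hKM, hSK, ?_, ?_, ?_, ?_, ?_, ?_, ?_⟩
  · have := haccK.aT
    have := hPj K le_rfl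
    linarith
  · intro k hk
    have a := acc k hk
    have p := hPj k hk
    have f := hf k hk
    have sk := hSj k hk
    obtain ⟨x1, x2⟩ := abs_le.1 a.aX
    obtain ⟨y1, y2⟩ := abs_le.1 a.aY
    have hk0 : (0 : ℝ) ≤ h / 4 * k := by positivity
    have hk1 : (0 : ℝ) ≤ 6 * mlo * h * k := by positivity
    have aq := a.aQ
    have as := a.aS
    refine ⟨f.2.1, by linarith [f.2.2], by linarith, by linarith, by linarith, by linarith,
      by linarith, sk⟩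
  · have h1 := hcore1 ε h δ hε0 (hεε.trans hε1a) hh0 (hhε.trans hε1a) X Y S u v m G rs hm1 hm2 K
      (hboot K hKlt).gG (hboot K hKlt).gE (hboot K hKlt).gS K le_rfl
    obtain ⟨k1, k2, k3, k4, k5, k6, k7, -⟩ := h1
    obtain ⟨-, -, q3⟩ := hq τ' hτ'a (S 0) (S K) (m 0) (m K) (u 0) (u K) (v 0) (v K) hS1 hm1 hm2
        k3 k4 k5
    have := (q3 (hM.trans hKM)).1
    linarith
  · have h1 := hcore1 ε h δ hε0 (hεε.trans hε1a) hh0 (hhε.trans hε1a) X Y S u v m G rs hm1 hm2 K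
      (hboot K hKlt).gG (hboot K hKlt).gE (hboot K hKlt).gS K le_rfl
    obtain ⟨k1, k2, k3, k4, k5, k6, k7, -⟩ := h1
    obtain ⟨-, -, q3⟩ := hq τ' hτ'a (S 0) (S K) (m 0) (m K) (u 0) (u K) (v 0) (v K) hS1 hm1 hm2
        k3 k4 k5
    have := (q3 (hM.trans hKM)).2.1
    linarith
  · have h1 := hcore1 ε h δ hε0 (hεε.trans hε1a) hh0 (hhε.trans hε1a) X Y S u v m G rs hm1 hm2 K
      (hboot K hKlt).gG (hboot K hKlt).gE (hboot K hKlt).gS K le_rfl
    obtain ⟨k1, k2, k3, k4, k5, k6, k7, -⟩ := h1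
    obtain ⟨-, -, q3⟩ := hq τ' hτ'a (S 0) (S K) (m 0) (m K) (u 0) (u K) (v 0) (v K) hS1 hm1 hm2
        k3 k4 k5
    have := (q3 (hM.trans hKM)).2.2
    linarith
  · exact hpos (u 0) (X K - X 0) hu0 haccK.bX
  · exact hpos (v 0) (Y K - Y 0) hv haccK.bY

end Pool.Agent.Hhelper30.Forsythe
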