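import Pool.Agent.Hhelper30.Forsythe.Exist2

/-! Module C of the counterexample to Forsythe's conjecture: existence of families of backward
orbits with prescribed initial pair, and closeness to the reference. -/

set_option autoImplicit false

namespace Pool.Agent.Hhelper30.Forsythe

open Filter Topology Set Polynomial

def EvenH (h : Fin 3 → ℝ) : Prop :=
  (-10 < h 0 ∧ h 0 < -6) ∧ (-3 < h 1 ∧ h 1 < 3) ∧ (5 < h 2 ∧ h 2 < 6)
def OddH (h : Fin 3 → ℝ) : Prop :=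
  (-6 < h 0 ∧ h 0 < -5) ∧ (-3 < h 1 ∧ h 1 < 3) ∧ (6 < h 2 ∧ h 2 < 10)

/-- the monic polynomial of degree `8` with prescribed values at the nodes -/
noncomputable def Fpoly (ρ : Fin 8 → ℝ) : ℝ[X] :=
  Lagrange.nodal Finset.univ nd + Lagrange.interpolate Finset.univ nd ρ

theorem Fpoly_eval_nd (ρ : Fin 8 → ℝ) (i : Fin 8) : (Fpoly ρ).eval (nd i) = ρ i := by
  unfold Fpoly
  rw [Polynomial.eval_add, Lagrange.eval_nodal_at_node (Finset.mem_univ i),
    Lagrange.eval_interpolate_at_node _ nd_inj.injOn (Finset.mem_univ i), zero_add]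

theorem interp_degree (ρ : Fin 8 → ℝ) :
    (Lagrange.interpolate Finset.univ nd ρ).degree < 8 := by
  have := Lagrange.degree_interpolate_lt (s := (Finset.univ : Finset (Fin 8))) (v := nd)
    ρ nd_inj.injOn
  rw [Finset.card_univ, Fintype.card_fin] at this
  exact this

theorem nodal_degree : (Lagrange.nodal (Finset.univ : Finset (Fin 8)) nd).degree = 8 := by
  rw [Lagrange.degree_nodal]
  rfl

theorem Fpoly_monic (ρ : Fin 8 → ℝ) : (Fpoly ρ).Monic := by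
  unfold Fpoly
  apply Polynomial.Monic.add_of_left Lagrange.nodal_monic
  rw [nodal_degree]
  exact interp_degree ρ

theorem Fpoly_natDegree (ρ : Fin 8 → ℝ) : (Fpoly ρ).natDegree = 8 := by
  unfold Fpoly
  rw [Polynomial.natDegree_add_eq_left_of_degree_lt, Lagrange.natDegree_nodal]
  · rfl
  · rw [nodal_degree]
    exact interp_degree ρ

/-- Lagrange basis polynomials evaluated -/
noncomputable def Lf (i : Fin 8) (z : ℝ) : ℝ :=
  (Lagrange.basis (Finset.univ : Finset (Fin 8)) nd i).eval z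

theorem Lf_cont (i : Fin 8) : Continuous (Lf i) := Polynomial.continuous _

theorem Fpoly_eval (ρ : Fin 8 → ℝ) (z : ℝ) :
    (Fpoly ρ).eval z = Pi8 z + ∑ i, ρ i * Lf i z := by
  unfold Fpoly Lf
  rw [Polynomial.eval_add, Lagrange.eval_nodal, Lagrange.interpolate_apply,
    Polynomial.eval_finsetSum]
  simp only [Polynomial.eval_mul, Polynomial.eval_C]
  congr 1
  rw [Fin.prod_univ_eight]
  simp [nd, Pi8]

theorem Lf_eq (i : Fin 8) (z : ℝ) : Lf i z = (∏ j : Fin 7, (z - nd (i.succAbove j))) / dPi8 i := by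
  have h2 : ∏ j : Fin 7, (z - nd (i.succAbove j)) = ∏ j ∈ Finset.univ.erase i, (z - nd j) := by
    have h1 : ∏ j ∈ Finset.univ.erase i, (z - nd j)
        = ∏ j ∈ Finset.univ.erase i, (if j = i then 1 else z - nd j) := by
      apply Finset.prod_congr rfl
      intro j hj
      rw [if_neg (Finset.ne_of_mem_erase hj)]
    rw [h1, Finset.prod_erase _ (by simp), Fin.prod_univ_succAbove _ i]
    simp
  rw [h2]
  unfold Lf Lagrange.basis dPi8
  rw [Polynomial.eval_prod, div_eq_mul_inv, ← Finset.prod_inv_distrib, ← Finset.prod_mul_distrib]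
  apply Finset.prod_congr rfl
  intro j _
  unfold Lagrange.basisDivisor
  simp
  ring

theorem F4_neg (ρ : Fin 8 → ℝ) (hρ : ∀ i, |ρ i| ≤ 2) : (Fpoly ρ).eval 4 < 0 := by
  rw [Fpoly_eval]
  have key : ∀ i, |Lf i 4| ≤ 10 := by
    intro i
    rw [Lf_eq, dPi8_succAbove]
    rw [abs_div, div_le_iff₀ (by
      apply abs_pos.mpr
      rw [← dPi8_succAbove]
      exact dPi8_ne i)]
    fin_cases i <;> simp [Fin.prod_univ_seven, nd, Fin.succAbove] <;> norm_num [abs_le, abs_mul]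
  have hsum : ∑ i, ρ i * Lf i 4 ≤ ∑ _i : Fin 8, (20 : ℝ) := by
    apply Finset.sum_le_sum
    intro i _
    calc ρ i * Lf i 4 ≤ |ρ i * Lf i 4| := le_abs_self _
      _ = |ρ i| * |Lf i 4| := abs_mul _ _
      _ ≤ 2 * 10 := mul_le_mul (hρ i) (key i) (abs_nonneg _) (by norm_num)
      _ = 20 := by norm_num
  have : Pi8 4 = -105840 := by norm_num [Pi8]
  rw [this]
  simp at hsum
  linarith

theorem Fm4_neg (ρ : Fin 8 → ℝ) (hρ : ∀ i, |ρ i| ≤ 2) : (Fpoly ρ).eval (-4) < 0 := by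
  rw [Fpoly_eval]
  have key : ∀ i, |Lf i (-4)| ≤ 10 := by
    intro i
    rw [Lf_eq, dPi8_succAbove]
    rw [abs_div, div_le_iff₀ (by
      apply abs_pos.mpr
      rw [← dPi8_succAbove]
      exact dPi8_ne i)]
    fin_cases i <;> simp [Fin.prod_univ_seven, nd, Fin.succAbove] <;> norm_num [abs_le, abs_mul]
  have hsum : ∑ i, ρ i * Lf i (-4) ≤ ∑ _i : Fin 8, (20 : ℝ) := by
    apply Finset.sum_le_sum
    intro i _
    calc ρ i * Lf i (-4) ≤ |ρ i * Lf i (-4)| := le_abs_self _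
      _ = |ρ i| * |Lf i (-4)| := abs_mul _ _
      _ ≤ 2 * 10 := mul_le_mul (hρ i) (key i) (abs_nonneg _) (by norm_num)
      _ = 20 := by norm_num
  have : Pi8 (-4) = -105840 := by norm_num [Pi8]
  rw [this]
  simp at hsum
  linarith

def fa : Fin 8 → ℝ := ![-10, -6, -5, -4, 3, 4, 5, 6]
def fb : Fin 8 → ℝ := ![-6, -5, -4, -3, 4, 5, 6, 10]

theorem fab_sep (j k : Fin 8) (h : j < k) : fb j ≤ fa k := by
  fin_cases j <;> fin_cases k <;> first | (exact absurd h (by decide)) | (norm_num [fa, fb])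

theorem fab_lt (j : Fin 8) : fa j < fb j := by
  fin_cases j <;> norm_num [fa, fb]

/-- sign conditions on the ratios -/
def IsRho (ρ : Fin 8 → ℝ) : Prop :=
  (∀ i, |ρ i| ≤ 2) ∧ 0 < ρ 0 ∧ ρ 1 < 0 ∧ 0 < ρ 2 ∧ 0 < ρ 3 ∧ 0 < ρ 4 ∧ 0 < ρ 5 ∧ ρ 6 < 0 ∧ 0 < ρ 7

theorem exists_fr (ρ : Fin 8 → ℝ) (hρ : IsRho ρ) :
    ∃ g : Fin 8 → ℝ, (∀ j, fa j < g j ∧ g j < fb j) ∧ ∀ z, (Fpoly ρ).eval z = ∏ j, (z - g j) := by
  obtain ⟨h2, h0, h1, h3, h4, h5, h6, h7, h8⟩ := hρ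
  have e0 : (Fpoly ρ).eval (-10) = ρ 0 := Fpoly_eval_nd ρ 0
  have e1 : (Fpoly ρ).eval (-6) = ρ 1 := Fpoly_eval_nd ρ 1
  have e2 : (Fpoly ρ).eval (-5) = ρ 2 := Fpoly_eval_nd ρ 2
  have e3 : (Fpoly ρ).eval (-3) = ρ 3 := Fpoly_eval_nd ρ 3
  have e4 : (Fpoly ρ).eval 3 = ρ 4 := Fpoly_eval_nd ρ 4
  have e5 : (Fpoly ρ).eval 5 = ρ 5 := Fpoly_eval_nd ρ 5
  have e6 : (Fpoly ρ).eval 6 = ρ 6 := Fpoly_eval_nd ρ 6
  have e7 : (Fpoly ρ).eval 10 = ρ 7 := Fpoly_eval_nd ρ 7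
  have f4 := F4_neg ρ h2
  have f4' := Fm4_neg ρ h2
  apply exists_gap_roots (Fpoly ρ) (Fpoly_monic ρ) (Fpoly_natDegree ρ) fa fb fab_lt fab_sep
  intro j
  fin_cases j <;> simp only [fa, fb] <;> simp [e0, e1, e2, e3, e4, e5, e6, e7]
  · exact mul_neg_of_pos_of_neg h0 h1
  · exact mul_neg_of_neg_of_pos h1 h3
  · exact mul_neg_of_pos_of_neg h3 f4'
  · exact mul_neg_of_neg_of_pos f4' h4
  · exact mul_neg_of_pos_of_neg h5 f4
  · exact mul_neg_of_neg_of_pos f4 h6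
  · exact mul_neg_of_pos_of_neg h6 h7
  · exact mul_neg_of_neg_of_pos h7 h8

open Classical in
/-- the eight roots of `Fpoly` -/
noncomputable def fr (ρ : Fin 8 → ℝ) : Fin 8 → ℝ :=
  if h : IsRho ρ then (exists_fr ρ h).choose else 0

theorem fr_gaps (ρ : Fin 8 → ℝ) (h : IsRho ρ) (j : Fin 8) : fa j < fr ρ j ∧ fr ρ j < fb j := by
  unfold fr
  rw [dif_pos h]
  exact (exists_fr ρ h).choose_spec.1 j

theorem fr_prod (ρ : Fin 8 → ℝ) (h : IsRho ρ) (z : ℝ) : (Fpoly ρ).eval z = ∏ j, (z - fr ρ j) := by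
  unfold fr
  rw [dif_pos h]
  exact (exists_fr ρ h).choose_spec.2 z

theorem fr_cont (s : Set ℝ) (ρ : ℝ → Fin 8 → ℝ) (hv : ∀ l ∈ s, IsRho (ρ l))
    (hc : ∀ i, ContinuousOn (fun l => ρ l i) s) (j : Fin 8) :
    ContinuousOn (fun l => fr (ρ l) j) s := by
  apply gap_roots_cont s fa fb fab_sep (fun l => fr (ρ l)) (fun l hl => fr_gaps _ (hv l hl))
  intro z
  have : ContinuousOn (fun l => (Fpoly (ρ l)).eval z) s := by
    simp only [Fpoly_eval]
    apply continuousOn_const.add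
    apply continuousOn_finsetSum
    intro i _
    exact (hc i).mul continuousOn_const
  exact this.congr (fun l hl => (fr_prod _ (hv l hl) z).symm)

theorem ratio_isRho (h0 h1 : Fin 3 → ℝ) (he : EvenH h0) (ho : OddH h1)
    (hb : ∀ i, |C3 h0 (nd i) / C3 h1 (nd i)| ≤ 2) :
    IsRho (fun i => C3 h0 (nd i) / C3 h1 (nd i)) := by
  obtain ⟨⟨a1, a2⟩, ⟨b1, b2⟩, ⟨c1, c2⟩⟩ := he
  obtain ⟨⟨d1, d2⟩, ⟨e1, e2⟩, ⟨f1, f2⟩⟩ := ho
  refine ⟨hb, ?_, ?_, ?_, ?_, ?_, ?_, ?_, ?_⟩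
  · have n1 : C3 h0 (nd 0) < 0 := by
      simp only [C3, nd, Matrix.cons_val]
      exact mul_neg_of_pos_of_neg (mul_pos_of_neg_of_neg (by linarith) (by linarith)) (by linarith)
    have n2 : C3 h1 (nd 0) < 0 := by
      simp only [C3, nd, Matrix.cons_val]
      exact mul_neg_of_pos_of_neg (mul_pos_of_neg_of_neg (by linarith) (by linarith)) (by linarith)
    exact div_pos_of_neg_of_neg n1 n2
  · have n1 : 0 < C3 h0 (nd 1) := by
      simp only [C3, nd, Matrix.cons_val]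
      exact mul_pos_of_neg_of_neg (mul_neg_of_pos_of_neg (by linarith) (by linarith)) (by linarith)
    have n2 : C3 h1 (nd 1) < 0 := by
      simp only [C3, nd, Matrix.cons_val]
      exact mul_neg_of_pos_of_neg (mul_pos_of_neg_of_neg (by linarith) (by linarith)) (by linarith)
    exact div_neg_of_pos_of_neg n1 n2
  · have n1 : 0 < C3 h0 (nd 2) := by
      simp only [C3, nd, Matrix.cons_val]
      exact mul_pos_of_neg_of_neg (mul_neg_of_pos_of_neg (by linarith) (by linarith)) (by linarith)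
    have n2 : 0 < C3 h1 (nd 2) := by
      simp only [C3, nd, Matrix.cons_val]
      exact mul_pos_of_neg_of_neg (mul_neg_of_pos_of_neg (by linarith) (by linarith)) (by linarith)
    exact div_pos n1 n2
  · have n1 : 0 < C3 h0 (nd 3) := by
      simp only [C3, nd, Matrix.cons_val]
      exact mul_pos_of_neg_of_neg (mul_neg_of_pos_of_neg (by linarith) (by linarith)) (by linarith)
    have n2 : 0 < C3 h1 (nd 3) := by
      simp only [C3, nd, Matrix.cons_val]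
      exact mul_pos_of_neg_of_neg (mul_neg_of_pos_of_neg (by linarith) (by linarith)) (by linarith)
    exact div_pos n1 n2
  · have n1 : C3 h0 (nd 4) < 0 := by
      simp only [C3, nd, Matrix.cons_val]
      exact mul_neg_of_pos_of_neg (mul_pos (by linarith) (by linarith)) (by linarith)
    have n2 : C3 h1 (nd 4) < 0 := by
      simp only [C3, nd, Matrix.cons_val]
      exact mul_neg_of_pos_of_neg (mul_pos (by linarith) (by linarith)) (by linarith)
    exact div_pos_of_neg_of_neg n1 n2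
  · have n1 : C3 h0 (nd 5) < 0 := by
      simp only [C3, nd, Matrix.cons_val]
      exact mul_neg_of_pos_of_neg (mul_pos (by linarith) (by linarith)) (by linarith)
    have n2 : C3 h1 (nd 5) < 0 := by
      simp only [C3, nd, Matrix.cons_val]
      exact mul_neg_of_pos_of_neg (mul_pos (by linarith) (by linarith)) (by linarith)
    exact div_pos_of_neg_of_neg n1 n2
  · have n1 : 0 < C3 h0 (nd 6) := by
      simp only [C3, nd, Matrix.cons_val]
      exact mul_pos (mul_pos (by linarith) (by linarith)) (by linarith)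
    have n2 : C3 h1 (nd 6) < 0 := by
      simp only [C3, nd, Matrix.cons_val]
      exact mul_neg_of_pos_of_neg (mul_pos (by linarith) (by linarith)) (by linarith)
    exact div_neg_of_pos_of_neg n1 n2
  · have n1 : 0 < C3 h0 (nd 7) := by
      simp only [C3, nd, Matrix.cons_val]
      exact mul_pos (mul_pos (by linarith) (by linarith)) (by linarith)
    have n2 : 0 < C3 h1 (nd 7) := by
      simp only [C3, nd, Matrix.cons_val]
      exact mul_pos (mul_pos (by linarith) (by linarith)) (by linarith)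
    exact div_pos n1 n2

theorem C3_odd_ne (h1 : Fin 3 → ℝ) (ho : OddH h1) (i : Fin 8) : C3 h1 (nd i) ≠ 0 := by
  obtain ⟨⟨d1, d2⟩, ⟨e1, e2⟩, ⟨f1, f2⟩⟩ := ho
  unfold C3
  refine mul_ne_zero (mul_ne_zero ?_ ?_) ?_
  · fin_cases i <;> simp only [nd] <;> intro h <;> simp at h <;> linarith
  · fin_cases i <;> simp only [nd] <;> intro h <;> simp at h <;> linarith
  · fin_cases i <;> simp only [nd] <;> intro h <;> simp at h <;> linarith

def g0Of (q : Fin 8 → ℝ) (h0 : Fin 3 → ℝ) : Fin 7 → ℝ :=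
  ![h0 0, q 1, q 2, h0 1, q 4, h0 2, q 7]
def g1Of (q : Fin 8 → ℝ) (h1 : Fin 3 → ℝ) : Fin 7 → ℝ :=
  ![q 0, h1 0, q 3, h1 1, q 5, q 6, h1 2]

theorem g0Of_gaps (q : Fin 8 → ℝ) (h0 : Fin 3 → ℝ) (hq : ∀ j, fa j < q j ∧ q j < fb j)
    (he : EvenH h0) : InGaps (g0Of q h0) := by
  obtain ⟨⟨a1, a2⟩, ⟨b1, b2⟩, ⟨c1, c2⟩⟩ := he
  have q1 := hq 1
  have q2 := hq 2
  have q4 := hq 4
  have q7 := hq 7
  simp [fa, fb] at q1 q2 q4 q7
  intro j
  fin_cases j <;> simp [g0Of, nd] <;> constructor <;> linarith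

theorem g1Of_gaps (q : Fin 8 → ℝ) (h1 : Fin 3 → ℝ) (hq : ∀ j, fa j < q j ∧ q j < fb j)
    (he : OddH h1) : InGaps (g1Of q h1) := by
  obtain ⟨⟨a1, a2⟩, ⟨b1, b2⟩, ⟨c1, c2⟩⟩ := he
  have q0 := hq 0
  have q3 := hq 3
  have q5 := hq 5
  have q6 := hq 6
  simp [fa, fb] at q0 q3 q5 q6
  intro j
  fin_cases j <;> simp [g1Of, nd] <;> constructor <;> linarith

theorem pOf_g0 (q : Fin 8 → ℝ) (h0 : Fin 3 → ℝ) : pOf 0 (g0Of q h0) = ![q 1, q 2, q 4, q 7] := by
  unfold pOf g0Of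
  rw [if_pos rfl]
  simp

theorem hOf_g0 (q : Fin 8 → ℝ) (h0 : Fin 3 → ℝ) : hOf 0 (g0Of q h0) = h0 := by
  unfold hOf g0Of
  rw [if_pos rfl]
  funext j
  fin_cases j <;> simp

theorem pOf_g1 (q : Fin 8 → ℝ) (h1 : Fin 3 → ℝ) : pOf 1 (g1Of q h1) = ![q 0, q 3, q 5, q 6] := by
  unfold pOf g1Of
  rw [if_neg (by norm_num)]
  simp

theorem hOf_g1 (q : Fin 8 → ℝ) (h1 : Fin 3 → ℝ) : hOf 1 (g1Of q h1) = h1 := by
  unfold hOf g1Of
  rw [if_neg (by norm_num)]
  funext j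
  fin_cases j <;> simp

theorem first_step (h0 h1 : Fin 3 → ℝ) (he : EvenH h0) (ho : OddH h1)
    (hb : ∀ i, |C3 h0 (nd i) / C3 h1 (nd i)| ≤ 2) :
    let q := fr (fun i => C3 h0 (nd i) / C3 h1 (nd i))
    sgOf 0 (wOf (g0Of q h0)) = 1 ∧ nextW 0 (wOf (g0Of q h0)) = wOf (g1Of q h1) := by
  intro q
  have hρ := ratio_isRho h0 h1 he ho hb
  have hq : ∀ j, fa j < q j ∧ q j < fb j := fr_gaps _ hρ
  have hg0 := g0Of_gaps q h0 hq he
  have hg1 := g1Of_gaps q h1 hq ho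
  have hw0 := wOf_isW _ hg0
  have hterm : ∀ i, wOf (g0Of q h0) i / Q4 (pOf 0 (gr (wOf (g0Of q h0)))) (nd i) ^ 2
      = wOf (g1Of q h1) i := by
    intro i
    have hne := Q4_ne 0 _ hw0 i
    rw [gr_wOf _ hg0] at hne ⊢
    unfold wOf
    rw [← pOf_hOf 0 (g0Of q h0), ← pOf_hOf 1 (g1Of q h1), hOf_g0, hOf_g1]
    have h3 := fr_prod _ hρ (nd i)
    rw [Fpoly_eval_nd, Fin.prod_univ_eight, div_eq_iff (C3_odd_ne h1 ho i)] at h3
    have h4 : C3 h0 (nd i) = Q4 (pOf 0 (g0Of q h0)) (nd i) * Q4 (pOf 1 (g1Of q h1)) (nd i)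
        * C3 h1 (nd i) := by
      rw [h3, pOf_g0, pOf_g1]
      simp only [Q4, Matrix.cons_val]
      ring
    rw [h4]
    have hd := dPi8_ne i
    field_simp
  have hsg : sgOf 0 (wOf (g0Of q h0)) = 1 := by
    unfold sgOf
    rw [Finset.sum_congr rfl (fun i _ => hterm i), (wOf_isW _ hg1).2, inv_one]
  refine ⟨hsg, ?_⟩
  funext i
  unfold nextW
  rw [hsg, one_mul, hterm]

/-- (Note `P_0 P_1 = Π + interp(H_0/H_1)` is negative at `±4` as soon as the values `H_0/H_1 (nd i)`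
are bounded by `2`.) -/
theorem exists_family (l0 l1 : ℝ) (h0 h1 : ℝ → Fin 3 → ℝ)
    (hc0 : ∀ j, ContinuousOn (fun l => h0 l j) (Icc l0 l1))
    (hc1 : ∀ j, ContinuousOn (fun l => h1 l j) (Icc l0 l1))
    (he : ∀ l ∈ Icc l0 l1, EvenH (h0 l)) (ho : ∀ l ∈ Icc l0 l1, OddH (h1 l))
    (hb : ∀ l ∈ Icc l0 l1, ∀ i, |C3 (h0 l) (nd i) / C3 (h1 l) (nd i)| ≤ 2) :
    ∃ O : ℝ → BackOrbit,
      (∀ l ∈ Icc l0 l1, (O l).h 0 = h0 l ∧ (O l).h 1 = h1 l ∧ (O l).sg 0 = 1 ∧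
        (O l).p 0 1 < -4 ∧ (O l).p 0 2 < 4 ∧ -4 < (O l).p 1 1 ∧ 4 < (O l).p 1 2) ∧
      (∀ t j, ContinuousOn (fun l => (O l).p t j) (Icc l0 l1)) ∧
      (∀ t j, ContinuousOn (fun l => (O l).h t j) (Icc l0 l1)) ∧
      (∀ t, ContinuousOn (fun l => (O l).sg t) (Icc l0 l1)) := by
  set ρ : ℝ → Fin 8 → ℝ := fun l i => C3 (h0 l) (nd i) / C3 (h1 l) (nd i) with hρdef
  have hρ : ∀ l ∈ Icc l0 l1, IsRho (ρ l) := fun l hl =>
    ratio_isRho _ _ (he l hl) (ho l hl) (hb l hl)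
  have hρc : ∀ i, ContinuousOn (fun l => ρ l i) (Icc l0 l1) := by
    intro i
    apply (C3_cont _ _ hc0 _).div (C3_cont _ _ hc1 _)
    intro l hl
    exact C3_odd_ne _ (ho l hl) i
  have hqc : ∀ j, ContinuousOn (fun l => fr (ρ l) j) (Icc l0 l1) := fr_cont _ ρ hρ hρc
  have hg0 : ∀ l ∈ Icc l0 l1, InGaps (g0Of (fr (ρ l)) (h0 l)) := fun l hl =>
    g0Of_gaps _ _ (fr_gaps _ (hρ l hl)) (he l hl)
  have hg1 : ∀ l ∈ Icc l0 l1, InGaps (g1Of (fr (ρ l)) (h1 l)) := fun l hl =>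
    g1Of_gaps _ _ (fr_gaps _ (hρ l hl)) (ho l hl)
  set v : ℝ → Fin 8 → ℝ := fun l => wOf (g0Of (fr (ρ l)) (h0 l)) with hvdef
  have hv : ∀ l ∈ Icc l0 l1, IsW (v l) := fun l hl => wOf_isW _ (hg0 l hl)
  have hg0c : ∀ j, ContinuousOn (fun l => g0Of (fr (ρ l)) (h0 l) j) (Icc l0 l1) := by
    intro j
    fin_cases j <;> simp only [g0Of] <;> simp <;> first | apply hqc | apply hc0
  have hvc : ∀ i, ContinuousOn (fun l => v l i) (Icc l0 l1) := by
    intro i
    simp only [hvdef, wOf]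
    apply ContinuousOn.div_const
    apply continuousOn_finsetProd
    intro j _
    exact continuousOn_const.sub (hg0c j)
  have hWc := Wseq_cont (Icc l0 l1) v hv hvc
  have hWW : ∀ t, ∀ l ∈ Icc l0 l1, IsW (Wseq (v l) t) := fun t l hl => Wseq_isW _ (hv l hl) t
  refine ⟨fun l => mkOrbit' (v l), ?_, ?_, ?_, ?_⟩
  · intro l hl
    have hfs := first_step (h0 l) (h1 l) (he l hl) (ho l hl) (hb l hl)
    simp only at hfs
    obtain ⟨hs1, hs2⟩ := hfs
    have hfr := fr_gaps _ (hρ l hl)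
    have hW1 : Wseq (v l) 1 = wOf (g1Of (fr (ρ l)) (h1 l)) := hs2
    have hW0 : Wseq (v l) 0 = wOf (g0Of (fr (ρ l)) (h0 l)) := rfl
    simp only [mkOrbit'_p _ (hv l hl), mkOrbit'_h _ (hv l hl), mkOrbit'_sg _ (hv l hl), hW1, hW0,
      gr_wOf _ (hg0 l hl), gr_wOf _ (hg1 l hl), pOf_g0, pOf_g1, hOf_g0, hOf_g1]
    have f2 := hfr 2
    have f4 := hfr 4
    have f3 := hfr 3
    have f5 := hfr 5
    simp [fa, fb] at f2 f4 f3 f5
    refine ⟨trivial, trivial, hs1, ?_, ?_, ?_, ?_⟩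
    · simpa using f2.2
    · simpa using f4.2
    · simpa using f3.1
    · simpa using f5.1
  · intro t j
    have := pOf_cont (Icc l0 l1) t _ (gr_cont _ (fun l => Wseq (v l) t) (hWW t) (hWc t)) j
    exact this.congr (fun l hl => by simp only [mkOrbit'_p _ (hv l hl)])
  · intro t j
    have := hOf_cont (Icc l0 l1) t _ (gr_cont _ (fun l => Wseq (v l) t) (hWW t) (hWc t)) j
    exact this.congr (fun l hl => by simp only [mkOrbit'_h _ (hv l hl)])
  · intro t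
    have := sgOf_cont (Icc l0 l1) t (fun l => Wseq (v l) t) (hWW t) (hWc t)
    exact this.congr (fun l hl => by simp only [mkOrbit'_sg _ (hv l hl)])

/-- sign pattern: `+1` on `Z⁺`, `-1` at `±6` -/
def sgnd : Fin 8 → ℝ := ![1, -1, 1, 1, 1, 1, -1, 1]

theorem prod8_eq (a : Fin 8 → ℝ) (z : ℝ) :
    ∏ j, (z - a j) = Pi8 z + ∑ i, (∏ j, (nd i - a j)) * Lf i z := by
  have : Lagrange.nodal (Finset.univ : Finset (Fin 8)) a = Fpoly (fun i => ∏ j, (nd i - a j)) := by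
    have hm1 : (Lagrange.nodal (Finset.univ : Finset (Fin 8)) a).Monic := Lagrange.nodal_monic
    have hm2 := Fpoly_monic (fun i => ∏ j, (nd i - a j))
    refine Polynomial.eq_of_degree_le_of_eval_index_eq (v := nd) (Finset.univ : Finset (Fin 8))
      nd_inj.injOn ?_ ?_ ?_ ?_
    · rw [Lagrange.degree_nodal]
    · rw [Lagrange.degree_nodal, Polynomial.degree_eq_natDegree hm2.ne_zero, Fpoly_natDegree]
      rfl
    · rw [hm1.leadingCoeff, hm2.leadingCoeff]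
    · intro i _
      rw [Fpoly_eval_nd, Lagrange.eval_nodal]
  rw [← Lagrange.eval_nodal, this, Fpoly_eval]

/-- the eight reference roots in increasing order -/
def rs (r : Fin 4 → ℝ) : Fin 8 → ℝ := ![-r 3, -r 2, -r 1, -r 0, r 0, r 1, r 2, r 3]

theorem rs_gaps (r : Fin 4 → ℝ) (hr : IsRef r) (j : Fin 8) : fa j < rs r j ∧ rs r j < fb j := by
  obtain ⟨⟨a1, a2⟩, ⟨b1, b2⟩, ⟨c1, c2⟩, ⟨d1, d2⟩, _⟩ := hr
  fin_cases j <;> simp [fa, fb, rs] <;> constructor <;> linarith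

theorem Fref_eq_exist (r : Fin 4 → ℝ) (hr : IsRef r) (t : ℝ) :
    Fref t = (t - r 0 ^ 2) * (t - r 1 ^ 2) * (t - r 2 ^ 2) * (t - r 3 ^ 2) := by
  obtain ⟨⟨a1, a2⟩, ⟨b1, b2⟩, ⟨c1, c2⟩, ⟨d1, d2⟩, hroot⟩ := hr
  set P : ℝ[X] := (X - C 9) * (X - C 25) * (X - C 100) * (X - C (36 - 1 / 9504)) + C 1 with hP
  have hmm : ((X - C 9) * (X - C 25) * (X - C 100) * (X - C (36 - 1 / 9504)) : ℝ[X]).Monic :=
    (((monic_X_sub_C _).mul (monic_X_sub_C _)).mul (monic_X_sub_C _)).mul (monic_X_sub_C _)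
  have hnd : ((X - C 9) * (X - C 25) * (X - C 100) * (X - C (36 - 1 / 9504)) : ℝ[X]).natDegree
      = 4 := by
    rw [Monic.natDegree_mul (((monic_X_sub_C _).mul (monic_X_sub_C _)).mul (monic_X_sub_C _))
      (monic_X_sub_C _), Monic.natDegree_mul ((monic_X_sub_C _).mul (monic_X_sub_C _))
      (monic_X_sub_C _), Monic.natDegree_mul (monic_X_sub_C _) (monic_X_sub_C _)]
    simp only [natDegree_X_sub_C]
  have hdeg : (C (1 : ℝ)).degree
      < ((X - C 9) * (X - C 25) * (X - C 100) * (X - C (36 - 1 / 9504)) : ℝ[X]).degree := by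
    rw [degree_eq_natDegree hmm.ne_zero, hnd, degree_C one_ne_zero]
    norm_cast
  have hPm : P.Monic := hmm.add_of_left hdeg
  have hPd : P.natDegree = 4 := by
    rw [hP, natDegree_add_eq_left_of_degree_lt hdeg, hnd]
  have hev : ∀ t, P.eval t = Fref t := by
    intro t
    simp only [hP, Fref, eval_add, eval_mul, eval_sub, eval_X, eval_C]
    ring
  have hinj : Set.InjOn (fun j => r j ^ 2) (Finset.univ : Finset (Fin 4)) := by
    have s1 : r 0 ^ 2 < r 1 ^ 2 := by nlinarith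
    have s2 : r 1 ^ 2 < r 2 ^ 2 := by nlinarith
    have s3 : r 2 ^ 2 < r 3 ^ 2 := by nlinarith
    intro i _ j _ hij
    simp only at hij
    fin_cases i <;> fin_cases j <;> first | rfl | (exfalso; simp at hij; linarith)
  have hPn : P = Lagrange.nodal (Finset.univ : Finset (Fin 4)) (fun j => r j ^ 2) := by
    refine Polynomial.eq_of_degree_le_of_eval_index_eq (v := fun j => r j ^ 2)
      (Finset.univ : Finset (Fin 4)) hinj ?_ ?_ ?_ ?_
    · rw [degree_eq_natDegree hPm.ne_zero, hPd]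
      rfl
    · rw [Lagrange.degree_nodal, degree_eq_natDegree hPm.ne_zero, hPd]
      rfl
    · rw [hPm.leadingCoeff, (Lagrange.nodal_monic).leadingCoeff]
    · intro i _
      rw [hev, hroot i]
      exact (Lagrange.eval_nodal_at_node (v := fun j => r j ^ 2) (Finset.mem_univ i)).symm
  rw [← hev, hPn, Lagrange.eval_nodal, Fin.prod_univ_four]

theorem rs_prod (r : Fin 4 → ℝ) (hr : IsRef r) (z : ℝ) : ∏ j, (z - rs r j) = Fref (z ^ 2) := by
  rw [Fref_eq_exist r hr, Fin.prod_univ_eight]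
  simp [rs]
  ring

theorem rs_nd (r : Fin 4 → ℝ) (hr : IsRef r) (i : Fin 8) : ∏ j, (nd i - rs r j) = sgnd i := by
  rw [rs_prod r hr]
  fin_cases i <;> norm_num [nd, sgnd, Fref]

/-- the eight roots of a pair of states in increasing order -/
def qO (O : BackOrbit) : Fin 8 → ℝ :=
  ![O.p 1 0, O.p 0 0, O.p 0 1, O.p 1 1, O.p 0 2, O.p 1 2, O.p 1 3, O.p 0 3]

theorem qO_prod (O : BackOrbit) (z : ℝ) :
    ∏ j, (z - qO O j) = Q4 (O.p 0) z * Q4 (O.p 1) z := by
  rw [Fin.prod_univ_eight]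
  simp [qO, Q4]
  ring

theorem near_of_ratio (r : Fin 4 → ℝ) (hr : IsRef r) (δ : ℝ) (hδ : 0 < δ) :
    ∃ δ' > 0, ∀ O : BackOrbit, O.sg 0 = 1 → O.p 0 1 < -4 → O.p 0 2 < 4 → -4 < O.p 1 1 →
      4 < O.p 1 2 → (∀ i, |C3 (O.h 0) (nd i) / C3 (O.h 1) (nd i) - sgnd i| ≤ δ') →
      Near r δ O := by
  -- bound for the Lebesgue function
  obtain ⟨M, hM⟩ : ∃ M, ∀ z ∈ Icc (-10 : ℝ) 10, ∑ i, |Lf i z| ≤ M := by
    have hcont : Continuous (fun z => ∑ i, |Lf i z|) :=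
      continuous_finsetSum _ (fun i _ => (Lf_cont i).abs)
    obtain ⟨M, hM⟩ := (isCompact_Icc (a := (-10 : ℝ)) (b := 10)).bddAbove_image
      hcont.continuousOn
    exact ⟨M, fun z hz => hM ⟨z, hz, rfl⟩⟩
  have hM0 : 0 ≤ M := le_trans (Finset.sum_nonneg (fun i _ => abs_nonneg _))
    (hM 0 ⟨by norm_num, by norm_num⟩)
  have hgap := rs_gaps r hr
  -- closeness of roots
  have hcl : ∀ j, ∃ c > 0, ∀ z ∈ Icc (fa j) (fb j), |∏ k, (z - rs r k)| < c →
      |z - rs r j| ≤ δ := by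
    intro j
    apply root_close (fun z => ∏ k, (z - rs r k)) (by fun_prop) (fa j) (fb j) (rs r j) _ δ hδ
    intro z hz hne
    apply Finset.prod_ne_zero_iff.mpr
    intro k _
    rcases lt_trichotomy k j with h | h | h
    · have := fab_sep k j h
      have := (hgap k).2
      have := hz.1
      intro h0
      linarith
    · subst h
      exact sub_ne_zero.mpr hne
    · have := fab_sep j k h
      have := (hgap k).1
      have := hz.2
      intro h0
      linarith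
  choose c hc0 hc using hcl
  obtain ⟨c0, hc0p, hc0le⟩ : ∃ c0 > 0, ∀ j, c0 ≤ c j := by
    refine ⟨Finset.univ.inf' Finset.univ_nonempty c, ?_, fun j => Finset.inf'_le _
      (Finset.mem_univ j)⟩
    rw [gt_iff_lt, Finset.lt_inf'_iff]
    intro j _
    exact hc0 j
  refine ⟨c0 / (2 * (M + 1)), by positivity, ?_⟩
  intro O hsg p01 p02 p11 p12 hclose
  have hev := O.even 0
  have hod := O.odd 0
  simp only [Nat.mul_zero, Nat.zero_add] at hev hod
  have hqgap : ∀ j, fa j < qO O j ∧ qO O j < fb j := by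
    obtain ⟨⟨a1, a2⟩, ⟨b1, b2⟩, ⟨c1, c2⟩, ⟨d1, d2⟩, _, _, _⟩ := hev
    obtain ⟨⟨a1', a2'⟩, ⟨b1', b2'⟩, ⟨c1', c2'⟩, ⟨d1', d2'⟩, _, _, _⟩ := hod
    intro j
    fin_cases j <;> simp [fa, fb, qO] <;> constructor <;> linarith
  have hOdd : OddH (O.h 1) := ⟨hod.h0, hod.h1, hod.h2⟩
  have hval : ∀ i, ∏ j, (nd i - qO O j) = C3 (O.h 0) (nd i) / C3 (O.h 1) (nd i) := by
    intro i
    rw [qO_prod, eq_div_iff (C3_odd_ne _ hOdd i)]
    have := O.rel 0 i
    rw [hsg, one_mul] at this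
    simpa using this
  have hdiff : ∀ z ∈ Icc (-10 : ℝ) 10, |(∏ j, (z - rs r j)) - ∏ j, (z - qO O j)| < c0 := by
    intro z hz
    rw [prod8_eq (rs r), prod8_eq (qO O)]
    simp only [rs_nd r hr, hval]
    have e1 : (Pi8 z + ∑ i, sgnd i * Lf i z)
        - (Pi8 z + ∑ i, C3 (O.h 0) (nd i) / C3 (O.h 1) (nd i) * Lf i z)
        = -∑ i, (C3 (O.h 0) (nd i) / C3 (O.h 1) (nd i) - sgnd i) * Lf i z := by
      simp only [sub_mul, Finset.sum_sub_distrib]
      ring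
    rw [e1, abs_neg]
    calc |∑ i, (C3 (O.h 0) (nd i) / C3 (O.h 1) (nd i) - sgnd i) * Lf i z|
        ≤ ∑ i, |(C3 (O.h 0) (nd i) / C3 (O.h 1) (nd i) - sgnd i) * Lf i z| :=
          Finset.abs_sum_le_sum_abs _ _
      _ ≤ ∑ i, c0 / (2 * (M + 1)) * |Lf i z| := by
          apply Finset.sum_le_sum
          intro i _
          rw [abs_mul]
          exact mul_le_mul_of_nonneg_right (hclose i) (abs_nonneg _)
      _ = c0 / (2 * (M + 1)) * ∑ i, |Lf i z| := by rw [Finset.mul_sum]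
      _ ≤ c0 / (2 * (M + 1)) * M := by
          apply mul_le_mul_of_nonneg_left (hM z hz)
          positivity
      _ < c0 := by
          rw [div_mul_eq_mul_div, div_lt_iff₀ (by positivity)]
          nlinarith
  have hfin : ∀ j, |qO O j - rs r j| ≤ δ := by
    intro j
    have hj := hqgap j
    apply hc j _ ⟨hj.1.le, hj.2.le⟩
    have hz : qO O j ∈ Icc (-10 : ℝ) 10 := by
      have h1 : -10 ≤ fa j := by fin_cases j <;> norm_num [fa]
      have h2 : fb j ≤ 10 := by fin_cases j <;> norm_num [fb]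
      exact ⟨by linarith, by linarith⟩
    have := hdiff _ hz
    rw [Finset.prod_eq_zero (f := fun k => qO O j - qO O k) (Finset.mem_univ j) (sub_self _),
      sub_zero] at this
    exact lt_of_lt_of_le this (hc0le j)
  have f0 := hfin 0
  have f1 := hfin 1
  have f2 := hfin 2
  have f3 := hfin 3
  have f4 := hfin 4
  have f5 := hfin 5
  have f6 := hfin 6
  have f7 := hfin 7
  simp [qO, rs] at f0 f1 f2 f3 f4 f5 f6 f7
  constructor
  · intro j
    fin_cases j <;> simp [pe] <;> assumption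
  · intro j
    fin_cases j <;> simp [po] <;> assumption
  · rw [hsg]
    simp [hδ.le]

end Pool.Agent.Hhelper30.Forsythe
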