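import Pool.Agent.Hhelper30.Forsythe.RS

/-! Module C of the counterexample to Forsythe's conjecture: generic lemmas on roots in gaps. -/

set_option autoImplicit false

namespace Pool.Agent.Hhelper30.Forsythe

open Filter Topology Set Polynomial

/-- monic polynomial with sign changes on `n` separated intervals splits, one root in each -/
theorem exists_gap_roots {n : ℕ} (f : ℝ[X]) (hf : f.Monic) (hd : f.natDegree = n)
    (a b : Fin n → ℝ) (hab : ∀ j, a j < b j) (hsep : ∀ j k, j < k → b j ≤ a k)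
    (hs : ∀ j, f.eval (a j) * f.eval (b j) < 0) :
    ∃ g : Fin n → ℝ, (∀ j, a j < g j ∧ g j < b j) ∧ ∀ z, f.eval z = ∏ j, (z - g j) := by
  have key : ∀ j, ∃ x, (a j < x ∧ x < b j) ∧ f.eval x = 0 := by
    intro j
    have hc : ContinuousOn (fun x => f.eval x) (Icc (a j) (b j)) := f.continuous.continuousOn
    rcases mul_neg_iff.mp (hs j) with ⟨h1, h2⟩ | ⟨h1, h2⟩
    · obtain ⟨x, hx, hx'⟩ := intermediate_value_Ioo' (hab j).le hc (show (0:ℝ) ∈ _ from ⟨h2, h1⟩)
      exact ⟨x, hx, hx'⟩
    · obtain ⟨x, hx, hx'⟩ := intermediate_value_Ioo (hab j).le hc (show (0:ℝ) ∈ _ from ⟨h1, h2⟩)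
      exact ⟨x, hx, hx'⟩
  choose g hg hg0 using key
  refine ⟨g, hg, ?_⟩
  have hinj : Set.InjOn g (Finset.univ : Finset (Fin n)) := by
    intro j _ k _ hjk
    by_contra hne
    rcases lt_or_gt_of_ne hne with h | h
    · have := hsep j k h
      linarith [(hg j).2, (hg k).1]
    · have := hsep k j h
      linarith [(hg k).2, (hg j).1]
  have hnod : f = Lagrange.nodal Finset.univ g := by
    refine Polynomial.eq_of_degree_le_of_eval_index_eq (v := g) Finset.univ hinj ?_ ?_ ?_ ?_
    · rw [Polynomial.degree_eq_natDegree hf.ne_zero, hd]; simp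
    · rw [Lagrange.degree_nodal, Polynomial.degree_eq_natDegree hf.ne_zero, hd]; simp
    · rw [hf.leadingCoeff, (Lagrange.nodal_monic).leadingCoeff]
    · intro i _
      rw [hg0, Lagrange.eval_nodal_at_node (Finset.mem_univ i)]
  intro z
  rw [hnod, Lagrange.eval_nodal]

/-- two functions `∏ (z - g j)` with `g j` in the same gaps: sign comparison -/
theorem prod_sign {n : ℕ} (a b : Fin n → ℝ) (hsep : ∀ j k, j < k → b j ≤ a k)
    (g g' : Fin n → ℝ) (hg : ∀ j, a j < g j ∧ g j < b j) (hg' : ∀ j, a j < g' j ∧ g' j < b j)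
    (j : Fin n) (z : ℝ) (hz : a j < z ∧ z < b j)
    (h : 0 < (∏ k, (z - g' k)) * ∏ k, (z - g k)) : 0 < (z - g' j) * (z - g j) := by
  rw [← Finset.prod_mul_distrib, ← Finset.mul_prod_erase Finset.univ _ (Finset.mem_univ j)] at h
  have hpos : 0 < ∏ k ∈ Finset.univ.erase j, ((z - g' k) * (z - g k)) := by
    apply Finset.prod_pos
    intro k hk
    have hne : k ≠ j := Finset.ne_of_mem_erase hk
    rcases lt_or_gt_of_ne hne with h | h
    · have h1 := hsep k j h
      have h2 := (hg k).2
      have h3 := (hg' k).2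
      exact mul_pos (by linarith) (by linarith)
    · have h1 := hsep j k h
      have h2 := (hg k).1
      have h3 := (hg' k).1
      exact mul_pos_of_neg_of_neg (by linarith) (by linarith)
  exact (pos_iff_pos_of_mul_pos h).mpr hpos

/-- uniqueness of the roots in the gaps -/
theorem gap_roots_unique {n : ℕ} (a b : Fin n → ℝ) (hsep : ∀ j k, j < k → b j ≤ a k)
    (g g' : Fin n → ℝ) (hg : ∀ j, a j < g j ∧ g j < b j) (hg' : ∀ j, a j < g' j ∧ g' j < b j)
    (h : ∀ z, ∏ k, (z - g' k) = ∏ k, (z - g k)) : g' = g := by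
  funext j
  have h0 : ∏ k, (g j - g' k) = 0 := by
    rw [h]
    exact Finset.prod_eq_zero (Finset.mem_univ j) (sub_self _)
  obtain ⟨k, _, hk⟩ := Finset.prod_eq_zero_iff.mp h0
  have hk' : g' k = g j := by linarith
  have : k = j := by
    by_contra hne
    rcases lt_or_gt_of_ne hne with h | h
    · have := hsep k j h
      linarith [(hg' k).2, (hg j).1]
    · have := hsep j k h
      linarith [(hg' k).1, (hg j).2]
  rw [← hk', this]

/-- the roots in the gaps depend continuously on the parameter -/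
theorem gap_roots_cont {n : ℕ} (s : Set ℝ) (a b : Fin n → ℝ)
    (hsep : ∀ j k, j < k → b j ≤ a k) (g : ℝ → Fin n → ℝ)
    (hg : ∀ l ∈ s, ∀ j, a j < g l j ∧ g l j < b j)
    (hc : ∀ z, ContinuousOn (fun l => ∏ j, (z - g l j)) s) (j : Fin n) :
    ContinuousOn (fun l => g l j) s := by
  intro l hl
  have hgl := hg l hl
  rw [ContinuousWithinAt, Metric.tendsto_nhds]
  intro ε hε
  -- a test point argument
  have test : ∀ z, a j < z → z < b j → z ≠ g l j →
      ∀ᶠ l' in 𝓝[s] l, 0 < (z - g l' j) * (z - g l j) := by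
    intro z hz1 hz2 hzne
    have hne : ∏ k, (z - g l k) ≠ 0 := by
      intro h0
      obtain ⟨k, _, hk⟩ := Finset.prod_eq_zero_iff.mp h0
      have hkj : k = j := by
        by_contra hne
        rcases lt_or_gt_of_ne hne with h | h
        · have := hsep k j h
          linarith [(hgl k).2]
        · have := hsep j k h
          linarith [(hgl k).1]
      subst hkj
      exact hzne (by linarith)
    have hcz : Tendsto (fun l' => (∏ k, (z - g l' k)) * ∏ k, (z - g l k)) (𝓝[s] l)
        (𝓝 ((∏ k, (z - g l k)) * ∏ k, (z - g l k))) := (hc z l hl).mul_const _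
    have hpos : 0 < (∏ k, (z - g l k)) * ∏ k, (z - g l k) := mul_self_pos.mpr hne
    filter_upwards [hcz.eventually (lt_mem_nhds hpos), self_mem_nhdsWithin] with l' h1 h2
    exact prod_sign a b hsep (g l) (g l') hgl (hg l' h2) j z ⟨hz1, hz2⟩ h1
  obtain ⟨z1, h1a, h1b⟩ : ∃ z1, max (a j) (g l j - ε) < z1 ∧ z1 < g l j :=
    exists_between (max_lt (hgl j).1 (by linarith))
  obtain ⟨z2, h2a, h2b⟩ : ∃ z2, g l j < z2 ∧ z2 < min (b j) (g l j + ε) :=
    exists_between (lt_min (hgl j).2 (by linarith))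
  have e1 := test z1 (lt_of_le_of_lt (le_max_left _ _) h1a) (by linarith [(hgl j).2]) h1b.ne
  have e2 := test z2 (by linarith [(hgl j).1]) (lt_of_lt_of_le h2b (min_le_left _ _)) h2a.ne'
  filter_upwards [e1, e2] with l' h1 h2
  have h3 : z1 - g l' j < 0 := by
    by_contra hcon
    push Not at hcon
    nlinarith
  have h4 : 0 < z2 - g l' j := by
    by_contra hcon
    push Not at hcon
    nlinarith
  have h5 : g l j - ε < z1 := lt_of_le_of_lt (le_max_right _ _) h1a
  have h6 : z2 < g l j + ε := lt_of_lt_of_le h2b (min_le_right _ _)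
  rw [Real.dist_eq, abs_lt]
  constructor <;> linarith

/-- quantitative closeness of a root of a perturbed function -/
theorem root_close (F : ℝ → ℝ) (hF : Continuous F) (a b r : ℝ)
    (hne : ∀ z ∈ Icc a b, z ≠ r → F z ≠ 0) (δ : ℝ) (hδ : 0 < δ) :
    ∃ c > 0, ∀ z ∈ Icc a b, |F z| < c → |z - r| ≤ δ := by
  by_cases hK : ((Icc a b) ∩ {z | δ ≤ |z - r|}).Nonempty
  · have hcomp : IsCompact ((Icc a b) ∩ {z | δ ≤ |z - r|}) :=
      isCompact_Icc.inter_right (isClosed_le continuous_const (by fun_prop))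
    obtain ⟨z0, hz0, hmin⟩ := hcomp.exists_isMinOn hK (f := fun z => |F z|)
      (by fun_prop)
    refine ⟨|F z0|, abs_pos.mpr (hne z0 hz0.1 ?_), ?_⟩
    · rintro rfl
      have := hz0.2
      simp only [mem_ofPred_eq, sub_self, abs_zero] at this
      linarith
    · intro z hz hlt
      by_contra hcon
      push Not at hcon
      have := hmin (show z ∈ (Icc a b) ∩ {z | δ ≤ |z - r|} from ⟨hz, hcon.le⟩)
      simp only [mem_ofPred_eq] at this
      linarith
  · refine ⟨1, one_pos, ?_⟩
    intro z hz _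
    by_contra hcon
    push Not at hcon
    exact hK ⟨z, hz, hcon.le⟩

end Pool.Agent.Hhelper30.Forsythe
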