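import Pool.Agent.Hhelper30.Forsythe.Exist1

/-! Module C of the counterexample to Forsythe's conjecture: the backward orbit of a weight. -/

set_option autoImplicit false

namespace Pool.Agent.Hhelper30.Forsythe

open Filter Topology Set Polynomial

theorem nd_strictMono : StrictMono nd := by
  intro i j h
  fin_cases i <;> fin_cases j <;> first | (exact absurd h (by decide)) | (norm_num [nd])

theorem nd_inj : Function.Injective nd := nd_strictMono.injective

theorem dPi8_succAbove (i : Fin 8) : dPi8 i = ∏ j : Fin 7, (nd i - nd (i.succAbove j)) := by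
  unfold dPi8
  have h1 : ∏ j ∈ Finset.univ.erase i, (nd i - nd j)
      = ∏ j ∈ Finset.univ.erase i, (if j = i then 1 else nd i - nd j) := by
    apply Finset.prod_congr rfl
    intro j hj
    rw [if_neg (Finset.ne_of_mem_erase hj)]
  rw [h1, Finset.prod_erase _ (by simp), Fin.prod_univ_succAbove _ i]
  simp

theorem dPi8_ne (i : Fin 8) : dPi8 i ≠ 0 := by
  unfold dPi8
  apply Finset.prod_ne_zero_iff.mpr
  intro j hj
  have := Finset.ne_of_mem_erase hj
  exact sub_ne_zero.mpr (fun h => this (nd_inj h).symm)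

/-- `g` has one entry in each of the seven gaps -/
def InGaps (g : Fin 7 → ℝ) : Prop := ∀ j : Fin 7, nd j.castSucc < g j ∧ g j < nd j.succ

def IsW (v : Fin 8 → ℝ) : Prop := (∀ i, 0 < v i) ∧ ∑ i, v i = 1

theorem gap_sep (j k : Fin 7) (h : j < k) : nd j.succ ≤ nd k.castSucc := by
  apply nd_strictMono.monotone
  exact Fin.succ_le_castSucc_iff.mpr h

theorem prod_mul_dPi8_pos (g : Fin 7 → ℝ) (hg : InGaps g) (i : Fin 8) :
    0 < (∏ j, (nd i - g j)) * dPi8 i := by
  rw [dPi8_succAbove, ← Finset.prod_mul_distrib]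
  apply Finset.prod_pos
  intro j _
  rcases lt_or_ge j.castSucc i with h | h
  · rw [Fin.succAbove_of_castSucc_lt _ _ h]
    have h1 := nd_strictMono h
    have h2 : nd j.succ ≤ nd i := nd_strictMono.monotone (Fin.castSucc_lt_iff_succ_le.mp h)
    exact mul_pos (by linarith [(hg j).2]) (by linarith)
  · rw [Fin.succAbove_of_le_castSucc _ _ h]
    have h1 : nd i ≤ nd j.castSucc := nd_strictMono.monotone h
    have h2 : nd j.castSucc < nd j.succ := nd_strictMono Fin.castSucc_lt_succ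
    exact mul_pos_of_neg_of_neg (by linarith [(hg j).1]) (by linarith)

/-- the weights of a configuration of roots in the gaps -/
noncomputable def wOf (g : Fin 7 → ℝ) (i : Fin 8) : ℝ := (∏ j, (nd i - g j)) / dPi8 i

theorem wOf_isW (g : Fin 7 → ℝ) (hg : InGaps g) : IsW (wOf g) := by
  constructor
  · intro i
    have h1 := prod_mul_dPi8_pos g hg i
    have h2 : wOf g i = ((∏ j, (nd i - g j)) * dPi8 i) / (dPi8 i) ^ 2 := by
      unfold wOf
      field_simp [dPi8_ne i]
    rw [h2]
    exact div_pos h1 (by have := dPi8_ne i; positivity)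
  · have hinj : Set.InjOn nd (Finset.univ : Finset (Fin 8)) := nd_inj.injOn
    have hdeg : (Lagrange.nodal (Finset.univ : Finset (Fin 7)) g).degree
        < (Finset.univ : Finset (Fin 8)).card := by
      rw [Lagrange.degree_nodal]
      simp only [Finset.card_univ, Fintype.card_fin]
      norm_cast
    have := Lagrange.coeff_eq_sum (s := (Finset.univ : Finset (Fin 8))) (v := nd) hinj hdeg
    have hm := (Lagrange.nodal_monic (s := (Finset.univ : Finset (Fin 7))) (v := g)).coeff_natDegree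
    rw [Lagrange.natDegree_nodal] at hm
    simp only [Finset.card_univ, Fintype.card_fin] at this hm
    rw [show (8 - 1 : ℕ) = 7 from rfl, hm] at this
    rw [this]
    apply Finset.sum_congr rfl
    intro i _
    rw [Lagrange.eval_nodal]
    rfl

/-- the polynomial `N_v` -/
noncomputable def Npoly (v : Fin 8 → ℝ) : ℝ[X] :=
  Lagrange.interpolate Finset.univ nd (fun i => v i * dPi8 i)

theorem Npoly_eval_nd (v : Fin 8 → ℝ) (i : Fin 8) : (Npoly v).eval (nd i) = v i * dPi8 i :=
  Lagrange.eval_interpolate_at_node _ nd_inj.injOn (Finset.mem_univ i)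

theorem Npoly_degree (v : Fin 8 → ℝ) : (Npoly v).degree < 8 := by
  have := Lagrange.degree_interpolate_lt (s := (Finset.univ : Finset (Fin 8))) (v := nd)
    (fun i => v i * dPi8 i) nd_inj.injOn
  rw [Finset.card_univ, Fintype.card_fin] at this
  exact this

theorem Npoly_coeff (v : Fin 8 → ℝ) (hv : IsW v) : (Npoly v).coeff 7 = 1 := by
  have hdeg : (Npoly v).degree < (Finset.univ : Finset (Fin 8)).card := by
    simpa using Npoly_degree v
  have := Lagrange.coeff_eq_sum (s := (Finset.univ : Finset (Fin 8))) (v := nd) nd_inj.injOn hdeg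
  simp only [Finset.card_univ, Fintype.card_fin] at this
  rw [show (8 - 1 : ℕ) = 7 from rfl] at this
  rw [this, ← hv.2]
  apply Finset.sum_congr rfl
  intro i _
  rw [Npoly_eval_nd]
  exact mul_div_cancel_right₀ _ (dPi8_ne i)

theorem Npoly_natDegree (v : Fin 8 → ℝ) (hv : IsW v) : (Npoly v).natDegree = 7 := by
  apply le_antisymm
  · have h := Npoly_degree v
    by_cases h0 : Npoly v = 0
    · rw [h0]; simp
    · have := (Polynomial.natDegree_lt_iff_degree_lt (n := 8) h0).mpr h
      omega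
  · apply Polynomial.le_natDegree_of_ne_zero
    rw [Npoly_coeff v hv]
    exact one_ne_zero

theorem Npoly_monic (v : Fin 8 → ℝ) (hv : IsW v) : (Npoly v).Monic := by
  rw [Polynomial.Monic, Polynomial.leadingCoeff, Npoly_natDegree v hv, Npoly_coeff v hv]

theorem dPi8_alt (j : Fin 7) : dPi8 j.castSucc * dPi8 j.succ < 0 := by
  have h1 : 0 < (∏ k : Fin 7, (nd j.castSucc - (nd k.castSucc + nd k.succ) / 2))
      * dPi8 j.castSucc := by
    apply prod_mul_dPi8_pos (fun k => (nd k.castSucc + nd k.succ) / 2)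
    intro k
    have := nd_strictMono (Fin.castSucc_lt_succ (i := k))
    constructor <;> simp only <;> linarith
  have h2 : 0 < (∏ k : Fin 7, (nd j.succ - (nd k.castSucc + nd k.succ) / 2))
      * dPi8 j.succ := by
    apply prod_mul_dPi8_pos (fun k => (nd k.castSucc + nd k.succ) / 2)
    intro k
    have := nd_strictMono (Fin.castSucc_lt_succ (i := k))
    constructor <;> simp only <;> linarith
  have h3 : (∏ k : Fin 7, (nd j.castSucc - (nd k.castSucc + nd k.succ) / 2))
      * (∏ k : Fin 7, (nd j.succ - (nd k.castSucc + nd k.succ) / 2)) < 0 := by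
    rw [← Finset.prod_mul_distrib, ← Finset.mul_prod_erase Finset.univ _ (Finset.mem_univ j)]
    apply mul_neg_of_neg_of_pos
    · have := nd_strictMono (Fin.castSucc_lt_succ (i := j))
      nlinarith
    · apply Finset.prod_pos
      intro k hk
      have hne : k ≠ j := Finset.ne_of_mem_erase hk
      have hj := nd_strictMono (Fin.castSucc_lt_succ (i := j))
      have hkk := nd_strictMono (Fin.castSucc_lt_succ (i := k))
      rcases lt_or_gt_of_ne hne with h | h
      · have h1 := gap_sep k j h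
        exact mul_pos (by linarith) (by linarith)
      · have h1 := gap_sep j k h
        exact mul_pos_of_neg_of_neg (by linarith) (by linarith)
  have h4 := mul_pos h1 h2
  by_contra hcon
  push Not at hcon
  nlinarith [mul_nonneg_of_nonpos_of_nonpos h3.le (neg_nonpos.mpr hcon)]

theorem exists_gr (v : Fin 8 → ℝ) (hv : IsW v) :
    ∃ g : Fin 7 → ℝ, InGaps g ∧ ∀ z, (Npoly v).eval z = ∏ j, (z - g j) := by
  apply exists_gap_roots (Npoly v) (Npoly_monic v hv) (Npoly_natDegree v hv)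
    (fun j => nd j.castSucc) (fun j => nd j.succ)
  · intro j
    exact nd_strictMono Fin.castSucc_lt_succ
  · exact gap_sep
  · intro j
    simp only [Npoly_eval_nd]
    have h1 := mul_pos (hv.1 j.castSucc) (hv.1 j.succ)
    have h2 := dPi8_alt j
    nlinarith [mul_pos h1 (neg_pos.mpr h2)]

open Classical in
noncomputable def gr (v : Fin 8 → ℝ) : Fin 7 → ℝ :=
  if h : IsW v then (exists_gr v h).choose else 0

theorem gr_gaps (v : Fin 8 → ℝ) (hv : IsW v) : InGaps (gr v) := by
  unfold gr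
  rw [dif_pos hv]
  exact (exists_gr v hv).choose_spec.1

theorem gr_prod (v : Fin 8 → ℝ) (hv : IsW v) (z : ℝ) :
    (Npoly v).eval z = ∏ j, (z - gr v j) := by
  unfold gr
  rw [dif_pos hv]
  exact (exists_gr v hv).choose_spec.2 z

theorem gr_nd (v : Fin 8 → ℝ) (hv : IsW v) (i : Fin 8) :
    ∏ j, (nd i - gr v j) = v i * dPi8 i := by
  rw [← gr_prod v hv, Npoly_eval_nd]

theorem gr_wOf (g : Fin 7 → ℝ) (hg : InGaps g) : gr (wOf g) = g := by
  have hw := wOf_isW g hg
  apply gap_roots_unique (fun j : Fin 7 => nd j.castSucc) (fun j : Fin 7 => nd j.succ) gap_sep _ _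
    hg (gr_gaps _ hw)
  intro z
  rw [← gr_prod _ hw]
  have : Npoly (wOf g) = Lagrange.nodal (Finset.univ : Finset (Fin 7)) g := by
    refine Polynomial.eq_of_degrees_lt_of_eval_index_eq (v := nd) (Finset.univ : Finset (Fin 8))
      nd_inj.injOn ?_ ?_ ?_
    · simpa using Npoly_degree (wOf g)
    · rw [Lagrange.degree_nodal]
      simp only [Finset.card_univ, Fintype.card_fin]
      norm_cast
    · intro i _
      rw [Npoly_eval_nd, Lagrange.eval_nodal]
      unfold wOf
      exact div_mul_cancel₀ _ (dPi8_ne i)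
  rw [this, Lagrange.eval_nodal]

theorem gr_cont (s : Set ℝ) (v : ℝ → Fin 8 → ℝ) (hv : ∀ l ∈ s, IsW (v l))
    (hc : ∀ i, ContinuousOn (fun l => v l i) s) (j : Fin 7) :
    ContinuousOn (fun l => gr (v l) j) s := by
  apply gap_roots_cont s (fun j : Fin 7 => nd j.castSucc) (fun j : Fin 7 => nd j.succ) gap_sep
    (fun l => gr (v l)) (fun l hl => gr_gaps _ (hv l hl))
  intro z
  have : ContinuousOn (fun l => (Npoly (v l)).eval z) s := by
    unfold Npoly
    simp only [Lagrange.interpolate_apply, Polynomial.eval_finsetSum, Polynomial.eval_mul,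
      Polynomial.eval_C]
    apply continuousOn_finsetSum
    intro i _
    exact ((hc i).mul continuousOn_const).mul continuousOn_const
  exact this.congr (fun l hl => (gr_prod _ (hv l hl) z).symm)

/-! ### distribution of the seven roots between `P` and `H` -/

def pOf (t : ℕ) (g : Fin 7 → ℝ) : Fin 4 → ℝ :=
  if t % 2 = 0 then ![g 1, g 2, g 4, g 6] else ![g 0, g 2, g 4, g 5]

def hOf (t : ℕ) (g : Fin 7 → ℝ) : Fin 3 → ℝ :=
  if t % 2 = 0 then ![g 0, g 3, g 5] else ![g 1, g 3, g 6]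

theorem pOf_hOf (t : ℕ) (g : Fin 7 → ℝ) (z : ℝ) :
    Q4 (pOf t g) z * C3 (hOf t g) z = ∏ j, (z - g j) := by
  rw [Fin.prod_univ_seven]
  unfold pOf hOf Q4 C3
  split_ifs <;> simp <;> ring

theorem evenGap_of (k : ℕ) (g : Fin 7 → ℝ) (hg : InGaps g) :
    EvenGap (pOf (2 * k) g) (hOf (2 * k) g) := by
  have h0 := hg 0
  have h1 := hg 1
  have h2 := hg 2
  have h3 := hg 3
  have h4 := hg 4
  have h5 := hg 5
  have h6 := hg 6
  simp [nd] at h0 h1 h2 h3 h4 h5 h6
  constructor <;> simp [pOf, hOf] <;> assumption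

theorem oddGap_of (k : ℕ) (g : Fin 7 → ℝ) (hg : InGaps g) :
    OddGap (pOf (2 * k + 1) g) (hOf (2 * k + 1) g) := by
  have h0 := hg 0
  have h1 := hg 1
  have h2 := hg 2
  have h3 := hg 3
  have h4 := hg 4
  have h5 := hg 5
  have h6 := hg 6
  simp [nd] at h0 h1 h2 h3 h4 h5 h6
  have hm : (2 * k + 1) % 2 = 1 := by omega
  constructor <;> simp [pOf, hOf, hm] <;> assumption

theorem Q4_ne (t : ℕ) (v : Fin 8 → ℝ) (hv : IsW v) (i : Fin 8) :
    Q4 (pOf t (gr v)) (nd i) ≠ 0 := by
  intro h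
  have h1 := pOf_hOf t (gr v) (nd i)
  rw [h, zero_mul, gr_nd v hv] at h1
  exact (mul_ne_zero (hv.1 i).ne' (dPi8_ne i)) h1.symm

/-! ### the iteration -/

noncomputable def sgOf (t : ℕ) (v : Fin 8 → ℝ) : ℝ :=
  (∑ i, v i / Q4 (pOf t (gr v)) (nd i) ^ 2)⁻¹

noncomputable def nextW (t : ℕ) (v : Fin 8 → ℝ) (i : Fin 8) : ℝ :=
  sgOf t v * (v i / Q4 (pOf t (gr v)) (nd i) ^ 2)

theorem sum_pos' (t : ℕ) (v : Fin 8 → ℝ) (hv : IsW v) :
    0 < ∑ i, v i / Q4 (pOf t (gr v)) (nd i) ^ 2 := by
  apply Finset.sum_pos _ Finset.univ_nonempty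
  intro i _
  have h1 := hv.1 i
  have h2 := Q4_ne t v hv i
  positivity

theorem sgOf_pos (t : ℕ) (v : Fin 8 → ℝ) (hv : IsW v) : 0 < sgOf t v :=
  inv_pos.mpr (sum_pos' t v hv)

theorem nextW_isW (t : ℕ) (v : Fin 8 → ℝ) (hv : IsW v) : IsW (nextW t v) := by
  constructor
  · intro i
    have h1 := hv.1 i
    have h2 := Q4_ne t v hv i
    have h3 := sgOf_pos t v hv
    unfold nextW
    positivity
  · unfold nextW
    rw [← Finset.mul_sum]
    exact inv_mul_cancel₀ (sum_pos' t v hv).ne'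

noncomputable def Wseq (v : Fin 8 → ℝ) : ℕ → Fin 8 → ℝ
  | 0 => v
  | t + 1 => nextW t (Wseq v t)

theorem Wseq_isW (v : Fin 8 → ℝ) (hv : IsW v) (t : ℕ) : IsW (Wseq v t) := by
  induction t with
  | zero => exact hv
  | succ t ih => exact nextW_isW t _ ih

theorem Wseq_rel (v : Fin 8 → ℝ) (hv : IsW v) (t : ℕ) (i : Fin 8) :
    Q4 (pOf t (gr (Wseq v t))) (nd i) * Q4 (pOf (t + 1) (gr (Wseq v (t + 1)))) (nd i)
      * C3 (hOf (t + 1) (gr (Wseq v (t + 1)))) (nd i)
    = sgOf t (Wseq v t) * C3 (hOf t (gr (Wseq v t))) (nd i) := by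
  have hW := Wseq_isW v hv t
  have hW1 := Wseq_isW v hv (t + 1)
  have h1 := pOf_hOf t (gr (Wseq v t)) (nd i)
  have h2 := pOf_hOf (t + 1) (gr (Wseq v (t + 1))) (nd i)
  rw [gr_nd _ hW] at h1
  rw [gr_nd _ hW1] at h2
  have hQ := Q4_ne t _ hW i
  rw [mul_assoc, h2]
  have h3 : Wseq v (t + 1) i
      = sgOf t (Wseq v t) * (Wseq v t i / Q4 (pOf t (gr (Wseq v t))) (nd i) ^ 2) := rfl
  rw [h3]
  field_simp
  linear_combination (-sgOf t (Wseq v t)) * h1

noncomputable def mkOrbit (v : Fin 8 → ℝ) (hv : IsW v) : BackOrbit where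
  p t := pOf t (gr (Wseq v t))
  h t := hOf t (gr (Wseq v t))
  sg t := sgOf t (Wseq v t)
  even k := evenGap_of k _ (gr_gaps _ (Wseq_isW v hv _))
  odd k := oddGap_of k _ (gr_gaps _ (Wseq_isW v hv _))
  sg_pos t := sgOf_pos t _ (Wseq_isW v hv t)
  rel t i := Wseq_rel v hv t i

theorem isW_const : IsW (fun _ => (1 / 8 : ℝ)) := by
  constructor
  · intro i; norm_num
  · simp

open Classical in
/-- total version -/
noncomputable def mkOrbit' (v : Fin 8 → ℝ) : BackOrbit :=
  if h : IsW v then mkOrbit v h else mkOrbit _ isW_const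

theorem mkOrbit'_p (v : Fin 8 → ℝ) (hv : IsW v) (t : ℕ) :
    (mkOrbit' v).p t = pOf t (gr (Wseq v t)) := by
  unfold mkOrbit'
  rw [dif_pos hv]
  rfl

theorem mkOrbit'_h (v : Fin 8 → ℝ) (hv : IsW v) (t : ℕ) :
    (mkOrbit' v).h t = hOf t (gr (Wseq v t)) := by
  unfold mkOrbit'
  rw [dif_pos hv]
  rfl

theorem mkOrbit'_sg (v : Fin 8 → ℝ) (hv : IsW v) (t : ℕ) :
    (mkOrbit' v).sg t = sgOf t (Wseq v t) := by
  unfold mkOrbit'
  rw [dif_pos hv]
  rfl

theorem pOf_cont (s : Set ℝ) (t : ℕ) (g : ℝ → Fin 7 → ℝ)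
    (hc : ∀ j, ContinuousOn (fun l => g l j) s) (j : Fin 4) :
    ContinuousOn (fun l => pOf t (g l) j) s := by
  unfold pOf
  split_ifs
  · fin_cases j <;> simp <;> apply hc
  · fin_cases j <;> simp <;> apply hc

theorem hOf_cont (s : Set ℝ) (t : ℕ) (g : ℝ → Fin 7 → ℝ)
    (hc : ∀ j, ContinuousOn (fun l => g l j) s) (j : Fin 3) :
    ContinuousOn (fun l => hOf t (g l) j) s := by
  unfold hOf
  split_ifs
  · fin_cases j <;> simp <;> apply hc
  · fin_cases j <;> simp <;> apply hc

theorem Q4_cont (s : Set ℝ) (p : ℝ → Fin 4 → ℝ) (hc : ∀ j, ContinuousOn (fun l => p l j) s)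
    (z : ℝ) : ContinuousOn (fun l => Q4 (p l) z) s := by
  unfold Q4
  exact (((continuousOn_const.sub (hc 0)).mul (continuousOn_const.sub (hc 1))).mul
    (continuousOn_const.sub (hc 2))).mul (continuousOn_const.sub (hc 3))

theorem C3_cont (s : Set ℝ) (p : ℝ → Fin 3 → ℝ) (hc : ∀ j, ContinuousOn (fun l => p l j) s)
    (z : ℝ) : ContinuousOn (fun l => C3 (p l) z) s := by
  unfold C3
  exact ((continuousOn_const.sub (hc 0)).mul (continuousOn_const.sub (hc 1))).mul
    (continuousOn_const.sub (hc 2))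

theorem sgOf_cont (s : Set ℝ) (t : ℕ) (v : ℝ → Fin 8 → ℝ) (hv : ∀ l ∈ s, IsW (v l))
    (hc : ∀ i, ContinuousOn (fun l => v l i) s) : ContinuousOn (fun l => sgOf t (v l)) s := by
  unfold sgOf
  apply ContinuousOn.inv₀
  · apply continuousOn_finsetSum
    intro i _
    apply (hc i).div
    · exact (Q4_cont s _ (pOf_cont s t _ (gr_cont s v hv hc)) (nd i)).pow 2
    · intro l hl
      exact pow_ne_zero 2 (Q4_ne t _ (hv l hl) i)
  · intro l hl
    exact (sum_pos' t _ (hv l hl)).ne'

theorem nextW_cont (s : Set ℝ) (t : ℕ) (v : ℝ → Fin 8 → ℝ) (hv : ∀ l ∈ s, IsW (v l))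
    (hc : ∀ i, ContinuousOn (fun l => v l i) s) (i : Fin 8) :
    ContinuousOn (fun l => nextW t (v l) i) s := by
  unfold nextW
  apply (sgOf_cont s t v hv hc).mul
  apply (hc i).div
  · exact (Q4_cont s _ (pOf_cont s t _ (gr_cont s v hv hc)) (nd i)).pow 2
  · intro l hl
    exact pow_ne_zero 2 (Q4_ne t _ (hv l hl) i)

theorem Wseq_cont (s : Set ℝ) (v : ℝ → Fin 8 → ℝ) (hv : ∀ l ∈ s, IsW (v l))
    (hc : ∀ i, ContinuousOn (fun l => v l i) s) (t : ℕ) :
    ∀ i, ContinuousOn (fun l => Wseq (v l) t i) s := by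
  induction t with
  | zero => exact hc
  | succ t ih =>
    exact nextW_cont s t (fun l => Wseq (v l) t) (fun l hl => Wseq_isW _ (hv l hl) t) ih

end Pool.Agent.Hhelper30.Forsythe
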