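import Pool.Agent.Hhelper30.Forsythe.F3

/-! Module F1: drift and nearness along the filter of near orbits. -/

set_option autoImplicit false

namespace Pool.Agent.Hhelper30.Forsythe

open Filter Topology Set Asymptotics

theorem pe_ne_nd {r : Fin 4 → ℝ} (hr : IsRef r) (j : Fin 4) (i : Fin 8) : pe r j ≠ nd i := by
  obtain ⟨⟨a0, b0⟩, ⟨a1, b1⟩, ⟨a2, b2⟩, ⟨a3, b3⟩, -⟩ := hr
  fin_cases j <;> fin_cases i <;> simp [pe, nd] <;> intro h <;> linarith

theorem po_eq (r : Fin 4 → ℝ) (j : Fin 4) : po r j = -pe r (Fin.rev j) := by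
  have r0 : Fin.rev (0 : Fin 4) = 3 := by decide
  have r1 : Fin.rev (1 : Fin 4) = 2 := by decide
  have r2 : Fin.rev (2 : Fin 4) = 1 := by decide
  have r3 : Fin.rev (3 : Fin 4) = 0 := by decide
  fin_cases j
  · show po r 0 = -pe r (Fin.rev 0)
    rw [r0]; simp [po, pe]
  · show po r 1 = -pe r (Fin.rev 1)
    rw [r1]; simp [po, pe]
  · show po r 2 = -pe r (Fin.rev 2)
    rw [r2]; simp [po, pe]
  · show po r 3 = -pe r (Fin.rev 3)
    rw [r3]; simp [po, pe]

theorem exists_sep {r : Fin 4 → ℝ} (hr : IsRef r) :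
    ∃ d > 0, (∀ j i, 2 * d ≤ |pe r j - nd i|) ∧ (∀ j i, 2 * d ≤ |po r j - nd i|) := by
  obtain ⟨x, -, hx⟩ := Finset.exists_min_image (Finset.univ : Finset (Fin 4 × Fin 8))
    (fun x => |pe r x.1 - nd x.2|) ⟨(0, 0), Finset.mem_univ _⟩
  have hpos : 0 < |pe r x.1 - nd x.2| := abs_pos.2 (sub_ne_zero.2 (pe_ne_nd hr _ _))
  refine ⟨|pe r x.1 - nd x.2| / 2, by positivity, fun j i => ?_, fun j i => ?_⟩
  · have := hx (j, i) (Finset.mem_univ _)
    simp only at this
    linarith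
  · have := hx (Fin.rev j, Fin.rev i) (Finset.mem_univ _)
    simp only [nd_rev] at this
    have e : |po r j - nd i| = |pe r (Fin.rev j) - -nd i| := by
      rw [po_eq, ← abs_neg]
      congr 1
      ring
    rw [e]
    linarith

theorem dist_of_near {p q : Fin 4 → ℝ} {d : ℝ} (hq : ∀ j i, 2 * d ≤ |q j - nd i|)
    (h : ∀ j, |p j - q j| ≤ d) : ∀ j (i : Fin 8), d ≤ |p j - nd i| := by
  intro j i
  have h1 := hq j i
  have h2 := h j
  have h3 : |q j - nd i| ≤ |p j - q j| + |p j - nd i| := by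
    have := abs_sub (p j - nd i) (p j - q j)
    have e : p j - nd i - (p j - q j) = q j - nd i := by ring
    rw [e] at this
    linarith
  linarith

/-- drift with uniform constants, both parities -/
theorem drift_unif {r : Fin 4 → ℝ} (hr : IsRef r) : ∃ C > 0, ∃ d > 0, ∀ (O : BackOrbit) (t : ℕ),
    ((∀ j, |O.p t j - pe r j| ≤ d) ∨ (∀ j, |O.p t j - po r j| ≤ d)) → 1 / 2 ≤ O.sg t →
    ∀ j, |O.p (t + 2) j - O.p t j| ≤ C * (O.sg t - O.sg (t + 1)) := by
  obtain ⟨d, hd, h1, h2⟩ := exists_sep hr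
  refine ⟨2 * (20 ^ 8 * 400) / d ^ 9, by positivity, d, hd, ?_⟩
  intro O t hnear hsg j
  have hdist : ∀ j i, d ≤ |O.p t j - nd i| := by
    rcases hnear with h | h
    · exact dist_of_near h1 h
    · exact dist_of_near h2 h
  have h3 := drift O t hd hdist j
  have hd9 : 0 < d ^ 9 := by positivity
  have h4 : 1 / 2 * d ^ 9 * |O.p (t + 2) j - O.p t j|
      ≤ O.sg t * d ^ 9 * |O.p (t + 2) j - O.p t j| := by
    have := abs_nonneg (O.p (t + 2) j - O.p t j)
    gcongr
  rw [div_mul_eq_mul_div, le_div_iff₀ hd9]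
  linarith

theorem sg_anti_le (O : BackOrbit) {s t : ℕ} (h : s ≤ t) : O.sg t ≤ O.sg s :=
  antitone_nat_of_succ_le (f := O.sg) (fun n => sg_anti O n) h

/-- closeness is controlled by the clock -/
theorem near_clock {r : Fin 4 → ℝ} (hr : IsRef r) : ∃ C > 0, ∃ δ1 > 0, ∀ (O : BackOrbit) (δ : ℝ),
    δ ≤ δ1 → Near r δ O → ∀ k, O.sg 0 - O.sg (2 * k) ≤ δ1 →
    (∀ j, |O.p (2 * k) j - pe r j| ≤ δ + C * (O.sg 0 - O.sg (2 * k))) ∧
    (∀ j, |O.p (2 * k + 1) j - po r j| ≤ δ + C * (O.sg 0 - O.sg (2 * k))) := by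
  obtain ⟨C, hC, d, hd, H⟩ := drift_unif hr
  refine ⟨C, hC, min (1 / 4) (d / (1 + C)), by positivity, ?_⟩
  intro O δ hδ hnear
  have hδ1 : δ ≤ 1 / 4 := hδ.trans (min_le_left _ _)
  have hm : (1 + C) * min (1 / 4) (d / (1 + C)) ≤ d := by
    have : min (1 / 4) (d / (1 + C)) ≤ d / (1 + C) := min_le_right _ _
    rw [le_div_iff₀ (by positivity)] at this
    linarith
  have hm4 : min (1 / 4) (d / (1 + C)) ≤ 1 / 4 := min_le_left _ _
  set δ1 := min (1 / 4) (d / (1 + C)) with hδ1def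
  clear_value δ1
  intro k
  induction k with
  | zero =>
    intro _
    simp only [sub_self, mul_zero, add_zero, zero_add]
    exact ⟨hnear.p0, hnear.p1⟩
  | succ k ih =>
    intro hk
    have s0 := sg_anti O (2 * k)
    have s1 := sg_anti O (2 * k + 1)
    have e : 2 * (k + 1) = 2 * k + 1 + 1 := by ring
    rw [e] at hk ⊢
    have hsg0 := abs_le.1 hnear.sg0
    obtain ⟨i0, i1⟩ := ih (by linarith)
    have hsg : 1 / 2 ≤ O.sg (2 * k + 1 + 1) := by linarith [hsg0.1]
    have hCk : C * (O.sg 0 - O.sg (2 * k)) ≤ C * δ1 :=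
      mul_le_mul_of_nonneg_left (by linarith) hC.le
    have hclose : δ + C * (O.sg 0 - O.sg (2 * k)) ≤ d := by linarith
    constructor
    · intro j
      have h1 := H O (2 * k) (Or.inl fun j => (i0 j).trans hclose) (by linarith) j
      have h2 := i0 j
      have h3 : |O.p (2 * k + 1 + 1) j - pe r j| ≤ |O.p (2 * k + 2) j - O.p (2 * k) j|
          + |O.p (2 * k) j - pe r j| := by
        have := abs_add_le (O.p (2 * k + 2) j - O.p (2 * k) j) (O.p (2 * k) j - pe r j)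
        have e2 : O.p (2 * k + 2) j - O.p (2 * k) j + (O.p (2 * k) j - pe r j)
          = O.p (2 * k + 1 + 1) j - pe r j := by ring
        rwa [e2] at this
      have h4 : C * (O.sg (2 * k) - O.sg (2 * k + 1))
          ≤ C * (O.sg (2 * k) - O.sg (2 * k + 1 + 1)) :=
        mul_le_mul_of_nonneg_left (by linarith) hC.le
      linarith
    · intro j
      have h1 := H O (2 * k + 1) (Or.inr fun j => (i1 j).trans hclose) (by linarith) j
      have h2 := i1 j
      have h3 : |O.p (2 * k + 1 + 1 + 1) j - po r j|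
          ≤ |O.p (2 * k + 1 + 2) j - O.p (2 * k + 1) j| + |O.p (2 * k + 1) j - po r j| := by
        have := abs_add_le (O.p (2 * k + 1 + 2) j - O.p (2 * k + 1) j)
          (O.p (2 * k + 1) j - po r j)
        have e2 : O.p (2 * k + 1 + 2) j - O.p (2 * k + 1) j + (O.p (2 * k + 1) j - po r j)
          = O.p (2 * k + 1 + 1 + 1) j - po r j := by ring
        rwa [e2] at this
      have h4 : C * (O.sg (2 * k + 1) - O.sg (2 * k + 1 + 1))
          ≤ C * (O.sg (2 * k) - O.sg (2 * k + 1 + 1)) :=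
        mul_le_mul_of_nonneg_left (by linarith) hC.le
      linarith

theorem good_nearFilter (r : Fin 4 → ℝ) (hr : IsRef r) :
    Good r (nearFilter r) Prod.fst Prod.snd := by
  obtain ⟨C, hC, δ1, hδ1, H⟩ := near_clock hr
  have key : ∀ ε > 0, ∃ δ > 0, ∀ (O : BackOrbit) (k : ℕ), Near r δ O → O.G k ≤ δ →
      (∀ j, |O.p (2 * k) j - pe r j| < ε) ∧ (∀ j, |O.p (2 * k + 1) j - po r j| < ε) ∧
      |O.sg (2 * k) - 1| < ε := by
    intro ε hε
    refine ⟨min δ1 (ε / (2 * (2 + C))), by positivity, ?_⟩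
    intro O k hn hG
    have h1 : (2 + C) * min δ1 (ε / (2 * (2 + C))) ≤ ε / 2 := by
      have : min δ1 (ε / (2 * (2 + C))) ≤ ε / (2 * (2 + C)) := min_le_right _ _
      rw [le_div_iff₀ (by positivity)] at this
      linarith
    have hm : min δ1 (ε / (2 * (2 + C))) ≤ δ1 := min_le_left _ _
    have hmpos : 0 < min δ1 (ε / (2 * (2 + C))) := by positivity
    set δ := min δ1 (ε / (2 * (2 + C))) with hδ
    clear_value δ
    have hG' : O.sg 0 - O.sg (2 * k) ≤ δ := hG
    have hG0 : 0 ≤ O.sg 0 - O.sg (2 * k) := by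
      have := sg_anti_le O (Nat.zero_le (2 * k))
      linarith
    obtain ⟨i0, i1⟩ := H O δ hm hn k (hG'.trans hm)
    have hb : δ + C * (O.sg 0 - O.sg (2 * k)) < ε := by
      have : C * (O.sg 0 - O.sg (2 * k)) ≤ C * δ := mul_le_mul_of_nonneg_left hG' hC.le
      nlinarith
    refine ⟨fun j => (i0 j).trans_lt hb, fun j => (i1 j).trans_lt hb, ?_⟩
    have hs := abs_le.1 hn.sg0
    have h2 : δ + δ ≤ ε / 2 := by nlinarith
    rw [abs_lt]
    constructor <;> linarith [hs.1, hs.2]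
  refine ⟨fun j => ?_, fun j => ?_, ?_⟩
  · rw [Metric.tendsto_nhds]
    intro ε hε
    obtain ⟨δ, hδ, h⟩ := key ε hε
    rw [eventually_nearFilter]
    exact ⟨δ, hδ, fun O k h1 h2 => by rw [Real.dist_eq]; exact (h O k h1 h2).1 j⟩
  · rw [Metric.tendsto_nhds]
    intro ε hε
    obtain ⟨δ, hδ, h⟩ := key ε hε
    rw [eventually_nearFilter]
    exact ⟨δ, hδ, fun O k h1 h2 => by rw [Real.dist_eq]; exact (h O k h1 h2).2.1 j⟩
  · rw [Metric.tendsto_nhds]
    intro ε hε
    obtain ⟨δ, hδ, h⟩ := key ε hε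
    rw [eventually_nearFilter]
    exact ⟨δ, hδ, fun O k h1 h2 => by rw [Real.dist_eq]; exact (h O k h1 h2).2.2⟩

/-- drift along a good filter -/
theorem Good.drift {r : Fin 4 → ℝ} (hr : IsRef r) {ι : Type} {l : Filter ι} {O : ι → BackOrbit}
    {τ : ι → ℕ} (hG : Good r l O τ) (j : Fin 4) :
    (fun i => (O i).p (2 * τ i + 2) j - (O i).p (2 * τ i) j)
      =O[l] (fun i => (O i).sg (2 * τ i) - (O i).sg (2 * τ i + 1)) := by
  obtain ⟨C, hC, d, hd, H⟩ := drift_unif hr
  refine IsBigO.of_bound C ?_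
  have h1 : ∀ᶠ i in l, ∀ j, |(O i).p (2 * τ i) j - pe r j| ≤ d := by
    rw [eventually_all]
    intro j
    have h2 := (Metric.tendsto_nhds.1 (hG.p0 j)) d hd
    filter_upwards [h2] with i hi
    rw [Real.dist_eq] at hi
    exact hi.le
  have h2 : ∀ᶠ i in l, 1 / 2 ≤ (O i).sg (2 * τ i) :=
    hG.sg.eventually (le_mem_nhds (by norm_num))
  filter_upwards [h1, h2] with i hi hi2
  have h3 := H (O i) (2 * τ i) (Or.inl hi) hi2 j
  have h4 := sg_anti (O i) (2 * τ i)
  rw [Real.norm_eq_abs, Real.norm_eq_abs, abs_of_nonneg (by linarith :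
    0 ≤ (O i).sg (2 * τ i) - (O i).sg (2 * τ i + 1))]
  exact h3

/-- If the clock increment of the step tends to `0`, the next pair (reflected) is good too. -/
theorem Good.next {r : Fin 4 → ℝ} (hr : IsRef r) {ι : Type} {l : Filter ι} {O : ι → BackOrbit}
    {τ : ι → ℕ} (hG : Good r l O τ)
    (hc : Tendsto (fun i => (O i).sg (2 * τ i) - (O i).sg (2 * τ i + 1)) l (𝓝 0)) :
    Good r l (fun i => (O i).refl) τ := by
  have hpe : ∀ j, pe r j = -po r (Fin.rev j) := by
    intro j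
    rw [po_eq, Fin.rev_rev, neg_neg]
  refine ⟨fun j => ?_, fun j => ?_, ?_⟩
  · rw [hpe]
    exact (hG.p1 (Fin.rev j)).neg
  · rw [po_eq]
    have h1 : Tendsto (fun i => (O i).p (2 * τ i + 2) (Fin.rev j)) l (𝓝 (pe r (Fin.rev j))) := by
      have h2 := ((hG.drift hr (Fin.rev j)).trans_tendsto hc).add (hG.p0 (Fin.rev j))
      rw [zero_add] at h2
      exact h2.congr (fun i => by ring)
    exact h1.neg
  · have h1 := hG.sg.sub hc
    rw [sub_zero] at h1
    exact h1.congr (fun i => by rw [BackOrbit.refl_sg]; ring)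

end Pool.Agent.Hhelper30.Forsythe
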