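import Pool.Agent.Hhelper30.Forsythe.F5b

/-! Module F1: nearness is controlled by the clock. -/

set_option autoImplicit false

namespace Pool.Agent.Hhelper30.Forsythe

open Filter Topology Set Asymptotics

theorem BackOrbit.sg_succ_le' (O : BackOrbit) (t : ℕ) : O.sg (t + 1) ≤ O.sg t := by
  obtain ⟨tx, te, ty, h1, h2, h3, h, -⟩ := identM3 O t
  linarith

theorem BackOrbit.sg_anti' (O : BackOrbit) : Antitone O.sg :=
  antitone_nat_of_succ_le O.sg_succ_le'

theorem drift_of_sep (O : BackOrbit) (t : ℕ) {d : ℝ} (hd : 0 < d) (q : Fin 4 → ℝ)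
    (hq : ∀ j i, 2 * d < |q j - nd i|) (hp : ∀ j, |O.p t j - q j| ≤ d) (hs : 1 / 2 ≤ O.sg t)
    (j : Fin 4) :
    |O.p (t + 2) j - O.p t j| ≤ 20 ^ 8 * 400 * (2 / d ^ 9) * (O.sg t - O.sg (t + 1)) := by
  have a1 : ∀ j i, d ≤ |O.p t j - nd i| := by
    intro j i
    have h1 := hq j i
    have h2 := hp j
    have h3 : |q j - nd i| ≤ |O.p t j - q j| + |O.p t j - nd i| := by
      have := abs_sub_le (q j) (O.p t j) (nd i)
      rwa [abs_sub_comm (q j) (O.p t j)] at this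
    linarith
  have h3 := drift O t hd a1 j
  have hd9 : 0 < d ^ 9 := by positivity
  have h4 : 1 / 2 * d ^ 9 * |O.p (t + 2) j - O.p t j|
      ≤ 20 ^ 8 * 400 * (O.sg t - O.sg (t + 1)) := by
    refine le_trans ?_ h3
    gcongr
  have h5 : |O.p (t + 2) j - O.p t j|
      = 2 / d ^ 9 * (1 / 2 * d ^ 9 * |O.p (t + 2) j - O.p t j|) := by
    field_simp
  rw [h5]
  calc 2 / d ^ 9 * (1 / 2 * d ^ 9 * |O.p (t + 2) j - O.p t j|)
      ≤ 2 / d ^ 9 * (20 ^ 8 * 400 * (O.sg t - O.sg (t + 1))) :=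
        mul_le_mul_of_nonneg_left h4 (by positivity)
    _ = _ := by ring

theorem near_induct (r : Fin 4 → ℝ) (hr : IsRef r) : ∃ C > 0, ∃ δ1 > 0, ∀ δ ≤ δ1,
    ∀ (O : BackOrbit) (k : ℕ), Near r δ O → O.G k ≤ δ →
      (∀ j, |O.p (2 * k) j - pe r j| ≤ δ + C * O.G k) ∧
      (∀ j, |O.p (2 * k + 1) j - po r j| ≤ δ + C * O.G k) ∧
      |O.sg (2 * k) - 1| ≤ 2 * δ ∧ 0 ≤ O.G k := by
  obtain ⟨d0, hd0, hsep⟩ := exists_sep hr
  have hsep' : ∀ j i, d0 < |po r j - nd i| := by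
    intro j i
    have h := hsep (Fin.rev j) (Fin.rev i)
    rw [pe_rev, nd_rev] at h
    rw [← abs_neg]
    convert h using 2
    ring
  set d := d0 / 2 with hd
  have hdp : 0 < d := by positivity
  have hq : ∀ j i, 2 * d < |pe r j - nd i| := fun j i => by
    have := hsep j i
    rw [hd]; linarith
  have hq' : ∀ j i, 2 * d < |po r j - nd i| := fun j i => by
    have := hsep' j i
    rw [hd]; linarith
  set C := 20 ^ 8 * 400 * (2 / d ^ 9) with hC
  have hCp : 0 < C := by positivity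
  refine ⟨C, hCp, min (d / (1 + C)) (1 / 4), by positivity, ?_⟩
  intro δ hδ O k hN hG
  have hδ1 : δ ≤ d / (1 + C) := hδ.trans (min_le_left _ _)
  have hδ2 : δ ≤ 1 / 4 := hδ.trans (min_le_right _ _)
  have hδ3 : δ + C * δ ≤ d := by
    rw [le_div_iff₀ (by positivity)] at hδ1
    linarith
  have hδ0 : 0 ≤ δ := (abs_nonneg _).trans hN.sg0
  have hG0 : ∀ t, 0 ≤ O.sg 0 - O.sg t := fun t => sub_nonneg.2 (O.sg_anti' (Nat.zero_le t))
  have hsg : ∀ t ≤ 2 * k, 1 / 2 ≤ O.sg t ∧ O.sg 0 - O.sg t ≤ δ := by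
    intro t ht
    have h1 := O.sg_anti' ht
    have h2 : O.sg 0 - O.sg (2 * k) ≤ δ := hG
    have h3 := (abs_le.1 hN.sg0).1
    constructor <;> linarith
  have main : ∀ j ≤ k, (∀ i, |O.p (2 * j) i - pe r i| ≤ δ + C * (O.sg 0 - O.sg (2 * j))) ∧
      (∀ i, |O.p (2 * j + 1) i - po r i| ≤ δ + C * (O.sg 0 - O.sg (2 * j))) := by
    intro j
    induction j with
    | zero =>
      intro _
      refine ⟨fun i => ?_, fun i => ?_⟩
      · have := hN.p0 i
        simpa using this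
      · have := hN.p1 i
        simpa using this
    | succ j ih =>
      intro hj
      obtain ⟨ih1, ih2⟩ := ih (by omega)
      obtain ⟨s1, s2⟩ := hsg (2 * j) (by omega)
      obtain ⟨s3, s4⟩ := hsg (2 * j + 1) (by omega)
      have bnd : δ + C * (O.sg 0 - O.sg (2 * j)) ≤ d := by
        refine le_trans ?_ hδ3
        gcongr
      have m1 := O.sg_succ_le' (2 * j)
      have m2 := O.sg_succ_le' (2 * j + 1)
      rw [show 2 * (j + 1) = 2 * j + 2 by ring]
      refine ⟨fun i => ?_, fun i => ?_⟩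
      · have h1 := drift_of_sep O (2 * j) hdp (pe r) hq (fun i => (ih1 i).trans bnd) s1 i
        have h2 : |O.p (2 * j + 2) i - pe r i| ≤ |O.p (2 * j + 2) i - O.p (2 * j) i|
            + |O.p (2 * j) i - pe r i| := abs_sub_le _ _ _
        have h3 := ih1 i
        have h4 : C * (O.sg (2 * j) - O.sg (2 * j + 1)) ≤ C * (O.sg (2 * j) - O.sg (2 * j + 2)) :=
          mul_le_mul_of_nonneg_left (by linarith) hCp.le
        calc |O.p (2 * j + 2) i - pe r i|
            ≤ C * (O.sg (2 * j) - O.sg (2 * j + 2)) + (δ + C * (O.sg 0 - O.sg (2 * j))) := by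
              linarith
          _ = _ := by ring
      · have h1 := drift_of_sep O (2 * j + 1) hdp (po r) hq' (fun i => (ih2 i).trans bnd) s3 i
        have h2 : |O.p (2 * j + 2 + 1) i - po r i| ≤ |O.p (2 * j + 1 + 2) i - O.p (2 * j + 1) i|
            + |O.p (2 * j + 1) i - po r i| := abs_sub_le _ _ _
        have h3 := ih2 i
        have h4 : C * (O.sg (2 * j + 1) - O.sg (2 * j + 1 + 1))
            ≤ C * (O.sg (2 * j) - O.sg (2 * j + 2)) :=
          mul_le_mul_of_nonneg_left (by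
            rw [show 2 * j + 1 + 1 = 2 * j + 2 by ring]; linarith) hCp.le
        calc |O.p (2 * j + 2 + 1) i - po r i|
            ≤ C * (O.sg (2 * j) - O.sg (2 * j + 2)) + (δ + C * (O.sg 0 - O.sg (2 * j))) := by
              linarith
          _ = _ := by ring
  obtain ⟨h1, h2⟩ := main k le_rfl
  refine ⟨h1, h2, ?_, hG0 _⟩
  obtain ⟨s1, s2⟩ := hsg (2 * k) le_rfl
  have h3 := abs_le.1 hN.sg0
  have h4 := hG0 (2 * k)
  rw [abs_le]
  constructor <;> linarith

theorem good_nearFilter' (r : Fin 4 → ℝ) (hr : IsRef r) :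
    Good r (nearFilter r) Prod.fst Prod.snd := by
  obtain ⟨C, hC, δ1, hδ1, H⟩ := near_induct r hr
  have key : ∀ ε > 0, ∃ δ > 0, δ ≤ δ1 ∧ δ + C * δ < ε ∧ 2 * δ < ε := by
    intro ε hε
    refine ⟨min δ1 (ε / (3 * (1 + C))), by positivity, min_le_left _ _, ?_, ?_⟩
    · have h1 : min δ1 (ε / (3 * (1 + C))) ≤ ε / (3 * (1 + C)) := min_le_right _ _
      have h2 : min δ1 (ε / (3 * (1 + C))) * (3 * (1 + C)) ≤ ε := by
        rwa [le_div_iff₀ (by positivity)] at h1
      have h3 : 0 < min δ1 (ε / (3 * (1 + C))) := by positivity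
      nlinarith
    · have h1 : min δ1 (ε / (3 * (1 + C))) ≤ ε / (3 * (1 + C)) := min_le_right _ _
      have h2 : min δ1 (ε / (3 * (1 + C))) * (3 * (1 + C)) ≤ ε := by
        rwa [le_div_iff₀ (by positivity)] at h1
      have h3 : 0 < min δ1 (ε / (3 * (1 + C))) := by positivity
      nlinarith
  refine ⟨fun j => ?_, fun j => ?_, ?_⟩ <;> rw [Metric.tendsto_nhds] <;> intro ε hε <;>
    rw [eventually_nearFilter] <;> obtain ⟨δ, h1, h2, h3, h4⟩ := key ε hε <;>
    refine ⟨δ, h1, fun O k hN hG => ?_⟩ <;> obtain ⟨a1, a2, a3, a4⟩ := H δ h2 O k hN hG <;>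
    rw [Real.dist_eq]
  · refine (a1 j).trans_lt (lt_of_le_of_lt ?_ h3)
    gcongr
  · refine (a2 j).trans_lt (lt_of_le_of_lt ?_ h3)
    gcongr
  · exact a3.trans_lt h4

end Pool.Agent.Hhelper30.Forsythe
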