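import Pool.Agent.Hhelper30.Forsythe.FDefs

/-! Module F2: smallness of the observables along a filter of good states. -/

set_option autoImplicit false

namespace Pool.Agent.Hhelper30.Forsythe

open Filter Topology Set Asymptotics

/-! ### the reference polynomial -/

theorem Fref_eq_prod {r : Fin 4 → ℝ} (hr : IsRef r) (t : ℝ) :
    Fref t = (t - r 0 ^ 2) * (t - r 1 ^ 2) * (t - r 2 ^ 2) * (t - r 3 ^ 2) := by
  obtain ⟨⟨a0, b0⟩, ⟨a1, b1⟩, ⟨a2, b2⟩, ⟨a3, b3⟩, root⟩ := hr
  have h0 := root 0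
  have h1 := root 1
  have h2 := root 2
  have h3 := root 3
  have e01 : r 0 ^ 2 < r 1 ^ 2 := by nlinarith
  have e12 : r 1 ^ 2 < r 2 ^ 2 := by nlinarith
  have e23 : r 2 ^ 2 < r 3 ^ 2 := by nlinarith
  generalize r 0 ^ 2 = a at *
  generalize r 1 ^ 2 = b at *
  generalize r 2 ^ 2 = c at *
  generalize r 3 ^ 2 = d at *
  -- `Fref t - ∏ = c3 t³ + c2 t² + c1 t + c0`
  obtain ⟨c3, c2, c1, c0, hc⟩ : ∃ c3 c2 c1 c0 : ℝ, ∀ t,
      Fref t - (t - a) * (t - b) * (t - c) * (t - d) = c3 * t ^ 3 + c2 * t ^ 2 + c1 * t + c0 := by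
    refine ⟨-9 - 25 - 100 - 36 + 1 / 9504 + (a + b + c + d),
      9 * 25 + 9 * 100 + 25 * 100 + (9 + 25 + 100) * (36 - 1 / 9504)
        - (a * b + a * c + a * d + b * c + b * d + c * d),
      -(9 * 25 * 100) - (9 * 25 + 9 * 100 + 25 * 100) * (36 - 1 / 9504)
        + (a * b * c + a * b * d + a * c * d + b * c * d),
      9 * 25 * 100 * (36 - 1 / 9504) + 1 - a * b * c * d, fun t => ?_⟩
    unfold Fref
    ring
  have fa : c3 * a ^ 3 + c2 * a ^ 2 + c1 * a + c0 = 0 := by rw [← hc a, h0]; ring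
  have fb : c3 * b ^ 3 + c2 * b ^ 2 + c1 * b + c0 = 0 := by rw [← hc b, h1]; ring
  have fc : c3 * c ^ 3 + c2 * c ^ 2 + c1 * c + c0 = 0 := by rw [← hc c, h2]; ring
  have fd : c3 * d ^ 3 + c2 * d ^ 2 + c1 * d + c0 = 0 := by rw [← hc d, h3]; ring
  have ab : c3 * (a ^ 2 + a * b + b ^ 2) + c2 * (a + b) + c1 = 0 := by
    have : (a - b) * (c3 * (a ^ 2 + a * b + b ^ 2) + c2 * (a + b) + c1) = 0 := by
      linear_combination fa - fb
    rcases mul_eq_zero.1 this with h | h
    · linarith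
    · exact h
  have bc : c3 * (b ^ 2 + b * c + c ^ 2) + c2 * (b + c) + c1 = 0 := by
    have : (b - c) * (c3 * (b ^ 2 + b * c + c ^ 2) + c2 * (b + c) + c1) = 0 := by
      linear_combination fb - fc
    rcases mul_eq_zero.1 this with h | h
    · linarith
    · exact h
  have cd : c3 * (c ^ 2 + c * d + d ^ 2) + c2 * (c + d) + c1 = 0 := by
    have : (c - d) * (c3 * (c ^ 2 + c * d + d ^ 2) + c2 * (c + d) + c1) = 0 := by
      linear_combination fc - fd
    rcases mul_eq_zero.1 this with h | h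
    · linarith
    · exact h
  have abc : c3 * (a + b + c) + c2 = 0 := by
    have : (a - c) * (c3 * (a + b + c) + c2) = 0 := by linear_combination ab - bc
    rcases mul_eq_zero.1 this with h | h
    · linarith
    · exact h
  have bcd : c3 * (b + c + d) + c2 = 0 := by
    have : (b - d) * (c3 * (b + c + d) + c2) = 0 := by linear_combination bc - cd
    rcases mul_eq_zero.1 this with h | h
    · linarith
    · exact h
  have h3' : c3 = 0 := by
    have : (a - d) * c3 = 0 := by linear_combination abc - bcd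
    rcases mul_eq_zero.1 this with h | h
    · linarith
    · exact h
  have h2' : c2 = 0 := by rw [h3'] at abc; linarith
  have h1' : c1 = 0 := by rw [h3', h2'] at ab; linarith
  have h0' : c0 = 0 := by rw [h3', h2', h1'] at fa; linarith
  have := hc t
  rw [h3', h2', h1', h0'] at this
  linarith

theorem Q4_pe_po (r : Fin 4 → ℝ) (z : ℝ) : Q4 (po r) z = Q4 (pe r) (-z) := by
  simp only [Q4, po, pe]
  simp
  ring

theorem Q4_pe_mul_po {r : Fin 4 → ℝ} (hr : IsRef r) (z : ℝ) :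
    Q4 (pe r) z * Q4 (po r) z = Fref (z ^ 2) := by
  rw [Fref_eq_prod hr]
  simp only [Q4, po, pe]
  simp
  ring

/-- sign pattern: `+1` on `Z⁺`, `-1` at `±6` -/
def sgn8 : Fin 8 → ℝ := ![1, -1, 1, 1, 1, 1, -1, 1]

theorem Fref_nd (i : Fin 8) : Fref (nd i ^ 2) = sgn8 i := by
  fin_cases i <;> simp [nd, sgn8, Fref] <;> norm_num

theorem Q4_tendsto {ι : Type} {l : Filter ι} {p : ι → Fin 4 → ℝ} {q : Fin 4 → ℝ}
    (h : ∀ j, Tendsto (fun i => p i j) l (𝓝 (q j))) {z : ι → ℝ} {z0 : ℝ}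
    (hz : Tendsto z l (𝓝 z0)) :
    Tendsto (fun i => Q4 (p i) (z i)) l (𝓝 (Q4 q z0)) := by
  unfold Q4
  exact (((hz.sub (h 0)).mul (hz.sub (h 1))).mul (hz.sub (h 2))).mul (hz.sub (h 3))

/-! ### the core limit lemma -/

theorem small_core {ι : Type} {l : Filter ι} (x e y x' e' y' : ι → ℝ) (R : Fin 8 → ι → ℝ)
    (hR : ∀ j, Tendsto (R j) l (𝓝 (sgn8 j)))
    (hx : ∀ i, -10 < x i ∧ x i < -6) (he : ∀ i, -3 < e i ∧ e i < 3)
    (hy : ∀ i, 5 < y i ∧ y i < 6)
    (hx' : ∀ i, -6 < x' i ∧ x' i < -5) (he' : ∀ i, -3 < e' i ∧ e' i < 3)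
    (hy' : ∀ i, 6 < y' i ∧ y' i < 10)
    (rel : ∀ i j, (nd j - x i) * (nd j - e i) * (nd j - y i)
      = R j i * ((nd j - x' i) * (nd j - e' i) * (nd j - y' i))) :
    Tendsto x l (𝓝 (-6)) ∧ Tendsto y l (𝓝 6) ∧ Tendsto x' l (𝓝 (-6)) ∧ Tendsto y' l (𝓝 6) ∧
    Tendsto (fun i => (e' i - e i) / (3 - e i)) l (𝓝 0) ∧
    Tendsto (fun i => (e' i - e i) / (3 + e i)) l (𝓝 0) ∧
    Tendsto (fun i => (-6 - x i) / (x' i + 6)) l (𝓝 1) ∧
    Tendsto (fun i => (6 - y i) / (y' i - 6)) l (𝓝 1) := by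
  -- bounded functions
  have bd : ∀ z : ℝ, |z| ≤ 10 → ∀ i, ‖(z - x' i) * (z - e' i) * (z - y' i)‖ ≤ 8000 := by
    intro z hz i
    obtain ⟨h1, h2⟩ := hx' i
    obtain ⟨h3, h4⟩ := he' i
    obtain ⟨h5, h6⟩ := hy' i
    obtain ⟨h7, h8⟩ := abs_le.1 hz
    rw [Real.norm_eq_abs, abs_mul, abs_mul]
    have e1 : |z - x' i| ≤ 20 := abs_le.2 ⟨by linarith, by linarith⟩
    have e2 : |z - e' i| ≤ 20 := abs_le.2 ⟨by linarith, by linarith⟩
    have e3 : |z - y' i| ≤ 20 := abs_le.2 ⟨by linarith, by linarith⟩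
    calc |z - x' i| * |z - e' i| * |z - y' i| ≤ 20 * 20 * 20 := by gcongr
      _ = 8000 := by norm_num
  -- the difference `D(z) = H(z) - H'(z)`
  have Dz : ∀ j : Fin 8, sgn8 j = 1 → Tendsto (fun i => (nd j - x i) * (nd j - e i) * (nd j - y i)
      - (nd j - x' i) * (nd j - e' i) * (nd j - y' i)) l (𝓝 0) := by
    intro j hj
    have h1 : Tendsto (fun i => R j i - 1) l (𝓝 0) := by
      have := (hR j).sub_const 1
      rwa [hj, sub_self] at this
    have hb : |nd j| ≤ 10 := by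
      fin_cases j <;> simp [nd] <;> norm_num
    have h2 := h1.zero_mul_isBoundedUnder_le (g := fun i =>
      (nd j - x' i) * (nd j - e' i) * (nd j - y' i))
      (isBoundedUnder_of ⟨8000, fun i => bd (nd j) hb i⟩)
    refine h2.congr (fun i => ?_)
    rw [rel i j]
    ring
  have D5 := Dz 2 (by simp [sgn8])
  have Dm := Dz 3 (by simp [sgn8])
  have Dp := Dz 4 (by simp [sgn8])
  simp only [show nd 2 = -5 by simp [nd], show nd 3 = -3 by simp [nd],
    show nd 4 = 3 by simp [nd]] at D5 Dm Dp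
  -- interpolation: D(z) for all z
  have Dall : ∀ z : ℝ, Tendsto (fun i => (z - x i) * (z - e i) * (z - y i)
      - (z - x' i) * (z - e' i) * (z - y' i)) l (𝓝 0) := by
    intro z
    have h := ((D5.mul_const ((z + 3) * (z - 3) / 16)).add
      (Dm.mul_const (-((z + 5) * (z - 3) / 12)))).add (Dp.mul_const ((z + 5) * (z + 3) / 48))
    simp only [zero_mul, add_zero] at h
    refine h.congr (fun i => ?_)
    ring
  -- values at `±6`
  have H6 : ∀ j : Fin 8, sgn8 j = -1 →
      Tendsto (fun i => (nd j - x' i) * (nd j - e' i) * (nd j - y' i)) l (𝓝 0) := by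
    intro j hj
    have h1 : Tendsto (fun i => (R j i - 1)⁻¹) l (𝓝 (-1 / 2)) := by
      have := ((hR j).sub_const 1).inv₀ (by rw [hj]; norm_num)
      rw [hj] at this
      norm_num at this ⊢
      exact this
    have h2 := (Dall (nd j)).mul h1
    rw [zero_mul] at h2
    have h3 : ∀ᶠ i in l, R j i - 1 ≠ 0 := by
      have := (hR j).sub_const 1
      rw [hj] at this
      exact this.eventually_ne (by norm_num)
    refine h2.congr' ?_
    filter_upwards [h3] with i hi
    rw [rel i j]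
    field_simp
  have H6' : ∀ j : Fin 8, sgn8 j = -1 →
      Tendsto (fun i => (nd j - x i) * (nd j - e i) * (nd j - y i)) l (𝓝 0) := by
    intro j hj
    have := (Dall (nd j)).add (H6 j hj)
    rw [add_zero] at this
    exact this.congr (fun i => by ring)
  have A1 := H6 1 (by simp [sgn8])
  have A1' := H6' 1 (by simp [sgn8])
  have A6 := H6 6 (by simp [sgn8])
  have A6' := H6' 6 (by simp [sgn8])
  simp only [show nd 1 = -6 by simp [nd], show nd 6 = 6 by simp [nd]] at A1 A1' A6 A6'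
  -- convergence of x, y
  have squeeze : ∀ (f g : ι → ℝ), Tendsto f l (𝓝 0) → (∀ i, |g i| ≤ |f i|) →
      Tendsto g l (𝓝 0) := by
    intro f g hf hfg
    rw [tendsto_zero_iff_abs_tendsto_zero] at hf ⊢
    exact squeeze_zero (fun i => abs_nonneg _) hfg hf
  have tx' : Tendsto (fun i => x' i + 6) l (𝓝 0) := by
    refine squeeze _ _ A1 (fun i => ?_)
    obtain ⟨h1, h2⟩ := hx' i
    obtain ⟨h3, h4⟩ := he' i
    obtain ⟨h5, h6⟩ := hy' i
    have : (-6 - x' i) * (-6 - e' i) * (-6 - y' i) = -((x' i + 6) * ((6 + e' i) * (6 + y' i))) := by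
      ring
    rw [this, abs_neg, abs_mul]
    have h7 : 1 ≤ |(6 + e' i) * (6 + y' i)| := by
      rw [abs_of_pos (by nlinarith)]
      nlinarith
    nlinarith [abs_nonneg (x' i + 6)]
  have tx : Tendsto (fun i => x i + 6) l (𝓝 0) := by
    refine squeeze _ _ A1' (fun i => ?_)
    obtain ⟨h1, h2⟩ := hx i
    obtain ⟨h3, h4⟩ := he i
    obtain ⟨h5, h6⟩ := hy i
    have : (-6 - x i) * (-6 - e i) * (-6 - y i) = -((x i + 6) * ((6 + e i) * (6 + y i))) := by
      ring
    rw [this, abs_neg, abs_mul]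
    have h7 : 1 ≤ |(6 + e i) * (6 + y i)| := by
      rw [abs_of_pos (by nlinarith)]
      nlinarith
    nlinarith [abs_nonneg (x i + 6)]
  have ty' : Tendsto (fun i => y' i - 6) l (𝓝 0) := by
    refine squeeze _ _ A6 (fun i => ?_)
    obtain ⟨h1, h2⟩ := hx' i
    obtain ⟨h3, h4⟩ := he' i
    obtain ⟨h5, h6⟩ := hy' i
    have : (6 - x' i) * (6 - e' i) * (6 - y' i) = -((y' i - 6) * ((6 - e' i) * (6 - x' i))) := by
      ring
    rw [this, abs_neg, abs_mul]
    have h7 : 1 ≤ |(6 - e' i) * (6 - x' i)| := by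
      rw [abs_of_pos (by nlinarith)]
      nlinarith
    nlinarith [abs_nonneg (y' i - 6)]
  have ty : Tendsto (fun i => y i - 6) l (𝓝 0) := by
    refine squeeze _ _ A6' (fun i => ?_)
    obtain ⟨h1, h2⟩ := hx i
    obtain ⟨h3, h4⟩ := he i
    obtain ⟨h5, h6⟩ := hy i
    have : (6 - x i) * (6 - e i) * (6 - y i) = -((y i - 6) * ((6 - e i) * (6 - x i))) := by
      ring
    rw [this, abs_neg, abs_mul]
    have h7 : 1 ≤ |(6 - e i) * (6 - x i)| := by
      rw [abs_of_pos (by nlinarith)]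
      nlinarith
    nlinarith [abs_nonneg (y i - 6)]
  have Tx : Tendsto x l (𝓝 (-6)) := by
    have := tx.add_const (-6)
    rw [zero_add] at this
    exact this.congr (fun i => by ring)
  have Tx' : Tendsto x' l (𝓝 (-6)) := by
    have := tx'.add_const (-6)
    rw [zero_add] at this
    exact this.congr (fun i => by ring)
  have Ty : Tendsto y l (𝓝 6) := by
    have := ty.add_const 6
    rw [zero_add] at this
    exact this.congr (fun i => by ring)
  have Ty' : Tendsto y' l (𝓝 6) := by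
    have := ty'.add_const 6
    rw [zero_add] at this
    exact this.congr (fun i => by ring)
  -- ratios of `3 - e`
  have q3 : Tendsto (fun i => (e' i - e i) / (3 - e i)) l (𝓝 0) := by
    -- (3 - e') / (3 - e) = (3-x)(3-y) / (R (3-x')(3-y'))
    have h1 : Tendsto (fun i => 1 - ((3 - x i) * (3 - y i))
        / (R 4 i * ((3 - x' i) * (3 - y' i)))) l (𝓝 (1 - ((3 - (-6)) * (3 - 6))
        / (1 * ((3 - (-6)) * (3 - 6))))) := by
      have hR4 : Tendsto (R 4) l (𝓝 1) := by simpa [sgn8] using hR 4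
      refine tendsto_const_nhds.sub (Tendsto.div ?_ ?_ (by norm_num))
      · exact (tendsto_const_nhds.sub Tx).mul (tendsto_const_nhds.sub Ty)
      · exact hR4.mul ((tendsto_const_nhds.sub Tx').mul (tendsto_const_nhds.sub Ty'))
    norm_num at h1
    have hne : ∀ᶠ i in l, R 4 i ≠ 0 := by
      have hR4 : Tendsto (R 4) l (𝓝 1) := by simpa [sgn8] using hR 4
      exact hR4.eventually_ne (by norm_num)
    refine h1.congr' ?_
    filter_upwards [hne] with i hi
    have hr := rel i 4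
    rw [show nd 4 = 3 by simp [nd]] at hr
    obtain ⟨g1, g2⟩ := hx' i
    obtain ⟨g5, g6⟩ := hy' i
    obtain ⟨g3, g4⟩ := he i
    have n1 : 3 - x' i ≠ 0 := by linarith
    have n2 : 3 - y' i ≠ 0 := by intro h; linarith
    have n3 : 3 - e i ≠ 0 := by linarith
    field_simp
    linear_combination -hr
  have q3' : Tendsto (fun i => (e' i - e i) / (3 + e i)) l (𝓝 0) := by
    have h1 : Tendsto (fun i => ((-3 - x i) * (-3 - y i))
        / (R 3 i * ((-3 - x' i) * (-3 - y' i))) - 1) l (𝓝 (((-3 - (-6)) * (-3 - 6))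
        / (1 * ((-3 - (-6)) * (-3 - 6))) - 1)) := by
      have hR4 : Tendsto (R 3) l (𝓝 1) := by simpa [sgn8] using hR 3
      refine (Tendsto.div ?_ ?_ (by norm_num)).sub tendsto_const_nhds
      · exact (tendsto_const_nhds.sub Tx).mul (tendsto_const_nhds.sub Ty)
      · exact hR4.mul ((tendsto_const_nhds.sub Tx').mul (tendsto_const_nhds.sub Ty'))
    norm_num at h1
    have hne : ∀ᶠ i in l, R 3 i ≠ 0 := by
      have hR4 : Tendsto (R 3) l (𝓝 1) := by simpa [sgn8] using hR 3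
      exact hR4.eventually_ne (by norm_num)
    refine h1.congr' ?_
    filter_upwards [hne] with i hi
    have hr := rel i 3
    rw [show nd 3 = -3 by simp [nd]] at hr
    obtain ⟨g1, g2⟩ := hx' i
    obtain ⟨g5, g6⟩ := hy' i
    obtain ⟨g3, g4⟩ := he i
    have n1 : -3 - x' i ≠ 0 := by intro h; linarith
    have n2 : -3 - y' i ≠ 0 := by intro h; linarith
    have n3 : 3 + e i ≠ 0 := by linarith
    field_simp
    linear_combination -hr
  have td : Tendsto (fun i => e' i - e i) l (𝓝 0) := by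
    have h2 := q3.mul_const (6 : ℝ)
    rw [zero_mul] at h2
    refine squeeze _ _ h2 (fun i => ?_)
    obtain ⟨g3, g4⟩ := he i
    have n3 : 0 < 3 - e i := by linarith
    have e1 : e' i - e i = (e' i - e i) / (3 - e i) * (3 - e i) := by field_simp
    have h9 : |e' i - e i| = |(e' i - e i) / (3 - e i)| * (3 - e i) := by
      conv_lhs => rw [e1]
      rw [abs_mul, abs_of_pos n3]
    rw [h9, abs_mul, abs_of_pos (by norm_num : (0 : ℝ) < 6)]
    exact mul_le_mul_of_nonneg_left (by linarith) (abs_nonneg _)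
  -- general ratio `(z - e') / (z - e) → 1` for `z = ± 6`
  have re : ∀ z : ℝ, 6 ≤ |z| → Tendsto (fun i => (z - e' i) / (z - e i)) l (𝓝 1) := by
    intro z hz
    have h1 : Tendsto (fun i => 1 - (e' i - e i) / (z - e i)) l (𝓝 (1 - 0)) := by
      refine tendsto_const_nhds.sub (squeeze _ _ td (fun i => ?_))
      obtain ⟨g3, g4⟩ := he i
      rw [abs_div]
      have : 1 ≤ |z - e i| := by
        rcases le_abs.1 hz with h | h
        · rw [abs_of_pos (by linarith)]; linarith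
        · rw [abs_of_neg (by linarith)]; linarith
      exact div_le_self (abs_nonneg _) this
    rw [sub_zero] at h1
    refine h1.congr (fun i => ?_)
    obtain ⟨g3, g4⟩ := he i
    have : z - e i ≠ 0 := by
      intro h
      rcases le_abs.1 hz with h' | h' <;> linarith
    field_simp
    ring
  refine ⟨Tx, Ty, Tx', Ty', q3, q3', ?_, ?_⟩
  · -- (-6-x)/(x'+6) = -R (−6−e')(−6−y') / ((−6−e)(−6−y))
    have hR1 : Tendsto (R 1) l (𝓝 (-1)) := by simpa [sgn8] using hR 1
    have h1 := (hR1.neg.mul (re (-6) (by norm_num))).mul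
      ((tendsto_const_nhds (x := (-6 : ℝ)).sub Ty').div
        (tendsto_const_nhds (x := (-6 : ℝ)).sub Ty) (by norm_num))
    norm_num at h1
    refine h1.congr (fun i => ?_)
    have hr := rel i 1
    rw [show nd 1 = -6 by simp [nd]] at hr
    obtain ⟨g1, g2⟩ := hx' i
    obtain ⟨g5, g6⟩ := hy i
    obtain ⟨g3, g4⟩ := he i
    have n1 : x' i + 6 ≠ 0 := by intro h; linarith
    have n2 : -6 - y i ≠ 0 := by intro h; linarith
    have n3 : -6 - e i ≠ 0 := by intro h; linarith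
    field_simp
    linear_combination -hr
  · have hR1 : Tendsto (R 6) l (𝓝 (-1)) := by simpa [sgn8] using hR 6
    have h1 := (hR1.neg.mul (re 6 (by norm_num))).mul
      ((tendsto_const_nhds (x := (6 : ℝ)).sub Tx').div
        (tendsto_const_nhds (x := (6 : ℝ)).sub Tx) (by norm_num))
    norm_num at h1
    refine h1.congr (fun i => ?_)
    have hr := rel i 6
    rw [show nd 6 = 6 by simp [nd]] at hr
    obtain ⟨g1, g2⟩ := hy' i
    obtain ⟨g5, g6⟩ := hx i
    obtain ⟨g3, g4⟩ := he i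
    have n1 : y' i - 6 ≠ 0 := by intro h; linarith
    have n2 : 6 - x i ≠ 0 := by intro h; linarith
    have n3 : 6 - e i ≠ 0 := by intro h; linarith
    field_simp
    linear_combination -hr

/-! ### smallness -/

structure Small {ι : Type} (l : Filter ι) (O : ι → BackOrbit) (τ : ι → ℕ) : Prop where
  xi : Tendsto (fun i => (O i).xi (τ i)) l (𝓝 0)
  up : Tendsto (fun i => (O i).up (τ i)) l (𝓝 0)
  xi' : Tendsto (fun i => (O i).xi' (τ i)) l (𝓝 0)
  up' : Tendsto (fun i => (O i).up' (τ i)) l (𝓝 0)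
  m : Tendsto (fun i => (O i).m (τ i)) l (𝓝 0)
  u : Tendsto (fun i => (O i).u (τ i)) l (𝓝 0)
  v : Tendsto (fun i => (O i).v (τ i)) l (𝓝 0)

theorem Good.core {r : Fin 4 → ℝ} (hr : IsRef r) {ι : Type} {l : Filter ι} {O : ι → BackOrbit}
    {τ : ι → ℕ} (hG : Good r l O τ) :
    Tendsto (fun i => (O i).h (2 * τ i) 0) l (𝓝 (-6)) ∧
    Tendsto (fun i => (O i).h (2 * τ i) 2) l (𝓝 6) ∧
    Tendsto (fun i => (O i).h (2 * τ i + 1) 0) l (𝓝 (-6)) ∧
    Tendsto (fun i => (O i).h (2 * τ i + 1) 2) l (𝓝 6) ∧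
    Tendsto (fun i => ((O i).h (2 * τ i + 1) 1 - (O i).h (2 * τ i) 1)
      / (3 - (O i).h (2 * τ i) 1)) l (𝓝 0) ∧
    Tendsto (fun i => ((O i).h (2 * τ i + 1) 1 - (O i).h (2 * τ i) 1)
      / (3 + (O i).h (2 * τ i) 1)) l (𝓝 0) ∧
    Tendsto (fun i => (-6 - (O i).h (2 * τ i) 0) / ((O i).h (2 * τ i + 1) 0 + 6)) l (𝓝 1) ∧
    Tendsto (fun i => (6 - (O i).h (2 * τ i) 2) / ((O i).h (2 * τ i + 1) 2 - 6)) l (𝓝 1) := by
  refine small_core (l := l) (fun i => (O i).h (2 * τ i) 0) (fun i => (O i).h (2 * τ i) 1)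
    (fun i => (O i).h (2 * τ i) 2) (fun i => (O i).h (2 * τ i + 1) 0)
    (fun i => (O i).h (2 * τ i + 1) 1) (fun i => (O i).h (2 * τ i + 1) 2)
    (fun j i => Q4 ((O i).p (2 * τ i)) (nd j) * Q4 ((O i).p (2 * τ i + 1)) (nd j)
      / (O i).sg (2 * τ i)) ?_ (fun i => ((O i).even (τ i)).h0) (fun i => ((O i).even (τ i)).h1)
    (fun i => ((O i).even (τ i)).h2) (fun i => ((O i).odd (τ i)).h0)
    (fun i => ((O i).odd (τ i)).h1) (fun i => ((O i).odd (τ i)).h2) ?_
  · intro j
    have h1 := ((Q4_tendsto hG.p0 (tendsto_const_nhds (x := nd j))).mul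
      (Q4_tendsto hG.p1 (tendsto_const_nhds (x := nd j)))).div hG.sg (by norm_num)
    rw [Q4_pe_mul_po hr, Fref_nd, div_one] at h1
    exact h1
  · intro i j
    have h1 := (O i).rel (2 * τ i) j
    have h2 := ((O i).sg_pos (2 * τ i)).ne'
    simp only [C3] at h1
    have h3 : (nd j - (O i).h (2 * τ i) 0) * (nd j - (O i).h (2 * τ i) 1)
        * (nd j - (O i).h (2 * τ i) 2) = (Q4 ((O i).p (2 * τ i)) (nd j)
        * Q4 ((O i).p (2 * τ i + 1)) (nd j) * ((nd j - (O i).h (2 * τ i + 1) 0)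
        * (nd j - (O i).h (2 * τ i + 1) 1) * (nd j - (O i).h (2 * τ i + 1) 2)))
        / (O i).sg (2 * τ i) := by
      rw [h1]
      field_simp
    rw [h3]
    ring

theorem Good.small {r : Fin 4 → ℝ} (hr : IsRef r) {ι : Type} {l : Filter ι} {O : ι → BackOrbit}
    {τ : ι → ℕ} (hG : Good r l O τ) : Small l O τ := by
  obtain ⟨Tx, Ty, Tx', Ty', q3, q3', ru, rv⟩ := hG.core hr
  refine ⟨?_, ?_, ?_, ?_, ?_, ?_, ?_⟩
  · have := tendsto_const_nhds (x := (-6 : ℝ)).sub Tx
    simpa [BackOrbit.xi] using this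
  · have := tendsto_const_nhds (x := (6 : ℝ)).sub Ty
    simpa [BackOrbit.up] using this
  · have := Tx'.add_const (6 : ℝ)
    simpa [BackOrbit.xi'] using this
  · have := Ty'.sub_const (6 : ℝ)
    simpa [BackOrbit.up'] using this
  · have := (q3.add q3').mul_const (1 / 6 : ℝ)
    simp only [add_zero, zero_mul] at this
    refine this.congr (fun i => ?_)
    obtain ⟨g3, g4⟩ := ((O i).even (τ i)).h1
    have n1 : 3 - (O i).h (2 * τ i) 1 ≠ 0 := by linarith
    have n2 : 3 + (O i).h (2 * τ i) 1 ≠ 0 := by linarith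
    have n3 : 9 - (O i).h (2 * τ i) 1 ^ 2 ≠ 0 := by nlinarith
    simp only [BackOrbit.m]
    field_simp
    ring
  · have := (Real.continuousAt_log (by norm_num : (1 : ℝ) ≠ 0)).tendsto.comp ru
    rw [Real.log_one] at this
    exact this
  · have := (Real.continuousAt_log (by norm_num : (1 : ℝ) ≠ 0)).tendsto.comp rv
    rw [Real.log_one] at this
    exact this

end Pool.Agent.Hhelper30.Forsythe
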