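import Pool.Agent.Hhelper30.Forsythe.FDefs
import Pool.Agent.Hhelper30.Forsythe.Ident

/-! Module F3: the exact identities (M) and (W) in the form used by module F (names `identM3`, `nodeW3`,
`identW3`; `identM`, `identW` are the versions of `Ident.lean`). -/
set_option autoImplicit false
namespace Pool.Agent.Hhelper30.Forsythe

theorem b_eq_b2 (O : BackOrbit) (t : ℕ) (z : ℝ) : O.b t z = b2 (O.h t) z := rfl

/-- (T) evaluated at the roots of `H_t`, and (M). -/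
theorem identM3 (O : BackOrbit) (t : ℕ) : ∃ tx te ty : ℝ, 0 ≤ tx ∧ 0 ≤ te ∧ 0 ≤ ty ∧
    tx + te + ty = O.sg t - O.sg (t + 1) ∧
    -(O.sg (t + 1) * C3 (O.h (t + 1)) (O.h t 0) ^ 2 * Q4 (O.p t) (O.h t 0))
      = Pi8 (O.h t 0) * tx * ((O.h t 0 - O.h t 1) * (O.h t 0 - O.h t 2)) ∧
    -(O.sg (t + 1) * C3 (O.h (t + 1)) (O.h t 1) ^ 2 * Q4 (O.p t) (O.h t 1))
      = Pi8 (O.h t 1) * te * ((O.h t 1 - O.h t 0) * (O.h t 1 - O.h t 2)) ∧
    -(O.sg (t + 1) * C3 (O.h (t + 1)) (O.h t 2) ^ 2 * Q4 (O.p t) (O.h t 2))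
      = Pi8 (O.h t 2) * ty * ((O.h t 2 - O.h t 0) * (O.h t 2 - O.h t 1)) ∧
    O.sg t * (O.h (t + 2) 1 - O.h (t + 1) 1) *
        (-(b2 (O.h (t + 2)) (O.h (t + 1) 1) * Q4 (O.p (t + 2)) (O.h (t + 1) 1))
          / Pi8 (O.h (t + 1) 1))
      = O.sg (t + 1) * (O.h (t + 1) 1 - O.h t 1) *
        (-(b2 (O.h (t + 1)) (O.h t 1) ^ 2 * Q4 (O.p t) (O.h t 1))
          / (Pi8 (O.h t 1) * b2 (O.h t) (O.h t 1)))
        + tx / (O.h (t + 1) 1 - O.h t 0) + ty / (O.h (t + 1) 1 - O.h t 2) := by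
  have h0 := h_lo O t
  have h1 := h_mid O t
  have h2 := h_hi O t
  have n01 : O.h t 0 - O.h t 1 ≠ 0 := by intro h; linarith [h0.2, h1.1]
  have n02 : O.h t 0 - O.h t 2 ≠ 0 := by intro h; linarith [h0.2, h2.1]
  have n12 : O.h t 1 - O.h t 2 ≠ 0 := by intro h; linarith [h1.2, h2.1]
  have n10 : O.h t 1 - O.h t 0 ≠ 0 := by intro h; linarith [h0.2, h1.1]
  have n20 : O.h t 2 - O.h t 0 ≠ 0 := by intro h; linarith [h0.2, h2.1]
  have n21 : O.h t 2 - O.h t 1 ≠ 0 := by intro h; linarith [h1.2, h2.1]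
  refine ⟨O.tx t, O.te t, O.ty t, tx_nonneg O t, te_nonneg O t, ty_nonneg O t, t_sum O t, ?_, ?_, ?_, ?_⟩
  · unfold BackOrbit.tx
    have := Pi8_h0_ne O t
    field_simp
  · unfold BackOrbit.te
    have := Pi8_h1_ne O t
    field_simp
  · unfold BackOrbit.ty
    have := Pi8_h2_ne O t
    field_simp
  · exact identM O t

/-- (W) at a node `i` (all 8 nodes) -/
theorem nodeW3 (O : BackOrbit) (t : ℕ) (i : Fin 8) :
    O.sg t * (nd i - O.h t 1) * (nd i - O.h (t + 2) 1) * Q4 (O.p (t + 2)) (nd i)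
        - O.sg (t + 1) * (nd i - O.h (t + 1) 1) ^ 2 * Q4 (O.p t) (nd i)
      = O.sg (t + 1) * (nd i - O.h (t + 1) 1) ^ 2 * Q4 (O.p t) (nd i)
        * (b2 (O.h (t + 1)) (nd i) ^ 2 / (b2 (O.h t) (nd i) * b2 (O.h (t + 2)) (nd i)) - 1) := by
  have h := W_node O t i
  unfold BackOrbit.W at h
  rw [← b_eq_b2, ← b_eq_b2, ← b_eq_b2, ← h]
  ring

theorem zp_nd (i : Fin 6) : ∃ j : Fin 8, zp i = nd j := by
  fin_cases i
  · exact ⟨0, rfl⟩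
  · exact ⟨2, rfl⟩
  · exact ⟨3, rfl⟩
  · exact ⟨4, rfl⟩
  · exact ⟨5, rfl⟩
  · exact ⟨7, rfl⟩

/-- (W): Lagrange interpolation on `Z⁺` of the sextic -/
theorem identW3 (O : BackOrbit) (t : ℕ) (z : ℝ) :
    O.sg t * (z - O.h t 1) * (z - O.h (t + 2) 1) * Q4 (O.p (t + 2)) z
        - O.sg (t + 1) * (z - O.h (t + 1) 1) ^ 2 * Q4 (O.p t) z
      = (O.sg t - O.sg (t + 1)) * PiP z
        + ∑ i, Lb i z * (O.sg (t + 1) * (zp i - O.h (t + 1) 1) ^ 2 * Q4 (O.p t) (zp i)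
          * (b2 (O.h (t + 1)) (zp i) ^ 2 / (b2 (O.h t) (zp i) * b2 (O.h (t + 2)) (zp i)) - 1)) := by
  have h := identW O t z
  have h2 : ∀ i, O.W t (zp i) = O.sg (t + 1) * (zp i - O.h (t + 1) 1) ^ 2 * Q4 (O.p t) (zp i)
          * (b2 (O.h (t + 1)) (zp i) ^ 2 / (b2 (O.h t) (zp i) * b2 (O.h (t + 2)) (zp i)) - 1) := by
    intro i
    obtain ⟨j, hj⟩ := zp_nd i
    rw [hj]
    exact W_node O t j
  simp only [h2] at h
  rw [← h]
  unfold BackOrbit.W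
  ring

end Pool.Agent.Hhelper30.Forsythe
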