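import Pool.Agent.Hhelper30.Forsythe.F2
import Pool.Agent.Hhelper30.Forsythe.F3

/-! Module F4: the clock increment, and the ultrafilter blow-up technique. -/

set_option autoImplicit false

namespace Pool.Agent.Hhelper30.Forsythe

open Filter Topology Set Asymptotics

/-! ### positivity -/

theorem BackOrbit.xi_pos (O : BackOrbit) (k : ℕ) : 0 < O.xi k := by
  have := (O.even k).h0.2
  unfold BackOrbit.xi
  linarith
theorem BackOrbit.up_pos (O : BackOrbit) (k : ℕ) : 0 < O.up k := by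
  have := (O.even k).h2.2
  unfold BackOrbit.up
  linarith
theorem BackOrbit.xi'_pos (O : BackOrbit) (k : ℕ) : 0 < O.xi' k := by
  have := (O.odd k).h0.1
  unfold BackOrbit.xi'
  linarith
theorem BackOrbit.up'_pos (O : BackOrbit) (k : ℕ) : 0 < O.up' k := by
  have := (O.odd k).h2.1
  unfold BackOrbit.up'
  linarith
theorem BackOrbit.E_pos (O : BackOrbit) (k : ℕ) : 0 < 9 - O.e k ^ 2 := by
  obtain ⟨h1, h2⟩ := (O.even k).h1
  unfold BackOrbit.e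
  nlinarith
theorem BackOrbit.E'_pos (O : BackOrbit) (k : ℕ) : 0 < 9 - O.e' k ^ 2 := by
  obtain ⟨h1, h2⟩ := (O.odd k).h1
  unfold BackOrbit.e'
  nlinarith
theorem BackOrbit.mE_nonneg (O : BackOrbit) (k : ℕ) : 0 ≤ O.m k ^ 2 * (9 - O.e k ^ 2) :=
  mul_nonneg (sq_nonneg _) (O.E_pos k).le
theorem BackOrbit.s_pos (O : BackOrbit) (k : ℕ) : 0 < O.s k := by
  have h1 := O.xi_pos k
  have h2 := O.up_pos k
  have h3 := O.mE_nonneg k
  unfold BackOrbit.s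
  linarith
theorem BackOrbit.e_mem (O : BackOrbit) (k : ℕ) : O.e k ∈ Icc (-3 : ℝ) 3 := by
  obtain ⟨h1, h2⟩ := (O.even k).h1
  exact ⟨h1.le, h2.le⟩

/-! ### the blow-up technique -/

/-- `U` is a filter along which everything converges. -/
structure Blow {ι : Type} (U : Filter ι) (O : ι → BackOrbit) (τ : ι → ℕ) (e0 α β γ : ℝ) :
    Prop where
  mem : e0 ∈ Icc (-3 : ℝ) 3
  e : Tendsto (fun i => (O i).e (τ i)) U (𝓝 e0)
  xi : Tendsto (fun i => (O i).xi (τ i) / (O i).s (τ i)) U (𝓝 α)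
  up : Tendsto (fun i => (O i).up (τ i) / (O i).s (τ i)) U (𝓝 β)
  mE : Tendsto (fun i => (O i).m (τ i) ^ 2 * (9 - (O i).e (τ i) ^ 2) / (O i).s (τ i)) U (𝓝 γ)

theorem tendsto_of_ultra {ι : Type} {a b : ℝ} (f : ι → ℝ) (hf : ∀ i, f i ∈ Icc a b)
    (U : Ultrafilter ι) : ∃ c ∈ Icc a b, Tendsto f U (𝓝 c) := by
  have h := (isCompact_Icc (a := a) (b := b)).ultrafilter_le_nhds (U.map f) ?_
  · obtain ⟨c, hc, h⟩ := h
    exact ⟨c, hc, h⟩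
  · rw [le_principal_iff]
    exact Filter.eventually_map.2 (Eventually.of_forall hf)

theorem exists_blow {ι : Type} (O : ι → BackOrbit) (τ : ι → ℕ) (U : Ultrafilter ι) :
    ∃ e0 α β γ : ℝ, Blow (U : Filter ι) O τ e0 α β γ := by
  obtain ⟨e0, he0, h0⟩ := tendsto_of_ultra (fun i => (O i).e (τ i)) (fun i => (O i).e_mem _) U
  obtain ⟨α, -, h1⟩ := tendsto_of_ultra (a := 0) (b := 1)
    (fun i => (O i).xi (τ i) / (O i).s (τ i)) (fun i => by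
      have := (O i).xi_pos (τ i)
      have h2 := (O i).up_pos (τ i)
      have h3 := (O i).mE_nonneg (τ i)
      refine ⟨div_nonneg this.le ((O i).s_pos _).le, ?_⟩
      rw [div_le_one ((O i).s_pos _)]
      unfold BackOrbit.s
      linarith) U
  obtain ⟨β, -, h2⟩ := tendsto_of_ultra (a := 0) (b := 1)
    (fun i => (O i).up (τ i) / (O i).s (τ i)) (fun i => by
      have := (O i).xi_pos (τ i)
      have h2 := (O i).up_pos (τ i)
      have h3 := (O i).mE_nonneg (τ i)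
      refine ⟨div_nonneg h2.le ((O i).s_pos _).le, ?_⟩
      rw [div_le_one ((O i).s_pos _)]
      unfold BackOrbit.s
      linarith) U
  obtain ⟨γ, -, h3⟩ := tendsto_of_ultra (a := 0) (b := 1)
    (fun i => (O i).m (τ i) ^ 2 * (9 - (O i).e (τ i) ^ 2) / (O i).s (τ i)) (fun i => by
      have := (O i).xi_pos (τ i)
      have h2 := (O i).up_pos (τ i)
      have h3 := (O i).mE_nonneg (τ i)
      refine ⟨div_nonneg h3 ((O i).s_pos _).le, ?_⟩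
      rw [div_le_one ((O i).s_pos _)]
      unfold BackOrbit.s
      linarith) U
  exact ⟨e0, α, β, γ, he0, h0, h1, h2, h3⟩

/-- To prove `f = o(s)` it suffices to compute limits along blow-up filters. -/
theorem isLittleO_of_blow {ι : Type} {l : Filter ι} {O : ι → BackOrbit} {τ : ι → ℕ}
    {f : ι → ℝ}
    (H : ∀ U : Filter ι, U ≤ l → ∀ e0 α β γ : ℝ, Blow U O τ e0 α β γ →
      Tendsto (fun i => f i / (O i).s (τ i)) U (𝓝 0)) :
    f =o[l] (fun i => (O i).s (τ i)) := by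
  refine isLittleO_of_tendsto (fun i hi => absurd hi ((O i).s_pos _).ne') ?_
  rw [tendsto_iff_ultrafilter]
  intro U hU
  obtain ⟨e0, α, β, γ, h⟩ := exists_blow O τ U
  exact H U hU e0 α β γ h

theorem Good.mono {r : Fin 4 → ℝ} {ι : Type} {l U : Filter ι} {O : ι → BackOrbit}
    {τ : ι → ℕ} (hG : Good r l O τ) (hU : U ≤ l) : Good r U O τ :=
  ⟨fun j => (hG.p0 j).mono_left hU, fun j => (hG.p1 j).mono_left hU, hG.sg.mono_left hU⟩

/-! ### explicit `tx, te, ty` (divided by `sg (t+1)`) -/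

/-- `tx / sg_{t+1}`, `t = 2k` -/
noncomputable def BackOrbit.tx0 (O : BackOrbit) (k : ℕ) : ℝ :=
  O.xi k * ((1 + O.xi' k / O.xi k) ^ 2 * ((O.h (2 * k) 0 - O.h (2 * k + 1) 1) ^ 2
    * (O.h (2 * k) 0 - O.h (2 * k + 1) 2) ^ 2 * Q4 (O.p (2 * k)) (O.h (2 * k) 0))
    / ((O.h (2 * k) 0 - 6) * PiP (O.h (2 * k) 0) * (O.h (2 * k) 0 - O.h (2 * k) 1)
      * (O.h (2 * k) 0 - O.h (2 * k) 2)))

/-- `te / sg_{t+1}`, `t = 2k` -/
noncomputable def BackOrbit.te0 (O : BackOrbit) (k : ℕ) : ℝ :=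
  O.m k ^ 2 * (9 - O.e k ^ 2) * (((O.h (2 * k) 1 - O.h (2 * k + 1) 0) ^ 2
    * (O.h (2 * k) 1 - O.h (2 * k + 1) 2) ^ 2 * Q4 (O.p (2 * k)) (O.h (2 * k) 1))
    / ((O.h (2 * k) 1 ^ 2 - 36) * PiT (O.h (2 * k) 1) * (O.h (2 * k) 1 - O.h (2 * k) 0)
      * (O.h (2 * k) 1 - O.h (2 * k) 2)))

/-- `ty / sg_{t+1}`, `t = 2k` -/
noncomputable def BackOrbit.ty0 (O : BackOrbit) (k : ℕ) : ℝ :=
  O.up k * ((1 + O.up' k / O.up k) ^ 2 * ((O.h (2 * k) 2 - O.h (2 * k + 1) 0) ^ 2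
    * (O.h (2 * k) 2 - O.h (2 * k + 1) 1) ^ 2 * Q4 (O.p (2 * k)) (O.h (2 * k) 2))
    / ((O.h (2 * k) 2 + 6) * PiP (O.h (2 * k) 2) * (O.h (2 * k) 2 - O.h (2 * k) 0)
      * (O.h (2 * k) 2 - O.h (2 * k) 1)))

theorem Pi8_eq (z : ℝ) : Pi8 z = (z + 6) * (z - 6) * PiP z := by
  unfold Pi8 PiP
  ring

theorem Pi8_eq' (z : ℝ) : Pi8 z = -(9 - z ^ 2) * ((z ^ 2 - 36) * PiT z) := by
  unfold Pi8 PiT
  ring

theorem tx0_spec (O : BackOrbit) (k : ℕ) (tx : ℝ)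
    (hx : -(O.sg (2 * k + 1) * C3 (O.h (2 * k + 1)) (O.h (2 * k) 0) ^ 2
        * Q4 (O.p (2 * k)) (O.h (2 * k) 0))
      = Pi8 (O.h (2 * k) 0) * tx * ((O.h (2 * k) 0 - O.h (2 * k) 1)
        * (O.h (2 * k) 0 - O.h (2 * k) 2))) :
    tx = O.sg (2 * k + 1) * O.tx0 k := by
  obtain ⟨-, -, -, -, ⟨a5, b5⟩, ⟨a6, b6⟩, ⟨a7, b7⟩⟩ := O.even k
  have h1 := O.xi_pos k
  have hP : PiP (O.h (2 * k) 0) ≠ 0 := by
    unfold PiP
    have e1 : O.h (2 * k) 0 ^ 2 - 9 ≠ 0 := by nlinarith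
    have e2 : O.h (2 * k) 0 ^ 2 - 25 ≠ 0 := by nlinarith
    have e3 : O.h (2 * k) 0 ^ 2 - 100 ≠ 0 := by nlinarith
    exact mul_ne_zero (mul_ne_zero e1 e2) e3
  have hD : (O.h (2 * k) 0 - 6) * PiP (O.h (2 * k) 0) * (O.h (2 * k) 0 - O.h (2 * k) 1)
    * (O.h (2 * k) 0 - O.h (2 * k) 2) ≠ 0 := by
    refine mul_ne_zero (mul_ne_zero (mul_ne_zero ?_ hP) ?_) ?_ <;> linarith
  have hE : Pi8 (O.h (2 * k) 0) * ((O.h (2 * k) 0 - O.h (2 * k) 1)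
      * (O.h (2 * k) 0 - O.h (2 * k) 2)) = -O.xi k * ((O.h (2 * k) 0 - 6)
      * PiP (O.h (2 * k) 0) * (O.h (2 * k) 0 - O.h (2 * k) 1)
      * (O.h (2 * k) 0 - O.h (2 * k) 2)) := by
    rw [Pi8_eq, BackOrbit.xi]
    ring
  have hc : O.xi k * (1 + O.xi' k / O.xi k) = O.h (2 * k + 1) 0 - O.h (2 * k) 0 := by
    have : O.xi k * (1 + O.xi' k / O.xi k) = O.xi k + O.xi' k := by field_simp
    rw [this, BackOrbit.xi, BackOrbit.xi']
    ring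
  have hne : Pi8 (O.h (2 * k) 0) * ((O.h (2 * k) 0 - O.h (2 * k) 1)
      * (O.h (2 * k) 0 - O.h (2 * k) 2)) ≠ 0 := by
    rw [hE]
    exact mul_ne_zero (by linarith) hD
  refine mul_left_cancel₀ hne ?_
  have h2 : Pi8 (O.h (2 * k) 0) * ((O.h (2 * k) 0 - O.h (2 * k) 1)
      * (O.h (2 * k) 0 - O.h (2 * k) 2)) * tx = -(O.sg (2 * k + 1)
      * C3 (O.h (2 * k + 1)) (O.h (2 * k) 0) ^ 2 * Q4 (O.p (2 * k)) (O.h (2 * k) 0)) := by
    rw [hx]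
    ring
  rw [h2, hE, BackOrbit.tx0]
  generalize hDD : (O.h (2 * k) 0 - 6)
      * PiP (O.h (2 * k) 0) * (O.h (2 * k) 0 - O.h (2 * k) 1)
      * (O.h (2 * k) 0 - O.h (2 * k) 2) = D at hD ⊢
  have h3 : C3 (O.h (2 * k + 1)) (O.h (2 * k) 0) = -(O.xi k * (1 + O.xi' k / O.xi k))
      * ((O.h (2 * k) 0 - O.h (2 * k + 1) 1) * (O.h (2 * k) 0 - O.h (2 * k + 1) 2)) := by
    rw [hc, C3]
    ring
  rw [h3]
  field_simp

theorem te0_spec (O : BackOrbit) (k : ℕ) (te : ℝ)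
    (he : -(O.sg (2 * k + 1) * C3 (O.h (2 * k + 1)) (O.h (2 * k) 1) ^ 2
        * Q4 (O.p (2 * k)) (O.h (2 * k) 1))
      = Pi8 (O.h (2 * k) 1) * te * ((O.h (2 * k) 1 - O.h (2 * k) 0)
        * (O.h (2 * k) 1 - O.h (2 * k) 2))) :
    te = O.sg (2 * k + 1) * O.te0 k := by
  obtain ⟨-, -, -, -, ⟨a5, b5⟩, ⟨a6, b6⟩, ⟨a7, b7⟩⟩ := O.even k
  have h1 := O.E_pos k
  have hP : (O.h (2 * k) 1 ^ 2 - 36) * PiT (O.h (2 * k) 1) ≠ 0 := by
    unfold PiT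
    have e1 : O.h (2 * k) 1 ^ 2 - 36 ≠ 0 := by nlinarith
    have e2 : 25 - O.h (2 * k) 1 ^ 2 ≠ 0 := by nlinarith
    have e3 : 100 - O.h (2 * k) 1 ^ 2 ≠ 0 := by nlinarith
    exact mul_ne_zero e1 (mul_ne_zero e2 e3)
  have hD : (O.h (2 * k) 1 ^ 2 - 36) * PiT (O.h (2 * k) 1) * (O.h (2 * k) 1 - O.h (2 * k) 0)
    * (O.h (2 * k) 1 - O.h (2 * k) 2) ≠ 0 := by
    refine mul_ne_zero (mul_ne_zero hP ?_) ?_ <;> linarith
  have hE : Pi8 (O.h (2 * k) 1) * ((O.h (2 * k) 1 - O.h (2 * k) 0)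
      * (O.h (2 * k) 1 - O.h (2 * k) 2)) = -(9 - O.e k ^ 2) * ((O.h (2 * k) 1 ^ 2 - 36)
      * PiT (O.h (2 * k) 1) * (O.h (2 * k) 1 - O.h (2 * k) 0)
      * (O.h (2 * k) 1 - O.h (2 * k) 2)) := by
    rw [Pi8_eq', BackOrbit.e]
    ring
  have hc : O.m k * (9 - O.e k ^ 2) = O.h (2 * k + 1) 1 - O.h (2 * k) 1 := by
    have h1' : 9 - O.h (2 * k) 1 ^ 2 ≠ 0 := h1.ne'
    rw [BackOrbit.m, BackOrbit.e]
    field_simp
  have hne : Pi8 (O.h (2 * k) 1) * ((O.h (2 * k) 1 - O.h (2 * k) 0)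
      * (O.h (2 * k) 1 - O.h (2 * k) 2)) ≠ 0 := by
    rw [hE]
    exact mul_ne_zero (by linarith) hD
  refine mul_left_cancel₀ hne ?_
  have h2 : Pi8 (O.h (2 * k) 1) * ((O.h (2 * k) 1 - O.h (2 * k) 0)
      * (O.h (2 * k) 1 - O.h (2 * k) 2)) * te = -(O.sg (2 * k + 1)
      * C3 (O.h (2 * k + 1)) (O.h (2 * k) 1) ^ 2 * Q4 (O.p (2 * k)) (O.h (2 * k) 1)) := by
    rw [he]
    ring
  rw [h2, hE, BackOrbit.te0]
  generalize hDD : (O.h (2 * k) 1 ^ 2 - 36)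
      * PiT (O.h (2 * k) 1) * (O.h (2 * k) 1 - O.h (2 * k) 0)
      * (O.h (2 * k) 1 - O.h (2 * k) 2) = D at hD ⊢
  have h3 : C3 (O.h (2 * k + 1)) (O.h (2 * k) 1) = -(O.m k * (9 - O.e k ^ 2))
      * ((O.h (2 * k) 1 - O.h (2 * k + 1) 0) * (O.h (2 * k) 1 - O.h (2 * k + 1) 2)) := by
    rw [hc, C3]
    ring
  rw [h3]
  field_simp

theorem ty0_spec (O : BackOrbit) (k : ℕ) (ty : ℝ)
    (hy : -(O.sg (2 * k + 1) * C3 (O.h (2 * k + 1)) (O.h (2 * k) 2) ^ 2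
        * Q4 (O.p (2 * k)) (O.h (2 * k) 2))
      = Pi8 (O.h (2 * k) 2) * ty * ((O.h (2 * k) 2 - O.h (2 * k) 0)
        * (O.h (2 * k) 2 - O.h (2 * k) 1))) :
    ty = O.sg (2 * k + 1) * O.ty0 k := by
  obtain ⟨-, -, -, -, ⟨a5, b5⟩, ⟨a6, b6⟩, ⟨a7, b7⟩⟩ := O.even k
  have h1 := O.up_pos k
  have hP : PiP (O.h (2 * k) 2) ≠ 0 := by
    unfold PiP
    have e1 : O.h (2 * k) 2 ^ 2 - 9 ≠ 0 := by nlinarith
    have e2 : O.h (2 * k) 2 ^ 2 - 25 ≠ 0 := by nlinarith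
    have e3 : O.h (2 * k) 2 ^ 2 - 100 ≠ 0 := by nlinarith
    exact mul_ne_zero (mul_ne_zero e1 e2) e3
  have hD : (O.h (2 * k) 2 + 6) * PiP (O.h (2 * k) 2) * (O.h (2 * k) 2 - O.h (2 * k) 0)
    * (O.h (2 * k) 2 - O.h (2 * k) 1) ≠ 0 := by
    refine mul_ne_zero (mul_ne_zero (mul_ne_zero ?_ hP) ?_) ?_ <;> linarith
  have hE : Pi8 (O.h (2 * k) 2) * ((O.h (2 * k) 2 - O.h (2 * k) 0)
      * (O.h (2 * k) 2 - O.h (2 * k) 1)) = -O.up k * ((O.h (2 * k) 2 + 6)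
      * PiP (O.h (2 * k) 2) * (O.h (2 * k) 2 - O.h (2 * k) 0)
      * (O.h (2 * k) 2 - O.h (2 * k) 1)) := by
    rw [Pi8_eq, BackOrbit.up]
    ring
  have hc : O.up k * (1 + O.up' k / O.up k) = O.h (2 * k + 1) 2 - O.h (2 * k) 2 := by
    have : O.up k * (1 + O.up' k / O.up k) = O.up k + O.up' k := by field_simp
    rw [this, BackOrbit.up, BackOrbit.up']
    ring
  have hne : Pi8 (O.h (2 * k) 2) * ((O.h (2 * k) 2 - O.h (2 * k) 0)
      * (O.h (2 * k) 2 - O.h (2 * k) 1)) ≠ 0 := by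
    rw [hE]
    exact mul_ne_zero (by linarith) hD
  refine mul_left_cancel₀ hne ?_
  have h2 : Pi8 (O.h (2 * k) 2) * ((O.h (2 * k) 2 - O.h (2 * k) 0)
      * (O.h (2 * k) 2 - O.h (2 * k) 1)) * ty = -(O.sg (2 * k + 1)
      * C3 (O.h (2 * k + 1)) (O.h (2 * k) 2) ^ 2 * Q4 (O.p (2 * k)) (O.h (2 * k) 2)) := by
    rw [hy]
    ring
  rw [h2, hE, BackOrbit.ty0]
  generalize hDD : (O.h (2 * k) 2 + 6)
      * PiP (O.h (2 * k) 2) * (O.h (2 * k) 2 - O.h (2 * k) 0)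
      * (O.h (2 * k) 2 - O.h (2 * k) 1) = D at hD ⊢
  have h3 : C3 (O.h (2 * k + 1)) (O.h (2 * k) 2) = -(O.up k * (1 + O.up' k / O.up k))
      * ((O.h (2 * k) 2 - O.h (2 * k + 1) 0) * (O.h (2 * k) 2 - O.h (2 * k + 1) 1)) := by
    rw [hc, C3]
    ring
  rw [h3]
  field_simp

/-- the values of `tx, te, ty` in `identM` -/
theorem identM_even (O : BackOrbit) (k : ℕ) :
    O.sg (2 * k + 1) * O.tx0 k + O.sg (2 * k + 1) * O.te0 k + O.sg (2 * k + 1) * O.ty0 k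
      = O.sg (2 * k) - O.sg (2 * k + 1) ∧
    O.sg (2 * k) * (O.h (2 * k + 2) 1 - O.h (2 * k + 1) 1) *
        (-(b2 (O.h (2 * k + 2)) (O.h (2 * k + 1) 1) * Q4 (O.p (2 * k + 2)) (O.h (2 * k + 1) 1))
          / Pi8 (O.h (2 * k + 1) 1))
      = O.sg (2 * k + 1) * (O.h (2 * k + 1) 1 - O.h (2 * k) 1) *
        (-(b2 (O.h (2 * k + 1)) (O.h (2 * k) 1) ^ 2 * Q4 (O.p (2 * k)) (O.h (2 * k) 1))
          / (Pi8 (O.h (2 * k) 1) * b2 (O.h (2 * k)) (O.h (2 * k) 1)))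
        + O.sg (2 * k + 1) * O.tx0 k / (O.h (2 * k + 1) 1 - O.h (2 * k) 0)
        + O.sg (2 * k + 1) * O.ty0 k / (O.h (2 * k + 1) 1 - O.h (2 * k) 2) := by
  obtain ⟨tx, te, ty, -, -, -, hs, hx, he, hy, hM⟩ := identM3 O (2 * k)
  have ex := tx0_spec O k tx hx
  have ee := te0_spec O k te he
  have ey := ty0_spec O k ty hy
  rw [ex, ee, ey] at hs
  rw [ex, ey] at hM
  exact ⟨hs, hM⟩

/-! ### limits -/

/-- basic limits along a filter on which `η` converges -/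
structure Lim (r : Fin 4 → ℝ) {ι : Type} (U : Filter ι) (O : ι → BackOrbit) (τ : ι → ℕ)
    (e0 : ℝ) : Prop where
  mem : e0 ∈ Icc (-3 : ℝ) 3
  p0 : ∀ j, Tendsto (fun i => (O i).p (2 * τ i) j) U (𝓝 (pe r j))
  sg : Tendsto (fun i => (O i).sg (2 * τ i)) U (𝓝 1)
  e : Tendsto (fun i => (O i).h (2 * τ i) 1) U (𝓝 e0)
  e' : Tendsto (fun i => (O i).h (2 * τ i + 1) 1) U (𝓝 e0)
  x : Tendsto (fun i => (O i).h (2 * τ i) 0) U (𝓝 (-6))
  x' : Tendsto (fun i => (O i).h (2 * τ i + 1) 0) U (𝓝 (-6))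
  y : Tendsto (fun i => (O i).h (2 * τ i) 2) U (𝓝 6)
  y' : Tendsto (fun i => (O i).h (2 * τ i + 1) 2) U (𝓝 6)
  rx : Tendsto (fun i => (O i).xi' (τ i) / (O i).xi (τ i)) U (𝓝 1)
  ry : Tendsto (fun i => (O i).up' (τ i) / (O i).up (τ i)) U (𝓝 1)
  m : Tendsto (fun i => (O i).m (τ i)) U (𝓝 0)
  xi : Tendsto (fun i => (O i).xi (τ i)) U (𝓝 0)
  up : Tendsto (fun i => (O i).up (τ i)) U (𝓝 0)

theorem Good.lim {r : Fin 4 → ℝ} (hr : IsRef r) {ι : Type} {l U : Filter ι}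
    {O : ι → BackOrbit} {τ : ι → ℕ} (hG : Good r l O τ) (hU : U ≤ l) {e0 : ℝ}
    (he0 : e0 ∈ Icc (-3 : ℝ) 3) (he : Tendsto (fun i => (O i).e (τ i)) U (𝓝 e0)) :
    Lim r U O τ e0 := by
  have hG' := hG.mono hU
  obtain ⟨Tx, Ty, Tx', Ty', q3, q3', ru, rv⟩ := hG'.core hr
  have hs := hG'.small hr
  have he1 : Tendsto (fun i => (O i).h (2 * τ i) 1) U (𝓝 e0) := he
  refine ⟨he0, hG'.p0, hG'.sg, he1, ?_, Tx, Tx', Ty, Ty', ?_, ?_, hs.m, hs.xi, hs.up⟩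
  · have h1 := (q3.mul ((tendsto_const_nhds (x := (3 : ℝ))).sub he1)).add he1
    rw [zero_mul, zero_add] at h1
    refine h1.congr (fun i => ?_)
    obtain ⟨g3, g4⟩ := ((O i).even (τ i)).h1
    have n1 : 3 - (O i).h (2 * τ i) 1 ≠ 0 := by linarith
    field_simp
    ring
  · have h1 := ru.inv₀ (by norm_num)
    rw [inv_one] at h1
    refine h1.congr (fun i => ?_)
    rw [inv_div]
    rfl
  · have h1 := rv.inv₀ (by norm_num)
    rw [inv_one] at h1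
    refine h1.congr (fun i => ?_)
    rw [inv_div]
    rfl

section
variable {r : Fin 4 → ℝ} {ι : Type} {U : Filter ι} {O : ι → BackOrbit} {τ : ι → ℕ} {e0 : ℝ}

theorem Lim.tx0 (h : Lim r U O τ e0) :
    Tendsto (fun i => (O i).tx0 (τ i) / (O i).xi (τ i)) U (𝓝 (th r (-6) e0)) := by
  obtain ⟨m1, m2⟩ := h.mem
  have h1 := ((((tendsto_const_nhds (x := (1 : ℝ))).add h.rx).pow 2).mul
    ((((h.x.sub h.e').pow 2).mul ((h.x.sub h.y').pow 2)).mul (Q4_tendsto h.p0 h.x))).div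
    ((((h.x.sub_const 6).mul ((((h.x.pow 2).sub_const 9).mul ((h.x.pow 2).sub_const 25)).mul
      ((h.x.pow 2).sub_const 100))).mul (h.x.sub h.e)).mul (h.x.sub h.y))
    (by
      have : (-6 : ℝ) - e0 ≠ 0 := by linarith
      refine mul_ne_zero (mul_ne_zero (by norm_num) this) (by norm_num))
  have e1 : th r (-6) e0 = (1 + 1) ^ 2 * ((-6 - e0) ^ 2 * (-6 - 6) ^ 2 * Q4 (pe r) (-6))
      / ((-6 - 6) * (((-6) ^ 2 - 9) * ((-6) ^ 2 - 25) * ((-6) ^ 2 - 100)) * (-6 - e0)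
        * (-6 - 6)) := by
    have : (-6 : ℝ) - e0 ≠ 0 := by linarith
    rw [th, PiP]
    field_simp
    ring
  rw [e1]
  refine h1.congr (fun i => ?_)
  have hx := ((O i).xi_pos (τ i)).ne'
  rw [BackOrbit.tx0, mul_div_cancel_left₀ _ hx]
  simp only [Pi.div_apply, PiP]

theorem Lim.te0 (h : Lim r U O τ e0) :
    Tendsto (fun i => ((O i).h (2 * τ i) 1 - (O i).h (2 * τ i + 1) 0) ^ 2
      * ((O i).h (2 * τ i) 1 - (O i).h (2 * τ i + 1) 2) ^ 2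
      * Q4 ((O i).p (2 * τ i)) ((O i).h (2 * τ i) 1)
      / (((O i).h (2 * τ i) 1 ^ 2 - 36) * PiT ((O i).h (2 * τ i) 1)
      * ((O i).h (2 * τ i) 1 - (O i).h (2 * τ i) 0)
      * ((O i).h (2 * τ i) 1 - (O i).h (2 * τ i) 2))) U (𝓝 (Q4 (pe r) e0 / PiT e0)) := by
  obtain ⟨m1, m2⟩ := h.mem
  have n1 : e0 ^ 2 - 36 ≠ 0 := by nlinarith
  have n2 : e0 - -6 ≠ 0 := by linarith
  have n3 : e0 - 6 ≠ 0 := by linarith
  have n4 : 25 - e0 ^ 2 ≠ 0 := by nlinarith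
  have n5 : 100 - e0 ^ 2 ≠ 0 := by nlinarith
  have h1 := ((((h.e.sub h.x').pow 2).mul ((h.e.sub h.y').pow 2)).mul (Q4_tendsto h.p0 h.e)).div
    ((((((h.e.pow 2).sub_const 36).mul
      (((tendsto_const_nhds (x := (25 : ℝ))).sub (h.e.pow 2)).mul
        ((tendsto_const_nhds (x := (100 : ℝ))).sub (h.e.pow 2))))).mul
          (h.e.sub h.x)).mul (h.e.sub h.y))
    (by
      exact mul_ne_zero (mul_ne_zero (mul_ne_zero n1 (mul_ne_zero n4 n5)) n2) n3)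
  have e1 : Q4 (pe r) e0 / PiT e0 = (e0 - -6) ^ 2 * (e0 - 6) ^ 2 * Q4 (pe r) e0
      / ((e0 ^ 2 - 36) * ((25 - e0 ^ 2) * (100 - e0 ^ 2)) * (e0 - -6) * (e0 - 6)) := by
    have n6 : e0 + 6 ≠ 0 := by linarith
    have : e0 ^ 2 - 36 = (e0 + 6) * (e0 - 6) := by ring
    rw [this, PiT, show e0 - -6 = e0 + 6 by ring]
    field_simp
  rw [e1]
  refine h1.congr (fun i => ?_)
  simp only [Pi.div_apply, PiT]

theorem Lim.ty0 (h : Lim r U O τ e0) :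
    Tendsto (fun i => (O i).ty0 (τ i) / (O i).up (τ i)) U (𝓝 (th r 6 e0)) := by
  obtain ⟨m1, m2⟩ := h.mem
  have h1 := ((((tendsto_const_nhds (x := (1 : ℝ))).add h.ry).pow 2).mul
    ((((h.y.sub h.x').pow 2).mul ((h.y.sub h.e').pow 2)).mul (Q4_tendsto h.p0 h.y))).div
    ((((h.y.add_const 6).mul ((((h.y.pow 2).sub_const 9).mul ((h.y.pow 2).sub_const 25)).mul
      ((h.y.pow 2).sub_const 100))).mul (h.y.sub h.x)).mul (h.y.sub h.e))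
    (by
      have : (6 : ℝ) - e0 ≠ 0 := by linarith
      refine mul_ne_zero (mul_ne_zero (by norm_num) (by norm_num)) this)
  have e1 : th r 6 e0 = (1 + 1) ^ 2 * ((6 - -6) ^ 2 * (6 - e0) ^ 2 * Q4 (pe r) 6)
      / ((6 + 6) * ((6 ^ 2 - 9) * (6 ^ 2 - 25) * (6 ^ 2 - 100)) * (6 - -6)
        * (6 - e0)) := by
    have : (6 : ℝ) - e0 ≠ 0 := by linarith
    rw [th, PiP]
    field_simp
    ring
  rw [e1]
  refine h1.congr (fun i => ?_)
  have hx := ((O i).up_pos (τ i)).ne'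
  rw [BackOrbit.ty0, mul_div_cancel_left₀ _ hx]
  simp only [Pi.div_apply, PiP]

theorem Lim.tx0_zero (h : Lim r U O τ e0) :
    Tendsto (fun i => (O i).tx0 (τ i)) U (𝓝 0) := by
  have := h.xi.mul h.tx0
  rw [zero_mul] at this
  refine this.congr (fun i => ?_)
  have hx := ((O i).xi_pos (τ i)).ne'
  field_simp

theorem Lim.ty0_zero (h : Lim r U O τ e0) :
    Tendsto (fun i => (O i).ty0 (τ i)) U (𝓝 0) := by
  have := h.up.mul h.ty0
  rw [zero_mul] at this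
  refine this.congr (fun i => ?_)
  have hx := ((O i).up_pos (τ i)).ne'
  field_simp

theorem Lim.te0_zero (h : Lim r U O τ e0) :
    Tendsto (fun i => (O i).te0 (τ i)) U (𝓝 0) := by
  have h1 := ((h.m.pow 2).mul ((tendsto_const_nhds (x := (9 : ℝ))).sub (h.e.pow 2))).mul h.te0
  norm_num at h1
  exact h1.congr (fun i => rfl)

theorem Lim.sg' (h : Lim r U O τ e0) :
    Tendsto (fun i => (O i).sg (2 * τ i + 1)) U (𝓝 1) := by
  have h0 := ((tendsto_const_nhds (x := (1 : ℝ))).add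
    ((h.tx0_zero.add h.te0_zero).add h.ty0_zero))
  have h1 := h.sg.div h0 (by norm_num)
  have e : (1 : ℝ) / (1 + (0 + 0 + 0)) = 1 := by norm_num
  rw [e] at h1
  have h2 : ∀ᶠ i in U, (1 : ℝ) + ((O i).tx0 (τ i) + (O i).te0 (τ i) + (O i).ty0 (τ i)) ≠ 0 :=
    h0.eventually_ne (by norm_num)
  refine h1.congr' ?_
  filter_upwards [h2] with i hi
  have h3 := (identM_even (O i) (τ i)).1
  simp only [Pi.div_apply]
  rw [div_eq_iff hi]
  linarith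

/-- the clock increment is `~ α th_x + β th_y + γ P/PiT` -/
theorem Lim.clock (h : Lim r U O τ e0) {α β γ : ℝ} (hB : Blow U O τ e0 α β γ) :
    Tendsto (fun i => ((O i).sg (2 * τ i) - (O i).sg (2 * τ i + 1)) / (O i).s (τ i)) U
      (𝓝 (α * th r (-6) e0 + β * th r 6 e0 + γ * (Q4 (pe r) e0 / PiT e0))) := by
  have h1 := h.sg'.mul (((hB.xi.mul h.tx0).add (hB.up.mul h.ty0)).add (hB.mE.mul h.te0))
  rw [one_mul] at h1
  refine h1.congr (fun i => ?_)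
  rw [← (identM_even (O i) (τ i)).1]
  have hx := ((O i).xi_pos (τ i)).ne'
  have hy := ((O i).up_pos (τ i)).ne'
  have hs := ((O i).s_pos (τ i)).ne'
  have e1 : (O i).te0 (τ i) = (O i).m (τ i) ^ 2 * (9 - (O i).e (τ i) ^ 2) *
      (((O i).h (2 * τ i) 1 - (O i).h (2 * τ i + 1) 0) ^ 2
      * ((O i).h (2 * τ i) 1 - (O i).h (2 * τ i + 1) 2) ^ 2
      * Q4 ((O i).p (2 * τ i)) ((O i).h (2 * τ i) 1)
      / (((O i).h (2 * τ i) 1 ^ 2 - 36) * PiT ((O i).h (2 * τ i) 1)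
      * ((O i).h (2 * τ i) 1 - (O i).h (2 * τ i) 0)
      * ((O i).h (2 * τ i) 1 - (O i).h (2 * τ i) 2))) := rfl
  rw [e1]
  generalize (((O i).h (2 * τ i) 1 - (O i).h (2 * τ i + 1) 0) ^ 2
      * ((O i).h (2 * τ i) 1 - (O i).h (2 * τ i + 1) 2) ^ 2
      * Q4 ((O i).p (2 * τ i)) ((O i).h (2 * τ i) 1)
      / (((O i).h (2 * τ i) 1 ^ 2 - 36) * PiT ((O i).h (2 * τ i) 1)
      * ((O i).h (2 * τ i) 1 - (O i).h (2 * τ i) 0)
      * ((O i).h (2 * τ i) 1 - (O i).h (2 * τ i) 2))) = φ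
  field_simp
  ring

end

/-- continuity of the coefficient functions along `η → e0` -/
theorem th_tendsto {r : Fin 4 → ℝ} {ι : Type} {U : Filter ι} {f : ι → ℝ} {e0 : ℝ} (s : ℝ)
    (h : Tendsto f U (𝓝 e0)) : Tendsto (fun i => th r s (f i)) U (𝓝 (th r s e0)) := by
  unfold th
  exact (((tendsto_const_nhds.sub h).const_mul 4).mul_const _).div_const _

theorem QT_tendsto {r : Fin 4 → ℝ} {ι : Type} {U : Filter ι} {f : ι → ℝ} {e0 : ℝ}
    (he : e0 ∈ Icc (-3 : ℝ) 3) (h : Tendsto f U (𝓝 e0)) :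
    Tendsto (fun i => Q4 (pe r) (f i) / PiT (f i)) U (𝓝 (Q4 (pe r) e0 / PiT e0)) := by
  obtain ⟨m1, m2⟩ := he
  have n4 : 25 - e0 ^ 2 ≠ 0 := by nlinarith
  have n5 : 100 - e0 ^ 2 ≠ 0 := by nlinarith
  have h1 : Tendsto (fun i => Q4 (pe r) (f i)) U (𝓝 (Q4 (pe r) e0)) :=
    Q4_tendsto (p := fun _ => pe r) (fun j => tendsto_const_nhds) h
  have h2 : Tendsto (fun i => PiT (f i)) U (𝓝 (PiT e0)) := by
    unfold PiT
    exact ((tendsto_const_nhds.sub (h.pow 2)).mul (tendsto_const_nhds.sub (h.pow 2)))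
  exact h1.div h2 (mul_ne_zero n4 n5)

theorem Good.clock {r : Fin 4 → ℝ} (hr : IsRef r) {ι : Type} {l : Filter ι} {O : ι → BackOrbit}
    {τ : ι → ℕ} (hG : Good r l O τ) :
    (fun i => (O i).sg (2 * τ i) - (O i).sg (2 * τ i + 1)
      - ((O i).xi (τ i) * th r (-6) ((O i).e (τ i)) + (O i).up (τ i) * th r 6 ((O i).e (τ i))
        + (O i).m (τ i) ^ 2 * (9 - (O i).e (τ i) ^ 2)
          * (Q4 (pe r) ((O i).e (τ i)) / PiT ((O i).e (τ i)))))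
      =o[l] (fun i => (O i).s (τ i)) := by
  refine isLittleO_of_blow (fun U hU e0 α β γ hB => ?_)
  have hL := hG.lim hr hU hB.mem hB.e
  have h1 := (hL.clock hB).sub (((hB.xi.mul (th_tendsto (r := r) (-6) hB.e)).add
    (hB.up.mul (th_tendsto (r := r) 6 hB.e))).add (hB.mE.mul (QT_tendsto (r := r) hB.mem hB.e)))
  rw [sub_self] at h1
  refine h1.congr (fun i => ?_)
  have hs := ((O i).s_pos (τ i)).ne'
  field_simp

/-- the clock increment tends to zero -/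
theorem Good.clock_zero {r : Fin 4 → ℝ} (hr : IsRef r) {ι : Type} {l : Filter ι}
    {O : ι → BackOrbit} {τ : ι → ℕ} (hG : Good r l O τ) :
    Tendsto (fun i => (O i).sg (2 * τ i) - (O i).sg (2 * τ i + 1)) l (𝓝 0) := by
  rw [tendsto_iff_ultrafilter]
  intro U hU
  obtain ⟨e0, α, β, γ, hB⟩ := exists_blow O τ U
  have hL := hG.lim hr hU hB.mem hB.e
  have := hL.sg.sub hL.sg'
  rwa [sub_self] at this

end Pool.Agent.Hhelper30.Forsythe
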