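import Pool.Agent.Hhelper30.Forsythe.F4

/-! Module F5: the `m`-equation of one even step. -/

set_option autoImplicit false

namespace Pool.Agent.Hhelper30.Forsythe

open Filter Topology Set Asymptotics

/-! ### ideals of bounded functions -/

section ideal

variable {ι : Type} {l : Filter ι}

/-- bounded along `l` -/
def Bd (l : Filter ι) (f : ι → ℝ) : Prop := f =O[l] (fun _ => (1 : ℝ))

theorem Bd.const (c : ℝ) : Bd l (fun _ => c) := isBigO_const_const _ one_ne_zero _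

theorem Bd.of_le {f : ι → ℝ} (C : ℝ) (h : ∀ᶠ i in l, |f i| ≤ C) : Bd l f := by
  refine IsBigO.of_bound C ?_
  filter_upwards [h] with i hi
  simpa using hi

theorem Bd.mul {f g : ι → ℝ} (hf : Bd l f) (hg : Bd l g) : Bd l (fun i => f i * g i) := by
  have := IsBigO.mul hf hg
  simpa [Bd] using this

theorem Bd.add {f g : ι → ℝ} (hf : Bd l f) (hg : Bd l g) : Bd l (fun i => f i + g i) :=
  IsBigO.add hf hg

theorem Bd.sub {f g : ι → ℝ} (hf : Bd l f) (hg : Bd l g) : Bd l (fun i => f i - g i) :=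
  IsBigO.sub hf hg

theorem Bd.of_tendsto {f : ι → ℝ} {a : ℝ} (h : Tendsto f l (𝓝 a)) : Bd l f := h.isBigO_one ℝ

/-- if `|f| ≥ c > 0` eventually then `1/f` is bounded -/
theorem Bd.inv_of_le {f : ι → ℝ} {c : ℝ} (hc : 0 < c) (h : ∀ᶠ i in l, c ≤ |f i|) :
    Bd l (fun i => (f i)⁻¹) := by
  refine Bd.of_le c⁻¹ ?_
  filter_upwards [h] with i hi
  rw [abs_inv]
  exact inv_anti₀ hc hi

/-- an ideal in the ring of bounded functions modulo eventual equality -/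
structure Idl (l : Filter ι) (I : (ι → ℝ) → Prop) : Prop where
  add : ∀ {f g : ι → ℝ}, I f → I g → I (fun i => f i + g i)
  mulb : ∀ {f g : ι → ℝ}, I f → Bd l g → I (fun i => f i * g i)
  congr : ∀ {f g : ι → ℝ}, I f → f =ᶠ[l] g → I g

theorem idl_zero : Idl l (fun f => Tendsto f l (𝓝 0)) where
  add {f g} hf hg := by simpa using hf.add hg
  mulb {f g} hf hg := by
    have h : (fun i => f i * g i) =o[l] (fun _ => (1 : ℝ) * 1) :=
      ((isLittleO_one_iff ℝ).2 hf).mul_isBigO hg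
    simp only [mul_one] at h
    exact (isLittleO_one_iff ℝ).1 h
  congr hf h := hf.congr' h

theorem idl_K (m s : ι → ℝ) : Idl l (fun f => (fun i => m i * f i) =o[l] s) where
  add {f g} hf hg := by
    refine (hf.add hg).congr_left (fun i => ?_)
    ring
  mulb {f g} hf hg := by
    have h : (fun i => m i * f i * g i) =o[l] (fun i => s i * 1) := hf.mul_isBigO hg
    simp only [mul_one] at h
    refine h.congr_left (fun i => ?_)
    ring
  congr {f g} hf h := by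
    refine hf.congr' ?_ (EventuallyEq.refl _ _)
    filter_upwards [h] with i hi
    rw [hi]

theorem Idl.of_eq {I : (ι → ℝ) → Prop} (hI : Idl l I) {f g : ι → ℝ} (hf : I f)
    (h : ∀ i, f i = g i) : I g := hI.congr hf (Eventually.of_forall h)

theorem Idl.mul {I : (ι → ℝ) → Prop} (hI : Idl l I) {f1 g1 f2 g2 : ι → ℝ}
    (h1 : I (fun i => f1 i - g1 i)) (h2 : I (fun i => f2 i - g2 i)) (b2 : Bd l f2)
    (b1 : Bd l g1) : I (fun i => f1 i * f2 i - g1 i * g2 i) :=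
  hI.of_eq (hI.add (hI.mulb h1 b2) (hI.mulb h2 b1)) (fun i => by ring)

theorem Idl.inv {I : (ι → ℝ) → Prop} (hI : Idl l I) {f g : ι → ℝ}
    (h : I (fun i => f i - g i)) (hf : Bd l (fun i => (f i)⁻¹)) (hg : Bd l (fun i => (g i)⁻¹))
    (hf0 : ∀ᶠ i in l, f i ≠ 0) (hg0 : ∀ᶠ i in l, g i ≠ 0) :
    I (fun i => (f i)⁻¹ - (g i)⁻¹) := by
  have h1 := hI.mulb h ((hf.mul hg).mul (Bd.const (-1)))
  refine hI.congr h1 ?_
  filter_upwards [hf0, hg0] with i h2 h3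
  field_simp
  ring

/-- `F = 1 + d c` modulo the class `K`, with `F`, `c` bounded -/
structure Lin (l : Filter ι) (m s d F c : ι → ℝ) : Prop where
  k : (fun i => m i * (F i - (1 + d i * c i))) =o[l] s
  bF : Bd l F
  bc : Bd l c

theorem Lin.mul {m s d F₁ F₂ c₁ c₂ : ι → ℝ} (h₁ : Lin l m s d F₁ c₁) (h₂ : Lin l m s d F₂ c₂)
    (hmd : (fun i => m i * d i) =O[l] s) (hd : Tendsto d l (𝓝 0)) :
    Lin l m s d (fun i => F₁ i * F₂ i) (fun i => c₁ i + c₂ i) := by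
  have hI := idl_K (l := l) m s
  have bd : Bd l d := Bd.of_tendsto hd
  refine ⟨?_, h₁.bF.mul h₂.bF, h₁.bc.add h₂.bc⟩
  have a1 := hI.mul h₁.k h₂.k h₂.bF ((Bd.const 1).add (bd.mul h₁.bc))
  have a2 : (fun i => m i * (d i * (d i * (c₁ i * c₂ i)))) =o[l] s := by
    have h3 : Tendsto (fun i => d i * (c₁ i * c₂ i)) l (𝓝 0) :=
      idl_zero.mulb hd (h₁.bc.mul h₂.bc)
    have h4 : (fun i => m i * d i * (d i * (c₁ i * c₂ i))) =o[l] (fun i => s i * 1) :=
      hmd.mul_isLittleO ((isLittleO_one_iff ℝ).2 h3)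
    simp only [mul_one] at h4
    exact h4.congr_left (fun i => by ring)
  exact hI.of_eq (hI.add a1 a2) (fun i => by ring)

/-- a factor which is `1 + O(s)` -/
theorem Lin.of_O {m s d F : ι → ℝ} (hm : Tendsto m l (𝓝 0))
    (h : (fun i => F i - 1) =O[l] s) (bF : Bd l F) : Lin l m s d F (fun _ => 0) := by
  refine ⟨?_, bF, Bd.const 0⟩
  have h1 : (fun i => m i * (F i - 1)) =o[l] (fun i => 1 * s i) :=
    ((isLittleO_one_iff ℝ).2 hm).mul_isBigO h
  simp only [one_mul] at h1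
  exact h1.congr_left (fun i => by ring)

theorem isLittleO_mul_bd {f g s : ι → ℝ} (hf : f =o[l] s) (hg : Bd l g) :
    (fun i => f i * g i) =o[l] s := by
  have h : (fun i => f i * g i) =o[l] (fun i => s i * 1) := hf.mul_isBigO hg
  simpa using h

theorem isBigO_mul_bd {f g s : ι → ℝ} (hf : f =O[l] s) (hg : Bd l g) :
    (fun i => f i * g i) =O[l] s := by
  have h : (fun i => f i * g i) =O[l] (fun i => s i * 1) := hf.mul hg
  simpa using h

theorem isLittleO_mul_zero {f g s : ι → ℝ} (hf : f =O[l] s) (hg : Tendsto g l (𝓝 0)) :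
    (fun i => f i * g i) =o[l] s := by
  have h : (fun i => f i * g i) =o[l] (fun i => s i * 1) :=
    hf.mul_isLittleO ((isLittleO_one_iff ℝ).2 hg)
  simpa using h

theorem Lin.one_add {m s d w : ι → ℝ} (hm : Tendsto m l (𝓝 0)) (hw : w =O[l] s)
    (hw0 : Tendsto w l (𝓝 0)) : Lin l m s d (fun i => 1 + w i) (fun _ => 0) := by
  refine Lin.of_O hm ?_ (Bd.add (Bd.const 1) (Bd.of_tendsto hw0))
  exact hw.congr_left (fun i => by ring)

theorem tendsto_one_add {w : ι → ℝ} (hw0 : Tendsto w l (𝓝 0)) :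
    Tendsto (fun i => 1 + w i) l (𝓝 1) := by
  simpa using hw0.const_add 1

theorem tendsto_one_add_inv {w : ι → ℝ} (hw0 : Tendsto w l (𝓝 0)) :
    Tendsto (fun i => (1 + w i)⁻¹) l (𝓝 1) := by
  simpa using (tendsto_one_add hw0).inv₀ one_ne_zero

theorem Lin.one_add_inv {m s d w : ι → ℝ} (hm : Tendsto m l (𝓝 0)) (hw : w =O[l] s)
    (hw0 : Tendsto w l (𝓝 0)) : Lin l m s d (fun i => (1 + w i)⁻¹) (fun _ => 0) := by
  have h1 := tendsto_one_add_inv hw0
  refine Lin.of_O hm ?_ (Bd.of_tendsto h1)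
  have h2 : ∀ᶠ i in l, 1 + w i ≠ 0 := (tendsto_one_add hw0).eventually_ne one_ne_zero
  refine (isBigO_mul_bd hw ((Bd.of_tendsto h1).mul (Bd.const (-1)))).congr' ?_
    (EventuallyEq.refl _ _)
  filter_upwards [h2] with i hi
  field_simp
  ring

/-- `z - p` is bounded below if `|z| ≤ 3` and `p → q`, `|q| > 3` -/
theorem bd_inv_sub {z p : ι → ℝ} {q : ℝ} (hz : ∀ i, -3 < z i ∧ z i < 3) (hq : 3 < |q|)
    (hp : Tendsto p l (𝓝 q)) :
    Bd l (fun i => (z i - p i)⁻¹) ∧ ∀ᶠ i in l, z i - p i ≠ 0 := by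
  have h1 : ∀ᶠ i in l, (|q| - 3) / 2 ≤ |z i - p i| := by
    have h2 : ∀ᶠ i in l, |p i - q| < (|q| - 3) / 2 := by
      have := (hp.sub_const q)
      rw [sub_self] at this
      exact (tendsto_zero_iff_abs_tendsto_zero _ |>.1 this).eventually_lt_const (by linarith)
    filter_upwards [h2] with i hi
    have h3 : |z i| < 3 := abs_lt.2 (hz i)
    have h4 : |q| - |p i - q| ≤ |p i| := by
      have := abs_sub_abs_le_abs_sub q (q - p i)
      rw [abs_sub_comm q (p i)] at this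
      have h5 : q - (q - p i) = p i := by ring
      rw [h5] at this
      exact this
    have h5 : |p i| - |z i| ≤ |z i - p i| := by
      have := abs_sub_abs_le_abs_sub (p i) (z i)
      rwa [abs_sub_comm] at this
    linarith
  refine ⟨Bd.inv_of_le (by linarith) h1, ?_⟩
  filter_upwards [h1] with i hi h0
  rw [h0, abs_zero] at hi
  linarith

/-- `(z' - p')⁻¹ - (z - q)⁻¹ → 0` -/
theorem inv_sub_tendsto {z z' p : ι → ℝ} {q : ℝ} (hz : ∀ i, -3 < z i ∧ z i < 3)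
    (hz' : ∀ i, -3 < z' i ∧ z' i < 3) (hd : Tendsto (fun i => z' i - z i) l (𝓝 0))
    (hq : 3 < |q|) (hp : Tendsto p l (𝓝 q)) :
    Tendsto (fun i => (z' i - p i)⁻¹ - (z i - q)⁻¹) l (𝓝 0) := by
  obtain ⟨h1, h2⟩ := bd_inv_sub hz' hq hp
  obtain ⟨h3, h4⟩ := bd_inv_sub (l := l) hz hq tendsto_const_nhds
  refine idl_zero.inv ?_ h1 h3 h2 h4
  have := hd.sub (hp.sub_const q)
  simp only [sub_self] at this
  exact this.congr (fun i => by ring)

/-- the factor `(e - p_j) / (e' - p''_j)` -/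
theorem Lin.root {m s d e e' p p2 : ι → ℝ} {q : ℝ} (he : ∀ i, -3 < e i ∧ e i < 3)
    (he' : ∀ i, -3 < e' i ∧ e' i < 3) (hd : ∀ i, d i = e' i - e i)
    (hdt : Tendsto d l (𝓝 0)) (hm : Tendsto m l (𝓝 0)) (hmd : (fun i => m i * d i) =O[l] s)
    (hq : 3 < |q|) (hp : Tendsto p l (𝓝 q)) (hp2 : Tendsto p2 l (𝓝 q))
    (hdr : (fun i => p2 i - p i) =O[l] s) :
    Lin l m s d (fun i => (e i - p i) * (e' i - p2 i)⁻¹) (fun i => -(e i - q)⁻¹) := by
  obtain ⟨h1, h2⟩ := bd_inv_sub he' hq hp2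
  obtain ⟨h3, h4⟩ := bd_inv_sub (l := l) he hq tendsto_const_nhds
  have be : Bd l e := Bd.of_le 3 (Eventually.of_forall fun i => abs_le.2
    ⟨(he i).1.le, (he i).2.le⟩)
  have hd' : Tendsto (fun i => e' i - e i) l (𝓝 0) := hdt.congr hd
  refine ⟨?_, (be.sub (Bd.of_tendsto hp)).mul h1, ?_⟩
  · have a1 : (fun i => m i * ((p2 i - p i) * (e' i - p2 i)⁻¹)) =o[l] s := by
      have := isLittleO_mul_zero (isBigO_mul_bd hdr h1) hm
      exact this.congr_left (fun i => by ring)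
    have a2 : (fun i => m i * d i * ((e' i - p2 i)⁻¹ - (e i - q)⁻¹)) =o[l] s :=
      isLittleO_mul_zero hmd (inv_sub_tendsto he he' hd' hq hp2)
    refine (a1.sub a2).congr' ?_ (EventuallyEq.refl _ _)
    filter_upwards [h2, h4] with i g1 g2
    rw [hd i]
    field_simp
    ring
  · exact (h3.mul (Bd.const (-1))).congr_left (fun i => by ring)

/-- the factor `(K - e'^2) / (K - e^2)`, `K ≥ 25` -/
theorem Lin.quad {m s d e e' : ι → ℝ} (K : ℝ) (hK : 10 ≤ K) (he : ∀ i, -3 < e i ∧ e i < 3)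
    (he' : ∀ i, -3 < e' i ∧ e' i < 3) (hd : ∀ i, d i = e' i - e i)
    (hdt : Tendsto d l (𝓝 0)) (hmd : (fun i => m i * d i) =O[l] s) :
    Lin l m s d (fun i => (K - e' i ^ 2) * (K - e i ^ 2)⁻¹)
      (fun i => -(2 * e i * (K - e i ^ 2)⁻¹)) := by
  have hpos : ∀ i, 1 ≤ K - e i ^ 2 := fun i => by nlinarith [(he i).1, (he i).2]
  have h1 : Bd l (fun i => (K - e i ^ 2)⁻¹) := by
    refine Bd.inv_of_le one_pos (Eventually.of_forall fun i => ?_)
    rw [abs_of_pos (by linarith [hpos i])]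
    exact hpos i
  have be : Bd l e := Bd.of_le 3 (Eventually.of_forall fun i => abs_le.2
    ⟨(he i).1.le, (he i).2.le⟩)
  have be' : Bd l e' := Bd.of_le 3 (Eventually.of_forall fun i => abs_le.2
    ⟨(he' i).1.le, (he' i).2.le⟩)
  refine ⟨?_, ?_, ?_⟩
  · have a2 : (fun i => m i * d i * (d i * (-(K - e i ^ 2)⁻¹))) =o[l] s :=
      isLittleO_mul_zero hmd (idl_zero.mulb hdt
        ((h1.mul (Bd.const (-1))).congr_left (fun i => by ring)))
    refine a2.congr_left (fun i => ?_)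
    have := hpos i
    have h0 : K - e i ^ 2 ≠ 0 := by linarith
    rw [hd i]
    field_simp
    ring
  · exact (((Bd.const K).sub ((be'.mul be').congr_left (fun i => (sq (e' i)).symm)))).mul h1
  · exact (((be.mul (Bd.const (-2))).mul h1)).congr_left (fun i => by ring)

/-- the ratio `B / A` -/
theorem rho_lin {m s d e e' xi up xi' up' xi2 up2 sg sg' : ι → ℝ} {p p2 : ι → Fin 4 → ℝ}
    {q : Fin 4 → ℝ} (he : ∀ i, -3 < e i ∧ e i < 3)
    (he' : ∀ i, -3 < e' i ∧ e' i < 3) (hd : ∀ i, d i = e' i - e i)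
    (hdt : Tendsto d l (𝓝 0)) (hm : Tendsto m l (𝓝 0)) (hmd : (fun i => m i * d i) =O[l] s)
    (hxi : xi =O[l] s) (hup : up =O[l] s) (hxi' : xi' =O[l] s) (hup' : up' =O[l] s)
    (hxi2 : xi2 =O[l] s) (hup2 : up2 =O[l] s)
    (txi : Tendsto xi l (𝓝 0)) (tup : Tendsto up l (𝓝 0)) (txi' : Tendsto xi' l (𝓝 0))
    (tup' : Tendsto up' l (𝓝 0)) (txi2 : Tendsto xi2 l (𝓝 0)) (tup2 : Tendsto up2 l (𝓝 0))
    (tsg : Tendsto sg l (𝓝 1)) (tsg' : Tendsto sg' l (𝓝 1))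
    (hsg : (fun i => sg' i - sg i) =O[l] s)
    (hq : ∀ j, 3 < |q j|) (hp : ∀ j, Tendsto (fun i => p i j) l (𝓝 (q j)))
    (hp2 : ∀ j, Tendsto (fun i => p2 i j) l (𝓝 (q j)))
    (hdr : ∀ j, (fun i => p2 i j - p i j) =O[l] s) :
    (fun i => m i * (sg' i * (sg i)⁻¹ *
        ((1 + -xi' i * (e i + 6)⁻¹) * (1 + -xi' i * (e i + 6)⁻¹)) *
        ((1 + up' i * (6 - e i)⁻¹) * (1 + up' i * (6 - e i)⁻¹)) *
        ((1 + xi i * (e i + 6)⁻¹)⁻¹ * (1 + -up i * (6 - e i)⁻¹)⁻¹) *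
        ((1 + xi2 i * (e' i + 6)⁻¹)⁻¹ * (1 + -up2 i * (6 - e' i)⁻¹)⁻¹) *
        ((e i - p i 0) * (e' i - p2 i 0)⁻¹) * ((e i - p i 1) * (e' i - p2 i 1)⁻¹) *
        ((e i - p i 2) * (e' i - p2 i 2)⁻¹) * ((e i - p i 3) * (e' i - p2 i 3)⁻¹) *
        ((25 - e' i ^ 2) * (25 - e i ^ 2)⁻¹) * ((100 - e' i ^ 2) * (100 - e i ^ 2)⁻¹)
        - (1 - d i * ((∑ j, 1 / (e i - q j)) + 2 * e i / (25 - e i ^ 2)
          + 2 * e i / (100 - e i ^ 2))))) =o[l] s := by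
  have b6 : ∀ f : ι → ℝ, (∀ i, -3 < f i ∧ f i < 3) → Bd l (fun i => (f i + 6)⁻¹) := by
    intro f hf
    refine Bd.inv_of_le (c := 1) one_pos (Eventually.of_forall fun i => ?_)
    have := hf i
    rw [abs_of_pos (by linarith)]
    linarith
  have b6' : ∀ f : ι → ℝ, (∀ i, -3 < f i ∧ f i < 3) → Bd l (fun i => (6 - f i)⁻¹) := by
    intro f hf
    refine Bd.inv_of_le (c := 1) one_pos (Eventually.of_forall fun i => ?_)
    have := hf i
    rw [abs_of_pos (by linarith)]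
    linarith
  have Lsg : Lin l m s d (fun i => sg' i * (sg i)⁻¹) (fun _ => 0) := by
    have t1 : Tendsto (fun i => (sg i)⁻¹) l (𝓝 1) := by simpa using tsg.inv₀ one_ne_zero
    refine Lin.of_O hm ?_ ((Bd.of_tendsto tsg').mul (Bd.of_tendsto t1))
    refine (isBigO_mul_bd hsg (Bd.of_tendsto t1)).congr' ?_ (EventuallyEq.refl _ _)
    filter_upwards [tsg.eventually_ne one_ne_zero] with i hi
    field_simp
  have L1 := Lin.one_add (m := m) (s := s) (d := d) hm (isBigO_mul_bd hxi'.neg_left (b6 e he))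
    (idl_zero.mulb (by simpa using txi'.neg) (b6 e he))
  have L2 := Lin.one_add (m := m) (s := s) (d := d) hm (isBigO_mul_bd hup' (b6' e he))
    (idl_zero.mulb tup' (b6' e he))
  have L3 := Lin.one_add_inv (m := m) (s := s) (d := d) hm (isBigO_mul_bd hxi (b6 e he))
    (idl_zero.mulb txi (b6 e he))
  have L4 := Lin.one_add_inv (m := m) (s := s) (d := d) hm
    (isBigO_mul_bd hup.neg_left (b6' e he)) (idl_zero.mulb (by simpa using tup.neg) (b6' e he))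
  have L5 := Lin.one_add_inv (m := m) (s := s) (d := d) hm (isBigO_mul_bd hxi2 (b6 e' he'))
    (idl_zero.mulb txi2 (b6 e' he'))
  have L6 := Lin.one_add_inv (m := m) (s := s) (d := d) hm
    (isBigO_mul_bd hup2.neg_left (b6' e' he')) (idl_zero.mulb (by simpa using tup2.neg)
    (b6' e' he'))
  have R := fun j => Lin.root (m := m) (s := s) he he' hd hdt hm hmd (hq j) (hp j) (hp2 j) (hdr j)
  have Q1 := Lin.quad (m := m) (s := s) 25 (by norm_num) he he' hd hdt hmd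
  have Q2 := Lin.quad (m := m) (s := s) 100 (by norm_num) he he' hd hdt hmd
  have H := (((((((((Lsg.mul (L1.mul L1 hmd hdt) hmd hdt).mul (L2.mul L2 hmd hdt) hmd hdt).mul
    (L3.mul L4 hmd hdt) hmd hdt).mul (L5.mul L6 hmd hdt) hmd hdt).mul (R 0) hmd hdt).mul (R 1)
    hmd hdt).mul (R 2) hmd hdt).mul (R 3) hmd hdt).mul Q1 hmd hdt).mul Q2 hmd hdt
  refine H.k.congr_left (fun i => ?_)
  simp only [Fin.sum_univ_four, div_eq_mul_inv, one_mul]
  ring

end ideal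

/-! ### the algebraic form of (M) -/

theorem m_alg_atoms (d2 d E E' sg sg' X Y a b a' b' A B A2 B2 C D P0 P1 P2 P3 Q0 Q1 Q2 Q3
      T T' U U' : ℝ)
    (hsg : sg ≠ 0) (ha : a ≠ 0) (hb : b ≠ 0) (ha' : a' ≠ 0) (hb' : b' ≠ 0) (hA : A ≠ 0)
    (hB : B ≠ 0) (hA2 : A2 ≠ 0) (hB2 : B2 ≠ 0) (hQ0 : Q0 ≠ 0) (hQ1 : Q1 ≠ 0) (hQ2 : Q2 ≠ 0)
    (hQ3 : Q3 ≠ 0) (hT : T ≠ 0) (hT' : T' ≠ 0) (hU : U ≠ 0) (hU' : U' ≠ 0) (hE : E ≠ 0)
    (hE' : E' ≠ 0)
    (hM : sg * d2 * (-(A2 * -B2 * (Q0 * Q1 * Q2 * Q3)) / (-E' * (-(a' * b') * (T' * U'))))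
      = sg' * d * (-((C * -D) ^ 2 * (P0 * P1 * P2 * P3)) /
        (-E * (-(a * b) * (T * U)) * (A * -B))) + X + Y) :
    d2 / E' = d / E * (sg' * sg⁻¹ * (C * a⁻¹ * (C * a⁻¹)) * (D * b⁻¹ * (D * b⁻¹)) *
        ((a * A⁻¹) * (b * B⁻¹)) * ((a' * A2⁻¹) * (b' * B2⁻¹)) * (P0 * Q0⁻¹) * (P1 * Q1⁻¹) *
        (P2 * Q2⁻¹) * (P3 * Q3⁻¹) * (T' * T⁻¹) * (U' * U⁻¹))
      + (X + Y) * (sg⁻¹ * ((a' * A2⁻¹) * (b' * B2⁻¹)) *
          (Q0⁻¹ * Q1⁻¹ * Q2⁻¹ * Q3⁻¹) * (T' * U')) := by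
  have h1 : sg * d2 * (-(A2 * -B2 * (Q0 * Q1 * Q2 * Q3)) / (-E' * (-(a' * b') * (T' * U'))))
      = d2 / E' * (sg * A2 * B2 * (Q0 * Q1 * Q2 * Q3) / (a' * b' * T' * U')) := by
    field_simp
  have h2 : sg' * d * (-((C * -D) ^ 2 * (P0 * P1 * P2 * P3)) /
        (-E * (-(a * b) * (T * U)) * (A * -B)))
      = d / E * (sg' * (C * D) ^ 2 * (P0 * P1 * P2 * P3) / (a * b * T * U * A * B)) := by
    field_simp
  rw [h1, h2] at hM
  have h3 : d2 / E' = d2 / E' * (sg * A2 * B2 * (Q0 * Q1 * Q2 * Q3) / (a' * b' * T' * U')) *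
      (sg⁻¹ * ((a' * A2⁻¹) * (b' * B2⁻¹)) * (Q0⁻¹ * Q1⁻¹ * Q2⁻¹ * Q3⁻¹) * (T' * U')) := by
    field_simp
  rw [h3, hM]
  field_simp
  ring


theorem m_alg (e e' e2 xi up xi' up' xi2 up2 sg sg' tx ty : ℝ) (p0 p1 p2 p3 q0 q1 q2 q3 : ℝ)
    (he : -3 < e ∧ e < 3) (he' : -3 < e' ∧ e' < 3) (hsg : sg ≠ 0)
    (h1 : 0 < e + 6 + xi) (h2 : 0 < 6 - e - up) (h3 : 0 < e' + 6 + xi2) (h4 : 0 < 6 - e' - up2)
    (hq0 : e' - q0 ≠ 0) (hq1 : e' - q1 ≠ 0) (hq2 : e' - q2 ≠ 0) (hq3 : e' - q3 ≠ 0)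
    (hM : sg * (e2 - e') * (-((e' + 6 + xi2) * (e' - 6 + up2) *
        ((e' - q0) * (e' - q1) * (e' - q2) * (e' - q3))) / (-(9 - e' ^ 2) *
        ((e' ^ 2 - 36) * ((25 - e' ^ 2) * (100 - e' ^ 2)))))
      = sg' * (e' - e) * (-(((e + 6 - xi') * (e - 6 - up')) ^ 2 *
        ((e - p0) * (e - p1) * (e - p2) * (e - p3))) / (-(9 - e ^ 2) *
        ((e ^ 2 - 36) * ((25 - e ^ 2) * (100 - e ^ 2))) * ((e + 6 + xi) * (e - 6 + up))))
        + tx + ty) :
    (e2 - e') / (9 - e' ^ 2) = (e' - e) / (9 - e ^ 2) * (sg' * sg⁻¹ *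
        ((1 + -xi' * (e + 6)⁻¹) * (1 + -xi' * (e + 6)⁻¹)) *
        ((1 + up' * (6 - e)⁻¹) * (1 + up' * (6 - e)⁻¹)) *
        ((1 + xi * (e + 6)⁻¹)⁻¹ * (1 + -up * (6 - e)⁻¹)⁻¹) *
        ((1 + xi2 * (e' + 6)⁻¹)⁻¹ * (1 + -up2 * (6 - e')⁻¹)⁻¹) *
        ((e - p0) * (e' - q0)⁻¹) * ((e - p1) * (e' - q1)⁻¹) *
        ((e - p2) * (e' - q2)⁻¹) * ((e - p3) * (e' - q3)⁻¹) *
        ((25 - e' ^ 2) * (25 - e ^ 2)⁻¹) * ((100 - e' ^ 2) * (100 - e ^ 2)⁻¹))
      + (tx + ty) *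
        (sg⁻¹ * ((1 + xi2 * (e' + 6)⁻¹)⁻¹ * (1 + -up2 * (6 - e')⁻¹)⁻¹) *
          ((e' - q0)⁻¹ * (e' - q1)⁻¹ * (e' - q2)⁻¹ * (e' - q3)⁻¹) *
          ((25 - e' ^ 2) * (100 - e' ^ 2))) := by
  obtain ⟨e1, e2'⟩ := he
  obtain ⟨e3, e4⟩ := he'
  have n1 : e + 6 ≠ 0 := by intro h; linarith
  have n2 : 6 - e ≠ 0 := by intro h; linarith
  have n3 : e' + 6 ≠ 0 := by intro h; linarith
  have n4 : 6 - e' ≠ 0 := by intro h; linarith
  have n5 : 9 - e ^ 2 ≠ 0 := by nlinarith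
  have n6 : 9 - e' ^ 2 ≠ 0 := by nlinarith
  have n7 : 25 - e ^ 2 ≠ 0 := by nlinarith
  have n8 : 25 - e' ^ 2 ≠ 0 := by nlinarith
  have n9 : 100 - e ^ 2 ≠ 0 := by nlinarith
  have n10 : 100 - e' ^ 2 ≠ 0 := by nlinarith
  have r1 : (1 + xi * (e + 6)⁻¹)⁻¹ = (e + 6) * (e + 6 + xi)⁻¹ := by
    have : 1 + xi * (e + 6)⁻¹ = (e + 6 + xi) * (e + 6)⁻¹ := by field_simp
    rw [this, mul_inv, inv_inv, mul_comm]
  have r2 : (1 + -up * (6 - e)⁻¹)⁻¹ = (6 - e) * (6 - e - up)⁻¹ := by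
    have : 1 + -up * (6 - e)⁻¹ = (6 - e - up) * (6 - e)⁻¹ := by field_simp; ring
    rw [this, mul_inv, inv_inv, mul_comm]
  have r3 : (1 + xi2 * (e' + 6)⁻¹)⁻¹ = (e' + 6) * (e' + 6 + xi2)⁻¹ := by
    have : 1 + xi2 * (e' + 6)⁻¹ = (e' + 6 + xi2) * (e' + 6)⁻¹ := by field_simp
    rw [this, mul_inv, inv_inv, mul_comm]
  have r4 : (1 + -up2 * (6 - e')⁻¹)⁻¹ = (6 - e') * (6 - e' - up2)⁻¹ := by
    have : 1 + -up2 * (6 - e')⁻¹ = (6 - e' - up2) * (6 - e')⁻¹ := by field_simp; ring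
    rw [this, mul_inv, inv_inv, mul_comm]
  have r5 : 1 + -xi' * (e + 6)⁻¹ = (e + 6 - xi') * (e + 6)⁻¹ := by field_simp; ring
  have r6 : 1 + up' * (6 - e)⁻¹ = (6 - e + up') * (6 - e)⁻¹ := by field_simp
  rw [r1, r2, r3, r4, r5, r6]
  have t1 : e ^ 2 - 36 = -((e + 6) * (6 - e)) := by ring
  have t1' : e' ^ 2 - 36 = -((e' + 6) * (6 - e')) := by ring
  have t2 : e - 6 + up = -(6 - e - up) := by ring
  have t3 : e' - 6 + up2 = -(6 - e' - up2) := by ring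
  have t4 : e - 6 - up' = -(6 - e + up') := by ring
  rw [t1, t1', t2, t3, t4] at hM
  exact m_alg_atoms _ _ _ _ _ _ _ _ _ _ _ _ _ _ _ _ _ _ _ _ _ _ _ _ _ _ _ _ _ _ hsg n1 n2 n3 n4
    h1.ne' h2.ne' h3.ne' h4.ne' hq0 hq1 hq2 hq3 n7 n8 n9 n10 n5 n6 hM

/-! ### the `m`-equation -/

theorem pe_abs {r : Fin 4 → ℝ} (hr : IsRef r) (j : Fin 4) : 3 < |pe r j| := by
  obtain ⟨⟨a0, b0⟩, ⟨a1, b1⟩, ⟨a2, b2⟩, ⟨a3, b3⟩, -⟩ := hr
  rw [lt_abs]
  fin_cases j <;> simp [pe] <;> first | (left; linarith) | (right; linarith)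

/-- facts about one even step along a filter of good states (with the drift bound as
hypothesis) -/
structure Step (r : Fin 4 → ℝ) {ι : Type} (l : Filter ι) (O : ι → BackOrbit) (τ : ι → ℕ) :
    Prop where
  d0 : Tendsto (fun i => (O i).e' (τ i) - (O i).e (τ i)) l (𝓝 0)
  m0 : Tendsto (fun i => (O i).m (τ i)) l (𝓝 0)
  s0 : Tendsto (fun i => (O i).s (τ i)) l (𝓝 0)
  md : (fun i => (O i).m (τ i) * ((O i).e' (τ i) - (O i).e (τ i))) =O[l] (fun i => (O i).s (τ i))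
  xi : (fun i => (O i).xi (τ i)) =O[l] (fun i => (O i).s (τ i))
  up : (fun i => (O i).up (τ i)) =O[l] (fun i => (O i).s (τ i))
  xi' : (fun i => (O i).xi' (τ i)) =O[l] (fun i => (O i).s (τ i))
  up' : (fun i => (O i).up' (τ i)) =O[l] (fun i => (O i).s (τ i))
  xi2 : (fun i => (O i).xi (τ i + 1)) =O[l] (fun i => (O i).s (τ i))
  up2 : (fun i => (O i).up (τ i + 1)) =O[l] (fun i => (O i).s (τ i))
  sg : Tendsto (fun i => (O i).sg (2 * τ i)) l (𝓝 1)
  sg' : Tendsto (fun i => (O i).sg (2 * τ i + 1)) l (𝓝 1)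
  clock : (fun i => (O i).sg (2 * τ i + 1) - (O i).sg (2 * τ i)) =O[l] (fun i => (O i).s (τ i))
  p : ∀ j, Tendsto (fun i => (O i).p (2 * τ i) j) l (𝓝 (pe r j))
  drift : ∀ j, (fun i => (O i).p (2 * τ i + 2) j - (O i).p (2 * τ i) j)
    =O[l] (fun i => (O i).s (τ i))
  p2 : ∀ j, Tendsto (fun i => (O i).p (2 * τ i + 2) j) l (𝓝 (pe r j))
  tx : (fun i => (O i).sg (2 * τ i + 1) * (O i).tx0 (τ i)
    - (O i).xi (τ i) * th r (-6) ((O i).e (τ i))) =o[l] (fun i => (O i).s (τ i))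
  ty : (fun i => (O i).sg (2 * τ i + 1) * (O i).ty0 (τ i)
    - (O i).up (τ i) * th r 6 ((O i).e (τ i))) =o[l] (fun i => (O i).s (τ i))

theorem bd_e {ι : Type} {l : Filter ι} (O : ι → BackOrbit) (τ : ι → ℕ) :
    Bd l (fun i => (O i).e (τ i)) :=
  Bd.of_le 3 (Eventually.of_forall fun i => abs_le.2 ((O i).e_mem (τ i)))

theorem bd_th {ι : Type} {l : Filter ι} (O : ι → BackOrbit) (τ : ι → ℕ) (r : Fin 4 → ℝ) (z : ℝ) :
    Bd l (fun i => th r z ((O i).e (τ i))) := by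
  unfold th
  refine IsBigO.congr_left (f₁ := fun i => (z - (O i).e (τ i)) * (4 * Q4 (pe r) z / PiP z))
    (((Bd.const z).sub (bd_e O τ)).mul (Bd.const _)) (fun i => ?_)
  ring

theorem PiT_ge {z : ℝ} (hz : z ∈ Icc (-3 : ℝ) 3) : 1 ≤ PiT z := by
  obtain ⟨h1, h2⟩ := hz
  have h3 : (1 : ℝ) ≤ 25 - z ^ 2 := by nlinarith
  have h4 : (1 : ℝ) ≤ 100 - z ^ 2 := by nlinarith
  unfold PiT
  nlinarith

theorem Good.step {r : Fin 4 → ℝ} (hr : IsRef r) {ι : Type} {l : Filter ι}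
    {O : ι → BackOrbit} {τ : ι → ℕ} (hG : Good r l O τ)
    (hN : Good r l (fun i => (O i).refl) τ)
    (hdr : ∀ j, (fun i => (O i).p (2 * τ i + 2) j - (O i).p (2 * τ i) j)
      =O[l] (fun i => (O i).sg (2 * τ i) - (O i).sg (2 * τ i + 1))) :
    Step r l O τ := by
  have hs := hG.small hr
  obtain ⟨Tx, Ty, Tx', Ty', q3, q3', ru, rv⟩ := hG.core hr
  obtain ⟨-, -, -, -, -, -, ru', rv'⟩ := hN.core hr
  have bE : Bd l (fun i => 9 - (O i).e (τ i) ^ 2) :=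
    (Bd.const 9).sub (((bd_e O τ).mul (bd_e O τ)).congr_left (fun i => (sq _).symm))
  have hmE : ∀ i, (O i).m (τ i) * (9 - (O i).e (τ i) ^ 2) = (O i).e' (τ i) - (O i).e (τ i) := by
    intro i
    have h1 := (O i).E_pos (τ i)
    have h2 : (O i).m (τ i) = ((O i).e' (τ i) - (O i).e (τ i)) / (9 - (O i).e (τ i) ^ 2) := rfl
    rw [h2, div_mul_cancel₀ _ h1.ne']
  have d0 : Tendsto (fun i => (O i).e' (τ i) - (O i).e (τ i)) l (𝓝 0) :=
    (idl_zero.mulb hs.m bE).congr hmE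
  have s0 : Tendsto (fun i => (O i).s (τ i)) l (𝓝 0) := by
    have h1 : Tendsto (fun i => (O i).m (τ i) * ((O i).m (τ i) * (9 - (O i).e (τ i) ^ 2)))
        l (𝓝 0) := idl_zero.mulb hs.m ((Bd.of_tendsto hs.m).mul bE)
    have h2 := (hs.xi.add hs.up).add h1
    simp only [add_zero] at h2
    refine h2.congr (fun i => ?_)
    unfold BackOrbit.s
    ring
  have le_s : ∀ i, |(O i).xi (τ i)| ≤ |(O i).s (τ i)| ∧ |(O i).up (τ i)| ≤ |(O i).s (τ i)| ∧
      |(O i).m (τ i) ^ 2 * (9 - (O i).e (τ i) ^ 2)| ≤ |(O i).s (τ i)| := by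
    intro i
    have h1 := (O i).xi_pos (τ i)
    have h2 := (O i).up_pos (τ i)
    have h3 := (O i).mE_nonneg (τ i)
    have h4 := (O i).s_pos (τ i)
    rw [abs_of_pos h1, abs_of_pos h2, abs_of_nonneg h3, abs_of_pos h4]
    unfold BackOrbit.s
    refine ⟨by linarith, by linarith, by linarith⟩
  have Oxi : (fun i => (O i).xi (τ i)) =O[l] (fun i => (O i).s (τ i)) :=
    IsBigO.of_bound 1 (Eventually.of_forall fun i => by
      rw [one_mul]; exact (le_s i).1)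
  have Oup : (fun i => (O i).up (τ i)) =O[l] (fun i => (O i).s (τ i)) :=
    IsBigO.of_bound 1 (Eventually.of_forall fun i => by
      rw [one_mul]; exact (le_s i).2.1)
  have OmE : (fun i => (O i).m (τ i) ^ 2 * (9 - (O i).e (τ i) ^ 2))
      =O[l] (fun i => (O i).s (τ i)) :=
    IsBigO.of_bound 1 (Eventually.of_forall fun i => by
      rw [one_mul]; exact (le_s i).2.2)
  have md : (fun i => (O i).m (τ i) * ((O i).e' (τ i) - (O i).e (τ i)))
      =O[l] (fun i => (O i).s (τ i)) := by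
    refine OmE.congr_left (fun i => ?_)
    rw [← hmE i]
    ring
  -- ratios
  have comp : ∀ f g : ι → ℝ, (∀ i, 0 < f i) → (∀ i, 0 < g i) →
      Tendsto (fun i => f i / g i) l (𝓝 1) → f =O[l] (fun i => (O i).s (τ i)) →
      g =O[l] (fun i => (O i).s (τ i)) := by
    intro f g hf hg hfg hO
    have h1 : Tendsto (fun i => (f i / g i)⁻¹) l (𝓝 1) := by simpa using hfg.inv₀ one_ne_zero
    refine (isBigO_mul_bd hO (Bd.of_tendsto h1)).congr_left (fun i => ?_)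
    have := (hf i).ne'
    have h2 := (hg i).ne'
    field_simp
  have Oxi' : (fun i => (O i).xi' (τ i)) =O[l] (fun i => (O i).s (τ i)) :=
    comp _ _ (fun i => (O i).xi_pos (τ i)) (fun i => (O i).xi'_pos (τ i)) ru Oxi
  have Oup' : (fun i => (O i).up' (τ i)) =O[l] (fun i => (O i).s (τ i)) :=
    comp _ _ (fun i => (O i).up_pos (τ i)) (fun i => (O i).up'_pos (τ i)) rv Oup
  have Oxi2 : (fun i => (O i).xi (τ i + 1)) =O[l] (fun i => (O i).s (τ i)) := by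
    refine comp _ _ (fun i => (O i).xi'_pos (τ i)) (fun i => (O i).xi_pos (τ i + 1)) ?_ Oxi'
    refine rv'.congr (fun i => ?_)
    have q2 : Fin.rev (2 : Fin 3) = 0 := by decide
    simp only [BackOrbit.refl_h, q2, BackOrbit.xi', BackOrbit.xi]
    rw [show 2 * (τ i + 1) = 2 * τ i + 1 + 1 by ring]
    congr 1 <;> ring
  have Oup2 : (fun i => (O i).up (τ i + 1)) =O[l] (fun i => (O i).s (τ i)) := by
    refine comp _ _ (fun i => (O i).up'_pos (τ i)) (fun i => (O i).up_pos (τ i + 1)) ?_ Oup'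
    refine ru'.congr (fun i => ?_)
    have q2 : Fin.rev (0 : Fin 3) = 2 := by decide
    simp only [BackOrbit.refl_h, q2, BackOrbit.up', BackOrbit.up]
    rw [show 2 * (τ i + 1) = 2 * τ i + 1 + 1 by ring]
    congr 1 <;> ring
  have sg' : Tendsto (fun i => (O i).sg (2 * τ i + 1)) l (𝓝 1) := hN.sg
  have bQ : Bd l (fun i => Q4 (pe r) ((O i).e (τ i)) / PiT ((O i).e (τ i))) := by
    have h1 : Bd l (fun i => (PiT ((O i).e (τ i)))⁻¹) := by
      refine Bd.inv_of_le one_pos (Eventually.of_forall fun i => ?_)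
      exact (PiT_ge ((O i).e_mem (τ i))).trans (le_abs_self _)
    have h2 : Bd l (fun i => Q4 (pe r) ((O i).e (τ i))) := by
      unfold Q4
      exact ((((bd_e O τ).sub (Bd.const _)).mul ((bd_e O τ).sub (Bd.const _))).mul
        ((bd_e O τ).sub (Bd.const _))).mul ((bd_e O τ).sub (Bd.const _))
    exact (h2.mul h1).congr_left (fun i => (div_eq_mul_inv _ _).symm)
  have clock : (fun i => (O i).sg (2 * τ i + 1) - (O i).sg (2 * τ i))
      =O[l] (fun i => (O i).s (τ i)) := by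
    have h1 := (hG.clock hr).isBigO
    have h2 := ((isBigO_mul_bd Oxi (bd_th O τ r (-6))).add
      (isBigO_mul_bd Oup (bd_th O τ r 6))).add (isBigO_mul_bd OmE bQ)
    refine ((h1.add h2).neg_left).congr_left (fun i => ?_)
    ring
  have drift : ∀ j, (fun i => (O i).p (2 * τ i + 2) j - (O i).p (2 * τ i) j)
      =O[l] (fun i => (O i).s (τ i)) := by
    intro j
    refine (hdr j).trans (clock.neg_left.congr_left (fun i => by ring))
  have p2 : ∀ j, Tendsto (fun i => (O i).p (2 * τ i + 2) j) l (𝓝 (pe r j)) := by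
    intro j
    have h1 := ((drift j).trans_tendsto s0).add (hG.p0 j)
    rw [zero_add] at h1
    exact h1.congr (fun i => by ring)
  refine ⟨d0, hs.m, s0, md, Oxi, Oup, Oxi', Oup', Oxi2, Oup2, hG.sg, sg', clock, hG.p0, drift,
    p2, ?_, ?_⟩
  · refine isLittleO_of_blow (fun U hU e0 α β γ hB => ?_)
    have hL := hG.lim hr hU hB.mem hB.e
    have h1 := (hL.sg'.mul (hB.xi.mul hL.tx0)).sub (hB.xi.mul (th_tendsto (r := r) (-6) hB.e))
    rw [one_mul, sub_self] at h1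
    refine h1.congr (fun i => ?_)
    have hx := ((O i).xi_pos (τ i)).ne'
    have hs := ((O i).s_pos (τ i)).ne'
    field_simp
  · refine isLittleO_of_blow (fun U hU e0 α β γ hB => ?_)
    have hL := hG.lim hr hU hB.mem hB.e
    have h1 := (hL.sg'.mul (hB.up.mul hL.ty0)).sub (hB.up.mul (th_tendsto (r := r) 6 hB.e))
    rw [one_mul, sub_self] at h1
    refine h1.congr (fun i => ?_)
    have hx := ((O i).up_pos (τ i)).ne'
    have hs := ((O i).s_pos (τ i)).ne'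
    field_simp

/-- `1 / A` -/
noncomputable def BackOrbit.Ai (O : BackOrbit) (k : ℕ) : ℝ :=
  (O.sg (2 * k))⁻¹ * ((1 + O.xi (k + 1) * (O.e' k + 6)⁻¹)⁻¹
    * (1 + -O.up (k + 1) * (6 - O.e' k)⁻¹)⁻¹) *
    ((O.e' k - O.p (2 * k + 2) 0)⁻¹ * (O.e' k - O.p (2 * k + 2) 1)⁻¹
      * (O.e' k - O.p (2 * k + 2) 2)⁻¹ * (O.e' k - O.p (2 * k + 2) 3)⁻¹) *
    ((25 - O.e' k ^ 2) * (100 - O.e' k ^ 2))

theorem Step.Ai {r : Fin 4 → ℝ} (hr : IsRef r) {ι : Type} {l : Filter ι}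
    {O : ι → BackOrbit} {τ : ι → ℕ} (h : Step r l O τ) :
    Bd l (fun i => (O i).Ai (τ i)) ∧
    Bd l (fun i => PiT ((O i).e (τ i)) / Q4 (pe r) ((O i).e (τ i))) ∧
    Tendsto (fun i => (O i).Ai (τ i) - PiT ((O i).e (τ i)) / Q4 (pe r) ((O i).e (τ i)))
      l (𝓝 0) := by
  have he : ∀ i, -3 < (O i).e (τ i) ∧ (O i).e (τ i) < 3 := fun i => ((O i).even (τ i)).h1
  have he' : ∀ i, -3 < (O i).e' (τ i) ∧ (O i).e' (τ i) < 3 := fun i => ((O i).odd (τ i)).h1
  have be : Bd l (fun i => (O i).e (τ i)) := bd_e O τ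
  have be' : Bd l (fun i => (O i).e' (τ i)) := Bd.of_le 3 (Eventually.of_forall fun i =>
    abs_le.2 ⟨(he' i).1.le, (he' i).2.le⟩)
  have b6 : Bd l (fun i => ((O i).e' (τ i) + 6)⁻¹) := by
    refine Bd.inv_of_le (c := 1) one_pos (Eventually.of_forall fun i => ?_)
    have := he' i
    rw [abs_of_pos (by linarith)]
    linarith
  have b6' : Bd l (fun i => (6 - (O i).e' (τ i))⁻¹) := by
    refine Bd.inv_of_le (c := 1) one_pos (Eventually.of_forall fun i => ?_)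
    have := he' i
    rw [abs_of_pos (by linarith)]
    linarith
  -- the factors
  have t0 : Tendsto (fun i => ((O i).sg (2 * τ i))⁻¹) l (𝓝 1) := by
    simpa using h.sg.inv₀ one_ne_zero
  have t1 : Tendsto (fun i => (1 + (O i).xi (τ i + 1) * ((O i).e' (τ i) + 6)⁻¹)⁻¹) l (𝓝 1) :=
    tendsto_one_add_inv (idl_zero.mulb (h.xi2.trans_tendsto h.s0) b6)
  have t2 : Tendsto (fun i => (1 + -(O i).up (τ i + 1) * (6 - (O i).e' (τ i))⁻¹)⁻¹) l (𝓝 1) :=
    tendsto_one_add_inv (idl_zero.mulb (by simpa using (h.up2.trans_tendsto h.s0).neg) b6')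
  have z0 : Tendsto (fun i => ((O i).sg (2 * τ i))⁻¹ - 1) l (𝓝 0) := by
    simpa using t0.sub_const 1
  have z1 : Tendsto (fun i => (1 + (O i).xi (τ i + 1) * ((O i).e' (τ i) + 6)⁻¹)⁻¹ - 1)
      l (𝓝 0) := by simpa using t1.sub_const 1
  have z2 : Tendsto (fun i => (1 + -(O i).up (τ i + 1) * (6 - (O i).e' (τ i))⁻¹)⁻¹ - 1)
      l (𝓝 0) := by simpa using t2.sub_const 1
  have zp := fun j => inv_sub_tendsto he he' h.d0 (pe_abs hr j) (h.p2 j)
  have bp := fun j => (bd_inv_sub he' (pe_abs hr j) (h.p2 j)).1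
  have bq := fun j => (bd_inv_sub (l := l) he (pe_abs hr j) (tendsto_const_nhds)).1
  have zq : ∀ K : ℝ, Tendsto (fun i => (K - (O i).e' (τ i) ^ 2) - (K - (O i).e (τ i) ^ 2))
      l (𝓝 0) := by
    intro K
    refine (idl_zero.mulb h.d0 ((be.add be').mul (Bd.const (-1)))).congr (fun i => ?_)
    ring
  have bK : ∀ K : ℝ, Bd l (fun i => K - (O i).e (τ i) ^ 2) := fun K =>
    (Bd.const K).sub ((be.mul be).congr_left (fun i => (sq _).symm))
  have bK' : ∀ K : ℝ, Bd l (fun i => K - (O i).e' (τ i) ^ 2) := fun K =>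
    (Bd.const K).sub ((be'.mul be').congr_left (fun i => (sq _).symm))
  have one : Bd l (fun _ : ι => (1 : ℝ)) := Bd.const 1
  have c12 := idl_zero.mul z1 z2 (Bd.of_tendsto t2) one
  have c012 := idl_zero.mul z0 c12 ((Bd.of_tendsto t1).mul (Bd.of_tendsto t2)) one
  have p01 := idl_zero.mul (zp 0) (zp 1) (bp 1) (bq 0)
  have p012 := idl_zero.mul p01 (zp 2) (bp 2) ((bq 0).mul (bq 1))
  have p0123 := idl_zero.mul p012 (zp 3) (bp 3) (((bq 0).mul (bq 1)).mul (bq 2))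
  have c1 := idl_zero.mul c012 p0123 ((((bp 0).mul (bp 1)).mul (bp 2)).mul (bp 3))
    (one.mul (one.mul one))
  have k1 := idl_zero.mul (zq 25) (zq 100) (bK' 100) (bK 25)
  have c2 := idl_zero.mul c1 k1 ((bK' 25).mul (bK' 100))
    ((one.mul (one.mul one)).mul ((((bq 0).mul (bq 1)).mul (bq 2)).mul (bq 3)))
  have bA : Bd l (fun i => (O i).Ai (τ i)) :=
    (((Bd.of_tendsto t0).mul ((Bd.of_tendsto t1).mul (Bd.of_tendsto t2))).mul
      ((((bp 0).mul (bp 1)).mul (bp 2)).mul (bp 3))).mul ((bK' 25).mul (bK' 100))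
  have bG : Bd l (fun i => PiT ((O i).e (τ i)) / Q4 (pe r) ((O i).e (τ i))) := by
    refine (((bK 25).mul (bK 100)).mul ((((bq 0).mul (bq 1)).mul (bq 2)).mul
      (bq 3))).congr_left (fun i => ?_)
    simp only [PiT, Q4, div_eq_mul_inv, mul_inv]
  refine ⟨bA, bG, c2.congr (fun i => ?_)⟩
  simp only [BackOrbit.Ai, PiT, Q4, div_eq_mul_inv, mul_inv]
  ring

/-- a source term -/
theorem source_term {ι : Type} {l : Filter ι} {t x th' s D D0 A A0 : ι → ℝ}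
    (h : (fun i => t i - x i * th' i) =o[l] s) (hx : x =O[l] s) (bth : Bd l th')
    (hD : Tendsto (fun i => D i - D0 i) l (𝓝 0)) (bD : Bd l (fun i => (D i)⁻¹))
    (bD0 : Bd l (fun i => (D0 i)⁻¹)) (nD : ∀ᶠ i in l, D i ≠ 0) (nD0 : ∀ᶠ i in l, D0 i ≠ 0)
    (hA : Tendsto (fun i => A i - A0 i) l (𝓝 0)) (bA : Bd l A) :
    (fun i => t i / D i * A i - x i * (th' i / D0 i * A0 i)) =o[l] s := by
  have z := idl_zero.mul (idl_zero.inv hD bD bD0 nD nD0) hA bA bD0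
  have h1 := isLittleO_mul_bd h (bD.mul bA)
  have h2 := isLittleO_mul_zero (isBigO_mul_bd hx bth) z
  exact (h1.add h2).congr_left (fun i => by simp only [div_eq_mul_inv]; ring)

theorem Step.oneStep_m {r : Fin 4 → ℝ} (hr : IsRef r) {ι : Type} {l : Filter ι}
    {O : ι → BackOrbit} {τ : ι → ℕ} (h : Step r l O τ) :
    (fun i => (O i).m' (τ i) - (O i).m (τ i)
      - ((O i).xi (τ i) * nco r (-6) ((O i).e (τ i)) + (O i).up (τ i) * nco r 6 ((O i).e (τ i))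
        - (O i).m (τ i) ^ 2 * (9 - (O i).e (τ i) ^ 2) * lco r ((O i).e (τ i))))
      =o[l] (fun i => (O i).s (τ i)) := by
  obtain ⟨bA, bG, zA⟩ := h.Ai hr
  have he : ∀ i, -3 < (O i).e (τ i) ∧ (O i).e (τ i) < 3 := fun i => ((O i).even (τ i)).h1
  have he' : ∀ i, -3 < (O i).e' (τ i) ∧ (O i).e' (τ i) < 3 := fun i => ((O i).odd (τ i)).h1
  have txi := h.xi.trans_tendsto h.s0
  have tup := h.up.trans_tendsto h.s0
  have R := rho_lin (m := fun i => (O i).m (τ i)) (s := fun i => (O i).s (τ i))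
    (d := fun i => (O i).e' (τ i) - (O i).e (τ i))
    (p := fun i => (O i).p (2 * τ i)) (p2 := fun i => (O i).p (2 * τ i + 2)) (q := pe r)
    he he' (fun i => rfl) h.d0 h.m0 h.md h.xi h.up h.xi' h.up' h.xi2 h.up2 txi tup
    (h.xi'.trans_tendsto h.s0) (h.up'.trans_tendsto h.s0) (h.xi2.trans_tendsto h.s0)
    (h.up2.trans_tendsto h.s0) h.sg h.sg' h.clock (pe_abs hr) h.p h.p2 h.drift
  -- denominators
  have nxp : ∀ i, 1 ≤ (O i).e' (τ i) + 6 + (O i).xi (τ i) := fun i => by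
    have := he' i
    have := (O i).xi_pos (τ i)
    linarith
  have nyp : ∀ i, 1 ≤ 6 - (O i).e' (τ i) - (O i).up (τ i) := fun i => by
    have := he' i
    have := ((O i).even (τ i)).h2
    unfold BackOrbit.up
    linarith
  have Sx := source_term (D := fun i => (O i).e' (τ i) + 6 + (O i).xi (τ i))
    (D0 := fun i => (O i).e (τ i) - (-6)) h.tx h.xi (bd_th O τ r (-6)) (by
      have := h.d0.add txi
      rw [add_zero] at this
      exact this.congr (fun i => by ring))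
    (Bd.inv_of_le one_pos (Eventually.of_forall fun i => (nxp i).trans (le_abs_self _)))
    (Bd.inv_of_le one_pos (Eventually.of_forall fun i => by
      have := he i
      rw [abs_of_pos (by linarith)]
      linarith))
    (Eventually.of_forall fun i => by have := nxp i; intro h0; simp only [h0] at this; linarith)
    (Eventually.of_forall fun i => by have := he i; intro h0; linarith) zA bA
  have Sy := source_term (D := fun i => (O i).e' (τ i) - 6 + (O i).up (τ i))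
    (D0 := fun i => (O i).e (τ i) - 6) h.ty h.up (bd_th O τ r 6) (by
      have := h.d0.add tup
      rw [add_zero] at this
      exact this.congr (fun i => by ring))
    (Bd.inv_of_le one_pos (Eventually.of_forall fun i => by
      have := nyp i
      rw [abs_of_neg (by linarith)]
      linarith))
    (Bd.inv_of_le one_pos (Eventually.of_forall fun i => by
      have := he i
      rw [abs_of_neg (by linarith)]
      linarith))
    (Eventually.of_forall fun i => by have := nyp i; intro h0; linarith)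
    (Eventually.of_forall fun i => by have := he i; intro h0; linarith) zA bA
  refine ((R.add Sx).add Sy).congr_left (fun i => ?_)
  obtain ⟨-, hM⟩ := identM_even (O i) (τ i)
  obtain ⟨⟨a1, b1⟩, ⟨a2, b2'⟩, ⟨a3, b3⟩, ⟨a4, b4⟩, -, -, ⟨a7, b7⟩⟩ := (O i).even (τ i + 1)
  rw [show 2 * (τ i + 1) = 2 * τ i + 2 by ring] at a1 b1 a2 b2' a3 b3 a4 b4 a7 b7
  have g := he i
  have g' := he' i
  have gx := (O i).xi_pos (τ i)
  have gx2 := (O i).xi_pos (τ i + 1)
  have gy := ((O i).even (τ i)).h2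
  have alg := m_alg ((O i).e (τ i)) ((O i).e' (τ i)) ((O i).h (2 * τ i + 2) 1) ((O i).xi (τ i))
    ((O i).up (τ i)) ((O i).xi' (τ i)) ((O i).up' (τ i)) ((O i).xi (τ i + 1))
    ((O i).up (τ i + 1)) ((O i).sg (2 * τ i)) ((O i).sg (2 * τ i + 1))
    ((O i).sg (2 * τ i + 1) * (O i).tx0 (τ i) / ((O i).e' (τ i) + 6 + (O i).xi (τ i)))
    ((O i).sg (2 * τ i + 1) * (O i).ty0 (τ i) / ((O i).e' (τ i) - 6 + (O i).up (τ i)))
    ((O i).p (2 * τ i) 0) ((O i).p (2 * τ i) 1) ((O i).p (2 * τ i) 2) ((O i).p (2 * τ i) 3)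
    ((O i).p (2 * τ i + 2) 0) ((O i).p (2 * τ i + 2) 1) ((O i).p (2 * τ i + 2) 2)
    ((O i).p (2 * τ i + 2) 3) g g' ((O i).sg_pos _).ne' (by linarith)
    (by unfold BackOrbit.up; linarith) (by linarith)
    (by unfold BackOrbit.up; rw [show 2 * (τ i + 1) = 2 * τ i + 2 by ring]; linarith)
    (by intro h0; linarith) (by intro h0; linarith) (by intro h0; linarith)
    (by intro h0; linarith) (by
      have e1 : (O i).e' (τ i) + 6 + (O i).xi (τ i)
          = (O i).h (2 * τ i + 1) 1 - (O i).h (2 * τ i) 0 := by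
        unfold BackOrbit.e' BackOrbit.xi; ring
      have e2 : (O i).e' (τ i) - 6 + (O i).up (τ i)
          = (O i).h (2 * τ i + 1) 1 - (O i).h (2 * τ i) 2 := by
        unfold BackOrbit.e' BackOrbit.up; ring
      rw [e1, e2]
      have e3 : (O i).e' (τ i) + 6 + (O i).xi (τ i + 1)
          = (O i).h (2 * τ i + 1) 1 - (O i).h (2 * τ i + 2) 0 := by
        unfold BackOrbit.e' BackOrbit.xi; rw [show 2 * (τ i + 1) = 2 * τ i + 2 by ring]; ring
      have e4 : (O i).e' (τ i) - 6 + (O i).up (τ i + 1)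
          = (O i).h (2 * τ i + 1) 1 - (O i).h (2 * τ i + 2) 2 := by
        unfold BackOrbit.e' BackOrbit.up; rw [show 2 * (τ i + 1) = 2 * τ i + 2 by ring]; ring
      have e5 : (O i).e (τ i) + 6 - (O i).xi' (τ i)
          = (O i).h (2 * τ i) 1 - (O i).h (2 * τ i + 1) 0 := by
        unfold BackOrbit.e BackOrbit.xi'; ring
      have e6 : (O i).e (τ i) - 6 - (O i).up' (τ i)
          = (O i).h (2 * τ i) 1 - (O i).h (2 * τ i + 1) 2 := by
        unfold BackOrbit.e BackOrbit.up'; ring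
      have e7 : (O i).e (τ i) + 6 + (O i).xi (τ i)
          = (O i).h (2 * τ i) 1 - (O i).h (2 * τ i) 0 := by
        unfold BackOrbit.e BackOrbit.xi; ring
      have e8 : (O i).e (τ i) - 6 + (O i).up (τ i)
          = (O i).h (2 * τ i) 1 - (O i).h (2 * τ i) 2 := by
        unfold BackOrbit.e BackOrbit.up; ring
      rw [e3, e4, e5, e6, e7, e8]
      rw [Pi8_eq', Pi8_eq'] at hM
      exact hM)
  have hm' : (O i).m' (τ i) = ((O i).h (2 * τ i + 2) 1 - (O i).e' (τ i))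
      / (9 - (O i).e' (τ i) ^ 2) := by
    unfold BackOrbit.m' BackOrbit.e
    rw [show 2 * (τ i + 1) = 2 * τ i + 2 by ring]
  have hm : (O i).m (τ i) = ((O i).e' (τ i) - (O i).e (τ i)) / (9 - (O i).e (τ i) ^ 2) := rfl
  have hmE : (O i).e' (τ i) - (O i).e (τ i) = (O i).m (τ i) * (9 - (O i).e (τ i) ^ 2) := by
    rw [hm, div_mul_cancel₀ _ ((O i).E_pos (τ i)).ne']
  rw [← hm', ← hm] at alg
  rw [alg]
  unfold nco lco
  rw [hmE]
  unfold BackOrbit.Ai
  ring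

end Pool.Agent.Hhelper30.Forsythe
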