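import Pool.Agent.Hhelper30.Forsythe.F5

/-! Module F5, second part: the next pair is good; the `m`-equation from `Good` alone. -/

set_option autoImplicit false
namespace Pool.Agent.Hhelper30.Forsythe
open Filter Topology Set Asymptotics

theorem exists_sep {r : Fin 4 → ℝ} (hr : IsRef r) : ∃ d > 0, ∀ j i, d < |pe r j - nd i| := by
  have hne : ∀ j i, 0 < |pe r j - nd i| := by
    intro j i
    rw [abs_pos]
    obtain ⟨⟨a0, b0⟩, ⟨a1, b1⟩, ⟨a2, b2⟩, ⟨a3, b3⟩, -⟩ := hr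
    intro h0
    fin_cases j <;> fin_cases i <;> simp [pe, nd] at h0 <;> linarith
  have h1 : ∀ᶠ d in 𝓝[>] (0 : ℝ), ∀ j i, d < |pe r j - nd i| := by
    rw [eventually_all]
    intro j
    rw [eventually_all]
    intro i
    exact (eventually_lt_nhds (hne j i)).filter_mono nhdsWithin_le_nhds
  obtain ⟨d, hd, hd0⟩ := (h1.and self_mem_nhdsWithin).exists
  exact ⟨d, hd0, hd⟩

theorem po_rev (r : Fin 4 → ℝ) (j : Fin 4) : po r (Fin.rev j) = -pe r j := by
  fin_cases j <;> simp [po, pe, Fin.rev]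

theorem pe_rev (r : Fin 4 → ℝ) (j : Fin 4) : pe r (Fin.rev j) = -po r j := by
  fin_cases j <;> simp [po, pe, Fin.rev]

theorem Good.drift_O {r : Fin 4 → ℝ} (hr : IsRef r) {ι : Type} {l : Filter ι}
    {O : ι → BackOrbit} {τ : ι → ℕ} (hG : Good r l O τ) (j : Fin 4) :
    (fun i => (O i).p (2 * τ i + 2) j - (O i).p (2 * τ i) j)
      =O[l] (fun i => (O i).sg (2 * τ i) - (O i).sg (2 * τ i + 1)) := by
  obtain ⟨d, hd, hsep⟩ := exists_sep hr
  have h1 : ∀ᶠ i in l, ∀ j k, d ≤ |(O i).p (2 * τ i) j - nd k| := by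
    rw [eventually_all]
    intro j
    rw [eventually_all]
    intro k
    exact ((hG.p0 j).sub_const (nd k)).abs.eventually_const_le (hsep j k)
  have h2 : ∀ᶠ i in l, 1 / 2 ≤ (O i).sg (2 * τ i) :=
    hG.sg.eventually_const_le (by norm_num)
  refine IsBigO.of_bound (20 ^ 8 * 400 * (2 / d ^ 9)) ?_
  filter_upwards [h1, h2] with i a1 a2
  have h3 := drift (O i) (2 * τ i) hd a1 j
  rw [Real.norm_eq_abs, Real.norm_eq_abs]
  have hd9 : 0 < d ^ 9 := by positivity
  have h4 : 1 / 2 * d ^ 9 * |(O i).p (2 * τ i + 2) j - (O i).p (2 * τ i) j|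
      ≤ 20 ^ 8 * 400 * |(O i).sg (2 * τ i) - (O i).sg (2 * τ i + 1)| := by
    refine le_trans ?_ (h3.trans (mul_le_mul_of_nonneg_left (le_abs_self _) (by norm_num)))
    gcongr
  have h5 : |(O i).p (2 * τ i + 2) j - (O i).p (2 * τ i) j|
      = 2 / d ^ 9 * (1 / 2 * d ^ 9 * |(O i).p (2 * τ i + 2) j - (O i).p (2 * τ i) j|) := by
    field_simp
  rw [h5]
  calc 2 / d ^ 9 * (1 / 2 * d ^ 9 * |(O i).p (2 * τ i + 2) j - (O i).p (2 * τ i) j|)
      ≤ 2 / d ^ 9 * (20 ^ 8 * 400 * |(O i).sg (2 * τ i) - (O i).sg (2 * τ i + 1)|) :=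
        mul_le_mul_of_nonneg_left h4 (by positivity)
    _ = _ := by ring

/-- the next pair (reflected) is good too -/
theorem Good.next_refl {r : Fin 4 → ℝ} (hr : IsRef r) {ι : Type} {l : Filter ι}
    {O : ι → BackOrbit} {τ : ι → ℕ} (hG : Good r l O τ) :
    Good r l (fun i => (O i).refl) τ := by
  have hc := hG.clock_zero hr
  refine ⟨fun j => ?_, fun j => ?_, ?_⟩
  · have h := (hG.p1 (Fin.rev j)).neg
    rw [po_rev, neg_neg] at h
    exact h
  · have h := (((hG.drift_O hr (Fin.rev j)).trans_tendsto hc).add (hG.p0 (Fin.rev j))).neg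
    rw [zero_add, pe_rev, neg_neg] at h
    refine h.congr (fun i => ?_)
    rw [BackOrbit.refl_p]
    ring
  · have h := hG.sg.sub hc
    rw [sub_zero] at h
    refine h.congr (fun i => ?_)
    rw [BackOrbit.refl_sg]
    ring

theorem Good.toStep {r : Fin 4 → ℝ} (hr : IsRef r) {ι : Type} {l : Filter ι}
    {O : ι → BackOrbit} {τ : ι → ℕ} (hG : Good r l O τ) : Step r l O τ :=
  hG.step hr (hG.next_refl hr) (fun j => hG.drift_O hr j)

theorem Good.oneStep_m {r : Fin 4 → ℝ} (hr : IsRef r) {ι : Type} {l : Filter ι}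
    {O : ι → BackOrbit} {τ : ι → ℕ} (hG : Good r l O τ) :
    (fun i => (O i).m' (τ i) - (O i).m (τ i)
      - ((O i).xi (τ i) * nco r (-6) ((O i).e (τ i)) + (O i).up (τ i) * nco r 6 ((O i).e (τ i))
        - (O i).m (τ i) ^ 2 * (9 - (O i).e (τ i) ^ 2) * lco r ((O i).e (τ i))))
      =o[l] (fun i => (O i).s (τ i)) := (hG.toStep hr).oneStep_m hr

end Pool.Agent.Hhelper30.Forsythe
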