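import Pool.Agent.Hhelper30.Forsythe.F1
import Pool.Agent.Hhelper30.Forsythe.F4
import Pool.Agent.Hhelper30.Forsythe.F5

/-! Module F6: the even step of the log-velocities `u`, `v`. -/

set_option autoImplicit false

namespace Pool.Agent.Hhelper30.Forsythe

open Filter Topology Set Asymptotics

section basic
variable {ι : Type} {U : Filter ι}

/-- product rule for first order expansions at `1` -/
theorem one_mul_lim {f g s : ι → ℝ} {a b : ℝ} (hf : Tendsto f U (𝓝 1))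
    (h1 : Tendsto (fun i => (f i - 1) / s i) U (𝓝 a))
    (h2 : Tendsto (fun i => (g i - 1) / s i) U (𝓝 b)) :
    Tendsto (fun i => (f i * g i - 1) / s i) U (𝓝 (a + b)) := by
  have := h1.add (hf.mul h2)
  rw [one_mul] at this
  refine this.congr (fun i => ?_)
  ring

theorem fac_one {a b c : ι → ℝ} {Z : ℝ} (hZ : Z ≠ 0)
    (ha : Tendsto a U (𝓝 0)) (hb : Tendsto b U (𝓝 0)) (hc : Tendsto c U (𝓝 0)) :
    Tendsto (fun i => (Z - b i) ^ 2 / ((Z + a i) * (Z + c i))) U (𝓝 1) := by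
  have h1 := (((tendsto_const_nhds (x := Z)).sub hb).pow 2).div
    (((tendsto_const_nhds (x := Z)).add ha).mul ((tendsto_const_nhds (x := Z)).add hc))
    (by simpa using hZ)
  have e : (Z - 0) ^ 2 / ((Z + 0) * (Z + 0)) = 1 := by
    rw [sub_zero, add_zero]
    field_simp
  rw [e] at h1
  exact h1

theorem fac_lim {a b c s : ι → ℝ} {Z A : ℝ} (hZ : Z ≠ 0)
    (ha : Tendsto a U (𝓝 0)) (hb : Tendsto b U (𝓝 0)) (hc : Tendsto c U (𝓝 0))
    (has : Tendsto (fun i => a i / s i) U (𝓝 A)) (hbs : Tendsto (fun i => b i / s i) U (𝓝 A))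
    (hcs : Tendsto (fun i => c i / s i) U (𝓝 A)) :
    Tendsto (fun i => ((Z - b i) ^ 2 / ((Z + a i) * (Z + c i)) - 1) / s i) U
      (𝓝 (-4 * A / Z)) := by
  have hd := ((tendsto_const_nhds (x := Z)).add ha).mul ((tendsto_const_nhds (x := Z)).add hc)
  have hdne : (Z + 0) * (Z + 0) ≠ 0 := by simpa using hZ
  have h1 := (((((hbs.mul ((tendsto_const_nhds (x := 2 * Z)).sub hb)).neg.sub
    (has.const_mul Z)).sub (hcs.const_mul Z)).sub (has.mul hc))).div hd hdne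
  have e : (-(A * (2 * Z - 0)) - Z * A - Z * A - A * 0) / ((Z + 0) * (Z + 0)) = -4 * A / Z := by
    simp only [sub_zero, add_zero, mul_zero]
    field_simp
    ring
  rw [e] at h1
  have hne : ∀ᶠ i in U, (Z + a i) * (Z + c i) ≠ 0 := hd.eventually_ne hdne
  refine h1.congr' ?_
  filter_upwards [hne] with i hi
  simp only [Pi.div_apply]
  have e2 : ((Z - b i) ^ 2 / ((Z + a i) * (Z + c i)) - 1) / s i
      = ((Z - b i) ^ 2 - (Z + a i) * (Z + c i)) / s i / ((Z + a i) * (Z + c i)) := by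
    rw [div_sub_one hi, div_div, div_div, mul_comm (s i)]
  rw [e2]
  congr 1
  ring

/-- logarithm -/
theorem log_lim {D s : ι → ℝ} {a : ℝ} (hD : Tendsto D U (𝓝 0))
    (h : Tendsto (fun i => (Real.exp (D i) - 1) / s i) U (𝓝 a)) :
    Tendsto (fun i => D i / s i) U (𝓝 a) := by
  have hD' : Tendsto (fun i => |D i|) U (𝓝 0) := by
    have := hD.abs
    rwa [abs_zero] at this
  have hev : ∀ᶠ i in U, |D i| ≤ 1 / 2 :=
    hD'.eventually (ge_mem_nhds (by norm_num))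
  have key : Tendsto (fun i => (Real.exp (D i) - 1) / s i - D i / s i) U (𝓝 0) := by
    have hb : Tendsto (fun i => |D i| * (2 * |(Real.exp (D i) - 1) / s i|)) U (𝓝 0) := by
      have := hD'.mul ((h.abs).const_mul 2)
      rwa [zero_mul] at this
    refine squeeze_zero_norm' ?_ hb
    filter_upwards [hev] with i hi
    have h1 := Real.abs_exp_sub_one_sub_id_le (x := D i) (by linarith)
    have h2 : |D i| ≤ 2 * |Real.exp (D i) - 1| := by
      have h3 : |D i| ≤ |Real.exp (D i) - 1| + |Real.exp (D i) - 1 - D i| := by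
        have := abs_sub (Real.exp (D i) - 1) (Real.exp (D i) - 1 - D i)
        simpa using this
      have h4 : D i ^ 2 ≤ |D i| / 2 := by
        rw [← sq_abs]
        nlinarith [abs_nonneg (D i)]
      linarith
    rw [Real.norm_eq_abs, ← sub_div, abs_div, abs_div]
    rcases eq_or_ne (s i) 0 with h0 | h0
    · simp [h0]
    have h5 : 0 < |s i| := abs_pos.2 h0
    rw [div_le_iff₀ h5]
    have h6 : |D i| * (2 * (|Real.exp (D i) - 1| / |s i|)) * |s i|
        = |D i| * (2 * |Real.exp (D i) - 1|) := by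
      field_simp
    rw [h6]
    refine h1.trans ?_
    rw [← sq_abs]
    nlinarith [abs_nonneg (D i)]
  have := h.sub key
  rw [sub_zero] at this
  exact this.congr (fun i => by ring)

end basic

/-! ### limits including the next step -/

/-- basic limits of the times `2τ`, `2τ+1`, `2τ+2` along a blow-up filter -/
structure Lim2 (r : Fin 4 → ℝ) {ι : Type} (U : Filter ι) (O : ι → BackOrbit) (τ : ι → ℕ)
    (e0 α β γ : ℝ) : Prop where
  lim : Lim r U O τ e0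
  blow : Blow U O τ e0 α β γ
  sg' : Tendsto (fun i => (O i).sg (2 * τ i + 1)) U (𝓝 1)
  rx' : Tendsto (fun i => (O i).xi (τ i + 1) / (O i).xi' (τ i)) U (𝓝 1)
  ry' : Tendsto (fun i => (O i).up (τ i + 1) / (O i).up' (τ i)) U (𝓝 1)
  u : Tendsto (fun i => (O i).u (τ i)) U (𝓝 0)
  v : Tendsto (fun i => (O i).v (τ i)) U (𝓝 0)
  u' : Tendsto (fun i => (O i).u' (τ i)) U (𝓝 0)
  v' : Tendsto (fun i => (O i).v' (τ i)) U (𝓝 0)

theorem BackOrbit.refl_xi (O : BackOrbit) (k : ℕ) : O.refl.xi k = O.up' k := by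
  have h0 : Fin.rev (0 : Fin 3) = 2 := by decide
  simp only [BackOrbit.xi, BackOrbit.up', BackOrbit.refl_h, h0]
  ring

theorem BackOrbit.refl_up (O : BackOrbit) (k : ℕ) : O.refl.up k = O.xi' k := by
  have h0 : Fin.rev (2 : Fin 3) = 0 := by decide
  simp only [BackOrbit.up, BackOrbit.xi', BackOrbit.refl_h, h0]
  ring

theorem BackOrbit.refl_xi' (O : BackOrbit) (k : ℕ) : O.refl.xi' k = O.up (k + 1) := by
  have h0 : Fin.rev (0 : Fin 3) = 2 := by decide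
  have h1 : 2 * k + 1 + 1 = 2 * (k + 1) := by ring
  simp only [BackOrbit.xi', BackOrbit.up, BackOrbit.refl_h, h0, h1]
  ring

theorem BackOrbit.refl_up' (O : BackOrbit) (k : ℕ) : O.refl.up' k = O.xi (k + 1) := by
  have h0 : Fin.rev (2 : Fin 3) = 0 := by decide
  have h1 : 2 * k + 1 + 1 = 2 * (k + 1) := by ring
  simp only [BackOrbit.up', BackOrbit.xi, BackOrbit.refl_h, h0, h1]
  ring

theorem BackOrbit.u_eq (O : BackOrbit) (k : ℕ) : O.u k = Real.log (O.xi k / O.xi' k) := rfl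
theorem BackOrbit.v_eq (O : BackOrbit) (k : ℕ) : O.v k = Real.log (O.up k / O.up' k) := rfl

theorem BackOrbit.refl_u (O : BackOrbit) (k : ℕ) : O.refl.u k = O.v' k := by
  rw [BackOrbit.u_eq, refl_xi, refl_xi', BackOrbit.v']

theorem BackOrbit.refl_v (O : BackOrbit) (k : ℕ) : O.refl.v k = O.u' k := by
  rw [BackOrbit.v_eq, refl_up, refl_up', BackOrbit.u']

theorem Good.lim2 {r : Fin 4 → ℝ} (hr : IsRef r) {ι : Type} {l U : Filter ι}
    {O : ι → BackOrbit} {τ : ι → ℕ} (hG : Good r l O τ) (hU : U ≤ l) {e0 α β γ : ℝ}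
    (hB : Blow U O τ e0 α β γ) : Lim2 r U O τ e0 α β γ := by
  have hL := hG.lim hr hU hB.mem hB.e
  have hG2 := (hG.next hr (hG.clock_zero hr)).mono hU
  have hS := (hG.mono hU).small hr
  have hS2 := hG2.small hr
  obtain ⟨-, -, -, -, -, -, ru, rv⟩ := hG2.core hr
  refine ⟨hL, hB, hL.sg', ?_, ?_, hS.u, hS.v, ?_, ?_⟩
  · have h1 := rv.inv₀ (by norm_num)
    rw [inv_one] at h1
    refine h1.congr (fun i => ?_)
    have e1 : (O i).refl.up (τ i) / (O i).refl.up' (τ i)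
      = (6 - (O i).refl.h (2 * τ i) 2) / ((O i).refl.h (2 * τ i + 1) 2 - 6) := rfl
    rw [← e1, inv_div, BackOrbit.refl_up, BackOrbit.refl_up']
  · have h1 := ru.inv₀ (by norm_num)
    rw [inv_one] at h1
    refine h1.congr (fun i => ?_)
    have e1 : (O i).refl.xi (τ i) / (O i).refl.xi' (τ i)
      = (-6 - (O i).refl.h (2 * τ i) 0) / ((O i).refl.h (2 * τ i + 1) 0 + 6) := rfl
    rw [← e1, inv_div, BackOrbit.refl_xi, BackOrbit.refl_xi']
  · exact hS2.v.congr (fun i => (O i).refl_v _)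
  · exact hS2.u.congr (fun i => (O i).refl_u _)

section steps
variable {r : Fin 4 → ℝ} {ι : Type} {U : Filter ι} {O : ι → BackOrbit} {τ : ι → ℕ}
  {e0 α β γ : ℝ}

theorem Lim2.xi's (h : Lim2 r U O τ e0 α β γ) :
    Tendsto (fun i => (O i).xi' (τ i) / (O i).s (τ i)) U (𝓝 α) := by
  have := h.lim.rx.mul h.blow.xi
  rw [one_mul] at this
  refine this.congr (fun i => ?_)
  have hx := ((O i).xi_pos (τ i)).ne'
  field_simp

theorem Lim2.up's (h : Lim2 r U O τ e0 α β γ) :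
    Tendsto (fun i => (O i).up' (τ i) / (O i).s (τ i)) U (𝓝 β) := by
  have := h.lim.ry.mul h.blow.up
  rw [one_mul] at this
  refine this.congr (fun i => ?_)
  have hx := ((O i).up_pos (τ i)).ne'
  field_simp

theorem Lim2.xi''s (h : Lim2 r U O τ e0 α β γ) :
    Tendsto (fun i => (O i).xi (τ i + 1) / (O i).s (τ i)) U (𝓝 α) := by
  have := h.rx'.mul h.xi's
  rw [one_mul] at this
  refine this.congr (fun i => ?_)
  have hx := ((O i).xi'_pos (τ i)).ne'
  field_simp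

theorem Lim2.up''s (h : Lim2 r U O τ e0 α β γ) :
    Tendsto (fun i => (O i).up (τ i + 1) / (O i).s (τ i)) U (𝓝 β) := by
  have := h.ry'.mul h.up's
  rw [one_mul] at this
  refine this.congr (fun i => ?_)
  have hx := ((O i).up'_pos (τ i)).ne'
  field_simp

theorem Lim2.xi'0 (h : Lim2 r U O τ e0 α β γ) :
    Tendsto (fun i => (O i).xi' (τ i)) U (𝓝 0) := by
  have := h.lim.x'.add_const 6
  norm_num at this
  exact this

theorem Lim2.up'0 (h : Lim2 r U O τ e0 α β γ) :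
    Tendsto (fun i => (O i).up' (τ i)) U (𝓝 0) := by
  have := h.lim.y'.sub_const 6
  norm_num at this
  exact this

theorem Lim2.xi''0 (h : Lim2 r U O τ e0 α β γ) :
    Tendsto (fun i => (O i).xi (τ i + 1)) U (𝓝 0) := by
  have := h.rx'.mul h.xi'0
  rw [one_mul] at this
  refine this.congr (fun i => ?_)
  have hx := ((O i).xi'_pos (τ i)).ne'
  field_simp

theorem Lim2.up''0 (h : Lim2 r U O τ e0 α β γ) :
    Tendsto (fun i => (O i).up (τ i + 1)) U (𝓝 0) := by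
  have := h.ry'.mul h.up'0
  rw [one_mul] at this
  refine this.congr (fun i => ?_)
  have hx := ((O i).up'_pos (τ i)).ne'
  field_simp

theorem Lim2.facx (h : Lim2 r U O τ e0 α β γ) {Z : ℝ} (hZ : Z ≠ 0) :
    Tendsto (fun i => ((Z - (O i).xi' (τ i)) ^ 2 / ((Z + (O i).xi (τ i))
      * (Z + (O i).xi (τ i + 1))) - 1) / (O i).s (τ i)) U (𝓝 (-4 * α / Z)) :=
  fac_lim hZ h.lim.xi h.xi'0 h.xi''0 h.blow.xi h.xi's h.xi''s

theorem Lim2.facy (h : Lim2 r U O τ e0 α β γ) {Z : ℝ} (hZ : Z ≠ 0) :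
    Tendsto (fun i => ((Z - (O i).up' (τ i)) ^ 2 / ((Z + (O i).up (τ i))
      * (Z + (O i).up (τ i + 1))) - 1) / (O i).s (τ i)) U (𝓝 (-4 * β / Z)) :=
  fac_lim hZ h.lim.up h.up'0 h.up''0 h.blow.up h.up's h.up''s

theorem b2_ratio (O : BackOrbit) (k : ℕ) (z : ℝ) :
    b2 (O.h (2 * k + 1)) z ^ 2 / (b2 (O.h (2 * k)) z * b2 (O.h (2 * k + 2)) z)
    = ((z + 6 - O.xi' k) ^ 2 / ((z + 6 + O.xi k) * (z + 6 + O.xi (k + 1))))
      * ((z - 6 - O.up' k) ^ 2 / ((z - 6 + O.up k) * (z - 6 + O.up (k + 1)))) := by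
  have e : 2 * k + 2 = 2 * (k + 1) := by ring
  rw [e, div_mul_div_comm]
  simp only [b2, BackOrbit.xi, BackOrbit.xi', BackOrbit.up, BackOrbit.up']
  congr 1 <;> ring

/-- the ratio at a point of `Z⁺` -/
theorem Lim2.ratio (h : Lim2 r U O τ e0 α β γ) {z : ℝ} (h1 : z + 6 ≠ 0) (h2 : z - 6 ≠ 0) :
    Tendsto (fun i => (b2 ((O i).h (2 * τ i + 1)) z ^ 2 / (b2 ((O i).h (2 * τ i)) z
      * b2 ((O i).h (2 * τ i + 2)) z) - 1) / (O i).s (τ i)) U
      (𝓝 (-4 * α / (z + 6) + -4 * β / (z - 6))) := by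
  have := one_mul_lim (fac_one h1 h.lim.xi h.xi'0 h.xi''0) (h.facx h1) (h.facy h2)
  refine this.congr (fun i => ?_)
  rw [b2_ratio]

/-- limit of the right-hand side of (W) divided by `s` -/
theorem Lim2.rhsW (h : Lim2 r U O τ e0 α β γ) (z : ℝ) :
    Tendsto (fun i => (((O i).sg (2 * τ i) - (O i).sg (2 * τ i + 1)) * PiP z
        + ∑ j, Lb j z * ((O i).sg (2 * τ i + 1) * (zp j - (O i).h (2 * τ i + 1) 1) ^ 2
          * Q4 ((O i).p (2 * τ i)) (zp j)
          * (b2 ((O i).h (2 * τ i + 1)) (zp j) ^ 2 / (b2 ((O i).h (2 * τ i)) (zp j)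
            * b2 ((O i).h (2 * τ i + 2)) (zp j)) - 1))) / (O i).s (τ i)) U
      (𝓝 ((α * th r (-6) e0 + β * th r 6 e0 + γ * (Q4 (pe r) e0 / PiT e0)) * PiP z
        + ∑ j, Lb j z * (1 * (zp j - e0) ^ 2 * Q4 (pe r) (zp j)
          * (-4 * α / (zp j + 6) + -4 * β / (zp j - 6))))) := by
  have hz6 : ∀ j : Fin 6, zp j + 6 ≠ 0 := by
    intro j
    fin_cases j <;> simp [zp] <;> norm_num
  have hz6' : ∀ j : Fin 6, zp j - 6 ≠ 0 := by
    intro j
    fin_cases j <;> simp [zp] <;> norm_num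
  have h1 := ((h.lim.clock h.blow).mul_const (PiP z)).add
    (tendsto_finsetSum Finset.univ (fun j _ =>
      ((((h.sg'.mul (((tendsto_const_nhds (x := zp j)).sub h.lim.e').pow 2)).mul
        (Q4_tendsto h.lim.p0 (tendsto_const_nhds (x := zp j)))).mul
        (h.ratio (hz6 j) (hz6' j))).const_mul (Lb j z))))
  refine h1.congr (fun i => ?_)
  rw [add_div, Finset.sum_div]
  congr 1
  · ring
  · refine Finset.sum_congr rfl (fun j _ => ?_)
    ring

theorem quot_lim {E g ρ s : ι → ℝ} {a b : ℝ} (hE : ∀ i, E i * g i = ρ i)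
    (hg : Tendsto g U (𝓝 1)) (h1 : Tendsto (fun i => (ρ i - 1) / s i) U (𝓝 a))
    (h2 : Tendsto (fun i => (g i - 1) / s i) U (𝓝 b)) :
    Tendsto (fun i => (E i - 1) / s i) U (𝓝 (a - b)) := by
  have h3 := (h1.sub h2).div hg (by norm_num)
  rw [div_one] at h3
  have hne : ∀ᶠ i in U, g i ≠ 0 := hg.eventually_ne (by norm_num)
  refine h3.congr' ?_
  filter_upwards [hne] with i hi
  simp only [Pi.div_apply]
  rw [← hE i, ← sub_div, div_div, mul_comm (s i), ← div_div]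
  congr 1
  field_simp
  ring

theorem exp_uu (O : BackOrbit) (k : ℕ) :
    Real.exp (O.u' k - O.u k) = O.xi' k ^ 2 / (O.xi k * O.xi (k + 1)) := by
  have h1 := O.xi_pos k
  have h2 := O.xi'_pos k
  have h3 := O.xi_pos (k + 1)
  rw [Real.exp_sub, BackOrbit.u', BackOrbit.u_eq, Real.exp_log (by positivity),
    Real.exp_log (by positivity)]
  field_simp

theorem exp_vv (O : BackOrbit) (k : ℕ) :
    Real.exp (O.v' k - O.v k) = O.up' k ^ 2 / (O.up k * O.up (k + 1)) := by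
  have h1 := O.up_pos k
  have h2 := O.up'_pos k
  have h3 := O.up_pos (k + 1)
  rw [Real.exp_sub, BackOrbit.v', BackOrbit.v_eq, Real.exp_log (by positivity),
    Real.exp_log (by positivity)]
  field_simp

theorem Q4_pe_neg6 {r : Fin 4 → ℝ} (hr : IsRef r) : Q4 (pe r) (-6) ≠ 0 := by
  obtain ⟨⟨a0, b0⟩, ⟨a1, b1⟩, ⟨a2, b2⟩, ⟨a3, b3⟩, -⟩ := hr
  simp only [Q4, pe]
  simp
  refine ⟨⟨⟨?_, ?_⟩, ?_⟩, ?_⟩ <;> intro h <;> linarith

theorem Q4_pe_6 {r : Fin 4 → ℝ} (hr : IsRef r) : Q4 (pe r) 6 ≠ 0 := by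
  obtain ⟨⟨a0, b0⟩, ⟨a1, b1⟩, ⟨a2, b2⟩, ⟨a3, b3⟩, -⟩ := hr
  simp only [Q4, pe]
  simp
  refine ⟨⟨⟨?_, ?_⟩, ?_⟩, ?_⟩ <;> intro h <;> linarith

theorem Lim2.node (h : Lim2 r U O τ e0 α β γ) (j : Fin 8) (hj : Q4 (pe r) (nd j) ≠ 0)
    (hj' : nd j - e0 ≠ 0) :
    Tendsto (fun i => (b2 ((O i).h (2 * τ i + 1)) (nd j) ^ 2 / (b2 ((O i).h (2 * τ i)) (nd j)
      * b2 ((O i).h (2 * τ i + 2)) (nd j)) - 1) / (O i).s (τ i)) U
      (𝓝 (((α * th r (-6) e0 + β * th r 6 e0 + γ * (Q4 (pe r) e0 / PiT e0)) * PiP (nd j)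
        + ∑ k, Lb k (nd j) * (1 * (zp k - e0) ^ 2 * Q4 (pe r) (zp k)
          * (-4 * α / (zp k + 6) + -4 * β / (zp k - 6))))
          / (1 * (nd j - e0) ^ 2 * Q4 (pe r) (nd j)))) := by
  have hd := ((h.sg'.mul (((tendsto_const_nhds (x := nd j)).sub h.lim.e').pow 2)).mul
        (Q4_tendsto h.lim.p0 (tendsto_const_nhds (x := nd j))))
  have hdne : 1 * (nd j - e0) ^ 2 * Q4 (pe r) (nd j) ≠ 0 := by
    rw [one_mul]
    exact mul_ne_zero (pow_ne_zero 2 hj') hj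
  have h1 := (h.rhsW (nd j)).div hd hdne
  have hne := hd.eventually_ne hdne
  refine h1.congr' ?_
  filter_upwards [hne] with i hi
  simp only [Pi.div_apply]
  rw [← identW3 (O i) (2 * τ i) (nd j), nodeW3 (O i) (2 * τ i) j, div_right_comm]
  congr 1
  rw [mul_div_cancel_left₀ _ hi]

theorem sumW (z e0 α β : ℝ) (r : Fin 4 → ℝ) :
    ∑ k, Lb k z * (1 * (zp k - e0) ^ 2 * Q4 (pe r) (zp k)
          * (-4 * α / (zp k + 6) + -4 * β / (zp k - 6)))
    = -(4 * α * ∑ k, Lb k z * (zp k - e0) ^ 2 * Q4 (pe r) (zp k) / (zp k - (-6)))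
      - 4 * β * ∑ k, Lb k z * (zp k - e0) ^ 2 * Q4 (pe r) (zp k) / (zp k - 6) := by
  rw [Finset.mul_sum, Finset.mul_sum, ← Finset.sum_neg_distrib, ← Finset.sum_sub_distrib]
  refine Finset.sum_congr rfl (fun k _ => ?_)
  rw [sub_neg_eq_add]
  ring

theorem Lim2.du (hr : IsRef r) (h : Lim2 r U O τ e0 α β γ) :
    Tendsto (fun i => ((O i).u' (τ i) - (O i).u (τ i)) / (O i).s (τ i)) U
      (𝓝 (α * aco r (-6) (-6) e0 + β * aco r (-6) 6 e0 - γ * kco r (-6) e0)) := by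
  obtain ⟨m1, m2⟩ := h.lim.mem
  have n1 : (-6 : ℝ) - e0 ≠ 0 := by intro h; linarith
  have hP := Q4_pe_neg6 hr
  have h1 := h.node 1 (by simpa [nd] using hP) (by simpa [nd] using n1)
  have e1 : nd 1 = -6 := by simp [nd]
  rw [e1] at h1
  have h2 := h.facy (Z := -12) (by norm_num)
  have h3 := fac_one (Z := (-12 : ℝ)) (by norm_num) h.lim.up h.up'0 h.up''0
  have hE : ∀ i, Real.exp ((O i).u' (τ i) - (O i).u (τ i)) * ((-12 - (O i).up' (τ i)) ^ 2 /
      ((-12 + (O i).up (τ i)) * (-12 + (O i).up (τ i + 1))))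
      = b2 ((O i).h (2 * τ i + 1)) (-6) ^ 2 / (b2 ((O i).h (2 * τ i)) (-6)
      * b2 ((O i).h (2 * τ i + 2)) (-6)) := by
    intro i
    rw [exp_uu, b2_ratio]
    norm_num
  have h4 := log_lim (by simpa using h.u'.sub h.u) (quot_lim hE h3 h1 h2)
  convert h4 using 2
  rw [sumW, aco, aco, kco]
  rw [if_pos rfl, if_neg (by norm_num : ¬ ((-6 : ℝ) = 6))]
  generalize ∑ k, Lb k (-6) * (zp k - e0) ^ 2 * Q4 (pe r) (zp k) / (zp k - (-6)) = A
  generalize ∑ k, Lb k (-6) * (zp k - e0) ^ 2 * Q4 (pe r) (zp k) / (zp k - 6) = B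
  generalize Q4 (pe r) e0 / PiT e0 = C
  field_simp
  ring

theorem Lim2.dv (hr : IsRef r) (h : Lim2 r U O τ e0 α β γ) :
    Tendsto (fun i => ((O i).v' (τ i) - (O i).v (τ i)) / (O i).s (τ i)) U
      (𝓝 (α * aco r 6 (-6) e0 + β * aco r 6 6 e0 - γ * kco r 6 e0)) := by
  obtain ⟨m1, m2⟩ := h.lim.mem
  have n1 : (6 : ℝ) - e0 ≠ 0 := by intro h; linarith
  have hP := Q4_pe_6 hr
  have h1 := h.node 6 (by simpa [nd] using hP) (by simpa [nd] using n1)
  have e1 : nd 6 = 6 := by simp [nd]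
  rw [e1] at h1
  have h2 := h.facx (Z := 12) (by norm_num)
  have h3 := fac_one (Z := (12 : ℝ)) (by norm_num) h.lim.xi h.xi'0 h.xi''0
  have hE : ∀ i, Real.exp ((O i).v' (τ i) - (O i).v (τ i)) * ((12 - (O i).xi' (τ i)) ^ 2 /
      ((12 + (O i).xi (τ i)) * (12 + (O i).xi (τ i + 1))))
      = b2 ((O i).h (2 * τ i + 1)) 6 ^ 2 / (b2 ((O i).h (2 * τ i)) 6
      * b2 ((O i).h (2 * τ i + 2)) 6) := by
    intro i
    rw [exp_vv, b2_ratio, mul_comm]
    norm_num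
  have h4 := log_lim (by simpa using h.v'.sub h.v) (quot_lim hE h3 h1 h2)
  convert h4 using 2
  rw [sumW, aco, aco, kco]
  rw [if_pos rfl, if_neg (by norm_num : ¬ ((6 : ℝ) = -6))]
  generalize ∑ k, Lb k 6 * (zp k - e0) ^ 2 * Q4 (pe r) (zp k) / (zp k - (-6)) = A
  generalize ∑ k, Lb k 6 * (zp k - e0) ^ 2 * Q4 (pe r) (zp k) / (zp k - 6) = B
  generalize Q4 (pe r) e0 / PiT e0 = C
  field_simp
  ring

end steps

theorem aco_tendsto {r : Fin 4 → ℝ} {ι : Type} {U : Filter ι} {f : ι → ℝ} {e0 : ℝ} (z s : ℝ)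
    (hz : z - e0 ≠ 0) (hP : Q4 (pe r) z ≠ 0) (h : Tendsto f U (𝓝 e0)) :
    Tendsto (fun i => aco r z s (f i)) U (𝓝 (aco r z s e0)) := by
  unfold aco
  refine Tendsto.add ?_ tendsto_const_nhds
  refine Tendsto.div ?_ ?_ (mul_ne_zero (pow_ne_zero 2 hz) hP)
  · refine Tendsto.sub ((th_tendsto s h).mul_const _) (Tendsto.const_mul 4 ?_)
    refine tendsto_finsetSum Finset.univ (fun j _ => ?_)
    exact ((((tendsto_const_nhds.sub h).pow 2).const_mul _).mul_const _).div_const _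
  · exact ((tendsto_const_nhds.sub h).pow 2).mul_const _

theorem kco_tendsto {r : Fin 4 → ℝ} {ι : Type} {U : Filter ι} {f : ι → ℝ} {e0 : ℝ} (z : ℝ)
    (he : e0 ∈ Icc (-3 : ℝ) 3)
    (hz : z - e0 ≠ 0) (hP : Q4 (pe r) z ≠ 0) (h : Tendsto f U (𝓝 e0)) :
    Tendsto (fun i => kco r z (f i)) U (𝓝 (kco r z e0)) := by
  unfold kco
  refine Tendsto.div ?_ ?_ (mul_ne_zero (pow_ne_zero 2 hz) hP)
  · exact (QT_tendsto he h).neg.mul_const _
  · exact ((tendsto_const_nhds.sub h).pow 2).mul_const _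

theorem Good.oneStep_u {r : Fin 4 → ℝ} (hr : IsRef r) {ι : Type} {l : Filter ι}
    {O : ι → BackOrbit} {τ : ι → ℕ} (hG : Good r l O τ) :
    (fun i => (O i).u' (τ i) - (O i).u (τ i)
      - ((O i).xi (τ i) * aco r (-6) (-6) ((O i).e (τ i))
        + (O i).up (τ i) * aco r (-6) 6 ((O i).e (τ i))
        - (O i).m (τ i) ^ 2 * (9 - (O i).e (τ i) ^ 2) * kco r (-6) ((O i).e (τ i))))
      =o[l] (fun i => (O i).s (τ i)) := by
  refine isLittleO_of_blow (fun U hU e0 α β γ hB => ?_)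
  have hL := hG.lim2 hr hU hB
  obtain ⟨m1, m2⟩ := hB.mem
  have n1 : (-6 : ℝ) - e0 ≠ 0 := by intro h; linarith
  have hP := Q4_pe_neg6 hr
  have h1 := (hL.du hr).sub (((hB.xi.mul (aco_tendsto (-6) (-6) n1 hP hB.e)).add
    (hB.up.mul (aco_tendsto (-6) 6 n1 hP hB.e))).sub
    (hB.mE.mul (kco_tendsto (-6) hB.mem n1 hP hB.e)))
  rw [sub_self] at h1
  refine h1.congr (fun i => ?_)
  have hs := ((O i).s_pos (τ i)).ne'
  field_simp

theorem Good.oneStep_v {r : Fin 4 → ℝ} (hr : IsRef r) {ι : Type} {l : Filter ι}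
    {O : ι → BackOrbit} {τ : ι → ℕ} (hG : Good r l O τ) :
    (fun i => (O i).v' (τ i) - (O i).v (τ i)
      - ((O i).xi (τ i) * aco r 6 (-6) ((O i).e (τ i))
        + (O i).up (τ i) * aco r 6 6 ((O i).e (τ i))
        - (O i).m (τ i) ^ 2 * (9 - (O i).e (τ i) ^ 2) * kco r 6 ((O i).e (τ i))))
      =o[l] (fun i => (O i).s (τ i)) := by
  refine isLittleO_of_blow (fun U hU e0 α β γ hB => ?_)
  have hL := hG.lim2 hr hU hB
  obtain ⟨m1, m2⟩ := hB.mem
  have n1 : (6 : ℝ) - e0 ≠ 0 := by intro h; linarith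
  have hP := Q4_pe_6 hr
  have h1 := (hL.dv hr).sub (((hB.xi.mul (aco_tendsto 6 (-6) n1 hP hB.e)).add
    (hB.up.mul (aco_tendsto 6 6 n1 hP hB.e))).sub
    (hB.mE.mul (kco_tendsto 6 hB.mem n1 hP hB.e)))
  rw [sub_self] at h1
  refine h1.congr (fun i => ?_)
  have hs := ((O i).s_pos (τ i)).ne'
  field_simp

/-- the one-step expansion (even step) -/
structure OneStep (r : Fin 4 → ℝ) {ι : Type} (l : Filter ι) (O : ι → BackOrbit) (τ : ι → ℕ) :
    Prop where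
  m : (fun i => (O i).m' (τ i) - (O i).m (τ i)
      - ((O i).xi (τ i) * nco r (-6) ((O i).e (τ i)) + (O i).up (τ i) * nco r 6 ((O i).e (τ i))
        - (O i).m (τ i) ^ 2 * (9 - (O i).e (τ i) ^ 2) * lco r ((O i).e (τ i))))
      =o[l] (fun i => (O i).s (τ i))
  u : (fun i => (O i).u' (τ i) - (O i).u (τ i)
      - ((O i).xi (τ i) * aco r (-6) (-6) ((O i).e (τ i))
        + (O i).up (τ i) * aco r (-6) 6 ((O i).e (τ i))
        - (O i).m (τ i) ^ 2 * (9 - (O i).e (τ i) ^ 2) * kco r (-6) ((O i).e (τ i))))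
      =o[l] (fun i => (O i).s (τ i))
  v : (fun i => (O i).v' (τ i) - (O i).v (τ i)
      - ((O i).xi (τ i) * aco r 6 (-6) ((O i).e (τ i))
        + (O i).up (τ i) * aco r 6 6 ((O i).e (τ i))
        - (O i).m (τ i) ^ 2 * (9 - (O i).e (τ i) ^ 2) * kco r 6 ((O i).e (τ i))))
      =o[l] (fun i => (O i).s (τ i))

theorem Good.oneStep {r : Fin 4 → ℝ} (hr : IsRef r) {ι : Type} {l : Filter ι}
    {O : ι → BackOrbit} {τ : ι → ℕ} (hG : Good r l O τ) : OneStep r l O τ :=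
  ⟨(hG.step hr (hG.next hr (hG.clock_zero hr)) (hG.drift hr)).oneStep_m hr,
    hG.oneStep_u hr, hG.oneStep_v hr⟩

end Pool.Agent.Hhelper30.Forsythe
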