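import Pool.Agent.Hhelper30.Forsythe.RS

/-! Module F, common definitions: reflection, one-step observables, the filter of near orbits. -/

set_option autoImplicit false

namespace Pool.Agent.Hhelper30.Forsythe

open Filter Topology Set Asymptotics

theorem nd_rev (i : Fin 8) : nd (Fin.rev i) = -nd i := by
  fin_cases i <;> simp [nd, Fin.rev]

theorem Q4_rev (p : Fin 4 → ℝ) (z : ℝ) : Q4 (fun j => -p (Fin.rev j)) z = Q4 p (-z) := by
  have h0 : Fin.rev (0 : Fin 4) = 3 := by decide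
  have h1 : Fin.rev (1 : Fin 4) = 2 := by decide
  have h2 : Fin.rev (2 : Fin 4) = 1 := by decide
  have h3 : Fin.rev (3 : Fin 4) = 0 := by decide
  simp only [Q4, h0, h1, h2, h3]
  ring

theorem C3_rev (h : Fin 3 → ℝ) (z : ℝ) : C3 (fun j => -h (Fin.rev j)) z = -C3 h (-z) := by
  have h0 : Fin.rev (0 : Fin 3) = 2 := by decide
  have h1 : Fin.rev (1 : Fin 3) = 1 := by decide
  have h2 : Fin.rev (2 : Fin 3) = 0 := by decide
  simp only [C3, h0, h1, h2]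
  ring

/-- `z ↦ -z` combined with a time shift by one maps backward orbits to backward orbits. -/
def BackOrbit.refl (O : BackOrbit) : BackOrbit where
  p t j := -O.p (t + 1) (Fin.rev j)
  h t j := -O.h (t + 1) (Fin.rev j)
  sg t := O.sg (t + 1)
  even k := by
    obtain ⟨⟨a1, b1⟩, ⟨a2, b2⟩, ⟨a3, b3⟩, ⟨a4, b4⟩, ⟨a5, b5⟩, ⟨a6, b6⟩, ⟨a7, b7⟩⟩ := O.odd k
    have r0 : Fin.rev (0 : Fin 4) = 3 := by decide
    have r1 : Fin.rev (1 : Fin 4) = 2 := by decide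
    have r2 : Fin.rev (2 : Fin 4) = 1 := by decide
    have r3 : Fin.rev (3 : Fin 4) = 0 := by decide
    have q0 : Fin.rev (0 : Fin 3) = 2 := by decide
    have q1 : Fin.rev (1 : Fin 3) = 1 := by decide
    have q2 : Fin.rev (2 : Fin 3) = 0 := by decide
    constructor <;> simp only [r0, r1, r2, r3, q0, q1, q2] <;> constructor <;> linarith
  odd k := by
    obtain ⟨⟨a1, b1⟩, ⟨a2, b2⟩, ⟨a3, b3⟩, ⟨a4, b4⟩, ⟨a5, b5⟩, ⟨a6, b6⟩, ⟨a7, b7⟩⟩ :=
      O.even (k + 1)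
    have e : 2 * k + 1 + 1 = 2 * (k + 1) := by ring
    have r0 : Fin.rev (0 : Fin 4) = 3 := by decide
    have r1 : Fin.rev (1 : Fin 4) = 2 := by decide
    have r2 : Fin.rev (2 : Fin 4) = 1 := by decide
    have r3 : Fin.rev (3 : Fin 4) = 0 := by decide
    have q0 : Fin.rev (0 : Fin 3) = 2 := by decide
    have q1 : Fin.rev (1 : Fin 3) = 1 := by decide
    have q2 : Fin.rev (2 : Fin 3) = 0 := by decide
    constructor <;> simp only [r0, r1, r2, r3, q0, q1, q2, e] <;> constructor <;> linarith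
  sg_pos t := O.sg_pos (t + 1)
  rel t i := by
    have h := O.rel (t + 1) (Fin.rev i)
    have e1 : nd i = -nd (Fin.rev i) := by rw [nd_rev]; ring
    rw [Q4_rev, Q4_rev, C3_rev, C3_rev, ← nd_rev]
    linarith

theorem BackOrbit.refl_p (O : BackOrbit) (t : ℕ) (j : Fin 4) :
    O.refl.p t j = -O.p (t + 1) (Fin.rev j) := rfl
theorem BackOrbit.refl_h (O : BackOrbit) (t : ℕ) (j : Fin 3) :
    O.refl.h t j = -O.h (t + 1) (Fin.rev j) := rfl
theorem BackOrbit.refl_sg (O : BackOrbit) (t : ℕ) : O.refl.sg t = O.sg (t + 1) := rfl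

/-! ### observables of the step `2k → 2k+1 → 2k+2`; `'` is time `2k+1`, `''` is time `2k+2` -/

/-- `ξ_{2k}` -/
def BackOrbit.xi (O : BackOrbit) (k : ℕ) : ℝ := -6 - O.h (2 * k) 0
/-- `υ_{2k}` -/
def BackOrbit.up (O : BackOrbit) (k : ℕ) : ℝ := 6 - O.h (2 * k) 2
/-- `η_{2k}` -/
def BackOrbit.e (O : BackOrbit) (k : ℕ) : ℝ := O.h (2 * k) 1
/-- `ξ_{2k+1}` -/
def BackOrbit.xi' (O : BackOrbit) (k : ℕ) : ℝ := O.h (2 * k + 1) 0 + 6
/-- `υ_{2k+1}` -/
def BackOrbit.up' (O : BackOrbit) (k : ℕ) : ℝ := O.h (2 * k + 1) 2 - 6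
/-- `η_{2k+1}` -/
def BackOrbit.e' (O : BackOrbit) (k : ℕ) : ℝ := O.h (2 * k + 1) 1
/-- `u_{2k+1}` -/
noncomputable def BackOrbit.u' (O : BackOrbit) (k : ℕ) : ℝ := Real.log (O.xi' k / O.xi (k + 1))
/-- `v_{2k+1}` -/
noncomputable def BackOrbit.v' (O : BackOrbit) (k : ℕ) : ℝ := Real.log (O.up' k / O.up (k + 1))
/-- `m_{2k+1}` -/
noncomputable def BackOrbit.m' (O : BackOrbit) (k : ℕ) : ℝ :=
  (O.e (k + 1) - O.e' k) / (9 - O.e' k ^ 2)
/-- `s_{2k} = ξ + υ + m² E` -/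
noncomputable def BackOrbit.s (O : BackOrbit) (k : ℕ) : ℝ :=
  O.xi k + O.up k + O.m k ^ 2 * (9 - O.e k ^ 2)

/-- Along the filter `l`, the states at the times `2 τ`, `2 τ + 1` of the orbits `O` converge to
the reference. -/
structure Good (r : Fin 4 → ℝ) {ι : Type} (l : Filter ι) (O : ι → BackOrbit) (τ : ι → ℕ) :
    Prop where
  p0 : ∀ j, Tendsto (fun i => (O i).p (2 * τ i) j) l (𝓝 (pe r j))
  p1 : ∀ j, Tendsto (fun i => (O i).p (2 * τ i + 1) j) l (𝓝 (po r j))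
  sg : Tendsto (fun i => (O i).sg (2 * τ i)) l (𝓝 1)

/-- the set of pairs (orbit, time) which are `δ`-near the reference -/
def nearSet (r : Fin 4 → ℝ) (δ : ℝ) : Set (BackOrbit × ℕ) :=
  {x | Near r δ x.1 ∧ x.1.G x.2 ≤ δ}

/-- the filter of near orbits -/
def nearFilter (r : Fin 4 → ℝ) : Filter (BackOrbit × ℕ) :=
  ⨅ δ : {δ : ℝ // 0 < δ}, 𝓟 (nearSet r δ.1)

theorem Near.mono {r : Fin 4 → ℝ} {δ δ' : ℝ} {O : BackOrbit} (h : Near r δ O) (hd : δ ≤ δ') :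
    Near r δ' O :=
  ⟨fun j => (h.p0 j).trans hd, fun j => (h.p1 j).trans hd, h.sg0.trans hd⟩

theorem eventually_nearFilter {r : Fin 4 → ℝ} {P : BackOrbit × ℕ → Prop} :
    (∀ᶠ x in nearFilter r, P x) ↔
      ∃ δ > 0, ∀ (O : BackOrbit) (k : ℕ), Near r δ O → O.G k ≤ δ → P (O, k) := by
  have hb : (nearFilter r).HasBasis (fun _ : {δ : ℝ // 0 < δ} => True)
      (fun δ => nearSet r δ.1) := by
    refine hasBasis_iInf_principal ?_
    intro a b
    refine ⟨⟨min a.1 b.1, lt_min a.2 b.2⟩, ?_, ?_⟩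
    · intro x hx
      exact ⟨hx.1.mono (min_le_left _ _), hx.2.trans (min_le_left _ _)⟩
    · intro x hx
      exact ⟨hx.1.mono (min_le_right _ _), hx.2.trans (min_le_right _ _)⟩
  rw [hb.eventually_iff]
  constructor
  · rintro ⟨δ, -, h⟩
    exact ⟨δ.1, δ.2, fun O k h1 h2 => h ⟨h1, h2⟩⟩
  · rintro ⟨δ, hδ, h⟩
    exact ⟨⟨δ, hδ⟩, trivial, fun x hx => h x.1 x.2 hx.1 hx.2⟩

/-- linearised factor at `x` and `y`: `b_t(z) = (z - x_t)(z - y_t)` -/
def b2 (h : Fin 3 → ℝ) (z : ℝ) : ℝ := (z - h 0) * (z - h 2)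

end Pool.Agent.Hhelper30.Forsythe
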