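import Pool.Agent.Hhelper30.Forsythe.LocalRS

/-! Third leg: the bounce at side b after the exchange. -/

set_option autoImplicit false

namespace Pool.Agent.Hhelper30.Forsythe

open Filter Topology Set Finset

/-- time bounds -/
theorem leg3_time (θ t D Cb : ℝ) (hθ : 0 < θ) (hθ1 : θ ≤ 1 / 10000) (ht : 0 ≤ t)
    (h1 : 2 * (1 - θ) * t ≤ D + Cb) (h2 : D ≤ 2 * (1 + θ) * t + Cb) :
    t ≤ 5006 / 10000 * (D + Cb) ∧ 499 / 1000 * (D - Cb) ≤ t := by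
  have e1 : θ * t ≤ 1 / 10000 * t := mul_le_mul_of_nonneg_right hθ1 ht
  have e0 : 0 ≤ θ * t := by positivity
  constructor <;> linarith

theorem leg3_step (B1 B2 B3 a b k ε h Z ζ e D : ℝ) (hh : 0 < h) (hZ : 0 ≤ Z) (hζ : 0 ≤ ζ)
    (he : 0 ≤ e) (hε : ε ≤ 1) (ha : |a| ≤ B1) (hb : |b| ≤ B2) (hk : |k| ≤ B3)
    (hB1 : 0 ≤ B1) (hB2 : 0 ≤ B2) (hB3 : 0 ≤ B3)
    (hD : |D - h * (Z * a + ζ * b - e * k)| ≤ ε * h * (Z + ζ + e)) :
    D ≤ (B1 + B2 + B3 + 1) * (h * (Z + ζ + e)) := by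
  have h1 := (abs_le.mp hD).2
  have h2 : Z * a ≤ Z * B1 := mul_le_mul_of_nonneg_left ((le_abs_self a).trans ha) hZ
  have h3 : ζ * b ≤ ζ * B2 := mul_le_mul_of_nonneg_left ((le_abs_self b).trans hb) hζ
  have h4 : e * (-k) ≤ e * B3 := mul_le_mul_of_nonneg_left ((neg_le_abs k).trans hk) he
  have h5 : Z * a + ζ * b - e * k ≤ (B1 + B2 + B3) * (Z + ζ + e) := by
    have := mul_nonneg hZ hB2
    have := mul_nonneg hZ hB3
    have := mul_nonneg hζ hB1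
    have := mul_nonneg hζ hB3
    have := mul_nonneg he hB1
    have := mul_nonneg he hB2
    nlinarith
  have h6 := mul_le_mul_of_nonneg_left h5 hh.le
  have h7 : ε * h * (Z + ζ + e) ≤ 1 * h * (Z + ζ + e) :=
    mul_le_mul_of_nonneg_right (mul_le_mul_of_nonneg_right hε hh.le) (by linarith)
  nlinarith

theorem leg3 (c : Coef) (hc : GoodCoef c) (C c0 : ℝ) (hC : 0 < C) (hc0 : 0 < c0) (K0 : ℝ) (hK0 : 800 ≤ K0)
    (εy : ℝ) (hεy : 0 < εy) :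
    ∃ M3 : ℝ, 0 ≤ M3 ∧ ∀ M : ℝ, M3 ≤ M → ∃ ε1 > 0, ∃ C3 : ℝ, 1 ≤ C3 ∧ ∀ (ε h δ : ℝ), 0 ≤ ε → ε ≤ ε1 → 0 < h → h ≤ ε1 →
    ∀ (X Y S u v m G : ℕ → ℝ), RS c C c0 ε h δ X Y S u v m G → ∀ g2 : ℝ, u 0 = -g2 → 300 ≤ g2 → g2 ≤ 2 * K0 →
    -2 ≤ v 0 + g2 → v 0 + g2 ≤ 0 → 98 / 100 * g2 ≤ K0 * m 0 → K0 * m 0 ≤ 102 / 100 * g2 →
    M ≤ S 0 → S 0 ≤ M + 1 → C3 ≤ X 0 → 7 * X 0 + C3 ≤ Y 0 → G 0 + C3 ≤ δ →
    ∃ (K : ℕ) (g' : ℝ), 0 < K ∧ v K = -g' ∧ 49 / 10 * g2 ≤ g' ∧ g' ≤ 71 / 10 * g2 ∧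
      1 / 8 * g' ≤ u K ∧ u K ≤ 1 / 4 * g' ∧ 1 / (8 * K0) * g' ≤ m K ∧ m K ≤ 1 / 1000 * g' ∧
      Real.exp (-(X K + 2 * Real.log g')) ≤ εy ∧ X K + 2 * Real.log g' ≤ C3 ∧
      2 / K0 * X 0 - C3 ≤ S K ∧ S K ≤ 10 / K0 * X 0 + C3 ∧
      Y 0 - 12 / 10 * X 0 - C3 ≤ Y K ∧ Y K ≤ Y 0 + C3 ∧ h * K ≤ X 0 + C3 ∧ g2 ≤ C3 * (G K - G 0) ∧
      ∀ j ≤ K, G 0 ≤ G j ∧ G j ≤ G 0 + C3 ∧ -C3 ≤ X j ∧ Y 0 - 12 / 10 * X 0 - C3 ≤ Y j := by
  obtain ⟨A, hAdef⟩ : ∃ A, A = c.Axx 3 := ⟨_, rfl⟩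
  obtain ⟨R, hRdef⟩ : ∃ R, R = c.Axy (-3) := ⟨_, rfl⟩
  obtain ⟨N, hNdef⟩ : ∃ N, N = -(c.nx 3) := ⟨_, rfl⟩
  have hA : 0 < A := by rw [hAdef]; exact hc.Axx_b
  have hR1 : R ≤ -2 * A := by rw [hRdef, hAdef]; exact hc.q_lo
  have hR2 : -3 * A ≤ R := by rw [hRdef, hAdef]; exact hc.q_hi
  have hN1 : N ≤ 0 := by rw [hNdef]; linarith [hc.n'_lo]
  have hN2 : -(1 / 1000) * A ≤ N := by rw [hNdef, hAdef]; linarith [hc.n'_hi]
  have hR0 : R ≤ 0 := by linarith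
  obtain ⟨r, hr⟩ : ∃ r, r = R / A := ⟨_, rfl⟩
  obtain ⟨n, hn⟩ : ∃ n, n = N / A := ⟨_, rfl⟩
  have hr1 : r ≤ -2 := by rw [hr, div_le_iff₀ hA]; linarith
  have hr2 : -3 ≤ r := by rw [hr, le_div_iff₀ hA]; linarith
  have hn1 : -(1 / 1000) ≤ n := by rw [hn, le_div_iff₀ hA]; linarith
  have hn2 : n ≤ 0 := by rw [hn, div_le_iff₀ hA]; linarith
  obtain ⟨C2, hC2⟩ : ∃ C2, C2 = 10 * ((|R| + |N|) / A + 1) := ⟨_, rfl⟩
  have hC2' : C2 ≤ 41 := by
    have h1 : |R| / A = -r := by rw [abs_of_nonpos hR0, hr]; ring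
    have h2 : |N| / A = -n := by rw [abs_of_nonpos hN1, hn]; ring
    rw [hC2, add_div, h1, h2]; linarith
  have hC2pos : 0 < C2 := by rw [hC2]; positivity
  have hK0pos : 0 < K0 := by linarith
  obtain ⟨ν, hν⟩ : ∃ ν, ν = 98 / 100 / K0 := ⟨_, rfl⟩
  have hνpos : 0 < ν := by rw [hν]; positivity
  have hνK : ν * K0 = 98 / 100 := by rw [hν]; field_simp
  have hν1 : ν ≤ 1 / 800 := by
    rw [hν, div_le_iff₀ hK0pos]; linarith
  obtain ⟨Cl, hCl, hCl1, hloc⟩ := loc_of_RS c hc C c0 hC hc0.le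
  have hClpos : 0 < Cl := by linarith
  obtain ⟨θ, hθ⟩ : ∃ θ, θ = min (ν / 5000) (A * εy / 2) := ⟨_, rfl⟩
  have hθpos : 0 < θ := by rw [hθ]; positivity
  have hθν : θ ≤ ν / 5000 := by rw [hθ]; exact min_le_left _ _
  have hθε : θ ≤ A * εy / 2 := by rw [hθ]; exact min_le_right _ _
  have hC2θ : C2 * θ ≤ ν / 100 := by
    have := mul_le_mul hC2' hθν hθpos.le (by norm_num)
    linarith
  have hC2θ0 : 0 ≤ C2 * θ := by positivity
  have hθ1 : θ ≤ 1 / 10000 := by linarith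
  have hC2θ2 : C2 * θ ^ 2 ≤ ν / 1000000 := by
    have : C2 * θ ^ 2 = C2 * θ * θ := by ring
    rw [this]
    have := mul_le_mul hC2θ hθ1 hθpos.le (by linarith)
    linarith
  have hC2θ20 : 0 ≤ C2 * θ ^ 2 := by positivity
  obtain ⟨εb, hεb, hεb1, Cb, hCb, hbs⟩ := bounce_stage A R N Cl ν (1 / 8) 2 hA hClpos hνpos
    (by norm_num) (by norm_num) (by norm_num) θ hθpos (by linarith) C2 hC2 (by linarith)
    (by linarith)
  obtain ⟨εl, hεl⟩ : ∃ e, e = εb / 2 := ⟨_, rfl⟩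
  have hεlpos : 0 < εl := by rw [hεl]; positivity
  have hεlb : 2 * εl ≤ εb := by rw [hεl]; linarith
  obtain ⟨Mb, hMb0, hlocM⟩ := hloc εl hεlpos
  obtain ⟨B1, hB1, hb1⟩ := bdd_fun c.Axx hc.cAxx
  obtain ⟨B2, hB2, hb2⟩ := bdd_fun c.Axy hc.cAxy
  obtain ⟨B3, hB3, hb3⟩ := bdd_fun c.kx hc.ckx
  obtain ⟨L, hL⟩ : ∃ L, L = Real.log (2 * K0) := ⟨_, rfl⟩
  have hL0 : 0 ≤ L := by rw [hL]; exact Real.log_nonneg (by linarith)
  refine ⟨Mb + Cb, by linarith, ?_⟩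
  intro M hM
  have hMpos : 0 ≤ M := by linarith
  obtain ⟨C3, hC3⟩ : ∃ C3, C3 = 100 * Cb + 100 * L + M + 100 + 2 * K0 * Cb
    + (B1 + B2 + B3 + 1) / c0 := ⟨_, rfl⟩
  have q1 : 0 ≤ 2 * K0 * Cb := by positivity
  have q2 : 0 ≤ (B1 + B2 + B3 + 1) / c0 := by positivity
  refine ⟨min εl (εb / (2 * K0)), by positivity, C3, by linarith, ?_⟩
  intro ε h δ hε hεε hh hhε X Y S u v m G hRS g2 hu0 hg1 hg2 hv1 hv2 hm1 hm2 hS1 hS2 hX0 hY0 hG
  have hεl' : ε ≤ εl := hεε.trans (min_le_left _ _)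
  have hhb : h * (2 * K0) ≤ εb := by
    have h1 : h ≤ εb / (2 * K0) := hhε.trans (min_le_right _ _)
    rwa [le_div_iff₀ (by positivity)] at h1
  have hg0 : 0 < g2 := by linarith
  have hgne : g2 ≠ 0 := hg0.ne'
  obtain ⟨ℓ, hℓ⟩ : ∃ ℓ, ℓ = Real.log g2 := ⟨_, rfl⟩
  have hℓ0 : 0 ≤ ℓ := by rw [hℓ]; exact Real.log_nonneg (by linarith)
  have hℓL : ℓ ≤ L := by rw [hℓ, hL]; exact Real.log_le_log hg0 hg2
  have hRS' := hRS.scale g2 hg0
  rw [← hℓ] at hRS'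
  have hhg : h * g2 ≤ εb := by
    have := mul_le_mul_of_nonneg_left hg2 hh.le
    linarith
  have hhg0 : 0 < h * g2 := by positivity
  have hlocA : ∀ k, G k / g2 ≤ δ / g2 → -S k ≤ -Mb →
      Loc A R N Cl (2 * εl) (h * g2) (fun k => X k + 2 * ℓ) (fun k => Y k + 2 * ℓ)
        (fun k => -S k) (fun k => u k / g2) (fun k => v k / g2) (fun k => -(m k / g2))
        (fun k => G k / g2) k := by
    intro k hk1 hk2
    rw [hAdef, hRdef, hNdef]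
    exact (hlocM ε (h * g2) (δ / g2) hε hεl' (by linarith) hhg0 _ _ _ _ _ _ _ hRS').2 k hk1
      (by linarith)
  -- initial values
  have hu0' : u 0 / g2 = -1 := by rw [hu0, neg_div, div_self hgne]
  have hv0a : v 0 / g2 ≤ -1 := by rw [div_le_iff₀ hg0]; linarith
  have hv0b : -(302 / 300) ≤ v 0 / g2 := by rw [le_div_iff₀ hg0]; linarith
  have hm0a : ν ≤ m 0 / g2 := by
    rw [le_div_iff₀ hg0, hν, div_mul_eq_mul_div, div_le_iff₀ hK0pos]; linarith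
  have hm0b : m 0 / g2 ≤ 102 / 98 * ν := by
    rw [div_le_iff₀ hg0, hν]
    have e : 102 / 98 * (98 / 100 / K0) * g2 = 102 / 100 * g2 / K0 := by ring
    rw [e, le_div_iff₀ hK0pos]; linarith
  obtain ⟨D, hD⟩ : ∃ D, D = X 0 + 2 * ℓ := ⟨_, rfl⟩
  have hDX : X 0 ≤ D := by linarith
  have hDX' : D ≤ X 0 + 2 * L := by linarith
  have hGd : G 0 / g2 + Cb ≤ δ / g2 := by
    have h1 : g2 * Cb ≤ 2 * K0 * Cb := mul_le_mul_of_nonneg_right hg2 (by linarith)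
    rw [le_div_iff₀ hg0, add_mul, div_mul_cancel₀ _ hgne]
    linarith
  obtain ⟨K, kz, co, hkz, huK, hGS, hTK⟩ := hbs (2 * εl) (h * g2) (δ / g2) Mb (by linarith) hεlb
    hhg0 hhg hMb0 (fun k => X k + 2 * ℓ) (fun k => Y k + 2 * ℓ)
        (fun k => -S k) (fun k => u k / g2) (fun k => v k / g2) (fun k => -(m k / g2))
        (fun k => G k / g2) D hlocA hu0' hD.symm (by linarith)
    (by show -2 ≤ -(m 0 / g2); linarith) (by show -(m 0 / g2) ≤ -ν; linarith)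
    (by show |v 0 / g2| ≤ 2; rw [abs_le]; constructor <;> linarith) hGd
    (by show -S 0 ≤ -Mb - Cb; linarith)
    (Or.inr (by show 2 * (2 + 1) * (D + 1) + Cb ≤ Y 0 + 2 * ℓ; linarith))
  obtain ⟨t, ht⟩ : ∃ t, t = h * g2 * (kz : ℝ) := ⟨_, rfl⟩
  have ht0 : 0 ≤ t := by rw [ht]; positivity
  have hkzhi := co.kz_hi
  have hkzlo := (co.kz_lo hkz).1
  have hXkz := (co.kz_lo hkz).2
  rw [← ht] at hkzhi hkzlo
  obtain ⟨ht1, ht2⟩ := leg3_time θ t D Cb hθpos hθ1 ht0 hkzhi hkzlo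
  have hGK1 := co.Gb K le_rfl
  have huK2 := (co.ub K le_rfl).2
  have hvK := abs_le.mp (co.vb K le_rfl)
  have hmK := abs_le.mp (co.mb K le_rfl)
  rw [← hr] at hvK
  rw [← hn] at hmK
  have hXK1 := co.Xf
  have hYf := abs_le.mp co.Yf
  have hSf := abs_le.mp co.Sf
  rw [← ht] at hYf hSf
  beta_reduce at hXkz huK huK2 hvK hmK hXK1 hYf hSf hGK1
  -- scaled values at the end
  obtain ⟨U, hU⟩ : ∃ U, U = u K / g2 := ⟨_, rfl⟩
  obtain ⟨V, hV⟩ : ∃ V, V = v K / g2 := ⟨_, rfl⟩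
  obtain ⟨W, hW⟩ : ∃ W, W = m K / g2 := ⟨_, rfl⟩
  have hUu : u K = g2 * U := by rw [hU]; field_simp
  have hVv : v K = g2 * V := by rw [hV]; field_simp
  have hWm : m K = g2 * W := by rw [hW]; field_simp
  rw [← hU] at huK huK2 hvK hmK
  rw [← hV] at hvK
  rw [← hW] at hmK
  have hU0 : 0 ≤ U + 1 := by linarith
  -- products
  have p1 : r * (U + 1) ≤ -2 * (U + 1) := mul_le_mul_of_nonneg_right hr1 hU0
  have p2 : -3 * (U + 1) ≤ r * (U + 1) := mul_le_mul_of_nonneg_right hr2 hU0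
  have p3 : n * (U + 1) ≤ 0 := mul_nonpos_of_nonpos_of_nonneg hn2 hU0
  have p4 : -(1 / 1000) * (U + 1) ≤ n * (U + 1) := mul_le_mul_of_nonneg_right hn1 hU0
  have p5 : v 0 / g2 * t ≤ -1 * t := mul_le_mul_of_nonneg_right hv0a ht0
  have p6 : -(302 / 300) * t ≤ v 0 / g2 * t := mul_le_mul_of_nonneg_right hv0b ht0
  have p7 : C2 * θ * t ≤ ν / 100 * t := mul_le_mul_of_nonneg_right hC2θ ht0
  have p7' : 0 ≤ C2 * θ * t := by positivity
  have p8 : ν * t ≤ 1 / 800 * t := mul_le_mul_of_nonneg_right hν1 ht0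
  have p9 : ν * t ≤ m 0 / g2 * t := mul_le_mul_of_nonneg_right hm0a ht0
  have p10 : m 0 / g2 * t ≤ 102 / 98 * ν * t := mul_le_mul_of_nonneg_right hm0b ht0
  have p11 : ν * (499 / 1000 * (D - Cb)) ≤ ν * t := mul_le_mul_of_nonneg_left ht2 hνpos.le
  have p12 : ν * t ≤ ν * (5006 / 10000 * (D + Cb)) := mul_le_mul_of_nonneg_left ht1 hνpos.le
  have p13 : ν * Cb ≤ 1 / 800 * Cb := mul_le_mul_of_nonneg_right hν1 (by linarith)
  have p13' : 0 ≤ ν * Cb := by positivity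
  have p14 : ν * D ≤ ν * (X 0 + 2 * L) := mul_le_mul_of_nonneg_left hDX' hνpos.le
  have p15 : ν * L ≤ 1 / 800 * L := mul_le_mul_of_nonneg_right hν1 hL0
  have p16 : ν * X 0 ≤ ν * D := mul_le_mul_of_nonneg_left hDX hνpos.le
  have hX00 : 0 ≤ X 0 := by linarith
  have p17 : 0 ≤ ν * X 0 := by positivity
  have hV1 : -(702 / 100) ≤ V ∧ V ≤ -(498 / 100) := by constructor <;> linarith
  have hW1 : 97 / 98 * ν ≤ W ∧ W ≤ 4 / 1000 := by constructor <;> linarith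
  have hKν2 : 2 / K0 * X 0 = 200 / 98 * (ν * X 0) := by rw [hν]; field_simp; ring
  have hKν10 : 10 / K0 * X 0 = 1000 / 98 * (ν * X 0) := by rw [hν]; field_simp; ring
  have hg'pos : 0 < -V * g2 := mul_pos (by linarith) hg0
  have r1 : g2 * V ≤ g2 * (-(498 / 100)) := mul_le_mul_of_nonneg_left hV1.2 hg0.le
  have r2 : g2 * (-(702 / 100)) ≤ g2 * V := mul_le_mul_of_nonneg_left hV1.1 hg0.le
  have r3 : g2 * U ≤ g2 * (1 + θ) := mul_le_mul_of_nonneg_left huK2 hg0.le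
  have r4 : g2 * (1 - θ) ≤ g2 * U := mul_le_mul_of_nonneg_left huK hg0.le
  have r5 : g2 * θ ≤ g2 * (1 / 10000) := mul_le_mul_of_nonneg_left hθ1 hg0.le
  have r6 : g2 * W ≤ g2 * (4 / 1000) := mul_le_mul_of_nonneg_left hW1.2 hg0.le
  have r7 : g2 * (97 / 98 * ν) ≤ g2 * W := mul_le_mul_of_nonneg_left hW1.1 hg0.le
  have hlogV : Real.log (-V * g2) = Real.log (-V) + ℓ := by
    rw [Real.log_mul (by linarith) hgne, hℓ]
  have hlogV0 : 0 ≤ Real.log (-V) := Real.log_nonneg (by linarith)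
  have hlogV1 : Real.log (-V) ≤ 7 := by
    have := Real.log_le_sub_one_of_pos (show 0 < -V by linarith)
    linarith
  have hKr : (K : ℝ) * h ≤ K * (h * g2) := by
    apply mul_le_mul_of_nonneg_left _ (Nat.cast_nonneg _)
    have := mul_le_mul_of_nonneg_left (show 1 ≤ g2 by linarith) hh.le
    linarith
  have hGle : ∀ j < K, G j ≤ δ := by
    intro j hj
    have := (hGS j hj).1
    exact (div_le_div_iff_of_pos_right hg0).mp this
  have hGb : ∀ j ≤ K, G 0 ≤ G j ∧ G j ≤ G 0 + 2 * K0 * Cb := by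
    intro j hj
    have h1 := co.Gb j hj
    beta_reduce at h1
    obtain ⟨h2, h3⟩ := h1
    have h4 : G 0 ≤ G j := (div_le_div_iff_of_pos_right hg0).mp h2
    have h5 : G j ≤ G 0 + Cb * g2 := by
      rw [div_le_iff₀ hg0, add_mul, div_mul_cancel₀ _ hgne] at h3
      exact h3
    have h6 : Cb * g2 ≤ Cb * (2 * K0) := mul_le_mul_of_nonneg_left hg2 (by linarith)
    exact ⟨h4, by linarith⟩
  -- telescoping
  have hsrc : ∀ k, 0 ≤ src X Y S m k := by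
    intro k; unfold src
    have := ES_nonneg (S k)
    positivity
  have htel : ∀ j ≤ K, u j - u 0 ≤ (B1 + B2 + B3 + 1) / c0 * (G j - G 0) := by
    intro j
    induction j with
    | zero => intro _; simp
    | succ j ih =>
      intro hj
      have h1 := ih (by omega)
      have hGj := hGle j (by omega)
      have h2 := hRS.hu j hGj
      have h3 := leg3_step B1 B2 B3 (c.Axx (etaS (S j))) (c.Axy (etaS (S j)))
        (c.kx (etaS (S j))) ε h (Real.exp (-X j)) (Real.exp (-Y j)) (m j ^ 2 * ES (S j))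
        (u (j + 1) - u j) hh (Real.exp_pos _).le (Real.exp_pos _).le
        (mul_nonneg (sq_nonneg _) (ES_nonneg _)) (by linarith)
        (hb1 _ (etaS_mem _)) (hb2 _ (etaS_mem _)) (hb3 _ (etaS_mem _)) hB1 hB2 hB3 h2
      have h4 := hRS.hG0 j hGj
      have h5 : h * (Real.exp (-X j) + Real.exp (-Y j) + m j ^ 2 * ES (S j)) ≤
          1 / c0 * (G (j + 1) - G j) := by
        rw [one_div, inv_mul_eq_div, le_div_iff₀ hc0]
        unfold src at h4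
        linarith
      have h6 := mul_le_mul_of_nonneg_left h5 (show 0 ≤ B1 + B2 + B3 + 1 by linarith)
      have h7 : (B1 + B2 + B3 + 1) * (1 / c0 * (G (j + 1) - G j)) =
          (B1 + B2 + B3 + 1) / c0 * (G (j + 1) - G j) := by ring
      rw [h7] at h6
      have h8 : (B1 + B2 + B3 + 1) / c0 * (G (j + 1) - G 0) =
          (B1 + B2 + B3 + 1) / c0 * (G j - G 0)
            + (B1 + B2 + B3 + 1) / c0 * (G (j + 1) - G j) := by ring
      rw [h8]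
      linarith
  refine ⟨K, -V * g2, by omega, by rw [hVv]; ring, by linarith, by linarith, ?_, ?_, ?_, ?_, ?_, ?_,
    ?_, ?_, ?_, ?_, ?_, ?_, ?_⟩
  · rw [hUu]; linarith
  · rw [hUu]; linarith
  · rw [hWm]
    have e : 1 / (8 * K0) * (-V * g2) = 1 / 8 * (100 / 98) * (ν * g2) * (-V) := by
      rw [hν]; field_simp
    rw [e]
    have h1 : ν * g2 * (-V) ≤ ν * g2 * (702 / 100) :=
      mul_le_mul_of_nonneg_left (by linarith) (by positivity)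
    have h2 : 0 < ν * g2 := by positivity
    linarith
  · rw [hWm]; linarith
  · rw [hlogV]
    have h1 := (abs_le.mp (co.en K le_rfl)).2
    beta_reduce at h1
    rw [← hU] at h1
    have h2 : (1 - θ) ^ 2 ≤ U ^ 2 := pow_le_pow_left₀ (by linarith) huK 2
    have h3 : (1 - θ) ^ 2 = 1 - 2 * θ + θ ^ 2 := by ring
    have h4 : A * Real.exp (-(X K + 2 * ℓ)) ≤ A * εy := by linarith
    have h5 : Real.exp (-(X K + 2 * ℓ)) ≤ εy := le_of_mul_le_mul_left h4 hA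
    refine le_trans (Real.exp_le_exp.mpr ?_) h5
    linarith
  · rw [hlogV]; linarith
  · rw [hKν2]; linarith
  · rw [hKν10]; linarith
  · linarith
  · linarith
  · linarith
  · have h1 := htel K le_rfl
    rw [hu0, hUu] at h1
    have h2 : 0 ≤ G K - G 0 := by linarith [(hGb K le_rfl).1]
    have h3 : (B1 + B2 + B3 + 1) / c0 * (G K - G 0) ≤ C3 * (G K - G 0) :=
      mul_le_mul_of_nonneg_right (by linarith) h2
    linarith
  · intro j hj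
    obtain ⟨h1, h2⟩ := hGb j hj
    have hXj := (co.Xb j hj).1
    have hYj := co.Yb j hj
    beta_reduce at hXj hYj
    refine ⟨h1, by linarith, by linarith, ?_⟩
    obtain ⟨s, hs⟩ : ∃ s, s = h * g2 * ((min j kz : ℕ) : ℝ) := ⟨_, rfl⟩
    have hs0 : 0 ≤ s := by rw [hs]; positivity
    have hst : s ≤ t := by
      rw [hs, ht]
      apply mul_le_mul_of_nonneg_left _ hhg0.le
      exact_mod_cast min_le_right j kz
    have e1 : 2 * (v 0 / g2 - C2 * θ) * (h * g2) * ((min j kz : ℕ) : ℝ)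
        = 2 * (v 0 / g2 - C2 * θ) * s := by rw [hs]; ring
    rw [e1] at hYj
    have e2 : 2 * (-(302 / 300) - 1 / 1000) * s ≤ 2 * (v 0 / g2 - C2 * θ) * s :=
      mul_le_mul_of_nonneg_right (by linarith) hs0
    linarith

end Pool.Agent.Hhelper30.Forsythe
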