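import Pool.Agent.Hhelper30.Forsythe.Leg1
import Pool.Agent.Hhelper30.Forsythe.Leg3
import Pool.Agent.Hhelper30.Forsythe.Exchange

/-! The half cycle: from a canonical state at side a to a canonical state at side b. -/

set_option autoImplicit false

namespace Pool.Agent.Hhelper30.Forsythe

open Filter Topology Set Finset

/-- canonical state at side a, scale `g`, distance `D` -/
structure Can (K0 σ1 εy Cy g D : ℝ) (X Y S u v m : ℕ → ℝ) (k : ℕ) : Prop where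
  hg : 0 < g
  hD : 0 ≤ D
  hu : u k = -g
  hX : X k + 2 * Real.log g = D
  hv1 : 1 / 8 * g ≤ v k
  hv2 : v k ≤ 1 / 4 * g
  hm1 : -(1 / 1000 * g) ≤ m k
  hm2 : m k ≤ -(1 / (8 * K0) * g)
  hY1 : Real.exp (-(Y k + 2 * Real.log g)) ≤ εy
  hY2 : Y k + 2 * Real.log g ≤ Cy
  hS1 : -(1 / 1000 * D) ≤ S k
  hS2 : S k ≤ -(σ1 * D)

theorem half_arith1 (K0 D C1 Cx s X1 Y1 u1 v1 m1 X2 Y2 u2 v2 m2 : ℝ) (hK0 : 800 ≤ K0)
    (hD : 0 ≤ D) (hCx : 0 ≤ Cx)
    (hu1 : |u1 - 1| ≤ 1 / 500) (hv1 : -(9 / 10) ≤ v1) (hv1' : v1 ≤ 3 / 10)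
    (hm1 : 38 / 100 ≤ m1) (hm1' : m1 ≤ 102 / 100) (hX1 : 0 ≤ X1) (hX1' : X1 ≤ C1)
    (hs0 : 0 ≤ s) (hs : s ≤ 72 / 10000 * D) (hY1 : 12 / 100 * D ≤ Y1) (hY1' : Y1 ≤ 27 / 100 * D)
    (hm2 : |m2 - m1| ≤ 1 / 1000) (hu2 : |u2 - (u1 - K0 * m1)| ≤ 1 / 1000)
    (hv2 : |v2 - (v1 - K0 * m1)| ≤ 1 / 1000)
    (hX2 : |X2 - X1 - u1 * s / (6 * m1)| ≤ 1 / 1000 * s + Cx)
    (hY2 : |Y2 - Y1 - v1 * s / (6 * m1)| ≤ 1 / 1000 * s + Cx) :
    300 ≤ -u2 ∧ -u2 ≤ 2 * K0 ∧ -2 ≤ v2 + -u2 ∧ v2 + -u2 ≤ 0 ∧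
    98 / 100 * (-u2) ≤ K0 * m2 ∧ K0 * m2 ≤ 102 / 100 * (-u2) ∧
    162 / 1000 * s - Cx ≤ X2 ∧ X2 ≤ C1 + Cx + 32 / 10000 * D ∧
    117 / 1000 * D - Cx ≤ Y2 ∧ Y2 ≤ 273 / 1000 * D + Cx := by
  rw [abs_le] at hu1 hm2 hu2 hv2 hX2 hY2
  have hK0p : 0 ≤ K0 := by linarith
  have p1 : 38 / 100 * K0 ≤ K0 * m1 := by
    have := mul_le_mul_of_nonneg_left hm1 hK0p; linarith
  have p2 : K0 * m1 ≤ 102 / 100 * K0 := by
    have := mul_le_mul_of_nonneg_left hm1' hK0p; linarith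
  have p3 : K0 * (m2 - m1) ≤ K0 * (1 / 1000) := mul_le_mul_of_nonneg_left hm2.2 hK0p
  have p4 : K0 * (-(1 / 1000)) ≤ K0 * (m2 - m1) := mul_le_mul_of_nonneg_left hm2.1 hK0p
  obtain ⟨q, hq⟩ : ∃ q, q = s / (6 * m1) := ⟨_, rfl⟩
  have hm1p : 0 < 6 * m1 := by linarith
  have hq0 : 0 ≤ q := by rw [hq]; exact div_nonneg hs0 hm1p.le
  have hqs : q * (6 * m1) = s := by rw [hq]; field_simp
  have q1 : q * (228 / 100) ≤ s := by
    have := mul_le_mul_of_nonneg_left (show 228 / 100 ≤ 6 * m1 by linarith) hq0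
    linarith
  have q2 : s ≤ q * (612 / 100) := by
    have := mul_le_mul_of_nonneg_left (show 6 * m1 ≤ 612 / 100 by linarith) hq0
    linarith
  have e1 : u1 * s / (6 * m1) = u1 * q := by rw [hq]; ring
  have e2 : v1 * s / (6 * m1) = v1 * q := by rw [hq]; ring
  rw [e1] at hX2
  rw [e2] at hY2
  have q3 : u1 * q ≤ 1002 / 1000 * q := mul_le_mul_of_nonneg_right (by linarith) hq0
  have q4 : 998 / 1000 * q ≤ u1 * q := mul_le_mul_of_nonneg_right (by linarith) hq0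
  have q5 : v1 * q ≤ 3 / 10 * q := mul_le_mul_of_nonneg_right (by linarith) hq0
  have q6 : -(9 / 10) * q ≤ v1 * q := mul_le_mul_of_nonneg_right (by linarith) hq0
  refine ⟨?_, ?_, ?_, ?_, ?_, ?_, ?_, ?_, ?_, ?_⟩
  · linarith
  · linarith
  · linarith
  · linarith
  · linarith
  · linarith
  · linarith
  · linarith
  · linarith
  · linarith

theorem CH_fin (D z c CH : ℝ) (hD : 0 ≤ D) (h : D ≤ 10 * z + c) (hc : c ≤ 10 * CH)
    (hCH : 10 ≤ CH) : D ≤ CH * (z + CH) := by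
  have h1 : D ≤ 10 * (z + CH) := by linarith
  have h2 : 0 ≤ z + CH := by linarith
  have h3 : 10 * (z + CH) ≤ CH * (z + CH) := mul_le_mul_of_nonneg_right hCH h2
  linarith

theorem half_cycle (c : Coef) (hc : GoodCoef c) (C c0 : ℝ) (hC : 0 < C) (hc0 : 0 < c0) (K0 : ℝ)
    (hK0 : K0 = Kc c) :
    ∃ σ1 > 0, σ1 ≤ 1 / 1000 ∧ ∃ εy > 0, ∃ Cy : ℝ, 0 ≤ Cy ∧ -Real.log εy ≤ Cy ∧
    ∃ CH : ℝ, 1 ≤ CH ∧ ∃ D0 : ℝ, 1 ≤ D0 ∧ ∃ ε1 > 0,
    ∀ (ε h δ : ℝ), 0 ≤ ε → ε ≤ ε1 → 0 < h → h ≤ ε1 →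
    ∀ (X Y S u v m G : ℕ → ℝ), RS c C c0 ε h δ X Y S u v m G → ∀ D : ℝ, D0 ≤ D →
    Can K0 σ1 εy Cy 1 D X Y S u v m 0 → G 0 + CH ≤ δ →
    ∃ (K : ℕ) (g' D' : ℝ), 0 < K ∧
      Can K0 σ1 εy Cy g' D' Y X (fun k => -S k) v u (fun k => -m k) K ∧
      2 ≤ g' ∧ g' ≤ CH ∧ 2 * D' ≤ D ∧ D ≤ CH * D' ∧ h * K ≤ CH * D ∧ g' ≤ CH * (G K - G 0) ∧
      ∀ j ≤ K, G 0 ≤ G j ∧ G j ≤ G 0 + CH ∧ D ≤ CH * (X j + Y j + CH) := by
  have hK08 : 800 ≤ K0 := by rw [hK0]; exact hc.K_lo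
  have hK0p : 0 < K0 := by linarith
  obtain ⟨εy, hεy, H1⟩ := leg1 c hc C c0 hC hc0 K0 hK08
  obtain ⟨M3, hM3, H3⟩ := leg3 c hc C c0 hC hc0 K0 hK08 εy hεy
  obtain ⟨M0, hM0, H2⟩ := exchange c hc C c0 hC hc0 (1 / 1000) (by norm_num)
  obtain ⟨M, hMM3, hMM0⟩ : ∃ M, M3 ≤ M ∧ M0 ≤ M := ⟨max M3 M0, le_max_left _ _, le_max_right _ _⟩
  obtain ⟨ε3, hε3, C3, hC3, H3⟩ := H3 M hMM3
  obtain ⟨εx, hεx, Cx, hCx, H2⟩ := H2 M hMM0
  obtain ⟨Cy, hCy⟩ : ∃ Cy, Cy = C3 + |Real.log εy| := ⟨_, rfl⟩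
  have hCy0 : 0 ≤ Cy := by rw [hCy]; positivity
  have hCyC3 : C3 ≤ Cy := by rw [hCy]; have := abs_nonneg (Real.log εy); linarith
  obtain ⟨ω, hω, hω1, hωx⟩ : ∃ ω > 0, ω ≤ 1 ∧ ω ≤ εx :=
    ⟨min 1 εx, by positivity, min_le_left _ _, min_le_right _ _⟩
  obtain ⟨σ1, hσ1⟩ : ∃ σ, σ = 1 / (10 * K0 ^ 2) := ⟨_, rfl⟩
  have hσ1p : 0 < σ1 := by rw [hσ1]; positivity
  have hσ1le : σ1 ≤ 1 / 1000 := by
    rw [hσ1]; apply one_div_le_one_div_of_le (by norm_num)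
    nlinarith
  obtain ⟨ε1, hε1, C1, hC1, H1⟩ := H1 Cy ω σ1 hCy0 hω hσ1p
  obtain ⟨L, hL⟩ : ∃ L, L = 2 * Real.log (15 * K0) := ⟨_, rfl⟩
  have hL0 : 0 ≤ L := by
    rw [hL]; have : 0 ≤ Real.log (15 * K0) := Real.log_nonneg (by linarith); linarith
  obtain ⟨CT, hCT⟩ : ∃ CT, CT = C1 + Cx + C3 + L := ⟨_, rfl⟩
  have hCT1 : 1 ≤ CT := by linarith
  refine ⟨σ1, hσ1p, hσ1le, εy, hεy, Cy, hCy0, ?_, 15 * K0 + 10 * CT + 8 * C3, by linarith,
    1000 * K0 * K0 * CT, ?_, min ε1 (min εx ε3), by positivity, ?_⟩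
  · rw [hCy]; have := neg_le_abs (Real.log εy); linarith
  · have h1 : 1 * 1 ≤ K0 * K0 := mul_le_mul (by linarith) (by linarith) (by norm_num) (by linarith)
    have h2 : 1 * 1 ≤ (K0 * K0) * CT := mul_le_mul (by linarith) hCT1 (by norm_num) (by linarith)
    linarith
  intro ε h δ hε hεε hh hhε X Y S u v m G hRS D hD hcan hG
  have he1 : min ε1 (min εx ε3) ≤ ε1 := min_le_left _ _
  have he2 : min ε1 (min εx ε3) ≤ εx := (min_le_right _ _).trans (min_le_left _ _)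
  have he3 : min ε1 (min εx ε3) ≤ ε3 := (min_le_right _ _).trans (min_le_right _ _)
  -- consequences of the size of D
  have hKK : 640000 ≤ K0 * K0 := by
    have := mul_le_mul hK08 hK08 (by norm_num) (by linarith : (0:ℝ) ≤ K0)
    linarith
  have hDCT : 640000000 * CT ≤ D := by
    have := mul_le_mul_of_nonneg_right hKK (by linarith : 0 ≤ CT)
    linarith
  have hDpos : 0 < D := by linarith
  have hDK : 1000 * CT ≤ D / (K0 * K0) := by
    rw [le_div_iff₀ (by positivity)]; linarith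
  -- leg 1
  obtain ⟨K1, hK1, a1, a2, a3, a4, a5, a6, a7, a8, a9, a10, a11, a12, a13⟩ :=
    H1 ε h δ hε (hεε.trans he1) hh (hhε.trans he1) X Y S u v m G hRS D (by linarith)
      hcan.hu (by have := hcan.hX; simpa using this) (by have := hcan.hv1; linarith)
      (by have := hcan.hv2; linarith) (by have := hcan.hm1; linarith)
      (by have := hcan.hm2; linarith) (by have := hcan.hY1; simpa using this)
      (by have := hcan.hY2; simpa using this) hcan.hS1 hcan.hS2 (by linarith)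
  have hGK1 := a13 K1 le_rfl
  have hX1nn : 0 ≤ X K1 := by
    have h1 : Real.exp (-X K1) ≤ 1 := a6.trans hω1
    have := Real.exp_le_one_iff.mp h1
    linarith
  have hSlo : 0 ≤ 1 / (4 * K0) * D := by positivity
  obtain ⟨s, hs⟩ : ∃ s, s = -S K1 := ⟨_, rfl⟩
  have hs0 : 0 ≤ s := by linarith
  have habs : |S K1| = s := by rw [hs, abs_of_nonpos (by linarith)]
  have hsK : 250 * CT ≤ s := by
    have h1 : 1 / (4 * K0) * D = (K0 / 4) * (D / (K0 * K0)) := by field_simp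
    have h2 : 200 * (1000 * CT) ≤ (K0 / 4) * (D / (K0 * K0)) :=
      mul_le_mul (by linarith) hDK (by linarith) (by linarith)
    linarith
  -- exchange
  obtain ⟨K2, b1, b2, b3, b4, b5, b6, b7, b8, b9⟩ :=
    H2 ε h δ hε (hεε.trans he2) hh (hhε.trans he2) _ _ _ _ _ _ _ (hRS.shift K1)
      (by show 1 / 2 ≤ u (K1 + 0); rw [add_zero]; rw [abs_le] at a1; linarith)
      (by show u (K1 + 0) ≤ 2; rw [add_zero]; rw [abs_le] at a1; linarith)
      (by show |v (K1 + 0)| ≤ 2; rw [add_zero, abs_le]; constructor <;> linarith)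
      (by show 3 / 10 ≤ m (K1 + 0); rw [add_zero]; linarith)
      (by show m (K1 + 0) ≤ 11 / 10; rw [add_zero]; linarith)
      (by show Real.exp (-X (K1 + 0)) ≤ εx; rw [add_zero]; linarith)
      (by show S (K1 + 0) ≤ -Cx; rw [add_zero]; linarith)
      (by show 2 * |S (K1 + 0)| + Cx ≤ Y (K1 + 0); rw [add_zero, habs]; linarith)
      (by show G (K1 + 0) + Cx ≤ δ; rw [add_zero]; linarith)
  simp only [add_zero, habs] at b3 b4 b5 b6 b7 b8 b9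
  rw [← hK0] at b6 b7
  obtain ⟨c1, c2, c3, c4, c5, c6, c7, c8, c9, c10⟩ := half_arith1 K0 D C1 Cx s (X K1) (Y K1)
    (u K1) (v K1) (m K1) (X (K1 + K2)) (Y (K1 + K2)) (u (K1 + K2)) (v (K1 + K2)) (m (K1 + K2))
    hK08 hDpos.le (by linarith) a1 a2 a3 a4 a5 hX1nn a7 hs0 (by linarith) a10 a11 b5 b6 b7 b8 b9
  have hGK2 := b4 K2 le_rfl
  -- leg 3
  obtain ⟨K3, g', d1, d2, d3, d4, d5, d6, d7, d8, d9, d10, d11, d12, d13, d14, d15, d16, d17⟩ :=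
    H3 ε h δ hε (hεε.trans he3) hh (hhε.trans he3) _ _ _ _ _ _ _ (hRS.shift (K1 + K2))
      (-u (K1 + K2)) (by show u (K1 + K2 + 0) = _; rw [add_zero]; ring) c1 c2
      (by show -2 ≤ v (K1 + K2 + 0) + -u (K1 + K2); rw [add_zero]; exact c3)
      (by show v (K1 + K2 + 0) + -u (K1 + K2) ≤ 0; rw [add_zero]; exact c4)
      (by show _ ≤ K0 * m (K1 + K2 + 0); rw [add_zero]; exact c5)
      (by show K0 * m (K1 + K2 + 0) ≤ _; rw [add_zero]; exact c6)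
      (by show M ≤ S (K1 + K2 + 0); rw [add_zero]; exact b1)
      (by show S (K1 + K2 + 0) ≤ M + 1; rw [add_zero]; exact b2)
      (by show C3 ≤ X (K1 + K2 + 0); rw [add_zero]; linarith)
      (by show 7 * X (K1 + K2 + 0) + C3 ≤ Y (K1 + K2 + 0); rw [add_zero]; linarith)
      (by show G (K1 + K2 + 0) + C3 ≤ δ; rw [add_zero]; linarith [hGK2.2.1])
  simp only [add_zero] at d11 d12 d13 d14 d15 d16 d17
  have hg'1 : 1 ≤ g' := by linarith
  have hlogg : 0 ≤ Real.log g' := Real.log_nonneg hg'1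
  have hloggL : 2 * Real.log g' ≤ L := by
    rw [hL]
    have : Real.log g' ≤ Real.log (15 * K0) := Real.log_le_log (by linarith) (by linarith)
    linarith
  obtain ⟨D', hD'⟩ : ∃ D', D' = Y (K1 + K2 + K3) + 2 * Real.log g' := ⟨_, rfl⟩
  have hD'lo : 11 / 100 * D ≤ D' := by rw [hD']; linarith
  have hD'hi : D' ≤ 28 / 100 * D := by rw [hD']; linarith
  -- S at the end
  have hX2lo : 4 / 100 * (D / K0) ≤ X (K1 + K2) := by
    have h1 : 1 / (4 * K0) * D = 1 / 4 * (D / K0) := by field_simp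
    have h2 : D / K0 = K0 * (D / (K0 * K0)) := by field_simp
    have h3 : 800 * (1000 * CT) ≤ K0 * (D / (K0 * K0)) :=
      mul_le_mul hK08 hDK (by linarith) (by linarith)
    rw [h1] at a8
    linarith
  have hS3lo : σ1 * D' ≤ S (K1 + K2 + K3) := by
    have h1 : 2 / K0 * (4 / 100 * (D / K0)) ≤ 2 / K0 * X (K1 + K2) :=
      mul_le_mul_of_nonneg_left hX2lo (by positivity)
    have h2 : 2 / K0 * (4 / 100 * (D / K0)) = 8 / 100 * (D / (K0 * K0)) := by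
      field_simp; ring
    have h3 : σ1 * D' ≤ σ1 * (28 / 100 * D) := mul_le_mul_of_nonneg_left hD'hi hσ1p.le
    have h4 : σ1 * (28 / 100 * D) = 28 / 1000 * (D / (K0 * K0)) := by
      rw [hσ1]; field_simp; ring
    linarith
  have hS3hi : S (K1 + K2 + K3) ≤ 1 / 1000 * D' := by
    have h1 : 10 / K0 ≤ 1 / 80 := by
      rw [div_le_div_iff₀ hK0p (by norm_num)]; linarith
    have h2 : 10 / K0 * X (K1 + K2) ≤ 1 / 80 * X (K1 + K2) :=
      mul_le_mul_of_nonneg_right h1 (by linarith)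
    linarith
  refine ⟨K1 + K2 + K3, g', D', by omega, ?_, by linarith, by linarith, by linarith, ?_, ?_, ?_, ?_⟩
  · refine ⟨by linarith, by linarith, d2, hD'.symm, d5, d6, ?_, ?_, d9, by linarith, ?_, ?_⟩
    · show -(1 / 1000 * g') ≤ -m (K1 + K2 + K3); linarith
    · show -m (K1 + K2 + K3) ≤ -(1 / (8 * K0) * g'); linarith
    · show -(1 / 1000 * D') ≤ -S (K1 + K2 + K3); linarith
    · show -S (K1 + K2 + K3) ≤ -(σ1 * D'); linarith
  · have h1 : 10 * D' ≤ (15 * K0 + 10 * CT + 8 * C3) * D' :=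
      mul_le_mul_of_nonneg_right (by linarith) (by linarith)
    linarith
  · push_cast
    have h1 : h * ((K1 : ℝ) + K2 + K3) = h * K1 + h * K2 + h * K3 := by ring
    rw [h1]
    have h2 : 10 * D ≤ (15 * K0 + 10 * CT + 8 * C3) * D :=
      mul_le_mul_of_nonneg_right (by linarith) (by linarith)
    linarith
  · have h0 : 0 ≤ G (K1 + K2 + K3) - G 0 := by
      have := (d17 K3 le_rfl).1; have := hGK2.1; linarith [hGK1.1]
    have h1 : C3 * (G (K1 + K2 + K3) - G (K1 + K2)) ≤ C3 * (G (K1 + K2 + K3) - G 0) := by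
      apply mul_le_mul_of_nonneg_left _ (by linarith)
      have := hGK2.1; linarith [hGK1.1]
    have h2 : 8 * C3 * (G (K1 + K2 + K3) - G 0) ≤
        (15 * K0 + 10 * CT + 8 * C3) * (G (K1 + K2 + K3) - G 0) :=
      mul_le_mul_of_nonneg_right (by linarith) h0
    linarith
  · intro j hj
    rcases le_or_gt j K1 with hj1 | hj1
    · obtain ⟨e1, e2, e3⟩ := a13 j hj1
      exact ⟨e1, by linarith, CH_fin D (X j + Y j) C1 _ hDpos.le e3 (by linarith) (by linarith)⟩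
    rcases le_or_gt j (K1 + K2) with hj2 | hj2
    · obtain ⟨i, rfl⟩ := Nat.exists_eq_add_of_le hj1.le
      obtain ⟨e1, e2, e3, e4, e5, e6, e7, e8⟩ := b4 i (by omega)
      exact ⟨by linarith [hGK1.1], by linarith [hGK1.2.1],
        CH_fin D (X (K1 + i) + Y (K1 + i)) (20 * CT) _ hDpos.le (by linarith) (by linarith)
          (by linarith)⟩
    · obtain ⟨i, rfl⟩ := Nat.exists_eq_add_of_le hj2.le
      obtain ⟨e1, e2, e3, e4⟩ := d17 i (by omega)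
      exact ⟨by linarith [hGK1.1, hGK2.1], by linarith [hGK1.2.1, hGK2.2.1],
        CH_fin D (X (K1 + K2 + i) + Y (K1 + K2 + i)) (50 * CT) _ hDpos.le (by linarith)
          (by linarith) (by linarith)⟩

end Pool.Agent.Hhelper30.Forsythe
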