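import Pool.Agent.Hhelper30.Forsythe.Exist

/-! Initial data of the growth orbits. -/

set_option autoImplicit false

namespace Pool.Agent.Hhelper30.Forsythe

open Filter Topology Set

/-- initial roots at time `0`; `g` velocity scale, `l` log-distance of `x` -/
noncomputable def ih0 (σ0 Yc g l : ℝ) : Fin 3 → ℝ :=
  ![-6 - g ^ 2 * Real.exp (-l), etaS (-(σ0 * l)), 6 - g ^ 2 * Real.exp (-Yc)]

/-- initial roots at time `1` -/
noncomputable def ih1 (β0 ν0 σ0 Yc g l : ℝ) : Fin 3 → ℝ :=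
  ![-6 + g ^ 2 * Real.exp (-l) * Real.exp g,
    etaS (-(σ0 * l)) - ν0 * g * (9 - etaS (-(σ0 * l)) ^ 2),
    6 + g ^ 2 * Real.exp (-Yc) * Real.exp (-(β0 * g))]

theorem etaS_lt (S : ℝ) : -3 < etaS S ∧ etaS S < 3 := by
  unfold etaS
  have h := Real.exp_pos S
  constructor
  · rw [lt_div_iff₀ (by positivity)]; linarith
  · rw [div_lt_iff₀ (by positivity)]; linarith

theorem etaS_continuous : Continuous etaS := by
  unfold etaS
  refine Continuous.div (by fun_prop) (by fun_prop) ?_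
  intro x
  have h := Real.exp_pos x
  positivity

theorem log_etaS (S : ℝ) : Real.log ((etaS S + 3) / (3 - etaS S)) = S := by
  have h := Real.exp_pos S
  have h1 : etaS S + 3 = 6 * Real.exp S / (Real.exp S + 1) := by
    unfold etaS; field_simp; ring
  have h2 : 3 - etaS S = 6 / (Real.exp S + 1) := by
    unfold etaS; field_simp; ring
  rw [h1, h2]
  have h3 : 6 * Real.exp S / (Real.exp S + 1) / (6 / (Real.exp S + 1)) = Real.exp S := by
    field_simp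
  rw [h3, Real.log_exp]

/-- how small `g` must be: all consequences used below -/
structure SmallG (β0 ν0 Yc τ g : ℝ) : Prop where
  g0 : 0 < g
  g1 : g ≤ 1 / 2
  ge : |Real.exp (-g) - 1| ≤ τ
  gb : |Real.exp (β0 * g) - 1| ≤ τ
  gx : 8 * g ^ 2 ≤ τ
  gy : 4 * (g ^ 2 * Real.exp (-Yc)) ≤ τ
  gy1 : g ^ 2 * Real.exp (-Yc) ≤ 1 / 2
  gn : 12 * (ν0 * g) ≤ τ
  gn1 : 12 * (ν0 * g) ≤ 1

theorem exists_small (β0 ν0 Yc τ : ℝ) (hτ : 0 < τ) :
    ∃ g1 > 0, ∀ g, 0 < g → g ≤ g1 → SmallG β0 ν0 Yc τ g := by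
  have key : ∀ᶠ g : ℝ in 𝓝 0, g ≤ 1 / 2 ∧ |Real.exp (-g) - 1| ≤ τ ∧ |Real.exp (β0 * g) - 1| ≤ τ ∧
      8 * g ^ 2 ≤ τ ∧ 4 * (g ^ 2 * Real.exp (-Yc)) ≤ τ ∧ g ^ 2 * Real.exp (-Yc) ≤ 1 / 2 ∧
      12 * (ν0 * g) ≤ τ ∧ 12 * (ν0 * g) ≤ 1 := by
    have e1 : ∀ᶠ g : ℝ in 𝓝 0, g < 1 / 2 :=
      (continuous_id.tendsto (0 : ℝ)).eventually_lt_const (by norm_num)
    have e2 : ∀ᶠ g : ℝ in 𝓝 0, |Real.exp (-g) - 1| < τ := by
      have h : Continuous (fun g : ℝ => |Real.exp (-g) - 1|) := by fun_prop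
      exact (h.tendsto 0).eventually_lt_const (by simpa using hτ)
    have e3 : ∀ᶠ g : ℝ in 𝓝 0, |Real.exp (β0 * g) - 1| < τ := by
      have h : Continuous (fun g : ℝ => |Real.exp (β0 * g) - 1|) := by fun_prop
      exact (h.tendsto 0).eventually_lt_const (by simpa using hτ)
    have e4 : ∀ᶠ g : ℝ in 𝓝 0, 8 * g ^ 2 < τ := by
      have h : Continuous (fun g : ℝ => 8 * g ^ 2) := by fun_prop
      exact (h.tendsto 0).eventually_lt_const (by simpa using hτ)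
    have e5 : ∀ᶠ g : ℝ in 𝓝 0, 4 * (g ^ 2 * Real.exp (-Yc)) < τ := by
      have h : Continuous (fun g : ℝ => 4 * (g ^ 2 * Real.exp (-Yc))) := by fun_prop
      exact (h.tendsto 0).eventually_lt_const (by simpa using hτ)
    have e6 : ∀ᶠ g : ℝ in 𝓝 0, g ^ 2 * Real.exp (-Yc) < 1 / 2 := by
      have h : Continuous (fun g : ℝ => g ^ 2 * Real.exp (-Yc)) := by fun_prop
      exact (h.tendsto 0).eventually_lt_const (by norm_num)
    have e7 : ∀ᶠ g : ℝ in 𝓝 0, 12 * (ν0 * g) < τ := by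
      have h : Continuous (fun g : ℝ => 12 * (ν0 * g)) := by fun_prop
      exact (h.tendsto 0).eventually_lt_const (by simpa using hτ)
    have e8 : ∀ᶠ g : ℝ in 𝓝 0, 12 * (ν0 * g) < 1 := by
      have h : Continuous (fun g : ℝ => 12 * (ν0 * g)) := by fun_prop
      exact (h.tendsto 0).eventually_lt_const (by norm_num)
    filter_upwards [e1, e2, e3, e4, e5, e6, e7, e8] with g h1 h2 h3 h4 h5 h6 h7 h8
    exact ⟨h1.le, h2.le, h3.le, h4.le, h5.le, h6.le, h7.le, h8.le⟩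
  obtain ⟨d, hd, hd'⟩ := Metric.eventually_nhds_iff.mp key
  refine ⟨d / 2, by positivity, fun g hg hgd => ?_⟩
  obtain ⟨h1, h2, h3, h4, h5, h6, h7, h8⟩ := hd' (y := g)
    (by rw [Real.dist_eq, sub_zero, abs_of_pos hg]; linarith)
  exact ⟨hg, h1, h2, h3, h4, h5, h6, h7, h8⟩

variable {β0 ν0 σ0 Yc τ g l : ℝ}

/-- position shift of `x` is tiny -/
theorem SmallG.xs (h : SmallG β0 ν0 Yc τ g) (hl : 1 ≤ l) :
    0 < g ^ 2 * Real.exp (-l) ∧ g ^ 2 * Real.exp (-l) ≤ 1 / 8 ∧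
    g ^ 2 * Real.exp (-l) * Real.exp g ≤ 1 / 2 ∧
    2 * (g ^ 2 * Real.exp (-l) + g ^ 2 * Real.exp (-l) * Real.exp g) ≤ τ := by
  have hg := h.g0
  have hg1 := h.g1
  have h1 : Real.exp (-l) ≤ 1 / 2 := by
    have h2 : Real.exp (-l) ≤ Real.exp (-1) := Real.exp_le_exp.mpr (by linarith)
    have h3 : Real.exp (-1) < 0.3678794412 := Real.exp_neg_one_lt_d9
    linarith
  have h0 : 0 < Real.exp (-l) := Real.exp_pos _
  have hgg : g ^ 2 ≤ 1 / 4 := by nlinarith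
  have hgp : 0 < g ^ 2 := by positivity
  have he : Real.exp g ≤ 3 := by
    have h2 : Real.exp g ≤ Real.exp 1 := Real.exp_le_exp.mpr (by linarith)
    have h3 : Real.exp 1 < 2.7182818286 := Real.exp_one_lt_d9
    linarith
  have he0 := Real.exp_pos g
  have hA : g ^ 2 * Real.exp (-l) ≤ g ^ 2 * (1 / 2) := mul_le_mul_of_nonneg_left h1 hgp.le
  have hB : g ^ 2 * Real.exp (-l) * Real.exp g ≤ g ^ 2 * (1 / 2) * 3 :=
    mul_le_mul hA he he0.le (by positivity)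
  have hgx := h.gx
  refine ⟨by positivity, by linarith, by linarith, by linarith⟩

theorem SmallG.evenH (h : SmallG β0 ν0 Yc τ g) (hl : 1 ≤ l) : EvenH (ih0 σ0 Yc g l) := by
  obtain ⟨h1, h2, h3, h4⟩ := h.xs hl
  have he := etaS_lt (-(σ0 * l))
  have hg := h.g0
  have hy0 : 0 < g ^ 2 * Real.exp (-Yc) := by positivity
  have hy1 := h.gy1
  refine ⟨⟨?_, ?_⟩, ⟨?_, ?_⟩, ⟨?_, ?_⟩⟩
  · show -10 < -6 - g ^ 2 * Real.exp (-l); linarith
  · show -6 - g ^ 2 * Real.exp (-l) < -6; linarith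
  · exact he.1
  · exact he.2
  · show 5 < 6 - g ^ 2 * Real.exp (-Yc); linarith
  · show 6 - g ^ 2 * Real.exp (-Yc) < 6; linarith

theorem SmallG.ys (h : SmallG β0 ν0 Yc τ g) (hβ : 0 < β0) :
    0 < g ^ 2 * Real.exp (-Yc) ∧ 0 < g ^ 2 * Real.exp (-Yc) * Real.exp (-(β0 * g)) ∧
    g ^ 2 * Real.exp (-Yc) * Real.exp (-(β0 * g)) ≤ g ^ 2 * Real.exp (-Yc) := by
  have hg := h.g0
  have hy0 : 0 < g ^ 2 * Real.exp (-Yc) := by positivity
  have h1 : Real.exp (-(β0 * g)) ≤ 1 := Real.exp_le_one_iff.mpr (by nlinarith)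
  refine ⟨hy0, by positivity, ?_⟩
  calc _ ≤ g ^ 2 * Real.exp (-Yc) * 1 := mul_le_mul_of_nonneg_left h1 hy0.le
    _ = _ := mul_one _

theorem SmallG.oddH (h : SmallG β0 ν0 Yc τ g) (hβ : 0 < β0) (hν : 0 < ν0) (hl : 1 ≤ l) :
    OddH (ih1 β0 ν0 σ0 Yc g l) := by
  obtain ⟨h1, h2, h3, h4⟩ := h.xs hl
  obtain ⟨he1, he2⟩ := etaS_lt (-(σ0 * l))
  obtain ⟨y1, y2, y3⟩ := h.ys hβ
  have hg := h.g0
  have hy1 := h.gy1
  have hn := h.gn1
  have hx : 0 < g ^ 2 * Real.exp (-l) * Real.exp g := by positivity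
  set e := etaS (-(σ0 * l)) with hedef
  have hνg : 0 < ν0 * g := by positivity
  refine ⟨⟨?_, ?_⟩, ⟨?_, ?_⟩, ⟨?_, ?_⟩⟩
  · show -6 < -6 + g ^ 2 * Real.exp (-l) * Real.exp g; linarith
  · show -6 + g ^ 2 * Real.exp (-l) * Real.exp g < -5; linarith
  · show -3 < e - ν0 * g * (9 - e ^ 2)
    have : 0 < (e + 3) * (1 - ν0 * g * (3 - e)) := by
      refine mul_pos (by linarith) ?_
      nlinarith
    nlinarith
  · show e - ν0 * g * (9 - e ^ 2) < 3
    have : 0 < ν0 * g * ((3 - e) * (3 + e)) := by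
      refine mul_pos hνg (mul_pos (by linarith) (by linarith))
    nlinarith
  · show 6 < 6 + g ^ 2 * Real.exp (-Yc) * Real.exp (-(β0 * g)); linarith
  · show 6 + g ^ 2 * Real.exp (-Yc) * Real.exp (-(β0 * g)) < 10; linarith

/-- a quotient is close to `1` when numerator and denominator are close and the denominator is not small -/
theorem ratio_near {a b τ : ℝ} (hb : 0 < |b|) (h : |a - b| ≤ τ * |b|) : |a / b - 1| ≤ τ := by
  have hb' : b ≠ 0 := abs_pos.mp hb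
  have : a / b - 1 = (a - b) / b := by field_simp
  rw [this, abs_div, div_le_iff₀ hb]
  exact h

def sx : Fin 8 → ℝ := ![1, -1, 1, 1, 1, 1, 1, 1]
def sy : Fin 8 → ℝ := ![1, 1, 1, 1, 1, 1, -1, 1]

theorem SmallG.rx (h : SmallG β0 ν0 Yc τ g) (hl : 1 ≤ l) (i : Fin 8) :
    |(nd i - ih0 σ0 Yc g l 0) / (nd i - ih1 β0 ν0 σ0 Yc g l 0) - sx i| ≤ τ := by
  obtain ⟨h1, h2, h3, h4⟩ := h.xs hl
  have hg := h.g0
  have hx : 0 < g ^ 2 * Real.exp (-l) * Real.exp g := by positivity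
  have e0 : ih0 σ0 Yc g l 0 = -6 - g ^ 2 * Real.exp (-l) := rfl
  have e1 : ih1 β0 ν0 σ0 Yc g l 0 = -6 + g ^ 2 * Real.exp (-l) * Real.exp g := rfl
  rw [e0, e1]
  have gen : ∀ z : ℝ, 1 ≤ |z + 6| →
      |(z - (-6 - g ^ 2 * Real.exp (-l))) / (z - (-6 + g ^ 2 * Real.exp (-l) * Real.exp g)) - 1| ≤ τ := by
    intro z hz
    have hb : 1 / 2 ≤ |z - (-6 + g ^ 2 * Real.exp (-l) * Real.exp g)| := by
      have : |z + 6| ≤ |z - (-6 + g ^ 2 * Real.exp (-l) * Real.exp g)|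
          + |g ^ 2 * Real.exp (-l) * Real.exp g| := by
        have := abs_add_le (z - (-6 + g ^ 2 * Real.exp (-l) * Real.exp g))
          (g ^ 2 * Real.exp (-l) * Real.exp g)
        refine le_trans (le_of_eq ?_) this
        congr 1; ring
      rw [abs_of_pos hx] at this
      linarith
    refine ratio_near (by linarith) ?_
    have e : z - (-6 - g ^ 2 * Real.exp (-l)) - (z - (-6 + g ^ 2 * Real.exp (-l) * Real.exp g))
        = g ^ 2 * Real.exp (-l) + g ^ 2 * Real.exp (-l) * Real.exp g := by ring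
    rw [e, abs_of_pos (by linarith)]
    have hτ : 0 ≤ τ := by linarith
    nlinarith
  have hexp : Real.exp g * Real.exp (-g) = 1 := by rw [← Real.exp_add]; simp
  fin_cases i
  · exact gen (-10) (by norm_num)
  · show |((-6 : ℝ) - (-6 - g ^ 2 * Real.exp (-l))) / (-6 - (-6 + g ^ 2 * Real.exp (-l) * Real.exp g)) - (-1)| ≤ τ
    have e : ((-6 : ℝ) - (-6 - g ^ 2 * Real.exp (-l))) / (-6 - (-6 + g ^ 2 * Real.exp (-l) * Real.exp g)) - (-1)
        = -(Real.exp (-g) - 1) := by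
      have hne : ((-6 : ℝ) - (-6 + g ^ 2 * Real.exp (-l) * Real.exp g)) ≠ 0 := by
        intro h0
        have : g ^ 2 * Real.exp (-l) * Real.exp g = 0 := by linarith
        exact hx.ne' this
      rw [sub_eq_iff_eq_add, div_eq_iff hne]
      have : g ^ 2 * Real.exp (-l) * Real.exp g * Real.exp (-g) = g ^ 2 * Real.exp (-l) := by
        rw [mul_assoc, hexp, mul_one]
      linear_combination (-1) * this
    rw [e, abs_neg]
    exact h.ge
  · exact gen (-5) (by norm_num)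
  · exact gen (-3) (by norm_num)
  · exact gen 3 (by norm_num)
  · exact gen 5 (by norm_num)
  · exact gen 6 (by norm_num)
  · exact gen 10 (by norm_num)

theorem SmallG.ry (h : SmallG β0 ν0 Yc τ g) (hβ : 0 < β0) (i : Fin 8) :
    |(nd i - ih0 σ0 Yc g l 2) / (nd i - ih1 β0 ν0 σ0 Yc g l 2) - sy i| ≤ τ := by
  obtain ⟨y1, y2, y3⟩ := h.ys hβ
  have hg := h.g0
  have hy1 := h.gy1
  have hy2 := h.gy
  have e0 : ih0 σ0 Yc g l 2 = 6 - g ^ 2 * Real.exp (-Yc) := rfl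
  have e1 : ih1 β0 ν0 σ0 Yc g l 2 = 6 + g ^ 2 * Real.exp (-Yc) * Real.exp (-(β0 * g)) := rfl
  rw [e0, e1]
  have gen : ∀ z : ℝ, 1 ≤ |z - 6| →
      |(z - (6 - g ^ 2 * Real.exp (-Yc))) / (z - (6 + g ^ 2 * Real.exp (-Yc) * Real.exp (-(β0 * g)))) - 1| ≤ τ := by
    intro z hz
    have hb : 1 / 2 ≤ |z - (6 + g ^ 2 * Real.exp (-Yc) * Real.exp (-(β0 * g)))| := by
      have : |z - 6| ≤ |z - (6 + g ^ 2 * Real.exp (-Yc) * Real.exp (-(β0 * g)))|
          + |g ^ 2 * Real.exp (-Yc) * Real.exp (-(β0 * g))| := by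
        have := abs_add_le (z - (6 + g ^ 2 * Real.exp (-Yc) * Real.exp (-(β0 * g))))
          (g ^ 2 * Real.exp (-Yc) * Real.exp (-(β0 * g)))
        refine le_trans (le_of_eq ?_) this
        congr 1; ring
      rw [abs_of_pos y2] at this
      linarith
    refine ratio_near (by linarith) ?_
    have e : z - (6 - g ^ 2 * Real.exp (-Yc)) - (z - (6 + g ^ 2 * Real.exp (-Yc) * Real.exp (-(β0 * g))))
        = g ^ 2 * Real.exp (-Yc) + g ^ 2 * Real.exp (-Yc) * Real.exp (-(β0 * g)) := by ring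
    rw [e, abs_of_pos (by linarith)]
    have hτ : 0 ≤ τ := by linarith
    nlinarith
  have hexp : Real.exp (-(β0 * g)) * Real.exp (β0 * g) = 1 := by rw [← Real.exp_add]; simp
  fin_cases i
  · exact gen (-10) (by norm_num)
  · exact gen (-6) (by norm_num)
  · exact gen (-5) (by norm_num)
  · exact gen (-3) (by norm_num)
  · exact gen 3 (by norm_num)
  · exact gen 5 (by norm_num)
  · show |((6 : ℝ) - (6 - g ^ 2 * Real.exp (-Yc))) / (6 - (6 + g ^ 2 * Real.exp (-Yc) * Real.exp (-(β0 * g)))) - (-1)| ≤ τ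
    have e : ((6 : ℝ) - (6 - g ^ 2 * Real.exp (-Yc))) / (6 - (6 + g ^ 2 * Real.exp (-Yc) * Real.exp (-(β0 * g)))) - (-1)
        = -(Real.exp (β0 * g) - 1) := by
      have hne : ((6 : ℝ) - (6 + g ^ 2 * Real.exp (-Yc) * Real.exp (-(β0 * g)))) ≠ 0 := by
        intro h0
        have : g ^ 2 * Real.exp (-Yc) * Real.exp (-(β0 * g)) = 0 := by linarith
        exact y2.ne' this
      rw [sub_eq_iff_eq_add, div_eq_iff hne]
      have : g ^ 2 * Real.exp (-Yc) * Real.exp (-(β0 * g)) * Real.exp (β0 * g) = g ^ 2 * Real.exp (-Yc) := by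
        rw [mul_assoc, hexp, mul_one]
      linear_combination (-1) * this
    rw [e, abs_neg]
    exact h.gb
  · exact gen 10 (by norm_num)

theorem SmallG.re (h : SmallG β0 ν0 Yc τ g) (hν : 0 < ν0) (i : Fin 8) :
    |(nd i - ih0 σ0 Yc g l 1) / (nd i - ih1 β0 ν0 σ0 Yc g l 1) - 1| ≤ τ := by
  obtain ⟨he1, he2⟩ := etaS_lt (-(σ0 * l))
  have hg := h.g0
  have hn := h.gn
  have hn1 := h.gn1
  have hνg : 0 < ν0 * g := by positivity
  have e0 : ih0 σ0 Yc g l 1 = etaS (-(σ0 * l)) := rfl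
  have e1 : ih1 β0 ν0 σ0 Yc g l 1
      = etaS (-(σ0 * l)) - ν0 * g * (9 - etaS (-(σ0 * l)) ^ 2) := rfl
  rw [e0, e1]
  set e := etaS (-(σ0 * l)) with hedef
  have hτ : 0 ≤ τ := by linarith
  -- the inequality |ν g (9 - e^2)| ≤ τ |z - h1|
  have gen : ∀ z : ℝ, 3 ≤ |z| → |(z - e) / (z - (e - ν0 * g * (9 - e ^ 2))) - 1| ≤ τ := by
    intro z hz
    have hE : 0 < 9 - e ^ 2 := by nlinarith
    have hb : (9 - e ^ 2) / 12 ≤ |z - (e - ν0 * g * (9 - e ^ 2))| := by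
      rcases le_abs.mp hz with hz' | hz'
      · rw [abs_of_pos (by nlinarith)]
        nlinarith
      · rw [abs_of_neg (by nlinarith)]
        nlinarith
    have hb0 : 0 < |z - (e - ν0 * g * (9 - e ^ 2))| := lt_of_lt_of_le (by positivity) hb
    refine ratio_near hb0 ?_
    have e' : z - e - (z - (e - ν0 * g * (9 - e ^ 2))) = -(ν0 * g * (9 - e ^ 2)) := by ring
    rw [e', abs_neg, abs_of_pos (by positivity)]
    calc ν0 * g * (9 - e ^ 2) = 12 * (ν0 * g) * ((9 - e ^ 2) / 12) := by ring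
      _ ≤ τ * ((9 - e ^ 2) / 12) := mul_le_mul_of_nonneg_right hn (by positivity)
      _ ≤ _ := mul_le_mul_of_nonneg_left hb hτ
  refine gen _ ?_
  fin_cases i
  · show (3 : ℝ) ≤ |(-10)|; norm_num
  · show (3 : ℝ) ≤ |(-6)|; norm_num
  · show (3 : ℝ) ≤ |(-5)|; norm_num
  · show (3 : ℝ) ≤ |(-3)|; norm_num
  · show (3 : ℝ) ≤ |(3)|; norm_num
  · show (3 : ℝ) ≤ |(5)|; norm_num
  · show (3 : ℝ) ≤ |(6)|; norm_num
  · show (3 : ℝ) ≤ |(10)|; norm_num

theorem sgnd_eq (i : Fin 8) : sgnd i = sx i * sy i := by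
  fin_cases i <;> simp [sgnd, sx, sy]

theorem sx_abs (i : Fin 8) : |sx i| = 1 := by
  fin_cases i <;> simp [sx]

theorem sy_abs (i : Fin 8) : |sy i| = 1 := by
  fin_cases i <;> simp [sy]

theorem SmallG.ratio (h : SmallG β0 ν0 Yc τ g) (hτ1 : τ ≤ 1) (hβ : 0 < β0) (hν : 0 < ν0) (hl : 1 ≤ l) (i : Fin 8) :
    |C3 (ih0 σ0 Yc g l) (nd i) / C3 (ih1 β0 ν0 σ0 Yc g l) (nd i) - sgnd i| ≤ 7 * τ := by
  have hx := h.rx (σ0 := σ0) hl i
  have hy := h.ry (σ0 := σ0) (l := l) hβ i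
  have he := h.re (σ0 := σ0) (l := l) hν i
  have e : C3 (ih0 σ0 Yc g l) (nd i) / C3 (ih1 β0 ν0 σ0 Yc g l) (nd i)
      = (nd i - ih0 σ0 Yc g l 0) / (nd i - ih1 β0 ν0 σ0 Yc g l 0)
        * ((nd i - ih0 σ0 Yc g l 1) / (nd i - ih1 β0 ν0 σ0 Yc g l 1))
        * ((nd i - ih0 σ0 Yc g l 2) / (nd i - ih1 β0 ν0 σ0 Yc g l 2)) := by
    rw [C3, C3, mul_div_mul_comm, mul_div_mul_comm]
  rw [e, sgnd_eq]
  set A := (nd i - ih0 σ0 Yc g l 0) / (nd i - ih1 β0 ν0 σ0 Yc g l 0)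
  set Bq := (nd i - ih0 σ0 Yc g l 1) / (nd i - ih1 β0 ν0 σ0 Yc g l 1)
  set Cq := (nd i - ih0 σ0 Yc g l 2) / (nd i - ih1 β0 ν0 σ0 Yc g l 2)
  have hτ : 0 ≤ τ := le_trans (abs_nonneg _) hx
  have sxa := sx_abs i
  have sya := sy_abs i
  have hB : |Bq| ≤ 1 + τ := by
    have := abs_add_le (Bq - 1) 1
    rw [sub_add_cancel, abs_one] at this
    linarith
  have hA : |A| ≤ 1 + τ := by
    have := abs_add_le (A - sx i) (sx i)
    rw [sub_add_cancel, sxa] at this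
    linarith
  have split : A * Bq * Cq - sx i * sy i
      = A * Bq * (Cq - sy i) + A * (Bq - 1) * sy i + (A - sx i) * sy i := by ring
  rw [split]
  have t1 : |A * Bq * (Cq - sy i)| ≤ (1 + τ) * (1 + τ) * τ := by
    rw [abs_mul, abs_mul]
    exact mul_le_mul (mul_le_mul hA hB (abs_nonneg _) (by positivity)) hy (abs_nonneg _) (by positivity)
  have t2 : |A * (Bq - 1) * sy i| ≤ (1 + τ) * τ := by
    rw [abs_mul, abs_mul, sya, mul_one]
    exact mul_le_mul hA he (abs_nonneg _) (by positivity)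
  have t3 : |(A - sx i) * sy i| ≤ τ := by
    rw [abs_mul, sya, mul_one]; exact hx
  have t4 := abs_add_le (A * Bq * (Cq - sy i) + A * (Bq - 1) * sy i) ((A - sx i) * sy i)
  have t5 := abs_add_le (A * Bq * (Cq - sy i)) (A * (Bq - 1) * sy i)
  nlinarith [mul_nonneg hτ hτ, mul_nonneg hτ (sub_nonneg.mpr hτ1), mul_nonneg (mul_nonneg hτ hτ) (sub_nonneg.mpr hτ1)]

end Pool.Agent.Hhelper30.Forsythe
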