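import Pool.Agent.Hhelper30.Forsythe.LocalRS
import Pool.Agent.Hhelper30.Forsythe.Coast

/-! First leg of the half cycle: the bounce at side a and the coast. -/

set_option autoImplicit false

namespace Pool.Agent.Hhelper30.Forsythe

open Filter Topology Set Finset

theorem Loc.shift {A R N C ε h : ℝ} {X Y S u v m G : ℕ → ℝ} {j k : ℕ}
    (H : Loc A R N C ε h X Y S u v m G (j + k)) :
    Loc A R N C ε h (fun i => X (j + i)) (fun i => Y (j + i)) (fun i => S (j + i))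
      (fun i => u (j + i)) (fun i => v (j + i)) (fun i => m (j + i)) (fun i => G (j + i)) k :=
  ⟨H.hu, H.hv, H.hm, H.hX, H.hY, H.hS, H.hG0, H.hG1⟩

theorem RS.shift {c : Coef} {C c0 ε h δ : ℝ} {X Y S u v m G : ℕ → ℝ}
    (H : RS c C c0 ε h δ X Y S u v m G) (j : ℕ) :
    RS c C c0 ε h δ (fun i => X (j + i)) (fun i => Y (j + i)) (fun i => S (j + i))
      (fun i => u (j + i)) (fun i => v (j + i)) (fun i => m (j + i)) (fun i => G (j + i)) :=
  ⟨fun k hk => H.hX (j + k) hk, fun k hk => H.hY (j + k) hk, fun k hk => H.hS (j + k) hk,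
   fun k hk => H.hu (j + k) hk, fun k hk => H.hv (j + k) hk, fun k hk => H.hm (j + k) hk,
   fun k hk => H.hG0 (j + k) hk, fun k hk => H.hG1 (j + k) hk⟩

theorem RS.mono {c : Coef} {C c0 ε ε' h δ δ' : ℝ} {X Y S u v m G : ℕ → ℝ}
    (H : RS c C c0 ε h δ X Y S u v m G) (hh : 0 < h) (hε : ε ≤ ε') (hδ : δ' ≤ δ) :
    RS c C c0 ε' h δ' X Y S u v m G := by
  have hs : ∀ k, 0 ≤ src X Y S m k := by
    intro k; unfold src
    have := ES_nonneg (S k)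
    positivity
  have h1 : ∀ k, ε * h * src X Y S m k ≤ ε' * h * src X Y S m k := by
    intro k
    exact mul_le_mul_of_nonneg_right (mul_le_mul_of_nonneg_right hε hh.le) (hs k)
  have h2 : ∀ k, ε * h * |m k| ≤ ε' * h * |m k| := by
    intro k
    exact mul_le_mul_of_nonneg_right (mul_le_mul_of_nonneg_right hε hh.le) (abs_nonneg _)
  exact ⟨fun k hk => H.hX k (hk.trans hδ), fun k hk => H.hY k (hk.trans hδ),
    fun k hk => (H.hS k (hk.trans hδ)).trans (by have := h2 k; linarith),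
    fun k hk => (H.hu k (hk.trans hδ)).trans (h1 k),
    fun k hk => (H.hv k (hk.trans hδ)).trans (h1 k),
    fun k hk => (H.hm k (hk.trans hδ)).trans (h1 k),
    fun k hk => H.hG0 k (hk.trans hδ), fun k hk => H.hG1 k (hk.trans hδ)⟩

/-- time bounds -/
theorem leg1_time (θ t D Cb : ℝ) (hθ : 0 < θ) (hθ1 : θ ≤ 1 / 10000) (ht : 0 ≤ t)
    (h1 : 2 * (1 - θ) * t ≤ D + Cb) (h2 : D ≤ 2 * (1 + θ) * t + Cb) :
    t ≤ 5006 / 10000 * (D + Cb) ∧ 499 / 1000 * (D - Cb) ≤ t := by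
  have e1 : θ * t ≤ 1 / 10000 * t := mul_le_mul_of_nonneg_right hθ1 ht
  have e0 : 0 ≤ θ * t := by positivity
  constructor <;> linarith

theorem leg1 (c : Coef) (hc : GoodCoef c) (C c0 : ℝ) (hC : 0 < C) (hc0 : 0 < c0) (K0 : ℝ)
    (hK0 : 800 ≤ K0) :
    ∃ εy > 0, ∀ (Cy ω σ1 : ℝ), 0 ≤ Cy → 0 < ω → 0 < σ1 → ∃ ε1 > 0, ∃ C1 : ℝ, 1 ≤ C1 ∧
    ∀ (ε h δ : ℝ), 0 ≤ ε → ε ≤ ε1 → 0 < h → h ≤ ε1 →
    ∀ (X Y S u v m G : ℕ → ℝ), RS c C c0 ε h δ X Y S u v m G → ∀ D : ℝ, C1 ≤ D → u 0 = -1 →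
    X 0 = D → 1 / 8 ≤ v 0 → v 0 ≤ 1 / 4 → -(1 / 1000) ≤ m 0 → m 0 ≤ -(1 / (8 * K0)) →
    Real.exp (-Y 0) ≤ εy → Y 0 ≤ Cy → -(1 / 1000 * D) ≤ S 0 → S 0 ≤ -(σ1 * D) → G 0 + C1 ≤ δ →
    ∃ K : ℕ, 0 < K ∧ |u K - 1| ≤ 1 / 500 ∧ -(9 / 10) ≤ v K ∧ v K ≤ 3 / 10 ∧ 38 / 100 ≤ m K ∧
      m K ≤ 102 / 100 ∧
      Real.exp (-X K) ≤ ω ∧ X K ≤ C1 ∧ 1 / (4 * K0) * D ≤ -S K ∧ -S K ≤ 72 / 10000 * D ∧
      12 / 100 * D ≤ Y K ∧ Y K ≤ 27 / 100 * D ∧ h * K ≤ 2 * D ∧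
      ∀ j ≤ K, G 0 ≤ G j ∧ G j ≤ G 0 + C1 ∧ D ≤ 10 * (X j + Y j) + C1 := by
  obtain ⟨A, hAdef⟩ : ∃ A, A = c.Axx (-3) := ⟨_, rfl⟩
  obtain ⟨R, hRdef⟩ : ∃ R, R = c.Axy 3 := ⟨_, rfl⟩
  obtain ⟨N, hNdef⟩ : ∃ N, N = c.nx (-3) := ⟨_, rfl⟩
  have hA : 0 < A := by rw [hAdef]; exact hc.Axx_a
  have hR1 : R ≤ 0 := by rw [hRdef]; exact hc.r_lo
  have hR2 : -(1 / 2) * A ≤ R := by rw [hRdef, hAdef]; exact hc.r_hi
  have hN1 : (1 / 5) * A ≤ N := by rw [hNdef, hAdef]; exact hc.n_lo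
  have hN2 : N ≤ (1 / 2) * A := by rw [hNdef, hAdef]; exact hc.n_hi
  have hN0 : 0 ≤ N := by linarith
  obtain ⟨r, hr⟩ : ∃ r, r = R / A := ⟨_, rfl⟩
  obtain ⟨n, hn⟩ : ∃ n, n = N / A := ⟨_, rfl⟩
  have hr1 : r ≤ 0 := by rw [hr]; exact div_nonpos_of_nonpos_of_nonneg hR1 hA.le
  have hr2 : -(1 / 2) ≤ r := by rw [hr, le_div_iff₀ hA]; linarith
  have hn1 : 1 / 5 ≤ n := by rw [hn, le_div_iff₀ hA]; linarith
  have hn2 : n ≤ 1 / 2 := by rw [hn, div_le_iff₀ hA]; linarith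
  obtain ⟨C2, hC2⟩ : ∃ C2, C2 = 10 * ((|R| + |N|) / A + 1) := ⟨_, rfl⟩
  have hC2' : C2 ≤ 20 := by
    have h1 : |R| / A = -r := by rw [abs_of_nonpos hR1, hr]; ring
    have h2 : |N| / A = n := by rw [abs_of_nonneg hN0, hn]
    rw [hC2, add_div, h1, h2]; linarith
  have hC2pos : 0 < C2 := by rw [hC2]; positivity
  obtain ⟨ν, hν⟩ : ∃ ν, ν = 1 / (8 * K0) := ⟨_, rfl⟩
  have hK0pos : 0 < K0 := by linarith
  have hνpos : 0 < ν := by rw [hν]; positivity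
  have hν1 : ν ≤ 1 / 6400 := by
    rw [hν]; apply one_div_le_one_div_of_le (by norm_num) (by linarith)
  obtain ⟨Cl, hCl, hCl1, hloc⟩ := loc_of_RS c hc C c0 hC hc0.le
  have hClpos : 0 < Cl := by linarith
  obtain ⟨ω0, hω0, hcoast⟩ := coast A R N Cl 2 (1 / 1000) hA hClpos (by norm_num) (by norm_num)
    (by norm_num)
  obtain ⟨θ, hθ⟩ : ∃ θ, θ = min (ν / 2000) (A * ω0 / 2) := ⟨_, rfl⟩
  have hθpos : 0 < θ := by rw [hθ]; positivity
  have hθν : θ ≤ ν / 2000 := by rw [hθ]; exact min_le_left _ _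
  have hθω : θ ≤ A * ω0 / 2 := by rw [hθ]; exact min_le_right _ _
  have hC2θ : C2 * θ ≤ ν / 100 := by
    have := mul_le_mul hC2' hθν hθpos.le (by norm_num)
    linarith
  have hC2θ0 : 0 ≤ C2 * θ := by positivity
  have hθ1 : θ ≤ 1 / 10000 := by linarith
  have hC2θ2 : C2 * θ ^ 2 ≤ 1 / 10000 := by
    have : C2 * θ ^ 2 = C2 * θ * θ := by ring
    rw [this]
    have := mul_le_mul hC2θ hθ1 hθpos.le (by linarith)
    linarith
  obtain ⟨εb, hεb, hεb1, Cb, hCb, hbs⟩ := bounce_stage A R N Cl ν (1 / 8) 1 hA hClpos hνpos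
    (by norm_num) (by norm_num) le_rfl θ hθpos (by linarith) C2 hC2 (by linarith) (by linarith)
  refine ⟨εb, hεb, ?_⟩
  intro Cy ω σ1 hCy hω hσ1
  obtain ⟨εc, hεc, Cc, hCc, hco⟩ := hcoast ω hω
  obtain ⟨εl, hεl⟩ : ∃ e, e = min εb εc / 2 := ⟨_, rfl⟩
  have hεlpos : 0 < εl := by rw [hεl]; positivity
  have hεlb : 2 * εl ≤ εb := by rw [hεl]; have := min_le_left εb εc; linarith
  have hεlc : 2 * εl ≤ εc := by rw [hεl]; have := min_le_right εb εc; linarith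
  obtain ⟨M, hM0, hlocM⟩ := hloc εl hεlpos
  refine ⟨εl, hεlpos, 1000 * Cb + 1000 * Cc + 1000 * Cy + (M + Cb) / σ1
    + (10 * Cb + 2 * Cc + M) / ν, ?_, ?_⟩
  · have h1 : 0 ≤ (M + Cb) / σ1 := by positivity
    have h2 : 0 ≤ (10 * Cb + 2 * Cc + M) / ν := by positivity
    linarith
  intro ε h δ hε hεε hh hhε X Y S u v m G hRS D hD hu0 hX0 hv1 hv2 hm1 hm2 hY1 hY2 hS1 hS2 hG
  have q1 : 0 ≤ (M + Cb) / σ1 := by positivity
  have q2 : 0 ≤ (10 * Cb + 2 * Cc + M) / ν := by positivity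
  have hDσ : M + Cb ≤ σ1 * D := by
    have h1 : (M + Cb) / σ1 ≤ D := by linarith
    rw [div_le_iff₀ hσ1] at h1; linarith
  have hDν : 10 * Cb + 2 * Cc + M ≤ ν * D := by
    have h1 : (10 * Cb + 2 * Cc + M) / ν ≤ D := by linarith
    rw [div_le_iff₀ hνpos] at h1; linarith
  have hlocA : ∀ k, G k ≤ δ → S k ≤ -M → Loc A R N Cl (2 * εl) h X Y S u v m G k := by
    intro k hk1 hk2
    rw [hAdef, hRdef, hNdef]
    exact (hlocM ε h δ hε hεε (by linarith) hh X Y S u v m G hRS).1 k hk1 hk2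
  have hm2' : m 0 ≤ -ν := by rw [hν]; exact hm2
  have hY0 : 0 ≤ Y 0 := by
    have h1 : Real.exp (-Y 0) ≤ 1 := hY1.trans hεb1
    have := Real.exp_le_one_iff.mp h1
    linarith
  obtain ⟨K1, kz, co, hkz, huK, hGS, hTK⟩ := hbs (2 * εl) h δ M (by linarith) hεlb hh
    (by linarith) hM0 X Y S u v m G D hlocA hu0 hX0 (by linarith) (by linarith) hm2'
    (by rw [abs_le]; constructor <;> linarith) (by linarith) (by linarith)
    (Or.inl ⟨hv1, hY1⟩)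
  obtain ⟨t, ht⟩ : ∃ t, t = h * (kz : ℝ) := ⟨_, rfl⟩
  have ht0 : 0 ≤ t := by rw [ht]; positivity
  have hkzhi := co.kz_hi
  have hkzlo := (co.kz_lo hkz).1
  have hXkz := (co.kz_lo hkz).2
  rw [← ht] at hkzhi hkzlo
  obtain ⟨ht1, ht2⟩ := leg1_time θ t D Cb hθpos hθ1 ht0 hkzhi hkzlo
  have hGK1 := co.Gb K1 le_rfl
  have huK2 := (co.ub K1 le_rfl).2
  have hvK := abs_le.mp (co.vb K1 le_rfl)
  have hmK := abs_le.mp (co.mb K1 le_rfl)
  rw [← hr] at hvK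
  rw [← hn] at hmK
  have hXK1 := co.Xf
  have hXK1' := (co.Xb K1 le_rfl).1
  have hYf := abs_le.mp co.Yf
  have hSf := abs_le.mp co.Sf
  rw [← ht] at hYf hSf
  -- products
  have p1 : r * (u K1 + 1) ≤ 0 := by
    have : 0 ≤ (-r) * (u K1 + 1) := mul_nonneg (by linarith) (by linarith)
    linarith
  have p2 : -(1 / 2) * (2 + θ) ≤ r * (u K1 + 1) := by
    have h1 : (-r) * (u K1 + 1) ≤ 1 / 2 * (2 + θ) :=
      mul_le_mul (by linarith) (by linarith) (by linarith) (by norm_num)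
    linarith
  have p3 : 1 / 5 * (2 - θ) ≤ n * (u K1 + 1) :=
    mul_le_mul hn1 (by linarith) (by linarith) (by linarith)
  have p4 : n * (u K1 + 1) ≤ 1 / 2 * (2 + θ) :=
    mul_le_mul hn2 (by linarith) (by linarith) (by norm_num)
  have p5 : 1 / 8 * t ≤ v 0 * t := mul_le_mul_of_nonneg_right hv1 ht0
  have p6 : v 0 * t ≤ 1 / 4 * t := mul_le_mul_of_nonneg_right hv2 ht0
  have p7 : C2 * θ * t ≤ ν / 100 * t := mul_le_mul_of_nonneg_right hC2θ ht0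
  have p7' : 0 ≤ C2 * θ * t := by positivity
  have p8 : ν * t ≤ 1 / 6400 * t := mul_le_mul_of_nonneg_right hν1 ht0
  have p9 : -(1 / 1000) * t ≤ m 0 * t := by
    have := mul_le_mul_of_nonneg_right hm1 ht0; linarith
  have p10 : m 0 * t ≤ -ν * t := mul_le_mul_of_nonneg_right hm2' ht0
  have p11 : ν * (499 / 1000 * (D - Cb)) ≤ ν * t := mul_le_mul_of_nonneg_left ht2 hνpos.le
  have p12 : ν * Cb ≤ 1 / 6400 * Cb := mul_le_mul_of_nonneg_right hν1 (by linarith)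
  have p12' : 0 ≤ ν * Cb := by positivity
  have p13 : ν * D ≤ 1 / 6400 * D := mul_le_mul_of_nonneg_right hν1 (by linarith)
  have hvK1 : -(89 / 100) ≤ v K1 ∧ v K1 ≤ 29 / 100 := by constructor <;> linarith
  have hmK1 : 39 / 100 ≤ m K1 ∧ m K1 ≤ 101 / 100 := by constructor <;> linarith
  have hYK1 : 121 / 1000 * D + Cc ≤ Y K1 ∧ Y K1 ≤ 26 / 100 * D := by
    constructor <;> linarith
  have hSK1 : 2 * ν * D + Cc + M ≤ -S K1 ∧ -S K1 ≤ 71 / 10000 * D := by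
    constructor <;> linarith
  have hYK1Cc : Cc ≤ Y K1 := by linarith
  have hexpX : Real.exp (-X K1) ≤ ω0 := by
    have h1 := (abs_le.mp (co.en K1 le_rfl)).2
    have h2 : (1 - θ) ^ 2 ≤ u K1 ^ 2 := pow_le_pow_left₀ (by linarith) huK 2
    have h3 : (1 - θ) ^ 2 = 1 - 2 * θ + θ ^ 2 := by ring
    have h4 : A * Real.exp (-X K1) ≤ A * ω0 := by linarith
    exact le_of_mul_le_mul_left h4 hA
  obtain ⟨K2, hXω, hTK2, hall⟩ := hco (2 * εl) h δ M (by linarith) hεlc hh (by linarith) hM0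
    (fun i => X (K1 + i)) (fun i => Y (K1 + i)) (fun i => S (K1 + i))
      (fun i => u (K1 + i)) (fun i => v (K1 + i)) (fun i => m (K1 + i)) (fun i => G (K1 + i))
    (fun k h1 h2 => (hlocA (K1 + k) h1 h2).shift)
    (by show 1 / 2 ≤ u (K1 + 0); rw [add_zero]; linarith)
    (by show |u (K1 + 0)| ≤ 2; rw [add_zero, abs_le]; constructor <;> linarith)
    (by show |v (K1 + 0)| ≤ 2; rw [add_zero, abs_le]; constructor <;> linarith)
    (by show |m (K1 + 0)| ≤ 2; rw [add_zero, abs_le]; constructor <;> linarith)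
    (by show Real.exp (-X (K1 + 0)) ≤ ω0; rw [add_zero]; exact hexpX)
    (by show S (K1 + 0) ≤ -M - Cc; rw [add_zero]; linarith [hSK1.1, mul_pos hνpos (show 0 < D by linarith)])
    (by show Cc ≤ Y (K1 + 0); rw [add_zero]; exact hYK1Cc)
    (by show G (K1 + 0) + Cc ≤ δ; rw [add_zero]; linarith)
  simp only [add_zero] at hall
  obtain ⟨b1, b2, b3, b4, b5, b6, b7, b8⟩ := hall K2 le_rfl
  rw [abs_le] at b1 b2 b3 b4 b5 b6
  have hν8 : 1 / (4 * K0) * D = 2 * ν * D := by rw [hν]; field_simp; ring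
  refine ⟨K1 + K2, by omega, ?_, by linarith, by linarith, by linarith, by linarith, hXω,
    by linarith, by rw [hν8]; linarith, by linarith, by linarith, by linarith, ?_, ?_⟩
  · rw [abs_le]; constructor <;> linarith
  · push_cast
    have : h * ((K1 : ℝ) + K2) = h * K1 + h * K2 := by ring
    linarith
  · intro j hj
    rcases le_or_gt j K1 with hj1 | hj1
    · have hGj := co.Gb j hj1
      refine ⟨hGj.1, by linarith [hGj.2], ?_⟩
      have hYj := co.Yb j hj1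
      rcases le_or_gt j kz with hjz | hjz
      · rw [min_eq_left hjz] at hYj
        have hXj := co.Xa j hjz
        obtain ⟨s, hs⟩ : ∃ s, s = h * (j : ℝ) := ⟨_, rfl⟩
        have hs0 : 0 ≤ s := by rw [hs]; positivity
        have hst : s ≤ t := by
          rw [hs, ht]; apply mul_le_mul_of_nonneg_left _ hh.le; exact_mod_cast hjz
        have e1 : 2 * (v 0 - C2 * θ) * h * (j : ℝ) = 2 * (v 0 - C2 * θ) * s := by rw [hs]; ring
        rw [e1] at hYj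
        rw [← hs] at hXj
        have e2 : 2 * (1 / 8 - 1 / 1000) * s ≤ 2 * (v 0 - C2 * θ) * s :=
          mul_le_mul_of_nonneg_right (by linarith) hs0
        have e3 : θ * s ≤ 1 / 10000 * s := mul_le_mul_of_nonneg_right hθ1 hs0
        linarith
      · rw [min_eq_right hjz.le] at hYj
        have hXj := (co.Xb j hj1).1
        have e1 : 2 * (v 0 - C2 * θ) * h * (kz : ℝ) = 2 * (v 0 - C2 * θ) * t := by rw [ht]; ring
        rw [e1] at hYj
        linarith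
    · obtain ⟨i, rfl⟩ := Nat.exists_eq_add_of_lt hj1
      obtain ⟨_, _, _, d4, d5, _, d7, d8⟩ := hall (i + 1) (by omega)
      rw [abs_le] at d4 d5
      rw [show K1 + i + 1 = K1 + (i + 1) by ring]
      refine ⟨by linarith, by linarith, by linarith⟩

end Pool.Agent.Hhelper30.Forsythe
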