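import Pool.Agent.Hhelper30.Forsythe.BStage

/-! Local form of the reduced system near the two ends; scaling and reflection. -/

set_option autoImplicit false

namespace Pool.Agent.Hhelper30.Forsythe

open Filter Topology Set Finset

theorem etaS_mem (S : ℝ) : etaS S ∈ Icc (-3 : ℝ) 3 := by
  unfold etaS
  have := Real.exp_pos S
  constructor
  · rw [le_div_iff₀ (by positivity)]; nlinarith
  · rw [div_le_iff₀ (by positivity)]; nlinarith

theorem neg_etaS_mem (S : ℝ) : -etaS S ∈ Icc (-3 : ℝ) 3 := by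
  rw [← etaS_neg]; exact etaS_mem _

theorem etaS_near (S M : ℝ) (h : S ≤ -M) : |etaS S - (-3)| ≤ 6 * Real.exp (-M) := by
  have h1 : etaS S - (-3) = 6 * Real.exp S / (Real.exp S + 1) := by
    unfold etaS
    have := Real.exp_pos S
    field_simp; ring
  have h0 := Real.exp_pos S
  rw [h1, abs_of_nonneg (by positivity), div_le_iff₀ (by positivity)]
  have h2 : Real.exp S ≤ Real.exp (-M) := Real.exp_le_exp.mpr h
  have h3 := Real.exp_pos (-M)
  nlinarith [mul_pos h0 h3]

/-- closeness of a continuous function at an end -/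
theorem near_end (f : ℝ → ℝ) (hf : ContinuousOn f (Icc (-3) 3)) (a : ℝ) (ha : a ∈ Icc (-3 : ℝ) 3)
    (ε : ℝ) (hε : 0 < ε) : ∃ ρ > 0, ∀ e ∈ Icc (-3 : ℝ) 3, |e - a| ≤ ρ → |f e - f a| ≤ ε := by
  have h1 := hf a ha
  rw [Metric.continuousWithinAt_iff] at h1
  obtain ⟨ρ, hρ, h2⟩ := h1 ε hε
  refine ⟨ρ / 2, by positivity, fun e he hea => ?_⟩
  have := h2 he (by rw [Real.dist_eq]; linarith)
  rw [Real.dist_eq] at this
  exact this.le

theorem bdd_fun (f : ℝ → ℝ) (hf : ContinuousOn f (Icc (-3) 3)) :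
    ∃ B : ℝ, 0 ≤ B ∧ ∀ e ∈ Icc (-3 : ℝ) 3, |f e| ≤ B := by
  obtain ⟨B, hB⟩ := (isCompact_Icc.image_of_continuousOn hf.abs).bddAbove
  refine ⟨max B 0, le_max_right _ _, fun e he => ?_⟩
  exact (hB ⟨e, he, rfl⟩).trans (le_max_left _ _)

theorem loc_aux (A a b k ε0 ε Cb h Z ζ e D : ℝ) (hh : 0 < h) (hZ : 0 ≤ Z) (hζ : 0 ≤ ζ) (he : 0 ≤ e)
    (hε0 : ε0 ≤ ε) (hε1 : ε0 ≤ 1) (ha : |a - A| ≤ ε) (hb : |b| ≤ Cb) (hk : |k| ≤ Cb)
    (hD : |D - h * (Z * a + ζ * b - e * k)| ≤ ε0 * h * (Z + ζ + e)) :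
    |D - h * A * Z| ≤ (2 * ε) * h * Z + (1 + Cb) * (h * (ζ + e)) := by
  have h1 : |h * (Z * (a - A))| ≤ h * Z * ε := by
    rw [abs_mul, abs_mul, abs_of_pos hh, abs_of_nonneg hZ]
    nlinarith [mul_le_mul_of_nonneg_left ha (mul_nonneg hh.le hZ)]
  have h2 : |h * (ζ * b)| ≤ h * ζ * Cb := by
    rw [abs_mul, abs_mul, abs_of_pos hh, abs_of_nonneg hζ]
    nlinarith [mul_le_mul_of_nonneg_left hb (mul_nonneg hh.le hζ)]
  have h3 : |h * (e * k)| ≤ h * e * Cb := by
    rw [abs_mul, abs_mul, abs_of_pos hh, abs_of_nonneg he]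
    nlinarith [mul_le_mul_of_nonneg_left hk (mul_nonneg hh.le he)]
  have h4 : ε0 * h * (Z + ζ + e) ≤ ε * h * Z + (h * (ζ + e)) := by
    have p1 : ε0 * (h * Z) ≤ ε * (h * Z) := mul_le_mul_of_nonneg_right hε0 (by positivity)
    have p2 : ε0 * (h * (ζ + e)) ≤ 1 * (h * (ζ + e)) :=
      mul_le_mul_of_nonneg_right hε1 (by positivity)
    nlinarith
  have h5 := abs_add_le (D - h * (Z * a + ζ * b - e * k)) (h * (Z * (a - A)))
  have h6 := abs_add_le (D - h * (Z * a + ζ * b - e * k) + h * (Z * (a - A))) (h * (ζ * b))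
  have h7 := abs_sub (D - h * (Z * a + ζ * b - e * k) + h * (Z * (a - A)) + h * (ζ * b)) (h * (e * k))
  have h8 : D - h * (Z * a + ζ * b - e * k) + h * (Z * (a - A)) + h * (ζ * b) - h * (e * k)
      = D - h * A * Z := by ring
  rw [h8] at h7
  nlinarith

theorem loc_of_RS (c : Coef) (hc : GoodCoef c) (C c0 : ℝ) (hC : 0 < C) (hc0 : 0 ≤ c0) :
    ∃ C'' : ℝ, C ≤ C'' ∧ 1 ≤ C'' ∧ ∀ ε > 0, ∃ M : ℝ, 0 ≤ M ∧ ∀ (ε0 h δ : ℝ), 0 ≤ ε0 → ε0 ≤ ε →
    ε0 ≤ 1 → 0 < h → ∀ (X Y S u v m G : ℕ → ℝ), RS c C c0 ε0 h δ X Y S u v m G →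
    (∀ k, G k ≤ δ → S k ≤ -M →
      Loc (c.Axx (-3)) (c.Axy 3) (c.nx (-3)) C'' (2 * ε) h X Y S u v m G k) ∧
    (∀ k, G k ≤ δ → M ≤ S k →
      Loc (c.Axx 3) (c.Axy (-3)) (-(c.nx 3)) C'' (2 * ε) h X Y (fun k => -S k) u v (fun k => -m k) G k) := by
  obtain ⟨B1, hB1, hb1⟩ := bdd_fun c.Axx hc.cAxx
  obtain ⟨B2, hB2, hb2⟩ := bdd_fun c.Axy hc.cAxy
  obtain ⟨B3, hB3, hb3⟩ := bdd_fun c.kx hc.ckx
  obtain ⟨B4, hB4, hb4⟩ := bdd_fun c.nx hc.cnx
  obtain ⟨B5, hB5, hb5⟩ := bdd_fun c.lam hc.clam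
  obtain ⟨Cb, hCb⟩ : ∃ Cb, Cb = B1 + B2 + B3 + B4 + 2 * B5 := ⟨_, rfl⟩
  refine ⟨C + 1 + Cb, by linarith, by linarith, ?_⟩
  intro ε hε
  have m3 : (-3 : ℝ) ∈ Icc (-3 : ℝ) 3 := by constructor <;> norm_num
  have p3 : (3 : ℝ) ∈ Icc (-3 : ℝ) 3 := by constructor <;> norm_num
  obtain ⟨ρ1, hρ1, n1⟩ := near_end c.Axx hc.cAxx (-3) m3 ε hε
  obtain ⟨ρ2, hρ2, n2⟩ := near_end c.Axx hc.cAxx 3 p3 ε hε
  obtain ⟨ρ3, hρ3, n3⟩ := near_end c.Axy hc.cAxy (-3) m3 ε hε
  obtain ⟨ρ4, hρ4, n4⟩ := near_end c.Axy hc.cAxy 3 p3 ε hε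
  obtain ⟨ρ5, hρ5, n5⟩ := near_end c.nx hc.cnx (-3) m3 ε hε
  obtain ⟨ρ6, hρ6, n6⟩ := near_end c.nx hc.cnx 3 p3 ε hε
  obtain ⟨ρ, hρ, hr⟩ : ∃ ρ > 0, ρ ≤ ρ1 ∧ ρ ≤ ρ2 ∧ ρ ≤ ρ3 ∧ ρ ≤ ρ4 ∧ ρ ≤ ρ5 ∧ ρ ≤ ρ6 := by
    refine ⟨min (min (min ρ1 ρ2) (min ρ3 ρ4)) (min ρ5 ρ6), by positivity, ?_, ?_, ?_, ?_, ?_, ?_⟩
    · exact (min_le_left _ _).trans ((min_le_left _ _).trans (min_le_left _ _))
    · exact (min_le_left _ _).trans ((min_le_left _ _).trans (min_le_right _ _))
    · exact (min_le_left _ _).trans ((min_le_right _ _).trans (min_le_left _ _))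
    · exact (min_le_left _ _).trans ((min_le_right _ _).trans (min_le_right _ _))
    · exact (min_le_right _ _).trans (min_le_left _ _)
    · exact (min_le_right _ _).trans (min_le_right _ _)
  obtain ⟨r1, r2, r3, r4, r5, r6⟩ := hr
  refine ⟨6 / ρ, by positivity, ?_⟩
  have hM : 6 * Real.exp (-(6 / ρ)) ≤ ρ := exp_neg_small 6 ρ (6 / ρ) (by norm_num) hρ le_rfl
  intro ε0 h δ hε0 hε0ε hε01 hh X Y S u v m G hRS
  have hh2 : ∀ k, C * h ^ 2 * src X Y S m k = C * h * (h * Real.exp (-X k) + oth h Y S m k) := by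
    intro k; unfold src oth; ring
  have hoth : ∀ k, oth h Y (fun k => -S k) (fun k => -m k) k = oth h Y S m k := by
    intro k; unfold oth; simp only [ES_neg, neg_sq]
  have hCh : ∀ k, C * h * (h * Real.exp (-X k) + oth h Y S m k) ≤
      (C + 1 + Cb) * h * (h * Real.exp (-X k) + oth h Y S m k) := by
    intro k
    have := oth_nonneg h hh.le Y S m k
    apply mul_le_mul_of_nonneg_right _ (by positivity)
    exact mul_le_mul_of_nonneg_right (by linarith) hh.le
  have hZ : ∀ k, 0 ≤ Real.exp (-X k) := fun k => (Real.exp_pos _).le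
  have hζ : ∀ k, 0 ≤ Real.exp (-Y k) := fun k => (Real.exp_pos _).le
  have he : ∀ k, 0 ≤ m k ^ 2 * ES (S k) := fun k => mul_nonneg (sq_nonneg _) (ES_nonneg _)
  have hfin : ∀ k (D A : ℝ), |D - h * A * Real.exp (-X k)| ≤ 2 * ε * h * Real.exp (-X k)
      + (1 + Cb) * (h * (Real.exp (-Y k) + m k ^ 2 * ES (S k))) →
      |D - h * A * Real.exp (-X k)| ≤ 2 * ε * h * Real.exp (-X k) + (C + 1 + Cb) * oth h Y S m k := by
    intro k D A h1
    refine h1.trans ?_
    have h2 := oth_nonneg h hh.le Y S m k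
    have h3 : (1 + Cb) * oth h Y S m k ≤ (C + 1 + Cb) * oth h Y S m k :=
      mul_le_mul_of_nonneg_right (by linarith) h2
    have h4 : (1 + Cb) * (h * (Real.exp (-Y k) + m k ^ 2 * ES (S k))) = (1 + Cb) * oth h Y S m k := rfl
    linarith
  have hG0 : ∀ k, G k ≤ δ → 0 ≤ G (k + 1) - G k := by
    intro k hk
    refine le_trans ?_ (hRS.hG0 k hk)
    have : 0 ≤ src X Y S m k := by
      unfold src; have := hZ k; have := hζ k; have := he k; linarith
    positivity
  have hG1 : ∀ k, G k ≤ δ → G (k + 1) - G k ≤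
      (C + 1 + Cb) * (h * Real.exp (-X k) + oth h Y S m k) := by
    intro k hk
    refine (hRS.hG1 k hk).trans ?_
    have h1 : C * h * src X Y S m k = C * (h * Real.exp (-X k) + oth h Y S m k) := by
      unfold src oth; ring
    rw [h1]
    have := oth_nonneg h hh.le Y S m k
    exact mul_le_mul_of_nonneg_right (by linarith) (by have := hZ k; positivity)
  constructor
  · intro k hGk hSk
    have hn : |etaS (S k) - (-3)| ≤ ρ := (etaS_near _ _ hSk).trans hM
    have hn' : |-etaS (S k) - 3| ≤ ρ := by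
      rw [show -etaS (S k) - 3 = -(etaS (S k) - (-3)) by ring, abs_neg]; exact hn
    refine ⟨?_, ?_, ?_, ?_, ?_, ?_, hG0 k hGk, hG1 k hGk⟩
    · apply hfin
      apply loc_aux _ (c.Axx (etaS (S k))) (c.Axy (etaS (S k))) (c.kx (etaS (S k))) ε0 ε Cb h _ _ _ _
        hh (hZ k) (hζ k) (he k) hε0ε hε01
      · exact n1 _ (etaS_mem _) (hn.trans r1)
      · exact (hb2 _ (etaS_mem _)).trans (by linarith)
      · exact (hb3 _ (etaS_mem _)).trans (by linarith)
      · exact hRS.hu k hGk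
    · apply hfin
      apply loc_aux _ (c.Axy (-etaS (S k))) (c.Axx (-etaS (S k))) (c.kx (-etaS (S k))) ε0 ε Cb h _ _ _ _
        hh (hZ k) (hζ k) (he k) hε0ε hε01
      · exact n4 _ (neg_etaS_mem _) (hn'.trans r4)
      · exact (hb1 _ (neg_etaS_mem _)).trans (by linarith)
      · exact (hb3 _ (neg_etaS_mem _)).trans (by linarith)
      · exact hRS.hv k hGk
    · apply hfin
      apply loc_aux _ (c.nx (etaS (S k))) (-c.nx (-etaS (S k))) (2 * c.lam (etaS (S k))) ε0 ε Cb h _ _ _ _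
        hh (hZ k) (hζ k) (he k) hε0ε hε01
      · exact n5 _ (etaS_mem _) (hn.trans r5)
      · rw [abs_neg]; exact (hb4 _ (neg_etaS_mem _)).trans (by linarith)
      · rw [abs_mul, abs_two]; have := hb5 _ (etaS_mem (S k)); linarith
      · have := hRS.hm k hGk
        have e1 : Real.exp (-X k) * c.nx (etaS (S k)) + Real.exp (-Y k) * -c.nx (-etaS (S k))
            - m k ^ 2 * ES (S k) * (2 * c.lam (etaS (S k)))
            = Real.exp (-X k) * c.nx (etaS (S k)) - Real.exp (-Y k) * c.nx (-etaS (S k))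
            - 2 * (m k ^ 2 * ES (S k)) * c.lam (etaS (S k)) := by ring
        rw [e1]; exact this
    · exact (hRS.hX k hGk).trans ((hh2 k).le.trans (hCh k))
    · exact (hRS.hY k hGk).trans ((hh2 k).le.trans (hCh k))
    · refine (hRS.hS k hGk).trans ?_
      have h1 := (hh2 k).le.trans (hCh k)
      have h2 : ε0 * h * |m k| ≤ 2 * ε * h * |m k| := by
        have : 0 ≤ h * |m k| := by positivity
        nlinarith
      linarith
  · intro k hGk hSk
    have hn' : |-etaS (S k) - (-3)| ≤ ρ := by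
      rw [← etaS_neg]
      exact (etaS_near (-S k) (6 / ρ) (by linarith)).trans hM
    have hn : |etaS (S k) - 3| ≤ ρ := by
      rw [show etaS (S k) - 3 = -(-etaS (S k) - (-3)) by ring, abs_neg]; exact hn'
    refine ⟨?_, ?_, ?_, ?_, ?_, ?_, hG0 k hGk, ?_⟩
    · rw [hoth]
      apply hfin
      apply loc_aux _ (c.Axx (etaS (S k))) (c.Axy (etaS (S k))) (c.kx (etaS (S k))) ε0 ε Cb h _ _ _ _
        hh (hZ k) (hζ k) (he k) hε0ε hε01
      · exact n2 _ (etaS_mem _) (hn.trans r2)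
      · exact (hb2 _ (etaS_mem _)).trans (by linarith)
      · exact (hb3 _ (etaS_mem _)).trans (by linarith)
      · exact hRS.hu k hGk
    · rw [hoth]
      apply hfin
      apply loc_aux _ (c.Axy (-etaS (S k))) (c.Axx (-etaS (S k))) (c.kx (-etaS (S k))) ε0 ε Cb h _ _ _ _
        hh (hZ k) (hζ k) (he k) hε0ε hε01
      · exact n3 _ (neg_etaS_mem _) (hn'.trans r3)
      · exact (hb1 _ (neg_etaS_mem _)).trans (by linarith)
      · exact (hb3 _ (neg_etaS_mem _)).trans (by linarith)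
      · exact hRS.hv k hGk
    · rw [hoth]
      have h9 : |m (k + 1) - m k - h * c.nx 3 * Real.exp (-X k)| ≤ 2 * ε * h * Real.exp (-X k)
          + (C + 1 + Cb) * oth h Y S m k := by
        apply hfin
        apply loc_aux _ (c.nx (etaS (S k))) (-c.nx (-etaS (S k))) (2 * c.lam (etaS (S k))) ε0 ε Cb h
          _ _ _ _ hh (hZ k) (hζ k) (he k) hε0ε hε01
        · exact n6 _ (etaS_mem _) (hn.trans r6)
        · rw [abs_neg]; exact (hb4 _ (neg_etaS_mem _)).trans (by linarith)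
        · rw [abs_mul, abs_two]; have := hb5 _ (etaS_mem (S k)); linarith
        · have := hRS.hm k hGk
          have e1 : Real.exp (-X k) * c.nx (etaS (S k)) + Real.exp (-Y k) * -c.nx (-etaS (S k))
              - m k ^ 2 * ES (S k) * (2 * c.lam (etaS (S k)))
              = Real.exp (-X k) * c.nx (etaS (S k)) - Real.exp (-Y k) * c.nx (-etaS (S k))
              - 2 * (m k ^ 2 * ES (S k)) * c.lam (etaS (S k)) := by ring
          rw [e1]; exact this
      have e2 : -m (k + 1) - -m k - h * -c.nx 3 * Real.exp (-X k)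
          = -(m (k + 1) - m k - h * c.nx 3 * Real.exp (-X k)) := by ring
      rw [e2, abs_neg]; exact h9
    · rw [hoth]; exact (hRS.hX k hGk).trans ((hh2 k).le.trans (hCh k))
    · rw [hoth]; exact (hRS.hY k hGk).trans ((hh2 k).le.trans (hCh k))
    · rw [hoth]
      have e3 : -S (k + 1) - -S k - 12 * h * -m k = -(S (k + 1) - S k - 12 * h * m k) := by ring
      rw [e3, abs_neg, abs_neg]
      refine (hRS.hS k hGk).trans ?_
      have h1 := (hh2 k).le.trans (hCh k)
      have h2 : ε0 * h * |m k| ≤ 2 * ε * h * |m k| := by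
        have : 0 ≤ h * |m k| := by positivity
        nlinarith
      linarith
    · rw [hoth]; exact hG1 k hGk

/-- rescaling of velocities -/
theorem RS.scale {c : Coef} {C c0 ε h δ : ℝ} {X Y S u v m G : ℕ → ℝ}
    (H : RS c C c0 ε h δ X Y S u v m G) (l : ℝ) (hl : 0 < l) :
    RS c C c0 ε (h * l) (δ / l) (fun k => X k + 2 * Real.log l) (fun k => Y k + 2 * Real.log l) S
      (fun k => u k / l) (fun k => v k / l) (fun k => m k / l) (fun k => G k / l) := by
  have hl2 : Real.exp (2 * Real.log l) = l ^ 2 := by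
    rw [mul_comm, Real.exp_mul, Real.exp_log hl]; norm_num
  have e1 : ∀ x : ℝ, Real.exp (-(x + 2 * Real.log l)) = Real.exp (-x) / l ^ 2 := by
    intro x; rw [neg_add, Real.exp_add, Real.exp_neg (2 * Real.log l), hl2]; ring
  have e2 : ∀ k, src (fun k => X k + 2 * Real.log l) (fun k => Y k + 2 * Real.log l) S
      (fun k => m k / l) k = src X Y S m k / l ^ 2 := by
    intro k; unfold src; simp only [e1]; ring
  have hG : ∀ k, G k / l ≤ δ / l → G k ≤ δ := by
    intro k hk; exact (div_le_div_iff_of_pos_right hl).mp hk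
  have hne : l ≠ 0 := hl.ne'
  have scl : ∀ (a b : ℝ), |a| ≤ b → |a / l| ≤ b / l := by
    intro a b hab; rw [abs_div, abs_of_pos hl]; exact (div_le_div_iff_of_pos_right hl).mpr hab
  constructor
  · intro k hk
    have := H.hX k (hG k hk)
    rw [e2]
    convert this using 1
    · congr 1; field_simp; ring
    · field_simp
  · intro k hk
    have := H.hY k (hG k hk)
    rw [e2]
    convert this using 1
    · congr 1; field_simp; ring
    · field_simp
  · intro k hk
    have := H.hS k (hG k hk)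
    rw [e2]
    convert this using 1
    · congr 1; field_simp
    · rw [abs_div, abs_of_pos hl]; field_simp
  · intro k hk
    have := scl _ _ (H.hu k (hG k hk))
    rw [e2]
    convert this using 1
    · congr 1; simp only [e1]; field_simp
    · field_simp
  · intro k hk
    have := scl _ _ (H.hv k (hG k hk))
    rw [e2]
    convert this using 1
    · congr 1; simp only [e1]; field_simp
    · field_simp
  · intro k hk
    have := scl _ _ (H.hm k (hG k hk))
    rw [e2]
    convert this using 1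
    · congr 1; simp only [e1]; field_simp
    · field_simp
  · intro k hk
    have := (div_le_div_iff_of_pos_right hl).mpr (H.hG0 k (hG k hk))
    rw [e2]
    have q1 : c0 * (h * l) * (src X Y S m k / l ^ 2) = c0 * h * src X Y S m k / l := by field_simp
    have q2 : G (k + 1) / l - G k / l = (G (k + 1) - G k) / l := by ring
    rw [q1, q2]; exact this
  · intro k hk
    have := (div_le_div_iff_of_pos_right hl).mpr (H.hG1 k (hG k hk))
    rw [e2]
    have q1 : C * (h * l) * (src X Y S m k / l ^ 2) = C * h * src X Y S m k / l := by field_simp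
    have q2 : G (k + 1) / l - G k / l = (G (k + 1) - G k) / l := by ring
    rw [q1, q2]; exact this

/-- reflection -/
theorem RS.refl {c : Coef} {C c0 ε h δ : ℝ} {X Y S u v m G : ℕ → ℝ} (hc : GoodCoef c)
    (H : RS c C c0 ε h δ X Y S u v m G) :
    RS c C c0 ε h δ Y X (fun k => -S k) v u (fun k => -m k) G := by
  have e2 : ∀ k, src Y X (fun k => -S k) (fun k => -m k) k = src X Y S m k := by
    intro k; unfold src; simp only [ES_neg, neg_sq]; ring
  have hlam : ∀ e ∈ Icc (-3 : ℝ) 3, c.lam (-e) = -c.lam e := by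
    intro e he
    have hne : -e ∈ Icc (-3 : ℝ) 3 := ⟨by linarith [he.2], by linarith [he.1]⟩
    have h1 := hc.gh_deriv e he
    have h2 : HasDerivAt (fun x => c.gh (-x)) (c.lam (-e) * c.gh (-e) * (-1)) e := by
      have := (hc.gh_deriv (-e) hne)
      exact HasDerivAt.comp e this (hasDerivAt_neg e)
    have h3 : HasDerivWithinAt c.gh (c.lam (-e) * c.gh (-e) * (-1)) (Icc (-3) 3) e := by
      apply h2.hasDerivWithinAt.congr
      · intro x hx; exact (hc.gh_even x hx).symm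
      · exact (hc.gh_even e he).symm
    have h4 := (uniqueDiffOn_Icc (by norm_num : (-3 : ℝ) < 3) e he).eq_deriv _
      h3 h1.hasDerivWithinAt
    rw [hc.gh_even e he] at h4
    have hg := hc.gh_pos e he
    have h5 : (c.lam (-e) + c.lam e) * c.gh e = 0 := by linarith
    rcases mul_eq_zero.mp h5 with h6 | h6
    · linarith
    · exact absurd h6 hg.ne'
  constructor
  · intro k hk; rw [e2]; exact H.hY k hk
  · intro k hk; rw [e2]; exact H.hX k hk
  · intro k hk
    rw [e2]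
    have e3 : -S (k + 1) - -S k - 12 * h * -m k = -(S (k + 1) - S k - 12 * h * m k) := by ring
    rw [e3, abs_neg, abs_neg]; exact H.hS k hk
  · intro k hk
    rw [e2]
    have := H.hv k hk
    simp only [ES_neg, neg_sq, etaS_neg]
    convert this using 3
    ring
  · intro k hk
    rw [e2]
    have := H.hu k hk
    simp only [ES_neg, neg_sq, etaS_neg, neg_neg]
    convert this using 3
    ring
  · intro k hk
    rw [e2]
    have := H.hm k hk
    simp only [ES_neg, neg_sq, etaS_neg, neg_neg]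
    rw [hlam _ (etaS_mem _)]
    rw [← abs_neg]
    convert this using 2
    ring
  · intro k hk; rw [e2]; exact H.hG0 k hk
  · intro k hk; rw [e2]; exact H.hG1 k hk

end Pool.Agent.Hhelper30.Forsythe
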