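import Pool.Agent.Hhelper30.Forsythe.Defs

/-! The reduced system (abstract real sequences). -/

set_option autoImplicit false

namespace Pool.Agent.Hhelper30.Forsythe

open Filter Topology Set

/-- coefficient functions of the reduced system, as functions of `η ∈ [-3,3]` -/
structure Coef where
  Axx : ℝ → ℝ
  Axy : ℝ → ℝ
  kx : ℝ → ℝ
  nx : ℝ → ℝ
  lam : ℝ → ℝ
  gh : ℝ → ℝ

/-- position of the moving zero as a function of `S = log((η+3)/(3-η))` -/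
noncomputable def etaS (S : ℝ) : ℝ := 3 * (Real.exp S - 1) / (Real.exp S + 1)

/-- `E = 9 - η²` as a function of `S` -/
noncomputable def ES (S : ℝ) : ℝ := 9 - etaS S ^ 2

/-- the properties of the coefficient functions used in the billiard analysis -/
structure GoodCoef (c : Coef) : Prop where
  cAxx : ContinuousOn c.Axx (Icc (-3) 3)
  cAxy : ContinuousOn c.Axy (Icc (-3) 3)
  ckx : ContinuousOn c.kx (Icc (-3) 3)
  cnx : ContinuousOn c.nx (Icc (-3) 3)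
  clam : ContinuousOn c.lam (Icc (-3) 3)
  gh_pos : ∀ e ∈ Icc (-3 : ℝ) 3, 0 < c.gh e
  gh_even : ∀ e ∈ Icc (-3 : ℝ) 3, c.gh (-e) = c.gh e
  gh_deriv : ∀ e ∈ Icc (-3 : ℝ) 3, HasDerivAt c.gh (c.lam e * c.gh e) e
  Axx_a : 0 < c.Axx (-3)
  Axx_b : 0 < c.Axx 3
  q_lo : c.Axy (-3) ≤ -2 * c.Axx 3
  q_hi : -3 * c.Axx 3 ≤ c.Axy (-3)
  r_lo : c.Axy 3 ≤ 0
  r_hi : -(1 / 2) * c.Axx (-3) ≤ c.Axy 3
  n_lo : (1 / 5) * c.Axx (-3) ≤ c.nx (-3)
  n_hi : c.nx (-3) ≤ (1 / 2) * c.Axx (-3)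
  n'_lo : 0 ≤ c.nx 3
  n'_hi : c.nx 3 ≤ (1 / 1000) * c.Axx 3
  K_lo : 800 ≤ 1 / 2 * c.gh (-3) * ∫ e in (-3 : ℝ)..3, c.kx e / c.gh e

/-- source strength -/
noncomputable def src (X Y S m : ℕ → ℝ) (k : ℕ) : ℝ :=
  Real.exp (-X k) + Real.exp (-Y k) + m k ^ 2 * ES (S k)

/-- the reduced system with time step `h` (the exact system has `h = 1`; rescaling the velocities
changes `h`) -/
structure RS (c : Coef) (C c0 ε h δ : ℝ) (X Y S u v m G : ℕ → ℝ) : Prop where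
  hX : ∀ k, G k ≤ δ → |X (k + 1) - X k - 2 * h * u k| ≤ C * h ^ 2 * src X Y S m k
  hY : ∀ k, G k ≤ δ → |Y (k + 1) - Y k - 2 * h * v k| ≤ C * h ^ 2 * src X Y S m k
  hS : ∀ k, G k ≤ δ → |S (k + 1) - S k - 12 * h * m k| ≤ ε * h * |m k| + C * h ^ 2 * src X Y S m k
  hu : ∀ k, G k ≤ δ → |u (k + 1) - u k - h * (Real.exp (-X k) * c.Axx (etaS (S k))
      + Real.exp (-Y k) * c.Axy (etaS (S k)) - m k ^ 2 * ES (S k) * c.kx (etaS (S k)))|
      ≤ ε * h * src X Y S m k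
  hv : ∀ k, G k ≤ δ → |v (k + 1) - v k - h * (Real.exp (-X k) * c.Axy (-etaS (S k))
      + Real.exp (-Y k) * c.Axx (-etaS (S k)) - m k ^ 2 * ES (S k) * c.kx (-etaS (S k)))|
      ≤ ε * h * src X Y S m k
  hm : ∀ k, G k ≤ δ → |m (k + 1) - m k - h * (Real.exp (-X k) * c.nx (etaS (S k))
      - Real.exp (-Y k) * c.nx (-etaS (S k)) - 2 * (m k ^ 2 * ES (S k)) * c.lam (etaS (S k)))|
      ≤ ε * h * src X Y S m k
  hG0 : ∀ k, G k ≤ δ → c0 * h * src X Y S m k ≤ G (k + 1) - G k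
  hG1 : ∀ k, G k ≤ δ → G (k + 1) - G k ≤ C * h * src X Y S m k

/-! ### observables of a backward orbit -/

noncomputable def BackOrbit.X (O : BackOrbit) (k : ℕ) : ℝ := -Real.log (-6 - O.h (2 * k) 0)
noncomputable def BackOrbit.Y (O : BackOrbit) (k : ℕ) : ℝ := -Real.log (6 - O.h (2 * k) 2)
noncomputable def BackOrbit.S (O : BackOrbit) (k : ℕ) : ℝ :=
  Real.log ((O.h (2 * k) 1 + 3) / (3 - O.h (2 * k) 1))
noncomputable def BackOrbit.u (O : BackOrbit) (k : ℕ) : ℝ :=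
  Real.log ((-6 - O.h (2 * k) 0) / (O.h (2 * k + 1) 0 + 6))
noncomputable def BackOrbit.v (O : BackOrbit) (k : ℕ) : ℝ :=
  Real.log ((6 - O.h (2 * k) 2) / (O.h (2 * k + 1) 2 - 6))
noncomputable def BackOrbit.m (O : BackOrbit) (k : ℕ) : ℝ :=
  (O.h (2 * k + 1) 1 - O.h (2 * k) 1) / (9 - O.h (2 * k) 1 ^ 2)
noncomputable def BackOrbit.G (O : BackOrbit) (k : ℕ) : ℝ := O.sg 0 - O.sg (2 * k)

/-! ### the reference -/

/-- `F(t)`, with `P*(z) P*(-z) = F(z²)` -/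
noncomputable def Fref (t : ℝ) : ℝ := (t - 9) * (t - 25) * (t - 100) * (t - 36 + 1 / 9504) + 1

/-- `r` are the (positive) square roots of the roots of `Fref` -/
structure IsRef (r : Fin 4 → ℝ) : Prop where
  r0 : 3 < r 0 ∧ r 0 < 4
  r1 : 4 < r 1 ∧ r 1 < 5
  r2 : 5 < r 2 ∧ r 2 < 6
  r3 : 6 < r 3 ∧ r 3 < 10
  root : ∀ i, Fref (r i ^ 2) = 0

/-- reference roots at even times -/
def pe (r : Fin 4 → ℝ) : Fin 4 → ℝ := ![-r 2, -r 1, r 0, r 3]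
/-- reference roots at odd times -/
def po (r : Fin 4 → ℝ) : Fin 4 → ℝ := ![-r 3, -r 0, r 1, r 2]

/-- the pair of states `(0,1)` of the orbit is `δ`-close to the reference -/
structure Near (r : Fin 4 → ℝ) (δ : ℝ) (O : BackOrbit) : Prop where
  p0 : ∀ j, |O.p 0 j - pe r j| ≤ δ
  p1 : ∀ j, |O.p 1 j - po r j| ≤ δ
  sg0 : |O.sg 0 - 1| ≤ δ

/-- `Π₊` -/
def PiP (z : ℝ) : ℝ := (z ^ 2 - 9) * (z ^ 2 - 25) * (z ^ 2 - 100)
/-- `Π̃` -/
def PiT (e : ℝ) : ℝ := (25 - e ^ 2) * (100 - e ^ 2)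

/-- the six nodes `Z⁺` -/
def zp : Fin 6 → ℝ := ![-10, -5, -3, 3, 5, 10]

/-- Lagrange basis on `Z⁺` -/
noncomputable def Lb (i : Fin 6) (z : ℝ) : ℝ :=
  ∏ j ∈ Finset.univ.erase i, (z - zp j) / (zp i - zp j)

/-- `τ̂_s(η)` -/
noncomputable def th (r : Fin 4 → ℝ) (s e : ℝ) : ℝ := 4 * (s - e) * Q4 (pe r) s / PiP s

/-- one-step (even) acceleration coefficient of receiver `z` from source `s` -/
noncomputable def aco (r : Fin 4 → ℝ) (z s e : ℝ) : ℝ :=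
  (th r s e * PiP z - 4 * ∑ i, Lb i z * (zp i - e) ^ 2 * Q4 (pe r) (zp i) / (zp i - s))
    / ((z - e) ^ 2 * Q4 (pe r) z) + if z = s then 0 else 4 / (z - s)

noncomputable def kco (r : Fin 4 → ℝ) (z e : ℝ) : ℝ :=
  -(Q4 (pe r) e / PiT e) * PiP z / ((z - e) ^ 2 * Q4 (pe r) z)

noncomputable def nco (r : Fin 4 → ℝ) (s e : ℝ) : ℝ :=
  th r s e / (e - s) * (PiT e / Q4 (pe r) e)

/-- logarithmic derivative of `P/Π̃` -/
noncomputable def lco (r : Fin 4 → ℝ) (e : ℝ) : ℝ :=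
  (∑ j, 1 / (e - pe r j)) + 2 * e / (25 - e ^ 2) + 2 * e / (100 - e ^ 2)

/-- the coefficient functions of the reduced system -/
noncomputable def coefRef (r : Fin 4 → ℝ) : Coef where
  Axx := fun e => aco r (-6) (-6) e + aco r 6 6 (-e)
  Axy := fun e => aco r (-6) 6 e + aco r 6 (-6) (-e)
  kx := fun e => kco r (-6) e + kco r 6 (-e)
  nx := fun e => nco r (-6) e - nco r 6 (-e)
  lam := fun e => (lco r e - lco r (-e)) / 2
  gh := fun e => Real.sqrt (Q4 (pe r) e * Q4 (pe r) (-e)) / PiT e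

end Pool.Agent.Hhelper30.Forsythe
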