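import Pool.Agent.Hhelper30.Forsythe.Defs

/-! Module A: from a forward orbit of weights to the frozen statement S04196. -/

set_option autoImplicit false

namespace Pool.Agent.Hhelper30.Forsythe

open Filter Topology Set Matrix

/-- diagonal entries of the matrix -/
noncomputable def aa (i : Fin 8) : ℝ := nd i + 11

theorem aa_pos (i : Fin 8) : 0 < aa i := by
  unfold aa nd
  fin_cases i <;> norm_num

theorem aa_injective : Function.Injective aa := by
  intro i j h
  unfold aa nd at h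
  fin_cases i <;> fin_cases j <;> first | rfl | (exfalso; norm_num at h)

theorem pow_mulVec (n : ℕ) (v : Fin 8 → ℝ) (j : Fin 8) :
    ((Matrix.diagonal aa) ^ n *ᵥ v) j = aa j ^ n * v j := by
  rw [Matrix.diagonal_pow, Matrix.mulVec_diagonal]
  rfl

/-- a polynomial of degree less than `8` vanishing at all `aa i` is zero -/
theorem poly_zero (q : Polynomial ℝ) (hq : q.natDegree < 8) (h : ∀ i, q.eval (aa i) = 0) : q = 0 := by
  apply Polynomial.eq_zero_of_natDegree_lt_card_of_eval_eq_zero q aa_injective h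
  simpa using hq

theorem minpoly_degree : 4 < (minpoly ℝ (Matrix.diagonal aa)).natDegree := by
  have hint : IsIntegral ℝ (Matrix.diagonal aa) := Matrix.isIntegral _
  have hne : minpoly ℝ (Matrix.diagonal aa) ≠ 0 := minpoly.ne_zero hint
  by_contra hcon
  push Not at hcon
  apply hne
  apply poly_zero _ (by omega)
  intro i
  have h1 : Polynomial.aeval (Matrix.diagonal aa) (minpoly ℝ (Matrix.diagonal aa)) = 0 :=
    minpoly.aeval _ _
  have h2 : (Matrix.diagonal aa) = Matrix.diagonalAlgHom ℝ aa := rfl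
  rw [h2, Polynomial.aeval_algHom_apply] at h1
  have h3 := congrFun (congrFun h1 i) i
  have h4 : (Polynomial.aeval aa (minpoly ℝ (Matrix.diagonalAlgHom ℝ aa))) i =
      Polynomial.aeval (aa i) (minpoly ℝ (Matrix.diagonalAlgHom ℝ aa)) := by
    have := Polynomial.aeval_algHom_apply (Pi.evalAlgHom ℝ (fun _ : Fin 8 => ℝ) i) aa
      (minpoly ℝ (Matrix.diagonalAlgHom ℝ aa))
    exact this.symm
  rw [Matrix.diagonalAlgHom_apply, Matrix.diagonal_apply_eq, h4] at h3
  rw [h2]
  rw [Polynomial.coe_aeval_eq_eval] at h3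
  exact h3

theorem posDef : (Matrix.diagonal aa).PosDef := Matrix.PosDef.diagonal aa_pos

theorem Q4_neg_pos (p : Fin 4 → ℝ) (hp : ∀ j, |p j| ≤ 10) : 0 < Q4 p (-11) := by
  have h0 := (abs_le.1 (hp 0)).1
  have h1 := (abs_le.1 (hp 1)).1
  have h2 := (abs_le.1 (hp 2)).1
  have h3 := (abs_le.1 (hp 3)).1
  have e : Q4 p (-11) = (11 + p 0) * (11 + p 1) * (11 + p 2) * (11 + p 3) := by
    unfold Q4; ring
  rw [e]
  have : 0 < 11 + p 0 := by linarith
  have : 0 < 11 + p 1 := by linarith
  have : 0 < 11 + p 2 := by linarith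
  have : 0 < 11 + p 3 := by linarith
  positivity

/-- the residuals -/
noncomputable def res (w : ℕ → Fin 8 → ℝ) (p : ℕ → Fin 4 → ℝ) : ℕ → Fin 8 → ℝ
  | 0 => fun i => Real.sqrt (w 0 i)
  | k + 1 => fun i => Q4 (p k) (nd i) / Q4 (p k) (-11) * res w p k i

/-- If `w` is a forward orbit (`p k` = roots of the orthogonal quartic of `w k`), all `w 0 i > 0`, and `w (2k) 3` does not
converge, then the frozen negation holds (body of `Pool.MP_2d0f4a_an.PoolFrozen.S04196`).  Matrix `diag (nd i + 11)`, `s = 4`,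
`b = 0`, `r_k = rho_k * (± sqrt (w k i))`, `x_k = -A⁻¹ r_k`, `r_{k+1} = Q4 (p k) (A - 11) r_k / Q4 (p k) (-11)`. -/
theorem not_main_of_forward (w : ℕ → Fin 8 → ℝ) (p : ℕ → Fin 4 → ℝ) (sg : ℕ → ℝ)
    (hw : ∀ k i, 0 ≤ w k i) (hw0 : ∀ i, 0 < w 0 i) (hsum : ∀ k, ∑ i, w k i = 1)
    (hsg : ∀ k, 0 < sg k) (hp : ∀ k j, |p k j| ≤ 10)
    (horth : ∀ k (j : Fin 4), ∑ i, w k i * Q4 (p k) (nd i) * nd i ^ (j : ℕ) = 0)
    (hupd : ∀ k i, w (k + 1) i * sg k = w k i * Q4 (p k) (nd i) ^ 2)
    (hne : ¬ ∃ L, Tendsto (fun k => w (2 * k) 3) atTop (𝓝 L)) :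
    ¬ (∀ (n : ℕ) (A : Matrix (Fin n) (Fin n) ℝ) (b : Fin n → ℝ) (s : ℕ),
      A.PosDef → 2 ≤ s → s < (minpoly ℝ A).natDegree →
      ∀ x : ℕ → (Fin n → ℝ),
        LinearIndependent ℝ
          (fun i : Fin (s + 1) => (A ^ (i : ℕ)) *ᵥ (b - A *ᵥ x 0)) →
        (∀ k : ℕ,
          x (k + 1) - x k ∈ Submodule.span ℝ (Set.range (fun i : Fin s =>
            (A ^ (i : ℕ)) *ᵥ ((Real.sqrt ((b - A *ᵥ x k) ⬝ᵥ (b - A *ᵥ x k)))⁻¹
              • (b - A *ᵥ x k)))) ∧
          ∀ v ∈ Submodule.span ℝ (Set.range (fun i : Fin s =>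
            (A ^ (i : ℕ)) *ᵥ ((Real.sqrt ((b - A *ᵥ x k) ⬝ᵥ (b - A *ᵥ x k)))⁻¹
              • (b - A *ᵥ x k)))),
            v ⬝ᵥ (b - A *ᵥ x (k + 1)) = 0) →
        (∃ L : Fin n → ℝ, Tendsto (fun k : ℕ =>
            (Real.sqrt ((b - A *ᵥ x (2 * k)) ⬝ᵥ (b - A *ᵥ x (2 * k))))⁻¹
              • (b - A *ᵥ x (2 * k))) atTop (𝓝 L)) ∧
        (∃ L : Fin n → ℝ, Tendsto (fun k : ℕ =>
            (Real.sqrt ((b - A *ᵥ x (2 * k + 1)) ⬝ᵥ (b - A *ᵥ x (2 * k + 1))))⁻¹
              • (b - A *ᵥ x (2 * k + 1))) atTop (𝓝 L))) := by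
  intro H
  obtain ⟨r, hr⟩ : ∃ r, r = res w p := ⟨_, rfl⟩
  obtain ⟨A, hA⟩ : ∃ A, A = Matrix.diagonal aa := ⟨_, rfl⟩
  obtain ⟨x, hx⟩ : ∃ x : ℕ → Fin 8 → ℝ, x = fun k i => -(r k i / aa i) := ⟨_, rfl⟩
  have hr0 : ∀ i, r 0 i = Real.sqrt (w 0 i) := by intro i; rw [hr]; rfl
  have hrs : ∀ k i, r (k + 1) i = Q4 (p k) (nd i) / Q4 (p k) (-11) * r k i := by
    intro k i; rw [hr]; rfl
  have hq : ∀ k, 0 < Q4 (p k) (-11) := fun k => Q4_neg_pos (p k) (hp k)
  -- residual
  have hres : ∀ k, (0 : Fin 8 → ℝ) - A *ᵥ x k = r k := by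
    intro k
    funext i
    rw [hA, Pi.sub_apply, Matrix.mulVec_diagonal, hx]
    have := (aa_pos i).ne'
    simp only [Pi.zero_apply]
    field_simp
    ring
  -- squares
  have hsq : ∀ k, ∃ ρ : ℝ, 0 < ρ ∧ ∀ i, r k i ^ 2 = ρ * w k i := by
    intro k
    induction k with
    | zero =>
      refine ⟨1, one_pos, fun i => ?_⟩
      rw [hr0, Real.sq_sqrt (hw 0 i), one_mul]
    | succ k ih =>
      obtain ⟨ρ, hρ, h⟩ := ih
      refine ⟨ρ * sg k / Q4 (p k) (-11) ^ 2, by have := hq k; have := hsg k; positivity, fun i => ?_⟩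
      rw [hrs, mul_pow, div_pow, h]
      have h1 := hupd k i
      have h2 := (hq k).ne'
      field_simp
      linear_combination -h1
  choose ρ hρ0 hρ using hsq
  have hdot : ∀ k, r k ⬝ᵥ r k = ρ k := by
    intro k
    unfold dotProduct
    have h1 : ∀ i, r k i * r k i = ρ k * w k i := by intro i; rw [← sq, hρ]
    rw [Finset.sum_congr rfl (fun i _ => h1 i), ← Finset.mul_sum, hsum, mul_one]
  have hsqrt : ∀ k, 0 < Real.sqrt (ρ k) := fun k => Real.sqrt_pos.2 (hρ0 k)
  have key := H 8 A 0 4 (by rw [hA]; exact posDef) (by norm_num) (by rw [hA]; exact minpoly_degree) x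
  simp only [hres, hdot] at key
  refine absurd (key ?_ ?_) ?_
  rotate_left 2
  · rintro ⟨⟨L, hL⟩, _⟩
    apply hne
    refine ⟨L 3 ^ 2, ?_⟩
    have h1 : Tendsto (fun k => ((Real.sqrt (ρ (2 * k)))⁻¹ • r (2 * k)) 3) atTop (𝓝 (L 3)) :=
      (tendsto_pi_nhds.1 hL) 3
    have h2 := h1.pow 2
    refine h2.congr (fun k => ?_)
    rw [Pi.smul_apply, smul_eq_mul, mul_pow, hρ, inv_pow, Real.sq_sqrt (hρ0 _).le]
    have := (hρ0 (2 * k)).ne'
    field_simp
  · -- linear independence
    rw [Fintype.linearIndependent_iff]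
    intro c hc
    obtain ⟨q, hqd⟩ : ∃ q : Polynomial ℝ, q = ∑ i : Fin 5, Polynomial.C (c i) * Polynomial.X ^ (i : ℕ) :=
      ⟨_, rfl⟩
    have hdeg : q.natDegree < 8 := by
      have : q.natDegree ≤ 4 := by
        rw [hqd]
        apply Polynomial.natDegree_sum_le_of_forall_le
        intro i _
        refine (Polynomial.natDegree_C_mul_X_pow_le _ _).trans ?_
        omega
      omega
    have hz : q = 0 := by
      apply poly_zero q hdeg
      intro j
      have h1 := congrFun hc j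
      have h2 : (∑ i : Fin 5, c i • (A ^ (i : ℕ) *ᵥ r 0)) j = q.eval (aa j) * r 0 j := by
        rw [Finset.sum_apply, hqd, Polynomial.eval_finsetSum, Finset.sum_mul]
        refine Finset.sum_congr rfl (fun i _ => ?_)
        rw [Pi.smul_apply, smul_eq_mul, hA, pow_mulVec]
        simp
        ring
      rw [h2] at h1
      rcases mul_eq_zero.1 h1 with h3 | h3
      · exact h3
      · exfalso
        rw [hr0] at h3
        exact (Real.sqrt_pos.2 (hw0 j)).ne' h3
    intro i
    have h3 : q.coeff (i : ℕ) = c i := by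
      rw [hqd, Polynomial.finsetSum_coeff]
      simp only [Polynomial.coeff_C_mul, Polynomial.coeff_X_pow]
      rw [Finset.sum_eq_single i]
      · simp
      · intro j _ hj
        rw [if_neg (fun h => hj (Fin.ext h.symm)), mul_zero]
      · intro h; exact absurd (Finset.mem_univ i) h
    rw [← h3, hz, Polynomial.coeff_zero]
  · intro k
    have hsk := (hsqrt k).ne'
    have hqk := (hq k).ne'
    constructor
    · -- the step lies in the Krylov space
      obtain ⟨c, hc⟩ : ∃ c : Fin 4 → ℝ, c = ![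
        -((11 + p k 0) * (11 + p k 1) * (11 + p k 2) + (11 + p k 0) * (11 + p k 1) * (11 + p k 3) +
          (11 + p k 0) * (11 + p k 2) * (11 + p k 3) + (11 + p k 1) * (11 + p k 2) * (11 + p k 3)),
        (11 + p k 0) * (11 + p k 1) + (11 + p k 0) * (11 + p k 2) + (11 + p k 0) * (11 + p k 3) +
          (11 + p k 1) * (11 + p k 2) + (11 + p k 1) * (11 + p k 3) + (11 + p k 2) * (11 + p k 3),
        -((11 + p k 0) + (11 + p k 1) + (11 + p k 2) + (11 + p k 3)), 1] := ⟨_, rfl⟩
      have hstep : x (k + 1) - x k = ∑ i : Fin 4, (-(c i * Real.sqrt (ρ k) / Q4 (p k) (-11))) •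
          (A ^ (i : ℕ) *ᵥ ((Real.sqrt (ρ k))⁻¹ • r k)) := by
        funext j
        have ha := (aa_pos j).ne'
        rw [Finset.sum_apply]
        have h1 : ∀ i : Fin 4, ((-(c i * Real.sqrt (ρ k) / Q4 (p k) (-11))) •
            (A ^ (i : ℕ) *ᵥ ((Real.sqrt (ρ k))⁻¹ • r k))) j =
            -(c i * aa j ^ (i : ℕ)) * (r k j / Q4 (p k) (-11)) := by
          intro i
          rw [Pi.smul_apply, smul_eq_mul, hA, pow_mulVec, Pi.smul_apply, smul_eq_mul]
          field_simp
        rw [Finset.sum_congr rfl (fun i _ => h1 i), ← Finset.sum_mul, Finset.sum_neg_distrib]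
        have h2 : (∑ i : Fin 4, c i * aa j ^ (i : ℕ)) * aa j =
            Q4 (p k) (nd j) - Q4 (p k) (-11) := by
          rw [Fin.sum_univ_four, hc]
          have h3 : nd j = aa j - 11 := by unfold aa; ring
          rw [h3]
          unfold Q4
          simp only [Matrix.cons_val_zero, Matrix.cons_val_one, Matrix.cons_val]
          simp
          ring
        rw [Pi.sub_apply, hx]
        simp only
        rw [hrs]
        have h4 : ∑ i : Fin 4, c i * aa j ^ (i : ℕ) =
            (Q4 (p k) (nd j) - Q4 (p k) (-11)) / aa j := by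
          rw [eq_div_iff ha, h2]
        rw [h4]
        field_simp
        ring
      rw [hstep]
      apply Submodule.sum_mem
      intro i _
      apply Submodule.smul_mem
      exact Submodule.subset_span ⟨i, rfl⟩
    · -- orthogonality
      intro v hv
      induction hv using Submodule.span_induction with
      | mem v hv =>
        obtain ⟨i, rfl⟩ := hv
        unfold dotProduct
        have h1 : ∀ j, (A ^ (i : ℕ) *ᵥ ((Real.sqrt (ρ k))⁻¹ • r k)) j * r (k + 1) j =
            (ρ k / (Real.sqrt (ρ k) * Q4 (p k) (-11))) *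
              (w k j * Q4 (p k) (nd j) * aa j ^ (i : ℕ)) := by
          intro j
          rw [hA, pow_mulVec, Pi.smul_apply, smul_eq_mul, hrs]
          have h2 := hρ k j
          field_simp
          linear_combination (Q4 (p k) (nd j) * aa j ^ (i : ℕ)) * h2
        simp only
        rw [Finset.sum_congr rfl (fun j _ => h1 j), ← Finset.mul_sum]
        have h3 : ∑ j, w k j * Q4 (p k) (nd j) * aa j ^ (i : ℕ) = 0 := by
          have e0 := horth k 0
          have e1 := horth k 1
          have e2 := horth k 2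
          have e3 := horth k 3
          simp only [Fin.sum_univ_eight] at e0 e1 e2 e3 ⊢
          unfold aa
          fin_cases i
          · simp at e0 ⊢
            linear_combination e0
          · simp at e0 e1 ⊢
            linear_combination e1 + 11 * e0
          · simp at e0 e1 e2 ⊢
            linear_combination e2 + 22 * e1 + 121 * e0
          · simp at e0 e1 e2 e3 ⊢
            linear_combination e3 + 33 * e2 + 363 * e1 + 1331 * e0
        rw [h3, mul_zero]
      | zero => exact zero_dotProduct _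
      | add u v _ _ hu hv => rw [add_dotProduct, hu, hv, add_zero]
      | smul c v _ hv => rw [smul_dotProduct, hv, smul_zero]

end Pool.Agent.Hhelper30.Forsythe
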