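import Pool.Agent.Hhelper30.Forsythe.RS

/-! Module E: existence of the reference roots and the numerical properties of the coefficient functions. -/

set_option autoImplicit false

namespace Pool.Agent.Hhelper30.Forsythe

open Filter Topology Set

/-! ### existence -/

theorem continuous_Fref : Continuous Fref := by
  unfold Fref; fun_prop

theorem exists_ref : ∃ r, IsRef r := by
  have key : ∀ a b : ℝ, 0 < a → a < b → (Fref (a ^ 2) < 0 ∧ 0 < Fref (b ^ 2) ∨ 0 < Fref (a ^ 2) ∧ Fref (b ^ 2) < 0) →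
      ∃ r, a < r ∧ r < b ∧ Fref (r ^ 2) = 0 := by
    intro a b ha hab h
    have hc : ContinuousOn (fun x : ℝ => Fref (x ^ 2)) (Icc a b) :=
      (continuous_Fref.comp (continuous_pow 2)).continuousOn
    rcases h with h | h
    · obtain ⟨r, hr, h0⟩ := intermediate_value_Ioo hab.le hc (show (0 : ℝ) ∈ Ioo _ _ from ⟨h.1, h.2⟩)
      exact ⟨r, hr.1, hr.2, h0⟩
    · obtain ⟨r, hr, h0⟩ := intermediate_value_Ioo' hab.le hc (show (0 : ℝ) ∈ Ioo _ _ from ⟨h.2, h.1⟩)
      exact ⟨r, hr.1, hr.2, h0⟩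
  obtain ⟨r0, h0, h0', e0⟩ := key 3 4 (by norm_num) (by norm_num) (by unfold Fref; norm_num)
  obtain ⟨r1, h1, h1', e1⟩ := key 4 5 (by norm_num) (by norm_num) (by unfold Fref; norm_num)
  obtain ⟨r2, h2, h2', e2⟩ := key 5 6 (by norm_num) (by norm_num) (by unfold Fref; norm_num)
  obtain ⟨r3, h3, h3', e3⟩ := key 6 10 (by norm_num) (by norm_num) (by unfold Fref; norm_num)
  refine ⟨![r0, r1, r2, r3], ⟨h0, h0'⟩, ⟨h1, h1'⟩, ⟨h2, h2'⟩, ⟨h3, h3'⟩, ?_⟩
  intro i
  fin_cases i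
  · exact e0
  · exact e1
  · exact e2
  · exact e3

/-! ### factorisation of `Fref` -/

theorem Fref_eq (r : Fin 4 → ℝ) (hr : IsRef r) (t : ℝ) :
    Fref t = (t - r 0 ^ 2) * (t - r 1 ^ 2) * (t - r 2 ^ 2) * (t - r 3 ^ 2) := by
  set A : Polynomial ℝ := (Polynomial.X - Polynomial.C 9) * (Polynomial.X - Polynomial.C 25) *
    (Polynomial.X - Polynomial.C 100) * (Polynomial.X - Polynomial.C (36 - 1 / 9504)) + Polynomial.C 1 with hA
  set B : Polynomial ℝ := (Polynomial.X - Polynomial.C (r 0 ^ 2)) * (Polynomial.X - Polynomial.C (r 1 ^ 2)) *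
    (Polynomial.X - Polynomial.C (r 2 ^ 2)) * (Polynomial.X - Polynomial.C (r 3 ^ 2)) with hB
  have hAe : ∀ x, A.eval x = Fref x := by
    intro x; simp only [hA, Fref, Polynomial.eval_add, Polynomial.eval_mul, Polynomial.eval_sub, Polynomial.eval_X,
      Polynomial.eval_C]; ring
  have hBe : ∀ x, B.eval x = (x - r 0 ^ 2) * (x - r 1 ^ 2) * (x - r 2 ^ 2) * (x - r 3 ^ 2) := by
    intro x; simp only [hB, Polynomial.eval_mul, Polynomial.eval_sub, Polynomial.eval_X,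
      Polynomial.eval_C]
  have hdA : A.natDegree = 4 := by
    rw [hA]; compute_degree!
  have hdB : B.natDegree = 4 := by
    rw [hB]; compute_degree!
  have hmA : A.Monic := by
    rw [hA]; monicity!
  have hmB : B.Monic := by
    rw [hB]; monicity!
  have h01 : r 0 < r 1 := by linarith [hr.r0.2, hr.r1.1]
  have h12 : r 1 < r 2 := by linarith [hr.r1.2, hr.r2.1]
  have h23 : r 2 < r 3 := by linarith [hr.r2.2, hr.r3.1]
  have h0 : 0 < r 0 := by linarith [hr.r0.1]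
  have hs01 : r 0 ^ 2 < r 1 ^ 2 := by nlinarith
  have hs12 : r 1 ^ 2 < r 2 ^ 2 := by nlinarith
  have hs23 : r 2 ^ 2 < r 3 ^ 2 := by nlinarith
  have hAB : A = B := by
    by_contra hne
    have hD : A - B ≠ 0 := sub_ne_zero.2 hne
    have hdeg : (A - B).degree < 4 := by
      have h4 : A.degree = B.degree := by
        rw [Polynomial.degree_eq_natDegree hmA.ne_zero, Polynomial.degree_eq_natDegree hmB.ne_zero, hdA, hdB]
      have := Polynomial.degree_sub_lt_left h4 hmA.ne_zero (by rw [hmA.leadingCoeff, hmB.leadingCoeff])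
      rwa [Polynomial.degree_eq_natDegree hmA.ne_zero, hdA] at this
    have := Polynomial.card_roots' (A - B)
    have hsub : ({r 0 ^ 2, r 1 ^ 2, r 2 ^ 2, r 3 ^ 2} : Finset ℝ) ⊆ (A - B).roots.toFinset := by
      intro x hx
      simp only [Finset.mem_insert, Finset.mem_singleton] at hx
      rw [Multiset.mem_toFinset, Polynomial.mem_roots hD, Polynomial.IsRoot, Polynomial.eval_sub, hAe, hBe]
      rcases hx with rfl | rfl | rfl | rfl
      · rw [hr.root 0]; ring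
      · rw [hr.root 1]; ring
      · rw [hr.root 2]; ring
      · rw [hr.root 3]; ring
    have hcard : ({r 0 ^ 2, r 1 ^ 2, r 2 ^ 2, r 3 ^ 2} : Finset ℝ).card = 4 := by
      rw [Finset.card_insert_of_notMem, Finset.card_insert_of_notMem, Finset.card_insert_of_notMem, Finset.card_singleton]
      · simp only [Finset.mem_singleton]; exact hs23.ne
      · simp only [Finset.mem_insert, Finset.mem_singleton, not_or]; exact ⟨hs12.ne, (hs12.trans hs23).ne⟩
      · simp only [Finset.mem_insert, Finset.mem_singleton, not_or]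
        exact ⟨hs01.ne, (hs01.trans hs12).ne, (hs01.trans (hs12.trans hs23)).ne⟩
    have h1 := (Finset.card_le_card hsub).trans (Multiset.toFinset_card_le _)
    have h2 : (A - B).natDegree < 4 := by
      rw [Polynomial.natDegree_lt_iff_degree_lt hD]; exact_mod_cast hdeg
    omega
  rw [← hAe, hAB, hBe]

/-! ### enclosures -/

structure Encl (r : Fin 4 → ℝ) : Prop where
  r0 : 3 < r 0 ∧ r 0 < 3.0002
  r1 : 4.9998 < r 1 ∧ r 1 < 5
  r2 : 5.9999 < r 2 ∧ r 2 < 6
  r3 : 9.9999 < r 3 ∧ r 3 < 10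

theorem encl_of_ref (r : Fin 4 → ℝ) (hr : IsRef r) : Encl r := by
  obtain ⟨a0, b0⟩ := hr.r0
  obtain ⟨a1, b1⟩ := hr.r1
  obtain ⟨a2, b2⟩ := hr.r2
  obtain ⟨a3, b3⟩ := hr.r3
  have s0 : 9 < r 0 ^ 2 ∧ r 0 ^ 2 < 16 := ⟨by nlinarith, by nlinarith⟩
  have s1 : 16 < r 1 ^ 2 ∧ r 1 ^ 2 < 25 := ⟨by nlinarith, by nlinarith⟩
  have s2 : 25 < r 2 ^ 2 ∧ r 2 ^ 2 < 36 := ⟨by nlinarith, by nlinarith⟩
  have s3 : 36 < r 3 ^ 2 ∧ r 3 ^ 2 < 100 := ⟨by nlinarith, by nlinarith⟩
  have e0 := Fref_eq r hr 9.001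
  have e1 := Fref_eq r hr 24.999
  have e2 := Fref_eq r hr 35.999
  have e3 := Fref_eq r hr 99.999
  unfold Fref at e0 e1 e2 e3
  have t0 : r 0 ^ 2 < 9.001 := by
    by_contra hcon
    push Not at hcon
    have h1 : 0 ≤ (r 0 ^ 2 - 9.001) * ((r 1 ^ 2 - 9.001) * ((r 2 ^ 2 - 9.001) * (r 3 ^ 2 - 9.001))) :=
      mul_nonneg (by linarith) (mul_nonneg (by linarith) (mul_nonneg (by linarith) (by linarith)))
    nlinarith
  have t1 : 24.999 < r 1 ^ 2 := by
    by_contra hcon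
    push Not at hcon
    have h1 : 0 ≤ (24.999 - r 0 ^ 2) * ((24.999 - r 1 ^ 2) * ((r 2 ^ 2 - 24.999) * (r 3 ^ 2 - 24.999))) :=
      mul_nonneg (by linarith) (mul_nonneg (by linarith) (mul_nonneg (by linarith) (by linarith)))
    nlinarith
  have t2 : 35.999 < r 2 ^ 2 := by
    by_contra hcon
    push Not at hcon
    have h1 : 0 ≤ (35.999 - r 0 ^ 2) * ((35.999 - r 1 ^ 2) * ((35.999 - r 2 ^ 2) * (r 3 ^ 2 - 35.999))) :=
      mul_nonneg (by linarith) (mul_nonneg (by linarith) (mul_nonneg (by linarith) (by linarith)))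
    nlinarith
  have t3 : 99.999 < r 3 ^ 2 := by
    by_contra hcon
    push Not at hcon
    have h1 : 0 ≤ (99.999 - r 0 ^ 2) * ((99.999 - r 1 ^ 2) * ((99.999 - r 2 ^ 2) * (99.999 - r 3 ^ 2))) :=
      mul_nonneg (by linarith) (mul_nonneg (by linarith) (mul_nonneg (by linarith) (by linarith)))
    nlinarith
  refine ⟨⟨a0, ?_⟩, ⟨?_, b1⟩, ⟨?_, b2⟩, ⟨?_, b3⟩⟩
  · nlinarith
  · nlinarith
  · nlinarith
  · nlinarith

end Pool.Agent.Hhelper30.Forsythe
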