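import Pool.Agent.Hhelper30.Forsythe.RefA

/-! Module E, part 2: values of the reference quartic at the nodes and of the coefficient functions. -/

set_option autoImplicit false

namespace Pool.Agent.Hhelper30.Forsythe

open Filter Topology Set

theorem Q4_pe (r : Fin 4 → ℝ) (z : ℝ) :
    Q4 (pe r) z = (z + r 2) * (z + r 1) * (z - r 0) * (z - r 3) := by
  simp only [Q4, pe, Matrix.cons_val_zero, Matrix.cons_val_one, Matrix.cons_val]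
  ring

theorem Q4_prod (r : Fin 4 → ℝ) (hr : IsRef r) (z : ℝ) :
    Q4 (pe r) z * Q4 (pe r) (-z) = Fref (z ^ 2) := by
  rw [Q4_pe, Q4_pe, Fref_eq r hr]; ring

/-- numerical data of the reference quartic -/
structure Vals (r : Fin 4 → ℝ) (a b c d a' b' c' d' : ℝ) : Prop where
  ea : Q4 (pe r) (-3) = a
  ea' : Q4 (pe r) 3 = a'
  eb : Q4 (pe r) 5 = -b
  eb' : Q4 (pe r) (-5) = -b'
  ec : Q4 (pe r) (-10) = c
  ec' : Q4 (pe r) 10 = c'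
  ed : Q4 (pe r) 6 = -d
  ed' : Q4 (pe r) (-6) = d'
  ha : 467 ≤ a ∧ a ≤ 469
  hb : 1099 ≤ b ∧ b ≤ 1101
  hc : 5199 ≤ c ∧ c ≤ 5201
  hd : 1583 ≤ d ∧ d ≤ 1585
  ha' : a * a' = 1
  hb' : b * b' = 1
  hc' : c * c' = 1
  hd' : d * d' = 1

theorem exists_vals (r : Fin 4 → ℝ) (hr : IsRef r) : ∃ a b c d a' b' c' d', Vals r a b c d a' b' c' d' := by
  obtain ⟨⟨l0, u0⟩, ⟨l1, u1⟩, ⟨l2, u2⟩, ⟨l3, u3⟩⟩ := encl_of_ref r hr
  have p3 := Q4_prod r hr 3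
  have p5 := Q4_prod r hr 5
  have p6 := Q4_prod r hr 6
  have p10 := Q4_prod r hr 10
  refine ⟨Q4 (pe r) (-3), -Q4 (pe r) 5, Q4 (pe r) (-10), -Q4 (pe r) 6, Q4 (pe r) 3, -Q4 (pe r) (-5),
    Q4 (pe r) 10, Q4 (pe r) (-6), rfl, rfl, by ring, by ring, rfl, rfl, by ring, rfl, ?_, ?_, ?_, ?_, ?_, ?_, ?_, ?_⟩
  · rw [Q4_pe]
    have e : (-3 + r 2) * (-3 + r 1) * (-3 - r 0) * (-3 - r 3) = ((r 2 - 3) * (r 1 - 3)) * ((3 + r 0) * (3 + r 3)) := by ring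
    rw [e]
    have h1 : 5.999 ≤ (r 2 - 3) * (r 1 - 3) ∧ (r 2 - 3) * (r 1 - 3) ≤ 6 := by constructor <;> nlinarith
    have h2 : 77.99 ≤ (3 + r 0) * (3 + r 3) ∧ (3 + r 0) * (3 + r 3) ≤ 78.01 := by constructor <;> nlinarith
    constructor <;> nlinarith [h1.1, h1.2, h2.1, h2.2]
  · rw [Q4_pe]
    have e : -((5 + r 2) * (5 + r 1) * (5 - r 0) * (5 - r 3)) = ((5 + r 2) * (5 + r 1)) * ((5 - r 0) * (r 3 - 5)) := by ring
    rw [e]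
    have h1 : 109.99 ≤ (5 + r 2) * (5 + r 1) ∧ (5 + r 2) * (5 + r 1) ≤ 110 := by constructor <;> nlinarith
    have h2 : 9.998 ≤ (5 - r 0) * (r 3 - 5) ∧ (5 - r 0) * (r 3 - 5) ≤ 10 := by constructor <;> nlinarith
    constructor <;> nlinarith [h1.1, h1.2, h2.1, h2.2]
  · rw [Q4_pe]
    have e : (-10 + r 2) * (-10 + r 1) * (-10 - r 0) * (-10 - r 3) = ((10 - r 2) * (10 - r 1)) * ((10 + r 0) * (10 + r 3)) := by ring
    rw [e]
    have h1 : 20 ≤ (10 - r 2) * (10 - r 1) ∧ (10 - r 2) * (10 - r 1) ≤ 20.0015 := by constructor <;> nlinarith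
    have h2 : 259.99 ≤ (10 + r 0) * (10 + r 3) ∧ (10 + r 0) * (10 + r 3) ≤ 260.01 := by constructor <;> nlinarith
    constructor <;> nlinarith [h1.1, h1.2, h2.1, h2.2]
  · rw [Q4_pe]
    have e : -((6 + r 2) * (6 + r 1) * (6 - r 0) * (6 - r 3)) = ((6 + r 2) * (6 + r 1)) * ((6 - r 0) * (r 3 - 6)) := by ring
    rw [e]
    have h1 : 131.99 ≤ (6 + r 2) * (6 + r 1) ∧ (6 + r 2) * (6 + r 1) ≤ 132 := by constructor <;> nlinarith
    have h2 : 11.998 ≤ (6 - r 0) * (r 3 - 6) ∧ (6 - r 0) * (r 3 - 6) ≤ 12 := by constructor <;> nlinarith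
    constructor <;> nlinarith [h1.1, h1.2, h2.1, h2.2]
  · rw [mul_comm, p3]; unfold Fref; norm_num
  · have : -Q4 (pe r) 5 * -Q4 (pe r) (-5) = Q4 (pe r) 5 * Q4 (pe r) (-5) := by ring
    rw [this, p5]; unfold Fref; norm_num
  · rw [mul_comm, p10]; unfold Fref; norm_num
  · have : -Q4 (pe r) 6 * Q4 (pe r) (-6) = -(Q4 (pe r) 6 * Q4 (pe r) (-6)) := by ring
    rw [this, p6]; unfold Fref; norm_num

theorem Lb_m6 : (∀ z : ℝ, z = -6 → Lb 0 z = 396 / 11375 ∧ Lb 1 z = 198 / 125 ∧ Lb 2 z = -66 / 91 ∧ Lb 3 z = 22 / 91 ∧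
    Lb 4 z = -18 / 125 ∧ Lb 5 z = 99 / 11375) := by
  rintro z rfl
  have e0 : Finset.univ.erase (0 : Fin 6) = {1, 2, 3, 4, 5} := by decide
  have e1 : Finset.univ.erase (1 : Fin 6) = {0, 2, 3, 4, 5} := by decide
  have e2 : Finset.univ.erase (2 : Fin 6) = {0, 1, 3, 4, 5} := by decide
  have e3 : Finset.univ.erase (3 : Fin 6) = {0, 1, 2, 4, 5} := by decide
  have e4 : Finset.univ.erase (4 : Fin 6) = {0, 1, 2, 3, 5} := by decide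
  have e5 : Finset.univ.erase (5 : Fin 6) = {0, 1, 2, 3, 4} := by decide
  unfold Lb
  rw [e0, e1, e2, e3, e4, e5]
  refine ⟨?_, ?_, ?_, ?_, ?_, ?_⟩ <;> simp [zp] <;> norm_num

theorem Lb_6 : (∀ z : ℝ, z = 6 → Lb 0 z = 99 / 11375 ∧ Lb 1 z = -18 / 125 ∧ Lb 2 z = 22 / 91 ∧ Lb 3 z = -66 / 91 ∧
    Lb 4 z = 198 / 125 ∧ Lb 5 z = 396 / 11375) := by
  rintro z rfl
  have e0 : Finset.univ.erase (0 : Fin 6) = {1, 2, 3, 4, 5} := by decide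
  have e1 : Finset.univ.erase (1 : Fin 6) = {0, 2, 3, 4, 5} := by decide
  have e2 : Finset.univ.erase (2 : Fin 6) = {0, 1, 3, 4, 5} := by decide
  have e3 : Finset.univ.erase (3 : Fin 6) = {0, 1, 2, 4, 5} := by decide
  have e4 : Finset.univ.erase (4 : Fin 6) = {0, 1, 2, 3, 5} := by decide
  have e5 : Finset.univ.erase (5 : Fin 6) = {0, 1, 2, 3, 4} := by decide
  unfold Lb
  rw [e0, e1, e2, e3, e4, e5]
  refine ⟨?_, ?_, ?_, ?_, ?_, ?_⟩ <;> simp [zp] <;> norm_num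

theorem zp_vals : zp 0 = -10 ∧ zp 1 = -5 ∧ zp 2 = -3 ∧ zp 3 = 3 ∧ zp 4 = 5 ∧ zp 5 = 10 := by
  refine ⟨?_, ?_, ?_, ?_, ?_, ?_⟩ <;> rfl

end Pool.Agent.Hhelper30.Forsythe
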