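import Pool.Agent.Hhelper30.Forsythe.RefB

/-! Module E, part 3: numerical inequalities of the coefficient functions at `±3`. -/

set_option autoImplicit false

namespace Pool.Agent.Hhelper30.Forsythe

open Filter Topology Set

theorem PiP_m6 : PiP (-6) = -19008 := by unfold PiP; norm_num
theorem PiP_6 : PiP 6 = -19008 := by unfold PiP; norm_num

section
variable {r : Fin 4 → ℝ} {a b c d a' b' c' d' : ℝ}

theorem aco_m6 (V : Vals r a b c d a' b' c' d') (s e q : ℝ) (hs : (s = -6 ∧ q = d') ∨ (s = 6 ∧ q = -d)) :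
    aco r (-6) s e = (4 * (s - e) * q - 4 * ((396 / 11375) * (-10 - e) ^ 2 * c / (-10 - s)
      + (198 / 125) * (-5 - e) ^ 2 * (-b') / (-5 - s) + (-66 / 91) * (-3 - e) ^ 2 * a / (-3 - s)
      + (22 / 91) * (3 - e) ^ 2 * a' / (3 - s) + (-18 / 125) * (5 - e) ^ 2 * (-b) / (5 - s)
      + (99 / 11375) * (10 - e) ^ 2 * c' / (10 - s))) * d / (-6 - e) ^ 2
      + if (-6 : ℝ) = s then 0 else 4 / (-6 - s) := by
  obtain ⟨L0, L1, L2, L3, L4, L5⟩ := Lb_m6 (-6) rfl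
  obtain ⟨z0, z1, z2, z3, z4, z5⟩ := zp_vals
  have hdd := V.hd'
  have hd0 : d ≠ 0 := by intro h; rw [h, zero_mul] at hdd; exact zero_ne_one hdd
  have hd0' : d' ≠ 0 := by intro h; rw [h, mul_zero] at hdd; exact zero_ne_one hdd
  have hth : th r s e * PiP (-6) = 4 * (s - e) * q := by
    rcases hs with ⟨h1, h2⟩ | ⟨h1, h2⟩
    · subst h1; subst h2; rw [th, V.ed', PiP_m6]; ring
    · subst h1; subst h2; rw [th, V.ed, PiP_6, PiP_m6]; ring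
  unfold aco
  rw [hth, Fin.sum_univ_six, L0, L1, L2, L3, L4, L5, z0, z1, z2, z3, z4, z5, V.ea, V.ea', V.eb, V.eb', V.ec, V.ec', V.ed']
  have hdiv : ∀ x k : ℝ, x / (k * d') = x * d / k := by
    intro x k
    rcases eq_or_ne k 0 with rfl | hk
    · simp
    · rw [div_eq_div_iff (mul_ne_zero hk hd0') hk]
      have : x * d * (k * d') = x * k * (d * d') := by ring
      rw [this, hdd, mul_one]
  rw [hdiv]

theorem aco_6 (V : Vals r a b c d a' b' c' d') (s e q : ℝ) (hs : (s = -6 ∧ q = d') ∨ (s = 6 ∧ q = -d)) :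
    aco r 6 s e = -((4 * (s - e) * q - 4 * ((99 / 11375) * (-10 - e) ^ 2 * c / (-10 - s)
      + (-18 / 125) * (-5 - e) ^ 2 * (-b') / (-5 - s) + (22 / 91) * (-3 - e) ^ 2 * a / (-3 - s)
      + (-66 / 91) * (3 - e) ^ 2 * a' / (3 - s) + (198 / 125) * (5 - e) ^ 2 * (-b) / (5 - s)
      + (396 / 11375) * (10 - e) ^ 2 * c' / (10 - s))) * d') / (6 - e) ^ 2
      + if (6 : ℝ) = s then 0 else 4 / (6 - s) := by
  obtain ⟨L0, L1, L2, L3, L4, L5⟩ := Lb_6 6 rfl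
  obtain ⟨z0, z1, z2, z3, z4, z5⟩ := zp_vals
  have hdd := V.hd'
  have hd0 : d ≠ 0 := by intro h; rw [h, zero_mul] at hdd; exact zero_ne_one hdd
  have hd0' : d' ≠ 0 := by intro h; rw [h, mul_zero] at hdd; exact zero_ne_one hdd
  have hth : th r s e * PiP 6 = 4 * (s - e) * q := by
    rcases hs with ⟨h1, h2⟩ | ⟨h1, h2⟩
    · subst h1; subst h2; rw [th, V.ed', PiP_m6, PiP_6]; ring
    · subst h1; subst h2; rw [th, V.ed, PiP_6]; ring
  unfold aco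
  rw [hth, Fin.sum_univ_six, L0, L1, L2, L3, L4, L5, z0, z1, z2, z3, z4, z5, V.ea, V.ea', V.eb, V.eb', V.ec, V.ec', V.ed]
  have hdiv : ∀ x k : ℝ, x / (k * (-d)) = -(x * d') / k := by
    intro x k
    rcases eq_or_ne k 0 with rfl | hk
    · simp
    · rw [div_eq_div_iff (mul_ne_zero hk (neg_ne_zero.2 hd0)) hk]
      have : -(x * d') * (k * -d) = x * k * (d * d') := by ring
      rw [this, hdd, mul_one]
  rw [hdiv]

theorem small_bounds (V : Vals r a b c d a' b' c' d') : (0 < a' ∧ a' ≤ 1 / 467) ∧ (0 < b' ∧ b' ≤ 1 / 1099) ∧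
    (0 < c' ∧ c' ≤ 1 / 5199) ∧ (0 < d' ∧ d' ≤ 1 / 1583) := by
  have key : ∀ x x' m : ℝ, 0 < m → m ≤ x → x * x' = 1 → 0 < x' ∧ x' ≤ 1 / m := by
    intro x x' m hm hx h
    have hx0 : 0 < x := lt_of_lt_of_le hm hx
    have : x' = 1 / x := by rw [eq_div_iff hx0.ne', mul_comm]; exact h
    rw [this]
    exact ⟨by positivity, one_div_le_one_div_of_le hm hx⟩
  exact ⟨key a a' 467 (by norm_num) V.ha.1 V.ha', key b b' 1099 (by norm_num) V.hb.1 V.hb',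
    key c c' 5199 (by norm_num) V.hc.1 V.hc', key d d' 1583 (by norm_num) V.hd.1 V.hd'⟩

/-- product of enclosures with a small factor -/
theorem mul_small_ref {x y B m : ℝ} (hx : -B ≤ x ∧ x ≤ B) (hy : 0 < y ∧ y ≤ m) (hB : 0 ≤ B) : -(B * m) ≤ x * y ∧ x * y ≤ B * m := by
  constructor
  · nlinarith [hx.1, hx.2, hy.1, hy.2, mul_nonneg hB (sub_nonneg.2 hy.2), mul_nonneg (sub_nonneg.2 hx.2) hy.1.le,
      mul_nonneg (by linarith [hx.1] : 0 ≤ x + B) hy.1.le]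
  · nlinarith [hx.1, hx.2, hy.1, hy.2, mul_nonneg hB (sub_nonneg.2 hy.2), mul_nonneg (sub_nonneg.2 hx.2) hy.1.le]

theorem mul_neg_bd {x y x1 x2 : ℝ} (h1 : x1 ≤ x) (h2 : x ≤ x2) (h3 : x2 ≤ 0) (hy : 1583 ≤ y ∧ y ≤ 1585) :
    x1 * 1585 ≤ x * y ∧ x * y ≤ x2 * 1583 := by
  constructor
  · nlinarith [hy.1, hy.2]
  · nlinarith [hy.1, hy.2]

theorem mul_pos_bd {x y x1 x2 : ℝ} (h1 : x1 ≤ x) (h2 : x ≤ x2) (h3 : 0 ≤ x1) (hy : 1583 ≤ y ∧ y ≤ 1585) :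
    x1 * 1583 ≤ x * y ∧ x * y ≤ x2 * 1585 := by
  constructor
  · nlinarith [hy.1, hy.2]
  · nlinarith [hy.1, hy.2]

/-- first part, `z = s = -6` -/
theorem p_xx (V : Vals r a b c d a' b' c' d') :
    (900000 ≤ aco r (-6) (-6) (-3) ∧ aco r (-6) (-6) (-3) ≤ 925000) ∧
    (900000 ≤ aco r (-6) (-6) 3 ∧ aco r (-6) (-6) 3 ≤ 925000) := by
  obtain ⟨⟨A1, A2⟩, ⟨B1, B2⟩, ⟨C1, C2⟩, ⟨D1, D2⟩⟩ := small_bounds V
  obtain ⟨a1, a2⟩ := V.ha
  obtain ⟨b1, b2⟩ := V.hb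
  obtain ⟨c1, c2⟩ := V.hc
  have hd := V.hd
  have h1 := aco_m6 V (-6) (-3) d' (Or.inl ⟨rfl, rfl⟩)
  have h2 := aco_m6 V (-6) 3 d' (Or.inl ⟨rfl, rfl⟩)
  constructor
  · rw [h1]
    set X := (4 * (-6 - -3) * d' - 4 * ((396 / 11375) * (-10 - -3) ^ 2 * c / (-10 - -6)
      + (198 / 125) * (-5 - -3) ^ 2 * (-b') / (-5 - -6) + (-66 / 91) * (-3 - -3) ^ 2 * a / (-3 - -6)
      + (22 / 91) * (3 - -3) ^ 2 * a' / (3 - -6) + (-18 / 125) * (5 - -3) ^ 2 * (-b) / (5 - -6)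
      + (99 / 11375) * (10 - -3) ^ 2 * c' / (10 - -6))) with hX
    have x1 : 5160 ≤ X := by rw [hX]; norm_num; linarith
    have x2 : X ≤ 5200 := by rw [hX]; norm_num; linarith
    have := mul_pos_bd x1 x2 (by norm_num) hd
    norm_num
    constructor <;> linarith [this.1, this.2]
  · rw [h2]
    set X := (4 * (-6 - 3) * d' - 4 * ((396 / 11375) * (-10 - 3) ^ 2 * c / (-10 - -6)
      + (198 / 125) * (-5 - 3) ^ 2 * (-b') / (-5 - -6) + (-66 / 91) * (-3 - 3) ^ 2 * a / (-3 - -6)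
      + (22 / 91) * (3 - 3) ^ 2 * a' / (3 - -6) + (-18 / 125) * (5 - 3) ^ 2 * (-b) / (5 - -6)
      + (99 / 11375) * (10 - 3) ^ 2 * c' / (10 - -6))) with hX
    have x1 : 46500 ≤ X := by rw [hX]; norm_num; linarith
    have x2 : X ≤ 47000 := by rw [hX]; norm_num; linarith
    have := mul_pos_bd x1 x2 (by norm_num) hd
    norm_num
    constructor <;> linarith [this.1, this.2]

/-- `z = -6`, `s = 6` -/
theorem p_xy (V : Vals r a b c d a' b' c' d') :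
    (-2530000 ≤ aco r (-6) 6 (-3) ∧ aco r (-6) 6 (-3) ≤ -2490000) ∧
    (-300000 ≤ aco r (-6) 6 3 ∧ aco r (-6) 6 3 ≤ -250000) := by
  obtain ⟨⟨A1, A2⟩, ⟨B1, B2⟩, ⟨C1, C2⟩, ⟨D1, D2⟩⟩ := small_bounds V
  obtain ⟨a1, a2⟩ := V.ha
  obtain ⟨b1, b2⟩ := V.hb
  obtain ⟨c1, c2⟩ := V.hc
  have hd := V.hd
  obtain ⟨d1, d2⟩ := V.hd
  have h1 := aco_m6 V 6 (-3) (-d) (Or.inr ⟨rfl, rfl⟩)
  have h2 := aco_m6 V 6 3 (-d) (Or.inr ⟨rfl, rfl⟩)
  constructor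
  · rw [h1]
    set X := (4 * (6 - -3) * -d - 4 * ((396 / 11375) * (-10 - -3) ^ 2 * c / (-10 - 6)
      + (198 / 125) * (-5 - -3) ^ 2 * (-b') / (-5 - 6) + (-66 / 91) * (-3 - -3) ^ 2 * a / (-3 - 6)
      + (22 / 91) * (3 - -3) ^ 2 * a' / (3 - 6) + (-18 / 125) * (5 - -3) ^ 2 * (-b) / (5 - 6)
      + (99 / 11375) * (10 - -3) ^ 2 * c' / (10 - 6))) with hX
    have x1 : X ≤ -14170 := by rw [hX]; norm_num; linarith
    have x2 : -14350 ≤ X := by rw [hX]; norm_num; linarith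
    have := mul_neg_bd x2 x1 (by norm_num) hd
    norm_num
    constructor <;> linarith [this.1, this.2]
  · rw [h2]
    set X := (4 * (6 - 3) * -d - 4 * ((396 / 11375) * (-10 - 3) ^ 2 * c / (-10 - 6)
      + (198 / 125) * (-5 - 3) ^ 2 * (-b') / (-5 - 6) + (-66 / 91) * (-3 - 3) ^ 2 * a / (-3 - 6)
      + (22 / 91) * (3 - 3) ^ 2 * a' / (3 - 6) + (-18 / 125) * (5 - 3) ^ 2 * (-b) / (5 - 6)
      + (99 / 11375) * (10 - 3) ^ 2 * c' / (10 - 6))) with hX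
    have x1 : X ≤ -14000 := by rw [hX]; norm_num; linarith
    have x2 : -14500 ≤ X := by rw [hX]; norm_num; linarith
    have := mul_neg_bd x2 x1 (by norm_num) hd
    norm_num
    constructor <;> linarith [this.1, this.2]

/-- the receivers `z = 6` only give small contributions -/
theorem p_small (V : Vals r a b c d a' b' c' d') :
    (0 ≤ aco r 6 6 (-3) ∧ aco r 6 6 (-3) ≤ 10) ∧ (0 ≤ aco r 6 6 3 ∧ aco r 6 6 3 ≤ 10) ∧
    (-10 ≤ aco r 6 (-6) (-3) ∧ aco r 6 (-6) (-3) ≤ 10) ∧ (-10 ≤ aco r 6 (-6) 3 ∧ aco r 6 (-6) 3 ≤ 10) := by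
  obtain ⟨⟨A1, A2⟩, ⟨B1, B2⟩, ⟨C1, C2⟩, ⟨D1, D2⟩⟩ := small_bounds V
  obtain ⟨a1, a2⟩ := V.ha
  obtain ⟨b1, b2⟩ := V.hb
  obtain ⟨c1, c2⟩ := V.hc
  have hd := V.hd
  obtain ⟨d1, d2⟩ := V.hd
  have h1 := aco_6 V 6 (-3) (-d) (Or.inr ⟨rfl, rfl⟩)
  have h2 := aco_6 V 6 3 (-d) (Or.inr ⟨rfl, rfl⟩)
  have h3 := aco_6 V (-6) (-3) d' (Or.inl ⟨rfl, rfl⟩)
  have h4 := aco_6 V (-6) 3 d' (Or.inl ⟨rfl, rfl⟩)
  refine ⟨?_, ?_, ?_, ?_⟩
  · rw [h1]
    set X := (4 * (6 - -3) * -d - 4 * ((99 / 11375) * (-10 - -3) ^ 2 * c / (-10 - 6)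
      + (-18 / 125) * (-5 - -3) ^ 2 * (-b') / (-5 - 6) + (22 / 91) * (-3 - -3) ^ 2 * a / (-3 - 6)
      + (-66 / 91) * (3 - -3) ^ 2 * a' / (3 - 6) + (198 / 125) * (5 - -3) ^ 2 * (-b) / (5 - 6)
      + (396 / 11375) * (10 - -3) ^ 2 * c' / (10 - 6))) with hX
    have x1 : X ≤ 0 := by rw [hX]; norm_num; linarith
    have x2 : -520000 ≤ X := by rw [hX]; norm_num; linarith
    have hA : 0 ≤ -X * d' := mul_nonneg (by linarith) D1.le
    have hB : -X * d' ≤ 520000 * (1 / 1583) := mul_le_mul (by linarith) D2 D1.le (by norm_num)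
    norm_num
    constructor <;> nlinarith [hA, hB]
  · rw [h2]
    set X := (4 * (6 - 3) * -d - 4 * ((99 / 11375) * (-10 - 3) ^ 2 * c / (-10 - 6)
      + (-18 / 125) * (-5 - 3) ^ 2 * (-b') / (-5 - 6) + (22 / 91) * (-3 - 3) ^ 2 * a / (-3 - 6)
      + (-66 / 91) * (3 - 3) ^ 2 * a' / (3 - 6) + (198 / 125) * (5 - 3) ^ 2 * (-b) / (5 - 6)
      + (396 / 11375) * (10 - 3) ^ 2 * c' / (10 - 6))) with hX
    have x1 : X ≤ 0 := by rw [hX]; norm_num; linarith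
    have x2 : -50000 ≤ X := by rw [hX]; norm_num; linarith
    have hA : 0 ≤ -X * d' := mul_nonneg (by linarith) D1.le
    have hB : -X * d' ≤ 50000 * (1 / 1583) := mul_le_mul (by linarith) D2 D1.le (by norm_num)
    norm_num
    constructor <;> nlinarith [hA, hB]
  · rw [h3]
    set X := (4 * (-6 - -3) * d' - 4 * ((99 / 11375) * (-10 - -3) ^ 2 * c / (-10 - -6)
      + (-18 / 125) * (-5 - -3) ^ 2 * (-b') / (-5 - -6) + (22 / 91) * (-3 - -3) ^ 2 * a / (-3 - -6)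
      + (-66 / 91) * (3 - -3) ^ 2 * a' / (3 - -6) + (198 / 125) * (5 - -3) ^ 2 * (-b) / (5 - -6)
      + (396 / 11375) * (10 - -3) ^ 2 * c' / (10 - -6))) with hX
    have x1 : 0 ≤ X := by rw [hX]; norm_num; linarith
    have x2 : X ≤ 50000 := by rw [hX]; norm_num; linarith
    have hA : 0 ≤ X * d' := mul_nonneg (by linarith) D1.le
    have hB : X * d' ≤ 50000 * (1 / 1583) := mul_le_mul (by linarith) D2 D1.le (by norm_num)
    norm_num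
    constructor <;> nlinarith [hA, hB]
  · rw [h4]
    set X := (4 * (-6 - 3) * d' - 4 * ((99 / 11375) * (-10 - 3) ^ 2 * c / (-10 - -6)
      + (-18 / 125) * (-5 - 3) ^ 2 * (-b') / (-5 - -6) + (22 / 91) * (-3 - 3) ^ 2 * a / (-3 - -6)
      + (-66 / 91) * (3 - 3) ^ 2 * a' / (3 - -6) + (198 / 125) * (5 - 3) ^ 2 * (-b) / (5 - -6)
      + (396 / 11375) * (10 - 3) ^ 2 * c' / (10 - -6))) with hX
    have x1 : 0 ≤ X := by rw [hX]; norm_num; linarith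
    have x2 : X ≤ 50000 := by rw [hX]; norm_num; linarith
    have hA : 0 ≤ X * d' := mul_nonneg (by linarith) D1.le
    have hB : X * d' ≤ 50000 * (1 / 1583) := mul_le_mul (by linarith) D2 D1.le (by norm_num)
    norm_num
    constructor <;> nlinarith [hA, hB]

theorem nx_m3 (V : Vals r a b c d a' b' c' d') :
    200000 ≤ (coefRef r).nx (-3) ∧ (coefRef r).nx (-3) ≤ 250000 := by
  obtain ⟨⟨A1, A2⟩, ⟨B1, B2⟩, ⟨C1, C2⟩, ⟨D1, D2⟩⟩ := small_bounds V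
  obtain ⟨a1, a2⟩ := V.ha
  have haa := V.ha'
  obtain ⟨d1, d2⟩ := V.hd
  have e : (coefRef r).nx (-3) = 4 * 1456 / 19008 * (d' * a' + d * a) := by
    have ha0 : a ≠ 0 := by linarith
    have ha0' : a' ≠ 0 := A1.ne'
    simp only [coefRef, nco, th, neg_neg, V.ed', V.ed, V.ea, V.ea', PiP_6, PiP_m6, PiT]
    have i1 : a⁻¹ = a' := by field_simp; linarith
    have i2 : a'⁻¹ = a := by field_simp; linarith
    simp only [div_eq_mul_inv, i1, i2]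
    norm_num
    ring
  rw [e]
  have h1 : 0 ≤ d' * a' := by positivity
  have h2 : d' * a' ≤ 1 := by nlinarith
  have h3 : 1583 * 467 ≤ d * a := by nlinarith
  have h4 : d * a ≤ 1585 * 469 := by nlinarith
  constructor <;> linarith

theorem nx_3 (V : Vals r a b c d a' b' c' d') :
    0 ≤ (coefRef r).nx 3 ∧ (coefRef r).nx 3 ≤ 10 := by
  obtain ⟨⟨A1, A2⟩, ⟨B1, B2⟩, ⟨C1, C2⟩, ⟨D1, D2⟩⟩ := small_bounds V
  obtain ⟨a1, a2⟩ := V.ha
  have haa := V.ha'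
  obtain ⟨d1, d2⟩ := V.hd
  have e : (coefRef r).nx 3 = 4 * 1456 / 19008 * (d' * a + d * a') := by
    have ha0 : a ≠ 0 := by linarith
    have ha0' : a' ≠ 0 := A1.ne'
    simp only [coefRef, nco, th, V.ed', V.ed, V.ea, V.ea', PiP_6, PiP_m6, PiT]
    have i1 : a⁻¹ = a' := by field_simp; linarith
    have i2 : a'⁻¹ = a := by field_simp; linarith
    simp only [div_eq_mul_inv, i1, i2]
    norm_num
    ring
  rw [e]
  have h1 : 0 ≤ d' * a := by positivity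
  have h2 : d' * a ≤ 1 := by nlinarith
  have h3 : 0 ≤ d * a' := by positivity
  have h4 : d * a' ≤ 4 := by nlinarith
  constructor <;> linarith

theorem coef_numbers (V : Vals r a b c d a' b' c' d') :
    (900000 ≤ (coefRef r).Axx (-3) ∧ (coefRef r).Axx (-3) ≤ 925010) ∧
    (900000 ≤ (coefRef r).Axx 3 ∧ (coefRef r).Axx 3 ≤ 925010) ∧
    (-2530010 ≤ (coefRef r).Axy (-3) ∧ (coefRef r).Axy (-3) ≤ -2489990) ∧
    (-300010 ≤ (coefRef r).Axy 3 ∧ (coefRef r).Axy 3 ≤ -249990) := by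
  obtain ⟨⟨p1, p2⟩, ⟨p3, p4⟩⟩ := p_xx V
  obtain ⟨⟨q1, q2⟩, ⟨q3, q4⟩⟩ := p_xy V
  obtain ⟨⟨s1, s2⟩, ⟨s3, s4⟩, ⟨s5, s6⟩, ⟨s7, s8⟩⟩ := p_small V
  have e1 : (coefRef r).Axx (-3) = aco r (-6) (-6) (-3) + aco r 6 6 3 := by simp only [coefRef, neg_neg]
  have e2 : (coefRef r).Axx 3 = aco r (-6) (-6) 3 + aco r 6 6 (-3) := by simp only [coefRef]
  have e3 : (coefRef r).Axy (-3) = aco r (-6) 6 (-3) + aco r 6 (-6) 3 := by simp only [coefRef, neg_neg]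
  have e4 : (coefRef r).Axy 3 = aco r (-6) 6 3 + aco r 6 (-6) (-3) := by simp only [coefRef]
  rw [e1, e2, e3, e4]
  refine ⟨⟨?_, ?_⟩, ⟨?_, ?_⟩, ⟨?_, ?_⟩, ⟨?_, ?_⟩⟩ <;> linarith

end

end Pool.Agent.Hhelper30.Forsythe
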