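import Pool.Agent.Hhelper30.Forsythe.Approach

/-! The bounce stage: one incoming particle `x` bounces while `η` stays near one end. -/

set_option autoImplicit false

namespace Pool.Agent.Hhelper30.Forsythe

open Filter Topology Set Finset

theorem ES_eq (S : ℝ) : ES S = 36 * Real.exp S / (Real.exp S + 1) ^ 2 := by
  unfold ES etaS
  have : Real.exp S + 1 ≠ 0 := by positivity
  field_simp
  ring

theorem ES_nonneg (S : ℝ) : 0 ≤ ES S := by rw [ES_eq]; positivity

theorem ES_le_exp (S : ℝ) : ES S ≤ 36 * Real.exp S := by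
  rw [ES_eq, div_le_iff₀ (by positivity)]
  have := Real.exp_pos S
  nlinarith [mul_pos this this, mul_pos (mul_pos this this) this]

theorem ES_neg (S : ℝ) : ES (-S) = ES S := by
  rw [ES_eq, ES_eq, Real.exp_neg]
  have := Real.exp_pos S
  field_simp
  ring

theorem etaS_neg (S : ℝ) : etaS (-S) = -etaS S := by
  unfold etaS
  rw [Real.exp_neg]
  have := Real.exp_pos S
  field_simp
  ring

theorem ES_le_nine (S : ℝ) : ES S ≤ 9 := by unfold ES; nlinarith [sq_nonneg (etaS S)]

/-- sources other than the `x`-source, times `h` -/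
noncomputable def oth (h : ℝ) (Y S m : ℕ → ℝ) (k : ℕ) : ℝ :=
  h * (Real.exp (-Y k) + m k ^ 2 * ES (S k))

theorem oth_nonneg (h : ℝ) (hh : 0 ≤ h) (Y S m : ℕ → ℝ) (k : ℕ) : 0 ≤ oth h Y S m k := by
  unfold oth
  have := ES_nonneg (S k)
  positivity

/-- local form of the reduced system near one end, `x` active -/
structure Loc (A R N C ε h : ℝ) (X Y S u v m G : ℕ → ℝ) (k : ℕ) : Prop where
  hu : |u (k + 1) - u k - h * A * Real.exp (-X k)|
    ≤ ε * h * Real.exp (-X k) + C * oth h Y S m k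
  hv : |v (k + 1) - v k - h * R * Real.exp (-X k)|
    ≤ ε * h * Real.exp (-X k) + C * oth h Y S m k
  hm : |m (k + 1) - m k - h * N * Real.exp (-X k)|
    ≤ ε * h * Real.exp (-X k) + C * oth h Y S m k
  hX : |X (k + 1) - X k - 2 * h * u k| ≤ C * h * (h * Real.exp (-X k) + oth h Y S m k)
  hY : |Y (k + 1) - Y k - 2 * h * v k| ≤ C * h * (h * Real.exp (-X k) + oth h Y S m k)
  hS : |S (k + 1) - S k - 12 * h * m k|
    ≤ ε * h * |m k| + C * h * (h * Real.exp (-X k) + oth h Y S m k)
  hG0 : 0 ≤ G (k + 1) - G k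
  hG1 : G (k + 1) - G k ≤ C * (h * Real.exp (-X k) + oth h Y S m k)

theorem sum_exp_min (b h : ℝ) (hb : 0 < b) (hh : 0 < h) (hbh : b * h ≤ 1) (kz K : ℕ)
    (hkz : kz ≤ K) :
    h * ∑ k ∈ range (K + 1), Real.exp (-(b * h * (min k kz : ℕ))) ≤
      2 / b + h + h * ((K : ℝ) - kz) := by
  have h1 : ∑ k ∈ range (K + 1), Real.exp (-(b * h * (min k kz : ℕ)))
      = ∑ k ∈ range kz, Real.exp (-(b * h * (min k kz : ℕ)))
        + ∑ k ∈ Ico kz (K + 1), Real.exp (-(b * h * (min k kz : ℕ))) := by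
    rw [Finset.range_eq_Ico, Finset.range_eq_Ico]
    exact (Finset.sum_Ico_consecutive _ (Nat.zero_le _) (by omega)).symm
  have h2 : ∑ k ∈ Ico kz (K + 1), Real.exp (-(b * h * (min k kz : ℕ))) ≤ (K : ℝ) + 1 - kz := by
    have : ∑ k ∈ Ico kz (K + 1), Real.exp (-(b * h * (min k kz : ℕ))) ≤
        ∑ k ∈ Ico kz (K + 1), (1 : ℝ) := by
      apply Finset.sum_le_sum
      intro k _
      apply Real.exp_le_one_iff.mpr
      have : (0 : ℝ) ≤ (min k kz : ℕ) := Nat.cast_nonneg _
      have := mul_nonneg (mul_nonneg hb.le hh.le) this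
      linarith
    refine this.trans ?_
    rw [Finset.sum_const, Nat.card_Ico, nsmul_eq_mul, mul_one, Nat.cast_sub (by omega)]
    push_cast; linarith
  have h3 : h * ∑ k ∈ range kz, Real.exp (-(b * h * (min k kz : ℕ))) ≤ 2 / b := by
    have e1 : ∑ k ∈ range kz, Real.exp (-(b * h * (min k kz : ℕ)))
        = ∑ k ∈ range kz, (Real.exp (-(b * h))) ^ k := by
      apply Finset.sum_congr rfl
      intro k hk
      rw [min_eq_left (Finset.mem_range.mp hk).le, ← Real.exp_nat_mul]
      congr 1; ring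
    rw [e1]
    set r := Real.exp (-(b * h)) with hr
    have hbhpos : 0 < b * h := mul_pos hb hh
    have hr1 : r * (1 + b * h) ≤ 1 := by
      have h4 : 1 + b * h ≤ Real.exp (b * h) := by linarith [Real.add_one_le_exp (b * h)]
      have h5 : r * Real.exp (b * h) = 1 := by rw [hr, ← Real.exp_add]; simp
      have hr0 : 0 < r := Real.exp_pos _
      nlinarith
    have hr0 : 0 < r := Real.exp_pos _
    have hr2 : b * h / 2 ≤ 1 - r := by nlinarith
    have hgs : (∑ k ∈ range kz, r ^ k) * (1 - r) ≤ 1 := by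
      rw [geom_sum_mul_neg]
      have : 0 ≤ r ^ kz := by positivity
      linarith
    have hs0 : 0 ≤ ∑ k ∈ range kz, r ^ k := Finset.sum_nonneg (fun _ _ => by positivity)
    rw [le_div_iff₀ hb]
    nlinarith [mul_le_mul_of_nonneg_left hr2 hs0]
  rw [h1, mul_add]
  have h4 := mul_le_mul_of_nonneg_left h2 hh.le
  nlinarith

end Pool.Agent.Hhelper30.Forsythe
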